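import Pool.Agent.H82.KSP.CNT

/-!
# Majority on the lines (1.7), and subadditivity for finite families
-/

set_option autoImplicit false

namespace Pool.KS3

open Finset Real
open Pool.Agent.H49.Ent Pool.Agent.H32.Dense Pool.STK Pool.KAF Pool.KAL Pool.KST

/-- Weighted majority: if two conditionally independent points of a line mostly have the same
label, then most points of the line have the label of the line. -/
theorem majw {Ω Λ Y : Type} [Fintype Ω] {p : Ω → ℝ} (hp0 : ∀ ω, 0 ≤ p ω) (lam : Ω → Λ)
    (y : Ω → Y) :
    ∃ sl : Λ → Option Y, (∑ ω, (open Classical in if some (y ω) ≠ sl (lam ω) then p ω else 0)) ≤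
      ∑ v, (open Classical in if y v.1 ≠ y v.2 then dbl p lam v else 0) := by
  classical
  -- the disagreement
  set f : Ω → ℝ := fun ω => ∑ ω', if lam ω' = lam ω ∧ y ω' ≠ y ω then p ω' else 0 with hf
  have hex : ∀ l : Λ, ∃ s : Option Y, ∀ ω, lam ω = l →
      (∑ ω', if lam ω' = l ∧ some (y ω') ≠ s then p ω' else 0) ≤ f ω := by
    intro l
    by_cases hne : (univ.filter (fun ω => lam ω = l)).Nonempty
    · obtain ⟨ω₀, hω₀, hmin⟩ := Finset.exists_min_image _ f hne
      refine ⟨some (y ω₀), fun ω hω => ?_⟩
      have h1 := hmin ω (by simp [hω])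
      have h2 : lam ω₀ = l := by simpa using hω₀
      refine le_trans (le_of_eq ?_) h1
      simp only [hf, h2, ne_eq, Option.some.injEq]
    · refine ⟨none, fun ω hω => absurd ⟨ω, by simp [hω]⟩ hne⟩
  choose sl hsl using hex
  refine ⟨sl, ?_⟩
  -- the right hand side
  have hr : ∑ v, (if y v.1 ≠ y v.2 then dbl p lam v else 0) =
      ∑ ω, p ω / law p lam (lam ω) * f ω := by
    rw [Fintype.sum_prod_type]
    refine Finset.sum_congr rfl fun ω _ => ?_
    rw [hf, Finset.mul_sum]
    refine Finset.sum_congr rfl fun ω' _ => ?_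
    unfold dbl glue
    by_cases h1 : lam ω = lam ω'
    · by_cases h2 : y ω = y ω'
      · simp [h2]
      · rw [if_pos h2, if_pos h1, if_pos ⟨h1.symm, Ne.symm h2⟩]
        ring
    · rw [if_neg (fun h : lam ω' = lam ω ∧ _ => h1 h.1.symm), mul_zero]
      split_ifs <;> rfl
  have hl : ∑ ω, (if some (y ω) ≠ sl (lam ω) then p ω else 0) =
      ∑ ω, p ω / law p lam (lam ω) *
        (∑ ω', if lam ω' = lam ω ∧ some (y ω') ≠ sl (lam ω) then p ω' else 0) := by
    simp only [Finset.mul_sum]
    rw [Finset.sum_comm]
    refine Finset.sum_congr rfl fun ω' _ => ?_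
    have h1 : ∀ ω, p ω / law p lam (lam ω) *
        (if lam ω' = lam ω ∧ some (y ω') ≠ sl (lam ω) then p ω' else 0) =
        (if lam ω = lam ω' then p ω else 0) * ((if some (y ω') ≠ sl (lam ω') then p ω' else 0) /
          law p lam (lam ω')) := by
      intro ω
      by_cases h : lam ω = lam ω'
      · rw [h]
        simp only [true_and, if_true]
        ring
      · rw [if_neg (fun h' : lam ω' = lam ω ∧ _ => h h'.1.symm), if_neg h]
        ring
    rw [Finset.sum_congr rfl fun ω _ => h1 ω, ← Finset.sum_mul]
    have h2 : ∑ ω, (if lam ω = lam ω' then p ω else 0) = law p lam (lam ω') := rfl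
    rw [h2]
    by_cases h3 : 0 < p ω'
    · rw [mul_div_cancel₀ _ (law_pos hp0 lam h3).ne']
    · have h4 : p ω' = 0 := le_antisymm (not_lt.mp h3) (hp0 ω')
      rw [h4]
      simp
  rw [hl, hr]
  refine Finset.sum_le_sum fun ω _ => ?_
  exact mul_le_mul_of_nonneg_left (hsl (lam ω) ω rfl)
    (div_nonneg (hp0 ω) (law_nonneg hp0 _ _))

/-- Subadditivity for a finite family. -/
theorem CH_pi_le {Ω ι S T : Type} [Fintype Ω] [Fintype ι] {p : Ω → ℝ} (hp0 : ∀ ω, 0 ≤ p ω)
    (X : Ω → ι → S) (W : Ω → T) : CH p X W ≤ ∑ i, CH p (fun ω => X ω i) W := by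
  classical
  have key : ∀ s : Finset ι, CH p (fun ω i => if i ∈ s then some (X ω i) else none) W ≤
      ∑ i ∈ s, CH p (fun ω => X ω i) W := by
    intro s
    induction s using Finset.induction_on with
    | empty =>
      rw [Finset.sum_empty]
      refine le_of_eq (CH_eq_zero hp0 ?_)
      intro ω ω' _ _ _
      funext i
      simp
    | insert j s hj ih =>
      rw [Finset.sum_insert hj]
      have h1 : CH p (fun ω i => if i ∈ insert j s then some (X ω i) else none) W ≤
          CH p (fun ω => (X ω j, fun i => if i ∈ s then some (X ω i) else none)) W := by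
        refine CH_mono_left hp0 ?_
        intro ω ω' _ _ h
        simp only [Prod.mk.injEq] at h
        funext i
        by_cases hi : i = j
        · subst hi
          simp only [Finset.mem_insert_self, if_true]
          rw [h.1.1]
        · have h2 := congrFun h.1.2 i
          simp only [Finset.mem_insert, hi, false_or]
          exact h2
      have h3 := CH_subadd hp0 (fun ω => X ω j) (fun ω i => if i ∈ s then some (X ω i) else none) W
      linarith
  have h1 := key univ
  refine le_trans (CH_mono_left hp0 ?_) h1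
  intro ω ω' _ _ h
  simp only [Finset.mem_univ, if_true, Prod.mk.injEq] at h
  funext i
  have h2 := congrFun h.1 i
  simpa using h2

end Pool.KS3
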