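import Pool.Agent.H82.KSP.ANI
import Pool.Agent.H78.KST.NRM

/-!
# The setting of one macro step

`K_STEP_helper79.md`: units of the long window. Incidences `(line, point)` with law `p`; the long
window has `2 ^ a` leaf windows with `2 ^ L` times each. The label `zx` of a point is a function
of the line and of the leaf window, and it determines the leaf cube.
-/

set_option autoImplicit false

namespace Pool.KS3

open Finset Real
open Pool.Agent.H49.Ent Pool.Agent.H32.Dense Pool.STK Pool.KAF Pool.KAL Pool.KST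

/-- A family of leaves in a long window. -/
structure StepF (n a L : ℕ) (C₀ : ℝ) {Ω Λ Ξ Z : Type} [Fintype Ω] (p : Ω → ℝ) (lam : Ω → Λ)
    (x : Ω → Ξ) (T : Ξ → ℕ) (pos : Ξ → Option (Fin n) → ℕ) (A B : Λ → Option (Fin n) → ℝ)
    (zx : Ξ → Z) (zl : Λ → ℕ → Z) (cz : Z → Option (Fin n) → ℕ) : Prop where
  leaf : Leaf n (2 ^ (a + L)) C₀ p lam x T pos A B
  lab : ∀ ω, zx (x ω) = zl (lam ω) (T (x ω) / 2 ^ L)
  cell : ∀ ω o, pos (x ω) o / 2 ^ L = cz (zx (x ω)) o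

/-- The line together with the leaf window. -/
def lamS {Ω Λ Ξ : Type} (lam : Ω → Λ) (x : Ω → Ξ) (T : Ξ → ℕ) (L : ℕ) : Ω → Λ × ℕ :=
  fun ω => (lam ω, T (x ω) / 2 ^ L)

/-- The time in the leaf window. -/
def TS {Ξ : Type} (T : Ξ → ℕ) (L : ℕ) : Ξ → ℕ := fun ξ => T ξ % 2 ^ L

/-- The position in the leaf cube. -/
def posS {Ξ : Type} {n : ℕ} (pos : Ξ → Option (Fin n) → ℕ) (L : ℕ) : Ξ → Option (Fin n) → ℕ :=
  fun ξ o => pos ξ o % 2 ^ L

/-- The line in the coordinates of the leaf cube. -/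
noncomputable def AS {Λ Z : Type} {n : ℕ} (A B : Λ → Option (Fin n) → ℝ) (zl : Λ → ℕ → Z)
    (cz : Z → Option (Fin n) → ℕ) (a : ℕ) : Λ × ℕ → Option (Fin n) → ℝ :=
  fun l o => 2 ^ a * A l.1 o + l.2 * B l.1 o - cz (zl l.1 l.2) o

/-- The velocity in the coordinates of the leaf cube. -/
def BS {Λ : Type} {n : ℕ} (B : Λ → Option (Fin n) → ℝ) : Λ × ℕ → Option (Fin n) → ℝ :=
  fun l => B l.1

/-- The corner of the leaf cube. -/
noncomputable def crz {Z : Type} {n : ℕ} (cz : Z → Option (Fin n) → ℕ) (a : ℕ) (ζ : Z) :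
    Option (Fin n) → ℝ := fun o => (cz ζ o : ℝ) / 2 ^ a

/-- The points of the leaf with label `ζ`. -/
noncomputable def ptz {Ω Ξ Z : Type} [Fintype Ω] {n : ℕ} (p : Ω → ℝ) (x : Ω → Ξ) (zx : Ξ → Z)
    (M : ℕ) (pos : Ξ → Option (Fin n) → ℕ) (ζ : Z) : Finset (Option (Fin n) → ℝ) :=
  open Classical in
  if (univ.filter (fun ω => 0 < p ω ∧ zx (x ω) = ζ)).Nonempty then
    (univ.filter (fun ω => 0 < p ω ∧ zx (x ω) = ζ)).image (fun ω => rp M pos (x ω))
  else {fun _ => 0}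

section pts

variable {Ω Ξ Z : Type} [Fintype Ω] {n : ℕ} {p : Ω → ℝ} {x : Ω → Ξ} {zx : Ξ → Z} {M : ℕ}
  {pos : Ξ → Option (Fin n) → ℕ}

lemma ptz_nonempty (ζ : Z) : (ptz p x zx M pos ζ).Nonempty := by
  classical
  unfold ptz
  split_ifs with h
  · exact h.image _
  · exact Finset.singleton_nonempty _

lemma mem_ptz {ω : Ω} (hω : 0 < p ω) : rp M pos (x ω) ∈ ptz p x zx M pos (zx (x ω)) := by
  classical
  have hmem : ω ∈ univ.filter (fun ω' => 0 < p ω' ∧ zx (x ω') = zx (x ω)) := by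
    simp only [Finset.mem_filter, Finset.mem_univ, true_and, and_true]
    exact hω
  unfold ptz
  rw [if_pos ⟨ω, hmem⟩]
  exact Finset.mem_image_of_mem (fun ω => rp M pos (x ω)) hmem

lemma exists_of_mem_ptz {ω₀ : Ω} (hω₀ : 0 < p ω₀) {z : Option (Fin n) → ℝ}
    (hz : z ∈ ptz p x zx M pos (zx (x ω₀))) :
    ∃ ω, 0 < p ω ∧ zx (x ω) = zx (x ω₀) ∧ z = rp M pos (x ω) := by
  classical
  have hmem : ω₀ ∈ univ.filter (fun ω' => 0 < p ω' ∧ zx (x ω') = zx (x ω₀)) := by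
    simp only [Finset.mem_filter, Finset.mem_univ, true_and, and_true]
    exact hω₀
  unfold ptz at hz
  rw [if_pos ⟨ω₀, hmem⟩, Finset.mem_image] at hz
  obtain ⟨ω, hω, rfl⟩ := hz
  simp only [Finset.mem_filter, Finset.mem_univ, true_and] at hω
  exact ⟨ω, hω.1, hω.2, rfl⟩

end pts

/-- The anisotropic jets in the notation of `JetA`. -/
lemma PsiC_eq {n : ℕ} {s : ℝ} (hs : s ≠ 0) (P : MvPolynomial (Option (Fin n)) ℝ) (h : ℝ)
    (z : Option (Fin n) → ℝ) : PsiC s P h z = PsiA P (thk h (h / s)) z := by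
  unfold PsiC Psi PsiA
  congr 1
  unfold ctr shf shA
  rw [← AlgHom.comp_apply, MvPolynomial.comp_aeval]
  congr 2
  funext o
  cases o with
  | none =>
    simp only [Option.elim, map_mul, MvPolynomial.aeval_X, MvPolynomial.algHom_C,
      MvPolynomial.algebraMap_eq, cpt, thk]
    have e1 : (MvPolynomial.C (1 / s) : MvPolynomial (Option (Fin n)) ℝ) *
        MvPolynomial.C s = 1 := by
      rw [← map_mul]
      have : 1 / s * s = 1 := by field_simp
      rw [this, map_one]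
    have e2 : (MvPolynomial.C (1 / s) : MvPolynomial (Option (Fin n)) ℝ) *
        MvPolynomial.C h = MvPolynomial.C (h / s) := by
      rw [← map_mul]
      congr 1
      field_simp
    linear_combination (MvPolynomial.C (z none)) * e1 + (MvPolynomial.X none) * e2
  | some i =>
    simp only [Option.elim, MvPolynomial.aeval_X, cpt, thk]

section small

variable {n a L : ℕ} {C₀ : ℝ} {Ω Λ Ξ Z : Type} [Fintype Ω] {p : Ω → ℝ} {lam : Ω → Λ}
    {x : Ω → Ξ} {T : Ξ → ℕ} {pos : Ξ → Option (Fin n) → ℕ} {A B : Λ → Option (Fin n) → ℝ}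
    {zx : Ξ → Z} {zl : Λ → ℕ → Z} {cz : Z → Option (Fin n) → ℕ}

/-- Division with remainder by a power of two. -/
lemma div_two_pow (m L : ℕ) : (m : ℝ) / 2 ^ L = ((m / 2 ^ L : ℕ) : ℝ) +
    ((m % 2 ^ L : ℕ) : ℝ) / 2 ^ L := by
  have h1 := Nat.div_add_mod m (2 ^ L)
  have h2 : (m : ℝ) = (2 : ℝ) ^ L * ((m / 2 ^ L : ℕ) : ℝ) + ((m % 2 ^ L : ℕ) : ℝ) := by
    have : ((2 ^ L * (m / 2 ^ L) + m % 2 ^ L : ℕ) : ℝ) = (m : ℝ) := by rw [h1]
    rw [← this]
    push_cast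
    ring
  have h3 : (0 : ℝ) < 2 ^ L := by positivity
  rw [eq_comm, h2]
  field_simp

/-- The position in the long window. -/
lemma StepF.rp_eq (h : StepF n a L C₀ p lam x T pos A B zx zl cz) (ω : Ω)
    (o : Option (Fin n)) : rp (2 ^ (a + L)) pos (x ω) o =
      crz cz a (zx (x ω)) o + 1 / 2 ^ a * rp (2 ^ L) (posS pos L) (x ω) o := by
  have h1 := div_two_pow (pos (x ω) o) L
  rw [h.cell ω o] at h1
  simp only [rp, crz, posS]
  have e1 : ((2 ^ (a + L) : ℕ) : ℝ) = 2 ^ a * 2 ^ L := by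
    push_cast
    rw [pow_add]
  have e2 : ((2 ^ L : ℕ) : ℝ) = 2 ^ L := by push_cast; rfl
  rw [e1, e2]
  have h3 : (0 : ℝ) < 2 ^ L := by positivity
  have h4 : (0 : ℝ) < 2 ^ a := by positivity
  have e3 : (pos (x ω) o : ℝ) / (2 ^ a * 2 ^ L) = (pos (x ω) o : ℝ) / 2 ^ L / 2 ^ a := by
    rw [div_div, mul_comm]
  rw [e3, h1]
  ring

/-- The leaves in their own units. -/
lemma StepF.small (hC : 1 ≤ C₀) (h : StepF n a L C₀ p lam x T pos A B zx zl cz) :
    Leaf n (2 ^ L) (3 * C₀) p (lamS lam x T L) x (TS T L) (posS pos L) (AS A B zl cz a) (BS B) := by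
  have h3 : (0 : ℝ) < 2 ^ L := by positivity
  have h4 : (0 : ℝ) < 2 ^ a := by positivity
  have hL1 : 0 < 2 ^ L := Nat.two_pow_pos L
  have e2 : ((2 ^ L : ℕ) : ℝ) = 2 ^ L := by push_cast; rfl
  have near : ∀ ω i, |(posS pos L (x ω) i : ℝ) / ((2 ^ L : ℕ) : ℝ) -
      (AS A B zl cz a (lamS lam x T L ω) i +
        (TS T L (x ω) : ℝ) / ((2 ^ L : ℕ) : ℝ) * BS B (lamS lam x T L ω) i)| ≤ C₀ / 2 ^ L := by
    intro ω o
    have h1 := h.leaf.near ω o
    have e1 : ((2 ^ (a + L) : ℕ) : ℝ) = 2 ^ a * 2 ^ L := by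
      push_cast
      rw [pow_add]
    rw [e1] at h1
    have d1 := div_two_pow (pos (x ω) o) L
    rw [h.cell ω o] at d1
    have d2 := div_two_pow (T (x ω)) L
    have e4 : (posS pos L (x ω) o : ℝ) / ((2 ^ L : ℕ) : ℝ) -
        (AS A B zl cz a (lamS lam x T L ω) o +
          (TS T L (x ω) : ℝ) / ((2 ^ L : ℕ) : ℝ) * BS B (lamS lam x T L ω) o) =
        2 ^ a * ((pos (x ω) o : ℝ) / (2 ^ a * 2 ^ L) - (A (lam ω) o +
          (T (x ω) : ℝ) / (2 ^ a * 2 ^ L) * B (lam ω) o)) := by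
      have f1 : 2 ^ a * ((pos (x ω) o : ℝ) / (2 ^ a * 2 ^ L) - (A (lam ω) o +
          (T (x ω) : ℝ) / (2 ^ a * 2 ^ L) * B (lam ω) o)) =
          (pos (x ω) o : ℝ) / 2 ^ L - (2 ^ a * A (lam ω) o +
            (T (x ω) : ℝ) / 2 ^ L * B (lam ω) o) := by
        field_simp
      rw [f1, d1, d2]
      simp only [posS, TS, AS, BS, lamS]
      rw [← h.lab ω, e2]
      ring
    rw [e4, abs_mul, abs_of_pos h4]
    have h5 := mul_le_mul_of_nonneg_left h1 h4.le
    refine h5.trans (le_of_eq ?_)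
    field_simp
  have tl : ∀ ω, TS T L (x ω) < 2 ^ L := fun ω => Nat.mod_lt _ hL1
  have pl : ∀ ω i, posS pos L (x ω) i < 2 ^ L := fun ω i => Nat.mod_lt _ hL1
  refine
    { isLaw := h.leaf.isLaw
      T_lt := tl
      pos_lt := pl
      near := ?_
      A_le := ?_
      B_le := ?_ }
  · intro ω i
    refine (near ω i).trans ?_
    rw [e2]
    exact div_le_div_of_nonneg_right (by linarith) h3.le
  · intro ω i
    have h1 := near ω i
    have h5 : (posS pos L (x ω) i : ℝ) / ((2 ^ L : ℕ) : ℝ) ≤ 1 := by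
      rw [e2, div_le_one h3]
      have := (pl ω i).le
      have h6 : ((posS pos L (x ω) i : ℕ) : ℝ) ≤ ((2 ^ L : ℕ) : ℝ) := by exact_mod_cast this
      rwa [e2] at h6
    have h5' : 0 ≤ (posS pos L (x ω) i : ℝ) / ((2 ^ L : ℕ) : ℝ) := by positivity
    have h6 : (TS T L (x ω) : ℝ) / ((2 ^ L : ℕ) : ℝ) ≤ 1 := by
      rw [e2, div_le_one h3]
      have := (tl ω).le
      have h6 : ((TS T L (x ω) : ℕ) : ℝ) ≤ ((2 ^ L : ℕ) : ℝ) := by exact_mod_cast this
      rwa [e2] at h6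
    have h6' : 0 ≤ (TS T L (x ω) : ℝ) / ((2 ^ L : ℕ) : ℝ) := by positivity
    have h7 : |BS B (lamS lam x T L ω) i| ≤ C₀ := h.leaf.B_le ω i
    have h8 : |(TS T L (x ω) : ℝ) / ((2 ^ L : ℕ) : ℝ) * BS B (lamS lam x T L ω) i| ≤ C₀ := by
      rw [abs_mul, abs_of_nonneg h6']
      have := abs_nonneg (BS B (lamS lam x T L ω) i)
      nlinarith
    have h9 : C₀ / 2 ^ L ≤ C₀ := by
      rw [div_le_iff₀ h3]
      have : (1 : ℝ) ≤ 2 ^ L := one_le_pow₀ (by norm_num)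
      nlinarith
    rw [abs_le] at h1 h8 ⊢
    constructor <;> linarith [h1.1, h1.2, h8.1, h8.2]
  · intro ω i
    have h7 : |BS B (lamS lam x T L ω) i| ≤ C₀ := h.leaf.B_le ω i
    linarith

/-- Jets in the units of the leaf and in the units of the long window. -/
lemma StepF.PsiC_eq (h : StepF n a L C₀ p lam x T pos A B zx zl cz) {s : ℝ} (hs : s ≠ 0)
    (P : MvPolynomial (Option (Fin n)) ℝ) (k : ℝ) (ω : Ω) :
    PsiC s (shf P (1 / 2 ^ a) (crz cz a (zx (x ω)))) (k / 2 ^ L)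
      (rp (2 ^ L) (posS pos L) (x ω)) =
    PsiC s P (k / 2 ^ (a + L)) (rp (2 ^ (a + L)) pos (x ω)) := by
  rw [PsiC_shf hs]
  have e1 : (fun o => crz cz a (zx (x ω)) o + 1 / 2 ^ a * rp (2 ^ L) (posS pos L) (x ω) o) =
      rp (2 ^ (a + L)) pos (x ω) := by
    funext o
    exact (h.rp_eq ω o).symm
  rw [e1]
  congr 1
  rw [pow_add]
  field_simp

end small

end Pool.KS3
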