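import Pool.Agent.H82.KSP.THL
import Pool.Agent.H99.KST.MKG

/-!
# The macro step (4')

`stp_core`: from the mutual information of the (masked) first label and the second point to a
label `y` which is a function of the leaf label, constant along the lines outside a small event,
and thin. `prc`: the price (1.3). `step_thm`: the macro step with the cut-off of helper99.
-/

set_option autoImplicit false

namespace Pool.KS3

open Finset Real Module
open Pool.Agent.H49.Ent Pool.Agent.H32.Dense Pool.STK Pool.KAF Pool.KAL Pool.KST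

/-- The core of the macro step. -/
theorem stp_core (n D : ℕ) (C₀ p₀ : ℝ) (hC₀ : 1 ≤ C₀) (hp₀ : 0 < p₀) : ∃ C₁ : ℝ, 1 ≤ C₁ ∧
    ∀ k₀ : ℕ, ∃ C₂ : ℝ, 1 ≤ C₂ ∧
    ∀ (a L : ℕ) (Ω Λ Ξ Z : Type) [Fintype Ω] (p : Ω → ℝ) (lam : Ω → Λ)
      (x : Ω → Ξ) (T : Ξ → ℕ) (pos : Ξ → Option (Fin n) → ℕ) (A B : Λ → Option (Fin n) → ℝ)
      (zx : Ξ → Z) (zl : Λ → ℕ → Z) (cz : Z → Option (Fin n) → ℕ)
      (G : Z → MvPolynomial (Fin n) ℝ) (κ γ N γ₀ : ℕ) (δ ε e₁ e₃ lm mi pG τ : ℝ) (e : Ξ → ℝ)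
      (gd : Ξ × Z → Bool),
      StepH n a L C₀ k₀ κ γ N δ ε e₁ e₃ p lam x T pos A B zx zl cz G e →
      (∀ ω, 0 < p ω → ¬ Bad (G (zx (x ω))) (fun _ => 0) 1 D lm) →
      6 * C₀ / 2 ^ L ≤ lm → lm ≤ 1 → 0 < τ → 0 ≤ mi →
      (∀ gd' : Ξ × Z → Bool, (∀ b, gd' b = true → gd b = true) →
        CH (dbl p lam) (msk x zx gd') (fun v => zx (x v.2)) -
          CH (dbl p lam) (msk x zx gd') (fun v => x v.2) ≤ mi) →
      (∑ v, if gd (x v.2, zx (x v.1)) = true then 0 else dbl p lam v) ≤ pG →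
      C₁ * (a + mi) + C₂ * RR n L κ γ N ε e₁ e₃ + 4 * τ ≤ γ₀ →
      ∃ (Y : Type) (y : Z → Y) (sl : Λ → Option Y),
        (∑ ω, (open Classical in if some (y (zx (x ω))) ≠ sl (lam ω) then p ω else 0)) ≤
          p₀ + 4 * pG ∧
        ∀ Rr : ℕ, (D + 1) * (lm * 2 ^ (γ₀ + L)) ≤ Rr →
          CH p (fun ω => pos (x ω) none / Rr) (fun ω => (bas pos (x ω), y (zx (x ω)))) ≤
            C₂ + C₂ * RR n L κ γ N ε e₁ e₃ / τ * ((a + L) * Real.log 2) := by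
  classical
  obtain ⟨C₁, hC₁, hrnd⟩ := rnd n D C₀ (p₀ / 2) hC₀ (by linarith only [hp₀])
  refine ⟨8 * C₁, by linarith only [hC₁], ?_⟩
  intro k₀
  obtain ⟨C₂, hC₂, hrnd⟩ := hrnd k₀
  obtain ⟨Ct, hCt, hthl⟩ := thl n D C₀ hC₀ k₀
  refine ⟨8 * C₂ + 2 * Ct, by linarith, ?_⟩
  intro a L Ω Λ Ξ Z _ p lam x T pos A B zx zl cz G κ γ N γ₀ δ ε e₁ e₃ lm mi pG τ e gd hF hbad hlm
    hlm1 hτ hmi0 hmi hpG hγ₀
  have hp := hF.step.leaf.isLaw
  have hp0 := hp.nonneg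
  have hC0 : (0 : ℝ) < C₀ := by linarith only [hC₀]
  have h2L : (0 : ℝ) < 2 ^ L := by positivity
  have h2g : (0 : ℝ) < 2 ^ γ₀ := by positivity
  have h2g1 : (1 : ℝ) ≤ 2 ^ γ₀ := one_le_pow₀ (by norm_num)
  set h₀ : ℝ := 6 * C₀ / 2 ^ L with hh₀
  have hh₀0 : 0 < h₀ := by positivity
  have hlm0 : 0 < lm := hh₀0.trans_le hlm
  have hs₁0 : 0 < h₀ / lm := div_pos hh₀0 hlm0
  have hs₁1 : h₀ / lm ≤ 1 := by
    rw [div_le_one hlm0]
    exact hlm
  have hs₂0 : 0 < h₀ / lm / 2 ^ γ₀ := div_pos hs₁0 h2g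
  have hs₂1 : h₀ / lm / 2 ^ γ₀ ≤ 1 := by
    rw [div_le_one h2g]
    linarith only [h2g1, hs₁1]
  have hh0 : (0 : ℝ) < 6 * C₀ / 2 ^ (a + L) := by positivity
  set R : ℝ := RR n L κ γ N ε e₁ e₃ with hR
  obtain ⟨-, hR1, -⟩ := hF.le_RR
  rw [← hR] at hR1
  -- the two roundings
  have hmi' : ∀ χ : Z → Ξ → Bool, (∀ ζ ξ, χ ζ ξ = true → (fun ζ ξ => gd (ξ, ζ)) ζ ξ = true) →
      CH (dbl p lam) (fun v => if χ (zx (x v.1)) (x v.2) then some (zx (x v.1)) else none)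
          (fun v => zx (x v.2)) -
        CH (dbl p lam) (fun v => if χ (zx (x v.1)) (x v.2) then some (zx (x v.1)) else none)
          (fun v => x v.2) ≤ mi := fun χ hχ =>
    hmi (fun b => χ b.2 b.1) (fun b hb => hχ b.2 b.1 hb)
  obtain ⟨y₁, hy₁, hq₁⟩ := hrnd a L Ω Λ Ξ Z p lam x T pos A B zx zl cz G κ γ N δ ε e₁ e₃
    (h₀ / lm) mi pG e (fun ζ ξ => gd (ξ, ζ)) hF hs₁0 hs₁1 hmi0 hmi' hpG
  obtain ⟨y₂, hy₂, hq₂⟩ := hrnd a L Ω Λ Ξ Z p lam x T pos A B zx zl cz G κ γ N δ ε e₁ e₃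
    (h₀ / lm / 2 ^ γ₀) mi pG e (fun ζ ξ => gd (ξ, ζ)) hF hs₂0 hs₂1 hmi0 hmi' hpG
  set y : Z → Seminorm ℝ (MvPolynomial.restrictTotalDegree (Option (Fin n)) ℝ D) ×
      Seminorm ℝ (MvPolynomial.restrictTotalDegree (Option (Fin n)) ℝ D) := fun ζ =>
    (y₁ (NZ D p x zx (2 ^ (a + L)) pos (6 * C₀ / 2 ^ (a + L)) (h₀ / lm) ζ),
      y₂ (NZ D p x zx (2 ^ (a + L)) pos (6 * C₀ / 2 ^ (a + L)) (h₀ / lm / 2 ^ γ₀) ζ)) with hy
  obtain ⟨sl, hsl⟩ := majw hp0 lam (fun ω => y (zx (x ω)))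
  refine ⟨_, y, sl, ?_, ?_⟩
  · have hq₁' := le_trans (le_of_eq (Finset.sum_congr rfl fun v _ => ite_dec _
      (instDecidableNot) _ _ _)) hq₁
    have hq₂' := le_trans (le_of_eq (Finset.sum_congr rfl fun v _ => ite_dec _
      (instDecidableNot) _ _ _)) hq₂
    refine (hsl.trans (le_of_eq (Finset.sum_congr rfl fun v _ => ite_dec _ _
      (instDecidableNot) _ _))).trans ?_
    have h1 : (∑ v, if y (zx (x v.1)) ≠ y (zx (x v.2)) then dbl p lam v else 0) ≤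
        (∑ v, (if y₁ (NZ D p x zx (2 ^ (a + L)) pos (6 * C₀ / 2 ^ (a + L)) (h₀ / lm)
            (zx (x v.1))) ≠
          y₁ (NZ D p x zx (2 ^ (a + L)) pos (6 * C₀ / 2 ^ (a + L)) (h₀ / lm) (zx (x v.2))) then
          dbl p lam v else 0)) +
        (∑ v, (if y₂ (NZ D p x zx (2 ^ (a + L)) pos (6 * C₀ / 2 ^ (a + L))
            (h₀ / lm / 2 ^ γ₀) (zx (x v.1))) ≠
          y₂ (NZ D p x zx (2 ^ (a + L)) pos (6 * C₀ / 2 ^ (a + L)) (h₀ / lm / 2 ^ γ₀)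
            (zx (x v.2))) then dbl p lam v else 0)) := by
      rw [← Finset.sum_add_distrib]
      refine Finset.sum_le_sum fun v _ => ?_
      have h2 : 0 ≤ dbl p lam v := dbl_nonneg hp0 v
      by_cases c : y (zx (x v.1)) = y (zx (x v.2))
      · rw [if_neg (not_not.mpr c)]
        have i1 : (0 : ℝ) ≤ (if y₁ (NZ D p x zx (2 ^ (a + L)) pos (6 * C₀ / 2 ^ (a + L))
            (h₀ / lm) (zx (x v.1))) ≠
          y₁ (NZ D p x zx (2 ^ (a + L)) pos (6 * C₀ / 2 ^ (a + L)) (h₀ / lm) (zx (x v.2))) then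
          dbl p lam v else 0) := by
          split_ifs
          exacts [h2, le_rfl]
        have i2 : (0 : ℝ) ≤ (if y₂ (NZ D p x zx (2 ^ (a + L)) pos (6 * C₀ / 2 ^ (a + L))
            (h₀ / lm / 2 ^ γ₀) (zx (x v.1))) ≠
          y₂ (NZ D p x zx (2 ^ (a + L)) pos (6 * C₀ / 2 ^ (a + L)) (h₀ / lm / 2 ^ γ₀)
            (zx (x v.2))) then dbl p lam v else 0) := by
          split_ifs
          exacts [h2, le_rfl]
        linarith only [i1, i2]
      · rw [if_pos c]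
        by_cases c1 : y₁ (NZ D p x zx (2 ^ (a + L)) pos (6 * C₀ / 2 ^ (a + L)) (h₀ / lm)
            (zx (x v.1))) =
          y₁ (NZ D p x zx (2 ^ (a + L)) pos (6 * C₀ / 2 ^ (a + L)) (h₀ / lm) (zx (x v.2)))
        · have c2 : y₂ (NZ D p x zx (2 ^ (a + L)) pos (6 * C₀ / 2 ^ (a + L))
              (h₀ / lm / 2 ^ γ₀) (zx (x v.1))) ≠
            y₂ (NZ D p x zx (2 ^ (a + L)) pos (6 * C₀ / 2 ^ (a + L)) (h₀ / lm / 2 ^ γ₀)
              (zx (x v.2))) := by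
            intro c2
            exact c (Prod.ext c1 c2)
          rw [if_neg (not_not.mpr c1), if_pos c2, zero_add]
        · rw [if_pos c1]
          split_ifs <;> linarith
    linarith only [hq₁, hq₂, h1]
  · intro Rr hRr
    set k₃ : ℝ := 2 * (C₁ * (a + mi) + C₂ * R) with hk₃
    have hl2 : (1 / 2 : ℝ) ≤ Real.log 2 := by
      have := Real.log_two_gt_d9
      linarith only [this]
    have hγ : 2 * τ + 2 * k₃ + Ct ≤ γ₀ * Real.log 2 := by
      have h1 : (γ₀ : ℝ) * (1 / 2) ≤ γ₀ * Real.log 2 :=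
        mul_le_mul_of_nonneg_left hl2 (Nat.cast_nonneg _)
      have h2 : Ct * 1 ≤ Ct * R := mul_le_mul_of_nonneg_left hR1 (by linarith only [hCt])
      have h3 : (8 * C₂ + 2 * Ct) * R = 8 * (C₂ * R) + 2 * (Ct * R) := by ring
      have h4 : 8 * C₁ * (a + mi) = 8 * (C₁ * (a + mi)) := by ring
      rw [h3, h4] at hγ₀
      rw [hk₃]
      linarith only [hγ₀, h1, h2]
    have key := hthl a L Ω Λ Ξ Z _ p lam x T pos A B zx zl cz G κ γ N γ₀ δ ε e₁ e₃ lm k₃ τ e y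
      hF hbad hlm hlm1 hτ (by
        intro ζ ζ' hζ
        have h1 := (Prod.ext_iff.mp hζ).1
        have h2 := (Prod.ext_iff.mp hζ).2
        exact ⟨Dl.of_round hy₁ (NZ_isN hh0 hs₁0 ζ) (NZ_isN hh0 hs₁0 ζ') h1,
          Dl.of_round hy₂ (NZ_isN hh0 hs₂0 ζ) (NZ_isN hh0 hs₂0 ζ') h2⟩) hγ Rr hRr
    refine key.trans ?_
    rw [← hR]
    have haL : 0 ≤ ((a : ℝ) + L) * Real.log 2 := by
      have : (0 : ℝ) ≤ Real.log 2 := by linarith only [hl2]
      positivity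
    have h1 : Ct * R / τ * ((a + L) * Real.log 2) ≤
        (8 * C₂ + 2 * Ct) * R / τ * ((a + L) * Real.log 2) := by
      refine mul_le_mul_of_nonneg_right ?_ haL
      refine div_le_div_of_nonneg_right ?_ hτ.le
      exact mul_le_mul_of_nonneg_right (by linarith only [hC₂, hCt]) (by linarith only [hR1])
    linarith only [hC₂, hCt, h1]

/-- The price (1.3). -/
theorem prc (n D : ℕ) (C₀ : ℝ) (hC₀ : 1 ≤ C₀) (k₀ : ℕ) : ∃ C : ℝ, 1 ≤ C ∧
    ∀ (a L : ℕ) (Ω Λ Ξ Z : Type) [Fintype Ω] (p : Ω → ℝ) (lam : Ω → Λ)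
      (x : Ω → Ξ) (T : Ξ → ℕ) (pos : Ξ → Option (Fin n) → ℕ) (A B : Λ → Option (Fin n) → ℝ)
      (zx : Ξ → Z) (zl : Λ → ℕ → Z) (cz : Z → Option (Fin n) → ℕ)
      (G : Z → MvPolynomial (Fin n) ℝ) (κ γ N : ℕ) (δ ε e₁ e₃ e₅ eT lm : ℝ) (e : Ξ → ℝ),
      StepH n a L C₀ k₀ κ γ N δ ε e₁ e₃ p lam x T pos A B zx zl cz G e →
      (∀ ω, 0 < p ω → ¬ Bad (G (zx (x ω))) (fun _ => 0) 1 D lm) →
      6 * C₀ / 2 ^ L ≤ lm → lm ≤ 1 →
      (a + L) * Real.log 2 - CH p (fun ω => T (x ω)) lam ≤ eT →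
      CH p x (fun ω => pos (x ω)) ≤ e₅ →
      CH (dbl p lam) (fun v => zx (x v.1)) (fun v => x v.2) ≤
        (n + 4 * D) * (a * Real.log 2) + Real.log ((a + L : ℕ) + 2) + Real.log (lm * 2 ^ L) +
          2 * D * eT + e₅ + C * RR n L κ γ N ε e₁ e₃ := by
  classical
  obtain ⟨Cc, hCc, hcnt⟩ := cnt n D C₀ hC₀ k₀
  have h3C : (1 : ℝ) ≤ 3 * C₀ := by linarith only [hC₀]
  obtain ⟨Cu, hCu, hful⟩ := fulh_thm n (3 * C₀) h3C
  have hn0 : (0 : ℝ) ≤ n := Nat.cast_nonneg n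
  refine ⟨Cc + Cu + n, by linarith, ?_⟩
  intro a L Ω Λ Ξ Z _ p lam x T pos A B zx zl cz G κ γ N δ ε e₁ e₃ e₅ eT lm e hF hbad hlm hlm1
    heT he₅
  have hp := hF.step.leaf.isLaw
  have hp0 := hp.nonneg
  have hC0 : (0 : ℝ) < C₀ := by linarith only [hC₀]
  set q := dbl p lam with hqdef
  have hq0 : ∀ v, 0 ≤ q v := dbl_nonneg hp0
  have m1 : Marg q p (fun v => v.1) := dbl_fst hp0
  have m2 : Marg q p (fun v => v.2) := dbl_snd hp0
  have hq : IsLaw q := ⟨hq0, by rw [m1.sum]; exact hp.sum_one⟩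
  set R : ℝ := RR n L κ γ N ε e₁ e₃ with hR
  obtain ⟨hR0, hR1, hR2⟩ := hF.le_RR
  rw [← hR] at hR0 hR1 hR2
  have hγ3 : n.factorial * (3 * C₀) ^ n ≤ δ ^ n * 2 ^ γ := by
    refine le_trans ?_ hF.hγ
    have h1 : (0 : ℝ) ≤ n.factorial := Nat.cast_nonneg _
    refine mul_le_mul_of_nonneg_left ?_ h1
    exact pow_le_pow_left₀ (by linarith only [hC₀]) (by linarith only [hC₀]) _
  -- the count
  have hcn := hcnt a L Ω Λ Ξ Z p lam x T pos A B zx zl cz G κ γ δ ε e₁ eT lm e hF.step hF.reg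
    hF.gr hbad hlm hlm1 hF.hδ hF.he hF.hex hF.hnc hγ3 hF.hκ hF.he₁ hF.he₁0 heT
  -- the fullness
  have hfu := hful Ω (Λ × ℕ) Ξ Z p (lamS lam x T L) x (TS T L) (posS pos L)
    (AS A B zl cz a) (BS B) zx (fun l => zl l.1 l.2) L κ γ δ ε e₁ e (hF.step.small hC₀)
    (fun ω _ => hF.step.lab ω) hF.hδ hF.he hF.hex (NCF_small hF.hnc) hγ3 hF.hκ hF.he₁
  -- the entropies
  have I1 : CH q (fun v => zx (x v.1)) (fun v => x v.2) =
      CH q (fun v => x v.2) (fun v => zx (x v.1)) - CH p x (fun ω => zx (x ω)) := by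
    have a1 : H q (fun v => (zx (x v.1), x v.2)) = H q (fun v => (x v.2, zx (x v.1))) := by
      refine H_congr hq0 ?_ ?_
      · intro v v' _ _ h
        simp only [Prod.mk.injEq] at h ⊢
        tauto
      · intro v v' _ _ h
        simp only [Prod.mk.injEq] at h ⊢
        tauto
    have a2 : H q (fun v => x v.2) = H p x := m2.H x
    have a3 : H q (fun v => zx (x v.1)) = H p (fun ω => zx (x ω)) := m1.H (fun ω => zx (x ω))
    have a4 : H p (fun ω => (x ω, zx (x ω))) = H p x := by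
      refine H_congr hp0 ?_ ?_
      · intro ω ω' _ _ h
        have h1 : x ω = x ω' := h
        simp only [h1]
      · intro ω ω' _ _ h
        exact (Prod.ext_iff.mp h).1
    unfold CH
    rw [a1, a2, a3, a4]
    ring
  have I2 : CH q (fun v => x v.2) (fun v => zx (x v.1)) ≤
      n * ((a + L) * Real.log 2) +
        CH q (fun v => pos (x v.2) none) (fun v => (bas pos (x v.2), zx (x v.1))) + e₅ := by
    have b1 := CH_le_add hq0 (fun v => x v.2) (fun v => bas pos (x v.2)) (fun v => zx (x v.1))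
    have b2 := CH_le_add hq0 (fun v => x v.2) (fun v => pos (x v.2) none)
      (fun v => (bas pos (x v.2), zx (x v.1)))
    have b3 : CH q (fun v => x v.2)
        (fun v => (pos (x v.2) none, (bas pos (x v.2), zx (x v.1)))) ≤ e₅ := by
      have c1 : CH q (fun v => x v.2) (fun v => pos (x v.2)) = CH p x (fun ω => pos (x ω)) :=
        m2.CH x (fun ω => pos (x ω))
      rw [← c1] at he₅
      refine le_trans (CH_mono_cond hq0 ?_) he₅
      intro v v' _ _ h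
      simp only [Prod.mk.injEq] at h
      funext o
      cases o with
      | none => exact h.1
      | some i => exact congrFun h.2.1 i
    have b4 : CH q (fun v => bas pos (x v.2)) (fun v => zx (x v.1)) ≤
        n * ((a + L) * Real.log 2) := by
      have h1 := CH_le_card hq0 hq.sum_one (fun v => bas pos (x v.2)) (fun v => zx (x v.1))
        (fun _ => Fintype.piFinset (fun _ : Fin n => Finset.range (2 ^ (a + L)))) (by
        intro v _
        rw [Fintype.mem_piFinset]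
        intro i
        rw [Finset.mem_range]
        exact hF.step.leaf.pos_lt v.2 (some i))
      refine h1.trans (le_of_eq ?_)
      have h2 : (((Fintype.piFinset (fun _ : Fin n => Finset.range (2 ^ (a + L)))).card : ℕ) :
          ℝ) = (2 : ℝ) ^ ((a + L) * n) := by
        rw [Fintype.card_piFinset]
        simp only [Finset.card_range, Finset.prod_const, Finset.card_univ, Fintype.card_fin]
        push_cast
        rw [← pow_mul]
      simp only [h2]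
      rw [Ex_const hq.sum_one, Real.log_pow]
      push_cast
      ring
    linarith only [b1, b2, b3, b4]
  have I3 : n * (L * Real.log 2) - (n * e₁ + Cu * (L / κ + γ + κ + 1 + ε * L)) ≤
      CH p x (fun ω => zx (x ω)) := by
    have h1 : CH p (fun ω => bas (posS pos L) (x ω)) (fun ω => zx (x ω)) ≤
        CH p x (fun ω => zx (x ω)) := CH_mono_left hp0 (by
      intro ω ω' _ _ h
      have h1 : x ω = x ω' := (Prod.ext_iff.mp h).1
      simp only [h1])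
    linarith only [hfu, h1]
  rw [I1]
  have he₁0 := hF.he₁0
  have he₃0 := hF.e₃_nonneg
  have j1 : Cc * (e₁ + L / κ + γ + κ + 1 + ε * L) ≤ Cc * R :=
    mul_le_mul_of_nonneg_left hR0 (by linarith only [hCc])
  have j2 : Cu * (L / κ + γ + κ + 1 + ε * L) ≤ Cu * R :=
    mul_le_mul_of_nonneg_left (by linarith only [hR0, he₁0]) hCu
  have j3 : (n : ℝ) * e₁ ≤ n * R := mul_le_mul_of_nonneg_left (by linarith only [hR2, he₃0]) hn0
  have j4 : (Cc + Cu + n) * R = Cc * R + Cu * R + n * R := by ring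
  have j5 : (n : ℝ) * ((a + L) * Real.log 2) = n * (a * Real.log 2) + n * (L * Real.log 2) := by
    ring
  have j6 : (n + 4 * D) * (a * Real.log 2) = n * (a * Real.log 2) + 4 * D * (a * Real.log 2) := by
    ring
  rw [j4, j6]
  rw [j5] at I2
  linarith only [hcn, I2, I3, j1, j2, j3]

/-- **The macro step.** -/
theorem step_thm (n D : ℕ) (C₀ p₀ : ℝ) (hC₀ : 1 ≤ C₀) (hp₀ : 0 < p₀) : ∃ C₁ : ℝ, 1 ≤ C₁ ∧
    ∀ k₀ : ℕ, ∃ C₂ : ℝ, 1 ≤ C₂ ∧
    ∀ (a L : ℕ) (Ω Λ Ξ Z : Type) [Fintype Ω] (p : Ω → ℝ) (lam : Ω → Λ)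
      (x : Ω → Ξ) (T : Ξ → ℕ) (pos : Ξ → Option (Fin n) → ℕ) (A B : Λ → Option (Fin n) → ℝ)
      (zx : Ξ → Z) (zl : Λ → ℕ → Z) (cz : Z → Option (Fin n) → ℕ)
      (G : Z → MvPolynomial (Fin n) ℝ) (κ γ N γ₀ κ' γ' : ℕ) (δ ε e₁ e₃ e₅ eT lm δ' ψ η τ : ℝ)
      (e e' : Ξ → ℝ),
      StepH n a L C₀ k₀ κ γ N δ ε e₁ e₃ p lam x T pos A B zx zl cz G e →
      (∀ ω, 0 < p ω → ¬ Bad (G (zx (x ω))) (fun _ => 0) 1 D lm) →
      6 * C₀ / 2 ^ L ≤ lm → lm ≤ 1 →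
      (a + L) * Real.log 2 - CH p (fun ω => T (x ω)) lam ≤ eT →
      CH p x (fun ω => pos (x ω)) ≤ e₅ →
      0 < δ' → (∀ a, 0 ≤ e' a) → NCF p lam x B δ' e' → 0 < ψ →
      (∑ ω, (open Classical in if Real.exp (-ψ) < e' (x ω) then p ω else 0)) ≤ η →
      n.factorial * (3 * C₀) ^ n ≤ δ' ^ n * 2 ^ γ' → 1 ≤ κ' → 0 < τ →
      C₁ * (a + L / κ' + γ' + κ' + 1 + (Real.exp (-(ψ / 2)) + η) * L) +
        C₂ * RR n L κ γ N ε e₁ e₃ + 4 * τ ≤ γ₀ →
      ∃ (Y : Type) (y : Z → Y) (sl : Λ → Option Y),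
        (∑ ω, (open Classical in if some (y (zx (x ω))) ≠ sl (lam ω) then p ω else 0)) ≤
          p₀ + 8 * ((n + 4 * D) * (a * Real.log 2) + Real.log ((a + L : ℕ) + 2) +
            Real.log (lm * 2 ^ L) + 2 * D * eT + e₅ + C₂ * RR n L κ γ N ε e₁ e₃) / ψ ∧
        ∀ Rr : ℕ, (D + 1) * (lm * 2 ^ (γ₀ + L)) ≤ Rr →
          CH p (fun ω => pos (x ω) none / Rr) (fun ω => (bas pos (x ω), y (zx (x ω)))) ≤
            C₂ + C₂ * RR n L κ γ N ε e₁ e₃ / τ * ((a + L) * Real.log 2) := by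
  classical
  obtain ⟨C₁, hC₁, hcore⟩ := stp_core n D C₀ p₀ hC₀ hp₀
  obtain ⟨Cm, hCm, hmkg⟩ := mkg_thm n C₀ hC₀
  have hn0 : (0 : ℝ) ≤ n := Nat.cast_nonneg n
  refine ⟨C₁ * (1 + Cm), by nlinarith only [hC₁, hCm], ?_⟩
  intro k₀
  obtain ⟨C₂, hC₂, hcore⟩ := hcore k₀
  obtain ⟨Cp, hCp, hprc⟩ := prc n D C₀ hC₀ k₀
  refine ⟨C₂ + Cp + C₁ * (n + 1), ?_, ?_⟩
  · have : 0 ≤ C₁ * (n + 1) := by positivity
    linarith only [hC₂, hCp, this]
  intro a L Ω Λ Ξ Z _ p lam x T pos A B zx zl cz G κ γ N γ₀ κ' γ' δ ε e₁ e₃ e₅ eT lm δ' ψ η τ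
    e e' hF hbad hlm hlm1 heT he₅ hδ' he' hnc' hψ hη hγ' hκ' hτ hγ₀
  have hp := hF.step.leaf.isLaw
  have hp0 := hp.nonneg
  set R : ℝ := RR n L κ γ N ε e₁ e₃ with hR
  obtain ⟨hR0, hR1, hR2⟩ := hF.le_RR
  rw [← hR] at hR0 hR1 hR2
  have he₁0 := hF.he₁0
  have he₃0 := hF.e₃_nonneg
  have hη0 : 0 ≤ η := le_trans (Finset.sum_nonneg fun ω _ => by
    split_ifs
    exacts [hp0 ω, le_rfl]) hη
  -- the price
  have hpr := hprc a L Ω Λ Ξ Z p lam x T pos A B zx zl cz G κ γ N δ ε e₁ e₃ e₅ eT lm e hF hbad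
    hlm hlm1 heT he₅
  obtain ⟨gd, hgd, hpG⟩ := price_event hp lam x zx hψ hpr
  set E : ℝ := L / κ' + γ' + κ' + 1 + (Real.exp (-(ψ / 2)) + η) * L with hE
  have hE0 : 0 ≤ E := by
    have := Real.exp_pos (-(ψ / 2))
    positivity
  -- the masked information
  set mi : ℝ := n * e₁ + e₃ + Cm * E with hmi
  have hmi0 : 0 ≤ mi := by positivity
  have hmi' : ∀ gd' : Ξ × Z → Bool, (∀ b, gd' b = true → gd b = true) →
      CH (dbl p lam) (msk x zx gd') (fun v => zx (x v.2)) -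
        CH (dbl p lam) (msk x zx gd') (fun v => x v.2) ≤ mi := fun gd' hgd' =>
    hmkg a L Ω Λ Ξ Z p lam x T pos A B zx zl cz κ' γ' δ' ψ η e₁ e₃ e' gd' hF.step hδ' he' hnc'
      hη (fun v hv h => hgd v hv (hgd' _ h)) hγ' hκ' hF.he₁ hF.he₃
  have hγ₀' : C₁ * (a + mi) + C₂ * R + 4 * τ ≤ γ₀ := by
    refine le_trans ?_ hγ₀
    have a0 : (0 : ℝ) ≤ a := Nat.cast_nonneg a
    have h1 : C₁ * (a + mi) ≤ C₁ * (1 + Cm) * (a + L / κ' + γ' + κ' + 1 +
        (Real.exp (-(ψ / 2)) + η) * L) + C₁ * (n + 1) * R := by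
      have h2 : (a : ℝ) + L / κ' + γ' + κ' + 1 + (Real.exp (-(ψ / 2)) + η) * L = a + E := by
        rw [hE]
        ring
      rw [h2]
      have h3 : (a : ℝ) + mi ≤ (1 + Cm) * (a + E) + (n + 1) * R := by
        rw [hmi]
        have h4 : (n : ℝ) * e₁ ≤ n * R := mul_le_mul_of_nonneg_left (by linarith only [hR2, he₃0]) hn0
        have h5 : e₃ ≤ R := by linarith only [hR2, he₁0]
        have h6 : (1 + Cm) * (a + E) = a + E + Cm * a + Cm * E := by ring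
        have h7 : 0 ≤ Cm * a := by positivity
        linarith only [hR2, he₁0, hE0, h4, h7]
      have h4 := mul_le_mul_of_nonneg_left h3 (by linarith only [hC₁] : (0 : ℝ) ≤ C₁)
      linarith only [h4]
    have h8 : 0 ≤ Cp * R := by
      have : 0 ≤ R := by linarith only [hR1]
      positivity
    have h9 : (C₂ + Cp + C₁ * (n + 1)) * R = C₂ * R + Cp * R + C₁ * (n + 1) * R := by ring
    rw [h9]
    linarith only [h1, h8]
  obtain ⟨Y, y, sl, hy1, hy2⟩ := hcore a L Ω Λ Ξ Z p lam x T pos A B zx zl cz G κ γ N γ₀ δ ε e₁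
    e₃ lm mi _ τ e gd hF hbad hlm hlm1 hτ hmi0 hmi' hpG hγ₀'
  refine ⟨Y, y, sl, hy1.trans ?_, ?_⟩
  · have hR00 : 0 ≤ R := by linarith only [hR1]
    have h1 : Cp * R ≤ (C₂ + Cp + C₁ * (n + 1)) * R := by
      refine mul_le_mul_of_nonneg_right ?_ hR00
      have : 0 ≤ C₁ * (n + 1) := by positivity
      linarith only [hC₂, this]
    rw [← hR]
    have h2 : 4 * (2 * ((n + 4 * D) * (a * Real.log 2) + Real.log ((a + L : ℕ) + 2) +
        Real.log (lm * 2 ^ L) + 2 * D * eT + e₅ + Cp * R) / ψ) =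
        8 * ((n + 4 * D) * (a * Real.log 2) + Real.log ((a + L : ℕ) + 2) +
        Real.log (lm * 2 ^ L) + 2 * D * eT + e₅ + Cp * R) / ψ := by ring
    rw [h2]
    have h3 : 8 * ((n + 4 * D) * (a * Real.log 2) + Real.log ((a + L : ℕ) + 2) +
        Real.log (lm * 2 ^ L) + 2 * D * eT + e₅ + Cp * R) / ψ ≤
        8 * ((n + 4 * D) * (a * Real.log 2) + Real.log ((a + L : ℕ) + 2) +
        Real.log (lm * 2 ^ L) + 2 * D * eT + e₅ + (C₂ + Cp + C₁ * (n + 1)) * R) / ψ :=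
      div_le_div_of_nonneg_right (by linarith only [h1]) hψ.le
    linarith only [h3]
  · intro Rr hRr
    refine (hy2 Rr hRr).trans ?_
    rw [← hR]
    have haL : 0 ≤ ((a : ℝ) + L) * Real.log 2 := by
      have : (0 : ℝ) ≤ Real.log 2 := Real.log_nonneg (by norm_num)
      positivity
    have h0 : 0 ≤ C₁ * ((n : ℝ) + 1) := by positivity
    have h1 : C₂ * R / τ * ((a + L) * Real.log 2) ≤
        (C₂ + Cp + C₁ * (n + 1)) * R / τ * ((a + L) * Real.log 2) := by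
      refine mul_le_mul_of_nonneg_right ?_ haL
      refine div_le_div_of_nonneg_right ?_ hτ.le
      exact mul_le_mul_of_nonneg_right (by linarith only [hCp, h0]) (by linarith only [hR1])
    linarith only [hCp, h0, h1]

end Pool.KS3
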