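import Pool.Agent.H82.KSP.ENTJ
import Pool.Agent.H99.FLF.NCS

/-!
# The truncated family

Positions and times are truncated by `qd` digits; the label `zt (zx ξ)` is coarser. The truncated
point `tr ξ` may contain more information (for instance the label itself, or more digits).
-/

set_option autoImplicit false

namespace Pool.KS3

open Finset Real Module
open Pool.Agent.H49.Ent Pool.Agent.H32.Dense Pool.STK Pool.KAF Pool.KAL Pool.KST

/-- A regular graph is Lipschitz on its cube. -/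
lemma RegG.lipU {n : ℕ} {G : MvPolynomial (Fin n) ℝ} {k₀ : ℕ} {C₀ : ℝ}
    (h : RegG G (fun _ => 0) 1 k₀ C₀) {y y' : Fin n → ℝ} (hy : y ∈ cube (fun _ => 0) 1)
    (hy' : y' ∈ cube (fun _ => 0) 1) {ρ : ℝ} (hρ : ∀ i, |y i - y' i| ≤ ρ) :
    |MvPolynomial.eval y G - MvPolynomial.eval y' G| ≤ n * C₀ * ρ := by
  set v : Fin n → ℝ := fun i => y i - y' i with hv
  have hmem : ∀ t ∈ Set.Icc (0 : ℝ) 1, (fun i => y' i + t * v i) ∈ cube (fun _ => 0) 1 := by
    intro t ht i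
    have h1 := hy i
    have h2 := hy' i
    simp only [hv] at h1 h2 ⊢
    constructor
    · nlinarith [ht.1, ht.2]
    · nlinarith [ht.1, ht.2]
  have hbd : ∀ t ∈ Set.Icc (0 : ℝ) 1, ‖∑ i, v i * MvPolynomial.eval (fun i => y' i + t * v i)
      (MvPolynomial.pderiv i G)‖ ≤ n * C₀ * ρ := by
    intro t ht
    rw [Real.norm_eq_abs]
    refine (Finset.abs_sum_le_sum_abs _ _).trans ?_
    have h1 : ∀ i ∈ (univ : Finset (Fin n)), |v i * MvPolynomial.eval
        (fun i => y' i + t * v i) (MvPolynomial.pderiv i G)| ≤ C₀ * ρ := by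
      intro i _
      rw [abs_mul]
      have h2 := h.slope _ (hmem t ht) i
      have h3 := abs_nonneg (MvPolynomial.eval (fun i => y' i + t * v i)
        (MvPolynomial.pderiv i G))
      have h4 : |v i| ≤ ρ := hρ i
      have h5 := abs_nonneg (v i)
      calc _ ≤ ρ * C₀ := mul_le_mul h4 h2 h3 (h5.trans h4)
        _ = C₀ * ρ := mul_comm _ _
    refine (Finset.sum_le_sum h1).trans (le_of_eq ?_)
    rw [Finset.sum_const, Finset.card_univ, Fintype.card_fin, nsmul_eq_mul]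
    ring
  have h3 := (convex_Icc (0 : ℝ) 1).norm_image_sub_le_of_norm_hasDerivWithin_le
    (f := fun t : ℝ => MvPolynomial.eval (fun i => y' i + t * v i) G)
    (fun t _ => (hasDerivAt_seg G y' v t).hasDerivWithinAt) hbd
    (x := 0) (y := 1) (by simp) (by simp)
  have e1 : (fun i => y' i + (1 : ℝ) * v i) = y := by
    funext i
    simp only [hv]
    ring
  have e0 : (fun i => y' i + (0 : ℝ) * v i) = y' := by
    funext i
    ring
  rw [e1, e0, Real.norm_eq_abs, sub_zero, norm_one, mul_one] at h3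
  exact h3

lemma RegG.mono {n : ℕ} {G : MvPolynomial (Fin n) ℝ} {a : Fin n → ℝ} {s : ℝ} {k₀ : ℕ}
    {C₀ C₁ : ℝ} (h : RegG G a s k₀ C₀) (hC : C₀ ≤ C₁) : RegG G a s k₀ C₁ :=
  ⟨h.deg, fun y hy i => (h.slope y hy i).trans hC⟩

section

variable {n a L L' qd : ℕ} {C₀ : ℝ} {Ω Λ Ξ Ξt Z Zt : Type} [Fintype Ω] {p : Ω → ℝ} {lam : Ω → Λ}
    {x : Ω → Ξ} {T : Ξ → ℕ} {pos : Ξ → Option (Fin n) → ℕ} {A B : Λ → Option (Fin n) → ℝ}
    {zx : Ξ → Z} {zl : Λ → ℕ → Z} {cz : Z → Option (Fin n) → ℕ}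
    {tr : Ξ → Ξt} {Tt : Ξt → ℕ} {post : Ξt → Option (Fin n) → ℕ} {zt : Z → Zt} {zv : Ξt → Zt}
    {czt : Zt → Option (Fin n) → ℕ}

/-- Truncation of a number. -/
lemma trunc_real (m a L' qd : ℕ) : ∃ θ : ℝ, 0 ≤ θ ∧ θ ≤ 1 / 2 ^ (a + L') ∧
    (m : ℝ) / ((2 ^ (a + (qd + L')) : ℕ) : ℝ) =
      ((m / 2 ^ qd : ℕ) : ℝ) / ((2 ^ (a + L') : ℕ) : ℝ) + θ := by
  refine ⟨((m % 2 ^ qd : ℕ) : ℝ) / 2 ^ (a + (qd + L')), by positivity, ?_, ?_⟩
  · have h1 : ((m % 2 ^ qd : ℕ) : ℝ) ≤ 2 ^ qd := by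
      have : m % 2 ^ qd < 2 ^ qd := Nat.mod_lt _ (Nat.two_pow_pos qd)
      exact_mod_cast this.le
    rw [show a + (qd + L') = qd + (a + L') by ring, pow_add 2 qd, div_le_div_iff₀ (by positivity)
      (by positivity), one_mul]
    exact mul_le_mul_of_nonneg_right h1 (by positivity)
  · have h1 := Nat.div_add_mod m (2 ^ qd)
    have h2 : (m : ℝ) = (2 : ℝ) ^ qd * ((m / 2 ^ qd : ℕ) : ℝ) + ((m % 2 ^ qd : ℕ) : ℝ) := by
      have : ((2 ^ qd * (m / 2 ^ qd) + m % 2 ^ qd : ℕ) : ℝ) = (m : ℝ) := by rw [h1]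
      rw [← this]
      push_cast
      ring
    have h3 : (0 : ℝ) < 2 ^ qd := by positivity
    have h4 : (0 : ℝ) < 2 ^ (a + L') := by positivity
    push_cast
    rw [show a + (qd + L') = qd + (a + L') by ring, pow_add 2 qd]
    have h5 : (m : ℝ) / (2 ^ qd * 2 ^ (a + L')) =
        (2 ^ qd * ((m / 2 ^ qd : ℕ) : ℝ) + ((m % 2 ^ qd : ℕ) : ℝ)) /
          (2 ^ qd * 2 ^ (a + L')) := by rw [← h2]
    rw [h5]
    field_simp

/-- The truncated family of leaves. -/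
theorem StepF.trc (h : StepF n a L C₀ p lam x T pos A B zx zl cz) (hC₀ : 1 ≤ C₀)
    (hL : qd + L' = L) (hTt : ∀ ω, Tt (tr (x ω)) = T (x ω) / 2 ^ qd)
    (hpost : ∀ ω o, post (tr (x ω)) o = pos (x ω) o / 2 ^ qd)
    (hzv : ∀ ω, zv (tr (x ω)) = zt (zx (x ω)))
    (hczt : ∀ ω, czt (zt (zx (x ω))) = cz (zx (x ω))) :
    StepF n a L' (3 * C₀) p lam (fun ω => tr (x ω)) Tt post A B zv (fun l t => zt (zl l t))
      czt := by
  subst hL
  have hlt : ∀ m, m < 2 ^ (a + (qd + L')) → m / 2 ^ qd < 2 ^ (a + L') := by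
    intro m hm
    rw [Nat.div_lt_iff_lt_mul (Nat.two_pow_pos qd), ← pow_add]
    rwa [show a + L' + qd = a + (qd + L') by ring]
  refine ⟨⟨h.leaf.isLaw, ?_, ?_, ?_, ?_, ?_⟩, ?_, ?_⟩
  · intro ω
    rw [hTt]
    exact hlt _ (h.leaf.T_lt ω)
  · intro ω o
    rw [hpost]
    exact hlt _ (h.leaf.pos_lt ω o)
  · intro ω o
    have h1 := h.leaf.near ω o
    obtain ⟨θ₁, a1, a2, a3⟩ := trunc_real (pos (x ω) o) a L' qd
    obtain ⟨θ₂, b1, b2, b3⟩ := trunc_real (T (x ω)) a L' qd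
    rw [a3, b3, ← hpost, ← hTt] at h1
    have h2 := h.leaf.B_le ω o
    have h3 : (0 : ℝ) < 2 ^ (a + L') := by positivity
    have h4 : C₀ / ((2 ^ (a + (qd + L')) : ℕ) : ℝ) ≤ C₀ / 2 ^ (a + L') := by
      push_cast
      refine div_le_div_of_nonneg_left (by linarith) h3 ?_
      exact pow_le_pow_right₀ (by norm_num) (by omega)
    have h5 : |θ₂ * B (lam ω) o| ≤ C₀ / 2 ^ (a + L') := by
      rw [abs_mul, abs_of_nonneg b1]
      have h6 := mul_le_mul b2 h2 (abs_nonneg _) (by positivity)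
      refine h6.trans (le_of_eq ?_)
      ring
    have h7 : 1 / (2 : ℝ) ^ (a + L') ≤ C₀ / 2 ^ (a + L') :=
      div_le_div_of_nonneg_right hC₀ h3.le
    have e2 : ((2 ^ (a + L') : ℕ) : ℝ) = 2 ^ (a + L') := by push_cast; rfl
    rw [e2] at h1 ⊢
    have h8 : 3 * C₀ / (2 : ℝ) ^ (a + L') = C₀ / 2 ^ (a + L') + C₀ / 2 ^ (a + L') +
        C₀ / 2 ^ (a + L') := by ring
    rw [h8]
    have h9 := h1.trans h4
    rw [abs_le] at h9 h5 ⊢
    constructor
    · nlinarith [h9.1, h9.2, h5.1, h5.2]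
    · nlinarith [h9.1, h9.2, h5.1, h5.2]
  · intro ω o
    exact (h.leaf.A_le ω o).trans (by linarith)
  · intro ω o
    exact (h.leaf.B_le ω o).trans (by linarith)
  · intro ω
    change zv (tr (x ω)) = zt (zl (lam ω) (Tt (tr (x ω)) / 2 ^ L'))
    rw [hzv, h.lab ω, hTt, Nat.div_div_eq_div_mul, ← pow_add]
  · intro ω o
    change post (tr (x ω)) o / 2 ^ L' = czt (zv (tr (x ω))) o
    rw [hzv, hczt, ← h.cell ω o, hpost, Nat.div_div_eq_div_mul, ← pow_add]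

/-- The windows are the same. -/
lemma lamS_trc (hL : qd + L' = L) (hTt : ∀ ω, Tt (tr (x ω)) = T (x ω) / 2 ^ qd) :
    lamS lam (fun ω => tr (x ω)) Tt L' = lamS lam x T L := by
  subst hL
  funext ω
  simp only [lamS]
  rw [hTt, Nat.div_div_eq_div_mul, ← pow_add]

end

/-- **The truncated family.** -/
theorem StepH.trc {n a L L' qd : ℕ} {C₀ : ℝ} {k₀ : ℕ} {κ γ N : ℕ} {δ ε e₁ e₃ : ℝ}
    {Ω Λ Ξ Ξt Z Zt : Type} [Fintype Ω] {p : Ω → ℝ} {lam : Ω → Λ} {x : Ω → Ξ} {T : Ξ → ℕ}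
    {pos : Ξ → Option (Fin n) → ℕ} {A B : Λ → Option (Fin n) → ℝ} {zx : Ξ → Z}
    {zl : Λ → ℕ → Z} {cz : Z → Option (Fin n) → ℕ} {G : Z → MvPolynomial (Fin n) ℝ}
    {e : Ξ → ℝ} (h : StepH n a L C₀ k₀ κ γ N δ ε e₁ e₃ p lam x T pos A B zx zl cz G e)
    (hC₀ : 1 ≤ C₀) (hL : qd + L' = L) (tr : Ξ → Ξt) (Tt : Ξt → ℕ)
    (post : Ξt → Option (Fin n) → ℕ) (zt : Z → Zt) (zv : Ξt → Zt)
    (czt : Zt → Option (Fin n) → ℕ) (Gt : Zt → MvPolynomial (Fin n) ℝ) (Cg e₃' : ℝ)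
    (hTt : ∀ ω, Tt (tr (x ω)) = T (x ω) / 2 ^ qd)
    (hpost : ∀ ω o, post (tr (x ω)) o = pos (x ω) o / 2 ^ qd)
    (hzv : ∀ ω, zv (tr (x ω)) = zt (zx (x ω)))
    (hczt : ∀ ω, czt (zt (zx (x ω))) = cz (zx (x ω))) (hCg : 0 ≤ Cg)
    (hreg : ∀ ω, 0 < p ω → RegG (Gt (zt (zx (x ω)))) (fun _ => 0) 1 k₀ (3 * C₀))
    (hGt : ∀ ω, 0 < p ω → ∀ y ∈ cube (fun _ : Fin n => (0 : ℝ)) 1,
      |MvPolynomial.eval y (G (zx (x ω))) - MvPolynomial.eval y (Gt (zt (zx (x ω))))| ≤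
        Cg / 2 ^ L')
    (hγ : n.factorial * (6 * ((n + 3) * C₀ + Cg)) ^ n ≤ δ ^ n * 2 ^ γ)
    (he₃ : CH p (fun ω => tr (x ω)) (fun ω => (bas post (tr (x ω)), zt (zx (x ω)))) ≤ e₃') :
    ∃ et : Ξt → ℝ, StepH n a L' ((n + 3) * C₀ + Cg) k₀ κ γ N δ ε e₁ e₃' p lam
      (fun ω => tr (x ω)) Tt post A B zv (fun l t => zt (zl l t)) czt Gt et := by
  classical
  have hp := h.step.leaf.isLaw
  have hp0 := hp.nonneg
  have hn0 : (0 : ℝ) ≤ n := Nat.cast_nonneg n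
  obtain ⟨et, h1, h2, h3⟩ := Pool.FLF.NCF.coarse hp h.he h.hnc h.hex (x' := fun ω => tr (x ω))
    (by
      intro ω ω' _ _ hh
      have : x ω = x ω' := hh
      simp only [this])
  have hC₁ : 3 * C₀ ≤ (n + 3) * C₀ + Cg := by nlinarith
  have hstep := (h.step.trc hC₀ hL hTt hpost hzv hczt).mono hC₁
  refine ⟨et, ⟨hstep, ?_, ?_, h.hδ, h1, h2, h3, hγ, h.hκ, ?_, h.he₁0, ?_⟩⟩
  · intro ω hω
    change RegG (Gt (zv (tr (x ω)))) (fun _ => 0) 1 k₀ _
    rw [hzv]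
    exact (hreg ω hω).mono (by nlinarith)
  · intro ω hω
    change |rp (2 ^ L') (posS post L') (tr (x ω)) none - MvPolynomial.eval
      (fun i => rp (2 ^ L') (posS post L') (tr (x ω)) (some i)) (Gt (zv (tr (x ω))))| ≤ _
    rw [hzv]
    have h4 := h.gr ω hω
    have hL0 : (0 : ℝ) < 2 ^ L' := by positivity
    -- the coordinates
    have key : ∀ o, ∃ θ : ℝ, 0 ≤ θ ∧ θ ≤ 1 / 2 ^ L' ∧ rp (2 ^ L) (posS pos L) (x ω) o =
        rp (2 ^ L') (posS post L') (tr (x ω)) o + θ := by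
      intro o
      obtain ⟨θ, a1, a2, a3⟩ := trunc_real (posS pos L (x ω) o) 0 L' qd
      refine ⟨θ, a1, ?_, ?_⟩
      · rwa [zero_add] at a2
      · simp only [zero_add] at a3
        rw [hL] at a3
        simp only [rp]
        rw [a3]
        have e1 : posS pos L (x ω) o / 2 ^ qd = posS post L' (tr (x ω)) o := by
          simp only [posS]
          rw [hpost, ← hL, pow_add, Nat.mod_mul_right_div_self]
        rw [e1]
    have hcube : ∀ (M : ℕ) (ξ : Fin n → ℕ), (∀ i, ξ i < 2 ^ M) →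
        (fun i => ((ξ i : ℕ) : ℝ) / ((2 ^ M : ℕ) : ℝ)) ∈ cube (fun _ : Fin n => (0 : ℝ)) 1 := by
      intro M ξ hξ i
      have h5 : (0 : ℝ) < ((2 ^ M : ℕ) : ℝ) := by positivity
      constructor
      · positivity
      · rw [zero_add, div_le_one h5]
        exact_mod_cast (hξ i).le
    have hy1 : (fun i => rp (2 ^ L) (posS pos L) (x ω) (some i)) ∈
        cube (fun _ : Fin n => (0 : ℝ)) 1 :=
      hcube L (fun i => posS pos L (x ω) (some i)) (fun i => Nat.mod_lt _ (Nat.two_pow_pos L))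
    have hy2 : (fun i => rp (2 ^ L') (posS post L') (tr (x ω)) (some i)) ∈
        cube (fun _ : Fin n => (0 : ℝ)) 1 :=
      hcube L' (fun i => posS post L' (tr (x ω)) (some i))
        (fun i => Nat.mod_lt _ (Nat.two_pow_pos L'))
    obtain ⟨θ, a1, a2, a3⟩ := key none
    have h6 := (hreg ω hω).lipU hy1 hy2 (ρ := 1 / 2 ^ L') (by
      intro i
      obtain ⟨θ', c1, c2, c3⟩ := key (some i)
      rw [c3, add_sub_cancel_left, abs_of_nonneg c1]
      exact c2)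
    have h7 := hGt ω hω _ hy1
    have h8 : 3 * C₀ / 2 ^ L ≤ 3 * C₀ / 2 ^ L' := by
      refine div_le_div_of_nonneg_left (by linarith) hL0 ?_
      exact pow_le_pow_right₀ (by norm_num) (by omega)
    rw [a3] at h4
    have h9 := h4.trans h8
    have h10 : 3 * ((n + 3) * C₀ + Cg) / 2 ^ L' = 3 * C₀ / 2 ^ L' + Cg / 2 ^ L' +
        n * (3 * C₀) * (1 / 2 ^ L') + (6 * C₀ + 2 * Cg) / 2 ^ L' := by
      field_simp
      ring
    have h11 : 1 / 2 ^ L' ≤ (6 * C₀ + 2 * Cg) / 2 ^ L' :=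
      div_le_div_of_nonneg_right (by linarith) hL0.le
    rw [h10]
    rw [abs_le] at h6 h7 h9 ⊢
    constructor
    · linarith [h6.1, h6.2, h7.1, h7.2, h9.1, h9.2]
    · linarith [h6.1, h6.2, h7.1, h7.2, h9.1, h9.2]
  · rw [lamS_trc (tr := tr) (Tt := Tt) hL hTt]
    have h4 := h.he₁
    have h5 : CH p (fun ω => TS T L (x ω)) (lamS lam x T L) ≤
        CH p (fun ω => TS Tt L' (tr (x ω))) (lamS lam x T L) + qd * Real.log 2 := by
      have b1 := CH_le_add hp0 (fun ω => TS T L (x ω)) (fun ω => TS Tt L' (tr (x ω)))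
        (lamS lam x T L)
      have b2 : CH p (fun ω => TS T L (x ω))
          (fun ω => (TS Tt L' (tr (x ω)), lamS lam x T L ω)) ≤ qd * Real.log 2 := by
        have c1 : CH p (fun ω => TS T L (x ω))
            (fun ω => (TS Tt L' (tr (x ω)), lamS lam x T L ω)) ≤
            CH p (fun ω => T (x ω) % 2 ^ qd)
            (fun ω => (TS Tt L' (tr (x ω)), lamS lam x T L ω)) := by
          refine CH_mono_left hp0 ?_
          intro ω ω' _ _ hh
          simp only [Prod.mk.injEq] at hh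
          obtain ⟨c1, c2, -⟩ := hh
          simp only [TS] at c2 ⊢
          rw [hTt, hTt] at c2
          have key : ∀ m : ℕ, m % 2 ^ L = 2 ^ qd * (m / 2 ^ qd % 2 ^ L') + m % 2 ^ qd := by
            intro m
            rw [← hL, pow_add, Nat.mod_mul]
            ring
          rw [key, key, c1, c2]
        refine c1.trans ?_
        have c2 := CH_le_card hp0 hp.sum_one (fun ω => T (x ω) % 2 ^ qd)
          (fun ω => (TS Tt L' (tr (x ω)), lamS lam x T L ω)) (fun _ => Finset.range (2 ^ qd)) (by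
            intro ω _
            rw [Finset.mem_range]
            exact Nat.mod_lt _ (Nat.two_pow_pos qd))
        rw [Finset.card_range, Ex_const hp.sum_one] at c2
        push_cast at c2
        rwa [Real.log_pow] at c2
      linarith
    have h6 : (L : ℝ) * Real.log 2 = L' * Real.log 2 + qd * Real.log 2 := by
      rw [← hL]
      push_cast
      ring
    linarith
  · have e1 : (fun ω => (bas post (tr (x ω)), zv (tr (x ω)))) =
        fun ω => (bas post (tr (x ω)), zt (zx (x ω))) := by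
      funext ω
      rw [hzv]
    rw [e1]
    exact he₃

end Pool.KS3
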