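import Pool.Agent.H77.KJ.DepDet
import Pool.Agent.H72.KJ.Defs

/-!
# Small difference: pure part
-/

set_option autoImplicit false

namespace Pool.KS3

open Finset Real
open Pool.Agent.H49.Ent Pool.Agent.H32.Dense Pool.STK Pool.KAF Pool.KAL Pool.KST

/-- The jets at the scale of the grid on the graph over a cube. -/
theorem jet_le (n D : ℕ) (C₀ : ℝ) (hC₀ : 1 ≤ C₀) : ∃ B : ℝ, 1 ≤ B ∧
    ∀ (G : MvPolynomial (Fin n) ℝ) (k₀ : ℕ) (c : Fin n → ℝ) (σ η R H : ℝ)
      (P : MvPolynomial (Option (Fin n)) ℝ) (z : Option (Fin n) → ℝ), RegG G c σ k₀ C₀ →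
      0 < η → η ≤ C₀ * σ → 0 ≤ R → η * R ≤ C₀ → 0 ≤ H → P.totalDegree ≤ D →
      (∀ y ∈ cube c σ, ∀ j, |MvPolynomial.eval y (gr G (dN j P))| ≤ R ^ j * H) →
      (fun i => z (some i)) ∈ cube c σ →
      |z none - MvPolynomial.eval (fun i => z (some i)) G| ≤ C₀ * η →
      Psi P η z ≤ B * H := by
  obtain ⟨K, hK1, hK⟩ := exists_Psi_le_sup (Option (Fin n)) D
  have hC0 : 0 < C₀ := by linarith only [hC₀]
  have hn0 : (0 : ℝ) ≤ n := Nat.cast_nonneg n
  obtain ⟨cc, hcc⟩ : ∃ cc : ℝ, cc = 1 + n * C₀ := ⟨_, rfl⟩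
  have hcc0 : 0 ≤ cc := by rw [hcc]; positivity
  obtain ⟨M₁, hM₁⟩ : ∃ M₁ : ℝ, M₁ = 2 * C₀ ^ 2 + n * C₀ + 1 := ⟨_, rfl⟩
  have hM₁0 : 0 ≤ M₁ := by rw [hM₁]; positivity
  refine ⟨(2 * C₀) ^ D * ((1 + M₁) ^ D * (K * (1 + cc) ^ D)), ?_, ?_⟩
  · have h1 : (1 : ℝ) ≤ (2 * C₀) ^ D := one_le_pow₀ (by linarith only [hC₀])
    have h2 : (1 : ℝ) ≤ (1 + M₁) ^ D := one_le_pow₀ (by linarith only [hM₁0])
    have h3 : (1 : ℝ) ≤ (1 + cc) ^ D := one_le_pow₀ (by linarith only [hcc0])
    have h4 : (1 : ℝ) ≤ K * (1 + cc) ^ D := by nlinarith only [hK1, h3]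
    have h5 : (1 : ℝ) ≤ (1 + M₁) ^ D * (K * (1 + cc) ^ D) := by nlinarith only [h2, h4]
    nlinarith only [h1, h5]
  intro G k₀ c σ η R H P z hG hη hησ hR hηR hH hP hj hz hzN
  obtain ⟨η₁, hη₁⟩ : ∃ η₁ : ℝ, η₁ = η / (2 * C₀) := ⟨_, rfl⟩
  have hη₁0 : 0 < η₁ := by rw [hη₁]; positivity
  have hη₁e : η₁ * (2 * C₀) = η := by rw [hη₁]; field_simp
  have hη₁σ : 2 * η₁ ≤ σ := by
    rw [hη₁]
    have : 2 * (η / (2 * C₀)) = η / C₀ := by field_simp
    rw [this, div_le_iff₀ hC0, mul_comm]
    exact hησ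
  have hη₁R : η₁ * R ≤ 1 := by
    have h1 : η₁ * R * (2 * C₀) ≤ C₀ := by
      have : η₁ * R * (2 * C₀) = η₁ * (2 * C₀) * R := by ring
      rw [this, hη₁e]
      exact hηR
    nlinarith only [hC₀, h1]
  -- a point of the cube at distance from the boundary
  exact by
   obtain ⟨y, hy⟩ : ∃ y : Fin n → ℝ,
       y = fun i => max (c i + η₁) (min (z (some i)) (c i + σ - η₁)) := ⟨_, rfl⟩
   have hy1 : ∀ i, c i + η₁ ≤ y i ∧ y i ≤ c i + σ - η₁ := by
     intro i
     rw [hy]
     refine ⟨le_max_left _ _, max_le (by linarith only [hη₁σ]) (min_le_right _ _)⟩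
   have hy2 : ∀ i, |z (some i) - y i| ≤ η₁ := by
     intro i
     obtain ⟨h1, h2⟩ := hz i
     simp only at h1 h2
     rw [hy]
     simp only
     rw [abs_le]
     rcases le_total (z (some i)) (c i + σ - η₁) with h3 | h3
     · rw [min_eq_left h3]
       rcases le_total (c i + η₁) (z (some i)) with h4 | h4
       · rw [max_eq_right h4]
         constructor <;> linarith only [hη₁0]
       · rw [max_eq_left h4]
         constructor <;> linarith
     · rw [min_eq_right h3, max_eq_right (by linarith only [hη₁σ])]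
       constructor <;> linarith
   have hyc : y ∈ cube c σ := fun i => ⟨by linarith [(hy1 i).1], by linarith only [hη₁0, hy1, (hy1 i).2]⟩
   -- the supremum near this point
   have hsup : ∀ w : Option (Fin n) → ℝ, (∀ o, |w o - gpt G y o| ≤ η₁) →
       |MvPolynomial.eval w P| ≤ (1 + cc) ^ D * H := by
     intro w hw
     obtain ⟨y', hy'⟩ : ∃ y' : Fin n → ℝ, y' = fun i => w (some i) := ⟨_, rfl⟩
     have hwy : ∀ i, |y i - y' i| ≤ η₁ := by
       intro i
       have h1 := hw (some i)
       rw [hy', abs_sub_comm]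
       exact h1
     have hyc' : y' ∈ cube c σ := by
       intro i
       have h1 := hwy i
       rw [abs_le] at h1
       exact ⟨by linarith only [h1, hy1, (hy1 i).1, h1.1, h1.2], by linarith only [h1, hy1, (hy1 i).2, h1.1, h1.2]⟩
     obtain ⟨θ, hθ⟩ : ∃ θ, θ = w none - MvPolynomial.eval y' G := ⟨_, rfl⟩
     have hθ1 : |θ| ≤ cc * η₁ := by
       have h1 : |w none - MvPolynomial.eval y G| ≤ η₁ := hw none
       have h2 := hG.lip hC0.le hyc hyc' hwy
       have e : θ = (w none - MvPolynomial.eval y G) +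
           (MvPolynomial.eval y G - MvPolynomial.eval y' G) := by rw [hθ]; ring
       rw [e]
       refine (abs_add_le _ _).trans ?_
       rw [hcc]
       have e2 : (1 + n * C₀) * η₁ = η₁ + n * (C₀ * η₁) := by ring
       rw [e2]
       exact add_le_add h1 h2
     have hθR : |θ| * R ≤ cc := by
       have h1 := mul_le_mul_of_nonneg_right hθ1 hR
       have h2 := mul_le_mul_of_nonneg_left hη₁R hcc0
       calc |θ| * R ≤ cc * η₁ * R := h1
         _ = cc * (η₁ * R) := by ring
         _ ≤ cc * 1 := h2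
         _ = cc := mul_one _
     have h3 := pas_le hcc0 D P y' (MvPolynomial.eval y' G) R H θ
       hP hR hH hθR (fun j => by
         have h4 := hj y' hyc' j
         rw [eval_gr] at h4
         exact h4)
     have e : (fun o : Option (Fin n) => o.elim (MvPolynomial.eval y' G + θ) y') = w := by
       funext o
       cases o with
       | none =>
         simp only [Option.elim]
         rw [hθ]
         ring
       | some i =>
         simp only [Option.elim]
         rw [hy']
     rw [e] at h3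
     exact h3
   exact by
    have hdeg : P.totalDegree ≤ D := hP
    have h1 := hK P η₁ (gpt G y) ((1 + cc) ^ D * H) hdeg hη₁0.le hsup
    -- moving the point
    have h2 := Psi_le_of_dist P η₁ M₁ hη₁0 hM₁0 (gpt G y) z (by
      intro o
      cases o with
      | none =>
        change |z none - MvPolynomial.eval y G| ≤ M₁ * η₁
        have h3 := hG.lip hC0.le hz hyc hy2
        have e : z none - MvPolynomial.eval y G = (z none - MvPolynomial.eval
            (fun i => z (some i)) G) + (MvPolynomial.eval (fun i => z (some i)) G -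
            MvPolynomial.eval y G) := by ring
        rw [e]
        refine (abs_add_le _ _).trans ((add_le_add hzN h3).trans ?_)
        rw [hM₁, ← hη₁e]
        have : C₀ * (η₁ * (2 * C₀)) + n * (C₀ * η₁) = (2 * C₀ ^ 2 + n * C₀) * η₁ := by ring
        rw [this]
        nlinarith only [hη₁0]
      | some i =>
        change |z (some i) - y i| ≤ M₁ * η₁
        refine (hy2 i).trans ?_
        have h3 : 1 ≤ M₁ := by
          rw [hM₁]
          have : 0 ≤ 2 * C₀ ^ 2 + n * C₀ := by positivity
          linarith only [this]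
        nlinarith only [hη₁0, hη, hη₁e, hM₁])
    have h3 := Psi_radius_le P η₁ (2 * C₀) (by linarith only [hC₀]) z
    rw [hη₁e] at h3
    have hp1 : (1 + M₁) ^ P.totalDegree ≤ (1 + M₁) ^ D :=
      pow_le_pow_right₀ (by linarith only [hM₁0]) hdeg
    exact by
     have hp2 : (2 * C₀) ^ P.totalDegree ≤ (2 * C₀) ^ D :=
       pow_le_pow_right₀ (by linarith only [hC₀]) hdeg
     calc Psi P η z
         ≤ (2 * C₀) ^ D * Psi P η₁ z :=
           h3.trans (mul_le_mul_of_nonneg_right hp2 (Psi_nonneg _ _ _))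
       _ ≤ (2 * C₀) ^ D * ((1 + M₁) ^ D * Psi P η₁ (gpt G y)) := by
           refine mul_le_mul_of_nonneg_left ?_ (by positivity)
           exact h2.trans (mul_le_mul_of_nonneg_right hp1 (Psi_nonneg _ _ _))
       _ ≤ (2 * C₀) ^ D * ((1 + M₁) ^ D * (K * ((1 + cc) ^ D * H))) := by
           refine mul_le_mul_of_nonneg_left ?_ (by positivity)
           exact mul_le_mul_of_nonneg_left h1 (by positivity)
       _ = _ := by ring

/-- Change of the value in the passive direction. -/
lemma pas_sub_le {n : ℕ} {c : ℝ} (hc : 0 ≤ c) (d : ℕ) (Q : MvPolynomial (Option (Fin n)) ℝ)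
    (y : Fin n → ℝ) (N R M θ : ℝ) (hQ : Q.totalDegree ≤ d) (hR : 0 ≤ R) (hM : 0 ≤ M)
    (hθ : |θ| * R ≤ c)
    (hj : ∀ j, 1 ≤ j → |MvPolynomial.eval (fun o : Option (Fin n) => o.elim N y) (dN j Q)| ≤
      R ^ j * M) :
    |MvPolynomial.eval (fun o : Option (Fin n) => o.elim (N + θ) y) Q -
      MvPolynomial.eval (fun o : Option (Fin n) => o.elim N y) Q| ≤ c * ((1 + c) ^ d * M) := by
  obtain ⟨z, hz⟩ : ∃ z : Option (Fin n) → ℝ, z = fun o => o.elim N y := ⟨_, rfl⟩
  obtain ⟨v, hv⟩ : ∃ v : Option (Fin n) → ℝ, v = fun o => o.elim θ (fun _ => 0) := ⟨_, rfl⟩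
  have hzt : ∀ t : ℝ, (fun o => z o + t * v o) =
      fun o : Option (Fin n) => o.elim (N + t * θ) y := by
    intro t
    funext o
    rw [hz, hv]
    cases o with
    | none => rfl
    | some i => simp
  have hbd : ∀ t ∈ Set.Icc (0 : ℝ) 1, ‖∑ o, v o * MvPolynomial.eval (fun o => z o + t * v o)
      (MvPolynomial.pderiv o Q)‖ ≤ c * ((1 + c) ^ d * M) := by
    intro t ht
    have h1 : ∑ o, v o * MvPolynomial.eval (fun o => z o + t * v o)
        (MvPolynomial.pderiv o Q) = θ * MvPolynomial.eval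
          (fun o : Option (Fin n) => o.elim (N + t * θ) y) (MvPolynomial.pderiv none Q) := by
      rw [Fintype.sum_option, hzt, hv]
      simp
    rw [h1, Real.norm_eq_abs, abs_mul]
    have htθ : |t * θ| ≤ |θ| := by
      rw [abs_mul, abs_of_nonneg ht.1]
      have := mul_le_mul_of_nonneg_right ht.2 (abs_nonneg θ)
      linarith only [this]
    have h2 := pas_le hc d (MvPolynomial.pderiv none Q) y N R (R * M) (t * θ)
      ((totalDegree_pderiv_le' none Q).trans hQ) hR (mul_nonneg hR hM)
      ((mul_le_mul_of_nonneg_right htθ hR).trans hθ) (fun j => by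
        rw [← dN_succ]
        refine (hj (j + 1) (by omega)).trans (le_of_eq ?_)
        ring)
    calc |θ| * |MvPolynomial.eval (fun o : Option (Fin n) => o.elim (N + t * θ) y)
          (MvPolynomial.pderiv none Q)| ≤ |θ| * ((1 + c) ^ d * (R * M)) :=
          mul_le_mul_of_nonneg_left h2 (abs_nonneg _)
      _ = |θ| * R * ((1 + c) ^ d * M) := by ring
      _ ≤ c * ((1 + c) ^ d * M) := mul_le_mul_of_nonneg_right hθ (by positivity)
  have h3 := (convex_Icc (0 : ℝ) 1).norm_image_sub_le_of_norm_hasDerivWithin_le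
    (f := fun t : ℝ => MvPolynomial.eval (fun o => z o + t * v o) Q)
    (fun t _ => (hasDerivAt_seg Q z v t).hasDerivWithinAt) hbd
    (x := 0) (y := 1) (by simp) (by simp)
  simp only [hzt] at h3
  rwa [one_mul, zero_mul, add_zero, Real.norm_eq_abs, sub_zero, norm_one, mul_one] at h3

/-- A polynomial all of whose derivatives in the passive direction vanish on a graph over a cube
is zero. -/
lemma eq_zero_of_gr {n D : ℕ} {G : MvPolynomial (Fin n) ℝ} {Q : MvPolynomial (Option (Fin n)) ℝ}
    (hQ : Q.totalDegree ≤ D) (h : ∀ j, ∀ y ∈ cube (fun _ : Fin n => (0 : ℝ)) 1,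
      MvPolynomial.eval y (gr G (dN j Q)) = 0) : Q = 0 := by
  obtain ⟨K, hK1, hK⟩ := exists_Psi_le_sup (Option (Fin n)) D
  have h1 := hK Q (1 / 2) (fun o => o.elim 0 (fun _ => 1 / 2)) 0 hQ (by norm_num) (by
    intro w hw
    obtain ⟨y, hy⟩ : ∃ y : Fin n → ℝ, y = fun i => w (some i) := ⟨_, rfl⟩
    have hyc : y ∈ cube (fun _ : Fin n => (0 : ℝ)) 1 := by
      intro i
      have h2 := hw (some i)
      rw [abs_le] at h2
      simp only [Option.elim] at h2
      rw [hy]
      constructor <;> simp only <;> linarith only [h2, h2.1, h2.2]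
    have h3 := pas_le (c := |w none - MvPolynomial.eval y G|) (abs_nonneg _) D Q y
      (MvPolynomial.eval y G) 1 0 (w none - MvPolynomial.eval y G) hQ zero_le_one le_rfl
      (by rw [mul_one]) (fun j => by
        have h4 := h j y hyc
        rw [eval_gr] at h4
        have h5 : (fun o : Option (Fin n) => o.elim (MvPolynomial.eval y G) y) = gpt G y := rfl
        rw [h5, h4, abs_zero, mul_zero])
    rw [mul_zero] at h3
    have e : (fun o : Option (Fin n) => o.elim (MvPolynomial.eval y G +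
        (w none - MvPolynomial.eval y G)) y) = w := by
      funext o
      cases o with
      | none =>
        simp only [Option.elim]
        ring
      | some i =>
        simp only [Option.elim]
        rw [hy]
    rwa [e] at h3)
  rw [mul_zero] at h1
  by_contra hne
  have h2 := Psi_pos Q hne (1 / 2) (by norm_num) (fun o : Option (Fin n) => o.elim 0 (fun _ => 1 / 2))
  linarith only [h1, h2]

/-- **Stability of bad cubes**: the graph may be changed by the thickness. -/
theorem bad_stab {n D : ℕ} {G G' : MvPolynomial (Fin n) ℝ} {lm ρ r lm' : ℝ}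
    (h : ¬ Bad G (fun _ => 0) 1 D lm)
    (hG : ∀ y ∈ cube (fun _ : Fin n => (0 : ℝ)) 1,
      |MvPolynomial.eval y G - MvPolynomial.eval y G'| ≤ ρ)
    (hr0 : 0 < r) (hr : lm ≤ r) (hρ : 2 * 2 ^ D * ρ ≤ r) (hlm' : 2 * 2 ^ D * r ≤ lm') :
    ¬ Bad G' (fun _ => 0) 1 D lm' := by
  unfold Bad at h ⊢
  push Not at h ⊢
  obtain ⟨Q, hQ0, hQD, hQ⟩ := h
  have hD1 : (1 : ℝ) ≤ 2 ^ D := one_le_pow₀ (by norm_num)
  have hρ0 : 0 ≤ ρ := by
    have h1 := hG (fun _ => 0) (fun i => ⟨le_rfl, by norm_num⟩)
    exact (abs_nonneg _).trans h1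
  have hρr : 2 * ρ ≤ r := by nlinarith only [hρ, hD1, hρ0]
  obtain ⟨M, hM⟩ : ∃ M : ℕ → ℝ, M = fun j => cs (fun _ : Fin n => (0 : ℝ)) 1 (gr G (dN j Q)) :=
    ⟨_, rfl⟩
  have hM0 : ∀ j, 0 ≤ M j := fun j => by
    rw [hM]
    exact SML.cs_nonneg _ _ _
  have hMD : ∀ j, D < j → M j = 0 := by
    intro j hj
    rw [hM]
    simp only
    have h1 : dN j Q = 0 := dN_eq_zero D j Q hQD hj
    rw [h1]
    refine le_antisymm (SML.cs_le _ le_rfl fun y _ => ?_) (SML.cs_nonneg _ _ _)
    unfold gr
    rw [map_zero, map_zero, abs_zero]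
  have hMe : ∀ j, ∀ y ∈ cube (fun _ : Fin n => (0 : ℝ)) 1,
      |MvPolynomial.eval (gpt G y) (dN j Q)| ≤ M j := by
    intro j y hy
    rw [hM, ← eval_gr]
    exact SML.le_cs zero_le_one _ hy
  -- the largest index at which the maximum is attained
  obtain ⟨j₁, hj₁, hmax⟩ := Finset.exists_max_image (range (D + 1)) (fun j => r ^ j * M j)
    ⟨0, by simp⟩
  exact by
   have hpos : 0 < r ^ j₁ * M j₁ := by
     by_contra hcon
     push Not at hcon
     refine hQ0 (eq_zero_of_gr (G := G) hQD fun j y hy => ?_)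
     have h1 : M j ≤ 0 := by
       by_cases hj : j ≤ D
       · have h2 := (hmax j (by rw [Finset.mem_range]; omega)).trans hcon
         by_contra h3
         push Not at h3
         have := mul_pos (pow_pos hr0 j) h3
         linarith only [h2, this]
       · exact (hMD j (by omega)).le
     have h2 := (hMe j y hy).trans h1
     rw [eval_gr]
     exact abs_nonpos_iff.mp h2
   have h01 : r ^ 0 * M 0 ≤ r ^ 1 * M 1 := by
     rw [pow_zero, one_mul, pow_one]
     have h1 : M 0 ≤ lm * M 1 := by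
       rw [hM]
       simp only [dN_zero]
       exact hQ
     exact h1.trans (mul_le_mul_of_nonneg_right hr (hM0 1))
   -- an index `i` with `a i ≤ a (i + 1)` maximal
   obtain ⟨i, hi, hmaxi⟩ : ∃ i, 0 < r ^ (i + 1) * M (i + 1) ∧
       ∀ j, r ^ j * M j ≤ r ^ (i + 1) * M (i + 1) := by
     have hall : ∀ j, r ^ j * M j ≤ r ^ j₁ * M j₁ := by
       intro j
       by_cases hj : j ≤ D
       · exact hmax j (by rw [Finset.mem_range]; omega)
       · rw [hMD j (by omega), mul_zero]
         exact hpos.le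
     rcases Nat.eq_zero_or_pos j₁ with h0 | h0
     · refine ⟨0, ?_, ?_⟩
       · rw [h0] at hpos
         exact hpos.trans_le h01
       · intro j
         refine (hall j).trans ?_
         rw [h0]
         exact h01
     · refine ⟨j₁ - 1, ?_, ?_⟩
       · rw [Nat.sub_add_cancel h0]
         exact hpos
       · rw [Nat.sub_add_cancel h0]
         exact hall
   exact by
    have hM1 : 0 < M (i + 1) := (pos_iff_pos_of_mul_pos hi).mp (pow_pos hr0 _)
    -- the normalised derivatives
    have hb : ∀ j, M (i + j) ≤ (1 / r) ^ j * (r * M (i + 1)) := by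
      intro j
      have h1 := hmaxi (i + j)
      have h2 : r ^ (i + 1) * M (i + 1) = r ^ i * (r * M (i + 1)) := by ring
      have h3 : r ^ (i + j) * M (i + j) = r ^ i * (r ^ j * M (i + j)) := by ring
      rw [h2, h3] at h1
      have h4 := le_of_mul_le_mul_left h1 (pow_pos hr0 i)
      rw [one_div, inv_pow, inv_mul_eq_div, le_div_iff₀ (pow_pos hr0 j)]
      linarith only [h4]
    obtain ⟨Q', hQ'⟩ : ∃ Q' : MvPolynomial (Option (Fin n)) ℝ, Q' = dN i Q := ⟨_, rfl⟩
    have hQ'D : Q'.totalDegree ≤ D := by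
      rw [hQ']
      exact (totalDegree_dN_le _ _).trans hQD
    have hr1 : 0 ≤ 1 / r := by positivity
    have hrM : 0 ≤ r * M (i + 1) := mul_nonneg hr0.le hM1.le
    have hθr : ∀ y ∈ cube (fun _ : Fin n => (0 : ℝ)) 1,
        |MvPolynomial.eval y G' - MvPolynomial.eval y G| * (1 / r) ≤ 1 / 2 := by
      intro y hy
      have h1 := hG y hy
      rw [abs_sub_comm] at h1
      rw [mul_one_div, div_le_iff₀ hr0]
      linarith only [hρr, h1]
    have hpt : ∀ y : Fin n → ℝ, (fun o : Option (Fin n) => o.elim (MvPolynomial.eval y G +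
        (MvPolynomial.eval y G' - MvPolynomial.eval y G)) y) = gpt G' y := by
      intro y
      funext o
      cases o with
      | none =>
        simp only [Option.elim, gpt]
        ring
      | some i => rfl
    exact by
     have hpG : ∀ y : Fin n → ℝ, (fun o : Option (Fin n) => o.elim (MvPolynomial.eval y G) y) =
         gpt G y := fun _ => rfl
     have hpow : (1 + 1 / 2 : ℝ) ^ D ≤ 2 ^ D := pow_le_pow_left₀ (by norm_num) (by norm_num) _
     refine ⟨Q', ?_, hQ'D, ?_⟩
     · intro h0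
       have h1 : dN (i + 1) Q = 0 := by
         rw [dN_succ', ← hQ', h0, map_zero]
       have h2 : M (i + 1) ≤ 0 := by
         rw [hM]
         simp only
         rw [h1]
         refine SML.cs_le _ le_rfl fun y _ => ?_
         unfold gr
         rw [map_zero, map_zero, abs_zero]
       linarith only [hM1, h2]
     · -- upper bound
       have up : cs (fun _ : Fin n => (0 : ℝ)) 1 (gr G' Q') ≤ 2 ^ D * (r * M (i + 1)) := by
         refine SML.cs_le _ (by positivity) fun y hy => ?_
         rw [eval_gr]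
         have h1 := pas_le (c := 1 / 2) (by norm_num) D Q' y (MvPolynomial.eval y G) (1 / r)
           (r * M (i + 1)) (MvPolynomial.eval y G' - MvPolynomial.eval y G) hQ'D hr1 hrM
           (hθr y hy) (fun j => by
             rw [hpG, hQ', dN_dN, add_comm j i]
             exact (hMe (i + j) y hy).trans (hb j))
         rw [hpt] at h1
         exact h1.trans (mul_le_mul_of_nonneg_right hpow hrM)
       -- lower bound
       have lo : M (i + 1) / 2 ≤ cs (fun _ : Fin n => (0 : ℝ)) 1
           (gr G' (MvPolynomial.pderiv none Q')) := by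
         obtain ⟨y, hy, hye⟩ := cs_attained (fun _ : Fin n => (0 : ℝ)) 1 zero_le_one
           (gr G (dN (i + 1) Q))
         have h1 : |MvPolynomial.eval (gpt G y) (MvPolynomial.pderiv none Q')| = M (i + 1) := by
           rw [hM]
           simp only
           rw [← hye, eval_gr, dN_succ', hQ']
         have h2 := pas_sub_le (c := ρ / r) (by positivity) D (MvPolynomial.pderiv none Q') y
           (MvPolynomial.eval y G) (1 / r) (M (i + 1))
           (MvPolynomial.eval y G' - MvPolynomial.eval y G)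
           ((totalDegree_pderiv_le' none Q').trans hQ'D) hr1 hM1.le
           (by
             have h1 := hG y hy
             rw [abs_sub_comm] at h1
             rw [mul_one_div]
             exact div_le_div_of_nonneg_right h1 hr0.le) (fun j _ => by
             rw [hpG, ← dN_succ, hQ', dN_dN]
             have h3 := (hMe (i + (j + 1)) y hy).trans (hb (j + 1))
             have e : j + 1 + i = i + (j + 1) := by omega
             rw [e]
             refine h3.trans (le_of_eq ?_)
             rw [pow_succ]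
             field_simp)
         rw [hpt, hpG] at h2
         have h3 : ρ / r * ((1 + ρ / r) ^ D * M (i + 1)) ≤ M (i + 1) / 2 := by
           have h4 : ρ / r ≤ 1 := by
             rw [div_le_one hr0]
             linarith only [hr0, hρr]
           have h5 : (1 + ρ / r) ^ D ≤ 2 ^ D := pow_le_pow_left₀ (by positivity) (by linarith only [h4]) _
           have h6 : ρ / r * 2 ^ D ≤ 1 / 2 := by
             rw [div_mul_eq_mul_div, div_le_iff₀ hr0]
             linarith only [hρ]
           calc ρ / r * ((1 + ρ / r) ^ D * M (i + 1)) ≤ ρ / r * (2 ^ D * M (i + 1)) :=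
                 mul_le_mul_of_nonneg_left (mul_le_mul_of_nonneg_right h5 hM1.le) (by positivity)
             _ = ρ / r * 2 ^ D * M (i + 1) := by ring
             _ ≤ 1 / 2 * M (i + 1) := mul_le_mul_of_nonneg_right h6 hM1.le
             _ = M (i + 1) / 2 := by ring
         have h4 := abs_sub_abs_le_abs_sub
           (MvPolynomial.eval (gpt G y) (MvPolynomial.pderiv none Q'))
           (MvPolynomial.eval (gpt G' y) (MvPolynomial.pderiv none Q'))
         rw [abs_sub_comm] at h4
         have h5 := SML.le_cs zero_le_one (gr G' (MvPolynomial.pderiv none Q')) hy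
         rw [eval_gr] at h5
         linarith only [h1, h2, h3, h4, h5]
       have h1 : 0 ≤ lm' := by
         have : 0 ≤ 2 * 2 ^ D * r := by positivity
         linarith only [hlm', this]
       calc cs (fun _ : Fin n => (0 : ℝ)) 1 (gr G' Q') ≤ 2 ^ D * (r * M (i + 1)) := up
         _ = 2 * 2 ^ D * r * (M (i + 1) / 2) := by ring
         _ ≤ lm' * (M (i + 1) / 2) := mul_le_mul_of_nonneg_right hlm' (by positivity)
         _ ≤ lm' * cs (fun _ : Fin n => (0 : ℝ)) 1 (gr G' (MvPolynomial.pderiv none Q')) :=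
             mul_le_mul_of_nonneg_left lo h1

/-- The values of the derivatives on the graph against the jets of thickness `h / s`. -/
lemma val_le_PsiC {n D : ℕ} {C₀ h s : ℝ} {G : MvPolynomial (Fin n) ℝ}
    {P : MvPolynomial (Option (Fin n)) ℝ} {z : Option (Fin n) → ℝ} (hP : P.totalDegree ≤ D)
    (hh : 0 < h) (hs0 : 0 < s) (hs1 : s ≤ 1)
    (hz : |z none - MvPolynomial.eval (fun i => z (some i)) G| ≤ C₀) (hC : C₀ ≤ h) (j : ℕ) :
    (h / s) ^ j * |MvPolynomial.eval (fun i => z (some i)) (gr G (dN j P))| ≤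
      (D : ℝ) ^ j * PsiC s P h z := by
  have hhs : h ≤ h / s := by
    rw [le_div_iff₀ hs0]
    nlinarith only [hh, hs1]
  have hhs0 : 0 < h / s := div_pos hh hs0
  rw [PsiC_eq hs0.ne']
  have h1 : ∀ j : ℕ, (h / s) ^ j * PsiA (dN j P) (thk h (h / s)) z ≤
      (D : ℝ) ^ j * PsiA P (thk h (h / s)) z := by
    intro j
    induction j with
    | zero => rw [dN_zero, pow_zero, pow_zero]
    | succ j ih =>
      have h2 := PsiA_pderiv_le (dN j P) (thk h (h / s)) z none hhs0.le
      rw [thk_none, ← dN_succ'] at h2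
      have h3 : ((dN j P).totalDegree : ℝ) ≤ D := by
        exact_mod_cast (totalDegree_dN_le j P).trans hP
      have h4 := mul_le_mul_of_nonneg_right h3 (PsiA_nonneg (dN j P) (thk h (h / s)) z)
      calc (h / s) ^ (j + 1) * PsiA (dN (j + 1) P) (thk h (h / s)) z =
          (h / s) ^ j * (h / s * PsiA (dN (j + 1) P) (thk h (h / s)) z) := by ring
        _ ≤ (h / s) ^ j * (D * PsiA (dN j P) (thk h (h / s)) z) :=
            mul_le_mul_of_nonneg_left (h2.trans h4) (by positivity)
        _ = D * ((h / s) ^ j * PsiA (dN j P) (thk h (h / s)) z) := by ring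
        _ ≤ D * ((D : ℝ) ^ j * PsiA P (thk h (h / s)) z) :=
            mul_le_mul_of_nonneg_left ih (Nat.cast_nonneg D)
        _ = (D : ℝ) ^ (j + 1) * PsiA P (thk h (h / s)) z := by ring
  refine le_trans ?_ (h1 j)
  refine mul_le_mul_of_nonneg_left ?_ (by positivity)
  rw [eval_gr]
  refine abs_eval_le_PsiA_of_near _ _ z _ (fun o => thk_pos hh hhs0 o) (fun o => ?_)
  cases o with
  | none =>
    rw [thk_none]
    change |MvPolynomial.eval (fun i => z (some i)) G - z none| ≤ h / s
    rw [abs_sub_comm]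
    linarith only [hz, hC, hhs]
  | some i =>
    rw [thk_some]
    change |z (some i) - z (some i)| ≤ h
    rw [sub_self, abs_zero]
    exact hh.le

/-- **Near the zero set.** If the typical distance is at most `2 ^ (-r₂)`, then the jets of
thickness `h / s` in the passive direction are large against the jets at the scale of the grid, at
every point at which one of the derivatives is not small. -/
theorem near_of_Th (n D : ℕ) (C₀ : ℝ) (hC₀ : 1 ≤ C₀) : ∃ B : ℝ, 1 ≤ B ∧
    ∀ (G : MvPolynomial (Fin n) ℝ) (k₀ L r₂ : ℕ) (P : MvPolynomial (Option (Fin n)) ℝ),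
      RegG G (fun _ => 0) 1 k₀ (3 * C₀) → P.totalDegree ≤ D → r₂ ≤ L →
      KJ.Th D r₂ (fun j => cs (fun _ => 0) 1 (gr G (dN j P))) →
      ∃ j, j ≤ D ∧ ∀ (z : Option (Fin n) → ℝ) (θ K s : ℝ),
        (fun i => z (some i)) ∈ cube (fun _ => 0) 1 →
        |z none - MvPolynomial.eval (fun i => z (some i)) G| ≤ 3 * C₀ / 2 ^ L →
        0 < θ → θ ≤ 1 → 1 ≤ K → 0 < s → s * (B * K * 2 ^ (L - r₂)) ≤ θ →
        θ * cs (fun _ => 0) 1 (gr G (dN j P)) ≤
          |MvPolynomial.eval (fun i => z (some i)) (gr G (dN j P))| →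
        K * PsiC 1 P (6 * C₀ / 2 ^ L) z ≤ PsiC s P (6 * C₀ / 2 ^ L) z := by
  classical
  have h6C : 1 ≤ 6 * C₀ := by linarith only [hC₀]
  obtain ⟨B, hB1, hB⟩ := jet_le n D (6 * C₀) h6C
  have hD1 : (1 : ℝ) ≤ (D + 1) ^ D := one_le_pow₀ (by
    have := Nat.cast_nonneg (α := ℝ) D
    linarith only)
  refine ⟨(D + 1) ^ D * B, by nlinarith only [hB1, hD1], ?_⟩
  intro G k₀ L r₂ P hG hP hr₂ hTh
  obtain ⟨h, hh⟩ : ∃ h : ℝ, h = 6 * C₀ / 2 ^ L := ⟨_, rfl⟩
  have h2L : (0 : ℝ) < 2 ^ L := by positivity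
  have hh0 : 0 < h := by rw [hh]; positivity
  obtain ⟨M, hM⟩ : ∃ M : ℕ → ℝ, M = fun j => cs (fun _ : Fin n => (0 : ℝ)) 1 (gr G (dN j P)) :=
    ⟨_, rfl⟩
  have hM0 : ∀ j, 0 ≤ M j := fun j => by
    rw [hM]
    exact SML.cs_nonneg _ _ _
  have hMD : ∀ j, D < j → M j = 0 := by
    intro j hj
    rw [hM]
    simp only
    have h1 : dN j P = 0 := dN_eq_zero D j P hP hj
    rw [h1]
    refine le_antisymm (SML.cs_le _ le_rfl fun y _ => ?_) (SML.cs_nonneg _ _ _)
    unfold gr
    rw [map_zero, map_zero, abs_zero]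
  obtain ⟨j₀, hj₀, hmax⟩ := Finset.exists_max_image (range (D + 1)) (fun j => h ^ j * M j)
    ⟨0, by simp⟩
  have hall : ∀ j, h ^ j * M j ≤ h ^ j₀ * M j₀ := by
    intro j
    by_cases hj : j ≤ D
    · exact hmax j (by rw [Finset.mem_range]; omega)
    · rw [hMD j (by omega), mul_zero]
      exact mul_nonneg (pow_nonneg hh0.le _) (hM0 _)
  exact by
   have hH0 : 0 ≤ h ^ j₀ * M j₀ := mul_nonneg (pow_nonneg hh0.le _) (hM0 _)
   rw [Finset.mem_range] at hj₀
   -- the index
   obtain ⟨j, hj1, hjD, hj⟩ : ∃ j, 1 ≤ j ∧ j ≤ D ∧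
       (h ^ j₀ * M j₀ ≤ h ^ j * M j ∨ (2 ^ r₂) ^ j * (h ^ j₀ * M j₀) ≤ M j) := by
     rcases Nat.eq_zero_or_pos j₀ with h0 | h0
     · obtain ⟨j, hj1, hjD, hj⟩ := hTh
       refine ⟨j, hj1, hjD, Or.inr ?_⟩
       rw [h0, pow_zero, one_mul, ← pow_mul, hM]
       exact hj
     · exact ⟨j₀, h0, by omega, Or.inl le_rfl⟩
   refine ⟨j, hjD, ?_⟩
   intro z θ K s hz hzN hθ0 hθ1 hK hs0 hs hval
   rw [← hh]
   have h2r : (1 : ℝ) ≤ 2 ^ (L - r₂) := one_le_pow₀ (by norm_num)
   have hs1 : s ≤ 1 := by
     have h1 : (1 : ℝ) ≤ (D + 1) ^ D * B * K * 2 ^ (L - r₂) := by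
       have h2 : (1 : ℝ) ≤ (D + 1) ^ D * B := by nlinarith only [hB1, hD1]
       have h3 : (1 : ℝ) ≤ (D + 1) ^ D * B * K := by nlinarith only [hK, h2]
       nlinarith only [h2r, h3]
     have h2 := mul_le_mul_of_nonneg_left h1 hs0.le
     linarith only [hθ1, hs, h2]
   -- the jets at the scale of the grid
   have up : PsiC 1 P h z ≤ B * (h ^ j₀ * M j₀) := by
     have h1 := hB G k₀ (fun _ => 0) 1 h (1 / h) (h ^ j₀ * M j₀) P z
       ⟨hG.deg, fun y hy i => (hG.slope y hy i).trans (by linarith only [hC₀])⟩ hh0 (by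
         rw [hh, mul_one]
         exact div_le_self (by linarith only [hC₀]) (one_le_pow₀ (by norm_num))) (by positivity)
       (by rw [mul_one_div_cancel hh0.ne']; exact h6C) hH0 hP (fun y hy i => by
         have h1 := SML.le_cs zero_le_one (gr G (dN i P)) hy
         refine h1.trans ?_
         have h2 := hall i
         rw [one_div, inv_pow, inv_mul_eq_div, le_div_iff₀ (pow_pos hh0 i), mul_comm]
         have h3 : cs (fun _ : Fin n => (0 : ℝ)) 1 (gr G (dN i P)) = M i := by rw [hM]
         rw [h3]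
         exact h2) hz (by
         refine hzN.trans ?_
         rw [hh]
         have h4 : 3 * C₀ / 2 ^ L ≤ 6 * C₀ / 2 ^ L :=
           div_le_div_of_nonneg_right (by linarith only [hC₀]) h2L.le
         have h5 : 0 ≤ 6 * C₀ / 2 ^ L := by positivity
         nlinarith only [hh, hh0, h4, hC₀])
     have e : PsiC 1 P h z = Psi P h z := by
       rw [PsiC_eq one_ne_zero, div_one]
       have hthk : thk h h = fun _ : Option (Fin n) => h := by
         funext o
         cases o <;> rfl
       rw [hthk, PsiA_const]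
     rw [e]
     exact h1
   -- the value
   exact by
    have lo := val_le_PsiC (G := G) (z := z) hP hh0 hs0 hs1 hzN (by
      rw [hh]
      exact div_le_div_of_nonneg_right (by linarith only [hC₀]) h2L.le) j
    have hval' : θ * M j ≤ |MvPolynomial.eval (fun i => z (some i)) (gr G (dN j P))| := by
      rw [hM]
      exact hval
    have hPsi0 : 0 ≤ PsiC s P h z := by
      rw [PsiC_eq hs0.ne']
      exact PsiA_nonneg _ _ _
    have hDj : (D : ℝ) ^ j ≤ (D + 1) ^ D := by
      have hD0 : (0 : ℝ) ≤ D := Nat.cast_nonneg D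
      calc (D : ℝ) ^ j ≤ (D + 1) ^ j := pow_le_pow_left₀ hD0 (by linarith only) _
        _ ≤ (D + 1) ^ D := pow_le_pow_right₀ (by linarith only) hjD
    have lo' : (h / s) ^ j * (θ * M j) ≤ (D + 1) ^ D * PsiC s P h z :=
      (mul_le_mul_of_nonneg_left hval' (by positivity)).trans
        (lo.trans (mul_le_mul_of_nonneg_right hDj hPsi0))
    -- the comparison
    have key : (D + 1) ^ D * B * K * (h ^ j₀ * M j₀) ≤ (h / s) ^ j * (θ * M j) := by
      rcases hj with hj | hj
      · have h1 : (1 / s) ≤ (1 / s) ^ j := by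
          have h3 : 1 ≤ 1 / s := by
            rw [le_div_iff₀ hs0]
            linarith only [hs1]
          calc 1 / s = (1 / s) ^ 1 := (pow_one _).symm
            _ ≤ (1 / s) ^ j := pow_le_pow_right₀ h3 hj1
        have h2 : (D + 1) ^ D * B * K ≤ θ * (1 / s) := by
          rw [mul_one_div, le_div_iff₀ hs0]
          have h3 : 0 ≤ (D + 1) ^ D * B * K := by positivity
          nlinarith only [hs, hθ0, h2r]
        calc (D + 1) ^ D * B * K * (h ^ j₀ * M j₀) ≤ θ * (1 / s) * (h ^ j * M j) :=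
              mul_le_mul h2 hj hH0 (by positivity)
          _ ≤ θ * (1 / s) ^ j * (h ^ j * M j) := by
              refine mul_le_mul_of_nonneg_right (mul_le_mul_of_nonneg_left h1 hθ0.le) ?_
              exact mul_nonneg (pow_nonneg hh0.le _) (hM0 _)
          _ = (h / s) ^ j * (θ * M j) := by
              rw [div_pow, div_pow, one_pow]
              ring
      · -- `h / s * 2 ^ r₂` is large
        have h3 : (h / s) * 2 ^ r₂ = 6 * C₀ / (s * 2 ^ (L - r₂)) := by
          have e2 : (2 : ℝ) ^ L = 2 ^ (L - r₂) * 2 ^ r₂ := by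
            rw [← pow_add, Nat.sub_add_cancel hr₂]
          rw [hh, e2]
          field_simp
        have h4 : (D + 1) ^ D * B * K ≤ θ * ((h / s) * 2 ^ r₂) := by
          rw [h3, ← mul_div_assoc, le_div_iff₀ (by positivity)]
          have h5 : θ ≤ θ * (6 * C₀) := by nlinarith only [hθ0, hC₀]
          nlinarith only [hs, h5]
        have h5 : 1 ≤ (h / s) * 2 ^ r₂ := by
          rw [h3, le_div_iff₀ (by positivity)]
          have h6 : s * 2 ^ (L - r₂) ≤ 1 := by
            have h7 : (1 : ℝ) ≤ (D + 1) ^ D * B * K := by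
              have h2 : (1 : ℝ) ≤ (D + 1) ^ D * B := by nlinarith only [hB1, hD1]
              nlinarith only [hK, h2]
            have h8 : 0 ≤ s * 2 ^ (L - r₂) := by positivity
            nlinarith only [hθ1, hs, h7, h8]
          linarith only [hC₀, h6]
        have h6 : (h / s) * 2 ^ r₂ ≤ ((h / s) * 2 ^ r₂) ^ j := by
          calc (h / s) * 2 ^ r₂ = ((h / s) * 2 ^ r₂) ^ 1 := (pow_one _).symm
            _ ≤ ((h / s) * 2 ^ r₂) ^ j := pow_le_pow_right₀ h5 hj1
        calc (D + 1) ^ D * B * K * (h ^ j₀ * M j₀) ≤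
              θ * ((h / s) * 2 ^ r₂) * (h ^ j₀ * M j₀) := mul_le_mul_of_nonneg_right h4 hH0
          _ ≤ θ * ((h / s) * 2 ^ r₂) ^ j * (h ^ j₀ * M j₀) :=
              mul_le_mul_of_nonneg_right (mul_le_mul_of_nonneg_left h6 hθ0.le) hH0
          _ = (h / s) ^ j * (θ * ((2 ^ r₂) ^ j * (h ^ j₀ * M j₀))) := by
              rw [mul_pow]
              ring
          _ ≤ (h / s) ^ j * (θ * M j) := by
              refine mul_le_mul_of_nonneg_left (mul_le_mul_of_nonneg_left hj hθ0.le) ?_
              positivity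
    exact by
     have h1 : (D + 1) ^ D * (K * PsiC 1 P h z) ≤ (D + 1) ^ D * PsiC s P h z := by
       refine le_trans ?_ lo'
       refine le_trans ?_ key
       calc (D + 1) ^ D * (K * PsiC 1 P h z) ≤ (D + 1) ^ D * (K * (B * (h ^ j₀ * M j₀))) := by
             refine mul_le_mul_of_nonneg_left (mul_le_mul_of_nonneg_left up ?_) ?_
             · linarith only [hK]
             · positivity
         _ = (D + 1) ^ D * B * K * (h ^ j₀ * M j₀) := by ring
     exact le_of_mul_le_mul_left h1 (by positivity)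

end Pool.KS3
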