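import Pool.Agent.H82.KSP.J2S

/-!
# Small difference: row J2 in the form of the board
-/

set_option autoImplicit false

namespace Pool.KS3

open Finset Real
open Pool.Agent.H49.Ent Pool.Agent.H32.Dense Pool.STK Pool.KAF Pool.KAL Pool.KST

lemma pw_small (n : ℕ) (hn : 1 ≤ n) (E σ : ℝ) (hσ : 0 < σ) :
    ∃ N : ℕ, (1 - 1 / (n : ℝ)) ^ N * E ≤ σ := by
  have h0 : (0 : ℝ) ≤ 1 - 1 / (n : ℝ) := by
    have : (1 : ℝ) ≤ n := by exact_mod_cast hn
    have h2 : 1 / (n : ℝ) ≤ 1 := by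
      rw [div_le_one (by linarith only [this])]
      exact this
    linarith only [h2]
  have h1 : (1 - 1 / (n : ℝ)) < 1 := by
    have : (0 : ℝ) < n := by exact_mod_cast hn
    have h2 : 0 < 1 / (n : ℝ) := by positivity
    linarith only [h2]
  obtain ⟨N, hN⟩ := exists_pow_lt_of_lt_one (div_pos hσ (by positivity : 0 < |E| + 1)) h1
  refine ⟨N, ?_⟩
  have h2 : (1 - 1 / (n : ℝ)) ^ N * E ≤ (1 - 1 / (n : ℝ)) ^ N * (|E| + 1) :=
    mul_le_mul_of_nonneg_left (by linarith only [le_abs_self E]) (pow_nonneg h0 _)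
  refine h2.trans ?_
  rw [lt_div_iff₀ (by positivity)] at hN
  exact hN.le

/-- **Row J2.** -/
theorem j2_thm : KJ.J2Stmt := by
  classical
  intro n D u C₀ hn hC₀
  obtain ⟨C₁, Kc, g₀, c₃, hC₁, hKc, hc₃, hmain₀⟩ := j2_one n D C₀ hC₀
  obtain ⟨C₁n, hC₁n⟩ := exists_nat_ge C₁
  have hC₁n1 : (1 : ℝ) ≤ C₁n := hC₁.trans hC₁n
  refine ⟨7 * C₁n + u + 5, Kc, by omega, ?_⟩
  intro s k₀ E hE
  obtain ⟨C₂, hC₂, hmain⟩ := hmain₀ k₀
  refine ⟨1, fun M hM => ?_⟩
  have hEr : (1 : ℝ) ≤ E := by exact_mod_cast hE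
  obtain ⟨σ, hσ⟩ : ∃ σ : ℝ, σ = 1 / (16 * C₂) := ⟨_, rfl⟩
  have hσ0 : 0 < σ := by rw [hσ]; positivity
  have hσ1 : σ ≤ 1 := by
    rw [hσ, div_le_one (by positivity)]
    linarith only [hC₂]
  obtain ⟨N₀, hN₀⟩ := pw_small n hn E σ hσ0
  obtain ⟨κ₀, hκ₀⟩ := exists_nat_ge (E / σ)
  have hκ₀0 : (0 : ℝ) < κ₀ := lt_of_lt_of_le (by positivity) hκ₀
  have hκ₀1 : (E : ℝ) / κ₀ ≤ σ := by
    rw [div_le_iff₀ hκ₀0]
    rw [div_le_iff₀ hσ0] at hκ₀
    linarith only [hκ₀]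
  obtain ⟨m₀, hm₀⟩ := exists_nat_ge ((((N₀ : ℝ) + 1) + 2 * c₃ + g₀ + κ₀) / σ +
    (4 * 4 ^ D + 6 * ((n + 3) * C₀ + 1)) + (D + 2))
  have hn0 : (0 : ℝ) ≤ n := Nat.cast_nonneg n
  have hD0 : (0 : ℝ) ≤ D := Nat.cast_nonneg D
  have hN₀0 : (0 : ℝ) ≤ N₀ := Nat.cast_nonneg N₀
  have hC0 : (0 : ℝ) < C₀ := by linarith only [hC₀]
  have hκ₀n : 1 ≤ κ₀ := by
    have : 0 < κ₀ := by exact_mod_cast hκ₀0
    omega
  refine ⟨σ / ((N₀ + 1) * (E + 1)), κ₀, N₀, m₀, by positivity, hκ₀n, ?_⟩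
  intro m e₀ L r₂ Ω Λ Ξ Z β _ p lam x T pos A B zx zl cz G wz wl γ δ ε e₁ e₃ e Q i₀ hm he₀ hmL
    hLE hmr₂ hr₂m hLs he₁ he₃ hγ hε hF hbad htime hwz heT he₅ hOV hQ hPe
  have hp := hF.step.leaf.isLaw
  have hp0 := hp.nonneg
  have hme : m ≤ e₀ := by
    rw [he₀]
    exact Nat.le_mul_of_pos_left m hM
  have hm₀e : (m₀ : ℝ) ≤ e₀ := by exact_mod_cast hm.trans hme
  -- the size of the step
  have hq1 : 0 ≤ (((N₀ : ℝ) + 1) + 2 * c₃ + g₀ + κ₀) / σ := by positivity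
  have hq2 : 0 ≤ 4 * (4 : ℝ) ^ D + 6 * ((n + 3) * C₀ + 1) := by positivity
  have he1 : (((N₀ : ℝ) + 1) + 2 * c₃ + g₀ + κ₀) ≤ σ * e₀ := by
    have h1 : (((N₀ : ℝ) + 1) + 2 * c₃ + g₀ + κ₀) / σ ≤ e₀ := by linarith only [hm₀, hm₀e, hq2]
    rw [div_le_iff₀ hσ0] at h1
    linarith only [h1]
  have h2e : (e₀ : ℝ) ≤ 2 ^ e₀ := by
    exact_mod_cast Nat.lt_two_pow_self.le
  have he2 : 4 * (4 : ℝ) ^ D + 6 * ((n + 3) * C₀ + 1) ≤ 2 ^ e₀ := by linarith only [hm₀, hm₀e, hq1, h2e]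
  have he3 : (D : ℝ) + 1 ≤ 2 ^ e₀ := by linarith only [hm₀, hm₀e, hq1, hq2, h2e]
  have he4 : (1 : ℝ) ≤ e₀ := by linarith only [hm₀, hm₀e, hq1, hq2]
  have he0 : (0 : ℝ) ≤ e₀ := by linarith only [hm₀, hm₀e, hq1, hq2]
  by_cases hcase : (u + 1) * e₀ ≤ r₂
  swap
  · -- the trivial case
    push Not at hcase
    refine ⟨Unit, fun _ => (), fun _ => some (), 3 * e₀ + L, fun _ => {0}, ?_, ?_, ?_⟩
    · have h1 : (7 * C₁n + u + 5 + s) * e₀ = 7 * C₁n * e₀ + (u + 1) * e₀ + 4 * e₀ + s * e₀ := by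
        ring
      rw [h1]
      have h2 : 0 ≤ 7 * C₁n * e₀ := Nat.zero_le _
      omega
    · intro g
      rw [Finset.card_singleton]
      exact hKc
    · have e0 : KJ.Pe p (fun ω => some ((fun _ : Z => ()) (zx (x ω))) =
          (fun _ : Λ => some ()) (lam ω) ∧ pos (x ω) none / 2 ^ (3 * e₀ + L) ∈
            (fun _ : (Fin n → ℕ) × Unit => ({0} : Finset ℕ))
              (bas pos (x ω), (fun _ : Z => ()) (zx (x ω)))) = 1 := by
        unfold KJ.Pe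
        rw [← hp.sum_one]
        refine Finset.sum_congr rfl fun ω _ => ?_
        rw [if_pos]
        refine ⟨rfl, ?_⟩
        rw [Finset.mem_singleton]
        exact Nat.div_eq_of_lt (hF.step.leaf.pos_lt ω none)
      rw [e0]
      norm_num
  · -- the main case
    have hr₂L : r₂ ≤ L := by omega
    have heL : (e₀ : ℝ) ≤ L := by
      have h1 : e₀ ≤ (u + 1) * e₀ := Nat.le_mul_of_pos_left e₀ (Nat.succ_pos u)
      exact_mod_cast (h1.trans hcase).trans hr₂L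
    obtain ⟨γ₀, hγ₀⟩ : ∃ γ₀ : ℕ, γ₀ = 7 * C₁n * e₀ := ⟨_, rfl⟩
    obtain ⟨q', hq'⟩ : ∃ q' : ℕ, q' = γ₀ + (u + 1) * e₀ + e₀ := ⟨_, rfl⟩
    have h2r : (0 : ℝ) < 2 ^ r₂ := by positivity
    have h2L : (0 : ℝ) < 2 ^ L := by positivity
    have h2u : (1 : ℝ) ≤ 2 ^ (u * e₀) := one_le_pow₀ (by norm_num)
    have hrL : (2 : ℝ) ^ r₂ ≤ 2 ^ L := pow_le_pow_right₀ (by norm_num) hr₂L
    have hue : (2 : ℝ) ^ ((u + 1) * e₀) = 2 ^ (u * e₀) * 2 ^ e₀ := by
      rw [← pow_add]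
      congr 1
      ring
    have h4D : (2 : ℝ) * 2 ^ D * (2 * 2 ^ D) = 4 * 4 ^ D := by
      have : (4 : ℝ) ^ D = 2 ^ D * 2 ^ D := by
        rw [← mul_pow]
        norm_num
      rw [this]
      ring
    have h2D1 : (1 : ℝ) ≤ 2 ^ D := one_le_pow₀ (by norm_num)
    obtain ⟨Y, y, sl, Sc, hSc, hP⟩ := hmain (3 * e₀) L r₂ m q' Ω Λ Ξ Z β p lam x T pos A B zx zl
      cz G wz wl κ₀ γ N₀ γ₀ δ ε e₁ e₃ (σ / ((N₀ + 1) * (E + 1)) * e₀) (2 ^ (u * e₀) / 2 ^ L)
      (2 ^ ((u + 1) * e₀) / 2 ^ r₂) (e₀ / 2) e Q i₀ hF hr₂m hbad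
      (by
        rw [← mul_div_assoc, div_le_div_iff₀ h2L h2r, hue]
        have h1 : (2 : ℝ) * 2 ^ D ≤ 2 ^ e₀ := by
          have h3 : 0 ≤ 6 * ((n + 3) * C₀ + 1) := by positivity
          rw [← h4D] at he2
          nlinarith only [hC₀, hm₀, hm₀e, hq1, h2e, h4D, h2D1]
        calc (2 : ℝ) * 2 ^ D * 2 ^ (u * e₀) * 2 ^ r₂ =
              2 ^ (u * e₀) * (2 * 2 ^ D) * 2 ^ r₂ := by ring
          _ ≤ 2 ^ (u * e₀) * 2 ^ e₀ * 2 ^ L := by
              refine mul_le_mul (mul_le_mul_of_nonneg_left h1 (by positivity)) hrL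
                (by positivity) (by positivity))
      (by
        rw [← mul_assoc, h4D, mul_one_div]
        refine div_le_div_of_nonneg_right ?_ h2r.le
        rw [hue]
        have h3 : 0 ≤ 6 * ((n + 3) * C₀ + 1) := by positivity
        have h4 : (4 : ℝ) * 4 ^ D ≤ 2 ^ e₀ := by linarith only [hm₀, hm₀e, hq1, h2e, h3]
        have h5 : (0 : ℝ) < 2 ^ e₀ := by positivity
        nlinarith only [hC₀, hm₀, hm₀e, hq1, h2e, h2u])
      (by
        refine div_le_div_of_nonneg_right ?_ h2r.le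
        rw [hue]
        have h3 : (0 : ℝ) ≤ 4 * 4 ^ D := by positivity
        have h4 : 6 * (((n : ℝ) + 3) * C₀ + 1) ≤ 2 ^ e₀ := by linarith only [hm₀, hm₀e, hq1, h2e, h3]
        have h5 : (0 : ℝ) < 2 ^ e₀ := by positivity
        nlinarith only [hm₀, hm₀e, hq1, h2e, h4D, h2u])
      (by
        rw [div_le_one h2r]
        exact pow_le_pow_right₀ (by norm_num) hcase)
      htime hwz hOV hQ hPe (by linarith only [hm₀, hm₀e, hq1, hq2])
      (by
        have h1 : (1 : ℝ) / 2 ≤ Real.log 2 := by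
          have := Real.log_two_gt_d9
          linarith only [this]
        have h2 : (L : ℝ) * (1 / 2) ≤ L * Real.log 2 :=
          mul_le_mul_of_nonneg_left h1 (Nat.cast_nonneg L)
        linarith only [heL, h2])
      (by
        -- the error
        have hden : (0 : ℝ) < (N₀ + 1) * (E + 1) := by positivity
        have hLE' : (L : ℝ) ≤ E * e₀ := by exact_mod_cast hLE
        have t1 : (N₀ + 1) * e₁ ≤ σ * e₀ := by
          have h1 := mul_le_mul_of_nonneg_left he₁ (by positivity : (0 : ℝ) ≤ N₀ + 1)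
          refine h1.trans ?_
          have h2 : (N₀ + 1) * (σ / ((N₀ + 1) * (E + 1)) * e₀) = σ * e₀ / (E + 1) := by
            field_simp
          rw [h2]
          exact div_le_self (by positivity) (by linarith only [hEr])
        have hη : σ / ((N₀ + 1) * (E + 1)) ≤ σ := by
          refine div_le_self hσ0.le ?_
          nlinarith only [hEr, hden]
        have t2 : (γ : ℝ) ≤ σ * e₀ :=
          hγ.trans (mul_le_mul_of_nonneg_right hη he0)
        have t3 : ε * L ≤ σ * e₀ := by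
          have h0 : σ / ((N₀ + 1) * (E + 1)) * E ≤ σ := by
            rw [div_mul_eq_mul_div, div_le_iff₀ hden]
            refine mul_le_mul_of_nonneg_left ?_ hσ0.le
            nlinarith only
          calc ε * L ≤ σ / ((N₀ + 1) * (E + 1)) * (E * e₀) :=
                mul_le_mul hε hLE' (Nat.cast_nonneg _) (by positivity)
            _ = σ / ((N₀ + 1) * (E + 1)) * E * e₀ := by ring
            _ ≤ σ * e₀ := mul_le_mul_of_nonneg_right h0 he0
        have t4 : (L : ℝ) / κ₀ ≤ σ * e₀ := by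
          calc (L : ℝ) / κ₀ ≤ E * e₀ / κ₀ := div_le_div_of_nonneg_right hLE' hκ₀0.le
            _ = E / κ₀ * e₀ := by ring
            _ ≤ σ * e₀ := mul_le_mul_of_nonneg_right hκ₀1 he0
        have hpw0 := pw_nonneg n N₀
        have hpw1 : (1 - 1 / (n : ℝ)) ^ N₀ ≤ 1 := by
          refine pow_le_one₀ ?_ ?_
          · have : (1 : ℝ) ≤ n := by exact_mod_cast hn
            have h2 : 1 / (n : ℝ) ≤ 1 := by
              rw [div_le_one (by linarith only [this])]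
              exact this
            linarith only [h2]
          · have : 0 ≤ 1 / (n : ℝ) := by positivity
            linarith only [this]
        have t5 : (1 - 1 / (n : ℝ)) ^ N₀ * (L + c₃) ≤ σ * e₀ + c₃ := by
          have h1 := mul_le_mul_of_nonneg_left hLE' hpw0
          have h2 := mul_le_mul_of_nonneg_right hN₀ he0
          have h3 := mul_le_mul_of_nonneg_right hpw1 hc₃
          have h4 : (1 - 1 / (n : ℝ)) ^ N₀ * (L + c₃) = (1 - 1 / (n : ℝ)) ^ N₀ * L +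
            (1 - 1 / (n : ℝ)) ^ N₀ * c₃ := by ring
          rw [h4]
          have h5 : (1 - 1 / (n : ℝ)) ^ N₀ * (E * e₀) = (1 - 1 / (n : ℝ)) ^ N₀ * E * e₀ := by
            ring
          linarith only [h1, h2, h3]
        have hR : RR n L κ₀ (γ + g₀) N₀ ε e₁ c₃ ≤ 8 * (σ * e₀) := by
          unfold RR
          push_cast
          have h1 : ((N₀ : ℝ) + 1) * (e₁ + 1) = (N₀ + 1) * e₁ + (N₀ + 1) := by ring
          rw [h1]
          linarith only [hc₃, hκ₀0, he1, t1, t2, t3, t4, t5]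
        have h1 := mul_le_mul_of_nonneg_left hR (by linarith only [hC₂] : 0 ≤ C₂)
        refine h1.trans (le_of_eq ?_)
        rw [hσ]
        field_simp
        norm_num)
      (by
        -- the exponent
        have hη : σ / ((N₀ + 1) * (E + 1)) ≤ 1 := by
          have h1 : σ / ((N₀ + 1) * (E + 1)) ≤ σ := by
            refine div_le_self hσ0.le ?_
            nlinarith only [hEr]
          linarith only [hσ1, h1]
        have h1 : σ / ((N₀ + 1) * (E + 1)) * e₀ ≤ e₀ := by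
          have := mul_le_mul_of_nonneg_right hη he0
          linarith only [this]
        have h2 : (m : ℝ) ≤ e₀ := by exact_mod_cast hme
        rw [hγ₀]
        push_cast
        have h3 : 3 * (e₀ : ℝ) + m + σ / ((N₀ + 1) * (E + 1)) * e₀ + e₀ / 2 + 1 ≤ 7 * e₀ := by
          linarith only [hm₀, hm₀e, hq1, hq2, h1, h2]
        calc C₁ * (3 * (e₀ : ℝ) + m + σ / ((N₀ + 1) * (E + 1)) * e₀ + e₀ / 2 + 1) ≤
              C₁ * (7 * e₀) := mul_le_mul_of_nonneg_left h3 (by linarith only [hC₁])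
          _ ≤ C₁n * (7 * e₀) := mul_le_mul_of_nonneg_right hC₁n (by positivity)
          _ = 7 * C₁n * e₀ := by ring)
      (by
        have h1 : (2 : ℝ) ^ ((u + 1) * e₀) / 2 ^ r₂ * 2 ^ (γ₀ + r₂) =
            2 ^ γ₀ * 2 ^ ((u + 1) * e₀) := by
          rw [pow_add]
          field_simp
        rw [h1, hq', pow_add, pow_add]
        have h2 : (0 : ℝ) < 2 ^ γ₀ * 2 ^ ((u + 1) * e₀) := by positivity
        calc ((D : ℝ) + 1) * (2 ^ γ₀ * 2 ^ ((u + 1) * e₀)) ≤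
              2 ^ e₀ * (2 ^ γ₀ * 2 ^ ((u + 1) * e₀)) := mul_le_mul_of_nonneg_right he3 h2.le
          _ = _ := by ring)
    refine ⟨Y, y, sl, L - r₂ + q', Sc, ?_, hSc, hP⟩
    have h1 : (7 * C₁n + u + 5 + s) * e₀ = 7 * C₁n * e₀ + (u + 1) * e₀ + 4 * e₀ + s * e₀ := by
      ring
    rw [h1, hq', hγ₀]
    omega

end Pool.KS3
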