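import Pool.Agent.H45.KAL.FUL

/-!
# Mixing on leaves with a label

`K_STEP_helper79.md` (1.5): the chain of a family of leaves with a label; `hz` is the entropy of
the label.
-/

set_option autoImplicit false

namespace Pool.KS3

open Finset Real
open Pool.Agent.H49.Ent Pool.Agent.H32.Dense Pool.STK Pool.KAF Pool.KAL

/-- Mixing for a family of leaves. -/
def MIXHStmt : Prop :=
  ∀ (n : ℕ) (C₀ : ℝ), 1 ≤ C₀ → ∃ C : ℝ, 0 ≤ C ∧
    ∀ (Ω Λ Ξ W : Type) [Fintype Ω] [Fintype W] (p : Ω → ℝ) (lam : Ω → Λ) (x : Ω → Ξ)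
      (T : Ξ → ℕ) (pos : Ξ → Option (Fin n) → ℕ) (A B : Λ → Option (Fin n) → ℝ) (L κ γ N : ℕ)
      (q : W → ℝ) (o o' : ℕ → W → Ω) (l : ℕ → W → Λ) (y : ℕ → W → Ξ) (δ ε e₁ e₃ hz : ℝ)
      (e : Ξ → ℝ),
      Leaf n (2 ^ L) C₀ p lam x T pos A B → IsChain p lam x N q o o' l y →
      0 < δ → (∀ a, 0 ≤ e a) → Ex p (fun ω => e (x ω)) ≤ ε → NCF p lam x B δ e →
      n.factorial * C₀ ^ n ≤ δ ^ n * 2 ^ γ → 1 ≤ κ →
      L * Real.log 2 - CH p (fun ω => T (x ω)) lam ≤ e₁ → 0 ≤ e₁ → 0 ≤ e₃ →
      H p x ≤ n * (L * Real.log 2) + e₃ + hz →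
      H p x - CH q (y N) (y 0) ≤ hz + (1 - 1 / n) ^ N * (n * (L * Real.log 2) + e₃) +
        (n * e₁ + e₃ + C * (L / κ + γ + κ + 1 + ε * L))

theorem mixh_thm : MIXHStmt := by
  classical
  intro n C₀ hC₀
  obtain ⟨C₁, hC₁, hmkc⟩ := mkc_thm n C₀ hC₀
  have hl2 : 0 < Real.log 2 := Real.log_pos (by norm_num)
  have hn0 : (0 : ℝ) ≤ n := Nat.cast_nonneg n
  refine ⟨C₁, hC₁, ?_⟩
  intro Ω Λ Ξ W _ _ p lam x T pos A B L κ γ N q o o' l y δ ε e₁ e₃ hz e hleaf hch hδ he hex hnc
    hγ hκ he₁ he₁0 he₃0 hH
  have hp := hleaf.isLaw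
  have hp0 := hp.nonneg
  have hq := hch.isLaw
  have hq0 := hq.nonneg
  have hL0 : (0 : ℝ) ≤ L := Nat.cast_nonneg L
  have hκ0 : (1 : ℝ) ≤ κ := by exact_mod_cast hκ
  have hε : 0 ≤ ε := le_trans (Ex_nonneg hp0 fun ω _ => he (x ω)) hex
  have hM : ((2 ^ L : ℕ) : ℝ) = 2 ^ L := by push_cast; rfl
  set E : ℝ := L / κ + γ + κ + 1 + ε * L with hE
  have hE0 : 0 ≤ E := by positivity
  set G : ℝ := n * e₁ + e₃ + C₁ * E with hG
  have hG0 : 0 ≤ G := by positivity
  -- the information
  set I : ℕ → ℝ := fun i => H q (y 0) - CH q (y 0) (y i) - hz with hI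
  have hHy : ∀ i ≤ N, H q (y i) = H p x := by
    intro i hi
    exact H_eq_of_law (hch.cell i hi)
  have hIs : ∀ i ≤ N, I i = H p x - CH q (y i) (y 0) - hz := by
    intro i hi
    have a1 : H q (fun w => (y 0 w, y i w)) = H q (fun w => (y i w, y 0 w)) :=
      H_congr hq0 (fun _ _ _ _ h => by simp only [Prod.mk.injEq] at h ⊢; tauto)
        (fun _ _ _ _ h => by simp only [Prod.mk.injEq] at h ⊢; tauto)
    simp only [hI]
    rw [← hHy i hi]
    unfold CH
    rw [a1]
    ring
  -- one step
  have step : ∀ i < N, n * I (i + 1) ≤ (n - 1) * I i + G := by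
    intro i hi
    have hmo := hch.marg i hi
    -- conditional independence with the variables of the incidence
    have hX : ∀ w, 0 < q w → y i w = x (o i w) := fun w hw => (hch.start w hw i hi).symm
    have hl : ∀ w, 0 < q w → l i w = lam (o i w) := fun w hw => (hch.line w hw i hi).symm
    have hci : CI q (y 0) (l i) (y i) := by
      unfold CI
      rw [← hch.ci1 i hi]
      refine CH_congr hq0 (fun _ _ _ _ h => (Prod.ext_iff.mp h).1)
        (fun _ _ _ _ h => (Prod.ext_iff.mp h).1) ?_ ?_ <;>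
      · intro w w' _ _ h
        simp only [Prod.mk.injEq] at h ⊢
        tauto
    have hci2 : CI q (y 0) (fun w => lam (o i w)) (fun w => x (o i w)) :=
      hci.replace hq0 (fun _ _ => rfl) hl hX
    -- the fan given the context
    have hnc' : ∀ w, 0 < q w → ∀ u : Fin n → ℝ, (∃ i, 1 ≤ |u i|) →
        ∑ w', (if (y 0 w', x (o i w')) = (y 0 w, x (o i w)) ∧
          |∑ k, u k * B (lam (o i w')) (some k)| ≤ δ then q w' else 0) ≤
          e (x (o i w)) * law q (fun w => (y 0 w, x (o i w))) (y 0 w, x (o i w)) := by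
      intro w hw u hu
      have hpw : 0 < p (o i w) := hmo.pos hq0 hw
      have c1 := hnc (o i w) hpw u hu
      set Ev : W → Prop := fun w' => |∑ k, u k * B (lam (o i w')) (some k)| ≤ δ with hEv
      have hci3 : CI q (y 0) Ev (fun w => x (o i w)) := by
        refine hci2.mono_right hq0 ?_
        intro v v' _ _ h
        have h1 : lam (o i v) = lam (o i v') := (Prod.ext_iff.mp h).1
        simp only [hEv]
        rw [h1]
      have c2 := hci3.law_le hq (y 0 w) True (x (o i w))
      have c3 : law q (fun v => (Ev v, x (o i v))) (True, x (o i w)) ≤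
          e (x (o i w)) * law q (fun v => x (o i v)) (x (o i w)) := by
        rw [hmo.law x]
        refine le_trans (le_of_eq ?_) c1
        have c4 := hmo.ex (fun ω => if x ω = x (o i w) ∧
          |∑ k, u k * B (lam ω) (some k)| ≤ δ then 1 else 0)
        unfold Ex at c4
        simp only [mul_ite, mul_one, mul_zero] at c4
        rw [← c4]
        unfold law
        refine Finset.sum_congr rfl fun v _ => ?_
        by_cases h1 : x (o i v) = x (o i w) ∧ |∑ k, u k * B (lam (o i v)) (some k)| ≤ δ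
        · rw [if_pos h1, if_pos]
          rw [Prod.mk.injEq]
          exact ⟨eq_true h1.2, h1.1⟩
        · rw [if_neg h1, if_neg]
          intro h2
          rw [Prod.mk.injEq] at h2
          exact h1 ⟨h2.2, of_eq_true h2.1⟩
      have c5 : 0 < law q (fun v => x (o i v)) (x (o i w)) := law_pos hq0 _ hw
      have c6 : law q (fun v => (y 0 v, (Ev v, x (o i v)))) (y 0 w, (True, x (o i w))) ≤
          e (x (o i w)) * law q (fun w => (y 0 w, x (o i w))) (y 0 w, x (o i w)) := by
        have c7 := c2.trans (mul_le_mul_of_nonneg_left c3 (law_nonneg hq0 _ _))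
        have c8 : law q (fun v => (y 0 v, (Ev v, x (o i v)))) (y 0 w, (True, x (o i w))) *
            law q (fun v => x (o i v)) (x (o i w)) ≤
            (e (x (o i w)) * law q (fun w => (y 0 w, x (o i w))) (y 0 w, x (o i w))) *
            law q (fun v => x (o i v)) (x (o i w)) := by
          linarith
        exact le_of_mul_le_mul_right c8 c5
      refine le_trans (le_of_eq ?_) c6
      unfold law
      refine Finset.sum_congr rfl fun v _ => ?_
      by_cases h1 : (y 0 v, x (o i v)) = (y 0 w, x (o i w)) ∧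
          |∑ k, u k * B (lam (o i v)) (some k)| ≤ δ
      · rw [if_pos h1, if_pos]
        have h2 := Prod.ext_iff.mp h1.1
        rw [Prod.mk.injEq, Prod.mk.injEq]
        exact ⟨h2.1, eq_true h1.2, h2.2⟩
      · rw [if_neg h1, if_neg]
        intro h2
        rw [Prod.mk.injEq, Prod.mk.injEq] at h2
        exact h1 ⟨Prod.ext h2.1 h2.2.2, of_eq_true h2.2.1⟩
    have hmain := hmkc W Ξ Λ (Ξ × Ξ) q L κ γ δ ε (fun w => (y 0 w, x (o i w)))
      (fun a => e a.2) (fun w => bas pos (x (o i w))) (fun w => T (x (o i w))) (y 0)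
      (fun w => lam (o i w)) (fun a k => A a (some k)) (fun a k => B a (some k)) hq
      (fun w => hleaf.T_lt (o i w))
      (fun w w' _ _ h => by
        have h1 : x (o i w) = x (o i w') := (Prod.ext_iff.mp h).2
        simp only
        rw [h1])
      (fun w w' _ _ h => by
        have h1 : x (o i w) = x (o i w') := (Prod.ext_iff.mp h).2
        simp only
        rw [h1])
      (fun w w' _ _ h => (Prod.ext_iff.mp h).1)
      (by
        intro w _ k
        have := hleaf.near (o i w) (some k)
        rw [hM] at this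
        exact this)
      (fun w k => hleaf.B_le (o i w) (some k)) hδ (fun a => he a.2)
      (by
        rw [hmo.ex (fun ω => e (x ω))]
        exact hex)
      (fun w hw u hu => by convert hnc' w hw u hu) hγ hκ
    -- entropy of the point
    have b1 : CH q (fun w => bas pos (x (o i w))) (y 0) ≤ H p x - hz - I i := by
      rw [hIs i hi.le]
      have : CH q (fun w => bas pos (x (o i w))) (y 0) ≤ CH q (y i) (y 0) := by
        refine CH_mono_left hq0 ?_
        intro w w' h1 h2 h
        have h3 : y i w = y i w' := (Prod.ext_iff.mp h).1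
        rw [hX w h1, hX w' h2] at h3
        simp only
        rw [h3]
      linarith
    -- entropy of the time
    have b2 : CH q (fun w => T (x (o i w))) (fun w => lam (o i w)) =
        CH p (fun ω => T (x ω)) lam := hmo.CH (fun ω => T (x ω)) lam
    have b3 : CH q (fun w => T (x (o i w))) (fun w => (lam (o i w), y 0 w)) =
        CH q (fun w => T (x (o i w))) (fun w => lam (o i w)) -
        (CH q (y 0) (fun w => lam (o i w)) -
          CH q (y 0) (fun w => (T (x (o i w)), lam (o i w)))) := by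
      have a1 := CH_chain hq0 (fun w => T (x (o i w))) (y 0) (fun w => lam (o i w))
      have a2 := CH_chain hq0 (y 0) (fun w => T (x (o i w))) (fun w => lam (o i w))
      have a3 : CH q (fun w => (T (x (o i w)), y 0 w)) (fun w => lam (o i w)) =
          CH q (fun w => (y 0 w, T (x (o i w)))) (fun w => lam (o i w)) := by
        refine CH_congr hq0 ?_ ?_ (fun _ _ _ _ h => h) (fun _ _ _ _ h => h) <;>
        · intro w w' _ _ h
          simp only [Prod.mk.injEq] at h ⊢
          tauto
      have a4 : CH q (fun w => T (x (o i w))) (fun w => (y 0 w, lam (o i w))) =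
          CH q (fun w => T (x (o i w))) (fun w => (lam (o i w), y 0 w)) := by
        refine CH_congr hq0 (fun _ _ _ _ h => (Prod.ext_iff.mp h).1)
          (fun _ _ _ _ h => (Prod.ext_iff.mp h).1) ?_ ?_ <;>
        · intro w w' _ _ h
          simp only [Prod.mk.injEq] at h ⊢
          tauto
      linarith
    have b4 : CH q (y 0) (y i) ≤ CH q (y 0) (fun w => (T (x (o i w)), lam (o i w))) := by
      rw [← hch.ci1 i hi]
      refine CH_mono_cond hq0 ?_
      intro w w' h1 h2 h
      have h3 : y i w = y i w' := (Prod.ext_iff.mp h).1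
      have h4 : l i w = l i w' := (Prod.ext_iff.mp h).2
      rw [hX w h1, hX w' h2] at h3
      rw [hl w h1, hl w' h2] at h4
      simp only
      rw [h3, h4]
    have b5 : CH q (y 0) (fun w => lam (o i w)) = CH q (y 0) (l i) := by
      refine CH_congr hq0 (fun _ _ _ _ h => (Prod.ext_iff.mp h).1)
        (fun _ _ _ _ h => (Prod.ext_iff.mp h).1) ?_ ?_
      · intro w w' h1 h2 h
        rw [hl w h1, hl w' h2]
        exact h
      · intro w w' h1 h2 h
        simp only
        rw [← hl w h1, ← hl w' h2]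
        exact h
    have b6 : CH q (y 0) (l i) ≤ CH q (y 0) (y (i + 1)) := by
      rw [← hch.ci2 i hi]
      exact CH_mono_cond hq0 (fun _ _ _ _ h =>
        (Prod.ext_iff.mp (Prod.ext_iff.mp h).2).1)
    -- assembly
    have d1 : L * Real.log 2 - e₁ - (CH q (y 0) (l i) - CH q (y 0) (y i)) ≤
        CH q (fun w => T (x (o i w))) (fun w => (lam (o i w), y 0 w)) := by
      rw [b3, b2, b5]
      linarith
    have d2 := mul_le_mul_of_nonneg_left d1 hn0
    have d3 : n * (CH q (y 0) (l i) - CH q (y 0) (y i)) ≤ n * (I i - I (i + 1)) := by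
      refine mul_le_mul_of_nonneg_left ?_ hn0
      simp only [hI]
      linarith
    linarith
  have hI0 : ∀ i ≤ N, I i ≤ H p x - hz := by
    intro i hi
    rw [hIs i hi]
    linarith [CH_nonneg hq0 (y i) (y 0)]
  have hgoal : I N ≤ (1 - 1 / n) ^ N * (n * (L * Real.log 2) + e₃) + G := by
    rcases Nat.eq_zero_or_pos n with hn | hn
    · subst hn
      have := hI0 N le_rfl
      simp only [Nat.cast_zero, zero_mul, zero_add, div_zero, sub_zero, one_pow, one_mul] at hH ⊢
      linarith
    · have hn1 : (1 : ℝ) ≤ n := by exact_mod_cast hn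
      have hnp : (0 : ℝ) < n := by linarith
      have hr0 : 0 ≤ (1 : ℝ) - 1 / n := by
        rw [sub_nonneg, div_le_one hnp]
        exact hn1
      have ind : ∀ i ≤ N, I i ≤ (1 - 1 / n) ^ i * (n * (L * Real.log 2) + e₃) + G := by
        intro i
        induction i with
        | zero =>
          intro _
          rw [pow_zero, one_mul]
          linarith [hI0 0 (Nat.zero_le N)]
        | succ i ih =>
          intro hi
          have h1 := ih (by omega)
          have h2 := step i (by omega)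
          have h3 : I (i + 1) ≤ (1 - 1 / n) * I i + G / n := by
            have h4 : n * I (i + 1) ≤ n * ((1 - 1 / n) * I i + G / n) := by
              have h5 : n * ((1 - 1 / (n : ℝ)) * I i + G / n) = (n - 1) * I i + G := by
                field_simp
              rw [h5]
              exact h2
            exact le_of_mul_le_mul_left h4 hnp
          have h6 := mul_le_mul_of_nonneg_left h1 hr0
          have h7 : (1 - 1 / (n : ℝ)) * G + G / n = G := by
            field_simp
            ring
          rw [pow_succ]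
          have h8 : (1 - 1 / (n : ℝ)) * ((1 - 1 / n) ^ i * (n * (L * Real.log 2) + e₃) + G) =
              (1 - 1 / n) ^ i * (1 - 1 / n) * (n * (L * Real.log 2) + e₃) +
                (1 - 1 / (n : ℝ)) * G := by ring
          linarith
      exact ind N le_rfl
  have := hIs N le_rfl
  linarith


/-- Fullness of the base coordinates given a label which is constant along the lines. -/
def FULHStmt : Prop :=
  ∀ (n : ℕ) (C₀ : ℝ), 1 ≤ C₀ → ∃ C : ℝ, 0 ≤ C ∧
    ∀ (Ω Λ Ξ Z : Type) [Fintype Ω] (p : Ω → ℝ) (lam : Ω → Λ) (x : Ω → Ξ) (T : Ξ → ℕ)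
      (pos : Ξ → Option (Fin n) → ℕ) (A B : Λ → Option (Fin n) → ℝ) (zx : Ξ → Z) (zl : Λ → Z)
      (L κ γ : ℕ) (δ ε e₁ : ℝ) (e : Ξ → ℝ),
      Leaf n (2 ^ L) C₀ p lam x T pos A B → (∀ ω, 0 < p ω → zx (x ω) = zl (lam ω)) → 0 < δ →
      (∀ a, 0 ≤ e a) → Ex p (fun ω => e (x ω)) ≤ ε → NCF p lam x B δ e →
      n.factorial * C₀ ^ n ≤ δ ^ n * 2 ^ γ → 1 ≤ κ →
      L * Real.log 2 - CH p (fun ω => T (x ω)) lam ≤ e₁ →
      n * (L * Real.log 2) - CH p (fun ω => bas pos (x ω)) (fun ω => zx (x ω)) ≤
        n * e₁ + C * (L / κ + γ + κ + 1 + ε * L)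

theorem fulh_thm : FULHStmt := by
  classical
  intro n C₀ hC₀
  obtain ⟨C₁, hC₁, hmkc⟩ := mkc_thm n C₀ hC₀
  have hn0 : (0 : ℝ) ≤ n := Nat.cast_nonneg n
  refine ⟨C₁, hC₁, ?_⟩
  intro Ω Λ Ξ Z _ p lam x T pos A B zx zl L κ γ δ ε e₁ e hleaf hz hδ he hex hnc hγ hκ he₁
  have hp := hleaf.isLaw
  have hp0 := hp.nonneg
  have hM : ((2 ^ L : ℕ) : ℝ) = 2 ^ L := by push_cast; rfl
  have h1 := hmkc Ω Z Λ Ξ p L κ γ δ ε x e (fun ω => bas pos (x ω))
    (fun ω => T (x ω)) (fun ω => zx (x ω)) lam (fun a i => A a (some i))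
    (fun a i => B a (some i)) hp hleaf.T_lt
    (fun ω ω' _ _ h => by simp only at h ⊢; rw [h])
    (fun ω ω' _ _ h => by simp only at h ⊢; rw [h])
    (fun ω ω' _ _ h => by simp only at h ⊢; rw [h])
    (by
      intro ω _ i
      have := hleaf.near ω (some i)
      rw [hM] at this
      exact this)
    (fun ω i => hleaf.B_le ω (some i)) hδ he hex hnc hγ hκ
  have h2 : CH p (fun ω => T (x ω)) lam ≤ CH p (fun ω => T (x ω)) (fun ω => (lam ω, zx (x ω))) := by
    refine CH_mono_cond hp0 ?_
    intro ω ω' a b h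
    have h3 : lam ω = lam ω' := h
    exact Prod.ext h3 (by
      change zx (x ω) = zx (x ω')
      rw [hz ω a, hz ω' b, h3])
  have h3 := mul_le_mul_of_nonneg_left (h2.trans le_rfl) hn0
  have h4 := mul_le_mul_of_nonneg_left he₁ hn0
  linarith

end Pool.KS3
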