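import Pool.Agent.H82.KSP.LRP

/-!
# Contraction of the passive coordinate

The jets of thickness `h` in the base coordinates and `h / s` in the passive coordinate are the
isotropic jets of thickness `h` after the contraction `N ↦ s N` of the passive coordinate.
-/

set_option autoImplicit false

namespace Pool.KS3

open Finset Real
open Pool.Agent.H49.Ent Pool.Agent.H32.Dense Pool.STK Pool.KAF Pool.KAL

/-- The contracted point. -/
def cpt {n : ℕ} (s : ℝ) (z : Option (Fin n) → ℝ) : Option (Fin n) → ℝ :=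
  fun o => o.elim (s * z none) (fun i => z (some i))

/-- The polynomial in the contracted coordinates. -/
noncomputable def ctr {n : ℕ} (s : ℝ) (P : MvPolynomial (Option (Fin n)) ℝ) :
    MvPolynomial (Option (Fin n)) ℝ :=
  MvPolynomial.aeval (fun o : Option (Fin n) => o.elim
    (MvPolynomial.C (1 / s) * MvPolynomial.X none : MvPolynomial (Option (Fin n)) ℝ)
    (fun i => MvPolynomial.X (some i))) P

/-- Jets of thickness `h` in the base coordinates and `h / s` in the passive coordinate. -/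
noncomputable def PsiC {n : ℕ} (s : ℝ) (P : MvPolynomial (Option (Fin n)) ℝ) (h : ℝ)
    (z : Option (Fin n) → ℝ) : ℝ := Psi (ctr s P) h (cpt s z)

section

variable {n : ℕ} {s : ℝ}

lemma ctr_ctr (hs : s ≠ 0) (P : MvPolynomial (Option (Fin n)) ℝ) :
    ctr (1 / s) (ctr s P) = P := by
  unfold ctr
  rw [← AlgHom.comp_apply, MvPolynomial.comp_aeval]
  have : (fun o : Option (Fin n) => (MvPolynomial.aeval fun o : Option (Fin n) => o.elim
      (MvPolynomial.C (1 / (1 / s)) * MvPolynomial.X none : MvPolynomial (Option (Fin n)) ℝ)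
      (fun i => MvPolynomial.X (some i))) (o.elim
      (MvPolynomial.C (1 / s) * MvPolynomial.X none : MvPolynomial (Option (Fin n)) ℝ)
      (fun i => MvPolynomial.X (some i)))) = MvPolynomial.X := by
    funext o
    cases o with
    | none =>
      simp only [Option.elim, map_mul, MvPolynomial.aeval_X, MvPolynomial.algHom_C,
        MvPolynomial.algebraMap_eq]
      rw [← mul_assoc, ← map_mul]
      have : 1 / s * (1 / (1 / s)) = 1 := by field_simp
      rw [this, map_one, one_mul]
    | some i => simp only [Option.elim, MvPolynomial.aeval_X]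
  rw [this, MvPolynomial.aeval_X_left]
  rfl

lemma ctr_ne_zero (hs : s ≠ 0) {P : MvPolynomial (Option (Fin n)) ℝ} (hP : P ≠ 0) :
    ctr s P ≠ 0 := by
  intro h
  apply hP
  rw [← ctr_ctr hs P, h]
  exact map_zero _

lemma totalDegree_ctr_le (P : MvPolynomial (Option (Fin n)) ℝ) :
    (ctr s P).totalDegree ≤ P.totalDegree := by
  classical
  unfold ctr
  have h1 : MvPolynomial.aeval (fun o : Option (Fin n) => o.elim
    (MvPolynomial.C (1 / s) * MvPolynomial.X none : MvPolynomial (Option (Fin n)) ℝ)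
    (fun i => MvPolynomial.X (some i))) P
      = ∑ α ∈ P.support, MvPolynomial.C (MvPolynomial.coeff α P) * ∏ o ∈ α.support,
        (o.elim
    (MvPolynomial.C (1 / s) * MvPolynomial.X none : MvPolynomial (Option (Fin n)) ℝ)
    (fun i => MvPolynomial.X (some i))) ^ α o := by
    rw [MvPolynomial.aeval_def, MvPolynomial.eval₂_eq]
    rfl
  rw [h1]
  refine MvPolynomial.totalDegree_finsetSum_le ?_
  intro α hα
  refine (MvPolynomial.totalDegree_mul _ _).trans ?_
  rw [MvPolynomial.totalDegree_C, zero_add]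
  refine (MvPolynomial.totalDegree_finsetProd _ _).trans ?_
  have h2 : ∀ o ∈ α.support, ((o.elim
    (MvPolynomial.C (1 / s) * MvPolynomial.X none : MvPolynomial (Option (Fin n)) ℝ)
    (fun i => MvPolynomial.X (some i))) ^ α o).totalDegree ≤ α o := by
    intro o _
    refine (MvPolynomial.totalDegree_pow _ _).trans ?_
    have h3 : (o.elim
        (MvPolynomial.C (1 / s) * MvPolynomial.X none : MvPolynomial (Option (Fin n)) ℝ)
        (fun i => MvPolynomial.X (some i))).totalDegree ≤ 1 := by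
      cases o with
      | none =>
        simp only [Option.elim]
        refine (MvPolynomial.totalDegree_mul _ _).trans ?_
        rw [MvPolynomial.totalDegree_C, MvPolynomial.totalDegree_X]
      | some i =>
        simp only [Option.elim]
        rw [MvPolynomial.totalDegree_X]
    calc α o * _ ≤ α o * 1 := Nat.mul_le_mul_left _ h3
      _ = α o := mul_one _
  refine (Finset.sum_le_sum h2).trans ?_
  exact MvPolynomial.le_totalDegree hα

/-- Contraction and rescaling. -/
lemma ctr_shf (hs : s ≠ 0) (P : MvPolynomial (Option (Fin n)) ℝ) (k : ℝ)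
    (y : Option (Fin n) → ℝ) : ctr s (shf P k y) = shf (ctr s P) k (cpt s y) := by
  unfold ctr shf
  rw [← AlgHom.comp_apply, MvPolynomial.comp_aeval, ← AlgHom.comp_apply,
    MvPolynomial.comp_aeval]
  congr 2
  funext o
  cases o with
  | none =>
    simp only [Option.elim, map_add, map_mul, MvPolynomial.aeval_X, MvPolynomial.algHom_C,
      MvPolynomial.algebraMap_eq, cpt]
    have e1 : (MvPolynomial.C s : MvPolynomial (Option (Fin n)) ℝ) *
        MvPolynomial.C (1 / s) = 1 := by
      rw [← map_mul]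
      have : s * (1 / s) = 1 := by field_simp
      rw [this, map_one]
    linear_combination (-MvPolynomial.C (y none)) * e1
  | some i =>
    simp only [Option.elim, map_add, map_mul, MvPolynomial.aeval_X, MvPolynomial.algHom_C,
      MvPolynomial.algebraMap_eq, cpt]

/-- Rescaling of the jets. -/
lemma PsiC_shf (hs : s ≠ 0) (P : MvPolynomial (Option (Fin n)) ℝ) (k h : ℝ)
    (y u : Option (Fin n) → ℝ) :
    PsiC s (shf P k y) h u = PsiC s P (k * h) (fun o => y o + k * u o) := by
  unfold PsiC Psi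
  rw [ctr_shf hs, shf_shf]
  congr 2
  funext o
  cases o with
  | none =>
    simp only [cpt, Option.elim]
    ring
  | some i => rfl

lemma PsiC_pos (hs : s ≠ 0) {P : MvPolynomial (Option (Fin n)) ℝ} (hP : P ≠ 0) {h : ℝ}
    (hh : 0 < h) (z : Option (Fin n) → ℝ) : 0 < PsiC s P h z :=
  Psi_pos _ (ctr_ne_zero hs hP) h hh _

/-- Moving the point. -/
lemma PsiC_le_of_near (P : MvPolynomial (Option (Fin n)) ℝ) {h : ℝ} (hh : 0 ≤ h) {D : ℕ}
    (hD : P.totalDegree ≤ D) (z z' : Option (Fin n) → ℝ)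
    (hz : ∀ o, |cpt s z' o - cpt s z o| ≤ h) : PsiC s P h z' ≤ 2 ^ D * PsiC s P h z := by
  unfold PsiC
  refine (Psi_le_of_near _ h hh _ _ hz).trans ?_
  refine mul_le_mul_of_nonneg_right ?_ (Psi_nonneg _ _ _)
  exact pow_le_pow_right₀ (by norm_num) ((totalDegree_ctr_le P).trans hD)

end

/-- Row LRPA: (1.5) with anisotropic jets. -/
def LRPAStmt : Prop :=
  ∀ (n D k₀ : ℕ) (C₀ : ℝ), 1 ≤ C₀ → ∃ C : ℝ, 0 ≤ C ∧
    ∀ (Ω Λ Ξ Z V Γ : Type) [Fintype Ω] [Fintype V] (p : Ω → ℝ) (lam : Ω → Λ) (x : Ω → Ξ)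
      (T : Ξ → ℕ) (pos : Ξ → Option (Fin n) → ℕ) (A B : Λ → Option (Fin n) → ℝ) (zx : Ξ → Z)
      (zl : Λ → Z) (G : Z → MvPolynomial (Fin n) ℝ) (L κ γ N : ℕ) (δ ε e₁ e₃ s : ℝ) (e : Ξ → ℝ)
      (r : V → ℝ) (X : V → Ξ) (c : V → Γ) (P : Γ → Z → MvPolynomial (Option (Fin n)) ℝ)
      (S : Γ → Z → ℝ),
      Leaf n (2 ^ L) C₀ p lam x T pos A B → (∀ ω, 0 < p ω → zx (x ω) = zl (lam ω)) →
      (∀ ω, 0 < p ω → RegG (G (zx (x ω))) (fun _ => 0) 1 k₀ C₀) →
      (∀ ω, 0 < p ω → |rp (2 ^ L) pos (x ω) none - MvPolynomial.eval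
        (fun i => rp (2 ^ L) pos (x ω) (some i)) (G (zx (x ω)))| ≤ C₀ / 2 ^ L) →
      0 < δ → (∀ a, 0 ≤ e a) → Ex p (fun ω => e (x ω)) ≤ ε → NCF p lam x B δ e →
      n.factorial * (2 * C₀) ^ n ≤ δ ^ n * 2 ^ γ → 1 ≤ κ →
      L * Real.log 2 - CH p (fun ω => T (x ω)) lam ≤ e₁ → 0 ≤ e₁ →
      CH p x (fun ω => (bas pos (x ω), zx (x ω))) ≤ e₃ →
      0 < s → s ≤ 1 →
      IsLaw r → (∀ ξ, law r X ξ = law p x ξ) →
      (∀ v, 0 < r v → P (c v) (zx (X v)) ≠ 0 ∧ (P (c v) (zx (X v))).totalDegree ≤ D) →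
      (∀ v, 0 < r v → 0 < S (c v) (zx (X v)) ∧ ∃ ω, 0 < p ω ∧ zx (x ω) = zx (X v) ∧
        S (c v) (zx (X v)) ≤ PsiC s (P (c v) (zx (X v))) (2 * C₀ / 2 ^ L)
          (rp (2 ^ L) pos (x ω))) →
      Ex r (fun v => Real.log (S (c v) (zx (X v)))) ≤
        Ex r (fun v => Real.log (PsiC s (P (c v) (zx (X v))) (2 * C₀ / 2 ^ L)
          (rp (2 ^ L) pos (X v)))) +
          2 * D * (CH r c (fun v => zx (X v)) - CH r c X) +
          C * ((N + 1) * (e₁ + 1) + e₃ + (1 - 1 / n) ^ N * (L + e₃) + L / κ + γ + κ + ε * L)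

theorem lrpa_thm : LRPAStmt := by
  classical
  intro n D k₀ C₀ hC₀
  have h2C : (1 : ℝ) ≤ 2 * C₀ := by linarith only [hC₀]
  obtain ⟨C, hC, hlrp⟩ := lrp_thm n D k₀ (2 * C₀) h2C
  have hl2 : 0 < Real.log 2 := Real.log_pos (by norm_num)
  refine ⟨C + 2 * D * Real.log 2, by positivity, ?_⟩
  intro Ω Λ Ξ Z V Γ _ _ p lam x T pos A B zx zl G L κ γ N δ ε e₁ e₃ s e r X c P S hleaf hz hreg
    hgr hδ he hex hnc hγ hκ he₁ he₁0 he₃ hs0 hs1 hr hX hP hS
  have hp := hleaf.isLaw
  have hp0 := hp.nonneg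
  have hr0 := hr.nonneg
  have hM : ((2 ^ L : ℕ) : ℝ) = 2 ^ L := by push_cast; rfl
  have hM0 : (0 : ℝ) < 2 ^ L := by positivity
  -- the contracted leaf
  set pos' : Ξ → Option (Fin n) → ℕ := fun ξ o =>
    o.elim ⌊s * (pos ξ none : ℝ)⌋₊ (fun i => pos ξ (some i)) with hpos'
  have hfl : ∀ ξ, |(⌊s * (pos ξ none : ℝ)⌋₊ : ℝ) - s * (pos ξ none : ℝ)| ≤ 1 := by
    intro ξ
    have h1 := Nat.floor_le (by positivity : 0 ≤ s * (pos ξ none : ℝ))
    have h2 := Nat.lt_floor_add_one (s * (pos ξ none : ℝ))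
    rw [abs_le]
    constructor <;> linarith
  have hcl : ∀ ξ o, |rp (2 ^ L) pos' ξ o - cpt s (rp (2 ^ L) pos ξ) o| ≤ 1 / 2 ^ L := by
    intro ξ o
    cases o with
    | none =>
      simp only [rp, cpt, Option.elim, hpos']
      rw [hM]
      have h1 := hfl ξ
      have e1 : (⌊s * (pos ξ none : ℝ)⌋₊ : ℝ) / 2 ^ L - s * ((pos ξ none : ℝ) / 2 ^ L) =
          ((⌊s * (pos ξ none : ℝ)⌋₊ : ℝ) - s * (pos ξ none : ℝ)) / 2 ^ L := by ring
      rw [e1, abs_div, abs_of_pos hM0]
      exact div_le_div_of_nonneg_right h1 hM0.le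
    | some i =>
      simp only [rp, cpt, Option.elim, hpos', sub_self, abs_zero]
      positivity
  have hleaf' : Leaf n (2 ^ L) (2 * C₀) p lam x T pos' (fun l => cpt s (A l))
      (fun l => cpt s (B l)) :=
    { isLaw := hp
      T_lt := hleaf.T_lt
      pos_lt := by
        intro ω o
        cases o with
        | none =>
          simp only [hpos', Option.elim]
          have h1 := hleaf.pos_lt ω none
          refine lt_of_le_of_lt ?_ h1
          refine Nat.floor_le_of_le ?_
          have h2 : (0 : ℝ) ≤ (pos (x ω) none : ℝ) := Nat.cast_nonneg _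
          nlinarith only [hs1]
        | some i =>
          simp only [hpos', Option.elim]
          exact hleaf.pos_lt ω (some i)
      near := by
        intro ω o
        have h1 := hcl (x ω) o
        have h2 := hleaf.near ω
        simp only [rp] at h1
        have h3 : |cpt s (fun o => (pos (x ω) o : ℝ) / ((2 ^ L : ℕ) : ℝ)) o -
            (cpt s (A (lam ω)) o + (T (x ω) : ℝ) / ((2 ^ L : ℕ) : ℝ) * cpt s (B (lam ω)) o)| ≤
            C₀ / ((2 ^ L : ℕ) : ℝ) := by
          cases o with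
          | none =>
            simp only [cpt, Option.elim]
            have h4 := h2 none
            have e1 : s * ((pos (x ω) none : ℝ) / ((2 ^ L : ℕ) : ℝ)) -
                (s * A (lam ω) none + (T (x ω) : ℝ) / ((2 ^ L : ℕ) : ℝ) * (s * B (lam ω) none)) =
                s * ((pos (x ω) none : ℝ) / ((2 ^ L : ℕ) : ℝ) - (A (lam ω) none +
                  (T (x ω) : ℝ) / ((2 ^ L : ℕ) : ℝ) * B (lam ω) none)) := by ring
            rw [e1, abs_mul, abs_of_pos hs0]
            calc s * |_| ≤ 1 * |_| := mul_le_mul_of_nonneg_right hs1 (abs_nonneg _)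
              _ ≤ _ := by rw [one_mul]; exact h4
          | some i =>
            simp only [cpt, Option.elim]
            exact h2 (some i)
        have h5 := abs_sub_le ((pos' (x ω) o : ℝ) / ((2 ^ L : ℕ) : ℝ))
          (cpt s (fun o => (pos (x ω) o : ℝ) / ((2 ^ L : ℕ) : ℝ)) o)
          (cpt s (A (lam ω)) o + (T (x ω) : ℝ) / ((2 ^ L : ℕ) : ℝ) * cpt s (B (lam ω)) o)
        refine h5.trans ?_
        have h6 : C₀ / ((2 ^ L : ℕ) : ℝ) + 1 / 2 ^ L ≤ 2 * C₀ / ((2 ^ L : ℕ) : ℝ) := by
          rw [hM, ← add_div]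
          exact div_le_div_of_nonneg_right (by linarith only [hC₀]) hM0.le
        have h1' : |(pos' (x ω) o : ℝ) / ((2 ^ L : ℕ) : ℝ) -
            cpt s (fun o => (pos (x ω) o : ℝ) / ((2 ^ L : ℕ) : ℝ)) o| ≤ 1 / 2 ^ L := h1
        linarith only [h3, h6, h1']
      A_le := by
        intro ω o
        cases o with
        | none =>
          simp only [cpt, Option.elim]
          rw [abs_mul, abs_of_pos hs0]
          have h1 := hleaf.A_le ω none
          have h2 := abs_nonneg (A (lam ω) none)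
          nlinarith only [hC₀, hs1, hs0, h1]
        | some i =>
          simp only [cpt, Option.elim]
          exact (hleaf.A_le ω (some i)).trans (by linarith only [hC₀])
      B_le := by
        intro ω o
        cases o with
        | none =>
          simp only [cpt, Option.elim]
          rw [abs_mul, abs_of_pos hs0]
          have h1 := hleaf.B_le ω none
          have h2 := abs_nonneg (B (lam ω) none)
          nlinarith only [hC₀, hs1, hs0, h1]
        | some i =>
          simp only [cpt, Option.elim]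
          exact (hleaf.B_le ω (some i)).trans (by linarith only [hC₀]) }
  set h : ℝ := 2 * C₀ / 2 ^ L with hh
  have hh0 : 0 < h := by positivity
  have h1h : 1 / 2 ^ L ≤ h := by
    rw [hh]
    exact div_le_div_of_nonneg_right (by linarith only [hC₀]) hM0.le
  have key := hlrp Ω Λ Ξ Z V Γ p lam x T pos' (fun l => cpt s (A l)) (fun l => cpt s (B l)) zx zl
    (fun ζ => MvPolynomial.C s * G ζ) L κ γ N δ ε e₁ e₃ e r X c (fun g ζ => ctr s (P g ζ))
    (fun g ζ => S g ζ / 2 ^ D) hleaf' hz
    (by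
      intro ω hω
      have h1 := hreg ω hω
      refine ⟨?_, ?_⟩
      · refine (MvPolynomial.totalDegree_mul _ _).trans ?_
        rw [MvPolynomial.totalDegree_C, zero_add]
        exact h1.deg
      · intro y hy i
        have h2 := h1.slope y hy i
        have e1 : MvPolynomial.pderiv i (MvPolynomial.C s * G (zx (x ω))) =
            MvPolynomial.C s * MvPolynomial.pderiv i (G (zx (x ω))) := by
          rw [MvPolynomial.pderiv_C_mul]
        rw [e1, map_mul, MvPolynomial.eval_C, abs_mul, abs_of_pos hs0]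
        have h3 := abs_nonneg (MvPolynomial.eval y (MvPolynomial.pderiv i (G (zx (x ω)))))
        nlinarith only [hC₀, hs1, hs0, h2])
    (by
      intro ω hω
      have h1 := hgr ω hω
      have h2 := hcl (x ω) none
      have e1 : (fun i => rp (2 ^ L) pos' (x ω) (some i)) =
          fun i => rp (2 ^ L) pos (x ω) (some i) := rfl
      rw [e1, map_mul, MvPolynomial.eval_C]
      have h3 : |cpt s (rp (2 ^ L) pos (x ω)) none - s * MvPolynomial.eval
          (fun i => rp (2 ^ L) pos (x ω) (some i)) (G (zx (x ω)))| ≤ C₀ / 2 ^ L := by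
        simp only [cpt, Option.elim]
        rw [← mul_sub, abs_mul, abs_of_pos hs0]
        calc s * |_| ≤ 1 * |_| := mul_le_mul_of_nonneg_right hs1 (abs_nonneg _)
          _ ≤ _ := by rw [one_mul]; exact h1
      refine (abs_sub_le _ (cpt s (rp (2 ^ L) pos (x ω)) none) _).trans ?_
      have h6 : C₀ / 2 ^ L + 1 / 2 ^ L ≤ 2 * C₀ / 2 ^ L := by
        rw [← add_div]
        exact div_le_div_of_nonneg_right (by linarith only [hC₀]) hM0.le
      linarith only [h2, h3, h6])
    hδ he hex hnc hγ hκ he₁ he₁0 he₃ hr hX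
    (fun v hv => ⟨ctr_ne_zero hs0.ne' (hP v hv).1,
      (totalDegree_ctr_le _).trans (hP v hv).2⟩)
    (by
      intro v hv
      obtain ⟨hS0, ω, hω, hzω, hS'⟩ := hS v hv
      refine ⟨by positivity, ω, hω, hzω, ?_⟩
      rw [div_le_iff₀ (by positivity), mul_comm]
      refine hS'.trans ?_
      unfold PsiC
      refine (Psi_le_of_near _ h hh0.le (rp (2 ^ L) pos' (x ω)) _ ?_).trans ?_
      · intro o
        rw [abs_sub_comm]
        exact (hcl (x ω) o).trans h1h
      · refine mul_le_mul_of_nonneg_right ?_ (Psi_nonneg _ _ _)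
        exact pow_le_pow_right₀ (by norm_num) ((totalDegree_ctr_le _).trans (hP v hv).2))
  -- comparison
  have hlog : ∀ v, 0 < r v → Real.log (S (c v) (zx (X v)) / 2 ^ D) =
      Real.log (S (c v) (zx (X v))) - D * Real.log 2 := by
    intro v hv
    rw [Real.log_div (hS v hv).1.ne' (by positivity), Real.log_pow]
  have g1 : Ex r (fun v => Real.log (S (c v) (zx (X v)) / 2 ^ D)) =
      Ex r (fun v => Real.log (S (c v) (zx (X v)))) - D * Real.log 2 := by
    have e1 : Ex r (fun v => Real.log (S (c v) (zx (X v)) / 2 ^ D)) =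
        Ex r (fun v => Real.log (S (c v) (zx (X v))) - D * Real.log 2) := by
      unfold Ex
      refine Finset.sum_congr rfl fun v _ => ?_
      by_cases hv : 0 < r v
      · simp only [hlog v hv]
      · have : r v = 0 := le_antisymm (not_lt.mp hv) (hr0 v)
        rw [this, zero_mul, zero_mul]
    rw [e1, Ex_sub, Ex_const hr.sum_one]
  have g2 : Ex r (fun v => Real.log (Psi (ctr s (P (c v) (zx (X v)))) (2 * C₀ / 2 ^ L)
      (rp (2 ^ L) pos' (X v)))) ≤
      Ex r (fun v => Real.log (PsiC s (P (c v) (zx (X v))) (2 * C₀ / 2 ^ L)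
      (rp (2 ^ L) pos (X v)))) + D * Real.log 2 := by
    have e1 : Ex r (fun v => Real.log (Psi (ctr s (P (c v) (zx (X v)))) (2 * C₀ / 2 ^ L)
        (rp (2 ^ L) pos' (X v)))) ≤
        Ex r (fun v => Real.log (PsiC s (P (c v) (zx (X v))) (2 * C₀ / 2 ^ L)
          (rp (2 ^ L) pos (X v))) + D * Real.log 2) := by
      refine Ex_mono hr0 fun v hv => ?_
      have h1 := Psi_le_of_near (ctr s (P (c v) (zx (X v)))) h hh0.le
        (cpt s (rp (2 ^ L) pos (X v))) (rp (2 ^ L) pos' (X v))
        (fun o => (hcl (X v) o).trans h1h)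
      have h2 : Psi (ctr s (P (c v) (zx (X v)))) h (rp (2 ^ L) pos' (X v)) ≤
          2 ^ D * PsiC s (P (c v) (zx (X v))) h (rp (2 ^ L) pos (X v)) := by
        refine h1.trans ?_
        refine mul_le_mul_of_nonneg_right ?_ (Psi_nonneg _ _ _)
        exact pow_le_pow_right₀ (by norm_num) ((totalDegree_ctr_le _).trans (hP v hv).2)
      have h3 := PsiC_pos hs0.ne' (hP v hv).1 hh0 (rp (2 ^ L) pos (X v))
      have h4 := Psi_pos _ (ctr_ne_zero hs0.ne' (hP v hv).1) h hh0 (rp (2 ^ L) pos' (X v))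
      have h5 := Real.log_le_log h4 h2
      rw [Real.log_mul (by positivity) h3.ne', Real.log_pow] at h5
      linarith only [h5]
    rwa [Ex_add, Ex_const hr.sum_one] at e1
  rw [g1] at key
  have hn1 : (1 : ℝ) ≤ (N + 1) * (e₁ + 1) + e₃ + (1 - 1 / n) ^ N * (L + e₃) + L / κ + γ + κ +
      ε * L := by
    have he₃0 : 0 ≤ e₃ := (CH_nonneg hp0 _ _).trans he₃
    have hε : 0 ≤ ε := le_trans (Ex_nonneg hp0 fun ω _ => he (x ω)) hex
    have hL0 : (0 : ℝ) ≤ L := Nat.cast_nonneg L
    have hN : (0 : ℝ) ≤ N := Nat.cast_nonneg N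
    have hpw : (0 : ℝ) ≤ (1 - 1 / n) ^ N := by
      rcases Nat.eq_zero_or_pos n with h | h
      · subst h
        simp
      · have h1 : (1 : ℝ) ≤ n := by exact_mod_cast h
        have h2 : (1 : ℝ) / n ≤ 1 := by
          rw [div_le_one (by linarith only [h1])]
          exact h1
        exact pow_nonneg (by linarith only [h2]) _
    have h3 : 0 ≤ (1 - 1 / (n : ℝ)) ^ N * (L + e₃) := by positivity
    have h4 : 0 ≤ (L : ℝ) / κ := by positivity
    have h5 : (0 : ℝ) ≤ γ := Nat.cast_nonneg γ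
    have h6 : (0 : ℝ) ≤ κ := Nat.cast_nonneg κ
    have h7 : 0 ≤ ε * L := by positivity
    have h8 : (1 : ℝ) * 1 ≤ (N + 1) * (e₁ + 1) :=
      mul_le_mul (by linarith only) (by linarith only [he₁0]) (by norm_num) (by linarith only)
    linarith only [he₃0, h3, h4, h7, h8]
  have hD : (0 : ℝ) ≤ 2 * D * Real.log 2 := by positivity
  have h9 := mul_le_mul_of_nonneg_left hn1 hD
  have h10 : (C + 2 * D * Real.log 2) * ((N + 1) * (e₁ + 1) + e₃ +
      (1 - 1 / n) ^ N * (L + e₃) + L / κ + γ + κ + ε * L) =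
      C * ((N + 1) * (e₁ + 1) + e₃ + (1 - 1 / n) ^ N * (L + e₃) + L / κ + γ + κ + ε * L) +
      2 * D * Real.log 2 * ((N + 1) * (e₁ + 1) + e₃ + (1 - 1 / n) ^ N * (L + e₃) + L / κ +
        γ + κ + ε * L) := by ring
  rw [h10]
  linarith only [key, g2, h9]

end Pool.KS3
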