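import Pool.Agent.H82.KSP.QDT
import Pool.Agent.H99.KST.CNV

/-!
# The count (1.2) and the price (1.3)
-/

set_option autoImplicit false

namespace Pool.KS3

open Finset Real
open Pool.Agent.H49.Ent Pool.Agent.H32.Dense Pool.STK Pool.KAF Pool.KAL Pool.KST

/-- Row CNT: given the label of the first incidence and the base coordinates of the second one,
the entropy of its passive coordinate. -/
theorem cnt (n D : ℕ) (C₀ : ℝ) (hC₀ : 1 ≤ C₀) (k₀ : ℕ) : ∃ C : ℝ, 1 ≤ C ∧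
    ∀ (a L : ℕ) (Ω Λ Ξ Z : Type) [Fintype Ω] (p : Ω → ℝ) (lam : Ω → Λ)
      (x : Ω → Ξ) (T : Ξ → ℕ) (pos : Ξ → Option (Fin n) → ℕ) (A B : Λ → Option (Fin n) → ℝ)
      (zx : Ξ → Z) (zl : Λ → ℕ → Z) (cz : Z → Option (Fin n) → ℕ)
      (G : Z → MvPolynomial (Fin n) ℝ) (κ γ : ℕ) (δ ε e₁ eT lm : ℝ) (e : Ξ → ℝ),
      StepF n a L C₀ p lam x T pos A B zx zl cz →
      (∀ ω, 0 < p ω → RegG (G (zx (x ω))) (fun _ => 0) 1 k₀ (3 * C₀)) →
      (∀ ω, 0 < p ω → |rp (2 ^ L) (posS pos L) (x ω) none - MvPolynomial.eval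
        (fun i => rp (2 ^ L) (posS pos L) (x ω) (some i)) (G (zx (x ω)))| ≤ 3 * C₀ / 2 ^ L) →
      (∀ ω, 0 < p ω → ¬ Bad (G (zx (x ω))) (fun _ => 0) 1 D lm) →
      6 * C₀ / 2 ^ L ≤ lm → lm ≤ 1 →
      0 < δ → (∀ a, 0 ≤ e a) → Ex p (fun ω => e (x ω)) ≤ ε → NCF p lam x B δ e →
      n.factorial * (3 * C₀) ^ n ≤ δ ^ n * 2 ^ γ → 1 ≤ κ →
      L * Real.log 2 - CH p (fun ω => TS T L (x ω)) (lamS lam x T L) ≤ e₁ → 0 ≤ e₁ →
      (a + L) * Real.log 2 - CH p (fun ω => T (x ω)) lam ≤ eT →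
      CH (dbl p lam) (fun v => pos (x v.2) none) (fun v => (bas pos (x v.2), zx (x v.1))) ≤
        Real.log ((a + L : ℕ) + 2) + Real.log (lm * 2 ^ L) +
          (4 * D * (a * Real.log 2) + 2 * D * eT) +
          C * (e₁ + L / κ + γ + κ + 1 + ε * L) := by
  classical
  have h3C : (1 : ℝ) ≤ 3 * C₀ := by linarith
  obtain ⟨Cq, hCq, hqdt⟩ := qdt n D k₀ C₀ hC₀
  obtain ⟨Co, hCo, hone⟩ := onep n D C₀ hC₀
  obtain ⟨Ct, hCt, htwo⟩ := two n D C₀ hC₀
  obtain ⟨K, Cc, hK, hCc, hcnv⟩ := cnv n D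
  have hK1 : (1 : ℝ) ≤ K := by exact_mod_cast hK
  have hD0 : (0 : ℝ) ≤ D := Nat.cast_nonneg D
  have hl2 : 0 < Real.log 2 := Real.log_pos (by norm_num)
  set c₁ : ℝ := Real.log (K * 2 ^ D * (D + 1) * Cq) with hc₁
  have hc₁0 : 0 ≤ c₁ := by
    refine Real.log_nonneg ?_
    have h1 : (1 : ℝ) ≤ 2 ^ D := one_le_pow₀ (by norm_num)
    have h2 : (1 : ℝ) ≤ D + 1 := by linarith
    have h3 : (1 : ℝ) ≤ K * 2 ^ D := by nlinarith only [hK1, h1]
    have h4 : (1 : ℝ) ≤ K * 2 ^ D * (D + 1) := by nlinarith only [h3]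
    nlinarith only [hCq, h4]
  set c₂ : ℝ := Real.log ((D + 1) * Cq) with hc₂
  have hc₂0 : 0 ≤ c₂ := Real.log_nonneg (by nlinarith only [hCq])
  refine ⟨Cq + c₁ + c₂ + 2 * Co + Ct + Cc + 4 * D, by linarith, ?_⟩
  intro a L Ω Λ Ξ Z _ p lam x T pos A B zx zl cz G κ γ δ ε e₁ eT lm e hF hreg hgr hbad hlm hlm1
    hδ he hex hnc hγ hκ he₁ he₁0 heT
  have hp := hF.leaf.isLaw
  have hp0 := hp.nonneg
  set q := dbl p lam with hqdef
  have hq0 : ∀ v, 0 ≤ q v := dbl_nonneg hp0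
  have m1 : Marg q p (fun v => v.1) := dbl_fst hp0
  have m2 : Marg q p (fun v => v.2) := dbl_snd hp0
  have hq : IsLaw q := ⟨hq0, by rw [m1.sum]; exact hp.sum_one⟩
  obtain ⟨Q, g, hQ, hg, hjet, hder, hfill⟩ := hqdt a L Ω Λ Ξ Z p lam x T pos A B zx zl cz G κ γ
    δ ε e₁ lm e hF hreg hgr hbad hlm hlm1 hδ he hex hnc hγ hκ he₁ he₁0
  have hC0 : (0 : ℝ) < C₀ := by linarith only [hC₀]
  have hCq0 : (0 : ℝ) < Cq := by linarith only [hCq]
  have h2L : (0 : ℝ) < 2 ^ L := by positivity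
  have h2a : (0 : ℝ) < 2 ^ a := by positivity
  have h2aL : (0 : ℝ) < 2 ^ (a + L) := by positivity
  set h₀ : ℝ := 6 * C₀ / 2 ^ L with hh₀
  have hh₀0 : 0 < h₀ := by positivity
  have hlm0 : 0 < lm := hh₀0.trans_le hlm
  set s : ℝ := h₀ / lm with hs
  have hs0 : 0 < s := div_pos hh₀0 hlm0
  have hs1 : s ≤ 1 := by
    rw [hs, div_le_one hlm0]
    exact hlm
  set h : ℝ := 6 * C₀ / 2 ^ (a + L) with hh
  have hh0 : 0 < h := by positivity
  set r : ℝ := lm / 2 ^ a with hr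
  have hr0 : 0 < r := by positivity
  have hhs : h / s = r := by
    rw [hh, hs, hr, hh₀, pow_add]
    field_simp
  have hhr : h ≤ r := by
    rw [← hhs, le_div_iff₀ hs0]
    nlinarith only [hs1, hh0]
  set M : ℕ := 2 ^ (a + L) with hM
  -- the jets at the second incidence
  set Ψ₁ : Ω × Ω → ℝ := fun v => PsiC s (Q (zx (x v.1))) h (rp M pos (x v.2)) with hΨ₁
  set Ψ₂ : Ω × Ω → ℝ := fun v => PsiA (MvPolynomial.pderiv none (Q (zx (x v.1)))) (thk h r)
    (rp M pos (x v.2)) with hΨ₂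
  set Ψ₃ : Ω × Ω → ℝ := fun v => 1 / 2 ^ a * Psi (MvPolynomial.pderiv none (Q (zx (x v.1)))) h
    (rp M pos (x v.2)) with hΨ₃
  have hΨ₁A : ∀ v, Ψ₁ v = PsiA (Q (zx (x v.1))) (thk h r) (rp M pos (x v.2)) := by
    intro v
    simp only [hΨ₁]
    rw [PsiC_eq hs0.ne', hhs]
  have hΨ₁0 : ∀ v, 0 < Ψ₁ v := fun v => PsiC_pos hs0.ne' (hQ _).1 hh0 _
  have hΨ₃0 : ∀ v, 0 < q v → 0 < Ψ₃ v := by
    intro v hv
    have := Psi_pos _ (hder v.1 (m1.pos hq0 hv)) h hh0 (rp M pos (x v.2))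
    exact mul_pos (div_pos one_pos h2a) this
  have hthk : thk h h = fun _ : Option (Fin n) => h := by
    funext o
    cases o <;> rfl
  have hΨ₂₃ : ∀ v, 2 ^ a * Ψ₃ v ≤ Ψ₂ v := by
    intro v
    simp only [hΨ₂, hΨ₃]
    rw [← mul_assoc, mul_one_div_cancel h2a.ne', one_mul, ← PsiA_const, ← hthk]
    exact PsiA_mono _ _ _ (thk_pos hh0 hh0) (thk_le le_rfl hhr) _
  have hΨ₂0 : ∀ v, 0 < q v → 0 < Ψ₂ v := fun v hv =>
    lt_of_lt_of_le (mul_pos h2a (hΨ₃0 v hv)) (hΨ₂₃ v)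
  have hΨ₂₁ : ∀ v, r * Ψ₂ v ≤ D * Ψ₁ v := by
    intro v
    rw [hΨ₁A]
    exact jet_pderiv_le _ (hQ _).2 h r r hh0 hr0 le_rfl _
  -- L1
  have L1 := hone a L Ω Λ Ξ Z p lam x T pos A B zx zl cz s Q (fun ζ => Cq * lm * g ζ) e₁ hF hs0
    hs1 (fun ω _ => hQ _) hjet he₁
  -- L2, L3
  set P₁ : Z → MvPolynomial (Option (Fin n)) ℝ := fun ζ =>
    MvPolynomial.C (1 / 2 ^ a) * MvPolynomial.pderiv none (Q ζ) with hP₁
  have hP₁Psi : ∀ ζ z, PsiC 1 (P₁ ζ) h z =
      1 / 2 ^ a * Psi (MvPolynomial.pderiv none (Q ζ)) h z := by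
    intro ζ z
    rw [PsiC_one]
    simp only [hP₁]
    rw [Psi_C_mul, abs_of_pos (by positivity)]
  have L2 : Ex p (fun ω => Real.log (PsiC 1 (P₁ (zx (x ω))) h (rp M pos (x ω)))) ≤
      Ex q (fun v => Real.log (PsiC 1 (P₁ (zx (x v.1))) h (rp M pos (x v.2)))) +
        2 * D * eT + Ct :=
    htwo a L Ω Λ Ξ Z Z p lam x T pos A B zx zl cz 1 (fun ω => zx (x ω)) P₁ eT hF
    one_pos le_rfl (by
      intro ω hω
      refine ⟨?_, ?_⟩
      · simp only [hP₁]
        refine mul_ne_zero ?_ (hder ω hω)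
        rw [Ne, MvPolynomial.C_eq_zero]
        positivity
      · simp only [hP₁]
        refine (MvPolynomial.totalDegree_mul _ _).trans ?_
        rw [MvPolynomial.totalDegree_C, zero_add]
        exact (totalDegree_pderiv_le' _ _).trans (hQ _).2) heT
  simp only [hP₁Psi] at L2
  -- the positive part of log g - log Ψ₃
  have hpart : ∀ v, 0 < q v → max 0 (Real.log (g (zx (x v.1))) - Real.log (Ψ₃ v)) ≤
      (Real.log (g (zx (x v.1))) - Real.log (Ψ₃ v)) + (c₂ +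
        max 0 (Real.log (Ψ₁ v) - Real.log (Cq * lm * g (zx (x v.1))))) := by
    intro v hv
    have hg1 := hg (zx (x v.1))
    have h1 : Ψ₃ v ≤ (D + 1) / lm * Ψ₁ v := by
      have h2 := hΨ₂₃ v
      have h3 := hΨ₂₁ v
      have h4 : r * (2 ^ a * Ψ₃ v) ≤ (D + 1) * Ψ₁ v := by
        have h5 : r * (2 ^ a * Ψ₃ v) ≤ r * Ψ₂ v := mul_le_mul_of_nonneg_left h2 hr0.le
        have h6 := hΨ₁0 v
        linarith only [h3, h5, h6]
      have h7 : r * (2 ^ a * Ψ₃ v) = lm * Ψ₃ v := by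
        rw [hr]
        field_simp
      rw [h7] at h4
      rw [div_mul_eq_mul_div, le_div_iff₀ hlm0]
      linarith only [h4]
    have h2 := Real.log_le_log (hΨ₃0 v hv) h1
    have hD1 : (0 : ℝ) < D + 1 := by linarith only
    rw [Real.log_mul (by positivity) (hΨ₁0 v).ne', Real.log_div hD1.ne' hlm0.ne'] at h2
    have h3 : Real.log (Cq * lm * g (zx (x v.1))) = Real.log Cq + Real.log lm +
        Real.log (g (zx (x v.1))) := by
      rw [Real.log_mul (mul_pos hCq0 hlm0).ne' hg1.ne', Real.log_mul hCq0.ne' hlm0.ne']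
    have h4 : c₂ = Real.log (D + 1) + Real.log Cq := by
      rw [hc₂, Real.log_mul hD1.ne' (by positivity)]
    have h5 := le_max_right 0 (Real.log (Ψ₁ v) - Real.log (Cq * lm * g (zx (x v.1))))
    have h6 := le_max_left 0 (Real.log (Ψ₁ v) - Real.log (Cq * lm * g (zx (x v.1))))
    refine max_le ?_ ?_
    · linarith only [h2, h3, h4, h5]
    · linarith only [hc₂0, h6]
  have L3 : Ex q (fun v => max 0 (Real.log (g (zx (x v.1))) - Real.log (Ψ₃ v))) ≤
      (Cq * (e₁ + L / κ + γ + κ + 1 + ε * L) + 2 * D * eT + Ct) +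
        (c₂ + (2 * D * (a * Real.log 2 + e₁) + Co)) := by
    have h1 := Ex_mono hq0 hpart
    rw [Ex_add, Ex_sub, Ex_add, Ex_const hq.sum_one] at h1
    have h2 : Ex q (fun v => Real.log (g (zx (x v.1)))) = Ex p (fun ω => Real.log (g (zx (x ω)))) :=
      m1.ex (fun ω => Real.log (g (zx (x ω))))
    rw [h2] at h1
    have h3 : Ex q (fun v => Real.log (Ψ₃ v)) = Ex (dbl p lam) (fun v => Real.log (1 / 2 ^ a *
      Psi (MvPolynomial.pderiv none (Q (zx (x v.1)))) (6 * C₀ / 2 ^ (a + L))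
        (rp (2 ^ (a + L)) pos (x v.2)))) := rfl
    rw [h3] at h1
    have h4 : Ex q (fun v => max 0 (Real.log (Ψ₁ v) - Real.log (Cq * lm * g (zx (x v.1))))) ≤
      2 * D * (a * Real.log 2 + e₁) + Co := L1
    linarith only [hfill, L1, L2, h1]
  -- the random thickness
  set ρ : Ω × Ω → ℝ := fun v => max r (K * 2 ^ D * (D + 1) * Ψ₁ v / Ψ₂ v) with hρ
  have hρ0 : ∀ v, 0 < ρ v := fun v => lt_of_lt_of_le hr0 (le_max_left _ _)
  have hcn := hcnv (Ω × Ω) ((Fin n → ℕ) × Z) q (fun v => (bas pos (x v.2), zx (x v.1)))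
    (fun γ => Q γ.2) (fun _ _ => h) (fun γ i => (γ.1 i : ℝ) / 2 ^ (a + L)) (fun _ => r) ρ
    (fun v => pos (x v.2) none) (a + L) hq (fun v => hF.leaf.pos_lt v.2 none)
    (fun γ => (hQ γ.2).2) hρ0 (by
      intro v hv
      have e1 : ∀ r' : ℝ, Psv (Q (zx (x v.1))) (fun o => o.elim r' (fun _ => h))
          (fun o => o.elim ((pos (x v.2) none : ℝ) / 2 ^ (a + L))
            (fun i => (bas pos (x v.2) i : ℝ) / 2 ^ (a + L))) =
          PsiA (Q (zx (x v.1))) (thk h r') (rp M pos (x v.2)) := by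
        intro r'
        have e2 : (fun o : Option (Fin n) => o.elim ((pos (x v.2) none : ℝ) / 2 ^ (a + L))
            (fun i => (bas pos (x v.2) i : ℝ) / 2 ^ (a + L))) = rp M pos (x v.2) := by
          funext o
          cases o with
          | none =>
            simp only [rp, Option.elim, hM]
            push_cast
            rfl
          | some i =>
            simp only [rp, Option.elim, hM, bas]
            push_cast
            rfl
        rw [e2]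
        rfl
      have hpos : 0 < PsiA (Q (zx (x v.1))) (thk h (ρ v)) (rp M pos (x v.2)) :=
        PsiA_pos _ (hQ _).1 _ _ (thk_pos hh0 (hρ0 v))
      refine ⟨?_, ?_⟩
      · exact (e1 (ρ v)).symm ▸ hpos
      · change K * Psv (Q (zx (x v.1))) (fun o => o.elim r (fun _ => h))
          (fun o => o.elim ((pos (x v.2) none : ℝ) / 2 ^ (a + L))
            (fun i => (bas pos (x v.2) i : ℝ) / 2 ^ (a + L))) ≤ (1 / 2) ^ D *
          Psv (Q (zx (x v.1))) (fun o => o.elim (ρ v) (fun _ => h))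
          (fun o => o.elim ((pos (x v.2) none : ℝ) / 2 ^ (a + L))
            (fun i => (bas pos (x v.2) i : ℝ) / 2 ^ (a + L)))
        rw [e1 r, e1 (ρ v), ← hΨ₁A]
        have h1 : ρ v * Ψ₂ v ≤ D * PsiA (Q (zx (x v.1))) (thk h (ρ v)) (rp M pos (x v.2)) :=
          jet_pderiv_le _ (hQ _).2 h r (ρ v) hh0 hr0 (le_max_left _ _) _
        have h2 : K * 2 ^ D * (D + 1) * Ψ₁ v ≤ ρ v * Ψ₂ v := by
          have h3 : K * 2 ^ D * (D + 1) * Ψ₁ v / Ψ₂ v ≤ ρ v := le_max_right _ _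
          rwa [div_le_iff₀ (hΨ₂0 v hv)] at h3
        have h3 : K * 2 ^ D * (D + 1) * Ψ₁ v ≤
            (D + 1) * PsiA (Q (zx (x v.1))) (thk h (ρ v)) (rp M pos (x v.2)) := by
          linarith only [hpos, h1, h2]
        have hD1 : (0 : ℝ) < D + 1 := by linarith only
        have h4 : K * 2 ^ D * Ψ₁ v ≤
            PsiA (Q (zx (x v.1))) (thk h (ρ v)) (rp M pos (x v.2)) := by
          have h5 : (D + 1) * (K * 2 ^ D * Ψ₁ v) ≤
            (D + 1) * PsiA (Q (zx (x v.1))) (thk h (ρ v)) (rp M pos (x v.2)) := by linarith only [hpos, h1, h2]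
          exact le_of_mul_le_mul_left h5 hD1
        rw [one_div, inv_pow, inv_mul_eq_div, le_div_iff₀ (by positivity)]
        linarith only [h4])
  -- the mean of the thickness
  have hmean : Ex q (fun v => max 0 (Real.log (ρ v * 2 ^ (a + L)))) ≤
      Real.log (lm * 2 ^ L) + (c₁ + (2 * D * (a * Real.log 2 + e₁) + Co) +
        ((Cq * (e₁ + L / κ + γ + κ + 1 + ε * L) + 2 * D * eT + Ct) +
        (c₂ + (2 * D * (a * Real.log 2 + e₁) + Co)))) := by
    have hb : ∀ v, 0 < q v → max 0 (Real.log (ρ v * 2 ^ (a + L))) ≤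
        Real.log (lm * 2 ^ L) + (c₁ +
          max 0 (Real.log (Ψ₁ v) - Real.log (Cq * lm * g (zx (x v.1)))) +
          max 0 (Real.log (g (zx (x v.1))) - Real.log (Ψ₃ v))) := by
      intro v hv
      have hg1 := hg (zx (x v.1))
      have hP1 := hΨ₁0 v
      have hP2 := hΨ₂0 v hv
      have hP3 := hΨ₃0 v hv
      have hu0 : 0 ≤ Real.log (lm * 2 ^ L) := by
        refine Real.log_nonneg ?_
        have h1 : h₀ * 2 ^ L = 6 * C₀ := by
          rw [hh₀]
          field_simp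
        have h2 : h₀ * 2 ^ L ≤ lm * 2 ^ L := mul_le_mul_of_nonneg_right hlm h2L.le
        linarith only [hC₀, h1, h2]
      have hm1 := le_max_left 0 (Real.log (Ψ₁ v) - Real.log (Cq * lm * g (zx (x v.1))))
      have hm2 := le_max_right 0 (Real.log (Ψ₁ v) - Real.log (Cq * lm * g (zx (x v.1))))
      have hm3 := le_max_left 0 (Real.log (g (zx (x v.1))) - Real.log (Ψ₃ v))
      have hm4 := le_max_right 0 (Real.log (g (zx (x v.1))) - Real.log (Ψ₃ v))
      refine max_le (by linarith only [hc₁0, hu0, hm1, hm3]) ?_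
      rcases le_total r (K * 2 ^ D * (D + 1) * Ψ₁ v / Ψ₂ v) with hc | hc
      · have e1 : ρ v = K * 2 ^ D * (D + 1) * Ψ₁ v / Ψ₂ v := max_eq_right hc
        have hD1 : (0 : ℝ) < D + 1 := by linarith only
        have hKD : (0 : ℝ) < K * 2 ^ D * (D + 1) := by positivity
        have e2 : Real.log (ρ v * 2 ^ (a + L)) = Real.log (K * 2 ^ D * (D + 1)) +
            Real.log (Ψ₁ v) - Real.log (Ψ₂ v) + (a + L) * Real.log 2 := by
          rw [e1, Real.log_mul (div_pos (mul_pos hKD hP1) hP2).ne' h2aL.ne',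
            Real.log_div (mul_pos hKD hP1).ne' hP2.ne',
            Real.log_mul hKD.ne' hP1.ne', Real.log_pow]
          push_cast
          ring
        have e3 := Real.log_le_log (mul_pos h2a hP3) (hΨ₂₃ v)
        rw [Real.log_mul h2a.ne' hP3.ne', Real.log_pow] at e3
        have e4 : Real.log (Cq * lm * g (zx (x v.1))) = Real.log Cq + Real.log lm +
            Real.log (g (zx (x v.1))) := by
          rw [Real.log_mul (mul_pos hCq0 hlm0).ne' hg1.ne', Real.log_mul hCq0.ne' hlm0.ne']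
        have e5 : Real.log (lm * 2 ^ L) = Real.log lm + L * Real.log 2 := by
          rw [Real.log_mul hlm0.ne' h2L.ne', Real.log_pow]
        have e6 : c₁ = Real.log (K * 2 ^ D * (D + 1)) + Real.log Cq := by
          rw [hc₁, Real.log_mul hKD.ne' (by positivity)]
        rw [e2]
        have e7 : (a + L) * Real.log 2 = a * Real.log 2 + L * Real.log 2 := by ring
        rw [e7]
        linarith only [hm2, hm4, e3, e4, e5, e6]
      · have e1 : ρ v = r := max_eq_left hc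
        have e2 : ρ v * 2 ^ (a + L) = lm * 2 ^ L := by
          rw [e1, hr, pow_add]
          field_simp
        rw [e2]
        linarith only [hc₁0, hm1, hm3]
    have h1 := Ex_mono hq0 hb
    rw [Ex_add, Ex_const hq.sum_one, Ex_add, Ex_add, Ex_const hq.sum_one] at h1
    have h4 : Ex q (fun v => max 0 (Real.log (Ψ₁ v) - Real.log (Cq * lm * g (zx (x v.1))))) ≤
      2 * D * (a * Real.log 2 + e₁) + Co := L1
    linarith only [L1, L3, h1]
  -- conclusion
  have hfin := hcn.trans (add_le_add_left (add_le_add_right hmean _) _)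
  set E : ℝ := e₁ + L / κ + γ + κ + 1 + ε * L with hE
  have hε : 0 ≤ ε := le_trans (Ex_nonneg hp0 fun ω _ => he (x ω)) hex
  have hE1 : 1 ≤ E ∧ e₁ ≤ E := by
    rw [hE]
    have h1 : (0 : ℝ) ≤ L / κ := by positivity
    have h2 : (0 : ℝ) ≤ γ := Nat.cast_nonneg γ
    have h3 : (0 : ℝ) ≤ κ := Nat.cast_nonneg κ
    have h4 : 0 ≤ ε * L := by positivity
    constructor <;> linarith
  have h1 : (c₁ + c₂ + 2 * Co + Ct + Cc) * 1 ≤ (c₁ + c₂ + 2 * Co + Ct + Cc) * E :=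
    mul_le_mul_of_nonneg_left hE1.1 (by positivity)
  have h2 : 4 * D * e₁ ≤ 4 * D * E := mul_le_mul_of_nonneg_left hE1.2 (by positivity)
  have h3 : (Cq + c₁ + c₂ + 2 * Co + Ct + Cc + 4 * D) * E =
      Cq * E + (c₁ + c₂ + 2 * Co + Ct + Cc) * E + 4 * D * E := by ring
  rw [h3]
  linarith only [hcn, hmean, h1, h2]

end Pool.KS3
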