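import Pool.Agent.H82.KSP.STP2
import Pool.Agent.H78.KST.RSC

/-!
# Passing to sub-cubes of the leaf cubes

`StepF.subc`, `StepH.subc`: the leaves are cut into cubes of side `2 ^ (-u)`; the label is refined
by the cell. `subc_bad`: most of the cubes are not bad.
-/

set_option autoImplicit false

namespace Pool.KS3

open Finset Real Module
open Pool.Agent.H49.Ent Pool.Agent.H32.Dense Pool.STK Pool.KAF Pool.KAL Pool.KST

/-- The label refined by the cell of side `2 ^ L'`. -/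
def zx2 {Ξ Z : Type} {n : ℕ} (L' : ℕ) (pos : Ξ → Option (Fin n) → ℕ) (zx : Ξ → Z) :
    Ξ → Z × (Option (Fin n) → ℕ) := fun ξ => (zx ξ, cel (2 ^ L') pos ξ)

/-- The refined label as a function of the line and of the window. -/
def zl2 {Λ Z : Type} {n : ℕ} (u : ℕ) (zl : Λ → ℕ → Z) (cu : Λ → ℕ → Option (Fin n) → ℕ) :
    Λ → ℕ → Z × (Option (Fin n) → ℕ) := fun l t => (zl l (t / 2 ^ u), cu l t)

/-- The cell of the refined label. -/
def cz2 {Z : Type} {n : ℕ} : Z × (Option (Fin n) → ℕ) → Option (Fin n) → ℕ := fun z => z.2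

/-- The corner of the small cube in the coordinates of the leaf. -/
noncomputable def sco {n : ℕ} (u : ℕ) (b : Option (Fin n) → ℕ) : Option (Fin n) → ℝ :=
  fun o => ((b o % 2 ^ u : ℕ) : ℝ) / 2 ^ u

/-- The graph in the coordinates of the small cube. -/
noncomputable def G2 {Z : Type} {n : ℕ} (u : ℕ) (G : Z → MvPolynomial (Fin n) ℝ) :
    Z × (Option (Fin n) → ℕ) → MvPolynomial (Fin n) ℝ :=
  fun z => rsG (G z.1) (fun i => sco u z.2 (some i)) (sco u z.2 none) (1 / 2 ^ u)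

section

variable {n a L L' u : ℕ} {C₀ : ℝ} {Ω Λ Ξ Z : Type} [Fintype Ω] {p : Ω → ℝ} {lam : Ω → Λ}
    {x : Ω → Ξ} {T : Ξ → ℕ} {pos : Ξ → Option (Fin n) → ℕ} {A B : Λ → Option (Fin n) → ℝ}
    {zx : Ξ → Z} {zl : Λ → ℕ → Z} {cz : Z → Option (Fin n) → ℕ}

/-- **Sub-cubes.** -/
theorem StepF.subc (h : StepF n a L C₀ p lam x T pos A B zx zl cz) (hL : u + L' = L)
    (cu : Λ → ℕ → Option (Fin n) → ℕ)
    (hcu : ∀ ω, cel (2 ^ L') pos (x ω) = cu (lam ω) (T (x ω) / 2 ^ L')) :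
    StepF n (a + u) L' C₀ p lam x T pos A B (zx2 L' pos zx) (zl2 u zl cu) cz2 := by
  subst hL
  refine ⟨?_, ?_, ?_⟩
  · rw [Nat.add_assoc]
    exact h.leaf
  · intro ω
    simp only [zx2, zl2]
    rw [h.lab ω, hcu ω, Nat.div_div_eq_div_mul, ← pow_add, Nat.add_comm L' u]
  · intro ω o
    rfl

lemma sub_mod (m u L' : ℕ) : m % 2 ^ (u + L') = 2 ^ L' * (m / 2 ^ L' % 2 ^ u) + m % 2 ^ L' := by
  rw [show u + L' = L' + u by omega, pow_add, Nat.mod_mul]
  ring

/-- The position in the leaf and in the small cube. -/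
lemma sub_rp (hL : u + L' = L) (ξ : Ξ) (o : Option (Fin n)) :
    rp (2 ^ L) (posS pos L) ξ o =
      sco u (cel (2 ^ L') pos ξ) o + 1 / 2 ^ u * rp (2 ^ L') (posS pos L') ξ o := by
  subst hL
  simp only [rp, posS, sco, cel]
  rw [sub_mod (pos ξ o) u L']
  push_cast
  rw [pow_add]
  have h1 : (0 : ℝ) < 2 ^ u := by positivity
  have h2 : (0 : ℝ) < 2 ^ L' := by positivity
  field_simp

lemma sco_nonneg (b : Option (Fin n) → ℕ) (o : Option (Fin n)) : 0 ≤ sco u b o := by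
  unfold sco
  positivity

lemma sco_le (b : Option (Fin n) → ℕ) (o : Option (Fin n)) : sco u b o + 1 / 2 ^ u ≤ 1 := by
  unfold sco
  have h1 : b o % 2 ^ u + 1 ≤ 2 ^ u := Nat.mod_lt _ (Nat.two_pow_pos u)
  have h2 : (((b o % 2 ^ u : ℕ) : ℝ) + 1) ≤ 2 ^ u := by exact_mod_cast h1
  rw [← add_div, div_le_one (by positivity)]
  exact h2

/-- Regular graphs over sub-cubes. -/
theorem regG_subc {G : Z → MvPolynomial (Fin n) ℝ} {k₀ : ℕ} {C₁ : ℝ} {ζ : Z}
    (h : RegG (G ζ) (fun _ => 0) 1 k₀ C₁) (b : Option (Fin n) → ℕ) :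
    RegG (G2 u G (ζ, b)) (fun _ => 0) 1 k₀ C₁ := by
  unfold G2
  refine regG_rs (by positivity) ⟨h.deg, fun y hy i => h.slope y (fun j => ?_) i⟩
  have h1 := hy j
  have h2 := sco_nonneg (u := u) b (some j)
  have h3 := sco_le (u := u) b (some j)
  simp only at h1 ⊢
  constructor
  · linarith [h1.1]
  · linarith [h1.2]

/-- The distance to the graph in the units of the small cube. -/
theorem gr_subc {G : Z → MvPolynomial (Fin n) ℝ} {C₁ : ℝ} (hL : u + L' = L) (ξ : Ξ)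
    (h : |rp (2 ^ L) (posS pos L) ξ none - MvPolynomial.eval
      (fun i => rp (2 ^ L) (posS pos L) ξ (some i)) (G (zx ξ))| ≤ C₁ / 2 ^ L) :
    |rp (2 ^ L') (posS pos L') ξ none - MvPolynomial.eval
      (fun i => rp (2 ^ L') (posS pos L') ξ (some i)) (G2 u G (zx2 L' pos zx ξ))| ≤
        C₁ / 2 ^ L' := by
  have hs : (0 : ℝ) < 1 / 2 ^ u := by positivity
  unfold G2
  simp only [zx2]
  rw [dist_rs (G (zx ξ)) (fun i => sco u (cel (2 ^ L') pos ξ) (some i))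
    (sco u (cel (2 ^ L') pos ξ) none) hs (rp (2 ^ L') (posS pos L') ξ)]
  have e1 : sco u (cel (2 ^ L') pos ξ) none + 1 / 2 ^ u * rp (2 ^ L') (posS pos L') ξ none =
      rp (2 ^ L) (posS pos L) ξ none := (sub_rp hL ξ none).symm
  have e2 : (fun i => sco u (cel (2 ^ L') pos ξ) (some i) +
      1 / 2 ^ u * rp (2 ^ L') (posS pos L') ξ (some i)) =
      fun i => rp (2 ^ L) (posS pos L) ξ (some i) := by
    funext i
    exact (sub_rp hL ξ (some i)).symm
  rw [e1, e2, abs_div, abs_of_pos hs, div_le_iff₀ hs]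
  refine h.trans (le_of_eq ?_)
  subst hL
  rw [pow_add]
  field_simp

/-- The cell in the leaf. -/
lemma cel_posS (hL : u + L' = L) (ξ : Ξ) (o : Option (Fin n)) :
    cel (2 ^ L') (posS pos L) ξ o = cel (2 ^ L') pos ξ o % 2 ^ u := by
  subst hL
  simp only [cel, posS]
  rw [sub_mod (pos ξ o) u L', Nat.mul_add_div (Nat.two_pow_pos L'),
    Nat.div_eq_of_lt (Nat.mod_lt _ (Nat.two_pow_pos L')), add_zero]

/-- The corner of the small cube. -/
lemma crn_cel (hL : u + L' = L) (ξ : Ξ) :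
    crn (2 ^ L) (2 ^ L') (cel (2 ^ L') (posS pos L) ξ) =
      fun i => sco u (cel (2 ^ L') pos ξ) (some i) := by
  funext i
  unfold crn sco
  rw [cel_posS hL]
  subst hL
  push_cast
  rw [pow_add]
  have h1 : (0 : ℝ) < 2 ^ u := by positivity
  have h2 : (0 : ℝ) < 2 ^ L' := by positivity
  field_simp

/-- Bad cubes in the units of the leaf and in the units of the cube. -/
lemma bad_subc {G : Z → MvPolynomial (Fin n) ℝ} (hL : u + L' = L) (ξ : Ξ) (D j : ℕ) :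
    Bad (G (zx ξ)) (crn (2 ^ L) (2 ^ L') (cel (2 ^ L') (posS pos L) ξ)) (1 / 2 ^ u) D
      (2 ^ (u * (j + 1)) / 2 ^ L) ↔
    Bad (G2 u G (zx2 L' pos zx ξ)) (fun _ => 0) 1 D (2 ^ (u * (j + 2)) / 2 ^ L) := by
  rw [crn_cel hL, bad_rs (G (zx ξ)) _ (sco u (cel (2 ^ L') pos ξ) none)
    (show (0 : ℝ) < 1 / 2 ^ u by positivity)]
  have e : (2 : ℝ) ^ (u * (j + 1)) / 2 ^ L / (1 / 2 ^ u) = 2 ^ (u * (j + 2)) / 2 ^ L := by
    rw [show u * (j + 2) = u * (j + 1) + u by ring, pow_add]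
    field_simp
  rw [e]
  rfl

end

section

variable {n a L L' u : ℕ} {C₀ : ℝ} {k₀ : ℕ} {κ γ N : ℕ} {δ ε e₁ e₃ : ℝ} {Ω Λ Ξ Z : Type}
    [Fintype Ω] {p : Ω → ℝ} {lam : Ω → Λ} {x : Ω → Ξ} {T : Ξ → ℕ}
    {pos : Ξ → Option (Fin n) → ℕ} {A B : Λ → Option (Fin n) → ℝ} {zx : Ξ → Z}
    {zl : Λ → ℕ → Z} {cz : Z → Option (Fin n) → ℕ} {G : Z → MvPolynomial (Fin n) ℝ}
    {e : Ξ → ℝ}

/-- Time fullness in smaller windows. -/
theorem time_subc (hp : IsLaw p) (hL : u + L' = L)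
    (h : L * Real.log 2 - CH p (fun ω => TS T L (x ω)) (lamS lam x T L) ≤ e₁) :
    L' * Real.log 2 - CH p (fun ω => TS T L' (x ω)) (lamS lam x T L') ≤ e₁ := by
  have hp0 := hp.nonneg
  subst hL
  -- the digits of the time
  have d1 : ∀ ω, TS T (u + L') (x ω) =
      2 ^ L' * (T (x ω) / 2 ^ L' % 2 ^ u) + TS T L' (x ω) := fun ω => sub_mod _ _ _
  have d2 : ∀ ω, T (x ω) / 2 ^ L' =
      2 ^ u * (T (x ω) / 2 ^ (u + L')) + T (x ω) / 2 ^ L' % 2 ^ u := by
    intro ω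
    have h1 := Nat.div_add_mod (T (x ω) / 2 ^ L') (2 ^ u)
    rw [Nat.div_div_eq_div_mul, ← pow_add, Nat.add_comm L' u] at h1
    exact h1.symm
  have b1 := CH_le_add hp0 (fun ω => TS T (u + L') (x ω)) (fun ω => T (x ω) / 2 ^ L' % 2 ^ u)
    (lamS lam x T (u + L'))
  have b2 : CH p (fun ω => T (x ω) / 2 ^ L' % 2 ^ u) (lamS lam x T (u + L')) ≤
      u * Real.log 2 := by
    have h1 := CH_le_card hp0 hp.sum_one (fun ω => T (x ω) / 2 ^ L' % 2 ^ u)
      (lamS lam x T (u + L')) (fun _ => Finset.range (2 ^ u)) (by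
        intro ω _
        rw [Finset.mem_range]
        exact Nat.mod_lt _ (Nat.two_pow_pos u))
    rw [Finset.card_range, Ex_const hp.sum_one] at h1
    push_cast at h1
    rwa [Real.log_pow] at h1
  have b3 : CH p (fun ω => TS T (u + L') (x ω))
      (fun ω => (T (x ω) / 2 ^ L' % 2 ^ u, lamS lam x T (u + L') ω)) ≤
      CH p (fun ω => TS T L' (x ω)) (lamS lam x T L') := by
    refine le_of_eq (CH_congr hp0 ?_ ?_ ?_ ?_)
    · intro ω ω' _ _ hh
      simp only [Prod.mk.injEq] at hh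
      obtain ⟨h5, h6, h7⟩ := hh
      rw [d1, d1, h6] at h5
      exact Nat.add_left_cancel h5
    · intro ω ω' _ _ hh
      simp only [Prod.mk.injEq, lamS] at hh
      have h1 := d1 ω
      have h2 := d1 ω'
      have h3 := d2 ω
      have h4 := d2 ω'
      obtain ⟨h5, h6, h7⟩ := hh
      have h8 : T (x ω) / 2 ^ (u + L') = T (x ω') / 2 ^ (u + L') := by
        rw [show u + L' = L' + u by omega, pow_add, ← Nat.div_div_eq_div_mul,
          ← Nat.div_div_eq_div_mul, h7]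
      have h9 : T (x ω) / 2 ^ L' % 2 ^ u = T (x ω') / 2 ^ L' % 2 ^ u := by rw [h7]
      change TS T (u + L') (x ω) = TS T (u + L') (x ω')
      rw [h1, h2, h9, h5]
    · intro ω ω' _ _ hh
      simp only [Prod.mk.injEq, lamS] at hh ⊢
      obtain ⟨h5, h6, h7⟩ := hh
      refine ⟨h6, ?_⟩
      rw [d2 ω, d2 ω', h5, h7]
    · intro ω ω' _ _ hh
      simp only [Prod.mk.injEq, lamS] at hh ⊢
      obtain ⟨h6, h7⟩ := hh
      refine ⟨by rw [h7], h6, ?_⟩
      rw [show u + L' = L' + u by omega, pow_add, ← Nat.div_div_eq_div_mul,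
          ← Nat.div_div_eq_div_mul, h7]
  push_cast at h
  rw [add_mul] at h
  linarith

/-- **The hypotheses of the macro step for sub-cubes.** -/
theorem StepH.subc (h : StepH n a L C₀ k₀ κ γ N δ ε e₁ e₃ p lam x T pos A B zx zl cz G e)
    (hL : u + L' = L) (cu : Λ → ℕ → Option (Fin n) → ℕ)
    (hcu : ∀ ω, cel (2 ^ L') pos (x ω) = cu (lam ω) (T (x ω) / 2 ^ L')) :
    StepH n (a + u) L' C₀ k₀ κ γ N δ ε e₁ e₃ p lam x T pos A B (zx2 L' pos zx) (zl2 u zl cu) cz2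
      (G2 u G) e where
  step := h.step.subc hL cu hcu
  reg := fun ω hω => regG_subc (h.reg ω hω) _
  gr := fun ω hω => gr_subc hL (x ω) (h.gr ω hω)
  hδ := h.hδ
  he := h.he
  hex := h.hex
  hnc := h.hnc
  hγ := h.hγ
  hκ := h.hκ
  he₁ := time_subc h.step.leaf.isLaw hL h.he₁
  he₁0 := h.he₁0
  he₃ := by
    refine le_trans (CH_mono_cond h.step.leaf.isLaw.nonneg ?_) h.he₃
    intro ω ω' _ _ hh
    simp only [Prod.mk.injEq, zx2] at hh ⊢
    exact ⟨hh.1, hh.2.1⟩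

end

/-- **Most of the small cubes are not bad.** -/
theorem subc_bad (n D j k₀ : ℕ) (C₀ : ℝ) (hcho : (j + n).choose n < (D + n + 1).choose (n + 1))
    (hj : 6 * n * D ≤ j) (hC₀ : 1 ≤ C₀) : ∃ C : ℝ, 0 ≤ C ∧
    ∀ (a L L' u : ℕ) (Ω Λ Ξ Z : Type) [Fintype Ω] (p : Ω → ℝ) (lam : Ω → Λ)
      (x : Ω → Ξ) (T : Ξ → ℕ) (pos : Ξ → Option (Fin n) → ℕ) (A B : Λ → Option (Fin n) → ℝ)
      (zx : Ξ → Z) (zl : Λ → ℕ → Z) (cz : Z → Option (Fin n) → ℕ)
      (G : Z → MvPolynomial (Fin n) ℝ) (κ γ N : ℕ) (δ ε e₁ e₃ : ℝ) (e : Ξ → ℝ),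
      StepH n a L C₀ k₀ κ γ N δ ε e₁ e₃ p lam x T pos A B zx zl cz G e →
      u + L' = L → (j + 2) * u ≤ L →
      (∑ ω, (open Classical in if Bad (G2 u G (zx2 L' pos zx (x ω))) (fun _ => 0) 1 D
        (2 ^ (u * (j + 2)) / 2 ^ L) then p ω else 0)) * (u * Real.log 2) ≤
        C * RR n L κ γ N ε e₁ e₃ := by
  classical
  obtain ⟨C, hC, hfin⟩ := fin_lab n D j k₀ (3 * C₀) hcho hj (by linarith)
  refine ⟨2 * C, by linarith, ?_⟩
  intro a L L' u Ω Λ Ξ Z _ p lam x T pos A B zx zl cz G κ γ N δ ε e₁ e₃ e hF hL hju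
  have hp := hF.step.leaf.isLaw
  have hp0 := hp.nonneg
  have hLu : L - u = L' := by omega
  have h1 := hfin Ω (Λ × ℕ) Ξ Z p (lamS lam x T L) x (TS T L) (posS pos L) (AS A B zl cz a)
    (BS B) (fun ω => zx (x ω)) (fun z _ => G z) L u κ γ N δ ε e₁ e₃ e hju
    (hF.step.small hC₀)
    (by
      intro ω ω' _ _ hh
      have h2 : lam ω = lam ω' := (Prod.ext_iff.mp hh).1
      have h3 : T (x ω) / 2 ^ L = T (x ω') / 2 ^ L := (Prod.ext_iff.mp hh).2
      change zx (x ω) = zx (x ω')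
      rw [hF.step.lab ω, hF.step.lab ω', h2, h3])
    (by
      intro ω ω' _ _ hh
      have h2 : x ω = x ω' := hh
      change zx (x ω) = zx (x ω')
      rw [h2])
    (by
      intro ω hω
      have h2 := hF.reg ω hω
      rw [hLu, crn_cel hL]
      refine ⟨h2.deg, fun y hy i => h2.slope y (fun k => ?_) i⟩
      have h3 := hy k
      have h4 := sco_nonneg (u := u) (cel (2 ^ L') pos (x ω)) (some k)
      have h5 := sco_le (u := u) (cel (2 ^ L') pos (x ω)) (some k)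
      simp only at h3 ⊢
      constructor
      · linarith [h3.1]
      · linarith [h3.2])
    (fun ω hω => hF.gr ω hω) hF.hδ hF.he hF.hex (NCF_small hF.hnc)
    (by
      refine le_trans ?_ hF.hγ
      have h2 : (0 : ℝ) ≤ n.factorial := Nat.cast_nonneg _
      refine mul_le_mul_of_nonneg_left ?_ h2
      exact pow_le_pow_left₀ (by linarith) (by linarith) _)
    hF.hκ hF.he₁
    (by
      refine le_trans (CH_mono_cond hp0 ?_) hF.he₃
      intro ω ω' _ _ hh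
      simp only [Prod.mk.injEq] at hh ⊢
      refine ⟨?_, hh.2⟩
      funext i
      have h2 : bas (posS pos L) (x ω) i = bas (posS pos L) (x ω') i := congrFun hh.1 i
      simp only [bas, posS] at h2 ⊢
      have h3 := Nat.div_add_mod (pos (x ω) (some i)) (2 ^ L)
      have h4 := Nat.div_add_mod (pos (x ω') (some i)) (2 ^ L)
      rw [hF.step.cell ω (some i)] at h3
      rw [hF.step.cell ω' (some i)] at h4
      rw [← h3, ← h4, h2, hh.2])
  rw [hLu] at h1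
  obtain ⟨-, hR1, -⟩ := hF.le_RR
  have h2 : (∑ ω, (if Bad (G2 u G (zx2 L' pos zx (x ω))) (fun _ => 0) 1 D
        (2 ^ (u * (j + 2)) / 2 ^ L) then p ω else 0)) =
      ∑ ω, (if Bad (G (zx (x ω))) (crn (2 ^ L) (2 ^ L') (cel (2 ^ L') (posS pos L) (x ω)))
        (1 / 2 ^ u) D (2 ^ (u * (j + 1)) / 2 ^ L) then p ω else 0) := by
    refine Finset.sum_congr rfl fun ω _ => ?_
    by_cases h3 : Bad (G (zx (x ω))) (crn (2 ^ L) (2 ^ L') (cel (2 ^ L') (posS pos L) (x ω)))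
        (1 / 2 ^ u) D (2 ^ (u * (j + 1)) / 2 ^ L)
    · rw [if_pos h3, if_pos ((bad_subc hL (x ω) D j).mp h3)]
    · rw [if_neg h3, if_neg (fun h4 => h3 ((bad_subc hL (x ω) D j).mpr h4))]
  refine le_trans (le_of_eq ?_) (h1.trans ?_)
  · rw [← h2]
  · have he₃ := hF.e₃_nonneg
    have hpw := pw_nonneg n N
    have h5 : ((N : ℝ) + 1) * (e₁ + 1) + e₃ + (1 - 1 / n) ^ N * L + L / κ + γ + κ + 1 + ε * L ≤
        2 * RR n L κ γ N ε e₁ e₃ := by
      have h6 : ((N : ℝ) + 1) * (e₁ + 1) + e₃ + (1 - 1 / n) ^ N * L + L / κ + γ + κ + ε * L ≤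
          RR n L κ γ N ε e₁ e₃ := by
        unfold RR
        have : 0 ≤ (1 - 1 / (n : ℝ)) ^ N * e₃ := mul_nonneg hpw he₃
        rw [mul_add ((1 - 1 / (n : ℝ)) ^ N)]
        linarith
      linarith
    have h6 := mul_le_mul_of_nonneg_left h5 hC
    linarith

end Pool.KS3
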