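import Pool.Agent.H82.KSP.GMK
import Pool.Agent.H99.LST.CRD

/-!
# The macro step with a count, general masks
-/

set_option autoImplicit false

namespace Pool.KS3

open Finset Real Module
open Pool.Agent.H49.Ent Pool.Agent.H32.Dense Pool.STK Pool.KAF Pool.KAL Pool.KST

/-- The core of the macro step with a general mask, with a count. -/
theorem stp_core_card' (n D : ℕ) (C₀ p₀ : ℝ) (hC₀ : 1 ≤ C₀) (hp₀ : 0 < p₀) :
    ∃ (C₁ : ℝ) (Kc : ℕ), 1 ≤ C₁ ∧ 1 ≤ Kc ∧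
    ∀ k₀ : ℕ, ∃ C₂ : ℝ, 1 ≤ C₂ ∧
    ∀ (a L : ℕ) (Ω Λ Ξ Z : Type) [Fintype Ω] (p : Ω → ℝ) (lam : Ω → Λ)
      (x : Ω → Ξ) (T : Ξ → ℕ) (pos : Ξ → Option (Fin n) → ℕ) (A B : Λ → Option (Fin n) → ℝ)
      (zx : Ξ → Z) (zl : Λ → ℕ → Z) (cz : Z → Option (Fin n) → ℕ)
      (G : Z → MvPolynomial (Fin n) ℝ) (κ γ N γ₀ : ℕ) (δ ε e₁ e₃ lm mi pG τ : ℝ) (e : Ξ → ℝ)
      (gd : Λ × ℕ → Ω → Bool),
      StepH n a L C₀ k₀ κ γ N δ ε e₁ e₃ p lam x T pos A B zx zl cz G e →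
      (∀ ω, 0 < p ω → ¬ Bad (G (zx (x ω))) (fun _ => 0) 1 D lm) →
      6 * C₀ / 2 ^ L ≤ lm → lm ≤ 1 → 0 < τ → 0 ≤ mi →
      (∀ gd' : Λ × ℕ → Ω → Bool, (∀ l ω, gd' l ω = true → gd l ω = true) →
        CH (dbl p lam) (mk2 lam x T L zx gd') (fun v => zx (x v.2)) -
          CH (dbl p lam) (mk2 lam x T L zx gd') (fun v => x v.2) ≤ mi) →
      (∑ v, if gd (lamS lam x T L v.1) v.2 = true then 0 else dbl p lam v) ≤ pG →
      C₁ * (a + mi) + C₂ * RR n L κ γ N ε e₁ e₃ + 4 * τ ≤ γ₀ →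
      ∃ (Y : Type) (y : Z → Y) (sl : Λ → Option Y),
        (∑ ω, (open Classical in if some (y (zx (x ω))) ≠ sl (lam ω) then p ω else 0)) ≤
          p₀ + 4 * pG ∧
        ∀ Rr : ℕ, (D + 1) * (lm * 2 ^ (γ₀ + L)) ≤ Rr →
          ∃ (bad : Ω → Prop) (S : (Fin n → ℕ) × Y → Finset ℕ), (∀ g, (S g).card ≤ Kc) ∧
            (∑ ω, (open Classical in if bad ω then p ω else 0)) ≤
              C₂ * RR n L κ γ N ε e₁ e₃ / τ ∧
            ∀ ω, 0 < p ω → ¬ bad ω →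
              pos (x ω) none / Rr ∈ S (bas pos (x ω), y (zx (x ω))) := by
  classical
  obtain ⟨C₁, hC₁, hrnd⟩ := rnd' n D C₀ (p₀ / 2) hC₀ (by linarith)
  obtain ⟨Kc, hKc, hthl₀⟩ := thl_card n D C₀ hC₀
  refine ⟨8 * C₁, Kc, by linarith, hKc, ?_⟩
  intro k₀
  obtain ⟨C₂, hC₂, hrnd⟩ := hrnd k₀
  obtain ⟨Ct, hCt, hthl⟩ := hthl₀ k₀
  refine ⟨8 * C₂ + 2 * Ct, by linarith, ?_⟩
  intro a L Ω Λ Ξ Z _ p lam x T pos A B zx zl cz G κ γ N γ₀ δ ε e₁ e₃ lm mi pG τ e gd hF hbad hlm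
    hlm1 hτ hmi0 hmi hpG hγ₀
  have hp := hF.step.leaf.isLaw
  have hp0 := hp.nonneg
  have hC0 : (0 : ℝ) < C₀ := by linarith
  have h2L : (0 : ℝ) < 2 ^ L := by positivity
  have h2g : (0 : ℝ) < 2 ^ γ₀ := by positivity
  have h2g1 : (1 : ℝ) ≤ 2 ^ γ₀ := one_le_pow₀ (by norm_num)
  set h₀ : ℝ := 6 * C₀ / 2 ^ L with hh₀
  have hh₀0 : 0 < h₀ := by positivity
  have hlm0 : 0 < lm := hh₀0.trans_le hlm
  have hs₁0 : 0 < h₀ / lm := div_pos hh₀0 hlm0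
  have hs₁1 : h₀ / lm ≤ 1 := by
    rw [div_le_one hlm0]
    exact hlm
  have hs₂0 : 0 < h₀ / lm / 2 ^ γ₀ := div_pos hs₁0 h2g
  have hs₂1 : h₀ / lm / 2 ^ γ₀ ≤ 1 := by
    rw [div_le_one h2g]
    linarith
  have hh0 : (0 : ℝ) < 6 * C₀ / 2 ^ (a + L) := by positivity
  set R : ℝ := RR n L κ γ N ε e₁ e₃ with hR
  obtain ⟨-, hR1, -⟩ := hF.le_RR
  rw [← hR] at hR1
  -- the two roundings
  obtain ⟨y₁, hy₁, hq₁⟩ := hrnd a L Ω Λ Ξ Z p lam x T pos A B zx zl cz G κ γ N δ ε e₁ e₃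
    (h₀ / lm) mi pG e gd hF hs₁0 hs₁1 hmi0 hmi hpG
  obtain ⟨y₂, hy₂, hq₂⟩ := hrnd a L Ω Λ Ξ Z p lam x T pos A B zx zl cz G κ γ N δ ε e₁ e₃
    (h₀ / lm / 2 ^ γ₀) mi pG e gd hF hs₂0 hs₂1 hmi0 hmi hpG
  set y : Z → Seminorm ℝ (MvPolynomial.restrictTotalDegree (Option (Fin n)) ℝ D) ×
      Seminorm ℝ (MvPolynomial.restrictTotalDegree (Option (Fin n)) ℝ D) := fun ζ =>
    (y₁ (NZ D p x zx (2 ^ (a + L)) pos (6 * C₀ / 2 ^ (a + L)) (h₀ / lm) ζ),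
      y₂ (NZ D p x zx (2 ^ (a + L)) pos (6 * C₀ / 2 ^ (a + L)) (h₀ / lm / 2 ^ γ₀) ζ)) with hy
  obtain ⟨sl, hsl⟩ := majw hp0 lam (fun ω => y (zx (x ω)))
  refine ⟨_, y, sl, ?_, ?_⟩
  · have hq₁' := le_trans (le_of_eq (Finset.sum_congr rfl fun v _ => ite_dec _
      (instDecidableNot) _ _ _)) hq₁
    have hq₂' := le_trans (le_of_eq (Finset.sum_congr rfl fun v _ => ite_dec _
      (instDecidableNot) _ _ _)) hq₂
    refine (hsl.trans (le_of_eq (Finset.sum_congr rfl fun v _ => ite_dec _ _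
      (instDecidableNot) _ _))).trans ?_
    have h1 : (∑ v, if y (zx (x v.1)) ≠ y (zx (x v.2)) then dbl p lam v else 0) ≤
        (∑ v, (if y₁ (NZ D p x zx (2 ^ (a + L)) pos (6 * C₀ / 2 ^ (a + L)) (h₀ / lm)
            (zx (x v.1))) ≠
          y₁ (NZ D p x zx (2 ^ (a + L)) pos (6 * C₀ / 2 ^ (a + L)) (h₀ / lm) (zx (x v.2))) then
          dbl p lam v else 0)) +
        (∑ v, (if y₂ (NZ D p x zx (2 ^ (a + L)) pos (6 * C₀ / 2 ^ (a + L))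
            (h₀ / lm / 2 ^ γ₀) (zx (x v.1))) ≠
          y₂ (NZ D p x zx (2 ^ (a + L)) pos (6 * C₀ / 2 ^ (a + L)) (h₀ / lm / 2 ^ γ₀)
            (zx (x v.2))) then dbl p lam v else 0)) := by
      rw [← Finset.sum_add_distrib]
      refine Finset.sum_le_sum fun v _ => ?_
      have h2 : 0 ≤ dbl p lam v := dbl_nonneg hp0 v
      by_cases c : y (zx (x v.1)) = y (zx (x v.2))
      · rw [if_neg (not_not.mpr c)]
        have i1 : (0 : ℝ) ≤ (if y₁ (NZ D p x zx (2 ^ (a + L)) pos (6 * C₀ / 2 ^ (a + L))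
            (h₀ / lm) (zx (x v.1))) ≠
          y₁ (NZ D p x zx (2 ^ (a + L)) pos (6 * C₀ / 2 ^ (a + L)) (h₀ / lm) (zx (x v.2))) then
          dbl p lam v else 0) := by
          split_ifs
          exacts [h2, le_rfl]
        have i2 : (0 : ℝ) ≤ (if y₂ (NZ D p x zx (2 ^ (a + L)) pos (6 * C₀ / 2 ^ (a + L))
            (h₀ / lm / 2 ^ γ₀) (zx (x v.1))) ≠
          y₂ (NZ D p x zx (2 ^ (a + L)) pos (6 * C₀ / 2 ^ (a + L)) (h₀ / lm / 2 ^ γ₀)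
            (zx (x v.2))) then dbl p lam v else 0) := by
          split_ifs
          exacts [h2, le_rfl]
        linarith
      · rw [if_pos c]
        by_cases c1 : y₁ (NZ D p x zx (2 ^ (a + L)) pos (6 * C₀ / 2 ^ (a + L)) (h₀ / lm)
            (zx (x v.1))) =
          y₁ (NZ D p x zx (2 ^ (a + L)) pos (6 * C₀ / 2 ^ (a + L)) (h₀ / lm) (zx (x v.2)))
        · have c2 : y₂ (NZ D p x zx (2 ^ (a + L)) pos (6 * C₀ / 2 ^ (a + L))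
              (h₀ / lm / 2 ^ γ₀) (zx (x v.1))) ≠
            y₂ (NZ D p x zx (2 ^ (a + L)) pos (6 * C₀ / 2 ^ (a + L)) (h₀ / lm / 2 ^ γ₀)
              (zx (x v.2))) := by
            intro c2
            exact c (Prod.ext c1 c2)
          rw [if_neg (not_not.mpr c1), if_pos c2, zero_add]
        · rw [if_pos c1]
          split_ifs <;> linarith
    linarith
  · intro Rr hRr
    set k₃ : ℝ := 2 * (C₁ * (a + mi) + C₂ * R) with hk₃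
    have hl2 : (1 / 2 : ℝ) ≤ Real.log 2 := by
      have := Real.log_two_gt_d9
      linarith
    have hγ : 2 * τ + 2 * k₃ + Ct ≤ γ₀ * Real.log 2 := by
      have h1 : (γ₀ : ℝ) * (1 / 2) ≤ γ₀ * Real.log 2 :=
        mul_le_mul_of_nonneg_left hl2 (Nat.cast_nonneg _)
      have h2 : Ct * 1 ≤ Ct * R := mul_le_mul_of_nonneg_left hR1 (by linarith)
      have h3 : (8 * C₂ + 2 * Ct) * R = 8 * (C₂ * R) + 2 * (Ct * R) := by ring
      have h4 : 8 * C₁ * (a + mi) = 8 * (C₁ * (a + mi)) := by ring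
      rw [h3, h4] at hγ₀
      rw [hk₃]
      linarith
    have key := hthl a L Ω Λ Ξ Z _ p lam x T pos A B zx zl cz G κ γ N γ₀ δ ε e₁ e₃ lm k₃ τ e y
      hF hbad hlm hlm1 hτ (by
        intro ζ ζ' hζ
        have h1 := (Prod.ext_iff.mp hζ).1
        have h2 := (Prod.ext_iff.mp hζ).2
        exact ⟨Dl.of_round hy₁ (NZ_isN hh0 hs₁0 ζ) (NZ_isN hh0 hs₁0 ζ') h1,
          Dl.of_round hy₂ (NZ_isN hh0 hs₂0 ζ) (NZ_isN hh0 hs₂0 ζ') h2⟩) hγ Rr hRr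
    obtain ⟨bad, S, hS1, hS2, hS3⟩ := key
    refine ⟨bad, S, hS1, hS2.trans ?_, hS3⟩
    rw [← hR]
    refine div_le_div_of_nonneg_right ?_ hτ.le
    exact mul_le_mul_of_nonneg_right (by linarith) (by linarith)

end Pool.KS3
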