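import Pool.Agent.H82.KSP.MAJ
import Pool.Agent.H99.KST.LRG

/-!
# The norms of the two leaves of a line, with a mask

`K_STEP_helper79.md` (1.5) in the form with the cut-off of helper99: the polynomial is used only on
an event which is a function of the first label and the second incidence.
-/

set_option autoImplicit false

namespace Pool.KS3

open Finset Real
open Pool.Agent.H49.Ent Pool.Agent.H32.Dense Pool.STK Pool.KAF Pool.KAL Pool.KST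

/-- Row LRG': the norm of a leaf against the jet at a random point, units of the long window. -/
theorem lrg (n D k₀ : ℕ) (C₀ : ℝ) (hC₀ : 1 ≤ C₀) : ∃ C : ℝ, 0 ≤ C ∧
    ∀ (a L : ℕ) (Ω Λ Ξ Z V Γ : Type) [Fintype Ω] [Fintype V] (p : Ω → ℝ) (lam : Ω → Λ)
      (x : Ω → Ξ) (T : Ξ → ℕ) (pos : Ξ → Option (Fin n) → ℕ) (A B : Λ → Option (Fin n) → ℝ)
      (zx : Ξ → Z) (zl : Λ → ℕ → Z) (cz : Z → Option (Fin n) → ℕ)
      (G : Z → MvPolynomial (Fin n) ℝ) (κ γ N : ℕ) (δ ε e₁ e₃ s : ℝ) (e : Ξ → ℝ)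
      (r : V → ℝ) (X : V → Ξ) (c : V → Γ)
      (P : Γ → MvPolynomial.restrictTotalDegree (Option (Fin n)) ℝ D),
      StepF n a L C₀ p lam x T pos A B zx zl cz →
      (∀ ω, 0 < p ω → RegG (G (zx (x ω))) (fun _ => 0) 1 k₀ (3 * C₀)) →
      (∀ ω, 0 < p ω → |rp (2 ^ L) (posS pos L) (x ω) none - MvPolynomial.eval
        (fun i => rp (2 ^ L) (posS pos L) (x ω) (some i)) (G (zx (x ω)))| ≤ 3 * C₀ / 2 ^ L) →
      0 < δ → (∀ a, 0 ≤ e a) → Ex p (fun ω => e (x ω)) ≤ ε → NCF p lam x B δ e →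
      n.factorial * (6 * C₀) ^ n ≤ δ ^ n * 2 ^ γ → 1 ≤ κ →
      L * Real.log 2 - CH p (fun ω => TS T L (x ω)) (lamS lam x T L) ≤ e₁ → 0 ≤ e₁ →
      CH p x (fun ω => (bas pos (x ω), zx (x ω))) ≤ e₃ →
      0 < s → s ≤ 1 → IsLaw r → (∀ ξ, law r X ξ = law p x ξ) → (∀ g, P g ≠ 0) →
      Ex r (fun v => Real.log (NZ D p x zx (2 ^ (a + L)) pos (6 * C₀ / 2 ^ (a + L)) s
        (zx (X v)) (P (c v)))) ≤
        Ex r (fun v => Real.log (PsiC s (P (c v) : MvPolynomial (Option (Fin n)) ℝ)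
          (6 * C₀ / 2 ^ (a + L)) (rp (2 ^ (a + L)) pos (X v)))) +
          2 * D * (CH r c (fun v => zx (X v)) - CH r c X) +
          C * ((N + 1) * (e₁ + 1) + e₃ + (1 - 1 / n) ^ N * (L + e₃) + L / κ + γ + κ + ε * L) := by
  classical
  have h3C : (1 : ℝ) ≤ 3 * C₀ := by linarith
  obtain ⟨Ca, hCa, hlrpa⟩ := lrpa_thm n D k₀ (3 * C₀) h3C
  refine ⟨Ca, hCa, ?_⟩
  intro a L Ω Λ Ξ Z V Γ _ _ p lam x T pos A B zx zl cz G κ γ N δ ε e₁ e₃ s e r X c P hF hreg hgr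
    hδ he hex hnc hγ hκ he₁ he₁0 he₃ hs0 hs1 hr hX hPne
  have hp := hF.leaf.isLaw
  have hp0 := hp.nonneg
  have hr0 := hr.nonneg
  set h : ℝ := 6 * C₀ / 2 ^ (a + L) with hh
  have hh0 : 0 < h := by positivity
  set M : ℕ := 2 ^ (a + L) with hM
  have hPne' : ∀ g, (P g : MvPolynomial (Option (Fin n)) ℝ) ≠ 0 := fun g h0 =>
    hPne g (Subtype.ext h0)
  have hsup : ∀ v, 0 < r v → ∃ ω, 0 < p ω ∧ x ω = X v :=
    fun v hv => supp_of_law (X := x) (fun ξ => hX ξ) hr0 hv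
  have hpd : ∀ g ζ, shf (P g : MvPolynomial (Option (Fin n)) ℝ) (1 / 2 ^ a) (crz cz a ζ) ≠ 0 := by
    intro g ζ h0
    have h1 := Psi_pos (P g : MvPolynomial (Option (Fin n)) ℝ) (hPne' g) (1 / 2 ^ a)
      (by positivity) (crz cz a ζ)
    unfold Psi at h1
    rw [h0, coefSum_zero] at h1
    exact lt_irrefl _ h1
  have e0 : 2 * (3 * C₀) = 6 * C₀ := by ring
  have E2 := hlrpa Ω (Λ × ℕ) Ξ Z V Γ p (lamS lam x T L) x (TS T L) (posS pos L)
    (AS A B zl cz a) (BS B) zx (fun l => zl l.1 l.2) G L κ γ N δ ε e₁ e₃ s e r X c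
    (fun g ζ => shf (P g : MvPolynomial (Option (Fin n)) ℝ) (1 / 2 ^ a) (crz cz a ζ))
    (fun g ζ => NZ D p x zx M pos h s ζ (P g))
    (hF.small hC₀) (fun ω _ => hF.lab ω) hreg hgr hδ he hex (NCF_small hnc)
    (by
      rw [e0]
      exact hγ) hκ he₁ he₁0 (hF.bas_small.trans he₃) hs0 hs1 hr hX
    (fun v _ => ⟨hpd _ _, (totalDegree_shf_le _ _ _).trans (deg_le _)⟩)
    (by
      intro v hv
      obtain ⟨ω₀, hω₀, hx⟩ := hsup v hv
      refine ⟨NZ_pos hh0 hs0 _ (hPne _), ?_⟩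
      obtain ⟨ω, hω, hzω, he'⟩ := NZ_attained (D := D) (x := x) (zx := zx) (M := M) (pos := pos)
        (h := h) hs0.ne' hω₀ (P (c v))
      rw [hx] at hzω he'
      refine ⟨ω, hω, hzω, ?_⟩
      rw [he', ← hzω, e0, hF.PsiC_eq hs0.ne'])
  have E3 : Ex r (fun v => Real.log (PsiC s
      (shf (P (c v) : MvPolynomial (Option (Fin n)) ℝ) (1 / 2 ^ a) (crz cz a (zx (X v))))
      (2 * (3 * C₀) / 2 ^ L) (rp (2 ^ L) (posS pos L) (X v)))) =
      Ex r (fun v => Real.log (PsiC s (P (c v) : MvPolynomial (Option (Fin n)) ℝ) h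
      (rp M pos (X v)))) := by
    unfold Ex
    refine Finset.sum_congr rfl fun v _ => ?_
    by_cases hv : 0 < r v
    · obtain ⟨ω₀, hω₀, hx⟩ := hsup v hv
      simp only
      rw [e0, ← hx, hF.PsiC_eq hs0.ne']
    · have : r v = 0 := le_antisymm (not_lt.mp hv) (hr0 v)
      rw [this, zero_mul, zero_mul]
  rw [E3] at E2
  exact E2

/-- Row LRZ: the polynomial is a function of the label. -/
theorem lrz (n D k₀ : ℕ) (C₀ : ℝ) (hC₀ : 1 ≤ C₀) : ∃ C : ℝ, 0 ≤ C ∧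
    ∀ (a L : ℕ) (Ω Λ Ξ Z : Type) [Fintype Ω] (p : Ω → ℝ) (lam : Ω → Λ)
      (x : Ω → Ξ) (T : Ξ → ℕ) (pos : Ξ → Option (Fin n) → ℕ) (A B : Λ → Option (Fin n) → ℝ)
      (zx : Ξ → Z) (zl : Λ → ℕ → Z) (cz : Z → Option (Fin n) → ℕ)
      (G : Z → MvPolynomial (Fin n) ℝ) (κ γ N : ℕ) (δ ε e₁ e₃ s : ℝ) (e : Ξ → ℝ)
      (F : Z → MvPolynomial.restrictTotalDegree (Option (Fin n)) ℝ D),
      StepF n a L C₀ p lam x T pos A B zx zl cz →
      (∀ ω, 0 < p ω → RegG (G (zx (x ω))) (fun _ => 0) 1 k₀ (3 * C₀)) →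
      (∀ ω, 0 < p ω → |rp (2 ^ L) (posS pos L) (x ω) none - MvPolynomial.eval
        (fun i => rp (2 ^ L) (posS pos L) (x ω) (some i)) (G (zx (x ω)))| ≤ 3 * C₀ / 2 ^ L) →
      0 < δ → (∀ a, 0 ≤ e a) → Ex p (fun ω => e (x ω)) ≤ ε → NCF p lam x B δ e →
      n.factorial * (6 * C₀) ^ n ≤ δ ^ n * 2 ^ γ → 1 ≤ κ →
      L * Real.log 2 - CH p (fun ω => TS T L (x ω)) (lamS lam x T L) ≤ e₁ → 0 ≤ e₁ →
      CH p x (fun ω => (bas pos (x ω), zx (x ω))) ≤ e₃ →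
      0 < s → s ≤ 1 → (∀ ζ, F ζ ≠ 0) →
      Ex p (fun ω => Real.log (NZ D p x zx (2 ^ (a + L)) pos (6 * C₀ / 2 ^ (a + L)) s
        (zx (x ω)) (F (zx (x ω))))) ≤
        Ex p (fun ω => Real.log (PsiC s (F (zx (x ω)) : MvPolynomial (Option (Fin n)) ℝ)
          (6 * C₀ / 2 ^ (a + L)) (rp (2 ^ (a + L)) pos (x ω)))) +
          C * ((N + 1) * (e₁ + 1) + e₃ + (1 - 1 / n) ^ N * (L + e₃) + L / κ + γ + κ + ε * L) := by
  classical
  obtain ⟨C, hC, H⟩ := lrg n D k₀ C₀ hC₀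
  refine ⟨C, hC, ?_⟩
  intro a L Ω Λ Ξ Z _ p lam x T pos A B zx zl cz G κ γ N δ ε e₁ e₃ s e F hF hreg hgr
    hδ he hex hnc hγ hκ he₁ he₁0 he₃ hs0 hs1 hFne
  have hp0 := hF.leaf.isLaw.nonneg
  have h1 := H a L Ω Λ Ξ Z Ω Z p lam x T pos A B zx zl cz G κ γ N δ ε e₁ e₃ s e p x
    (fun ω => zx (x ω)) F hF hreg hgr hδ he hex hnc hγ hκ he₁ he₁0 he₃ hs0 hs1 hF.leaf.isLaw
    (fun _ => rfl) hFne
  have h2 : CH p (fun ω => zx (x ω)) (fun ω => zx (x ω)) = 0 :=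
    CH_eq_zero hp0 (fun _ _ _ _ h => h)
  have h3 : CH p (fun ω => zx (x ω)) x = 0 := CH_eq_zero hp0 (fun ω ω' _ _ h => by
    have h4 : x ω = x ω' := h
    simp only [h4])
  rw [h2, h3, sub_zero, mul_zero, add_zero] at h1
  exact h1

/-- Row DEG. -/
theorem deg (n D k₀ : ℕ) (C₀ : ℝ) (hC₀ : 1 ≤ C₀) : ∃ C : ℝ, 0 ≤ C ∧
    ∀ (a L : ℕ) (Ω Λ Ξ Z : Type) [Fintype Ω] (p : Ω → ℝ) (lam : Ω → Λ)
      (x : Ω → Ξ) (T : Ξ → ℕ) (pos : Ξ → Option (Fin n) → ℕ) (A B : Λ → Option (Fin n) → ℝ)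
      (zx : Ξ → Z) (zl : Λ → ℕ → Z) (cz : Z → Option (Fin n) → ℕ)
      (G : Z → MvPolynomial (Fin n) ℝ) (κ γ N : ℕ) (δ ε e₁ e₃ s : ℝ) (e : Ξ → ℝ)
      (F : Z → MvPolynomial.restrictTotalDegree (Option (Fin n)) ℝ D) (χ : Z → Ξ → Bool),
      StepF n a L C₀ p lam x T pos A B zx zl cz →
      (∀ ω, 0 < p ω → RegG (G (zx (x ω))) (fun _ => 0) 1 k₀ (3 * C₀)) →
      (∀ ω, 0 < p ω → |rp (2 ^ L) (posS pos L) (x ω) none - MvPolynomial.eval
        (fun i => rp (2 ^ L) (posS pos L) (x ω) (some i)) (G (zx (x ω)))| ≤ 3 * C₀ / 2 ^ L) →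
      0 < δ → (∀ a, 0 ≤ e a) → Ex p (fun ω => e (x ω)) ≤ ε → NCF p lam x B δ e →
      n.factorial * (6 * C₀) ^ n ≤ δ ^ n * 2 ^ γ → 1 ≤ κ →
      L * Real.log 2 - CH p (fun ω => TS T L (x ω)) (lamS lam x T L) ≤ e₁ → 0 ≤ e₁ →
      CH p x (fun ω => (bas pos (x ω), zx (x ω))) ≤ e₃ →
      0 < s → s ≤ 1 → (∀ ζ, F ζ ≠ 0) →
      Ex (dbl p lam) (fun v => if χ (zx (x v.1)) (x v.2) then
        Real.log (NZ D p x zx (2 ^ (a + L)) pos (6 * C₀ / 2 ^ (a + L)) s (zx (x v.2))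
          (F (zx (x v.1)))) -
        Real.log (NZ D p x zx (2 ^ (a + L)) pos (6 * C₀ / 2 ^ (a + L)) s (zx (x v.1))
          (F (zx (x v.1)))) else 0) ≤
      2 * D * (a * Real.log 2) +
        2 * D * (CH (dbl p lam) (fun v => if χ (zx (x v.1)) (x v.2) then some (zx (x v.1))
            else none) (fun v => zx (x v.2)) -
          CH (dbl p lam) (fun v => if χ (zx (x v.1)) (x v.2) then some (zx (x v.1))
            else none) (fun v => x v.2)) +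
        C * ((N + 1) * (e₁ + 1) + e₃ + (1 - 1 / n) ^ N * (L + e₃) + L / κ + γ + κ + ε * L) := by
  classical
  obtain ⟨Ca, hCa, hlrg⟩ := lrg n D k₀ C₀ hC₀
  obtain ⟨Co, hCo, hone⟩ := one n D C₀ hC₀
  refine ⟨Ca + Co + 2 * D, by positivity, ?_⟩
  intro a L Ω Λ Ξ Z _ p lam x T pos A B zx zl cz G κ γ N δ ε e₁ e₃ s e F χ hF hreg hgr hδ he hex
    hnc hγ hκ he₁ he₁0 he₃ hs0 hs1 hFne
  have hp := hF.leaf.isLaw
  have hp0 := hp.nonneg
  set q := dbl p lam with hqdef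
  have hq0 : ∀ v, 0 ≤ q v := dbl_nonneg hp0
  have m1 : Marg q p (fun v => v.1) := dbl_fst hp0
  have m2 : Marg q p (fun v => v.2) := dbl_snd hp0
  have hq : IsLaw q := ⟨hq0, by rw [m1.sum]; exact hp.sum_one⟩
  set h : ℝ := 6 * C₀ / 2 ^ (a + L) with hh
  have hh0 : 0 < h := by positivity
  set M : ℕ := 2 ^ (a + L) with hM
  -- the polynomial
  set Pc : Option Z → MvPolynomial.restrictTotalDegree (Option (Fin n)) ℝ D :=
    fun g => g.elim (onV _ D) F with hPc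
  have hPne : ∀ g, Pc g ≠ 0 := by
    intro g
    cases g with
    | none => exact onV_ne_zero _ _
    | some ζ => exact hFne ζ
  have hPne' : ∀ g, (Pc g : MvPolynomial (Option (Fin n)) ℝ) ≠ 0 := fun g h0 =>
    hPne g (Subtype.ext h0)
  set c : Ω × Ω → Option Z := fun v => if χ (zx (x v.1)) (x v.2) then some (zx (x v.1))
    else none with hc
  have hdet : Det q (fun v => ((lam v.1, T (x v.1) / 2 ^ L), v.2)) c := by
    intro v v' _ _ hv
    simp only [Prod.mk.injEq] at hv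
    have e1 : zx (x v.1) = zx (x v'.1) := by
      rw [hF.lab v.1, hF.lab v'.1, hv.1.1, hv.1.2]
    simp only [hc]
    rw [e1, hv.2]
  -- from the first incidence to the second
  have E1 : Ex q (fun v => Real.log (PsiC s (Pc (c v) : MvPolynomial (Option (Fin n)) ℝ) h
      (rp M pos (x v.2)))) ≤
      Ex q (fun v => Real.log (PsiC s (Pc (c v) : MvPolynomial (Option (Fin n)) ℝ) h
      (rp M pos (x v.1)))) + 2 * D * (a * Real.log 2 + e₁) + Co :=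
    hone a L Ω Λ Ξ Z (Option Z) p lam x T pos A B zx zl cz s c
      (fun g => (Pc g : MvPolynomial (Option (Fin n)) ℝ)) e₁ hF hs0 hs1 hdet
      (fun v _ => ⟨hPne' _, deg_le _⟩) he₁
  have E0 : Ex q (fun v => Real.log (PsiC s (Pc (c v) : MvPolynomial (Option (Fin n)) ℝ) h
      (rp M pos (x v.1)))) ≤
      Ex q (fun v => Real.log (NZ D p x zx M pos h s (zx (x v.1)) (Pc (c v)))) := by
    refine Ex_mono hq0 fun v hv => ?_
    exact Real.log_le_log (PsiC_pos hs0.ne' (hPne' _) hh0 _)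
      (le_NZ hs0.ne' (m1.pos hq0 hv) _)
  -- from the second incidence to its leaf
  have E2 : Ex q (fun v => Real.log (NZ D p x zx M pos h s (zx (x v.2)) (Pc (c v)))) ≤
      Ex q (fun v => Real.log (PsiC s (Pc (c v) : MvPolynomial (Option (Fin n)) ℝ) h
      (rp M pos (x v.2)))) + 2 * D * (CH q c (fun v => zx (x v.2)) - CH q c (fun v => x v.2)) +
      Ca * ((N + 1) * (e₁ + 1) + e₃ + (1 - 1 / n) ^ N * (L + e₃) + L / κ + γ + κ + ε * L) :=
    hlrg a L Ω Λ Ξ Z (Ω × Ω) (Option Z) p lam x T pos A B zx zl cz G κ γ N δ ε e₁ e₃ s e q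
      (fun v => x v.2) c Pc hF hreg hgr hδ he hex hnc hγ hκ he₁ he₁0 he₃ hs0 hs1 hq
      (fun ξ => m2.law x ξ) hPne
  -- the goal
  have E4 : Ex q (fun v => if χ (zx (x v.1)) (x v.2) then
      Real.log (NZ D p x zx M pos h s (zx (x v.2)) (F (zx (x v.1)))) -
      Real.log (NZ D p x zx M pos h s (zx (x v.1)) (F (zx (x v.1)))) else 0) =
      Ex q (fun v => Real.log (NZ D p x zx M pos h s (zx (x v.2)) (Pc (c v)))) -
      Ex q (fun v => Real.log (NZ D p x zx M pos h s (zx (x v.1)) (Pc (c v)))) := by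
    rw [← Ex_sub]
    unfold Ex
    refine Finset.sum_congr rfl fun v _ => ?_
    congr 1
    simp only [hPc, hc]
    split_ifs with h1
    · rfl
    · simp only [Option.elim]
      rw [NZ_one, NZ_one, sub_self]
  rw [E4]
  set R : ℝ := (N + 1) * (e₁ + 1) + e₃ + (1 - 1 / (n : ℝ)) ^ N * (L + e₃) + L / κ + γ + κ +
      ε * L with hR
  have hR1 : e₁ + 1 ≤ R := by
    have he₃0 : 0 ≤ e₃ := (CH_nonneg hp0 _ _).trans he₃
    have hε : 0 ≤ ε := le_trans (Ex_nonneg hp0 fun ω _ => he (x ω)) hex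
    have hL0 : (0 : ℝ) ≤ L := Nat.cast_nonneg L
    have hN : (0 : ℝ) ≤ N := Nat.cast_nonneg N
    have hpw : (0 : ℝ) ≤ (1 - 1 / n) ^ N := by
      rcases Nat.eq_zero_or_pos n with h | h
      · subst h
        simp
      · have h1 : (1 : ℝ) ≤ n := by exact_mod_cast h
        have h2 : (1 : ℝ) / n ≤ 1 := by
          rw [div_le_one (by linarith)]
          exact h1
        exact pow_nonneg (by linarith) _
    have h3 : 0 ≤ (1 - 1 / (n : ℝ)) ^ N * (L + e₃) := by positivity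
    have h4 : 0 ≤ (L : ℝ) / κ := by positivity
    have h5 : (0 : ℝ) ≤ γ := Nat.cast_nonneg γ
    have h6 : (0 : ℝ) ≤ κ := Nat.cast_nonneg κ
    have h7 : 0 ≤ ε * L := by positivity
    have h8 : 0 ≤ (N : ℝ) * (e₁ + 1) := by positivity
    rw [hR]
    linarith
  have h2D : (0 : ℝ) ≤ 2 * D := by positivity
  have J3 : Co * 1 ≤ Co * R := mul_le_mul_of_nonneg_left (by linarith) hCo
  have J4 : 2 * D * e₁ ≤ 2 * D * R := mul_le_mul_of_nonneg_left (by linarith) h2D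
  have J5 : (Ca + Co + 2 * D) * R = Ca * R + Co * R + 2 * D * R := by ring
  rw [J5]
  linarith

end Pool.KS3
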