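import Pool.Agent.H82.KSP.ONE
import Pool.Agent.H99.KST.LRN

/-!
# The norms of the two leaves of a line

`K_STEP_helper79.md` (1.5): the polynomial depends on the label of the first leaf (and on an event
given by the two labels). The norm of the second leaf is at most the norm of the first one, in the
mean, up to `del`.
-/

set_option autoImplicit false

namespace Pool.KS3

open Finset Real
open Pool.Agent.H49.Ent Pool.Agent.H32.Dense Pool.STK Pool.KAF Pool.KAL Pool.KST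

/-- The norm of a leaf: the supremum of the jets of thickness `h` in the base directions and
`h / s` in the passive direction. -/
noncomputable def NZ {Ω Ξ Z : Type} [Fintype Ω] {n : ℕ} (D : ℕ) (p : Ω → ℝ) (x : Ω → Ξ)
    (zx : Ξ → Z) (M : ℕ) (pos : Ξ → Option (Fin n) → ℕ) (h s : ℝ) (ζ : Z) :
    Seminorm ℝ (MvPolynomial.restrictTotalDegree (Option (Fin n)) ℝ D) :=
  jE D (thk h (h / s)) (ptz p x zx M pos ζ)

section

variable {Ω Ξ Z : Type} [Fintype Ω] {n : ℕ} {D : ℕ} {p : Ω → ℝ} {x : Ω → Ξ}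
    {zx : Ξ → Z} {M : ℕ} {pos : Ξ → Option (Fin n) → ℕ} {h s : ℝ}

lemma NZ_isN (hh : 0 < h) (hs : 0 < s) (ζ : Z) : IsN (NZ D p x zx M pos h s ζ) :=
  jE_isN (ptz_nonempty ζ) (thk_pos hh (div_pos hh hs))

lemma NZ_pos (hh : 0 < h) (hs : 0 < s) (ζ : Z)
    {P : MvPolynomial.restrictTotalDegree (Option (Fin n)) ℝ D} (hP : P ≠ 0) :
    0 < NZ D p x zx M pos h s ζ P :=
  jE_pos (ptz_nonempty ζ) (thk_pos hh (div_pos hh hs)) hP

/-- The jet at a point of the leaf. -/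
lemma le_NZ (hs : s ≠ 0) {ω : Ω} (hω : 0 < p ω)
    (P : MvPolynomial.restrictTotalDegree (Option (Fin n)) ℝ D) :
    PsiC s (P : MvPolynomial (Option (Fin n)) ℝ) h (rp M pos (x ω)) ≤
      NZ D p x zx M pos h s (zx (x ω)) P := by
  rw [PsiC_eq hs]
  exact le_jE (mem_ptz hω) P

/-- The norm is attained. -/
lemma NZ_attained (hs : s ≠ 0) {ω₀ : Ω} (hω₀ : 0 < p ω₀)
    (P : MvPolynomial.restrictTotalDegree (Option (Fin n)) ℝ D) :
    ∃ ω, 0 < p ω ∧ zx (x ω) = zx (x ω₀) ∧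
      NZ D p x zx M pos h s (zx (x ω₀)) P =
        PsiC s (P : MvPolynomial (Option (Fin n)) ℝ) h (rp M pos (x ω)) := by
  obtain ⟨z, hz, he⟩ := jE_attained (D := D) (hs := thk h (h / s))
    (ptz_nonempty (p := p) (x := x) (zx := zx) (M := M) (pos := pos) (zx (x ω₀))) P
  obtain ⟨ω, hω, hzω, rfl⟩ := exists_of_mem_ptz hω₀ hz
  refine ⟨ω, hω, hzω, ?_⟩
  rw [PsiC_eq hs]
  exact he

/-- The constant polynomial. -/
noncomputable def onV (σ : Type) (D : ℕ) : MvPolynomial.restrictTotalDegree σ ℝ D :=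
  ⟨1, by
    rw [MvPolynomial.mem_restrictTotalDegree, MvPolynomial.totalDegree_one]
    exact Nat.zero_le _⟩

lemma onV_ne_zero (σ : Type) (D : ℕ) : onV σ D ≠ 0 := fun h =>
  one_ne_zero (α := MvPolynomial σ ℝ) (congrArg Subtype.val h)

lemma PsiA_one {σ : Type} (hs z : σ → ℝ) : PsiA (1 : MvPolynomial σ ℝ) hs z = 1 := by
  unfold PsiA shA
  rw [map_one]
  exact coefSum_one

lemma NZ_one (ζ : Z) : NZ D p x zx M pos h s ζ (onV (Option (Fin n)) D) = 1 := by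
  obtain ⟨z, hz, he⟩ := jE_attained (D := D) (hs := thk h (h / s))
    (ptz_nonempty (p := p) (x := x) (zx := zx) (M := M) (pos := pos) ζ)
    (onV (Option (Fin n)) D)
  unfold NZ
  rw [he]
  exact PsiA_one _ _

end

/-- Row DEL. -/
def DELStmt : Prop :=
  ∀ (n D k₀ : ℕ) (C₀ : ℝ), 1 ≤ C₀ → ∃ C : ℝ, 0 ≤ C ∧
    ∀ (a L : ℕ) (Ω Λ Ξ Z : Type) [Fintype Ω] (p : Ω → ℝ) (lam : Ω → Λ)
      (x : Ω → Ξ) (T : Ξ → ℕ) (pos : Ξ → Option (Fin n) → ℕ) (A B : Λ → Option (Fin n) → ℝ)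
      (zx : Ξ → Z) (zl : Λ → ℕ → Z) (cz : Z → Option (Fin n) → ℕ)
      (G : Z → MvPolynomial (Fin n) ℝ) (κ γ N : ℕ) (δ ε e₁ e₃ s : ℝ) (e : Ξ → ℝ),
      StepF n a L C₀ p lam x T pos A B zx zl cz →
      (∀ ω, 0 < p ω → RegG (G (zx (x ω))) (fun _ => 0) 1 k₀ (3 * C₀)) →
      (∀ ω, 0 < p ω → |rp (2 ^ L) (posS pos L) (x ω) none - MvPolynomial.eval
        (fun i => rp (2 ^ L) (posS pos L) (x ω) (some i)) (G (zx (x ω)))| ≤ 3 * C₀ / 2 ^ L) →
      0 < δ → (∀ a, 0 ≤ e a) → Ex p (fun ω => e (x ω)) ≤ ε → NCF p lam x B δ e →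
      n.factorial * (6 * C₀) ^ n ≤ δ ^ n * 2 ^ γ → 1 ≤ κ →
      L * Real.log 2 - CH p (fun ω => TS T L (x ω)) (lamS lam x T L) ≤ e₁ → 0 ≤ e₁ →
      CH p x (fun ω => (bas pos (x ω), zx (x ω))) ≤ e₃ →
      0 < s → s ≤ 1 →
      ∀ (F : Z → MvPolynomial.restrictTotalDegree (Option (Fin n)) ℝ D) (χ : Z → Z → Bool),
        (∀ ζ, F ζ ≠ 0) →
        Ex (dbl p lam) (fun v => if χ (zx (x v.1)) (zx (x v.2)) then
          Real.log (NZ D p x zx (2 ^ (a + L)) pos (6 * C₀ / 2 ^ (a + L)) s (zx (x v.2))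
            (F (zx (x v.1)))) -
          Real.log (NZ D p x zx (2 ^ (a + L)) pos (6 * C₀ / 2 ^ (a + L)) s (zx (x v.1))
            (F (zx (x v.1)))) else 0) ≤
        2 * D * (a * Real.log 2) +
          2 * D * (CH (dbl p lam) (fun v => zx (x v.1)) (fun v => zx (x v.2)) -
            CH (dbl p lam) (fun v => zx (x v.1)) (fun v => x v.2)) +
          C * ((N + 1) * (e₁ + 1) + e₃ + (1 - 1 / n) ^ N * (L + e₃) + L / κ + γ + κ + ε * L)

/-- The fans are the same in the leaf windows. -/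
lemma NCF_small {n : ℕ} {Ω Λ Ξ : Type} [Fintype Ω] {p : Ω → ℝ} {lam : Ω → Λ} {x : Ω → Ξ}
    {T : Ξ → ℕ} {L : ℕ} {B : Λ → Option (Fin n) → ℝ} {δ : ℝ} {e : Ξ → ℝ}
    (h : NCF p lam x B δ e) : NCF p (lamS lam x T L) x (BS B) δ e := h

/-- The base coordinates in the leaf cube. -/
lemma StepF.bas_small {n a L : ℕ} {C₀ : ℝ} {Ω Λ Ξ Z : Type} [Fintype Ω] {p : Ω → ℝ}
    {lam : Ω → Λ} {x : Ω → Ξ} {T : Ξ → ℕ} {pos : Ξ → Option (Fin n) → ℕ}
    {A B : Λ → Option (Fin n) → ℝ} {zx : Ξ → Z} {zl : Λ → ℕ → Z}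
    {cz : Z → Option (Fin n) → ℕ} (h : StepF n a L C₀ p lam x T pos A B zx zl cz) :
    CH p x (fun ω => (bas (posS pos L) (x ω), zx (x ω))) ≤
      CH p x (fun ω => (bas pos (x ω), zx (x ω))) := by
  refine CH_mono_cond h.leaf.isLaw.nonneg ?_
  intro ω ω' _ _ hh
  simp only [Prod.mk.injEq] at hh ⊢
  refine ⟨?_, hh.2⟩
  funext i
  have h1 := congrFun hh.1 i
  simp only [bas, posS] at h1 ⊢
  have h2 := h.cell ω (some i)
  have h3 := h.cell ω' (some i)
  rw [hh.2] at h2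
  have h4 := Nat.div_add_mod (pos (x ω) (some i)) (2 ^ L)
  have h5 := Nat.div_add_mod (pos (x ω') (some i)) (2 ^ L)
  rw [h2] at h4
  rw [h3] at h5
  rw [← h4, ← h5, h1]

theorem del_thm : DELStmt := by
  classical
  intro n D k₀ C₀ hC₀
  have h3C : (1 : ℝ) ≤ 3 * C₀ := by linarith
  obtain ⟨Ca, hCa, hlrpa⟩ := lrpa_thm n D k₀ (3 * C₀) h3C
  obtain ⟨Co, hCo, hone⟩ := one n D C₀ hC₀
  refine ⟨Ca + Co + 2 * D, by positivity, ?_⟩
  intro a L Ω Λ Ξ Z _ p lam x T pos A B zx zl cz G κ γ N δ ε e₁ e₃ s e hF hreg hgr hδ he hex hnc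
    hγ hκ he₁ he₁0 he₃ hs0 hs1 F χ hFne
  have hp := hF.leaf.isLaw
  have hp0 := hp.nonneg
  set q := dbl p lam with hqdef
  have hq0 : ∀ v, 0 ≤ q v := dbl_nonneg hp0
  have m1 : Marg q p (fun v => v.1) := dbl_fst hp0
  have m2 : Marg q p (fun v => v.2) := dbl_snd hp0
  have hq : IsLaw q := ⟨hq0, by rw [m1.sum]; exact hp.sum_one⟩
  set h : ℝ := 6 * C₀ / 2 ^ (a + L) with hh
  have hh0 : 0 < h := by positivity
  set M : ℕ := 2 ^ (a + L) with hM
  -- the polynomial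
  set Pc : Z × Bool → MvPolynomial.restrictTotalDegree (Option (Fin n)) ℝ D :=
    fun g => if g.2 then F g.1 else onV _ D with hPc
  have hPne : ∀ g, Pc g ≠ 0 := by
    intro g
    simp only [hPc]
    split_ifs
    · exact hFne _
    · exact onV_ne_zero _ _
  have hPne' : ∀ g, (Pc g : MvPolynomial (Option (Fin n)) ℝ) ≠ 0 := fun g h0 =>
    hPne g (Subtype.ext h0)
  set c : Ω × Ω → Z × Bool := fun v => (zx (x v.1), χ (zx (x v.1)) (zx (x v.2))) with hc
  have hdet : Det q (fun v => ((lam v.1, T (x v.1) / 2 ^ L), v.2)) c := by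
    intro v v' _ _ hv
    simp only [Prod.mk.injEq] at hv
    have e1 : zx (x v.1) = zx (x v'.1) := by
      rw [hF.lab v.1, hF.lab v'.1, hv.1.1, hv.1.2]
    simp only [hc]
    rw [e1, hv.2]
  -- from the first incidence to the second
  have E1 := hone a L Ω Λ Ξ Z (Z × Bool) p lam x T pos A B zx zl cz s c
    (fun g => (Pc g : MvPolynomial (Option (Fin n)) ℝ)) e₁ hF hs0 hs1 hdet
    (fun v _ => ⟨hPne' _, deg_le _⟩) he₁
  have E0 : Ex q (fun v => Real.log (PsiC s (Pc (c v) : MvPolynomial (Option (Fin n)) ℝ) h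
      (rp M pos (x v.1)))) ≤
      Ex q (fun v => Real.log (NZ D p x zx M pos h s (zx (x v.1)) (Pc (c v)))) := by
    refine Ex_mono hq0 fun v hv => ?_
    exact Real.log_le_log (PsiC_pos hs0.ne' (hPne' _) hh0 _)
      (le_NZ hs0.ne' (m1.pos hq0 hv) _)
  -- from the second incidence to its leaf
  have hpd : ∀ g ζ, shf (Pc g : MvPolynomial (Option (Fin n)) ℝ) (1 / 2 ^ a) (crz cz a ζ) ≠ 0 := by
    intro g ζ h0
    have h1 := Psi_pos (Pc g : MvPolynomial (Option (Fin n)) ℝ) (hPne' g) (1 / 2 ^ a)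
      (by positivity) (crz cz a ζ)
    unfold Psi at h1
    rw [h0, coefSum_zero] at h1
    exact lt_irrefl _ h1
  have E2 := hlrpa Ω (Λ × ℕ) Ξ Z (Ω × Ω) (Z × Bool) p (lamS lam x T L) x (TS T L) (posS pos L)
    (AS A B zl cz a) (BS B) zx (fun l => zl l.1 l.2) G L κ γ N δ ε e₁ e₃ s e q
    (fun v => x v.2) c
    (fun g ζ => shf (Pc g : MvPolynomial (Option (Fin n)) ℝ) (1 / 2 ^ a) (crz cz a ζ))
    (fun g ζ => NZ D p x zx M pos h s ζ (Pc g))
    (hF.small hC₀) (fun ω _ => hF.lab ω) hreg hgr hδ he hex (NCF_small hnc)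
    (by
      have e1 : 2 * (3 * C₀) = 6 * C₀ := by ring
      rw [e1]
      exact hγ) hκ he₁ he₁0 (hF.bas_small.trans he₃) hs0 hs1 hq
    (fun ξ => m2.law x ξ)
    (fun v _ => ⟨hpd _ _, (totalDegree_shf_le _ _ _).trans (deg_le _)⟩)
    (by
      intro v hv
      have hv2 := m2.pos hq0 hv
      refine ⟨NZ_pos hh0 hs0 _ (hPne _), ?_⟩
      obtain ⟨ω, hω, hzω, he'⟩ := NZ_attained (D := D) (zx := zx) (M := M) (pos := pos) (h := h)
        hs0.ne' hv2 (Pc (c v))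
      refine ⟨ω, hω, hzω, ?_⟩
      rw [he', ← hzω]
      have e1 : 2 * (3 * C₀) = 6 * C₀ := by ring
      rw [e1, hF.PsiC_eq hs0.ne'])
  have E3 : Ex q (fun v => Real.log (PsiC s
      (shf (Pc (c v) : MvPolynomial (Option (Fin n)) ℝ) (1 / 2 ^ a) (crz cz a (zx (x v.2))))
      (2 * (3 * C₀) / 2 ^ L) (rp (2 ^ L) (posS pos L) (x v.2)))) =
      Ex q (fun v => Real.log (PsiC s (Pc (c v) : MvPolynomial (Option (Fin n)) ℝ) h
      (rp M pos (x v.2)))) := by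
    unfold Ex
    refine Finset.sum_congr rfl fun v _ => ?_
    have e1 : 2 * (3 * C₀) = 6 * C₀ := by ring
    simp only
    rw [e1, hF.PsiC_eq hs0.ne']
  rw [E3] at E2
  -- the mutual information
  have I1 : CH q c (fun v => zx (x v.2)) ≤ CH q (fun v => zx (x v.1)) (fun v => zx (x v.2)) := by
    refine CH_mono_left hq0 ?_
    intro v v' _ _ hv
    simp only [Prod.mk.injEq] at hv
    simp only [hc]
    rw [hv.1, hv.2]
  have I2 : CH q (fun v => zx (x v.1)) (fun v => x v.2) ≤ CH q c (fun v => x v.2) := by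
    refine CH_mono_left hq0 ?_
    intro v v' _ _ hv
    simp only [hc, Prod.mk.injEq] at hv
    exact hv.1.1
  -- the goal
  have E4 : Ex q (fun v => if χ (zx (x v.1)) (zx (x v.2)) then
      Real.log (NZ D p x zx M pos h s (zx (x v.2)) (F (zx (x v.1)))) -
      Real.log (NZ D p x zx M pos h s (zx (x v.1)) (F (zx (x v.1)))) else 0) =
      Ex q (fun v => Real.log (NZ D p x zx M pos h s (zx (x v.2)) (Pc (c v)))) -
      Ex q (fun v => Real.log (NZ D p x zx M pos h s (zx (x v.1)) (Pc (c v)))) := by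
    rw [← Ex_sub]
    unfold Ex
    refine Finset.sum_congr rfl fun v _ => ?_
    congr 1
    simp only [hPc, hc]
    split_ifs with h1
    · rfl
    · rw [NZ_one, NZ_one, sub_self]
  rw [E4]
  set R : ℝ := (N + 1) * (e₁ + 1) + e₃ + (1 - 1 / (n : ℝ)) ^ N * (L + e₃) + L / κ + γ + κ +
      ε * L with hR
  have hR1 : e₁ + 1 ≤ R := by
    have he₃0 : 0 ≤ e₃ := (CH_nonneg hp0 _ _).trans he₃
    have hε : 0 ≤ ε := le_trans (Ex_nonneg hp0 fun ω _ => he (x ω)) hex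
    have hL0 : (0 : ℝ) ≤ L := Nat.cast_nonneg L
    have hN : (0 : ℝ) ≤ N := Nat.cast_nonneg N
    have hpw : (0 : ℝ) ≤ (1 - 1 / n) ^ N := by
      rcases Nat.eq_zero_or_pos n with h | h
      · subst h
        simp
      · have h1 : (1 : ℝ) ≤ n := by exact_mod_cast h
        have h2 : (1 : ℝ) / n ≤ 1 := by
          rw [div_le_one (by linarith)]
          exact h1
        exact pow_nonneg (by linarith) _
    have h3 : 0 ≤ (1 - 1 / (n : ℝ)) ^ N * (L + e₃) := by positivity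
    have h4 : 0 ≤ (L : ℝ) / κ := by positivity
    have h5 : (0 : ℝ) ≤ γ := Nat.cast_nonneg γ
    have h6 : (0 : ℝ) ≤ κ := Nat.cast_nonneg κ
    have h7 : 0 ≤ ε * L := by positivity
    have h8 : 0 ≤ (N : ℝ) * (e₁ + 1) := by positivity
    rw [hR]
    linarith
  have h2D : (0 : ℝ) ≤ 2 * D := by positivity
  have J1 := mul_le_mul_of_nonneg_left I1 h2D
  have J2 := mul_le_mul_of_nonneg_left I2 h2D
  have J3 : Co * 1 ≤ Co * R := mul_le_mul_of_nonneg_left (by linarith) hCo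
  have J4 : 2 * D * e₁ ≤ 2 * D * R := mul_le_mul_of_nonneg_left (by linarith) h2D
  have J5 : (Ca + Co + 2 * D) * R = Ca * R + Co * R + 2 * D * R := by ring
  rw [J5]
  linarith

end Pool.KS3
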