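import Pool.Agent.H82.KSP.GMK

/-!
# Entropies on events and under dominated laws
-/

set_option autoImplicit false

namespace Pool.KS3

open Finset Real
open Pool.Agent.H49.Ent Pool.Agent.H32.Dense Pool.STK Pool.KAF Pool.KAL Pool.KST

section

variable {V S T : Type} [Fintype V] {q : V → ℝ}

lemma isLaw_ev (hq : IsLaw q) {E : V → Prop} (hE : 0 < law q E True) : IsLaw (cond q E True) :=
  ⟨cond_nonneg hq.nonneg E True, sum_cond q E hE.ne'⟩

open Classical in
lemma law_ev (E : V → Prop) : law q E True = ∑ v, if E v then q v else 0 := by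
  unfold law
  refine Finset.sum_congr rfl fun v _ => ?_
  by_cases h : E v
  · rw [if_pos h, if_pos (eq_true h)]
  · rw [if_neg h, if_neg (fun h' => h (of_eq_true h'))]

lemma ev_pos (hq0 : ∀ v, 0 ≤ q v) {E : V → Prop} {v : V} :
    0 < cond q E True v ↔ 0 < q v ∧ E v := by
  rw [cond_pos_iff hq0]
  constructor
  · rintro ⟨h1, h2⟩
    exact ⟨h1, of_eq_true h2⟩
  · rintro ⟨h1, h2⟩
    exact ⟨h1, eq_true h2⟩

/-- Entropy on an event. -/
theorem CH_ev_le (hq0 : ∀ v, 0 ≤ q v) (E : V → Prop) (X : V → S) (W : V → T) :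
    law q E True * CH (cond q E True) X W ≤ CH q X W := by
  classical
  have h1 : CH q X (fun v => (W v, E v)) ≤ CH q X W :=
    CH_mono_cond hq0 (fun _ _ _ _ h => (Prod.ext_iff.mp h).1)
  rw [CH_split hq0] at h1
  refine le_trans ?_ h1
  by_cases hm : True ∈ univ.image E
  · exact Finset.single_le_sum (f := fun j => law q E j * CH (cond q E j) X W)
      (fun j _ => mul_nonneg (law_nonneg hq0 _ _)
        (CH_nonneg (cond_nonneg hq0 _ _) _ _)) hm
  · rw [law_eq_zero_of_notMem q E hm, zero_mul]
    exact Finset.sum_nonneg fun j _ => mul_nonneg (law_nonneg hq0 _ _)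
      (CH_nonneg (cond_nonneg hq0 _ _) _ _)

/-- Entropy on an event from below. -/
theorem CH_ev_ge (hq : IsLaw q) (E : V → Prop) (X : V → S) (W : V → T) (F : ℝ)
    (hF : law q E False ≠ 0 → CH (cond q E False) X W ≤ F) :
    CH q X W ≤ Real.log 2 + law q E True * CH (cond q E True) X W +
      (1 - law q E True) * F := by
  classical
  have hq0 := hq.nonneg
  have h1 := CH_le_add hq0 X E W
  have h2 : CH q E W ≤ Real.log 2 := by
    have h3 := CH_le_card hq0 hq.sum_one E W (fun _ => ({True, False} : Finset Prop))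
      (fun v _ => by
        by_cases h : E v
        · simp [h]
        · simp [h])
    refine h3.trans ?_
    have h4 : Ex q (fun _ : V => Real.log (({True, False} : Finset Prop).card : ℝ)) =
        Real.log (({True, False} : Finset Prop).card : ℝ) := Ex_const hq.sum_one _
    refine (le_of_eq h4).trans (Real.log_le_log ?_ ?_)
    · have : 0 < ({True, False} : Finset Prop).card := Finset.card_pos.2 ⟨True, by simp⟩
      exact_mod_cast this
    · have := Finset.card_le_two (a := True) (b := False)
      exact_mod_cast this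
  have h3 : CH q X (fun v => (E v, W v)) = CH q X (fun v => (W v, E v)) := by
    refine CH_congr hq0 (fun _ _ _ _ h => (Prod.ext_iff.mp h).1)
      (fun _ _ _ _ h => (Prod.ext_iff.mp h).1) ?_ ?_ <;>
    · intro v v' _ _ h
      have := Prod.ext_iff.mp h
      exact Prod.ext this.2 this.1
  rw [h3, CH_split hq0] at h1
  have h5 : ∑ j ∈ univ.image E, law q E j * CH (cond q E j) X W ≤
      law q E True * CH (cond q E True) X W + (1 - law q E True) * F := by
    have hone := sum_law_one hq.sum_one E
    have h6 : ∀ j : Prop, j ≠ True → law q E j * CH (cond q E j) X W ≤ law q E j * F := by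
      intro j hj
      have hj' : j = False := by
        by_cases hh : j
        · exact absurd (eq_true hh) hj
        · exact eq_false hh
      rw [hj']
      rcases (law_nonneg hq0 E False).eq_or_lt with h0 | h0
      · rw [← h0, zero_mul, zero_mul]
      · exact mul_le_mul_of_nonneg_left (hF h0.ne') h0.le
    by_cases hm : True ∈ univ.image E
    · rw [← Finset.add_sum_erase _ _ hm] at hone ⊢
      have h7 : ∑ j ∈ (univ.image E).erase True, law q E j * CH (cond q E j) X W ≤
          ∑ j ∈ (univ.image E).erase True, law q E j * F :=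
        Finset.sum_le_sum fun j hj => h6 j (Finset.ne_of_mem_erase hj)
      rw [← Finset.sum_mul] at h7
      have h8 : ∑ j ∈ (univ.image E).erase True, law q E j = 1 - law q E True := by linarith
      rw [h8] at h7
      linarith
    · have h7 : ∑ j ∈ univ.image E, law q E j * CH (cond q E j) X W ≤
          ∑ j ∈ univ.image E, law q E j * F :=
        Finset.sum_le_sum fun j hj => h6 j (fun h => hm (h ▸ hj))
      rw [← Finset.sum_mul, hone] at h7
      rw [law_eq_zero_of_notMem q E hm, zero_mul]
      linarith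
  linarith

/-- Entropy under a dominated law. -/
theorem CH_dom {q' : V → ℝ} (hq : IsLaw q) (hq' : IsLaw q') {K : ℝ} (hK : 1 ≤ K)
    (h : ∀ v, q' v ≤ K * q v) (X : V → S) (W : V → T) : CH q' X W ≤ K * CH q X W := by
  classical
  have hq0 := hq.nonneg
  have hq'0 := hq'.nonneg
  have hK0 : 0 < K := by linarith
  set r : V × Bool → ℝ := fun w => if w.2 then q' w.1 / K else q w.1 - q' w.1 / K with hr
  have hr0 : ∀ w, 0 ≤ r w := by
    intro w
    simp only [hr]
    split_ifs
    · exact div_nonneg (hq'0 _) hK0.le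
    · rw [sub_nonneg, div_le_iff₀ hK0]
      linarith [h w.1]
  have hm : Marg r q (fun w => w.1) := by
    intro v
    rw [Fintype.sum_prod_type, Finset.sum_eq_single v]
    · simp [hr]
    · intro b _ hb
      simp [hb]
    · intro hh
      exact absurd (Finset.mem_univ _) hh
  have hl : law r (fun w : V × Bool => w.2) true = 1 / K := by
    unfold law
    rw [Fintype.sum_prod_type]
    simp only [hr, Fintype.sum_bool]
    simp only [if_true, Bool.false_eq_true, if_false, add_zero]
    rw [← Finset.sum_div, hq'.sum_one]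
  have hl0 : law r (fun w : V × Bool => w.2) true ≠ 0 := by
    rw [hl]
    positivity
  have hm' : Marg (cond r (fun w : V × Bool => w.2) true) q' (fun w => w.1) := by
    intro v
    rw [Fintype.sum_prod_type, Finset.sum_eq_single v]
    · simp only [if_true, Fintype.sum_bool]
      unfold Pool.Agent.H49.Ent.cond
      rw [hl]
      simp only [hr, if_true, Bool.false_eq_true, if_false, add_zero]
      field_simp
    · intro b _ hb
      simp [hb]
    · intro hh
      exact absurd (Finset.mem_univ _) hh
  have h1 : CH r (fun w : V × Bool => X w.1) (fun w => (W w.1, w.2)) ≤ CH q X W := by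
    rw [← hm.CH X W]
    exact CH_mono_cond hr0 (fun _ _ _ _ h => (Prod.ext_iff.mp h).1)
  rw [CH_split hr0] at h1
  have h2 : law r (fun w : V × Bool => w.2) true *
      CH (cond r (fun w : V × Bool => w.2) true) (fun w : V × Bool => X w.1)
        (fun w => W w.1) ≤ CH q X W := by
    refine le_trans ?_ h1
    have hmem : true ∈ univ.image (fun w : V × Bool => w.2) := by
      by_contra hcon
      exact hl0 (law_eq_zero_of_notMem r _ hcon)
    exact Finset.single_le_sum (f := fun j => law r (fun w : V × Bool => w.2) j *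
      CH (cond r (fun w : V × Bool => w.2) j) (fun w : V × Bool => X w.1) (fun w => W w.1))
      (fun j _ => mul_nonneg (law_nonneg hr0 _ _)
        (CH_nonneg (cond_nonneg hr0 _ _) _ _)) hmem
  rw [hl, hm'.CH X W] at h2
  rw [one_div, inv_mul_eq_div, div_le_iff₀ hK0] at h2
  linarith

end

section

variable {V Ω A B Z S : Type} [Fintype V] [Fintype Ω] {q : V → ℝ} {p : Ω → ℝ}

open Classical in
/-- **The masked label has small entropy**, if it is seen at half of the points. -/
theorem mask_H (hq : IsLaw q) (hp : IsLaw p) {f : V → Z} {g : Ω → Z}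
    (hfg : ∀ z, law q f z = law p g z) (Z1 : V → A) (c2 : V → B) (G : V → Prop)
    (NR : V → Ω → Prop)
    (hNR : ∀ v, 0 < q v → G v → 1 / 2 * law p g (f v) ≤
      ∑ ω, if g ω = f v ∧ NR v ω then p ω else 0)
    (hG : 1 / 2 ≤ law q G True) (Y : Ω → S) (F d h₁ h₂ : ℝ)
    (hh₂ : 0 ≤ h₂)
    (h1 : law (glue q p f g) (fun w => G w.1 ∧ NR w.1 w.2) True *
      CH (cond (glue q p f g) (fun w => G w.1 ∧ NR w.1 w.2) True) (fun w => c2 w.1)
        (fun w => (Z1 w.1, Y w.2)) ≤ h₁)
    (h2 : ∀ E : V × Ω → Prop, ∀ b, law (glue q p f g) E b ≠ 0 →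
      CH (cond (glue q p f g) E b) (fun w => Y w.2) (fun w => Z1 w.1) ≤ F + h₂)
    (h3 : ∀ E : V × Ω → Prop, ∀ b, law (glue q p f g) E b ≠ 0 →
      CH (cond (glue q p f g) E b) (fun w => Y w.2) (fun w => (f w.1, Z1 w.1)) ≤ F)
    (h4 : F - d ≤ CH p Y g) :
    CH q (fun v => if G v then some (c2 v) else none) Z1 ≤
      Real.log 2 + 4 * (h₁ + h₂ + d + Real.log 2) := by
  have hq0 := hq.nonneg
  have hp0 := hp.nonneg
  set r := glue q p f g with hr
  have hr0 : ∀ w, 0 ≤ r w := glue_nonneg hq0 hp0
  have m1 : Marg r q (fun w => w.1) := marg_fst hq0 hfg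
  have m2 : Marg r p (fun w => w.2) := marg_snd hp0 hfg
  have hrl : IsLaw r := ⟨hr0, by rw [m1.sum]; exact hq.sum_one⟩
  have hl2 : 0 ≤ Real.log 2 := Real.log_nonneg (by norm_num)
  set E : V × Ω → Prop := fun w => G w.1 ∧ NR w.1 w.2 with hE
  -- the probability of a hit
  have hhit : ∀ v, G v → 1 / 2 * q v ≤ ∑ ω, if NR v ω then r (v, ω) else 0 := by
    intro v hG
    rcases (hq0 v).eq_or_lt with h0 | h0
    · rw [← h0, mul_zero]
      exact Finset.sum_nonneg fun ω _ => by
        split_ifs
        exacts [hr0 _, le_rfl]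
    · have hl : 0 < law q f (f v) := law_pos hq0 f h0
      have hl' : 0 < law p g (f v) := by rw [← hfg]; exact hl
      have e1 : (∑ ω, if NR v ω then r (v, ω) else 0) =
          q v / law q f (f v) * ∑ ω, if g ω = f v ∧ NR v ω then p ω else 0 := by
        rw [Finset.mul_sum]
        refine Finset.sum_congr rfl fun ω _ => ?_
        by_cases c1 : NR v ω
        · by_cases c2 : g ω = f v
          · rw [if_pos c1, if_pos ⟨c2, c1⟩, hr]
            unfold Pool.Agent.H49.Ent.glue
            simp only
            rw [if_pos c2.symm]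
            field_simp
          · rw [if_pos c1, if_neg (fun h => c2 h.1), hr]
            unfold Pool.Agent.H49.Ent.glue
            simp only
            rw [if_neg (fun h => c2 h.symm), mul_zero]
        · rw [if_neg c1, if_neg (fun h => c1 h.2), mul_zero]
      rw [e1]
      have h5 := mul_le_mul_of_nonneg_left (hNR v h0 hG) (div_nonneg h0.le hl.le)
      refine le_trans (le_of_eq ?_) h5
      rw [← hfg]
      field_simp
  have hrE : 1 / 2 * law q G True ≤ law r E True := by
    rw [law_ev, law_ev, Fintype.sum_prod_type, Finset.mul_sum]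
    refine Finset.sum_le_sum fun v _ => ?_
    by_cases c : G v
    · rw [if_pos c]
      refine (hhit v c).trans (le_of_eq ?_)
      refine Finset.sum_congr rfl fun ω _ => ?_
      simp [hE, c]
    · rw [if_neg c, mul_zero]
      exact Finset.sum_nonneg fun ω _ => by
        split_ifs
        exacts [hr0 _, le_rfl]
  have hrE4 : 1 / 4 ≤ law r E True := by linarith
  have hrE0 : 0 < law r E True := by linarith
  have hG0 : 0 < law q G True := by linarith
  have hrE1 : law r E True ≤ 1 := by
    have := law_le_total hr0 E True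
    rwa [hrl.sum_one] at this
  set rE := cond r E True with hrEd
  have hrEl : IsLaw rE := isLaw_ev hrl hrE0
  have hrE0' := hrEl.nonneg
  -- on the event
  have k1 : law r E True * CH rE (fun w => c2 w.1) (fun w => Z1 w.1) ≤
      h₁ + law r E True * CH rE (fun w => Y w.2) (fun w => Z1 w.1) -
        law r E True * CH rE (fun w => Y w.2) (fun w => (f w.1, Z1 w.1, c2 w.1)) := by
    have a1 := CH_le_add hrE0' (fun w => c2 w.1) (fun w => Y w.2) (fun w => Z1 w.1)
    have a2 := CH_chain hrE0' (fun w => c2 w.1) (fun w => Y w.2) (fun w => Z1 w.1)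
    have a3 := CH_chain hrE0' (fun w => Y w.2) (fun w => c2 w.1) (fun w => Z1 w.1)
    have a4 : CH rE (fun w => (c2 w.1, Y w.2)) (fun w => Z1 w.1) =
        CH rE (fun w => (Y w.2, c2 w.1)) (fun w => Z1 w.1) := by
      refine CH_congr hrE0' ?_ ?_ (fun _ _ _ _ h => h) (fun _ _ _ _ h => h) <;>
      · intro w w' _ _ h
        simp only [Prod.mk.injEq] at h ⊢
        tauto
    have a5 : CH rE (fun w => Y w.2) (fun w => (f w.1, Z1 w.1, c2 w.1)) ≤
        CH rE (fun w => Y w.2) (fun w => (c2 w.1, Z1 w.1)) :=
      CH_mono_cond hrE0' (by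
        intro w w' _ _ h
        simp only [Prod.mk.injEq] at h ⊢
        tauto)
    have a6 : CH rE (fun w => c2 w.1) (fun w => (Y w.2, Z1 w.1)) =
        CH rE (fun w => c2 w.1) (fun w => (Z1 w.1, Y w.2)) := by
      refine CH_congr hrE0' (fun _ _ _ _ h => (Prod.ext_iff.mp h).1)
        (fun _ _ _ _ h => (Prod.ext_iff.mp h).1) ?_ ?_ <;>
      · intro w w' _ _ h
        simp only [Prod.mk.injEq] at h ⊢
        tauto
    have b1 : CH rE (fun w => c2 w.1) (fun w => Z1 w.1) =
        CH rE (fun w => Y w.2) (fun w => Z1 w.1) +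
          CH rE (fun w => c2 w.1) (fun w => (Y w.2, Z1 w.1)) -
          CH rE (fun w => Y w.2) (fun w => (c2 w.1, Z1 w.1)) := by linarith
    have b2 := mul_le_mul_of_nonneg_left a5 hrE0.le
    rw [b1, a6, mul_sub, mul_add]
    linarith
  -- the fullness on the event
  have k2 : CH r (fun w => Y w.2) (fun w => (f w.1, Z1 w.1, c2 w.1)) = CH p Y g := by
    have e1 := CH_glue_snd (Z₁ := f) (Z₂ := g) hq0 hp0 hfg Y (fun v => (Z1 v, c2 v))
      (Y := g) (fun _ _ _ _ h => h)
    rw [← e1]
    have hfg' : ∀ w, 0 < r w → f w.1 = g w.2 := fun w hw => ((glue_pos_iff hq0 hp0 w).mp hw).2.2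
    refine CH_congr hr0 (fun _ _ _ _ h => (Prod.ext_iff.mp h).1)
      (fun _ _ _ _ h => (Prod.ext_iff.mp h).1) ?_ ?_
    · intro w w' hw hw' h
      simp only [Prod.mk.injEq] at h ⊢
      rw [← hfg' w hw, ← hfg' w' hw']
      exact h
    · intro w w' hw hw' h
      simp only [Prod.mk.injEq] at h ⊢
      rw [hfg' w hw, hfg' w' hw']
      exact h
  have k3 := CH_ev_ge hrl E (fun w => Y w.2) (fun w => (f w.1, Z1 w.1, c2 w.1)) F (fun h =>
    le_trans (CH_mono_cond (cond_nonneg hr0 _ _) (by
      intro w w' _ _ h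
      simp only [Prod.mk.injEq] at h ⊢
      tauto)) (h3 E False h))
  rw [k2] at k3
  have k4 := mul_le_mul_of_nonneg_left (h2 E True hrE0.ne') hrE0.le
  have k5 : law r E True * CH rE (fun w => c2 w.1) (fun w => Z1 w.1) ≤
      h₁ + law r E True * h₂ + d + Real.log 2 := by
    have : law r E True * (F + h₂) = law r E True * F + law r E True * h₂ := by ring
    linarith
  -- the marginal of the event law
  set m : V → ℝ := fun v => ∑ ω, rE (v, ω) with hm
  have mm : Marg rE m (fun w => w.1) := by
    intro v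
    rw [Fintype.sum_prod_type, Finset.sum_eq_single v]
    · simp [hm]
    · intro b _ hb
      simp [hb]
    · intro hh
      exact absurd (Finset.mem_univ _) hh
  have hml : IsLaw m := ⟨fun v => Finset.sum_nonneg fun ω _ => hrE0' _, by
    rw [← mm.sum]
    exact hrEl.sum_one⟩
  have hqG : IsLaw (cond q G True) := isLaw_ev hq hG0
  have hEG : law r E True ≤ law q G True := by
    rw [← m1.law G True, law_ev, law_ev]
    refine Finset.sum_le_sum fun w _ => ?_
    by_cases c : E w
    · rw [if_pos c, if_pos c.1]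
    · rw [if_neg c]
      split_ifs
      exacts [hr0 _, le_rfl]
  have hdom : ∀ v, cond q G True v ≤ 2 * m v := by
    intro v
    by_cases c : G v
    · have e1 : cond q G True v = q v / law q G True := by
        unfold Pool.Agent.H49.Ent.cond
        rw [if_pos (eq_true c)]
      have e2 : m v = (∑ ω, if NR v ω then r (v, ω) else 0) / law r E True := by
        simp only [hm]
        rw [Finset.sum_div]
        refine Finset.sum_congr rfl fun ω _ => ?_
        simp only [hrEd]
        unfold Pool.Agent.H49.Ent.cond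
        by_cases c1 : NR v ω
        · rw [if_pos c1, if_pos (eq_true (show E (v, ω) from ⟨c, c1⟩))]
        · rw [if_neg c1, if_neg (fun h => c1 (of_eq_true h).2), zero_div]
      rw [e1, e2]
      have h5 := hhit v c
      have h6 : q v / law q G True ≤ q v / law r E True :=
        div_le_div_of_nonneg_left (hq0 v) hrE0 hEG
      refine h6.trans ?_
      rw [← mul_div_assoc]
      exact div_le_div_of_nonneg_right (by linarith) hrE0.le
    · have e1 : cond q G True v = 0 := by
        unfold Pool.Agent.H49.Ent.cond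
        rw [if_neg (fun h => c (of_eq_true h))]
      rw [e1]
      exact mul_nonneg (by norm_num) (hml.nonneg v)
  have k6 := CH_dom hml hqG (by norm_num : (1 : ℝ) ≤ 2) hdom c2 Z1
  rw [← mm.CH c2 Z1] at k6
  set c : V → Option B := fun v => if G v then some (c2 v) else none with hc
  have k7 := CH_ev_ge hq G c Z1 0 (fun h => by
    have hql : IsLaw (cond q G False) := ⟨cond_nonneg hq0 _ _, sum_cond q G h⟩
    have : CH (cond q G False) c Z1 = 0 := by
      refine CH_eq_zero hql.nonneg ?_
      intro v v' hv hv' _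
      have a1 := ((cond_pos_iff hq0 G False v).mp hv).2
      have a2 := ((cond_pos_iff hq0 G False v').mp hv').2
      simp only [hc]
      rw [if_neg (fun h => (of_eq_false a1) h), if_neg (fun h => (of_eq_false a2) h)]
    exact this.le)
  have k8 : CH (cond q G True) c Z1 ≤ CH (cond q G True) c2 Z1 := by
    refine CH_mono_left hqG.nonneg ?_
    intro v v' hv hv' hh
    have a1 := ((ev_pos hq0).mp hv).2
    have a2 := ((ev_pos hq0).mp hv').2
    have a3 : c2 v = c2 v' := (Prod.ext_iff.mp hh).1
    simp only [hc]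
    rw [if_pos a1, if_pos a2, a3]
  have k9 : law q G True * CH (cond q G True) c2 Z1 ≤
      4 * (law r E True * CH rE (fun w => c2 w.1) (fun w => Z1 w.1)) := by
    have a1 := mul_le_mul_of_nonneg_left k6 hG0.le
    have a2 : 0 ≤ CH rE (fun w => c2 w.1) (fun w => Z1 w.1) := CH_nonneg hrE0' _ _
    have a3 : law q G True ≤ 2 * law r E True := by linarith
    have a4 := mul_le_mul_of_nonneg_right a3 a2
    linarith
  have k10 := mul_le_mul_of_nonneg_left k8 hG0.le
  have k11 : law r E True * h₂ ≤ h₂ := by nlinarith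
  linarith

end

/-- The information of a masked label of the truncated family. -/
theorem mi_of_mask {Ω Λ Ξ Z W : Type} [Fintype Ω] {p : Ω → ℝ} (hp : IsLaw p) (lam : Ω → Λ)
    (x : Ω → Ξ) (T : Ξ → ℕ) (L : ℕ) (zx : Ξ → Z) (w : Ω → W)
    (hw : Det p w (fun ω => zx (x ω))) (gd gd' : Λ × ℕ → Ω → Bool)
    (hle : ∀ l ω, gd' l ω = true → gd l ω = true) :
    CH (dbl p lam) (mk2 lam x T L zx gd') (fun v => zx (x v.2)) -
        CH (dbl p lam) (mk2 lam x T L zx gd') (fun v => x v.2) ≤
      (CH p x (fun ω => zx (x ω)) - CH p x w) +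
        CH (dbl p lam) (mk2 lam x T L zx gd) (fun v => w v.2) + Real.log 2 := by
  classical
  have hp0 := hp.nonneg
  set q := dbl p lam with hqdef
  have hq0 : ∀ v, 0 ≤ q v := dbl_nonneg hp0
  have m1 : Marg q p (fun v => v.1) := dbl_fst hp0
  have m2 : Marg q p (fun v => v.2) := dbl_snd hp0
  have hq : IsLaw q := ⟨hq0, by rw [m1.sum]; exact hp.sum_one⟩
  set c' := mk2 lam x T L zx gd' with hc'
  set c := mk2 lam x T L zx gd with hc
  set b : Ω × Ω → Bool := fun v => gd' (lamS lam x T L v.1) v.2 with hb
  have e1 : CH q (fun v => x v.2) (fun v => zx (x v.2)) = CH p x (fun ω => zx (x ω)) :=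
    m2.CH x (fun ω => zx (x ω))
  have e2 : CH q (fun v => x v.2) (fun v => w v.2) = CH p x w := m2.CH x w
  have a1 := CH_chain hq0 c' (fun v => x v.2) (fun v => zx (x v.2))
  have a2 := CH_chain hq0 (fun v => x v.2) c' (fun v => zx (x v.2))
  have a3 : CH q (fun v => (c' v, x v.2)) (fun v => zx (x v.2)) =
      CH q (fun v => (x v.2, c' v)) (fun v => zx (x v.2)) := by
    refine CH_congr hq0 ?_ ?_ (fun _ _ _ _ h => h) (fun _ _ _ _ h => h) <;>
    · intro v v' _ _ h
      simp only [Prod.mk.injEq] at h ⊢
      tauto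
  have a4 : CH q c' (fun v => (x v.2, zx (x v.2))) = CH q c' (fun v => x v.2) := by
    refine CH_congr hq0 (fun _ _ _ _ h => (Prod.ext_iff.mp h).1)
      (fun _ _ _ _ h => (Prod.ext_iff.mp h).1) ?_ ?_
    · intro v v' _ _ h
      exact (Prod.ext_iff.mp h).1
    · intro v v' _ _ h
      have h1 : x v.2 = x v'.2 := h
      simp only [h1]
  have a5 : CH q (fun v => x v.2) (fun v => ((b v, c v), w v.2)) ≤
      CH q (fun v => x v.2) (fun v => (c' v, zx (x v.2))) := by
    refine CH_mono_cond hq0 ?_
    intro v v' hv hv' h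
    simp only [Prod.mk.injEq] at h ⊢
    obtain ⟨⟨h1, h2⟩, h3⟩ := h
    refine ⟨?_, hw v.2 v'.2 (m2.pos hq0 hv) (m2.pos hq0 hv') h3⟩
    simp only [hb] at h1
    simp only [hc', hc, mk2] at h2 ⊢
    by_cases c1 : gd' (lamS lam x T L v.1) v.2 = true
    · have c2 : gd' (lamS lam x T L v'.1) v'.2 = true := by rw [← h1]; exact c1
      rw [if_pos c1, if_pos c2]
      rw [if_pos (hle _ _ c1), if_pos (hle _ _ c2)] at h2
      exact h2
    · have c2 : ¬ gd' (lamS lam x T L v'.1) v'.2 = true := by rw [← h1]; exact c1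
      rw [if_neg c1, if_neg c2]
  have a6 := CH_chain hq0 (fun v => (b v, c v)) (fun v => x v.2) (fun v => w v.2)
  have a7 := CH_chain hq0 (fun v => x v.2) (fun v => (b v, c v)) (fun v => w v.2)
  have a8 : CH q (fun v => ((b v, c v), x v.2)) (fun v => w v.2) =
      CH q (fun v => (x v.2, (b v, c v))) (fun v => w v.2) := by
    refine CH_congr hq0 ?_ ?_ (fun _ _ _ _ h => h) (fun _ _ _ _ h => h) <;>
    · intro v v' _ _ h
      simp only [Prod.mk.injEq] at h ⊢
      tauto
  have a9 : CH q (fun v => (b v, c v)) (fun v => w v.2) ≤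
      CH q c (fun v => w v.2) + Real.log 2 := by
    have h1 := CH_chain hq0 b c (fun v => w v.2)
    have h2 : CH q b (fun v => (c v, w v.2)) ≤ Real.log 2 := by
      have h3 := CH_le_card hq0 hq.sum_one b (fun v => (c v, w v.2))
        (fun _ => (univ : Finset Bool)) (fun v _ => Finset.mem_univ _)
      refine h3.trans (le_of_eq ?_)
      have h4 : Ex q (fun _ : Ω × Ω => Real.log ((univ : Finset Bool).card : ℝ)) =
        Real.log ((univ : Finset Bool).card : ℝ) := Ex_const hq.sum_one _
      refine h4.trans ?_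
      rw [Finset.card_univ, Fintype.card_bool]
      norm_num
    linarith
  have a10 : 0 ≤ CH q (fun v => (b v, c v)) (fun v => (x v.2, w v.2)) := CH_nonneg hq0 _ _
  rw [← e1, ← e2]
  linarith

end Pool.KS3
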