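import Pool.Agent.H82.KSP.STEP
import Pool.Agent.H99.FLF.FIB

/-!
# The macro step over the cells of the long windows

`b` is a function of the label and a function of the line (the cell of the long window together
with the side information). The macro step is applied to the laws conditioned on the values of
`b`; the hypotheses are means over `b`.
-/

set_option autoImplicit false

namespace Pool.KS3

open Finset Real Module
open Pool.Agent.H49.Ent Pool.Agent.H32.Dense Pool.STK Pool.KAF Pool.KAL Pool.KST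

/-- Markov's inequality for a finite law. -/
lemma markov_w {β : Type} (s : Finset β) (w f : β → ℝ) (F ν : ℝ) (hw : ∀ b ∈ s, 0 ≤ w b)
    (hf : ∀ b ∈ s, w b ≠ 0 → 0 ≤ f b) (hF : ∑ b ∈ s, w b * f b ≤ F) (hν : 0 < ν) :
    (∑ b ∈ s, (open Classical in if F / ν < f b then w b else 0)) ≤ ν := by
  classical
  have hwf : ∀ b ∈ s, 0 ≤ w b * f b := by
    intro b hb
    by_cases h0 : w b = 0
    · rw [h0, zero_mul]
    · exact mul_nonneg (hw b hb) (hf b hb h0)
  have hF0 : 0 ≤ F := (Finset.sum_nonneg hwf).trans hF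
  rcases hF0.eq_or_lt with h0 | h0
  · have h1 : ∀ b ∈ s, w b * f b = 0 := by
      have h2 : ∑ b ∈ s, w b * f b = 0 := le_antisymm (by rw [h0]; exact hF)
        (Finset.sum_nonneg hwf)
      exact (Finset.sum_eq_zero_iff_of_nonneg hwf).mp h2
    have h2 : (∑ b ∈ s, (if F / ν < f b then w b else 0)) = 0 := by
      refine Finset.sum_eq_zero fun b hb => ?_
      split_ifs with h3
      · rw [← h0, zero_div] at h3
        rcases mul_eq_zero.mp (h1 b hb) with h4 | h4
        · exact h4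
        · rw [h4] at h3
          exact absurd h3 (lt_irrefl _)
      · rfl
    rw [h2]
    exact hν.le
  · have h1 : (∑ b ∈ s, (if F / ν < f b then w b else 0)) ≤ ∑ b ∈ s, w b * f b * (ν / F) := by
      refine Finset.sum_le_sum fun b hb => ?_
      split_ifs with h3
      · rw [div_lt_iff₀ hν] at h3
        have h4 : 1 ≤ f b * (ν / F) := by
          rw [mul_div_assoc', le_div_iff₀ h0]
          linarith
        have h5 := mul_le_mul_of_nonneg_left h4 (hw b hb)
        linarith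
      · exact mul_nonneg (hwf b hb) (div_nonneg hν.le hF0)
    rw [← Finset.sum_mul] at h1
    refine h1.trans ?_
    have h2 := mul_le_mul_of_nonneg_right hF (div_nonneg hν.le hF0)
    have h3 : F * (ν / F) = ν := by field_simp
    linarith only [h2, h3]

/-- **The macro step over the cells.** -/
theorem step_glu (n D : ℕ) (C₀ p₀ : ℝ) (hC₀ : 1 ≤ C₀) (hp₀ : 0 < p₀) : ∃ C₁ : ℝ, 1 ≤ C₁ ∧
    ∀ k₀ : ℕ, ∃ C₂ : ℝ, 1 ≤ C₂ ∧
    ∀ (a L : ℕ) (Ω Λ Ξ Z β : Type) [Fintype Ω] (p : Ω → ℝ) (lam : Ω → Λ)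
      (x : Ω → Ξ) (T : Ξ → ℕ) (pos : Ξ → Option (Fin n) → ℕ) (A B : Λ → Option (Fin n) → ℝ)
      (zx : Ξ → Z) (zl : Λ → ℕ → Z) (cz : Z → Option (Fin n) → ℕ)
      (G : Z → MvPolynomial (Fin n) ℝ) (κ γ N γ₀ κ' γ' : ℕ)
      (δ ε e₁ e₃ e₅ eT lm δ' ψ η τ ν : ℝ) (e e' : Ξ → ℝ) (bz : Z → β) (bl : Λ → β),
      StepH n a L C₀ k₀ κ γ N δ ε e₁ e₃ p lam x T pos A B zx zl cz G e →
      (∀ ω, 0 < p ω → ¬ Bad (G (zx (x ω))) (fun _ => 0) 1 D lm) →
      6 * C₀ / 2 ^ L ≤ lm → lm ≤ 1 →
      (∀ ω, 0 < p ω → bz (zx (x ω)) = bl (lam ω)) →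
      (a + L) * Real.log 2 - CH p (fun ω => T (x ω)) lam ≤ eT →
      CH p x (fun ω => (pos (x ω), bl (lam ω))) ≤ e₅ →
      0 < δ' → (∀ a, 0 ≤ e' a) → NCF p lam x B δ' e' → 0 < ψ →
      (∑ ω, (open Classical in if Real.exp (-ψ) < e' (x ω) then p ω else 0)) ≤ η →
      n.factorial * (3 * C₀) ^ n ≤ δ' ^ n * 2 ^ γ' → 1 ≤ κ' → 0 < τ → 0 < ν →
      C₁ * (a + L / κ' + γ' + κ' + 1 + (Real.exp (-(ψ / 2)) + η / ν) * L) +
        C₂ * RR n L κ γ N (ε / ν) (e₁ / ν) (e₃ / ν) + 4 * τ ≤ γ₀ →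
      ∃ (y : Z → β × Set Z) (sl : Λ → Option (β × Set Z)),
        (∀ ζ, (y ζ).1 = bz ζ) ∧
        (∑ ω, (open Classical in if some (y (zx (x ω))) ≠ sl (lam ω) then p ω else 0)) ≤
          p₀ + 8 * ((n + 4 * D) * (a * Real.log 2) + Real.log ((a + L : ℕ) + 2) +
            Real.log (lm * 2 ^ L) + 2 * D * (eT / ν) + e₅ / ν +
            C₂ * RR n L κ γ N (ε / ν) (e₁ / ν) (e₃ / ν)) / ψ ∧
        ∀ Rr : ℕ, (D + 1) * (lm * 2 ^ (γ₀ + L)) ≤ Rr →
          CH p (fun ω => pos (x ω) none / Rr) (fun ω => (bas pos (x ω), y (zx (x ω)))) ≤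
            C₂ + C₂ * RR n L κ γ N (ε / ν) (e₁ / ν) (e₃ / ν) / τ * ((a + L) * Real.log 2) +
              6 * ν * ((a + L) * Real.log 2) := by
  classical
  obtain ⟨C₁, hC₁, hstep⟩ := step_thm n D C₀ p₀ hC₀ hp₀
  refine ⟨C₁, hC₁, ?_⟩
  intro k₀
  obtain ⟨C₂, hC₂, hstep⟩ := hstep k₀
  refine ⟨C₂, hC₂, ?_⟩
  intro a L Ω Λ Ξ Z β _ p lam x T pos A B zx zl cz G κ γ N γ₀ κ' γ' δ ε e₁ e₃ e₅ eT lm δ' ψ η τ
    ν e e' bz bl hF hbad hlm hlm1 hb heT he₅ hδ' he' hnc' hψ hη hγ' hκ' hτ hν hγ₀
  have hp := hF.step.leaf.isLaw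
  have hp0 := hp.nonneg
  have hl2 : 0 < Real.log 2 := Real.log_pos (by norm_num)
  have hM : ((2 ^ (a + L) : ℕ) : ℝ) = 2 ^ (a + L) := by push_cast; rfl
  set bb : Ω → β := fun ω => bz (zx (x ω)) with hbb
  set w : β → ℝ := fun b => law p bb b with hw
  have hw0 : ∀ b, 0 ≤ w b := fun b => law_nonneg hp0 bb b
  have hxb : Det p x bb := by
    intro ω ω' _ _ h
    have h1 : x ω = x ω' := h
    simp only [hbb, h1]
  have hlb : Det p lam bb := by
    intro ω ω' h1 h2 h
    simp only [hbb]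
    rw [hb ω h1, hb ω' h2]
    exact congrArg bl h
  have hq : ∀ b, w b ≠ 0 → IsLaw (cond p bb b) := fun b h => isLaw_fib hp bb h
  have hqp : ∀ b ω, 0 < cond p bb b ω → 0 < p ω ∧ bb ω = b := fun b ω hω =>
    (cond_pos_iff hp0 bb b ω).mp hω
  -- the hypotheses in the fibres
  set f1 : β → ℝ := fun b => L * Real.log 2 - CH (cond p bb b) (fun ω => TS T L (x ω))
    (lamS lam x T L) with hf1
  set f2 : β → ℝ := fun b => (a + L) * Real.log 2 - CH (cond p bb b) (fun ω => T (x ω)) lam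
    with hf2
  set f3 : β → ℝ := fun b => CH (cond p bb b) x (fun ω => (bas pos (x ω), zx (x ω))) with hf3
  set f4 : β → ℝ := fun b => CH (cond p bb b) x (fun ω => pos (x ω)) with hf4
  set f5 : β → ℝ := fun b => Ex (cond p bb b) (fun ω => e (x ω)) with hf5
  set f6 : β → ℝ := fun b => Ex (cond p bb b) (fun ω => if Real.exp (-ψ) < e' (x ω) then 1
    else 0) with hf6
  have n1 : ∀ b, w b ≠ 0 → 0 ≤ f1 b := by
    intro b h
    have h2 := CH_le_card (hq b h).nonneg (hq b h).sum_one (fun ω => TS T L (x ω))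
      (lamS lam x T L) (fun _ => Finset.range (2 ^ L)) (by
        intro ω _
        rw [Finset.mem_range]
        exact Nat.mod_lt _ (Nat.two_pow_pos L))
    rw [Finset.card_range] at h2
    rw [Ex_const (hq b h).sum_one] at h2
    push_cast at h2
    rw [Real.log_pow] at h2
    simp only [hf1]
    linarith only [h2]
  have n2 : ∀ b, w b ≠ 0 → 0 ≤ f2 b := by
    intro b h
    have h2 := CH_le_card (hq b h).nonneg (hq b h).sum_one (fun ω => T (x ω))
      lam (fun _ => Finset.range (2 ^ (a + L))) (by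
        intro ω _
        rw [Finset.mem_range]
        exact hF.step.leaf.T_lt ω)
    rw [Finset.card_range] at h2
    rw [Ex_const (hq b h).sum_one] at h2
    push_cast at h2
    rw [Real.log_pow] at h2
    push_cast at h2
    simp only [hf2]
    linarith only [h2]
  have n3 : ∀ b, w b ≠ 0 → 0 ≤ f3 b := fun b h => CH_nonneg (hq b h).nonneg _ _
  have n4 : ∀ b, w b ≠ 0 → 0 ≤ f4 b := fun b h => CH_nonneg (hq b h).nonneg _ _
  have n5 : ∀ b, w b ≠ 0 → 0 ≤ f5 b := fun b h =>
    Ex_nonneg (hq b h).nonneg fun ω _ => hF.he (x ω)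
  have n6 : ∀ b, w b ≠ 0 → 0 ≤ f6 b := fun b h =>
    Ex_nonneg (hq b h).nonneg fun ω _ => by split_ifs <;> norm_num
  set s : Finset β := univ.image bb with hs
  have sw : ∑ b ∈ s, w b = 1 := sum_law_one hp.sum_one bb
  have m1 : ∑ b ∈ s, w b * f1 b ≤ e₁ := by
    have h1 : ∑ b ∈ s, w b * CH (cond p bb b) (fun ω => TS T L (x ω)) (lamS lam x T L) =
        CH p (fun ω => TS T L (x ω)) (lamS lam x T L) := by
      rw [hw, hs, ← CH_split hp0]
      refine CH_congr hp0 (fun _ _ _ _ hh => (Prod.ext_iff.mp hh).1)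
        (fun _ _ _ _ hh => (Prod.ext_iff.mp hh).1) (fun _ _ _ _ hh => (Prod.ext_iff.mp hh).1) ?_
      intro ω ω' h1 h2 hh
      have h3 : lam ω = lam ω' := (Prod.ext_iff.mp hh).1
      exact Prod.ext hh (hlb ω ω' h1 h2 h3)
    have h2 : ∑ b ∈ s, w b * f1 b = L * Real.log 2 * ∑ b ∈ s, w b -
        ∑ b ∈ s, w b * CH (cond p bb b) (fun ω => TS T L (x ω)) (lamS lam x T L) := by
      rw [Finset.mul_sum, ← Finset.sum_sub_distrib]
      refine Finset.sum_congr rfl fun b _ => ?_
      simp only [hf1]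
      ring
    rw [h2, sw, h1, mul_one]
    exact hF.he₁
  have m2 : ∑ b ∈ s, w b * f2 b ≤ eT := by
    have h1 : ∑ b ∈ s, w b * CH (cond p bb b) (fun ω => T (x ω)) lam =
        CH p (fun ω => T (x ω)) lam := by
      rw [hw, hs, ← CH_split hp0]
      refine CH_congr hp0 (fun _ _ _ _ hh => (Prod.ext_iff.mp hh).1)
        (fun _ _ _ _ hh => (Prod.ext_iff.mp hh).1) (fun _ _ _ _ hh => (Prod.ext_iff.mp hh).1) ?_
      intro ω ω' h1 h2 hh
      exact Prod.ext hh (hlb ω ω' h1 h2 hh)
    have h2 : ∑ b ∈ s, w b * f2 b = (a + L) * Real.log 2 * ∑ b ∈ s, w b -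
        ∑ b ∈ s, w b * CH (cond p bb b) (fun ω => T (x ω)) lam := by
      rw [Finset.mul_sum, ← Finset.sum_sub_distrib]
      refine Finset.sum_congr rfl fun b _ => ?_
      simp only [hf2]
      ring
    rw [h2, sw, h1, mul_one]
    exact heT
  have m3 : ∑ b ∈ s, w b * f3 b ≤ e₃ := by
    have h1 : ∑ b ∈ s, w b * f3 b = CH p x (fun ω => ((bas pos (x ω), zx (x ω)), bb ω)) :=
      (CH_split hp0 x (fun ω => (bas pos (x ω), zx (x ω))) bb).symm
    rw [h1]
    refine le_trans (CH_mono_cond hp0 ?_) hF.he₃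
    intro ω ω' _ _ hh
    exact (Prod.ext_iff.mp hh).1
  have m4 : ∑ b ∈ s, w b * f4 b ≤ e₅ := by
    have h1 : ∑ b ∈ s, w b * f4 b = CH p x (fun ω => (pos (x ω), bb ω)) :=
      (CH_split hp0 x (fun ω => pos (x ω)) bb).symm
    rw [h1]
    refine le_trans (CH_mono_cond hp0 ?_) he₅
    intro ω ω' h1 h2 hh
    have h3 : pos (x ω) = pos (x ω') := (Prod.ext_iff.mp hh).1
    have h4 : bb ω = bb ω' := (Prod.ext_iff.mp hh).2
    refine Prod.ext h3 ?_
    simp only
    rw [← hb ω h1, ← hb ω' h2]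
    exact h4
  have m5 : ∑ b ∈ s, w b * f5 b ≤ ε :=
    (le_of_eq (Ex_split hp0 (fun ω => e (x ω)) bb).symm).trans hF.hex
  have m6 : ∑ b ∈ s, w b * f6 b ≤ η := by
    refine (le_of_eq (Ex_split hp0 (fun ω => if Real.exp (-ψ) < e' (x ω) then (1 : ℝ) else 0)
      bb).symm).trans ?_
    refine le_trans (le_of_eq ?_) hη
    unfold Ex
    refine Finset.sum_congr rfl fun ω _ => ?_
    rw [mul_ite, mul_one, mul_zero]
  -- the good fibres
  set good : β → Prop := fun b => f1 b ≤ e₁ / ν ∧ f2 b ≤ eT / ν ∧ f3 b ≤ e₃ / ν ∧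
    f4 b ≤ e₅ / ν ∧ f5 b ≤ ε / ν ∧ f6 b ≤ η / ν with hgood
  have hPb : (∑ b ∈ s, if good b then 0 else w b) ≤ 6 * ν := by
    have k1 := markov_w s w f1 e₁ ν (fun b _ => hw0 b) (fun b _ h => n1 b h) m1 hν
    have k2 := markov_w s w f2 eT ν (fun b _ => hw0 b) (fun b _ h => n2 b h) m2 hν
    have k3 := markov_w s w f3 e₃ ν (fun b _ => hw0 b) (fun b _ h => n3 b h) m3 hν
    have k4 := markov_w s w f4 e₅ ν (fun b _ => hw0 b) (fun b _ h => n4 b h) m4 hν
    have k5 := markov_w s w f5 ε ν (fun b _ => hw0 b) (fun b _ h => n5 b h) m5 hν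
    have k6 := markov_w s w f6 η ν (fun b _ => hw0 b) (fun b _ h => n6 b h) m6 hν
    have h1 : (∑ b ∈ s, if good b then 0 else w b) ≤ ∑ b ∈ s, ((if e₁ / ν < f1 b then w b else 0) +
        (if eT / ν < f2 b then w b else 0) + (if e₃ / ν < f3 b then w b else 0) +
        (if e₅ / ν < f4 b then w b else 0) + (if ε / ν < f5 b then w b else 0) +
        (if η / ν < f6 b then w b else 0)) := by
      refine Finset.sum_le_sum fun b _ => ?_
      have hwb := hw0 b
      have i1 : 0 ≤ (if e₁ / ν < f1 b then w b else 0) := by split_ifs; exacts [hwb, le_rfl]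
      have i2 : 0 ≤ (if eT / ν < f2 b then w b else 0) := by split_ifs; exacts [hwb, le_rfl]
      have i3 : 0 ≤ (if e₃ / ν < f3 b then w b else 0) := by split_ifs; exacts [hwb, le_rfl]
      have i4 : 0 ≤ (if e₅ / ν < f4 b then w b else 0) := by split_ifs; exacts [hwb, le_rfl]
      have i5 : 0 ≤ (if ε / ν < f5 b then w b else 0) := by split_ifs; exacts [hwb, le_rfl]
      have i6 : 0 ≤ (if η / ν < f6 b then w b else 0) := by split_ifs; exacts [hwb, le_rfl]
      by_cases hg : good b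
      · rw [if_pos hg]
        linarith only [i1, i2, i3, i4, i5, i6]
      · rw [if_neg hg]
        simp only [hgood, not_and_or, not_le] at hg
        rcases hg with h | h | h | h | h | h
        · rw [if_pos h]; linarith only [i2, i3, i4, i5, i6]
        · rw [if_pos h]; linarith only [i1, i3, i4, i5, i6]
        · rw [if_pos h]; linarith only [i1, i2, i4, i5, i6]
        · rw [if_pos h]; linarith only [i1, i2, i3, i5, i6]
        · rw [if_pos h]; linarith only [i1, i2, i3, i4, i6]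
        · rw [if_pos h]; linarith only [i1, i2, i3, i4, i5]
    simp only [Finset.sum_add_distrib] at h1
    linarith only [k1, k2, k3, k4, k5, k6, h1]
  -- the constants
  set P₀ : ℝ := p₀ + 8 * ((n + 4 * D) * (a * Real.log 2) + Real.log ((a + L : ℕ) + 2) +
            Real.log (lm * 2 ^ L) + 2 * D * (eT / ν) + e₅ / ν +
            C₂ * RR n L κ γ N (ε / ν) (e₁ / ν) (e₃ / ν)) / ψ with hP₀
  set Q₀ : ℝ := C₂ + C₂ * RR n L κ γ N (ε / ν) (e₁ / ν) (e₃ / ν) / τ *
    ((a + L) * Real.log 2) with hQ₀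
  have e₁0 := hF.he₁0
  have e₃0 := hF.e₃_nonneg
  have ε0 := hF.ε_nonneg
  have eT0 : 0 ≤ eT := by
    refine le_trans (Finset.sum_nonneg fun b _ => ?_) m2
    by_cases h0 : w b = 0
    · rw [h0, zero_mul]
    · exact mul_nonneg (hw0 b) (n2 b h0)
  have e₅0 : 0 ≤ e₅ := (CH_nonneg hp0 _ _).trans he₅
  have η0 : 0 ≤ η := le_trans (Finset.sum_nonneg fun ω _ => by
    split_ifs
    exacts [hp0 ω, le_rfl]) hη
  have hRR0 : 0 ≤ RR n L κ γ N (ε / ν) (e₁ / ν) (e₃ / ν) := by
    unfold RR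
    have := pw_nonneg n N
    positivity
  have hlmL : 0 ≤ Real.log (lm * 2 ^ L) := by
    refine Real.log_nonneg ?_
    have h2L : (0 : ℝ) < 2 ^ L := by positivity
    have h2 := mul_le_mul_of_nonneg_right hlm h2L.le
    have h1 : 6 * C₀ / 2 ^ L * 2 ^ L = 6 * C₀ := by field_simp
    linarith only [hC₀, h2, h1]
  have hla : 0 ≤ Real.log (((a + L : ℕ) : ℝ) + 2) := Real.log_nonneg (by
    have : (0 : ℝ) ≤ ((a + L : ℕ) : ℝ) := Nat.cast_nonneg _
    linarith only)
  have hP₀0 : 0 ≤ P₀ := by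
    rw [hP₀]
    positivity
  have hQ₀0 : 0 ≤ Q₀ := by
    rw [hQ₀]
    positivity
  have haL : 0 ≤ ((a : ℝ) + L) * Real.log 2 := by positivity
  -- the step in the fibres
  have key : ∀ b, ∃ (y : Z → Set Z) (sl : Λ → Option (Set Z)), w b ≠ 0 →
      (∑ ω, if some (y (zx (x ω))) ≠ sl (lam ω) then cond p bb b ω else 0) ≤ P₀ ∧
      ∀ Rr : ℕ, (D + 1) * (lm * 2 ^ (γ₀ + L)) ≤ Rr →
        CH (cond p bb b) (fun ω => pos (x ω) none / Rr)
          (fun ω => (bas pos (x ω), y (zx (x ω)))) ≤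
          Q₀ + (if good b then 0 else ((a + L) * Real.log 2)) := by
    intro b
    by_cases hwb : w b = 0
    · exact ⟨fun _ => ∅, fun _ => none, fun h => absurd hwb h⟩
    have hqb := hq b hwb
    by_cases hg : good b
    · have hg' := hg
      simp only [hgood] at hg'
      obtain ⟨g1, g2, g3, g4, g5, g6⟩ := hg'
      have hH : StepH n a L C₀ k₀ κ γ N δ (ε / ν) (e₁ / ν) (e₃ / ν) (cond p bb b) lam x T pos
          A B zx zl cz G e :=
        { step := hF.step.law hqb
          reg := fun ω hω => hF.reg ω (hqp b ω hω).1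
          gr := fun ω hω => hF.gr ω (hqp b ω hω).1
          hδ := hF.hδ
          he := hF.he
          hex := g5
          hnc := hF.hnc.fib hp hxb hwb
          hγ := hF.hγ
          hκ := hF.hκ
          he₁ := g1
          he₁0 := div_nonneg e₁0 hν.le
          he₃ := g3 }
      obtain ⟨Y, y, sl, hy1, hy2⟩ := hstep a L Ω Λ Ξ Z (cond p bb b) lam x T pos A B zx zl cz G
        κ γ N γ₀ κ' γ' δ (ε / ν) (e₁ / ν) (e₃ / ν) (e₅ / ν) (eT / ν) lm δ' ψ (η / ν) τ e e' hH
        (fun ω hω => hbad ω (hqp b ω hω).1) hlm hlm1 g2 g4 hδ' he' (hnc'.fib hp hxb hwb) hψ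
        (by
          refine le_trans (le_of_eq ?_) g6
          simp only [hf6]
          unfold Ex
          refine Finset.sum_congr rfl fun ω _ => ?_
          rw [mul_ite, mul_one, mul_zero]) hγ' hκ' hτ hγ₀
      refine ⟨fun ζ => {ζ' | y ζ' = y ζ}, fun l => (sl l).map fun t => {ζ' | y ζ' = t},
        fun _ => ⟨?_, ?_⟩⟩
      · refine le_trans (Finset.sum_le_sum fun ω _ => ?_) hy1
        have h0 := hqb.nonneg ω
        by_cases h1 : some (y (zx (x ω))) = sl (lam ω)
        · have h2 : some ({ζ' | y ζ' = y (zx (x ω))} : Set Z) =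
              (sl (lam ω)).map fun t => {ζ' | y ζ' = t} := by
            rw [← h1]
            rfl
          rw [if_neg (not_not.mpr h2)]
          split_ifs
          exacts [h0, le_rfl]
        · rw [if_pos h1]
          split_ifs
          exacts [le_rfl, h0]
      · intro Rr hRr
        rw [if_pos hg, add_zero]
        refine le_trans (CH_mono_cond hqb.nonneg ?_) (hy2 Rr hRr)
        intro ω ω' _ _ hh
        have h1 : bas pos (x ω) = bas pos (x ω') := (Prod.ext_iff.mp hh).1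
        have h2 : ({ζ' | y ζ' = y (zx (x ω))} : Set Z) = {ζ' | y ζ' = y (zx (x ω'))} :=
          (Prod.ext_iff.mp hh).2
        refine Prod.ext h1 ?_
        have h3 : zx (x ω) ∈ ({ζ' | y ζ' = y (zx (x ω))} : Set Z) := rfl
        rw [h2] at h3
        exact h3
    · refine ⟨fun _ => ∅, fun _ => some ∅, fun _ => ⟨?_, ?_⟩⟩
      · refine le_trans (le_of_eq ?_) hP₀0
        refine Finset.sum_eq_zero fun ω _ => ?_
        rw [if_neg (not_not.mpr rfl)]
      · intro Rr _
        rw [if_neg hg]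
        have h2 := CH_le_card hqb.nonneg hqb.sum_one (fun ω => pos (x ω) none / Rr)
          (fun ω => (bas pos (x ω), (∅ : Set Z))) (fun _ => Finset.range (2 ^ (a + L))) (by
            intro ω _
            rw [Finset.mem_range]
            exact (Nat.div_le_self _ _).trans_lt (hF.step.leaf.pos_lt ω none))
        rw [Finset.card_range, Ex_const hqb.sum_one, hM, Real.log_pow] at h2
        push_cast at h2
        linarith only [hQ₀0, h2]
  choose yb slb hkey using key
  -- gluing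
  set y : Z → β × Set Z := fun ζ => (bz ζ, yb (bz ζ) ζ) with hy
  set sl : Λ → Option (β × Set Z) := fun l => (slb (bl l) l).map fun t => (bl l, t) with hsl
  refine ⟨y, sl, fun _ => rfl, ?_, ?_⟩
  · -- the probability
    have h1 := Ex_split hp0 (fun ω => if some (y (zx (x ω))) ≠ sl (lam ω) then (1 : ℝ) else 0) bb
    have h2 : Ex p (fun ω => if some (y (zx (x ω))) ≠ sl (lam ω) then (1 : ℝ) else 0) =
        ∑ ω, (if some (y (zx (x ω))) ≠ sl (lam ω) then p ω else 0) := by
      unfold Ex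
      refine Finset.sum_congr rfl fun ω _ => ?_
      rw [mul_ite, mul_one, mul_zero]
    rw [← h2, h1]
    have h3 : ∀ b ∈ univ.image bb, law p bb b * Ex (cond p bb b) (fun ω =>
        if some (y (zx (x ω))) ≠ sl (lam ω) then (1 : ℝ) else 0) ≤ law p bb b * P₀ := by
      intro b _
      rcases eq_or_ne (law p bb b) 0 with h0 | h0
      · rw [h0, zero_mul, zero_mul]
      refine mul_le_mul_of_nonneg_left ?_ (law_nonneg hp0 bb b)
      refine le_trans (le_of_eq ?_) (hkey b h0).1
      unfold Ex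
      refine Finset.sum_congr rfl fun ω _ => ?_
      by_cases hω : 0 < cond p bb b ω
      · obtain ⟨h4, h5⟩ := hqp b ω hω
        have h6 : bz (zx (x ω)) = b := h5
        have h7 : bl (lam ω) = b := by rw [← hb ω h4]; exact h6
        have h8 : some (y (zx (x ω))) = sl (lam ω) ↔ some (yb b (zx (x ω))) = slb b (lam ω) := by
          simp only [hy, hsl]
          rw [h6, h7]
          cases slb b (lam ω) with
          | none => simp
          | some t => simp
        rw [mul_ite, mul_one, mul_zero]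
        by_cases h9 : some (yb b (zx (x ω))) = slb b (lam ω)
        · rw [if_neg (not_not.mpr h9), if_neg (not_not.mpr (h8.mpr h9))]
        · rw [if_pos h9, if_pos (fun h => h9 (h8.mp h))]
      · have h4 : cond p bb b ω = 0 := le_antisymm (not_lt.mp hω) (cond_nonneg hp0 bb b ω)
        rw [h4, zero_mul]
        split_ifs <;> rfl
    refine (Finset.sum_le_sum h3).trans (le_of_eq ?_)
    rw [← Finset.sum_mul, sum_law_one hp.sum_one bb, one_mul]
  · -- the entropy
    intro Rr hRr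
    have h1 : CH p (fun ω => pos (x ω) none / Rr) (fun ω => (bas pos (x ω), y (zx (x ω)))) =
        CH p (fun ω => pos (x ω) none / Rr) (fun ω => ((bas pos (x ω), y (zx (x ω))), bb ω)) := by
      refine CH_congr hp0 (fun _ _ _ _ hh => (Prod.ext_iff.mp hh).1)
        (fun _ _ _ _ hh => (Prod.ext_iff.mp hh).1) ?_ (fun _ _ _ _ hh => (Prod.ext_iff.mp hh).1)
      intro ω ω' _ _ hh
      refine Prod.ext hh ?_
      have h2 : y (zx (x ω)) = y (zx (x ω')) := (Prod.ext_iff.mp hh).2
      exact congrArg Prod.fst h2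
    rw [h1, CH_split hp0]
    have h3 : ∀ b ∈ univ.image bb, law p bb b * CH (cond p bb b) (fun ω => pos (x ω) none / Rr)
        (fun ω => (bas pos (x ω), y (zx (x ω)))) ≤
        law p bb b * Q₀ + (if good b then 0 else law p bb b) * ((a + L) * Real.log 2) := by
      intro b _
      rcases eq_or_ne (law p bb b) 0 with h0 | h0
      · rw [h0, zero_mul, zero_mul, zero_add]
        have : (0 : ℝ) ≤ (if good b then 0 else 0) * ((a + L) * Real.log 2) := by
          split_ifs <;> simp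
        exact this
      have h4 : CH (cond p bb b) (fun ω => pos (x ω) none / Rr)
          (fun ω => (bas pos (x ω), y (zx (x ω)))) ≤ CH (cond p bb b)
          (fun ω => pos (x ω) none / Rr) (fun ω => (bas pos (x ω), yb b (zx (x ω)))) := by
        refine CH_mono_cond (cond_nonneg hp0 bb b) ?_
        intro ω ω' h5 h6 hh
        have h7 : bas pos (x ω) = bas pos (x ω') := (Prod.ext_iff.mp hh).1
        have h8 : y (zx (x ω)) = y (zx (x ω')) := (Prod.ext_iff.mp hh).2
        have h9 : bz (zx (x ω)) = b := (hqp b ω h5).2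
        have h10 : bz (zx (x ω')) = b := (hqp b ω' h6).2
        have h11 := congrArg Prod.snd h8
        simp only [hy] at h11
        rw [h9, h10] at h11
        exact Prod.ext h7 h11
      have h5 := h4.trans ((hkey b h0).2 Rr hRr)
      have h6 := mul_le_mul_of_nonneg_left h5 (law_nonneg hp0 bb b)
      refine h6.trans (le_of_eq ?_)
      split_ifs <;> ring
    refine (Finset.sum_le_sum h3).trans ?_
    rw [Finset.sum_add_distrib, ← Finset.sum_mul, ← Finset.sum_mul, sum_law_one hp.sum_one bb,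
      one_mul]
    have h7 := mul_le_mul_of_nonneg_right hPb haL
    have h8 : (∑ b ∈ univ.image bb, if good b then 0 else law p bb b) =
        ∑ b ∈ s, if good b then 0 else w b := rfl
    rw [h8]
    linarith only [h7]

end Pool.KS3
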