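import Pool.Agent.H82.KSP.SUBC

/-!
# General masks

The mask is a function of the line and the leaf window of the first incidence, and of the second
incidence (`gG : Λ × ℕ → Ω → Bool`). `stp_core'` is the core of the macro step with such a mask.
-/

set_option autoImplicit false

namespace Pool.KS3

open Finset Real Module
open Pool.Agent.H49.Ent Pool.Agent.H32.Dense Pool.STK Pool.KAF Pool.KAL Pool.KST

/-- The label of the first incidence on the mask. -/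
def mk2 {Ω Λ Ξ Z : Type} (lam : Ω → Λ) (x : Ω → Ξ) (T : Ξ → ℕ) (L : ℕ) (zx : Ξ → Z)
    (gG : Λ × ℕ → Ω → Bool) (v : Ω × Ω) : Option Z :=
  if gG (lamS lam x T L v.1) v.2 then some (zx (x v.1)) else none

/-- Row DEG with a general mask. -/
theorem deg' (n D k₀ : ℕ) (C₀ : ℝ) (hC₀ : 1 ≤ C₀) : ∃ C : ℝ, 0 ≤ C ∧
    ∀ (a L : ℕ) (Ω Λ Ξ Z : Type) [Fintype Ω] (p : Ω → ℝ) (lam : Ω → Λ)
      (x : Ω → Ξ) (T : Ξ → ℕ) (pos : Ξ → Option (Fin n) → ℕ) (A B : Λ → Option (Fin n) → ℝ)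
      (zx : Ξ → Z) (zl : Λ → ℕ → Z) (cz : Z → Option (Fin n) → ℕ)
      (G : Z → MvPolynomial (Fin n) ℝ) (κ γ N : ℕ) (δ ε e₁ e₃ s : ℝ) (e : Ξ → ℝ)
      (F : Z → MvPolynomial.restrictTotalDegree (Option (Fin n)) ℝ D) (χ : Λ × ℕ → Ω → Bool),
      StepF n a L C₀ p lam x T pos A B zx zl cz →
      (∀ ω, 0 < p ω → RegG (G (zx (x ω))) (fun _ => 0) 1 k₀ (3 * C₀)) →
      (∀ ω, 0 < p ω → |rp (2 ^ L) (posS pos L) (x ω) none - MvPolynomial.eval
        (fun i => rp (2 ^ L) (posS pos L) (x ω) (some i)) (G (zx (x ω)))| ≤ 3 * C₀ / 2 ^ L) →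
      0 < δ → (∀ a, 0 ≤ e a) → Ex p (fun ω => e (x ω)) ≤ ε → NCF p lam x B δ e →
      n.factorial * (6 * C₀) ^ n ≤ δ ^ n * 2 ^ γ → 1 ≤ κ →
      L * Real.log 2 - CH p (fun ω => TS T L (x ω)) (lamS lam x T L) ≤ e₁ → 0 ≤ e₁ →
      CH p x (fun ω => (bas pos (x ω), zx (x ω))) ≤ e₃ →
      0 < s → s ≤ 1 → (∀ ζ, F ζ ≠ 0) →
      Ex (dbl p lam) (fun v => if χ (lamS lam x T L v.1) v.2 then
        Real.log (NZ D p x zx (2 ^ (a + L)) pos (6 * C₀ / 2 ^ (a + L)) s (zx (x v.2))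
          (F (zx (x v.1)))) -
        Real.log (NZ D p x zx (2 ^ (a + L)) pos (6 * C₀ / 2 ^ (a + L)) s (zx (x v.1))
          (F (zx (x v.1)))) else 0) ≤
      2 * D * (a * Real.log 2) +
        2 * D * (CH (dbl p lam) (mk2 lam x T L zx χ) (fun v => zx (x v.2)) -
          CH (dbl p lam) (mk2 lam x T L zx χ) (fun v => x v.2)) +
        C * ((N + 1) * (e₁ + 1) + e₃ + (1 - 1 / n) ^ N * (L + e₃) + L / κ + γ + κ + ε * L) := by
  classical
  obtain ⟨Ca, hCa, hlrg⟩ := lrg n D k₀ C₀ hC₀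
  obtain ⟨Co, hCo, hone⟩ := one n D C₀ hC₀
  refine ⟨Ca + Co + 2 * D, by positivity, ?_⟩
  intro a L Ω Λ Ξ Z _ p lam x T pos A B zx zl cz G κ γ N δ ε e₁ e₃ s e F χ hF hreg hgr hδ he hex
    hnc hγ hκ he₁ he₁0 he₃ hs0 hs1 hFne
  have hp := hF.leaf.isLaw
  have hp0 := hp.nonneg
  set q := dbl p lam with hqdef
  have hq0 : ∀ v, 0 ≤ q v := dbl_nonneg hp0
  have m1 : Marg q p (fun v => v.1) := dbl_fst hp0
  have m2 : Marg q p (fun v => v.2) := dbl_snd hp0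
  have hq : IsLaw q := ⟨hq0, by rw [m1.sum]; exact hp.sum_one⟩
  set h : ℝ := 6 * C₀ / 2 ^ (a + L) with hh
  have hh0 : 0 < h := by positivity
  set M : ℕ := 2 ^ (a + L) with hM
  -- the polynomial
  set Pc : Option Z → MvPolynomial.restrictTotalDegree (Option (Fin n)) ℝ D :=
    fun g => g.elim (onV _ D) F with hPc
  have hPne : ∀ g, Pc g ≠ 0 := by
    intro g
    cases g with
    | none => exact onV_ne_zero _ _
    | some ζ => exact hFne ζ
  have hPne' : ∀ g, (Pc g : MvPolynomial (Option (Fin n)) ℝ) ≠ 0 := fun g h0 =>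
    hPne g (Subtype.ext h0)
  set c : Ω × Ω → Option Z := mk2 lam x T L zx χ with hc
  have hdet : Det q (fun v => ((lam v.1, T (x v.1) / 2 ^ L), v.2)) c := by
    intro v v' _ _ hv
    simp only [Prod.mk.injEq] at hv
    have e1 : zx (x v.1) = zx (x v'.1) := by
      rw [hF.lab v.1, hF.lab v'.1, hv.1.1, hv.1.2]
    have e2 : lamS lam x T L v.1 = lamS lam x T L v'.1 := Prod.ext hv.1.1 hv.1.2
    simp only [hc, mk2]
    rw [e1, e2, hv.2]
  -- from the first incidence to the second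
  have E1 : Ex q (fun v => Real.log (PsiC s (Pc (c v) : MvPolynomial (Option (Fin n)) ℝ) h
      (rp M pos (x v.2)))) ≤
      Ex q (fun v => Real.log (PsiC s (Pc (c v) : MvPolynomial (Option (Fin n)) ℝ) h
      (rp M pos (x v.1)))) + 2 * D * (a * Real.log 2 + e₁) + Co :=
    hone a L Ω Λ Ξ Z (Option Z) p lam x T pos A B zx zl cz s c
      (fun g => (Pc g : MvPolynomial (Option (Fin n)) ℝ)) e₁ hF hs0 hs1 hdet
      (fun v _ => ⟨hPne' _, deg_le _⟩) he₁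
  have E0 : Ex q (fun v => Real.log (PsiC s (Pc (c v) : MvPolynomial (Option (Fin n)) ℝ) h
      (rp M pos (x v.1)))) ≤
      Ex q (fun v => Real.log (NZ D p x zx M pos h s (zx (x v.1)) (Pc (c v)))) := by
    refine Ex_mono hq0 fun v hv => ?_
    exact Real.log_le_log (PsiC_pos hs0.ne' (hPne' _) hh0 _)
      (le_NZ hs0.ne' (m1.pos hq0 hv) _)
  -- from the second incidence to its leaf
  have E2 : Ex q (fun v => Real.log (NZ D p x zx M pos h s (zx (x v.2)) (Pc (c v)))) ≤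
      Ex q (fun v => Real.log (PsiC s (Pc (c v) : MvPolynomial (Option (Fin n)) ℝ) h
      (rp M pos (x v.2)))) + 2 * D * (CH q c (fun v => zx (x v.2)) - CH q c (fun v => x v.2)) +
      Ca * ((N + 1) * (e₁ + 1) + e₃ + (1 - 1 / n) ^ N * (L + e₃) + L / κ + γ + κ + ε * L) :=
    hlrg a L Ω Λ Ξ Z (Ω × Ω) (Option Z) p lam x T pos A B zx zl cz G κ γ N δ ε e₁ e₃ s e q
      (fun v => x v.2) c Pc hF hreg hgr hδ he hex hnc hγ hκ he₁ he₁0 he₃ hs0 hs1 hq
      (fun ξ => m2.law x ξ) hPne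
  -- the goal
  have E4 : Ex q (fun v => if χ (lamS lam x T L v.1) v.2 then
      Real.log (NZ D p x zx M pos h s (zx (x v.2)) (F (zx (x v.1)))) -
      Real.log (NZ D p x zx M pos h s (zx (x v.1)) (F (zx (x v.1)))) else 0) =
      Ex q (fun v => Real.log (NZ D p x zx M pos h s (zx (x v.2)) (Pc (c v)))) -
      Ex q (fun v => Real.log (NZ D p x zx M pos h s (zx (x v.1)) (Pc (c v)))) := by
    rw [← Ex_sub]
    unfold Ex
    refine Finset.sum_congr rfl fun v _ => ?_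
    congr 1
    simp only [hPc, hc, mk2]
    split_ifs with h1
    · rfl
    · simp only [Option.elim]
      rw [NZ_one, NZ_one, sub_self]
  rw [E4]
  set R : ℝ := (N + 1) * (e₁ + 1) + e₃ + (1 - 1 / (n : ℝ)) ^ N * (L + e₃) + L / κ + γ + κ +
      ε * L with hR
  have hR1 : e₁ + 1 ≤ R := by
    have he₃0 : 0 ≤ e₃ := (CH_nonneg hp0 _ _).trans he₃
    have hε : 0 ≤ ε := le_trans (Ex_nonneg hp0 fun ω _ => he (x ω)) hex
    have hL0 : (0 : ℝ) ≤ L := Nat.cast_nonneg L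
    have hN : (0 : ℝ) ≤ N := Nat.cast_nonneg N
    have hpw : (0 : ℝ) ≤ (1 - 1 / n) ^ N := by
      rcases Nat.eq_zero_or_pos n with h | h
      · subst h
        simp
      · have h1 : (1 : ℝ) ≤ n := by exact_mod_cast h
        have h2 : (1 : ℝ) / n ≤ 1 := by
          rw [div_le_one (by linarith only [h1])]
          exact h1
        exact pow_nonneg (by linarith only [h2]) _
    have h3 : 0 ≤ (1 - 1 / (n : ℝ)) ^ N * (L + e₃) := by positivity
    have h4 : 0 ≤ (L : ℝ) / κ := by positivity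
    have h5 : (0 : ℝ) ≤ γ := Nat.cast_nonneg γ
    have h6 : (0 : ℝ) ≤ κ := Nat.cast_nonneg κ
    have h7 : 0 ≤ ε * L := by positivity
    have h8 : 0 ≤ (N : ℝ) * (e₁ + 1) := by positivity
    rw [hR]
    linarith only [he₃0, h3, h4, h7, h8]
  have h2D : (0 : ℝ) ≤ 2 * D := by positivity
  have J3 : Co * 1 ≤ Co * R := mul_le_mul_of_nonneg_left (by linarith only [he₁0, hR1]) hCo
  have J4 : 2 * D * e₁ ≤ 2 * D * R := mul_le_mul_of_nonneg_left (by linarith only [hR1]) h2D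
  have J5 : (Ca + Co + 2 * D) * R = Ca * R + Co * R + 2 * D * R := by ring
  rw [J5]
  linarith only [E1, E0, E2, J3, J4]

/-- Row RND with a general mask. -/
theorem rnd' (n D : ℕ) (C₀ p₀ : ℝ) (hC₀ : 1 ≤ C₀) (hp₀ : 0 < p₀) : ∃ C₁ : ℝ, 1 ≤ C₁ ∧
    ∀ k₀ : ℕ, ∃ C₂ : ℝ, 1 ≤ C₂ ∧
    ∀ (a L : ℕ) (Ω Λ Ξ Z : Type) [Fintype Ω] (p : Ω → ℝ) (lam : Ω → Λ)
      (x : Ω → Ξ) (T : Ξ → ℕ) (pos : Ξ → Option (Fin n) → ℕ) (A B : Λ → Option (Fin n) → ℝ)
      (zx : Ξ → Z) (zl : Λ → ℕ → Z) (cz : Z → Option (Fin n) → ℕ)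
      (G : Z → MvPolynomial (Fin n) ℝ) (κ γ N : ℕ) (δ ε e₁ e₃ s mi pG : ℝ) (e : Ξ → ℝ)
      (gG : Λ × ℕ → Ω → Bool),
      StepH n a L C₀ k₀ κ γ N δ ε e₁ e₃ p lam x T pos A B zx zl cz G e →
      0 < s → s ≤ 1 → 0 ≤ mi →
      (∀ χ : Λ × ℕ → Ω → Bool, (∀ l ω, χ l ω = true → gG l ω = true) →
        CH (dbl p lam) (mk2 lam x T L zx χ) (fun v => zx (x v.2)) -
          CH (dbl p lam) (mk2 lam x T L zx χ) (fun v => x v.2) ≤ mi) →
      (∑ v, if gG (lamS lam x T L v.1) v.2 = true then 0 else dbl p lam v) ≤ pG →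
      ∃ y : Seminorm ℝ (MvPolynomial.restrictTotalDegree (Option (Fin n)) ℝ D) →
          Seminorm ℝ (MvPolynomial.restrictTotalDegree (Option (Fin n)) ℝ D),
        (∀ M, IsN M → Dl M (y M) (C₁ * (a + mi) + C₂ * RR n L κ γ N ε e₁ e₃)) ∧
        (∑ v, (open Classical in
          if y (NZ D p x zx (2 ^ (a + L)) pos (6 * C₀ / 2 ^ (a + L)) s (zx (x v.1))) ≠
            y (NZ D p x zx (2 ^ (a + L)) pos (6 * C₀ / 2 ^ (a + L)) s (zx (x v.2))) then
          dbl p lam v else 0)) ≤ p₀ + 2 * pG := by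
  classical
  set V := MvPolynomial.restrictTotalDegree (Option (Fin n)) ℝ D with hV
  have hK0 : 0 < finrank ℝ V := finrank_poly_pos _ D
  set K : ℕ := finrank ℝ V with hK
  have hK1 : (1 : ℝ) ≤ K := by exact_mod_cast hK0
  have hlK : 0 ≤ Real.log K := Real.log_nonneg hK1
  obtain ⟨Cn, hCn, hnr⟩ := norm_rounding_law K
  have hl2 : 0 < Real.log 2 := Real.log_pos (by norm_num)
  have hl2' : Real.log 2 ≤ 1 := by
    have := Real.log_two_lt_d9
    linarith only [hl2, this]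
  set Lr : ℝ := 6 * K / p₀ + 1 with hLr
  have hLr1 : 1 ≤ Lr := by
    rw [hLr]
    have : 0 ≤ 6 * (K : ℝ) / p₀ := by positivity
    linarith only [this]
  have hCL : 1 ≤ Cn * Lr := by nlinarith only [hCn, hLr1]
  set q₁ : ℝ := Cn * Lr * (4 * K / p₀) with hq₁
  have hq₁0 : 0 ≤ q₁ := by positivity
  refine ⟨q₁ * (2 * D) + 1, by
    have : 0 ≤ q₁ * (2 * D) := by positivity
    linarith only [this], ?_⟩
  intro k₀
  obtain ⟨Cd, hCd, hdeg⟩ := deg' n D k₀ C₀ hC₀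
  refine ⟨q₁ * (Cd + 1) + Cn * Lr * (Real.log K + 1), ?_, ?_⟩
  · have h1 : 0 ≤ q₁ * (Cd + 1) := by positivity
    have h2 : 1 ≤ Cn * Lr * (Real.log K + 1) := by nlinarith only [hlK, hCL]
    linarith only [h1, h2]
  intro a L Ω Λ Ξ Z _ p lam x T pos A B zx zl cz G κ γ N δ ε e₁ e₃ s mi pG e gG hF hs0 hs1 hmi0
    hmi hpG
  have hp := hF.step.leaf.isLaw
  have hp0 := hp.nonneg
  set q := dbl p lam with hqdef
  have hq0 : ∀ v, 0 ≤ q v := dbl_nonneg hp0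
  have m1 : Marg q p (fun v => v.1) := dbl_fst hp0
  have hq : IsLaw q := ⟨hq0, by rw [m1.sum]; exact hp.sum_one⟩
  set h : ℝ := 6 * C₀ / 2 ^ (a + L) with hh
  have hh0 : 0 < h := by positivity
  set M : ℕ := 2 ^ (a + L) with hM
  set R : ℝ := RR n L κ γ N ε e₁ e₃ with hR
  obtain ⟨-, hR1, -⟩ := hF.le_RR
  rw [← hR] at hR1
  set del : ℝ := 2 * D * (a * Real.log 2) + 2 * D * mi + Cd * R with hdel
  have hdel0 : 0 ≤ del := by positivity
  set Nz : Z → Seminorm ℝ V := fun ζ => NZ D p x zx M pos h s ζ with hNz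
  have hNzN : ∀ ζ, IsN (Nz ζ) := fun ζ => NZ_isN hh0 hs0 ζ
  -- the polynomial depends on the first label
  have hlb : ∀ v : Ω × Ω, zl (lamS lam x T L v.1).1 (lamS lam x T L v.1).2 = zx (x v.1) :=
    fun v => (hF.step.lab v.1).symm
  have H1 : ∀ (P : Z → V) (χ : Z → Z → Bool), (∀ a, P a ≠ 0) →
      Ex q (fun v => if gG (lamS lam x T L v.1) v.2 = true ∧
        χ (zx (x v.1)) (zx (x v.2)) = true then
        Real.log (Nz (zx (x v.2)) (P (zx (x v.1)))) -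
        Real.log (Nz (zx (x v.1)) (P (zx (x v.1)))) else 0) ≤ del := by
    intro P χ hP
    have h1 := hdeg a L Ω Λ Ξ Z p lam x T pos A B zx zl cz G κ γ N δ ε e₁ e₃ s e P
      (fun l ω => gG l ω && χ (zl l.1 l.2) (zx (x ω))) hF.step hF.reg hF.gr hF.hδ hF.he hF.hex
      hF.hnc hF.hγ hF.hκ hF.he₁ hF.he₁0 hF.he₃ hs0 hs1 hP
    have h2 := hmi (fun l ω => gG l ω && χ (zl l.1 l.2) (zx (x ω))) (fun l ω h => by
      rw [Bool.and_eq_true] at h
      exact h.1)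
    have h3 : (0 : ℝ) ≤ 2 * D := by positivity
    have h4 := mul_le_mul_of_nonneg_left h2 h3
    simp only [Bool.and_eq_true, hlb] at h1
    refine h1.trans ?_
    rw [hdel, hR]
    unfold RR
    linarith only [h4]
  have H2 : ∀ (P : Z → V) (χ : Z → Z → Bool), (∀ a, P a ≠ 0) →
      Ex q (fun v => if gG (lamS lam x T L v.2) v.1 = true ∧ χ (zx (x v.2)) (zx (x v.1)) = true then
        Real.log (Nz (zx (x v.1)) (P (zx (x v.2)))) -
        Real.log (Nz (zx (x v.2)) (P (zx (x v.2)))) else 0) ≤ del := by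
    intro P χ hP
    refine le_trans (le_of_eq ?_) (H1 P χ hP)
    exact (dbl_symm p lam).ex (fun v => if gG (lamS lam x T L v.1) v.2 = true ∧
        χ (zx (x v.1)) (zx (x v.2)) = true then
        Real.log (Nz (zx (x v.2)) (P (zx (x v.1)))) -
        Real.log (Nz (zx (x v.1)) (P (zx (x v.1)))) else 0)
  obtain ⟨d, hd0, hdD, hdE⟩ := lrn_on hK0 hq (fun v => zx (x v.1)) (fun v => zx (x v.2))
    (fun v => gG (lamS lam x T L v.1) v.2 = true) (fun v => gG (lamS lam x T L v.2) v.1 = true)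
    Nz Nz hNzN hNzN del
    (fun P χ hP => le_trans (le_of_eq (congrArg (Ex q) (funext fun v => ite_dec _ _ _ _ _)))
      (H1 P χ hP))
    (fun P χ hP => le_trans (le_of_eq (congrArg (Ex q) (funext fun v => ite_dec _ _ _ _ _)))
      (H2 P χ hP))
  set hm : ℝ := 4 * K * (del + 1) / p₀ + 1 with hhm
  have hm1 : 1 ≤ hm := by
    rw [hhm]
    have : 0 ≤ 4 * (K : ℝ) * (del + 1) / p₀ := by positivity
    linarith only [this]
  have hmk := lrn_on_markov hq (fun v => zx (x v.1)) (fun v => zx (x v.2))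
    (fun v => gG (lamS lam x T L v.1) v.2 = true ∧ gG (lamS lam x T L v.2) v.1 = true) Nz Nz
    (Real.log K) _ hm (by linarith only [hm1]) d hd0 hdD
    (le_trans (le_of_eq (congrArg (Ex q) (funext fun v => ite_dec _ _ _ _ _))) hdE)
  -- the good events
  have hG2 : ∑ v, (if gG (lamS lam x T L v.1) v.2 = true ∧ gG (lamS lam x T L v.2) v.1 = true then 0
      else q v) ≤ 2 * pG := by
    have e1 : ∑ v, (if gG (lamS lam x T L v.2) v.1 = true then 0 else q v) =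
        ∑ v, (if gG (lamS lam x T L v.1) v.2 = true then 0 else q v) := by
      have h1 := (dbl_symm p lam).ex (fun v => if gG (lamS lam x T L v.1) v.2 = true then (0 : ℝ)
        else 1)
      unfold Ex at h1
      simp only [mul_ite, mul_zero, mul_one] at h1
      exact h1
    have h2 : ∑ v, (if gG (lamS lam x T L v.1) v.2 = true ∧ gG (lamS lam x T L v.2) v.1 = true then 0
        else q v) ≤ ∑ v, ((if gG (lamS lam x T L v.1) v.2 = true then 0 else q v) +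
          (if gG (lamS lam x T L v.2) v.1 = true then 0 else q v)) := by
      refine Finset.sum_le_sum fun v _ => ?_
      have h3 := hq0 v
      by_cases c1 : gG (lamS lam x T L v.1) v.2 = true <;>
      by_cases c2 : gG (lamS lam x T L v.2) v.1 = true <;>
      simp [c1, c2, h3]
    rw [Finset.sum_add_distrib, e1] at h2
    linarith only [hpG, h2]
  have hmk2 := hmk.trans (add_le_add le_rfl (le_trans (le_of_eq
    (Finset.sum_congr rfl fun v _ => ite_dec _ _ _ _ _)) hG2))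
  have hdm : 2 * K * del / hm ≤ p₀ / 2 := by
    rw [div_le_iff₀ (by linarith only [hm1])]
    have h1 : p₀ / 2 * hm = 2 * K * (del + 1) + p₀ / 2 := by
      rw [hhm]
      field_simp
      ring
    rw [h1]
    have h2 : (0 : ℝ) ≤ 2 * K := by positivity
    nlinarith only [hp₀, hK1]
  -- the rounding
  obtain ⟨y, hy1, hy2⟩ := hnr V rfl Lr (Real.log K + hm) hLr1 (by linarith only [hlK, hm1]) (Ω × Ω) q
    (fun v => Nz (zx (x v.1))) (fun v => Nz (zx (x v.2))) hq0 (fun v => hNzN _) (fun v => hNzN _)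
  refine ⟨y, ?_, ?_⟩
  · intro M' hM'
    refine (hy1 M' hM').mono ?_
    have e1 : Cn * (Lr * (Real.log K + hm)) = Cn * Lr * (Real.log K + 1) + q₁ * (del + 1) := by
      rw [hhm, hq₁]
      ring
    rw [e1]
    have h1 : q₁ * (del + 1) ≤ (q₁ * (2 * D) + 1) * (a + mi) + q₁ * (Cd + 1) * R := by
      have a0 : (0 : ℝ) ≤ a := Nat.cast_nonneg a
      have h2 : del + 1 ≤ 2 * D * (a + mi) + (Cd + 1) * R := by
        rw [hdel]
        have h3 : 2 * D * (a * Real.log 2) ≤ 2 * D * a := by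
          have : (a : ℝ) * Real.log 2 ≤ a * 1 := mul_le_mul_of_nonneg_left hl2' a0
          have h4 : (0 : ℝ) ≤ 2 * D := by positivity
          nlinarith only [this]
        linarith only [hR1, h3]
      have h3 := mul_le_mul_of_nonneg_left h2 hq₁0
      have h4 : 0 ≤ (a : ℝ) + mi := by linarith only [hmi0]
      linarith only [hmi0, h3]
    have h5 : 0 ≤ Cn * Lr * (Real.log K + 1) := by positivity
    have h6 : Cn * Lr * (Real.log K + 1) * 1 ≤ Cn * Lr * (Real.log K + 1) * R :=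
      mul_le_mul_of_nonneg_left hR1 h5
    linarith only [h1, h6]
  · refine hy2.trans ?_
    have h1 : 3 * (K : ℝ) / Lr * ∑ v, q v ≤ p₀ / 2 := by
      rw [hq.sum_one, mul_one, div_le_iff₀ (by linarith only [hLr1])]
      have : p₀ / 2 * Lr = 3 * K + p₀ / 2 := by
        rw [hLr]
        field_simp
        ring
      rw [this]
      linarith only [hp₀]
    linarith only [hmk2, hdm, h1]

/-- The core of the macro step with a general mask. -/
theorem stp_core' (n D : ℕ) (C₀ p₀ : ℝ) (hC₀ : 1 ≤ C₀) (hp₀ : 0 < p₀) : ∃ C₁ : ℝ, 1 ≤ C₁ ∧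
    ∀ k₀ : ℕ, ∃ C₂ : ℝ, 1 ≤ C₂ ∧
    ∀ (a L : ℕ) (Ω Λ Ξ Z : Type) [Fintype Ω] (p : Ω → ℝ) (lam : Ω → Λ)
      (x : Ω → Ξ) (T : Ξ → ℕ) (pos : Ξ → Option (Fin n) → ℕ) (A B : Λ → Option (Fin n) → ℝ)
      (zx : Ξ → Z) (zl : Λ → ℕ → Z) (cz : Z → Option (Fin n) → ℕ)
      (G : Z → MvPolynomial (Fin n) ℝ) (κ γ N γ₀ : ℕ) (δ ε e₁ e₃ lm mi pG τ : ℝ) (e : Ξ → ℝ)
      (gd : Λ × ℕ → Ω → Bool),
      StepH n a L C₀ k₀ κ γ N δ ε e₁ e₃ p lam x T pos A B zx zl cz G e →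
      (∀ ω, 0 < p ω → ¬ Bad (G (zx (x ω))) (fun _ => 0) 1 D lm) →
      6 * C₀ / 2 ^ L ≤ lm → lm ≤ 1 → 0 < τ → 0 ≤ mi →
      (∀ gd' : Λ × ℕ → Ω → Bool, (∀ l ω, gd' l ω = true → gd l ω = true) →
        CH (dbl p lam) (mk2 lam x T L zx gd') (fun v => zx (x v.2)) -
          CH (dbl p lam) (mk2 lam x T L zx gd') (fun v => x v.2) ≤ mi) →
      (∑ v, if gd (lamS lam x T L v.1) v.2 = true then 0 else dbl p lam v) ≤ pG →
      C₁ * (a + mi) + C₂ * RR n L κ γ N ε e₁ e₃ + 4 * τ ≤ γ₀ →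
      ∃ (Y : Type) (y : Z → Y) (sl : Λ → Option Y),
        (∑ ω, (open Classical in if some (y (zx (x ω))) ≠ sl (lam ω) then p ω else 0)) ≤
          p₀ + 4 * pG ∧
        ∀ Rr : ℕ, (D + 1) * (lm * 2 ^ (γ₀ + L)) ≤ Rr →
          CH p (fun ω => pos (x ω) none / Rr) (fun ω => (bas pos (x ω), y (zx (x ω)))) ≤
            C₂ + C₂ * RR n L κ γ N ε e₁ e₃ / τ * ((a + L) * Real.log 2) := by
  classical
  obtain ⟨C₁, hC₁, hrnd⟩ := rnd' n D C₀ (p₀ / 2) hC₀ (by linarith only [hp₀])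
  refine ⟨8 * C₁, by linarith only [hC₁], ?_⟩
  intro k₀
  obtain ⟨C₂, hC₂, hrnd⟩ := hrnd k₀
  obtain ⟨Ct, hCt, hthl⟩ := thl n D C₀ hC₀ k₀
  refine ⟨8 * C₂ + 2 * Ct, by linarith, ?_⟩
  intro a L Ω Λ Ξ Z _ p lam x T pos A B zx zl cz G κ γ N γ₀ δ ε e₁ e₃ lm mi pG τ e gd hF hbad hlm
    hlm1 hτ hmi0 hmi hpG hγ₀
  have hp := hF.step.leaf.isLaw
  have hp0 := hp.nonneg
  have hC0 : (0 : ℝ) < C₀ := by linarith only [hC₀]
  have h2L : (0 : ℝ) < 2 ^ L := by positivity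
  have h2g : (0 : ℝ) < 2 ^ γ₀ := by positivity
  have h2g1 : (1 : ℝ) ≤ 2 ^ γ₀ := one_le_pow₀ (by norm_num)
  set h₀ : ℝ := 6 * C₀ / 2 ^ L with hh₀
  have hh₀0 : 0 < h₀ := by positivity
  have hlm0 : 0 < lm := hh₀0.trans_le hlm
  have hs₁0 : 0 < h₀ / lm := div_pos hh₀0 hlm0
  have hs₁1 : h₀ / lm ≤ 1 := by
    rw [div_le_one hlm0]
    exact hlm
  have hs₂0 : 0 < h₀ / lm / 2 ^ γ₀ := div_pos hs₁0 h2g
  have hs₂1 : h₀ / lm / 2 ^ γ₀ ≤ 1 := by
    rw [div_le_one h2g]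
    linarith only [h2g1, hs₁1]
  have hh0 : (0 : ℝ) < 6 * C₀ / 2 ^ (a + L) := by positivity
  set R : ℝ := RR n L κ γ N ε e₁ e₃ with hR
  obtain ⟨-, hR1, -⟩ := hF.le_RR
  rw [← hR] at hR1
  -- the two roundings
  obtain ⟨y₁, hy₁, hq₁⟩ := hrnd a L Ω Λ Ξ Z p lam x T pos A B zx zl cz G κ γ N δ ε e₁ e₃
    (h₀ / lm) mi pG e gd hF hs₁0 hs₁1 hmi0 hmi hpG
  obtain ⟨y₂, hy₂, hq₂⟩ := hrnd a L Ω Λ Ξ Z p lam x T pos A B zx zl cz G κ γ N δ ε e₁ e₃
    (h₀ / lm / 2 ^ γ₀) mi pG e gd hF hs₂0 hs₂1 hmi0 hmi hpG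
  set y : Z → Seminorm ℝ (MvPolynomial.restrictTotalDegree (Option (Fin n)) ℝ D) ×
      Seminorm ℝ (MvPolynomial.restrictTotalDegree (Option (Fin n)) ℝ D) := fun ζ =>
    (y₁ (NZ D p x zx (2 ^ (a + L)) pos (6 * C₀ / 2 ^ (a + L)) (h₀ / lm) ζ),
      y₂ (NZ D p x zx (2 ^ (a + L)) pos (6 * C₀ / 2 ^ (a + L)) (h₀ / lm / 2 ^ γ₀) ζ)) with hy
  obtain ⟨sl, hsl⟩ := majw hp0 lam (fun ω => y (zx (x ω)))
  refine ⟨_, y, sl, ?_, ?_⟩
  · have hq₁' := le_trans (le_of_eq (Finset.sum_congr rfl fun v _ => ite_dec _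
      (instDecidableNot) _ _ _)) hq₁
    have hq₂' := le_trans (le_of_eq (Finset.sum_congr rfl fun v _ => ite_dec _
      (instDecidableNot) _ _ _)) hq₂
    refine (hsl.trans (le_of_eq (Finset.sum_congr rfl fun v _ => ite_dec _ _
      (instDecidableNot) _ _))).trans ?_
    have h1 : (∑ v, if y (zx (x v.1)) ≠ y (zx (x v.2)) then dbl p lam v else 0) ≤
        (∑ v, (if y₁ (NZ D p x zx (2 ^ (a + L)) pos (6 * C₀ / 2 ^ (a + L)) (h₀ / lm)
            (zx (x v.1))) ≠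
          y₁ (NZ D p x zx (2 ^ (a + L)) pos (6 * C₀ / 2 ^ (a + L)) (h₀ / lm) (zx (x v.2))) then
          dbl p lam v else 0)) +
        (∑ v, (if y₂ (NZ D p x zx (2 ^ (a + L)) pos (6 * C₀ / 2 ^ (a + L))
            (h₀ / lm / 2 ^ γ₀) (zx (x v.1))) ≠
          y₂ (NZ D p x zx (2 ^ (a + L)) pos (6 * C₀ / 2 ^ (a + L)) (h₀ / lm / 2 ^ γ₀)
            (zx (x v.2))) then dbl p lam v else 0)) := by
      rw [← Finset.sum_add_distrib]
      refine Finset.sum_le_sum fun v _ => ?_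
      have h2 : 0 ≤ dbl p lam v := dbl_nonneg hp0 v
      by_cases c : y (zx (x v.1)) = y (zx (x v.2))
      · rw [if_neg (not_not.mpr c)]
        have i1 : (0 : ℝ) ≤ (if y₁ (NZ D p x zx (2 ^ (a + L)) pos (6 * C₀ / 2 ^ (a + L))
            (h₀ / lm) (zx (x v.1))) ≠
          y₁ (NZ D p x zx (2 ^ (a + L)) pos (6 * C₀ / 2 ^ (a + L)) (h₀ / lm) (zx (x v.2))) then
          dbl p lam v else 0) := by
          split_ifs
          exacts [h2, le_rfl]
        have i2 : (0 : ℝ) ≤ (if y₂ (NZ D p x zx (2 ^ (a + L)) pos (6 * C₀ / 2 ^ (a + L))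
            (h₀ / lm / 2 ^ γ₀) (zx (x v.1))) ≠
          y₂ (NZ D p x zx (2 ^ (a + L)) pos (6 * C₀ / 2 ^ (a + L)) (h₀ / lm / 2 ^ γ₀)
            (zx (x v.2))) then dbl p lam v else 0) := by
          split_ifs
          exacts [h2, le_rfl]
        linarith only [i1, i2]
      · rw [if_pos c]
        by_cases c1 : y₁ (NZ D p x zx (2 ^ (a + L)) pos (6 * C₀ / 2 ^ (a + L)) (h₀ / lm)
            (zx (x v.1))) =
          y₁ (NZ D p x zx (2 ^ (a + L)) pos (6 * C₀ / 2 ^ (a + L)) (h₀ / lm) (zx (x v.2)))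
        · have c2 : y₂ (NZ D p x zx (2 ^ (a + L)) pos (6 * C₀ / 2 ^ (a + L))
              (h₀ / lm / 2 ^ γ₀) (zx (x v.1))) ≠
            y₂ (NZ D p x zx (2 ^ (a + L)) pos (6 * C₀ / 2 ^ (a + L)) (h₀ / lm / 2 ^ γ₀)
              (zx (x v.2))) := by
            intro c2
            exact c (Prod.ext c1 c2)
          rw [if_neg (not_not.mpr c1), if_pos c2, zero_add]
        · rw [if_pos c1]
          split_ifs <;> linarith
    linarith only [hq₁, hq₂, h1]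
  · intro Rr hRr
    set k₃ : ℝ := 2 * (C₁ * (a + mi) + C₂ * R) with hk₃
    have hl2 : (1 / 2 : ℝ) ≤ Real.log 2 := by
      have := Real.log_two_gt_d9
      linarith only [this]
    have hγ : 2 * τ + 2 * k₃ + Ct ≤ γ₀ * Real.log 2 := by
      have h1 : (γ₀ : ℝ) * (1 / 2) ≤ γ₀ * Real.log 2 :=
        mul_le_mul_of_nonneg_left hl2 (Nat.cast_nonneg _)
      have h2 : Ct * 1 ≤ Ct * R := mul_le_mul_of_nonneg_left hR1 (by linarith only [hCt])
      have h3 : (8 * C₂ + 2 * Ct) * R = 8 * (C₂ * R) + 2 * (Ct * R) := by ring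
      have h4 : 8 * C₁ * (a + mi) = 8 * (C₁ * (a + mi)) := by ring
      rw [h3, h4] at hγ₀
      rw [hk₃]
      linarith only [hγ₀, h1, h2]
    have key := hthl a L Ω Λ Ξ Z _ p lam x T pos A B zx zl cz G κ γ N γ₀ δ ε e₁ e₃ lm k₃ τ e y
      hF hbad hlm hlm1 hτ (by
        intro ζ ζ' hζ
        have h1 := (Prod.ext_iff.mp hζ).1
        have h2 := (Prod.ext_iff.mp hζ).2
        exact ⟨Dl.of_round hy₁ (NZ_isN hh0 hs₁0 ζ) (NZ_isN hh0 hs₁0 ζ') h1,
          Dl.of_round hy₂ (NZ_isN hh0 hs₂0 ζ) (NZ_isN hh0 hs₂0 ζ') h2⟩) hγ Rr hRr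
    refine key.trans ?_
    rw [← hR]
    have haL : 0 ≤ ((a : ℝ) + L) * Real.log 2 := by
      have : (0 : ℝ) ≤ Real.log 2 := by linarith only [hl2]
      positivity
    have h1 : Ct * R / τ * ((a + L) * Real.log 2) ≤
        (8 * C₂ + 2 * Ct) * R / τ * ((a + L) * Real.log 2) := by
      refine mul_le_mul_of_nonneg_right ?_ haL
      refine div_le_div_of_nonneg_right ?_ hτ.le
      exact mul_le_mul_of_nonneg_right (by linarith only [hC₂, hCt]) (by linarith only [hR1])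
    linarith only [hC₂, hCt, h1]

end Pool.KS3
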