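import Pool.Agent.H37.S3.GO
import Pool.Agent.H37.S3.CHN
import Pool.Agent.H37.S3.LIN
import Pool.Agent.H45.KAL.LRM
import Pool.Agent.H33.KAL.RMG
import Pool.Agent.H99.KAL.GVI
import Pool.Agent.H68.KAL.RIM

/-!
# The forward budget with mutual information

`K_STEP_helper79.md` (1.5): the polynomial depends on a variable which is independent of the chain
given the first point. The cost is the mutual information of this variable and the first point
given the label of the leaf.
-/

set_option autoImplicit false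

namespace Pool.KS3

open Finset Real
open Pool.Agent.H49.Ent Pool.Agent.H32.Dense Pool.STK Pool.KAF Pool.KAL

/-- One step of the forward budget, unconditional. -/
theorem stp : STPStmt := stp_thm (rix_thm (rim_thm rmg_thm gvi_thm))

/-- Extension of a Markov property by a variable attached to one point. -/
lemma CI.ext {Ω S T U V : Type} [Fintype Ω] {p : Ω → ℝ} (hp : ∀ ω, 0 ≤ p ω) {A : Ω → S}
    {B : Ω → T} {Z : Ω → U} {c : Ω → V} (h1 : CI p A B Z)
    (h2 : CI p (fun ω => (Z ω, B ω)) c A) : CI p c B Z := by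
  have a1 : CI p B A Z := h1.symm hp
  have a2 : CI p c B (fun ω => (Z ω, A ω)) := (h2.symm hp).weak hp
  have a3 : CI p B c (fun ω => (A ω, Z ω)) := (a2.symm hp).congr hp
    (by
      intro ω ω' _ _ h
      simp only [Prod.mk.injEq] at h ⊢
      tauto)
    (by
      intro ω ω' _ _ h
      simp only [Prod.mk.injEq] at h ⊢
      tauto)
  have a4 := a1.chain hp a3
  exact (a4.mono_right hp (by
    intro ω ω' _ _ h
    have h1 := (Prod.ext_iff.mp h).1
    exact (Prod.ext_iff.mp h1).2)).symm hp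

/-- Forward budget with mutual information. -/
def BDIStmt : Prop :=
  ∀ D : ℕ, ∃ C : ℝ, 0 ≤ C ∧ ∀ (Ω X L B Y ι : Type) [Fintype Ω] (p : Ω → ℝ) (N n : ℕ)
    (x : ℕ → Ω → X) (l : ℕ → Ω → L) (b : Ω → B) (y : Ω → Y) (τ : X → ℕ) (h : B → X → ℝ)
    (M : B → L → ℝ) (P : B → L → ι → Polynomial ℝ) (c₁ e : ℝ), IsLaw p →
    (∀ i < n, ∀ ω, τ (x i ω) < N) →
    (∀ i < n, ∀ ω, 0 < p ω → ∃ j, (P (b ω) (l i ω) j).natDegree ≤ D ∧
      (∃ s ∈ Set.Icc (0 : ℝ) 1, Real.exp (M (b ω) (l i ω)) ≤
        |(P (b ω) (l i ω) j).eval s|) ∧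
      ∀ ω', 0 < p ω' → b ω' = b ω → l i ω' = l i ω →
        |(P (b ω) (l i ω) j).eval ((τ (x i ω') : ℝ) / N)| ≤
          Real.exp (h (b ω') (x i ω') + c₁)) →
    (∀ i < n, ∀ ω, 0 < p ω → M (b ω) (l i ω) - D * Real.log N ≤ h (b ω) (x i ω) + c₁) →
    (∀ i < n, ∀ ω, 0 < p ω → h (b ω) (x (i + 1) ω) ≤ M (b ω) (l i ω) + c₁) →
    (∀ i < n, CH p b (fun ω => (x i ω, (l i ω, y ω))) = CH p b (fun ω => (x i ω, y ω))) →
    (∀ i < n, CH p b (fun ω => (l i ω, (x (i + 1) ω, y ω))) =
      CH p b (fun ω => (l i ω, y ω))) →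
    (∀ i < n, Real.log N - CH p (fun ω => τ (x i ω)) (fun ω => (l i ω, y ω)) ≤ e) →
    Ex p (fun ω => h (b ω) (x n ω)) ≤ Ex p (fun ω => h (b ω) (x 0 ω)) +
      2 * D * ((CH p b y - CH p b (fun ω => (x 0 ω, y ω))) + n * (e + C)) + n * (2 * c₁)

theorem bdi_thm : BDIStmt := by
  intro D
  obtain ⟨C, hC, hC'⟩ := stp D
  refine ⟨C, hC, ?_⟩
  intro Ω X L B Y ι _ p N n x l b y τ h M P c₁ e hp h1 h2 h3 h4 h5 h6 h7
  have hp0 := hp.nonneg
  have step : ∀ i ∈ range n, Ex p (fun ω => h (b ω) (x (i + 1) ω)) -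
      Ex p (fun ω => h (b ω) (x i ω)) ≤
      2 * D * (CH p (fun ω => τ (x i ω)) (fun ω => (l i ω, y ω)) -
        CH p (fun ω => τ (x i ω)) (fun ω => (l i ω, (b ω, y ω)))) +
        (2 * D * (e + C) + 2 * c₁) := by
    intro i hi
    have hi' := Finset.mem_range.mp hi
    have a1 := hC' Ω X L B Y ι p N (x i) (x (i + 1)) (l i) b y (fun ω => τ (x i ω)) h M P c₁ hp
      (h1 i hi') (h2 i hi') (h3 i hi') (h4 i hi')
    have a2 := h7 i hi'
    have a3 : (0 : ℝ) ≤ 2 * D := by positivity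
    have a4 := mul_le_mul_of_nonneg_left a2 a3
    linarith
  have hs := Finset.sum_le_sum step
  rw [Finset.sum_range_sub (fun i => Ex p (fun ω => h (b ω) (x i ω))), Finset.sum_add_distrib,
    ← Finset.mul_sum, Finset.sum_const, Finset.card_range, nsmul_eq_mul] at hs
  have hb := bui_thm Ω X L B Y ℕ p n x l b y (fun _ => τ) hp h5 h6
  have a3 : (0 : ℝ) ≤ 2 * D := by positivity
  have hb' := mul_le_mul_of_nonneg_left hb a3
  have hcond : CH p b (fun ω => (x n ω, y ω)) ≤ CH p b y :=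
    CH_mono_cond hp0 (fun ω ω' _ _ h => (Prod.ext_iff.mp h).2)
  have hcond' := mul_le_mul_of_nonneg_left hcond a3
  linarith

/-- The forward budget for a chain in a family of leaves. -/
lemma goc (n D : ℕ) (C₁ : ℝ) (hC₁ : 1 ≤ C₁) :
    ∃ C : ℝ, 0 ≤ C ∧ ∀ (Ω Λ Ξ W Γ Z U : Type) [Fintype Ω] [Fintype W] [Fintype U]
      (p : Ω → ℝ) (lam : Ω → Λ) (x : Ω → Ξ) (T : Ξ → ℕ) (pos : Ξ → Option (Fin n) → ℕ)
      (A B : Λ → Option (Fin n) → ℝ) (zx : Ξ → Z) (zl : Λ → Z) (M N : ℕ) (q : W → ℝ)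
      (o o' : ℕ → W → Ω) (l : ℕ → W → Λ) (y : ℕ → W → Ξ) (Q : U → ℝ) (f : U → W)
      (c : U → Γ) (P : Γ → MvPolynomial (Option (Fin n)) ℝ) (e₁ : ℝ), 1 ≤ M →
      Leaf n M C₁ p lam x T pos A B → IsChain p lam x N q o o' l y →
      (∀ ω, 0 < p ω → zx (x ω) = zl (lam ω)) → IsLaw Q → Marg Q q f →
      (∀ (S : Type) (a : W → S), CI Q (fun u => a (f u)) c (fun u => y 0 (f u))) →
      (∀ u, 0 < Q u → P (c u) ≠ 0 ∧ (P (c u)).totalDegree ≤ D) →
      Real.log M - CH p (fun ω => T (x ω)) lam ≤ e₁ →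
      Ex Q (fun u => Real.log (Psi (P (c u)) (C₁ / M) (rp M pos (y N (f u))))) ≤
        Ex Q (fun u => Real.log (Psi (P (c u)) (C₁ / M) (rp M pos (y 0 (f u))))) +
          2 * D * ((CH Q c (fun u => zx (y 0 (f u))) - CH Q c (fun u => y 0 (f u))) +
            N * (e₁ + C)) + N * C := by
  classical
  obtain ⟨c₁, hc₁, hlin⟩ := lin_thm n D C₁ hC₁
  obtain ⟨C, hC, hbud⟩ := bdi_thm D
  refine ⟨C + 2 * c₁, by positivity, ?_⟩
  intro Ω Λ Ξ W Γ Z U _ _ _ p lam x T pos A B zx zl M N q o o' l y Q f c P e₁ hM hL hch hz hQ hf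
    hci hP he₁
  have hM0 : 0 < M := hM
  have hq0 := hch.isLaw.nonneg
  have hQ0 := hQ.nonneg
  have hfp : ∀ u, 0 < Q u → 0 < q (f u) := fun u hu => hf.pos hQ0 hu
  -- the label is constant along the chain
  have hlab1 : ∀ i < N, ∀ w, 0 < q w → zx (y i w) = zl (l i w) := by
    intro i hi w hw
    have h1 := (hch.marg i hi).pos hq0 hw
    rw [← hch.start w hw i hi, ← hch.line w hw i hi]
    exact hz _ h1
  have hlab2 : ∀ i < N, ∀ w, 0 < q w → zx (y (i + 1) w) = zl (l i w) := by
    intro i hi w hw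
    have h1 := (hch.marg' i hi).pos hq0 hw
    rw [← hch.stop w hw i hi, ← hch.line' w hw i hi]
    exact hz _ h1
  have hlab : ∀ i ≤ N, ∀ w, 0 < q w → zx (y i w) = zx (y 0 w) := by
    intro i
    induction i with
    | zero => intro _ _ _; rfl
    | succ i ih =>
      intro hi w hw
      rw [hlab2 i (by omega) w hw, ← hlab1 i (by omega) w hw]
      exact ih (by omega) w hw
  -- the polynomial along the line
  have hex : ∀ (P : MvPolynomial (Option (Fin n)) ℝ) (a b : Option (Fin n) → ℝ),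
      ∃ (m : ℝ) (g : Polynomial ℝ), P ≠ 0 → P.totalDegree ≤ D → (∀ i, |b i| ≤ C₁) →
      g.natDegree ≤ D ∧ (∃ s ∈ Set.Icc (0 : ℝ) 1, Real.exp m ≤ |g.eval s|) ∧
      ∀ t ∈ Set.Icc (0 : ℝ) 1, ∀ z : Option (Fin n) → ℝ,
        (∀ i, |z i - (a i + t * b i)| ≤ C₁ / M) →
        |g.eval t| ≤ Real.exp (Real.log (Psi P (C₁ / M) z) + c₁) ∧
        m - D * Real.log M ≤ Real.log (Psi P (C₁ / M) z) + c₁ ∧
        Real.log (Psi P (C₁ / M) z) ≤ m + c₁ := by
    intro P a b
    by_cases h : P ≠ 0 ∧ P.totalDegree ≤ D ∧ ∀ i, |b i| ≤ C₁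
    · obtain ⟨m, g, hg⟩ := hlin M P a b hM h.1 h.2.1 h.2.2
      exact ⟨m, g, fun _ _ _ => hg⟩
    · exact ⟨0, 0, fun h1 h2 h3 => absurd ⟨h1, h2, h3⟩ h⟩
  choose mm gg hmg using hex
  have key := hbud U Ξ Λ Γ Z Unit Q M N (fun i u => y i (f u)) (fun i u => l i (f u)) c
    (fun u => zx (y 0 (f u)))
    (fun ξ => T ξ % M) (fun b ξ => Real.log (Psi (P b) (C₁ / M) (rp M pos ξ)))
    (fun b ll => mm (P b) (A ll) (B ll)) (fun b ll _ => gg (P b) (A ll) (B ll)) c₁ e₁
    hQ
    (fun i _ w => Nat.mod_lt _ hM0)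
    (by
      intro i hi u hu
      have hw := hfp u hu
      have h1 := hP u hu
      have h2 : ∀ k, |B (l i (f u)) k| ≤ C₁ := by
        intro k
        rw [← hch.line _ hw i hi]
        exact hL.B_le _ k
      have h3 := hmg (P (c u)) (A (l i (f u))) (B (l i (f u))) h1.1 h1.2 h2
      refine ⟨(), h3.1, h3.2.1, ?_⟩
      intro u' hu' hb hl
      have hw' := hfp u' hu'
      have h4 := near_line hL (o i (f u'))
      rw [hch.start _ hw' i hi, hch.line _ hw' i hi] at h4
      have h5 : T (y i (f u')) % M = T (y i (f u')) := by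
        refine Nat.mod_eq_of_lt ?_
        rw [← hch.start _ hw' i hi]
        exact hL.T_lt _
      rw [h5]
      rw [← hb, ← hl]
      have h6 := hmg (P (c u')) (A (l i (f u'))) (B (l i (f u'))) (hP u' hu').1 (hP u' hu').2
        (by rw [hl]; exact h2)
      exact (h6.2.2 _ h4.1 _ h4.2).1)
    (by
      intro i hi u hu
      have hw := hfp u hu
      have h1 := hP u hu
      have h2 : ∀ k, |B (l i (f u)) k| ≤ C₁ := by
        intro k
        rw [← hch.line _ hw i hi]
        exact hL.B_le _ k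
      have h3 := hmg (P (c u)) (A (l i (f u))) (B (l i (f u))) h1.1 h1.2 h2
      have h4 := near_line hL (o i (f u))
      rw [hch.start _ hw i hi, hch.line _ hw i hi] at h4
      exact (h3.2.2 _ h4.1 _ h4.2).2.1)
    (by
      intro i hi u hu
      have hw := hfp u hu
      have h1 := hP u hu
      have h2 : ∀ k, |B (l i (f u)) k| ≤ C₁ := by
        intro k
        rw [← hch.line _ hw i hi]
        exact hL.B_le _ k
      have h3 := hmg (P (c u)) (A (l i (f u))) (B (l i (f u))) h1.1 h1.2 h2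
      have h4 := near_line hL (o' i (f u))
      rw [hch.stop _ hw i hi, hch.line' _ hw i hi] at h4
      exact (h3.2.2 _ h4.1 _ h4.2).2.2)
    (by
      intro i hi
      have h1 : CI q (y 0) (l i) (y i) := by
        refine CI_of_le hq0 ?_
        rw [← hch.ci1 i hi]
        refine CH_mono_cond hq0 ?_
        intro ω ω' _ _ h
        simp only [Prod.mk.injEq] at h ⊢
        tauto
      have h2 : CI Q (fun u => y 0 (f u)) (fun u => l i (f u)) (fun u => y i (f u)) := h1.marg hf
      have h3 : CI Q c (fun u => l i (f u)) (fun u => y i (f u)) :=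
        h2.ext hQ0 (hci _ (fun w => (y i w, l i w)))
      have h4 : CI Q c (fun u => l i (f u)) (fun u => (y i (f u), zx (y 0 (f u)))) :=
        h3.congr hQ0 (by
        intro u u' a b h
        have e1 : y i (f u) = y i (f u') := h
        exact Prod.ext e1 (by
          change zx (y 0 (f u)) = zx (y 0 (f u'))
          rw [← hlab i hi.le _ (hfp u a), ← hlab i hi.le _ (hfp u' b), e1])) (by
        intro ω ω' _ _ h
        exact (Prod.ext_iff.mp h).1)
      unfold CI at h4
      rw [← h4]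
      refine CH_congr hQ0 (fun _ _ _ _ h => (Prod.ext_iff.mp h).1)
        (fun _ _ _ _ h => (Prod.ext_iff.mp h).1) ?_ ?_ <;>
      · intro ω ω' _ _ h
        simp only [Prod.mk.injEq] at h ⊢
        tauto)
    (by
      intro i hi
      have h1 : CI q (y 0) (y (i + 1)) (l i) := by
        refine CI_of_le hq0 ?_
        rw [← hch.ci2 i hi]
        refine CH_mono_cond hq0 ?_
        intro ω ω' _ _ h
        simp only [Prod.mk.injEq] at h ⊢
        tauto
      have h2 : CI Q (fun u => y 0 (f u)) (fun u => y (i + 1) (f u)) (fun u => l i (f u)) :=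
        h1.marg hf
      have h3 : CI Q c (fun u => y (i + 1) (f u)) (fun u => l i (f u)) :=
        h2.ext hQ0 (hci _ (fun w => (l i w, y (i + 1) w)))
      have h4 : CI Q c (fun u => y (i + 1) (f u)) (fun u => (l i (f u), zx (y 0 (f u)))) :=
        h3.congr hQ0 (by
        intro u u' a b h
        have e1 : l i (f u) = l i (f u') := h
        exact Prod.ext e1 (by
          change zx (y 0 (f u)) = zx (y 0 (f u'))
          rw [← hlab i hi.le _ (hfp u a), ← hlab i hi.le _ (hfp u' b),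
            hlab1 i hi _ (hfp u a), hlab1 i hi _ (hfp u' b), e1])) (by
        intro ω ω' _ _ h
        exact (Prod.ext_iff.mp h).1)
      unfold CI at h4
      rw [← h4]
      refine CH_congr hQ0 (fun _ _ _ _ h => (Prod.ext_iff.mp h).1)
        (fun _ _ _ _ h => (Prod.ext_iff.mp h).1) ?_ ?_ <;>
      · intro ω ω' _ _ h
        simp only [Prod.mk.injEq] at h ⊢
        tauto)
    (by
      intro i hi
      have h1 : CH q (fun w => T (y i w) % M) (fun w => (l i w, zx (y 0 w))) =
          CH p (fun ω => T (x ω)) lam := by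
        rw [← (hch.marg i hi).CH (fun ω => T (x ω)) lam]
        have e1 : ∀ w, 0 < q w → T (y i w) % M = T (x (o i w)) := by
          intro w hw
          rw [hch.start w hw i hi]
          refine Nat.mod_eq_of_lt ?_
          rw [← hch.start w hw i hi]
          exact hL.T_lt _
        refine CH_congr hq0 ?_ ?_ ?_ ?_
        · intro ω ω' a b h
          have := (Prod.ext_iff.mp h).1
          simp only at this
          rw [e1 ω a, e1 ω' b] at this
          exact this
        · intro ω ω' a b h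
          have := (Prod.ext_iff.mp h).1
          simp only at this ⊢
          rw [e1 ω a, e1 ω' b]
          exact this
        · intro ω ω' a b h
          have := (Prod.ext_iff.mp h).1
          simp only at this ⊢
          rw [hch.line ω a i hi, hch.line ω' b i hi]
          exact this
        · intro ω ω' a b h
          have h' : lam (o i ω) = lam (o i ω') := h
          rw [hch.line ω a i hi, hch.line ω' b i hi] at h'
          exact Prod.ext h' (by
            change zx (y 0 ω) = zx (y 0 ω')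
            rw [← hlab i hi.le _ a, ← hlab i hi.le _ b, hlab1 i hi _ a, hlab1 i hi _ b, h'])
      have h2 : CH Q (fun u => T (y i (f u)) % M) (fun u => (l i (f u), zx (y 0 (f u)))) =
          CH q (fun w => T (y i w) % M) (fun w => (l i w, zx (y 0 w))) :=
        hf.CH (fun w => T (y i w) % M) (fun w => (l i w, zx (y 0 w)))
      rw [h2, h1]
      exact he₁)
  refine key.trans ?_
  have h1 : CH Q c (fun u => (y 0 (f u), zx (y 0 (f u)))) = CH Q c (fun u => y 0 (f u)) := by
    refine CH_congr hQ0 (fun _ _ _ _ h => (Prod.ext_iff.mp h).1)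
      (fun _ _ _ _ h => (Prod.ext_iff.mp h).1) ?_ ?_
    · intro u u' _ _ h
      exact (Prod.ext_iff.mp h).1
    · intro u u' _ _ h
      have e1 : y 0 (f u) = y 0 (f u') := h
      exact Prod.ext e1 (congrArg zx e1)
  rw [h1]
  have h2 : (0 : ℝ) ≤ 2 * D := by positivity
  have h4 : (0 : ℝ) ≤ N := Nat.cast_nonneg N
  have h5 : (0 : ℝ) ≤ N * c₁ := mul_nonneg h4 hc₁
  have h6 : (0 : ℝ) ≤ N * C := mul_nonneg h4 hC
  have h7 : (0 : ℝ) ≤ 2 * D * (N * c₁) := mul_nonneg h2 h5
  nlinarith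

end Pool.KS3
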