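import Pool.Agent.H82.KSP.NLI

/-!
# LEMMA J, small difference

`K_JUMP_helper79.md`, section 2: if for most pairs of labels of one line half of the points of the
second leaf are near the zero set of the polynomial of the first label, then there is a closed
label on the long window at the truncated precision, with a linear loss.
-/

set_option autoImplicit false

namespace Pool.KS3

open Finset Real Module
open Pool.Agent.H49.Ent Pool.Agent.H32.Dense Pool.STK Pool.KAF Pool.KAL Pool.KST

/-- Half of the points of the leaf `ζ₂` are near the zero set of the polynomial of `ζ₁`. -/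
def Hit {Ω Ξ Z : Type} [Fintype Ω] {n : ℕ} (D : ℕ) (K s h : ℝ) (M : ℕ) (p : Ω → ℝ) (x : Ω → Ξ)
    (zx : Ξ → Z) (pos : Ξ → Option (Fin n) → ℕ)
    (Qf : Z → MvPolynomial.restrictTotalDegree (Option (Fin n)) ℝ D) (ζ₁ ζ₂ : Z) : Prop :=
  1 / 2 * law p (fun ω => zx (x ω)) ζ₂ ≤ ∑ ω, (open Classical in if zx (x ω) = ζ₂ ∧
    K * PsiC 1 (Qf ζ₁ : MvPolynomial (Option (Fin n)) ℝ) h (rp M pos (x ω)) ≤
      PsiC s (Qf ζ₁ : MvPolynomial (Option (Fin n)) ℝ) h (rp M pos (x ω)) then p ω else 0)

/-- The error is monotone. -/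
lemma RR_mono {n L L' κ γ N : ℕ} {ε e₁ e₃ e₃' : ℝ} (hL : L ≤ L') (he : e₃ ≤ e₃') (hε : 0 ≤ ε) :
    RR n L κ γ N ε e₁ e₃ ≤ RR n L' κ γ N ε e₁ e₃' := by
  unfold RR
  have hpw := pw_nonneg n N
  have h1 : (L : ℝ) ≤ L' := by exact_mod_cast hL
  have h2 := mul_le_mul_of_nonneg_left (add_le_add h1 he) hpw
  have h3 : (L : ℝ) / κ ≤ L' / κ := div_le_div_of_nonneg_right h1 (Nat.cast_nonneg _)
  have h4 := mul_le_mul_of_nonneg_left h1 hε
  linarith

section

variable {n a L L' qd : ℕ} {C₀ : ℝ} {k₀ : ℕ} {κ γ N : ℕ} {δ ε e₁ e₃ : ℝ}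
    {Ω Λ Ξ Ξt Z Zt β : Type} [Fintype Ω] {p : Ω → ℝ} {lam : Ω → Λ} {x : Ω → Ξ} {T : Ξ → ℕ}
    {pos : Ξ → Option (Fin n) → ℕ} {A B : Λ → Option (Fin n) → ℝ} {zx : Ξ → Z}
    {zl : Λ → ℕ → Z} {cz : Z → Option (Fin n) → ℕ} {G : Z → MvPolynomial (Fin n) ℝ}
    {e : Ξ → ℝ}

/-- The number of positions over a leaf cube. -/
lemma CH_bas_le_cell {W S : Type} [Fintype W] {r : W → ℝ} (hr : IsLaw r) (b : W → Fin n → ℕ)
    (c : W → S) (cc : S → Fin n → ℕ) (hb : ∀ w, 0 < r w → ∀ i, b w i / 2 ^ L = cc (c w) i) :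
    CH r b c ≤ n * (L * Real.log 2) := by
  classical
  have hr0 := hr.nonneg
  have h1 := CH_le_card hr0 hr.sum_one b c
    (fun s => Fintype.piFinset (fun i : Fin n => (Finset.range (2 ^ L)).image
      (fun j => 2 ^ L * cc s i + j))) (by
      intro w hw
      rw [Fintype.mem_piFinset]
      intro i
      rw [Finset.mem_image]
      refine ⟨b w i % 2 ^ L, ?_, ?_⟩
      · rw [Finset.mem_range]
        exact Nat.mod_lt _ (Nat.two_pow_pos L)
      · rw [← hb w hw i]
        exact Nat.div_add_mod _ _)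
  refine h1.trans ?_
  have h2 : Ex r (fun _ : W => (n : ℝ) * (L * Real.log 2)) = n * (L * Real.log 2) :=
    Ex_const hr.sum_one _
  rw [← h2]
  refine Ex_mono hr0 fun w hw => ?_
  rw [Fintype.card_piFinset]
  have h3 : (((∏ i : Fin n, ((Finset.range (2 ^ L)).image
      (fun j => 2 ^ L * cc (c w) i + j)).card : ℕ) : ℕ) : ℝ) ≤ (2 : ℝ) ^ (L * n) := by
    have h4 : (∏ i : Fin n, ((Finset.range (2 ^ L)).image
        (fun j => 2 ^ L * cc (c w) i + j)).card) ≤ ∏ _i : Fin n, 2 ^ L := by
      refine Finset.prod_le_prod' fun i _ => ?_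
      exact Finset.card_image_le.trans (by rw [Finset.card_range])
    rw [Finset.prod_const, Finset.card_univ, Fintype.card_fin, ← pow_mul] at h4
    exact_mod_cast h4
  have h5 : 0 < ∏ i : Fin n, ((Finset.range (2 ^ L)).image
      (fun j => 2 ^ L * cc (c w) i + j)).card := by
    refine Finset.prod_pos fun i _ => ?_
    refine Finset.card_pos.mpr (Finset.Nonempty.image ?_ _)
    exact ⟨0, by rw [Finset.mem_range]; exact Nat.two_pow_pos L⟩
  refine (Real.log_le_log (by exact_mod_cast h5) h3).trans (le_of_eq ?_)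
  rw [Real.log_pow]
  push_cast
  ring

/-- The number of positions in the long window. -/
lemma CH_bas_le {W S : Type} [Fintype W] {r : W → ℝ} (hr : IsLaw r) (b : W → Fin n → ℕ)
    (c : W → S) (hb : ∀ w, 0 < r w → ∀ i, b w i < 2 ^ L) :
    CH r b c ≤ n * (L * Real.log 2) := by
  refine (CH_bas_le_cell (L := L) hr b c (fun _ _ => 0) fun w hw i => ?_)
  exact Nat.div_eq_of_lt (hb w hw i)

/-- The truncated digits over a leaf are full. -/
lemma full_trc (h : StepH n a L C₀ k₀ κ γ N δ ε e₁ e₃ p lam x T pos A B zx zl cz G e)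
    (hL : qd + L' = L) {tr : Ξ → Ξt} {post : Ξt → Option (Fin n) → ℕ}
    (hpost : ∀ ω o, post (tr (x ω)) o = pos (x ω) o / 2 ^ qd) {d : ℝ}
    (hd : n * (L * Real.log 2) - CH p (fun ω => bas (posS pos L) (x ω)) (fun ω => zx (x ω)) ≤ d) :
    n * (L' * Real.log 2) - d ≤ CH p (fun ω => tr (x ω)) (fun ω => zx (x ω)) ∧
    n * (L * Real.log 2) - d ≤ CH p (fun ω => bas pos (x ω)) (fun ω => zx (x ω)) := by
  classical
  have hp := h.step.leaf.isLaw
  have hp0 := hp.nonneg
  have a0 : CH p (fun ω => bas (posS pos L) (x ω)) (fun ω => zx (x ω)) ≤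
      CH p (fun ω => bas pos (x ω)) (fun ω => zx (x ω)) := by
    refine CH_mono_left hp0 ?_
    intro ω ω' _ _ hh
    have h1 := (Prod.ext_iff.mp hh).1
    funext i
    have h2 : bas pos (x ω) i = bas pos (x ω') i := congrFun h1 i
    simp only [bas, posS] at h2 ⊢
    rw [h2]
  refine ⟨?_, by linarith⟩
  have a1 := CH_le_add hp0 (fun ω => bas pos (x ω)) (fun ω => tr (x ω)) (fun ω => zx (x ω))
  have a2 : CH p (fun ω => bas pos (x ω)) (fun ω => (tr (x ω), zx (x ω))) ≤
      n * (qd * Real.log 2) := by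
    refine CH_bas_le_cell (L := qd) hp _ _ (fun s i => post s.1 (some i)) fun ω _ i => ?_
    exact (hpost ω (some i)).symm
  have a3 : (L : ℝ) = qd + L' := by
    rw [← hL]
    push_cast
    ring
  rw [a3] at hd
  have a4 : n * ((qd + L') * Real.log 2) = n * (qd * Real.log 2) + n * (L' * Real.log 2) := by
    ring
  linarith

end

/-- The masked label of the truncated family. -/
theorem j2_mask (n D : ℕ) : ∃ K Cn : ℝ, 1 ≤ K ∧ 0 ≤ Cn ∧ ∀ C₀ : ℝ, 1 ≤ C₀ → ∃ Cu : ℝ, 0 ≤ Cu ∧
    ∀ (a L L' qd : ℕ) (Ω Λ Ξ Ξt Z Zt β : Type) [Fintype Ω] (p : Ω → ℝ) (lam : Ω → Λ)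
      (x : Ω → Ξ) (T : Ξ → ℕ) (pos : Ξ → Option (Fin n) → ℕ) (A B : Λ → Option (Fin n) → ℝ)
      (zx : Ξ → Z) (zl : Λ → ℕ → Z) (cz : Z → Option (Fin n) → ℕ)
      (G : Z → MvPolynomial (Fin n) ℝ) (k₀ κ γ N : ℕ) (δ ε e₁ e₃ e₃' e₅ pG s : ℝ) (e : Ξ → ℝ)
      (tr : Ξ → Ξt) (Tt : Ξt → ℕ) (post : Ξt → Option (Fin n) → ℕ) (zt : Z → Zt)
      (zv : Ξt → Zt) (czt : Zt → Option (Fin n) → ℕ) (bz : Z → β) (bl : Λ → β)
      (Qf : Z → MvPolynomial.restrictTotalDegree (Option (Fin n)) ℝ D),
      StepH n a L C₀ k₀ κ γ N δ ε e₁ e₃ p lam x T pos A B zx zl cz G e →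
      qd + L' = L → (∀ ω, Tt (tr (x ω)) = T (x ω) / 2 ^ qd) →
      (∀ ω o, post (tr (x ω)) o = pos (x ω) o / 2 ^ qd) →
      (∀ ω, zv (tr (x ω)) = zt (zx (x ω))) →
      (∀ ω, czt (zt (zx (x ω))) = cz (zx (x ω))) →
      CH p (fun ω => tr (x ω)) (fun ω => (bas post (tr (x ω)), zt (zx (x ω)))) ≤ e₃' →
      (∀ ω, 0 < p ω → bz (zx (x ω)) = bl (lam ω)) →
      CH p (fun ω => zt (zx (x ω))) (fun ω => (post (tr (x ω)), bz (zx (x ω)))) ≤ e₅ →
      0 < s → (∀ ζ, Qf ζ ≠ 0) →
      (∑ v, (open Classical in if Hit D K s (6 * C₀ / 2 ^ (a + L)) (2 ^ (a + L)) p x zx pos Qf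
        (zx (x v.1)) (zx (x v.2)) then 0 else dbl p lam v)) ≤ pG → pG ≤ 1 / 2 →
      ∃ gd : Λ × ℕ → Ω → Bool,
        (∑ v, if gd (lamS lam (fun ω => tr (x ω)) Tt L' v.1) v.2 = true then 0
          else dbl p lam v) ≤ pG ∧
        ∀ gd' : Λ × ℕ → Ω → Bool, (∀ l ω, gd' l ω = true → gd l ω = true) →
          CH (dbl p lam) (mk2 lam (fun ω => tr (x ω)) Tt L' zv gd') (fun v => zv (tr (x v.2))) -
            CH (dbl p lam) (mk2 lam (fun ω => tr (x ω)) Tt L' zv gd') (fun v => tr (x v.2)) ≤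
          4 * (n * (a * Real.log 2) + e₅ +
            Real.log ((D + 1) * (6 * C₀ / s) / 2 ^ qd + 4) + Cn) + e₃' + 6 * Real.log 2 +
            5 * (n * e₁ + Cu * (L / κ + γ + κ + 1 + ε * L)) := by
  classical
  obtain ⟨K, Cn, hK, hCn, hlist⟩ := near_list n D
  refine ⟨K, Cn, hK, hCn, ?_⟩
  intro C₀ hC₀
  have h3C : (1 : ℝ) ≤ 3 * C₀ := by linarith
  obtain ⟨Cu, hCu, hful⟩ := fulh_thm n (3 * C₀) h3C
  refine ⟨Cu, hCu, ?_⟩
  intro a L L' qd Ω Λ Ξ Ξt Z Zt β _ p lam x T pos A B zx zl cz G k₀ κ γ N δ ε e₁ e₃ e₃' e₅ pG s e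
    tr Tt post zt zv czt bz bl Qf hF hL hTt hpost hzv hczt he₃' hb he₅ hs hQf hpG hpG1
  have hp := hF.step.leaf.isLaw
  have hp0 := hp.nonneg
  have hC0 : (0 : ℝ) < C₀ := by linarith
  have hn0 : (0 : ℝ) ≤ n := Nat.cast_nonneg n
  have hl2 : 0 ≤ Real.log 2 := Real.log_nonneg (by norm_num)
  set q := dbl p lam with hqdef
  have hq0 : ∀ v, 0 ≤ q v := dbl_nonneg hp0
  have m1 : Marg q p (fun v => v.1) := dbl_fst hp0
  have m2 : Marg q p (fun v => v.2) := dbl_snd hp0
  have hq : IsLaw q := ⟨hq0, by rw [m1.sum]; exact hp.sum_one⟩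
  set h : ℝ := 6 * C₀ / 2 ^ (a + L) with hh
  have hh0 : 0 < h := by positivity
  set M : ℕ := 2 ^ (a + L) with hM
  have hM0 : 0 < M := Nat.two_pow_pos _
  have hMr : (0 : ℝ) < M := by exact_mod_cast hM0
  -- the fullness
  set d : ℝ := n * e₁ + Cu * (L / κ + γ + κ + 1 + ε * L) with hd
  have hfu : n * (L * Real.log 2) - CH p (fun ω => bas (posS pos L) (x ω)) (fun ω => zx (x ω)) ≤
      d := hful Ω (Λ × ℕ) Ξ Z p (lamS lam x T L) x (TS T L) (posS pos L)
    (AS A B zl cz a) (BS B) zx (fun l => zl l.1 l.2) L κ γ δ ε e₁ e (hF.step.small hC₀)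
    (fun ω _ => hF.step.lab ω) hF.hδ hF.he hF.hex (NCF_small hF.hnc)
    (by
      refine le_trans ?_ hF.hγ
      have h1 : (0 : ℝ) ≤ n.factorial := Nat.cast_nonneg _
      refine mul_le_mul_of_nonneg_left ?_ h1
      exact pow_le_pow_left₀ (by linarith) (by linarith) _) hF.hκ hF.he₁
  obtain ⟨hfull1, hfull2⟩ := full_trc hF hL hpost hfu
  -- the mask
  set HT : Z → Z → Prop := fun ζ₁ ζ₂ => Hit D K s h M p x zx pos Qf ζ₁ ζ₂ with hHT
  set gd : Λ × ℕ → Ω → Bool := fun l ω => decide (HT (zx (x ω)) (zl l.1 l.2)) with hgd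
  have hlam : lamS lam (fun ω => tr (x ω)) Tt L' = lamS lam x T L :=
    lamS_trc (tr := tr) (Tt := Tt) hL hTt
  have hgv : ∀ v : Ω × Ω, gd (lamS lam (fun ω => tr (x ω)) Tt L' v.1) v.2 = true ↔
      HT (zx (x v.2)) (zx (x v.1)) := by
    intro v
    rw [hlam]
    simp only [hgd, decide_eq_true_eq]
    rw [show zl (lamS lam x T L v.1).1 (lamS lam x T L v.1).2 = zx (x v.1) from
      (hF.step.lab v.1).symm]
  refine ⟨gd, ?_, ?_⟩
  · have h1 := (dbl_symm p lam).ex (fun v => if HT (zx (x v.1)) (zx (x v.2)) then (0 : ℝ) else 1)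
    unfold Ex at h1
    simp only [mul_ite, mul_zero, mul_one] at h1
    refine le_trans (le_of_eq ?_) hpG
    rw [← hqdef] at h1
    refine Eq.trans ?_ (h1.trans ?_)
    · refine Finset.sum_congr rfl fun v _ => ?_
      by_cases c : HT (zx (x v.2)) (zx (x v.1))
      · rw [if_pos ((hgv v).mpr c), if_pos c]
      · rw [if_neg (fun h' => c ((hgv v).mp h')), if_neg c]
    · refine Finset.sum_congr rfl fun v _ => ?_
      exact ite_dec _ _ _ _ _
  · intro gd' hle
    have hmi := mi_of_mask hp lam (fun ω => tr (x ω)) Tt L' zv (fun ω => zx (x ω)) (by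
      intro ω ω' _ _ hh
      have h1 : zx (x ω) = zx (x ω') := hh
      change zv (tr (x ω)) = zv (tr (x ω'))
      rw [hzv, hzv, h1]) gd gd' hle
    rw [← hqdef] at hmi
    refine hmi.trans ?_
    -- the truncated points over the truncated leaf
    have b1 : CH p (fun ω => tr (x ω)) (fun ω => zv (tr (x ω))) ≤
        n * (L' * Real.log 2) + e₃' := by
      have c1 := CH_le_add hp0 (fun ω => tr (x ω)) (fun ω => bas post (tr (x ω)))
        (fun ω => zv (tr (x ω)))
      have c2 : CH p (fun ω => bas post (tr (x ω))) (fun ω => zv (tr (x ω))) ≤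
          n * (L' * Real.log 2) := by
        refine CH_bas_le_cell (L := L') hp _ _ (fun ζ i => czt ζ (some i)) fun ω _ i => ?_
        have c3 := (hF.step.trc hC₀ hL hTt hpost hzv hczt).cell ω (some i)
        exact c3
      have c3 : CH p (fun ω => tr (x ω)) (fun ω => (bas post (tr (x ω)), zv (tr (x ω)))) ≤
          e₃' := by
        have e1 : (fun ω => (bas post (tr (x ω)), zv (tr (x ω)))) =
            fun ω => (bas post (tr (x ω)), zt (zx (x ω))) := by
          funext ω
          rw [hzv]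
        rw [e1]
        exact he₃'
      linarith
    -- the masked label
    set F : Ω × Ω → Option Zt := fun v => if HT (zx (x v.1)) (zx (x v.2)) then
      some (zt (zx (x v.2))) else none with hFd
    have b2 : CH q (mk2 lam (fun ω => tr (x ω)) Tt L' zv gd) (fun v => zx (x v.2)) =
        CH q F (fun v => zx (x v.1)) := by
      rw [← (dbl_symm p lam).CH F (fun v => zx (x v.1))]
      have e1 : mk2 lam (fun ω => tr (x ω)) Tt L' zv gd = fun v : Ω × Ω => F (v.2, v.1) := by
        funext v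
        simp only [mk2, hFd]
        by_cases c : HT (zx (x v.2)) (zx (x v.1))
        · rw [if_pos ((hgv v).mpr c), if_pos c, hzv]
        · rw [if_neg (fun h' => c ((hgv v).mp h')), if_neg c]
      rw [e1]
    rw [b2]
    have hG : 1 / 2 ≤ law q (fun v => HT (zx (x v.1)) (zx (x v.2))) True := by
      rw [law_ev]
      have h1 : (∑ v, if HT (zx (x v.1)) (zx (x v.2)) then q v else 0) +
          (∑ v, if HT (zx (x v.1)) (zx (x v.2)) then 0 else q v) = 1 := by
        rw [← Finset.sum_add_distrib, ← hq.sum_one]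
        refine Finset.sum_congr rfl fun v _ => ?_
        split_ifs <;> ring
      have h2 : (∑ v, if HT (zx (x v.1)) (zx (x v.2)) then 0 else q v) ≤ pG :=
        le_trans (le_of_eq (Finset.sum_congr rfl fun v _ => ite_dec _ _ _ _ _)) hpG
      linarith
    have b3 := mask_H hq hp (f := fun v : Ω × Ω => zx (x v.2)) (g := fun ω => zx (x ω))
      (fun z => m2.law (fun ω => zx (x ω)) z) (fun v => zx (x v.1)) (fun v => zt (zx (x v.2)))
      (fun v => HT (zx (x v.1)) (zx (x v.2)))
      (fun v ω => K * PsiC 1 (Qf (zx (x v.1)) : MvPolynomial (Option (Fin n)) ℝ) h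
        (rp M pos (x ω)) ≤
        PsiC s (Qf (zx (x v.1)) : MvPolynomial (Option (Fin n)) ℝ) h (rp M pos (x ω)))
      (by
        intro v _ hv
        refine le_trans hv (le_of_eq ?_)
        exact Finset.sum_congr rfl fun ω _ => ite_dec _ _ _ _ _)
      hG (fun ω => bas pos (x ω)) (n * (L * Real.log 2)) d
      (e₅ + (Cn + Real.log ((D + 1) * (6 * C₀ / s) / 2 ^ qd + 4))) (n * (a * Real.log 2))
      (by positivity)
      (by
        set r := glue q p (fun v : Ω × Ω => zx (x v.2)) (fun ω => zx (x ω)) with hrd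
        have hr0 : ∀ w, 0 ≤ r w := glue_nonneg hq0 hp0
        have n1 : Marg r q (fun w => w.1) := marg_fst hq0 (fun z => m2.law (fun ω => zx (x ω)) z)
        have n2 : Marg r p (fun w => w.2) := marg_snd hp0 (fun z => m2.law (fun ω => zx (x ω)) z)
        have hrl : IsLaw r := ⟨hr0, by rw [n1.sum]; exact hq.sum_one⟩
        have hll : 0 ≤ Real.log ((D + 1) * (6 * C₀ / s) / 2 ^ qd + 4) := by
          refine Real.log_nonneg ?_
          have : 0 ≤ ((D : ℝ) + 1) * (6 * C₀ / s) / 2 ^ qd := by positivity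
          linarith
        have he50 : 0 ≤ e₅ := le_trans (CH_nonneg hp0 _ _) he₅
        set E : (Ω × Ω) × Ω → Prop := fun w => HT (zx (x w.1.1)) (zx (x w.1.2)) ∧
          K * PsiC 1 (Qf (zx (x w.1.1)) : MvPolynomial (Option (Fin n)) ℝ) h
            (rp M pos (x w.2)) ≤
          PsiC s (Qf (zx (x w.1.1)) : MvPolynomial (Option (Fin n)) ℝ) h
            (rp M pos (x w.2)) with hEd
        rcases (law_nonneg hr0 E True).eq_or_lt with h0 | h0
        · rw [← h0, zero_mul]
          linarith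
        have hE1 : law r E True ≤ 1 := by
          have := law_le_total hr0 E True
          rwa [hrl.sum_one] at this
        set rE := cond r E True with hrE
        have hrEl : IsLaw rE := isLaw_ev hrl h0
        have hrE0 := hrEl.nonneg
        have k1 := CH_le_add hrE0 (fun w : (Ω × Ω) × Ω => zt (zx (x w.1.2)))
          (fun w => pos (x w.2) none / 2 ^ qd) (fun w => (zx (x w.1.1), bas pos (x w.2)))
        have k2 : CH rE (fun w => pos (x w.2) none / 2 ^ qd)
            (fun w => (zx (x w.1.1), bas pos (x w.2))) ≤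
            Cn + Real.log ((D + 1) * (6 * C₀ / s) / 2 ^ qd + 4) := by
          have l1 := hlist ((Ω × Ω) × Ω) (Z × (Fin n → ℕ)) rE
            (fun w => (zx (x w.1.1), bas pos (x w.2)))
            (fun γ => (Qf γ.1 : MvPolynomial (Option (Fin n)) ℝ)) (fun γ i => (γ.2 i : ℝ) / M)
            (fun w => pos (x w.2) none) M qd h s hrEl hM0 (fun w => hF.step.leaf.pos_lt w.2 none)
            (fun γ => ⟨fun hh => hQf γ.1 (Subtype.ext hh),
              (MvPolynomial.mem_restrictTotalDegree _ _ _).mp (Qf γ.1).2⟩) hh0 hs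
            (by
              intro w hw
              have h1 := ((ev_pos hr0).mp hw).2.2
              have h2 : (fun o : Option (Fin n) => o.elim ((pos (x w.2) none : ℝ) / M)
                  (fun i => (bas pos (x w.2) i : ℝ) / M)) = rp M pos (x w.2) := by
                funext o
                cases o <;> rfl
              simp only
              rw [h2]
              exact h1)
          refine l1.trans (le_of_eq ?_)
          have h3 : (D + 1) * (h / s) * M / 2 ^ qd = (D + 1) * (6 * C₀ / s) / 2 ^ qd := by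
            have h4 : h * M = 6 * C₀ := by
              rw [hh, hM]
              push_cast
              field_simp
            rw [← h4]
            ring
          rw [h3]
        have k3 : CH rE (fun w : (Ω × Ω) × Ω => zt (zx (x w.1.2)))
            (fun w => (pos (x w.2) none / 2 ^ qd, (zx (x w.1.1), bas pos (x w.2)))) ≤
            CH rE (fun w : (Ω × Ω) × Ω => zt (zx (x w.1.2)))
              (fun w => (post (tr (x w.2)), bz (zx (x w.2)))) := by
          refine CH_mono_cond hrE0 ?_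
          intro w w' hw hw' hh
          simp only [Prod.mk.injEq] at hh ⊢
          obtain ⟨g1, g2, g3⟩ := hh
          have hb' : ∀ u : (Ω × Ω) × Ω, 0 < rE u → bz (zx (x u.2)) = bz (zx (x u.1.1)) := by
            intro u hu
            have r1 := ((ev_pos hr0).mp hu).1
            obtain ⟨r2, r3, r4⟩ := (glue_pos_iff hq0 hp0 u).mp r1
            have r5 : bz (zx (x u.2)) = bz (zx (x u.1.2)) := by rw [r4]
            rw [r5, hb _ (m2.pos hq0 r2), hb _ (m1.pos hq0 r2)]
            rw [dbl_eq hp0 r2]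
          refine ⟨?_, ?_⟩
          · funext o
            rw [hpost, hpost]
            cases o with
            | none => exact g1
            | some i =>
              have := congrFun g3 i
              simp only [bas] at this
              rw [this]
          · rw [hb' w hw, hb' w' hw', g2]
        have k4 := CH_ev_le hr0 E (fun w : (Ω × Ω) × Ω => zt (zx (x w.1.2)))
              (fun w => (post (tr (x w.2)), bz (zx (x w.2))))
        have k5 : CH r (fun w : (Ω × Ω) × Ω => zt (zx (x w.1.2)))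
              (fun w => (post (tr (x w.2)), bz (zx (x w.2)))) =
            CH p (fun ω => zt (zx (x ω))) (fun ω => (post (tr (x ω)), bz (zx (x ω)))) := by
          rw [← n2.CH (fun ω => zt (zx (x ω))) (fun ω => (post (tr (x ω)), bz (zx (x ω))))]
          have r4 : ∀ u, 0 < r u → zx (x u.1.2) = zx (x u.2) := fun u hu =>
            ((glue_pos_iff hq0 hp0 u).mp hu).2.2
          refine CH_congr hr0 ?_ ?_ (fun _ _ _ _ h => h) (fun _ _ _ _ h => h)
          · intro u u' hu hu' h
            have h1 := (Prod.ext_iff.mp h).1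
            simp only at h1 ⊢
            rw [← r4 u hu, ← r4 u' hu']
            exact h1
          · intro u u' hu hu' h
            have h1 := (Prod.ext_iff.mp h).1
            simp only at h1 ⊢
            rw [r4 u hu, r4 u' hu']
            exact h1
        have k6 := mul_le_mul_of_nonneg_left (k1.trans (add_le_add k2 k3)) h0.le
        have k7 : law r E True * (Cn + Real.log ((D + 1) * (6 * C₀ / s) / 2 ^ qd + 4)) ≤
            Cn + Real.log ((D + 1) * (6 * C₀ / s) / 2 ^ qd + 4) :=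
          mul_le_of_le_one_left (by linarith) hE1
        rw [mul_add] at k6
        refine k6.trans ?_
        linarith)
      (by
        intro E b hEb
        have hr0 := glue_nonneg (Z₁ := fun v : Ω × Ω => zx (x v.2))
          (Z₂ := fun ω => zx (x ω)) hq0 hp0
        have hl : IsLaw (cond (glue q p (fun v : Ω × Ω => zx (x v.2)) (fun ω => zx (x ω))) E b) :=
          ⟨cond_nonneg hr0 _ _, sum_cond _ E hEb⟩
        refine (CH_bas_le (L := a + L) hl _ _ fun w _ i =>
          hF.step.leaf.pos_lt w.2 (some i)).trans (le_of_eq ?_)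
        push_cast
        ring)
      (by
        intro E b hEb
        have hr0 := glue_nonneg (Z₁ := fun v : Ω × Ω => zx (x v.2))
          (Z₂ := fun ω => zx (x ω)) hq0 hp0
        have hl : IsLaw (cond (glue q p (fun v : Ω × Ω => zx (x v.2)) (fun ω => zx (x ω))) E b) :=
          ⟨cond_nonneg hr0 _ _, sum_cond _ E hEb⟩
        refine CH_bas_le_cell (L := L) hl _ _ (fun t i => cz t.1 (some i)) fun w hw i => ?_
        have h1 := ((cond_pos_iff hr0 E b w).mp hw).1
        have h2 : zx (x w.1.2) = zx (x w.2) := ((glue_pos_iff hq0 hp0 w).mp h1).2.2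
        have h3 := hF.step.cell w.2 (some i)
        change pos (x w.2) (some i) / 2 ^ L = cz (zx (x w.1.2)) (some i)
        rw [h2]
        exact h3)
      (by linarith)
    linarith

end Pool.KS3
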