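import Pool.Agent.H82.KSP.J2
import Pool.Agent.H82.KSP.J2P

/-!
# Small difference: most pairs hit
-/

set_option autoImplicit false

namespace Pool.KS3

open Finset Real
open Pool.Agent.H49.Ent Pool.Agent.H32.Dense Pool.STK Pool.KAF Pool.KAL Pool.KST

theorem rik : RIKStmt := rik_thm rmg_thm gvi_thm

/-- Small values are rare under a law which is almost uniform on the grid. -/
lemma rik_bad (n D : ℕ) : ∃ (K : ℕ) (C : ℝ), 1 ≤ K ∧ 0 ≤ C ∧ ∀ (Ω : Type) [Fintype Ω] (q : Ω → ℝ)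
    (N : ℕ) (Y : Ω → Fin n → Fin N) (P : MvPolynomial (Fin n) ℝ) (S τ : ℝ), IsLaw q →
    0 < N → P.totalDegree ≤ D → 0 ≤ S →
    (∀ s ∈ cube (fun _ : Fin n => (0 : ℝ)) 1, |MvPolynomial.eval s P| ≤ S) →
    (∃ s ∈ cube (fun _ : Fin n => (0 : ℝ)) 1, |MvPolynomial.eval s P| = S) →
    0 < τ → τ ≤ K * Real.log N →
    τ * (∑ ω, (open Classical in if
      |MvPolynomial.eval (fun i => ((Y ω i : ℕ) : ℝ) / N) P| < Real.exp (-τ) * S then q ω
        else 0)) ≤ K * ((n * Real.log N - H q Y) + C) := by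
  classical
  obtain ⟨C, hC, hrik⟩ := rik n D (2 * D + 1) (by omega)
  refine ⟨2 * D + 1, C, by omega, hC, ?_⟩
  intro Ω _ q N Y P S τ hq hN hP hS0 hSle hSe hτ hτN
  have hNr : (0 : ℝ) < N := by exact_mod_cast hN
  have hN1 : (1 : ℝ) ≤ N := by exact_mod_cast hN
  have hcube : ∀ ω, (fun i => ((Y ω i : ℕ) : ℝ) / N) ∈ cube (fun _ : Fin n => (0 : ℝ)) 1 := by
    intro ω i
    have h1 : ((Y ω i : ℕ) : ℝ) < N := by exact_mod_cast (Y ω i).2
    refine ⟨by positivity, ?_⟩
    rw [zero_add, div_le_one hNr]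
    exact h1.le
  have hent : H q Y ≤ n * Real.log N := by
    rcases isEmpty_or_nonempty Ω with hΩ | hΩ
    · have := hq.sum_one
      simp at this
    · have h1 := H_le_log_card hq.nonneg hq.sum_one Y (F := univ) (fun ω _ => Finset.mem_univ _)
        |>.trans (le_of_eq (by
          rw [Finset.card_univ, Fintype.card_fun, Fintype.card_fin, Fintype.card_fin,
            Nat.cast_pow, Real.log_pow]))
      exact h1
  have hK0 : (0 : ℝ) ≤ ((2 * D + 1 : ℕ) : ℝ) := Nat.cast_nonneg _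
  rcases hS0.eq_or_lt with h0 | h0
  · -- the polynomial vanishes
    have e1 : ∀ ω, (if |MvPolynomial.eval (fun i => ((Y ω i : ℕ) : ℝ) / N) P| <
        Real.exp (-τ) * S then q ω else 0) = 0 := by
      intro ω
      rw [if_neg]
      rw [← h0, mul_zero]
      exact not_lt.mpr (abs_nonneg _)
    simp only [e1, Finset.sum_const_zero, mul_zero]
    exact mul_nonneg hK0 (by linarith)
  · have h1 := hrik Ω q N Y P S hq
      (fun i => (MvPolynomial.degreeOf_le_totalDegree _ _).trans hP) h0 (by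
        obtain ⟨s, hs, hse⟩ := hSe
        refine ⟨s, fun i => ?_, hse.ge⟩
        have := hs i
        rw [zero_add] at this
        exact this)
    have h2 : Ex q (fun ω => Real.log (max
        |MvPolynomial.eval (fun i => ((Y ω i : ℕ) : ℝ) / N) P|
        (S / (N : ℝ) ^ (2 * D + 1)))) ≤ Ex q (fun ω => Real.log S - τ * (if
          |MvPolynomial.eval (fun i => ((Y ω i : ℕ) : ℝ) / N) P| < Real.exp (-τ) * S then 1
          else 0)) := by
      refine Ex_mono hq.nonneg fun ω _ => ?_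
      have hNK : 0 < (N : ℝ) ^ (2 * D + 1) := by positivity
      have hm0 : 0 < max |MvPolynomial.eval (fun i => ((Y ω i : ℕ) : ℝ) / N) P|
          (S / (N : ℝ) ^ (2 * D + 1)) := lt_max_of_lt_right (by positivity)
      by_cases hb : |MvPolynomial.eval (fun i => ((Y ω i : ℕ) : ℝ) / N) P| <
          Real.exp (-τ) * S
      · rw [if_pos hb, mul_one]
        have h3 : max |MvPolynomial.eval (fun i => ((Y ω i : ℕ) : ℝ) / N) P|
            (S / (N : ℝ) ^ (2 * D + 1)) ≤ Real.exp (-τ) * S := by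
          refine max_le hb.le ?_
          have h4 : ((N : ℝ) ^ (2 * D + 1))⁻¹ ≤ Real.exp (-τ) := by
            rw [← Real.exp_log (inv_pos.mpr hNK)]
            refine Real.exp_le_exp.mpr ?_
            rw [Real.log_inv, Real.log_pow]
            push_cast at hτN ⊢
            linarith
          calc S / (N : ℝ) ^ (2 * D + 1) = ((N : ℝ) ^ (2 * D + 1))⁻¹ * S := by
                rw [div_eq_inv_mul]
            _ ≤ Real.exp (-τ) * S := mul_le_mul_of_nonneg_right h4 h0.le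
        refine (Real.log_le_log hm0 h3).trans (le_of_eq ?_)
        rw [Real.log_mul (Real.exp_pos _).ne' h0.ne', Real.log_exp]
        ring
      · rw [if_neg hb, mul_zero, sub_zero]
        refine Real.log_le_log hm0 (max_le (hSle _ (hcube ω)) ?_)
        exact div_le_self h0.le (one_le_pow₀ hN1)
    have h3 : Ex q (fun ω => Real.log S - τ * (if
          |MvPolynomial.eval (fun i => ((Y ω i : ℕ) : ℝ) / N) P| < Real.exp (-τ) * S then
          (1 : ℝ) else 0)) = Real.log S - τ * (∑ ω, if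
      |MvPolynomial.eval (fun i => ((Y ω i : ℕ) : ℝ) / N) P| < Real.exp (-τ) * S then q ω
        else 0) := by
      rw [Ex_sub, Ex_const hq.sum_one, Ex_smul]
      congr 2
      unfold Ex
      refine Finset.sum_congr rfl fun ω _ => ?_
      by_cases hb : |MvPolynomial.eval (fun i => ((Y ω i : ℕ) : ℝ) / N) P| < Real.exp (-τ) * S
      · simp only
        rw [if_pos hb, if_pos hb, mul_one]
      · simp only
        rw [if_neg hb, if_neg hb, mul_zero]
    rw [h3] at h2
    linarith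

section

variable {n a L : ℕ} {C₀ : ℝ} {Ω Λ Ξ Z : Type} [Fintype Ω] {p : Ω → ℝ} {lam : Ω → Λ}
    {x : Ω → Ξ} {T : Ξ → ℕ} {pos : Ξ → Option (Fin n) → ℕ} {A B : Λ → Option (Fin n) → ℝ}
    {zx : Ξ → Z} {zl : Λ → ℕ → Z} {cz : Z → Option (Fin n) → ℕ}

/-- At the scale `0` the sub-cube is the unit cube. -/
lemma Mj_zero (a L : ℕ) (pos : Ξ → Option (Fin n) → ℕ) (zx : Ξ → Z)
    (cz : Z → Option (Fin n) → ℕ) (G : Z → MvPolynomial (Fin n) ℝ)
    (Q : Z → MvPolynomial (Option (Fin n)) ℝ) (ζ₁ : Z) (ξ₂ : Ξ) (j : ℕ) :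
    KJ.Mj a L pos zx cz G Q 0 ζ₁ ξ₂ j = cs (fun _ => 0) 1
      (gr (G (zx ξ₂)) (dN j (shf (Q ζ₁) (1 / 2 ^ a) (crz cz a (zx ξ₂))))) := by
  have e1 : KJ.crb 0 (KJ.scb L pos 0 ξ₂) = fun _ : Fin n => (0 : ℝ) := by
    funext i
    simp only [KJ.crb, KJ.scb, posS, Nat.sub_zero, pow_zero, div_one]
    rw [Nat.div_eq_of_lt (Nat.mod_lt _ (Nat.two_pow_pos L)), Nat.cast_zero]
  unfold KJ.Mj KJ.hpl KJ.lfp
  rw [e1, pow_zero, div_one]

open Classical in
/-- **Most pairs hit**, if the difference of the leaves is small for most pairs. -/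
theorem hit_mass (n D : ℕ) (C₀ : ℝ) (hC₀ : 1 ≤ C₀) : ∃ B : ℝ, 1 ≤ B ∧ ∀ k₀ : ℕ,
    ∃ (κ₁ : ℕ) (C : ℝ), 1 ≤ κ₁ ∧ 0 ≤ C ∧
    ∀ (a L r₂ : ℕ) (Ω Λ Ξ Z : Type) [Fintype Ω] (p : Ω → ℝ) (lam : Ω → Λ)
      (x : Ω → Ξ) (T : Ξ → ℕ) (pos : Ξ → Option (Fin n) → ℕ) (A A' : Λ → Option (Fin n) → ℝ)
      (zx : Ξ → Z) (zl : Λ → ℕ → Z) (cz : Z → Option (Fin n) → ℕ)
      (G : Z → MvPolynomial (Fin n) ℝ) (K s τ d : ℝ)
      (Q : Z → MvPolynomial.restrictTotalDegree (Option (Fin n)) ℝ D),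
      StepF n a L C₀ p lam x T pos A A' zx zl cz →
      (∀ ω, 0 < p ω → RegG (G (zx (x ω))) (fun _ => 0) 1 k₀ (3 * C₀)) →
      (∀ ω, 0 < p ω → |rp (2 ^ L) (posS pos L) (x ω) none - MvPolynomial.eval
        (fun i => rp (2 ^ L) (posS pos L) (x ω) (some i)) (G (zx (x ω)))| ≤ 3 * C₀ / 2 ^ L) →
      n * (L * Real.log 2) - CH p (fun ω => bas (posS pos L) (x ω)) (fun ω => zx (x ω)) ≤ d →
      r₂ ≤ L → 1 ≤ K → 0 < s → 0 < τ → τ ≤ κ₁ * (L * Real.log 2) →
      s * (B * K * 2 ^ (L - r₂)) ≤ Real.exp (-τ) →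
      (∑ v, if Hit D K s (6 * C₀ / 2 ^ (a + L)) (2 ^ (a + L)) p x zx pos Q
        (zx (x v.1)) (zx (x v.2)) then 0 else dbl p lam v) ≤
      (∑ v, if KJ.Th D r₂ (KJ.Mj a L pos zx cz G
        (fun ζ => (Q ζ : MvPolynomial (Option (Fin n)) ℝ)) 0 (zx (x v.1)) (x v.2)) then 0
          else dbl p lam v) + 2 * (κ₁ * (d + C) / τ) := by
  obtain ⟨B, hB1, hnear⟩ := near_of_Th n D C₀ hC₀
  refine ⟨B, hB1, fun k₀ => ?_⟩
  obtain ⟨κ₁, C, hκ₁, hC, hbad⟩ := rik_bad n ((k₀ + 1) * D)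
  refine ⟨κ₁, C, hκ₁, hC, ?_⟩
  intro a L r₂ Ω Λ Ξ Z _ p lam x T pos A A' zx zl cz G K s τ d Q hF hreg hgr hd hr₂ hK hs hτ
    hτL hsB
  have hp := hF.leaf.isLaw
  have hp0 := hp.nonneg
  have hC0 : (0 : ℝ) < C₀ := by linarith
  have hl2 : 0 ≤ Real.log 2 := Real.log_nonneg (by norm_num)
  set q := dbl p lam with hqdef
  have hq0 : ∀ v, 0 ≤ q v := dbl_nonneg hp0
  have m1 : Marg q p (fun v => v.1) := dbl_fst hp0
  have m2 : Marg q p (fun v => v.2) := dbl_snd hp0
  -- the grid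
  set N : ℕ := 2 ^ L with hN
  have hN0 : 0 < N := Nat.two_pow_pos L
  have hlN : Real.log N = L * Real.log 2 := by
    rw [hN]
    push_cast
    rw [Real.log_pow]
  set Y : Ω → Fin n → Fin N := fun ω i => ⟨posS pos L (x ω) (some i),
    Nat.mod_lt _ hN0⟩ with hY
  have hYe : ∀ ω, (fun i => ((Y ω i : ℕ) : ℝ) / N) =
      fun i => rp (2 ^ L) (posS pos L) (x ω) (some i) := fun _ => rfl
  have hcube : ∀ ω, (fun i => rp (2 ^ L) (posS pos L) (x ω) (some i)) ∈
      cube (fun _ : Fin n => (0 : ℝ)) 1 := by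
    intro ω i
    have h1 : posS pos L (x ω) (some i) < 2 ^ L := Nat.mod_lt _ (Nat.two_pow_pos L)
    have h2 : ((posS pos L (x ω) (some i) : ℕ) : ℝ) < ((2 ^ L : ℕ) : ℝ) := by exact_mod_cast h1
    have h3 : (0 : ℝ) < ((2 ^ L : ℕ) : ℝ) := by exact_mod_cast Nat.two_pow_pos L
    simp only [rp]
    refine ⟨by positivity, ?_⟩
    rw [zero_add, div_le_one h3]
    exact h2.le
  -- the deficit of a leaf
  set f : Z → ℝ := fun ζ => κ₁ * ((n * Real.log N - H (cond p (fun ω => zx (x ω)) ζ) Y) + C)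
    with hf
  have hf0 : ∀ ω, 0 < p ω → 0 ≤ f (zx (x ω)) := by
    intro ω hω
    have hl : 0 < law p (fun ω => zx (x ω)) (zx (x ω)) := law_pos hp0 (fun ω => zx (x ω)) hω
    have hcl : IsLaw (cond p (fun ω => zx (x ω)) (zx (x ω))) :=
      ⟨cond_nonneg hp0 _ _, sum_cond p _ hl.ne'⟩
    have h1 : H (cond p (fun ω => zx (x ω)) (zx (x ω))) Y ≤ n * Real.log N :=
      (H_le_log_card hcl.nonneg hcl.sum_one Y (F := univ) (fun ω _ => Finset.mem_univ _)).trans
        (le_of_eq (by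
          rw [Finset.card_univ, Fintype.card_fun, Fintype.card_fin, Fintype.card_fin,
            Nat.cast_pow, Real.log_pow]))
    simp only [hf]
    exact mul_nonneg (Nat.cast_nonneg _) (by linarith)
  have hfEx : Ex p (fun ω => f (zx (x ω))) ≤ κ₁ * (d + C) := by
    have e1 : Ex p (fun ω => f (zx (x ω))) = κ₁ * ((n * Real.log N -
        Ex p (fun ω => H (cond p (fun ω => zx (x ω)) (zx (x ω))) Y)) + C) := by
      simp only [hf]
      rw [Ex_smul, Ex_add, Ex_sub, Ex_const hp.sum_one, Ex_const hp.sum_one]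
    have e2 : Ex p (fun ω => H (cond p (fun ω => zx (x ω)) (zx (x ω))) Y) =
        CH p Y (fun ω => zx (x ω)) := by
      rw [CH_eq_sum hp0]
      unfold Ex
      exact sum_mul_eq_sum_image p (fun ω => zx (x ω))
        (fun ζ => H (cond p (fun ω => zx (x ω)) ζ) Y)
    have e3 : CH p Y (fun ω => zx (x ω)) =
        CH p (fun ω => bas (posS pos L) (x ω)) (fun ω => zx (x ω)) := by
      refine CH_congr hp0 ?_ ?_ (fun _ _ _ _ h => h) (fun _ _ _ _ h => h)
      · intro ω ω' _ _ hh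
        have h1 := (Prod.ext_iff.mp hh).1
        funext i
        have h2 : Y ω i = Y ω' i := congrFun h1 i
        exact congrArg Fin.val h2
      · intro ω ω' _ _ hh
        have h1 := (Prod.ext_iff.mp hh).1
        funext i
        exact Fin.ext (congrFun h1 i)
    rw [e1, e2, e3, hlN]
    refine mul_le_mul_of_nonneg_left ?_ (Nat.cast_nonneg _)
    linarith
  -- one pair
  have hpair : ∀ v, 0 < q v → KJ.Th D r₂ (KJ.Mj a L pos zx cz G
      (fun ζ => (Q ζ : MvPolynomial (Option (Fin n)) ℝ)) 0 (zx (x v.1)) (x v.2)) →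
      ¬ Hit D K s (6 * C₀ / 2 ^ (a + L)) (2 ^ (a + L)) p x zx pos Q (zx (x v.1)) (zx (x v.2)) →
      τ ≤ 2 * f (zx (x v.2)) := by
    intro v hv hTh hnot
    have hv2 : 0 < p v.2 := m2.pos hq0 hv
    set ζ₁ := zx (x v.1) with hζ₁
    set ζ₂ := zx (x v.2) with hζ₂
    set P : MvPolynomial (Option (Fin n)) ℝ :=
      shf (Q ζ₁ : MvPolynomial (Option (Fin n)) ℝ) (1 / 2 ^ a) (crz cz a ζ₂) with hP
    have hPD : P.totalDegree ≤ D := (totalDegree_shf_le _ _ _).trans
      ((MvPolynomial.mem_restrictTotalDegree _ _ _).mp (Q ζ₁).2)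
    have hTh' : KJ.Th D r₂ (fun j => cs (fun _ : Fin n => (0 : ℝ)) 1 (gr (G ζ₂) (dN j P))) := by
      obtain ⟨j, h1, h2, h3⟩ := hTh
      refine ⟨j, h1, h2, ?_⟩
      rw [Mj_zero, Mj_zero] at h3
      exact h3
    obtain ⟨j, hjD, hj⟩ := hnear (G ζ₂) k₀ L r₂ P (hreg _ hv2) hPD hr₂ hTh'
    set Pj : MvPolynomial (Fin n) ℝ := gr (G ζ₂) (dN j P) with hPj
    set S : ℝ := cs (fun _ : Fin n => (0 : ℝ)) 1 Pj with hS
    have hl : 0 < law p (fun ω => zx (x ω)) ζ₂ := law_pos hp0 (fun ω => zx (x ω)) hv2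
    have hcl : IsLaw (cond p (fun ω => zx (x ω)) ζ₂) :=
      ⟨cond_nonneg hp0 _ _, sum_cond p _ hl.ne'⟩
    have h1 := hbad Ω (cond p (fun ω => zx (x ω)) ζ₂) N Y Pj S τ hcl hN0
      (SML.totalDegree_gr_le (G ζ₂) k₀ D (hreg _ hv2).deg _ ((totalDegree_dN_le _ _).trans hPD))
      (SML.cs_nonneg _ _ _) (fun s hs => SML.le_cs zero_le_one _ hs)
      (cs_attained _ _ zero_le_one _) hτ (by rw [hlN]; exact hτL)
    -- the small values have mass at least one half
    have h2 : 1 / 2 ≤ ∑ ω, (if |MvPolynomial.eval (fun i => ((Y ω i : ℕ) : ℝ) / N) Pj| <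
        Real.exp (-τ) * S then cond p (fun ω => zx (x ω)) ζ₂ ω else 0) := by
      have h3 : ¬ (1 / 2 * law p (fun ω => zx (x ω)) ζ₂ ≤ ∑ ω, if zx (x ω) = ζ₂ ∧
          K * PsiC 1 (Q ζ₁ : MvPolynomial (Option (Fin n)) ℝ) (6 * C₀ / 2 ^ (a + L))
            (rp (2 ^ (a + L)) pos (x ω)) ≤
          PsiC s (Q ζ₁ : MvPolynomial (Option (Fin n)) ℝ) (6 * C₀ / 2 ^ (a + L))
            (rp (2 ^ (a + L)) pos (x ω)) then p ω else 0) := by
        intro hcon
        refine hnot ?_
        unfold Hit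
        refine hcon.trans (le_of_eq ?_)
        exact Finset.sum_congr rfl fun ω _ => ite_dec _ _ _ _ _
      push Not at h3
      have h4 : law p (fun ω => zx (x ω)) ζ₂ ≤ (∑ ω, if zx (x ω) = ζ₂ ∧
          K * PsiC 1 (Q ζ₁ : MvPolynomial (Option (Fin n)) ℝ) (6 * C₀ / 2 ^ (a + L))
            (rp (2 ^ (a + L)) pos (x ω)) ≤
          PsiC s (Q ζ₁ : MvPolynomial (Option (Fin n)) ℝ) (6 * C₀ / 2 ^ (a + L))
            (rp (2 ^ (a + L)) pos (x ω)) then p ω else 0) +
          law p (fun ω => zx (x ω)) ζ₂ * ∑ ω, (if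
            |MvPolynomial.eval (fun i => ((Y ω i : ℕ) : ℝ) / N) Pj| <
            Real.exp (-τ) * S then cond p (fun ω => zx (x ω)) ζ₂ ω else 0) := by
        unfold Pool.Agent.H49.Ent.law
        rw [Finset.mul_sum, ← Finset.sum_add_distrib]
        refine Finset.sum_le_sum fun ω _ => ?_
        have hpω := hp0 ω
        have hcω : 0 ≤ cond p (fun ω => zx (x ω)) ζ₂ ω := cond_nonneg hp0 _ _ ω
        by_cases c1 : zx (x ω) = ζ₂
        · rw [if_pos c1]
          by_cases c2 : |MvPolynomial.eval (fun i => ((Y ω i : ℕ) : ℝ) / N) Pj| <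
            Real.exp (-τ) * S
          · rw [if_pos c2]
            have e1 : (∑ ω, if zx (x ω) = ζ₂ then p ω else 0) *
                cond p (fun ω => zx (x ω)) ζ₂ ω = p ω := by
              have e2 : (∑ ω, if zx (x ω) = ζ₂ then p ω else 0) =
                law p (fun ω => zx (x ω)) ζ₂ := by
                unfold Pool.Agent.H49.Ent.law
                exact Finset.sum_congr rfl fun ω _ => ite_dec _ _ _ _ _
              rw [e2]
              unfold Pool.Agent.H49.Ent.cond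
              simp only
              rw [if_pos c1]
              field_simp
            rw [e1]
            have : 0 ≤ (if zx (x ω) = ζ₂ ∧
              K * PsiC 1 (Q ζ₁ : MvPolynomial (Option (Fin n)) ℝ) (6 * C₀ / 2 ^ (a + L))
                (rp (2 ^ (a + L)) pos (x ω)) ≤
              PsiC s (Q ζ₁ : MvPolynomial (Option (Fin n)) ℝ) (6 * C₀ / 2 ^ (a + L))
                (rp (2 ^ (a + L)) pos (x ω)) then p ω else 0) := by
              split_ifs
              exacts [hpω, le_rfl]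
            linarith
          · rw [if_neg c2, mul_zero, add_zero]
            rcases hpω.eq_or_lt with h0 | h0
            · rw [← h0]
              split_ifs <;> exact le_rfl
            · have c3 : K * PsiC 1 P (6 * C₀ / 2 ^ L) (rp (2 ^ L) (posS pos L) (x ω)) ≤
                  PsiC s P (6 * C₀ / 2 ^ L) (rp (2 ^ L) (posS pos L) (x ω)) := by
                refine hj _ (Real.exp (-τ)) K s (hcube ω) ?_ (Real.exp_pos _)
                  (Real.exp_le_one_iff.mpr (by linarith)) hK hs hsB ?_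
                · have := hgr ω h0
                  rwa [c1] at this
                · push Not at c2
                  exact c2
              have e3 := hF.PsiC_eq (one_ne_zero (α := ℝ))
                (Q ζ₁ : MvPolynomial (Option (Fin n)) ℝ) (6 * C₀) ω
              have e4 := hF.PsiC_eq hs.ne'
                (Q ζ₁ : MvPolynomial (Option (Fin n)) ℝ) (6 * C₀) ω
              rw [c1] at e3 e4
              rw [hP, e3, e4] at c3
              rw [if_pos ⟨c1, c3⟩]
        · rw [if_neg c1, if_neg (fun h => c1 h.1), zero_add]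
          refine mul_nonneg (Finset.sum_nonneg fun ω _ => ?_) ?_
          · split_ifs
            exacts [hp0 ω, le_rfl]
          · split_ifs
            exacts [hcω, le_rfl]
      have h5 : 1 / 2 * law p (fun ω => zx (x ω)) ζ₂ ≤ law p (fun ω => zx (x ω)) ζ₂ *
          ∑ ω, (if |MvPolynomial.eval (fun i => ((Y ω i : ℕ) : ℝ) / N) Pj| <
            Real.exp (-τ) * S then cond p (fun ω => zx (x ω)) ζ₂ ω else 0) := by linarith
      rw [mul_comm (1 / 2 : ℝ)] at h5
      exact le_of_mul_le_mul_left h5 hl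
    have h6 := mul_le_mul_of_nonneg_left h2 hτ.le
    have h7 : τ * (∑ ω, (if |MvPolynomial.eval (fun i => ((Y ω i : ℕ) : ℝ) / N) Pj| <
        Real.exp (-τ) * S then cond p (fun ω => zx (x ω)) ζ₂ ω else 0)) ≤
        κ₁ * ((n * Real.log N - H (cond p (fun ω => zx (x ω)) ζ₂) Y) + C) := h1
    simp only [hf]
    linarith
  -- sum over the pairs
  have h1 : (∑ v, if Hit D K s (6 * C₀ / 2 ^ (a + L)) (2 ^ (a + L)) p x zx pos Q
        (zx (x v.1)) (zx (x v.2)) then 0 else q v) ≤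
      (∑ v, if KJ.Th D r₂ (KJ.Mj a L pos zx cz G
        (fun ζ => (Q ζ : MvPolynomial (Option (Fin n)) ℝ)) 0 (zx (x v.1)) (x v.2)) then 0
          else q v) + ∑ v, q v * (2 / τ * f (zx (x v.2))) := by
    rw [← Finset.sum_add_distrib]
    refine Finset.sum_le_sum fun v _ => ?_
    rcases (hq0 v).eq_or_lt with h0 | h0
    · rw [← h0]
      simp
    · have hf2 := hf0 v.2 (m2.pos hq0 h0)
      have h2τ : 0 ≤ 2 / τ * f (zx (x v.2)) := by positivity
      by_cases c1 : Hit D K s (6 * C₀ / 2 ^ (a + L)) (2 ^ (a + L)) p x zx pos Q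
        (zx (x v.1)) (zx (x v.2))
      · rw [if_pos c1]
        have i1 : (0 : ℝ) ≤ if KJ.Th D r₂ (KJ.Mj a L pos zx cz G
          (fun ζ => (Q ζ : MvPolynomial (Option (Fin n)) ℝ)) 0 (zx (x v.1)) (x v.2)) then 0
          else q v := by
          split_ifs
          exacts [le_rfl, h0.le]
        have := mul_nonneg h0.le h2τ
        linarith
      · rw [if_neg c1]
        by_cases c2 : KJ.Th D r₂ (KJ.Mj a L pos zx cz G
          (fun ζ => (Q ζ : MvPolynomial (Option (Fin n)) ℝ)) 0 (zx (x v.1)) (x v.2))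
        · rw [if_pos c2, zero_add]
          have h3 := hpair v h0 c2 c1
          have h4 : 1 ≤ 2 / τ * f (zx (x v.2)) := by
            rw [div_mul_eq_mul_div, le_div_iff₀ hτ, one_mul]
            exact h3
          nlinarith
        · rw [if_neg c2]
          have := mul_nonneg h0.le h2τ
          linarith
  refine h1.trans (add_le_add le_rfl ?_)
  have e1 : ∑ v, q v * (2 / τ * f (zx (x v.2))) = 2 / τ * Ex p (fun ω => f (zx (x ω))) := by
    have h2 := m2.ex (fun ω => 2 / τ * f (zx (x ω)))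
    have h3 : Ex p (fun ω => 2 / τ * f (zx (x ω))) = 2 / τ * Ex p (fun ω => f (zx (x ω))) :=
      Ex_smul _ _ _
    rw [h3] at h2
    exact h2
  rw [e1]
  have h3 := mul_le_mul_of_nonneg_left hfEx (by positivity : 0 ≤ 2 / τ)
  refine h3.trans (le_of_eq ?_)
  ring

end

end Pool.KS3
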