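import Pool.Agent.H82.KSP.RPF

/-!
# Small difference: row J2 with the polynomial of the label
-/

set_option autoImplicit false

namespace Pool.KS3

open Finset Real
open Pool.Agent.H49.Ent Pool.Agent.H32.Dense Pool.STK Pool.KAF Pool.KAL Pool.KST

/-- **Row J2R** with explicit constants. -/
theorem j2_pol (n D : ℕ) (C₀ : ℝ) (hC₀ : 1 ≤ C₀) : ∃ (C₁ : ℝ) (Kc g₀ : ℕ) (c₃ : ℝ), 1 ≤ C₁ ∧
    1 ≤ Kc ∧ 0 ≤ c₃ ∧ ∀ k₀ : ℕ, ∃ C₂ : ℝ, 1 ≤ C₂ ∧
    ∀ (a L r₂ m q' : ℕ) (Ω Λ Ξ Z β : Type) [Fintype Ω] (p : Ω → ℝ) (lam : Ω → Λ)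
      (x : Ω → Ξ) (T : Ξ → ℕ) (pos : Ξ → Option (Fin n) → ℕ) (A B : Λ → Option (Fin n) → ℝ)
      (zx : Ξ → Z) (zl : Λ → ℕ → Z) (cz : Z → Option (Fin n) → ℕ)
      (G : Z → MvPolynomial (Fin n) ℝ) (wz : Z → β) (wl : Λ → β) (κ γ N γ₀ : ℕ)
      (δ ε e₁ e₃ eo lm lm' τ : ℝ) (e : Ξ → ℝ) (Q : Z → MvPolynomial (Option (Fin n)) ℝ)
      (i₀ : Fin n),
      StepH n a L C₀ k₀ κ γ N δ ε e₁ e₃ p lam x T pos A B zx zl cz G e →
      r₂ + m ≤ L →
      (∀ ω, 0 < p ω → ¬ Bad (G (zx (x ω))) (fun _ => 0) 1 D lm) →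
      2 * 2 ^ D * lm ≤ lm' → 2 * 2 ^ D * (2 * 2 ^ D * (1 / 2 ^ r₂)) ≤ lm' →
      6 * ((n + 3) * C₀ + 1) / 2 ^ r₂ ≤ lm' → lm' ≤ 1 →
      (∀ ω, pos (x ω) (some i₀) = T (x ω)) →
      (∀ ω, 0 < p ω → wz (zx (x ω)) = wl (lam ω)) →
      KJ.OV p x L pos (fun ξ => wz (zx ξ)) zx G r₂ (r₂ + m) eo →
      (∀ ζ, Q ζ ≠ 0 ∧ (Q ζ).totalDegree ≤ D) →
      KJ.Pe (dbl p lam) (fun v =>
        ¬ KJ.Th D r₂ (KJ.Mj a L pos zx cz G Q 0 (zx (x v.1)) (x v.2))) ≤ 1 / 16 →
      0 < τ → τ ≤ L * Real.log 2 →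
      C₂ * RR n L κ (γ + g₀) N ε e₁ c₃ ≤ τ →
      C₁ * (a + m + eo + τ + 1) ≤ γ₀ →
      2 * 2 ^ D * Real.exp τ * (lm' * 2 ^ (γ₀ + r₂)) ≤ 2 ^ q' →
      ∃ (Y : Type) (y : Z → Y) (sl : Λ → Option Y) (Sc : (Fin n → ℕ) × Y → Finset ℕ)
        (Rp : Y → MvPolynomial (Option (Fin n)) ℝ),
        (∀ g, (Sc g).card ≤ Kc) ∧ (∀ g, (Rp g).totalDegree ≤ D) ∧
        1 / 2 ≤ D * KJ.Pe p (fun ω => some (y (zx (x ω))) = sl (lam ω) ∧
          pos (x ω) none / 2 ^ (L - r₂ + q') ∈ Sc (bas pos (x ω), y (zx (x ω))) ∧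
          MvPolynomial.eval (rp (2 ^ (a + L)) pos (x ω))
            (MvPolynomial.pderiv none (Rp (y (zx (x ω))))) ≠ 0 ∧
          2 ^ (a + L) * |MvPolynomial.eval (rp (2 ^ (a + L)) pos (x ω))
            (Rp (y (zx (x ω))))| ≤ 2 ^ (L - r₂ + q') *
              |MvPolynomial.eval (rp (2 ^ (a + L)) pos (x ω))
                (MvPolynomial.pderiv none (Rp (y (zx (x ω)))))|) := by
  classical
  obtain ⟨K, Cn, hK, hCn, hmask₀⟩ := j2_mask n D
  obtain ⟨Cu, hCu, hmask⟩ := hmask₀ C₀ hC₀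
  obtain ⟨B₀, hB₀, hhit₀⟩ := hit_mass n D C₀ hC₀
  have h3C : (1 : ℝ) ≤ 3 * C₀ := by linarith only [hC₀]
  obtain ⟨Cu', hCu', hful⟩ := fulh_thm n (3 * C₀) h3C
  have hn0 : (0 : ℝ) ≤ n := Nat.cast_nonneg n
  have hD0 : (0 : ℝ) ≤ D := Nat.cast_nonneg D
  have hC0 : (0 : ℝ) < C₀ := by linarith
  obtain ⟨C₀', hC₀'⟩ : ∃ C₀' : ℝ, C₀' = (n + 3) * C₀ + 1 := ⟨_, rfl⟩
  have hC₀'1 : 1 ≤ C₀' := by
    rw [hC₀']
    have : 0 ≤ (n + 3) * C₀ := by positivity
    linarith
  obtain ⟨Cc, Kc, hCc, hKc, hcore₀⟩ := stp_core_pol n D C₀' (1 / 8) hC₀'1 (by norm_num)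
  obtain ⟨B₁, hB₁, hpf₀⟩ := pol_fin n D C₀' hC₀'1
  obtain ⟨lB, hlB⟩ : ∃ lB : ℝ, lB = Real.log B₁ := ⟨_, rfl⟩
  have hlB0 : 0 ≤ lB := by
    rw [hlB]
    exact Real.log_nonneg hB₁
  obtain ⟨cb, hcb⟩ : ∃ cb : ℝ, cb = 2 * lB + 2 * D + 8 := ⟨_, rfl⟩
  have hcb0 : 0 ≤ cb := by
    rw [hcb]
    linarith only [hlB0]
  obtain ⟨g₀, hg₀⟩ : ∃ g₀ : ℕ, (C₀' / C₀) ^ n ≤ 2 ^ g₀ := by
    obtain ⟨g₀, hg₀⟩ := pow_unbounded_of_one_lt ((C₀' / C₀) ^ n) (by norm_num : (1 : ℝ) < 2)
    exact ⟨g₀, hg₀.le⟩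
  obtain ⟨c₃, hc₃⟩ : ∃ c₃ : ℝ, c₃ = Real.log (6 * C₀' + 2) := ⟨_, rfl⟩
  have hc₃0 : 0 ≤ c₃ := by
    rw [hc₃]
    exact Real.log_nonneg (by linarith only [hC₀'1])
  exact by
   obtain ⟨cl, hcl⟩ : ∃ cl : ℝ, cl = Real.log ((D + 1) * (6 * C₀ * B₀ * K) + 4) := ⟨_, rfl⟩
   have hcl0 : 0 ≤ cl := by
     rw [hcl]
     refine Real.log_nonneg ?_
     have : 0 ≤ ((D : ℝ) + 1) * (6 * C₀ * B₀ * K) := by positivity
     linarith
   refine ⟨Cc * (4 * n + 9 + (4 * cl + 4 * Cn + c₃ + 6)) + 5 + cb, Kc, g₀, c₃, ?_, hKc, hc₃0, ?_⟩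
   · have : 0 ≤ Cc * (4 * n + 9 + (4 * cl + 4 * Cn + c₃ + 6)) := by positivity
     linarith only [hlB0, hcb, this]
   intro k₀
   obtain ⟨C₂', hC₂', hcore⟩ := hcore₀ k₀
   obtain ⟨κ₁, Ch, hκ₁, hCh, hhit⟩ := hhit₀ k₀
   have hκ₁r : (1 : ℝ) ≤ κ₁ := by exact_mod_cast hκ₁
   obtain ⟨κ₂, Ct, hκ₂, hCt, hpf⟩ := hpf₀ k₀
   have hκ₂r : (1 : ℝ) ≤ κ₂ := by exact_mod_cast hκ₂
   obtain ⟨ct, hct⟩ : ∃ ct : ℝ, ct = 64 * (D + 1) * (κ₂ * (n + 2 * Cu' + Ct)) := ⟨_, rfl⟩
   have hct0 : 0 ≤ ct := by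
     rw [hct]
     positivity
   refine ⟨64 * C₂' + 128 * (κ₁ * (n + 2 * Cu' + Ch)) + 5 * Cc * (n + 2 * Cu) + ct + 1, ?_, ?_⟩
   · have : 0 ≤ 64 * C₂' + 128 * (κ₁ * (n + 2 * Cu' + Ch)) + 5 * Cc * (n + 2 * Cu) := by
       positivity
     linarith only [hct0, this]
   intro a L r₂ m q' Ω Λ Ξ Z β _ p lam x T pos A B zx zl cz G wz wl κ γ N γ₀ δ ε e₁ e₃ eo lm lm'
     τ e Q i₀ hF hr₂m hbad hlm1 hlm2 hlm3 hlm4 htime hwz hOV hQ hPe hτ hτL hC₂R hC₁ hq'
   have hr₂ : r₂ ≤ L := by omega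
   have hp := hF.step.leaf.isLaw
   have hp0 := hp.nonneg
   have hl20 : 0 < Real.log 2 := Real.log_pos (by norm_num)
   have hl21 : Real.log 2 ≤ 1 := by
     have := Real.log_two_lt_d9
     linarith only [hl20, this]
   -- a larger `γ`
   exact by
    have hFγ : StepH n a L C₀ k₀ κ (γ + g₀) N δ ε e₁ e₃ p lam x T pos A B zx zl cz G e :=
      { hF with
        hγ := by
          refine hF.hγ.trans ?_
          refine mul_le_mul_of_nonneg_left ?_ (pow_nonneg hF.hδ.le _)
          exact pow_le_pow_right₀ (by norm_num) (Nat.le_add_right _ _) }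
    have hγ' : (n.factorial : ℝ) * (6 * ((n + 3) * C₀ + 1)) ^ n ≤ δ ^ n * 2 ^ (γ + g₀) := by
      rw [← hC₀']
      have h1 : (6 * C₀') ^ n = (6 * C₀) ^ n * (C₀' / C₀) ^ n := by
        rw [← mul_pow]
        congr 1
        field_simp
      rw [h1, ← mul_assoc, pow_add, ← mul_assoc]
      exact mul_le_mul hF.hγ hg₀ (by positivity)
        (mul_nonneg (pow_nonneg hF.hδ.le _) (by positivity))
    -- the small error
    obtain ⟨R', hR'⟩ : ∃ R' : ℝ, R' = RR n L κ (γ + g₀) N ε e₁ c₃ := ⟨_, rfl⟩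
    rw [← hR'] at hC₂R
    have hε0 := hF.ε_nonneg
    have he₁0 := hF.he₁0
    obtain ⟨hR1, hR2, hR3⟩ : 1 ≤ R' ∧ e₁ ≤ R' ∧
        (L : ℝ) / κ + ((γ + g₀ : ℕ) : ℝ) + κ + ε * L ≤ R' := by
      have hN0 : (0 : ℝ) ≤ N := Nat.cast_nonneg N
      have hpw := pw_nonneg n N
      have hL0 : (0 : ℝ) ≤ L := Nat.cast_nonneg L
      have i1 : 0 ≤ (1 - 1 / (n : ℝ)) ^ N * (L + c₃) := mul_nonneg hpw (by linarith only [hc₃0])
      have i2 : e₁ + 1 ≤ (N + 1) * (e₁ + 1) := ar_one hN0 he₁0
      have i3 : 0 ≤ (L : ℝ) / κ := by positivity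
      have i4 : (0 : ℝ) ≤ ((γ + g₀ : ℕ) : ℝ) := Nat.cast_nonneg _
      have i5 : (0 : ℝ) ≤ κ := Nat.cast_nonneg _
      have i6 : 0 ≤ ε * L := mul_nonneg hε0 hL0
      have i7 : R' = (N + 1) * (e₁ + 1) + c₃ + (1 - 1 / (n : ℝ)) ^ N * (L + c₃) + L / κ +
        ((γ + g₀ : ℕ) : ℝ) + κ + ε * L := hR'
      refine ⟨?_, ?_, ?_⟩ <;> linarith
    exact by
     have hR0 : 0 ≤ R' := by linarith only [hR1]
     have hd : ∀ Cv : ℝ, 0 ≤ Cv → n * e₁ + Cv * (L / κ + ((γ + g₀ : ℕ) : ℝ) + κ + 1 + ε * L) ≤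
         (n + 2 * Cv) * R' := by
       intro Cv hCv
       have i1 := mul_le_mul_of_nonneg_left hR2 hn0
       have i2 : Cv * (L / κ + ((γ + g₀ : ℕ) : ℝ) + κ + 1 + ε * L) ≤ Cv * (2 * R') :=
         mul_le_mul_of_nonneg_left (by linarith only [hR1, hR3]) hCv
       linarith only [i1, i2]
     have hfu : n * (L * Real.log 2) - CH p (fun ω => bas (posS pos L) (x ω))
         (fun ω => zx (x ω)) ≤ (n + 2 * Cu') * R' := by
       refine le_trans (hful Ω (Λ × ℕ) Ξ Z p (lamS lam x T L) x (TS T L) (posS pos L)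
         (AS A B zl cz a) (BS B) zx (fun l => zl l.1 l.2) L κ (γ + g₀) δ ε e₁ e (hF.step.small hC₀)
         (fun ω _ => hF.step.lab ω) hF.hδ hF.he hF.hex (NCF_small hF.hnc)
         (by
           refine le_trans ?_ hFγ.hγ
           have h1 : (0 : ℝ) ≤ n.factorial := Nat.cast_nonneg _
           refine mul_le_mul_of_nonneg_left ?_ h1
           exact pow_le_pow_left₀ (by linarith only [hC₀]) (by linarith only [hC₀]) _) hF.hκ hF.he₁) (hd Cu' hCu')
     -- the truncation
     obtain ⟨W, cd, hcd1, hcd2⟩ := hOV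
     obtain ⟨qd, hqd⟩ : ∃ qd, qd = L - r₂ := ⟨_, rfl⟩
     have hqdL : qd + r₂ = L := by omega
     set zt : Z → (Option (Fin n) → ℕ) × W := fun ζ => (cz ζ, cd ζ) with hzt
     set tr : Ξ → (Option (Fin n) → ℕ) × ((Option (Fin n) → ℕ) × W) :=
       fun ξ => (fun o => pos ξ o / 2 ^ qd, zt (zx ξ)) with htr
     set Tt : (Option (Fin n) → ℕ) × ((Option (Fin n) → ℕ) × W) → ℕ :=
       fun ξ => ξ.1 (some i₀) with hTtd
     set post : (Option (Fin n) → ℕ) × ((Option (Fin n) → ℕ) × W) → Option (Fin n) → ℕ :=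
       fun ξ => ξ.1 with hpostd
     set zv : (Option (Fin n) → ℕ) × ((Option (Fin n) → ℕ) × W) → (Option (Fin n) → ℕ) × W :=
       fun ξ => ξ.2 with hzvd
     exact by
      have hTt : ∀ ω, Tt (tr (x ω)) = T (x ω) / 2 ^ qd := by
        intro ω
        simp only [hTtd, htr]
        rw [htime]
      have hpost : ∀ ω o, post (tr (x ω)) o = pos (x ω) o / 2 ^ qd := fun _ _ => rfl
      have hzv : ∀ ω, zv (tr (x ω)) = zt (zx (x ω)) := fun _ => rfl
      have hczt : ∀ ω, (zt (zx (x ω))).1 = cz (zx (x ω)) := fun _ => rfl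
      -- the truncated graphs
      have hGex : ∃ Gt : (Option (Fin n) → ℕ) × W → MvPolynomial (Fin n) ℝ,
          ∀ ω, 0 < p ω → ∃ ω', 0 < p ω' ∧ zt (zx (x ω')) = zt (zx (x ω)) ∧
            Gt (zt (zx (x ω))) = G (zx (x ω')) := by
        refine ⟨fun t => if h : ∃ ω, 0 < p ω ∧ zt (zx (x ω)) = t then G (zx (x h.choose)) else 0,
          fun ω hω => ?_⟩
        have h : ∃ ω', 0 < p ω' ∧ zt (zx (x ω')) = zt (zx (x ω)) := ⟨ω, hω, rfl⟩
        refine ⟨h.choose, h.choose_spec.1, h.choose_spec.2, ?_⟩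
        simp only
        rw [dif_pos h]
      obtain ⟨Gt, hGt0⟩ := hGex
      have hcl' : ∀ ω ω', 0 < p ω → 0 < p ω' → zt (zx (x ω)) = zt (zx (x ω')) →
          ∀ y ∈ cube (fun _ : Fin n => (0 : ℝ)) 1, |MvPolynomial.eval y (G (zx (x ω))) -
            MvPolynomial.eval y (G (zx (x ω')))| ≤ 1 / 2 ^ r₂ := by
        intro ω ω' hω hω' hh
        simp only [hzt, Prod.mk.injEq] at hh
        refine hcd1 ω ω' hω hω' (fun o => ?_) hh.2
        rw [hF.step.cell ω o, hF.step.cell ω' o, hh.1]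
      have hGt : ∀ ω, 0 < p ω → ∀ y ∈ cube (fun _ : Fin n => (0 : ℝ)) 1,
          |MvPolynomial.eval y (G (zx (x ω))) - MvPolynomial.eval y (Gt (zt (zx (x ω))))| ≤
            1 / 2 ^ r₂ := by
        intro ω hω y hy
        obtain ⟨ω', h1, h2, h3⟩ := hGt0 ω hω
        rw [h3]
        exact hcl' ω ω' hω h1 h2.symm y hy
      exact by
       have hregt : ∀ ω, 0 < p ω → RegG (Gt (zt (zx (x ω)))) (fun _ => 0) 1 k₀ (3 * C₀) := by
         intro ω hω
         obtain ⟨ω', h1, -, h3⟩ := hGt0 ω hω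
         rw [h3]
         exact hF.reg ω' h1
       obtain ⟨et, hT0⟩ := hFγ.trc hC₀ hqdL tr Tt post zt zv (fun t => t.1) Gt 1
         (CH p (fun ω => tr (x ω)) (fun ω => (bas post (tr (x ω)), zt (zx (x ω))))) hTt hpost hzv
         hczt zero_le_one hregt hGt hγ' le_rfl
       rw [← hC₀'] at hT0
       have he₃t : CH p (fun ω => tr (x ω)) (fun ω => (bas post (tr (x ω)), zt (zx (x ω)))) ≤
           c₃ := by
         have h1 := hT0.step.thin hC₀'1 hT0.gr
         rw [← hc₃] at h1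
         refine le_trans (CH_mono_left hp0 ?_) h1
         intro ω ω' _ _ hh
         simp only [Prod.mk.injEq] at hh
         obtain ⟨g1, g2, g3⟩ := hh
         refine Prod.ext ?_ g3
         funext o
         cases o with
         | none => exact g1
         | some i => exact congrFun g2 i
       have hT : StepH n a r₂ C₀' k₀ κ (γ + g₀) N δ ε e₁ c₃ p lam (fun ω => tr (x ω)) Tt post A B zv
           (fun l t => zt (zl l t)) (fun t => t.1) Gt et := { hT0 with he₃ := he₃t }
       -- the cubes of the truncated graphs are not bad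
       have hbadt : ∀ ω, 0 < p ω → ¬ Bad (Gt (zv (tr (x ω)))) (fun _ => 0) 1 D lm' := by
         intro ω hω
         have h2D : (0 : ℝ) < 2 * 2 ^ D := by positivity
         have hlm'0 : 0 < lm' := by
           refine lt_of_lt_of_le ?_ hlm2
           positivity
         refine bad_stab (ρ := 1 / 2 ^ r₂) (r := lm' / (2 * 2 ^ D)) (hbad ω hω) (hGt ω hω)
           (by positivity) ?_ ?_ ?_
         · rw [le_div_iff₀ h2D]
           linarith only [hlm1]
         · rw [le_div_iff₀ h2D]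
           linarith only [hlm2]
         · rw [mul_div_cancel₀ _ h2D.ne']
       -- own-visibility
       exact by
        obtain ⟨E5, hE5⟩ : ∃ E5 : ℝ, E5 = (n + 1) * (m * Real.log 2) + eo := ⟨_, rfl⟩
        have he₅ : CH p (fun ω => zt (zx (x ω))) (fun ω => (post (tr (x ω)), wz (zx (x ω)))) ≤
            E5 := by
          have c1 := CH_le_add hp0 (fun ω => zt (zx (x ω)))
            (fun ω (o : Option (Fin n)) => pos (x ω) o / 2 ^ (L - (r₂ + m)))
            (fun ω => (post (tr (x ω)), wz (zx (x ω))))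
          have c2 : CH p (fun ω (o : Option (Fin n)) => pos (x ω) o / 2 ^ (L - (r₂ + m)))
              (fun ω => (post (tr (x ω)), wz (zx (x ω)))) ≤ (n + 1) * (m * Real.log 2) := by
            refine CH_pos_le_cell (m := m) hp _ _ (fun t => t.1) fun ω _ o => ?_
            change pos (x ω) o / 2 ^ (L - (r₂ + m)) / 2 ^ m = pos (x ω) o / 2 ^ qd
            rw [Nat.div_div_eq_div_mul, ← pow_add]
            congr 2
            omega
          have c3 : CH p (fun ω => zt (zx (x ω)))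
              (fun ω => ((fun (o : Option (Fin n)) => pos (x ω) o / 2 ^ (L - (r₂ + m))),
                (post (tr (x ω)), wz (zx (x ω))))) ≤ CH p (fun ω => cd (zx (x ω)))
                (fun ω => (KJ.Yr L pos (r₂ + m) (x ω), (KJ.Nr L pos (r₂ + m) (x ω),
                  wz (zx (x ω))))) := by
            refine (CH_mono_left (X' := fun ω => cd (zx (x ω))) hp0 ?_).trans (CH_mono_cond hp0 ?_)
            · intro ω ω' _ _ hh
              simp only [Prod.mk.injEq] at hh
              obtain ⟨g1, g2, g3, g4⟩ := hh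
              simp only [hzt]
              refine Prod.ext ?_ g1
              funext o
              simp only
              rw [← hF.step.cell ω o, ← hF.step.cell ω' o]
              have h1 : post (tr (x ω)) o = post (tr (x ω')) o := congrFun g3 o
              rw [hpost, hpost] at h1
              have h2 : ∀ t : ℕ, t / 2 ^ L = t / 2 ^ qd / 2 ^ r₂ := by
                intro t
                rw [Nat.div_div_eq_div_mul, ← pow_add, hqdL]
              rw [h2, h2, h1]
            · intro ω ω' _ _ hh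
              simp only [Prod.mk.injEq] at hh ⊢
              obtain ⟨g1, g2, g3⟩ := hh
              refine ⟨?_, ?_, g3⟩
              · funext i
                exact congrFun g1 (some i)
              · exact congrFun g1 none
          rw [hE5]
          linarith only [hcd2, c1, c2, c3]
        exact by
         have heo : 0 ≤ eo := le_trans (CH_nonneg hp0 _ _) hcd2
         -- the hits
         obtain ⟨s, hs⟩ : ∃ s : ℝ, s = Real.exp (-τ) / (B₀ * K * 2 ^ qd) := ⟨_, rfl⟩
         have hBK : 0 < B₀ * K * 2 ^ qd := by positivity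
         have hs0 : 0 < s := by
           rw [hs]
           exact div_pos (Real.exp_pos _) hBK
         have hsB : s * (B₀ * K * 2 ^ (L - r₂)) ≤ Real.exp (-τ) := by
           rw [← hqd, hs, div_mul_cancel₀ _ hBK.ne']
         set Qf : Z → MvPolynomial.restrictTotalDegree (Option (Fin n)) ℝ D := fun ζ =>
           ⟨Q ζ, (MvPolynomial.mem_restrictTotalDegree _ _ _).mpr (hQ ζ).2⟩ with hQf
         have hQfne : ∀ ζ, Qf ζ ≠ 0 := fun ζ h0 => (hQ ζ).1 (congrArg Subtype.val h0)
         have hhm := hhit a L r₂ Ω Λ Ξ Z p lam x T pos A B zx zl cz G K s τ ((n + 2 * Cu') * R') Qf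
           hF.step hF.reg hF.gr hfu hr₂ hK hs0 hτ (ar_two hτL hκ₁r hτ.le) hsB
         have hTh : (∑ v, if KJ.Th D r₂ (KJ.Mj a L pos zx cz G
               (fun ζ => (Qf ζ : MvPolynomial (Option (Fin n)) ℝ)) 0 (zx (x v.1)) (x v.2)) then 0
                 else dbl p lam v) ≤ 1 / 16 := by
           refine le_trans (le_of_eq ?_) hPe
           unfold KJ.Pe
           refine Finset.sum_congr rfl fun v _ => ?_
           by_cases c : KJ.Th D r₂ (KJ.Mj a L pos zx cz G Q 0 (zx (x v.1)) (x v.2))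
           · rw [if_neg (not_not.mpr c)]
             exact if_pos c
           · rw [if_pos c]
             exact if_neg c
         have hsm : 2 * (κ₁ * ((n + 2 * Cu') * R' + Ch) / τ) ≤ 1 / 64 := by
           have h1 : κ₁ * ((n + 2 * Cu') * R' + Ch) ≤ κ₁ * (n + 2 * Cu' + Ch) * R' := by
             have h2 : Ch ≤ Ch * R' := le_mul_of_one_le_right hCh hR1
             have h3 : (κ₁ : ℝ) * ((n + 2 * Cu') * R' + Ch) ≤ κ₁ * ((n + 2 * Cu') * R' + Ch * R') :=
               mul_le_mul_of_nonneg_left (by linarith only [h2]) (by linarith only [hκ₁r])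
             refine h3.trans (le_of_eq ?_)
             ring
           have h2 : 128 * (κ₁ * (n + 2 * Cu' + Ch)) * R' ≤ τ := by
             refine le_trans ?_ hC₂R
             refine mul_le_mul_of_nonneg_right ?_ hR0
             have : 0 ≤ 5 * Cc * (n + 2 * Cu) := by positivity
             linarith only [hC₂', hct0, this]
           rw [← mul_div_assoc, div_le_iff₀ hτ]
           linarith only [h1, h2]
         exact by
          have hpG := hhm.trans (add_le_add hTh hsm)
          -- the mask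
          obtain ⟨gd, hgd1, hgd2⟩ := hmask a L r₂ qd Ω Λ Ξ
            ((Option (Fin n) → ℕ) × ((Option (Fin n) → ℕ) × W)) Z ((Option (Fin n) → ℕ) × W) β p lam x T
            pos A B zx zl cz G k₀ κ (γ + g₀) N δ ε e₁ e₃ c₃ E5 (1 / 16 + 1 / 64) s e tr Tt post zt zv
            (fun t => t.1) wz wl Qf hFγ hqdL hTt hpost hzv hczt he₃t hwz he₅ hs0 hQfne hpG (by norm_num)
          obtain ⟨mi, hmi⟩ : ∃ mi : ℝ, mi = 4 * (n * (a * Real.log 2) + E5 +
              Real.log ((D + 1) * (6 * C₀ / s) / 2 ^ qd + 4) + Cn) + c₃ + 6 * Real.log 2 +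
              5 * (n * e₁ + Cu * (L / κ + ((γ + g₀ : ℕ) : ℝ) + κ + 1 + ε * L)) := ⟨_, rfl⟩
          have hlog : Real.log ((D + 1) * (6 * C₀ / s) / 2 ^ qd + 4) ≤ τ + cl := by
            have h1 : (D + 1) * (6 * C₀ / s) / 2 ^ qd = (D + 1) * (6 * C₀ * B₀ * K) * Real.exp τ := by
              rw [hs, Real.exp_neg]
              field_simp
            have h2 : 1 ≤ Real.exp τ := Real.one_le_exp hτ.le
            have h3 : (D + 1) * (6 * C₀ / s) / 2 ^ qd + 4 ≤
                ((D + 1) * (6 * C₀ * B₀ * K) + 4) * Real.exp τ := by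
              rw [h1, add_mul]
              linarith only [h2]
            have h4 : 0 < ((D : ℝ) + 1) * (6 * C₀ * B₀ * K) + 4 := by positivity
            have h5 : 0 < (D + 1) * (6 * C₀ / s) / 2 ^ qd + 4 := by
              rw [h1]
              positivity
            refine (Real.log_le_log h5 h3).trans (le_of_eq ?_)
            rw [Real.log_mul h4.ne' (Real.exp_pos _).ne', Real.log_exp, hcl]
            ring
          have hlog0 : 0 ≤ Real.log ((D + 1) * (6 * C₀ / s) / 2 ^ qd + 4) := by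
            refine Real.log_nonneg ?_
            have : 0 ≤ ((D : ℝ) + 1) * (6 * C₀ / s) / 2 ^ qd := by positivity
            linarith only [this]
          have ha0 : (0 : ℝ) ≤ a := Nat.cast_nonneg a
          exact by
           have hm0 : (0 : ℝ) ≤ m := Nat.cast_nonneg m
           have hL0 : (0 : ℝ) ≤ L := Nat.cast_nonneg L
           have hdd : 0 ≤ n * e₁ + Cu * (L / κ + ((γ + g₀ : ℕ) : ℝ) + κ + 1 + ε * L) := by
             have i4 : (0 : ℝ) ≤ ((γ + g₀ : ℕ) : ℝ) := Nat.cast_nonneg _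
             have i5 : 0 ≤ ε * L := mul_nonneg hε0 hL0
             positivity
           have hE50 : 0 ≤ E5 := by
             rw [hE5]
             positivity
           have hmi0 : 0 ≤ mi := by
             rw [hmi]
             positivity
           have hmi1 : mi ≤ 4 * n * a + 4 * (n + 1) * m + 4 * eo + 4 * τ +
               (4 * cl + 4 * Cn + c₃ + 6) + 5 * ((n + 2 * Cu) * R') := by
             have i1 : n * (a * Real.log 2) ≤ n * a :=
               mul_le_mul_of_nonneg_left (mul_le_of_le_one_right ha0 hl21) hn0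
             have i2 : (n + 1) * (m * Real.log 2) ≤ (n + 1) * m :=
               mul_le_mul_of_nonneg_left (mul_le_of_le_one_right hm0 hl21) (add_nonneg hn0 zero_le_one)
             have i3 := hd Cu hCu
             rw [hmi, hE5]
             linarith only [hl21, hlog, i1, i2, i3]
           -- the core
           have hRt : RR n r₂ κ (γ + g₀) N ε e₁ c₃ ≤ R' := by
             rw [hR']
             exact RR_mono hr₂ le_rfl hε0
           have hCcR : Cc * (5 * ((n + 2 * Cu) * R')) + C₂' * R' ≤ τ := by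
             refine le_trans ?_ hC₂R
             have h1 : Cc * (5 * ((n + 2 * Cu) * R')) + C₂' * R' = (C₂' + 5 * Cc * (n + 2 * Cu)) * R' := by
               ring
             rw [h1]
             refine mul_le_mul_of_nonneg_right ?_ hR0
             have : 0 ≤ 128 * (κ₁ * (n + 2 * Cu' + Ch)) := by positivity
             linarith only [hC₂', hct0, this]
           exact by
            obtain ⟨X, hX⟩ : ∃ X : ℝ, X = τ + lB + 1 := ⟨_, rfl⟩
            have hX0 : 0 ≤ X := by
              rw [hX]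
              linarith only [hlB0, hτ]
            have hγ₀ : Cc * (a + mi) + C₂' * RR n r₂ κ (γ + g₀) N ε e₁ c₃ + 4 * τ + 2 * X ≤ γ₀ := by
              refine le_trans ?_ hC₁
              refine ar_gam (le_trans zero_le_one hCc) hn0 ha0 hm0 heo hτ.le ?_ hcb0 hmi1
                (mul_le_mul_of_nonneg_left hRt (le_trans zero_le_one hC₂')) hCcR ?_
              · positivity
              · rw [hX, hcb]
                exact ar_X hτ.le hlB0 hD0
            obtain ⟨Y, yt, sl, herr, hfin⟩ := hcore a r₂ Ω Λ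
              ((Option (Fin n) → ℕ) × ((Option (Fin n) → ℕ) × W)) ((Option (Fin n) → ℕ) × W) p lam
              (fun ω => tr (x ω)) Tt post A B zv (fun l t => zt (zl l t)) (fun t => t.1) Gt κ (γ + g₀) N γ₀
              δ ε e₁ c₃ lm' mi (1 / 16 + 1 / 64) τ X et gd hT hbadt (by rw [hC₀']; exact hlm3) hlm4 hτ hX0
              hmi0
              (fun gd' hgd' => by
                rw [hmi]
                exact hgd2 gd' hgd') hgd1 hγ₀
            have hlm'0 : 0 < lm' := by
              refine lt_of_lt_of_le ?_ hlm2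
              positivity
            obtain ⟨bad, S, R, hS1, hS2, hRne, hNZ, hS3⟩ := hfin (2 ^ q') (by
              push_cast
              refine le_trans ?_ hq'
              refine mul_le_mul_of_nonneg_right ?_ (by positivity)
              have h1 : ((D : ℝ) + 1) ≤ 2 * 2 ^ D := by
                have h2 : (D : ℝ) ≤ 2 ^ D := by exact_mod_cast Nat.lt_two_pow_self.le
                have h3 : (1 : ℝ) ≤ 2 ^ D := one_le_pow₀ (by norm_num)
                linarith only [h2, h3]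
              have h2 : 1 ≤ Real.exp τ := Real.one_le_exp hτ.le
              exact h1.trans (le_mul_of_one_le_right (by positivity) h2))
            -- the probability
            exact by
             have hb1 : (∑ ω, if bad ω then p ω else 0) ≤ 1 / 64 := by
               refine (le_trans (le_of_eq (Finset.sum_congr rfl fun ω _ => ite_dec _ _ _ _ _)) hS2).trans ?_
               rw [div_le_iff₀ hτ]
               have h1 : 64 * (C₂' * R') ≤ τ := by
                 refine le_trans ?_ hC₂R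
                 rw [← mul_assoc]
                 refine mul_le_mul_of_nonneg_right ?_ hR0
                 have h2 : 0 ≤ 5 * Cc * (n + 2 * Cu) := by positivity
                 have h3 : 0 ≤ 128 * (κ₁ * (n + 2 * Cu' + Ch)) := by positivity
                 linarith only [hct0, h2, h3]
               have h2 := mul_le_mul_of_nonneg_left hRt (by linarith only [hC₂'] : 0 ≤ C₂')
               linarith only [h1, h2]
             have he1 : (∑ ω, if some (yt (zt (zx (x ω)))) ≠ sl (lam ω) then p ω else 0) ≤ 7 / 16 := by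
               refine le_trans (le_trans (le_of_eq (Finset.sum_congr rfl fun ω _ => ite_dec _ _ _ _ _))
                 herr) ?_
               norm_num
             have hsm2 : (D + 1) * (κ₂ * ((n + 2 * Cu') * R' + Ct) / τ) ≤ 1 / 64 := by
               have h1 : κ₂ * ((n + 2 * Cu') * R' + Ct) ≤ κ₂ * (n + 2 * Cu' + Ct) * R' := by
                 have h2 : Ct ≤ Ct * R' := le_mul_of_one_le_right hCt hR1
                 have h3 : (κ₂ : ℝ) * ((n + 2 * Cu') * R' + Ct) ≤ κ₂ * ((n + 2 * Cu') * R' + Ct * R') :=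
                   mul_le_mul_of_nonneg_left (by linarith only [h2]) (by linarith only [hκ₂r])
                 refine h3.trans (le_of_eq ?_)
                 ring
               have h2 : ct * R' ≤ τ := by
                 refine le_trans ?_ hC₂R
                 refine mul_le_mul_of_nonneg_right ?_ hR0
                 have h4 : 0 ≤ 5 * Cc * (n + 2 * Cu) := by positivity
                 have h3 : 0 ≤ 128 * (κ₁ * (n + 2 * Cu' + Ch)) := by positivity
                 linarith only [hC₂', h4, h3]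
               have h5 := mul_le_mul_of_nonneg_left h1 (by positivity : (0 : ℝ) ≤ 64 * (D + 1))
               have h6 : 64 * ((D : ℝ) + 1) * (κ₂ * (n + 2 * Cu' + Ct) * R') = ct * R' := by
                 rw [hct]
                 ring
               rw [h6] at h5
               rw [← mul_div_assoc, div_le_iff₀ hτ]
               linarith only [h2, h5]
             exact by
              obtain ⟨Rp, hRp1, hRp2⟩ := hpf a L r₂ qd γ₀ q' C₀ Ω Λ Ξ
                ((Option (Fin n) → ℕ) × ((Option (Fin n) → ℕ) × W)) Z ((Option (Fin n) → ℕ) × W) Y p lam x T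
                pos A B zx zl cz G tr Tt post zt zv (fun l t => zt (zl l t)) (fun t => t.1) Gt lm' τ X
                ((n + 2 * Cu') * R') yt sl bad S R hF.step hT.step hC0.le
                (by
                  rw [hC₀']
                  have h1 : 0 ≤ (n : ℝ) * C₀ := mul_nonneg hn0 hC0.le
                  have h2 : ((n : ℝ) + 3) * C₀ + 1 = n * C₀ + (3 * C₀ + 1) := by ring
                  rw [h2]
                  exact le_add_of_nonneg_left h1)
                hqdL hpost hzv hczt hF.reg hF.gr hT.gr hGt (by rw [hC₀']; exact hlm3) hτ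
                (by
                  refine le_trans ?_ hC₁
                  have hcc0 : 0 ≤ Cc * (4 * n + 9 + (4 * cl + 4 * Cn + c₃ + 6)) := by positivity
                  obtain ⟨cd, hcd⟩ : ∃ cd : ℝ, cd = Cc * (4 * n + 9 + (4 * cl + 4 * Cn + c₃ + 6)) := ⟨_, rfl⟩
                  rw [← hcd] at hcc0 ⊢
                  have h1 : (D : ℝ) + 2 ≤ cb := by
                    rw [hcb]
                    linarith only [hlB0]
                  exact ar_g hcc0 hcb0 ha0 hm0 heo hτ.le h1)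
                (by rw [hX, hlB]) hfu hτL hsm2 hRne hNZ hb1 he1 hS3 hq'
              exact ⟨Y, fun ζ => yt (zt ζ), sl, fun g => S (fun i => g.1 i / 2 ^ qd, g.2), Rp,
                fun g => hS1 _, hRp1, hRp2⟩

end Pool.KS3
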