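import Pool.Agent.H82.KSP.J2H
import Pool.Agent.H82.KSP.CRM
import Pool.Agent.H72.KJ.Stmts

/-!
# Small difference: row J2
-/

set_option autoImplicit false

namespace Pool.KS3

open Finset Real
open Pool.Agent.H49.Ent Pool.Agent.H32.Dense Pool.STK Pool.KAF Pool.KAL Pool.KST

section

variable {n a L : ℕ} {C₀ : ℝ} {Ω Λ Ξ Z : Type} [Fintype Ω] {p : Ω → ℝ} {lam : Ω → Λ}
    {x : Ω → Ξ} {T : Ξ → ℕ} {pos : Ξ → Option (Fin n) → ℕ} {A B : Λ → Option (Fin n) → ℝ}
    {zx : Ξ → Z} {zl : Λ → ℕ → Z} {cz : Z → Option (Fin n) → ℕ}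
    {G : Z → MvPolynomial (Fin n) ℝ}

/-- The passive coordinate is one of few values, given the base coordinates and the leaf. -/
lemma StepF.thin (h : StepF n a L C₀ p lam x T pos A B zx zl cz) (hC₀ : 1 ≤ C₀)
    (hgr : ∀ ω, 0 < p ω → |rp (2 ^ L) (posS pos L) (x ω) none - MvPolynomial.eval
      (fun i => rp (2 ^ L) (posS pos L) (x ω) (some i)) (G (zx (x ω)))| ≤ 3 * C₀ / 2 ^ L) :
    CH p (fun ω => pos (x ω) none) (fun ω => (bas pos (x ω), zx (x ω))) ≤
      Real.log (6 * C₀ + 2) := by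
  classical
  have hp := h.leaf.isLaw
  have hp0 := hp.nonneg
  have h2L : (0 : ℝ) < 2 ^ L := by positivity
  obtain ⟨v, hv⟩ : ∃ v : (Fin n → ℕ) × Z → ℝ, v = fun b => 2 ^ L * MvPolynomial.eval
    (fun i => ((b.1 i % 2 ^ L : ℕ) : ℝ) / ((2 ^ L : ℕ) : ℝ)) (G b.2) := ⟨_, rfl⟩
  have key := CH_le_card hp0 hp.sum_one (fun ω => pos (x ω) none)
    (fun ω => (bas pos (x ω), zx (x ω)))
    (fun b => (Finset.Icc ⌈v b - 3 * C₀⌉₊ ⌊v b + 3 * C₀⌋₊).image
      (fun j => 2 ^ L * cz b.2 none + j)) (by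
      intro ω hω
      rw [Finset.mem_image]
      refine ⟨posS pos L (x ω) none, ?_, ?_⟩
      · have h1 := hgr ω hω
        have h2 : v (bas pos (x ω), zx (x ω)) = 2 ^ L * MvPolynomial.eval
            (fun i => rp (2 ^ L) (posS pos L) (x ω) (some i)) (G (zx (x ω))) := by
          rw [hv]
          rfl
        have h3 : (posS pos L (x ω) none : ℝ) = 2 ^ L * rp (2 ^ L) (posS pos L) (x ω) none := by
          simp only [rp]
          push_cast
          field_simp
        have h4 : |(posS pos L (x ω) none : ℝ) - v (bas pos (x ω), zx (x ω))| ≤ 3 * C₀ := by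
          rw [h2, h3, ← mul_sub, abs_mul, abs_of_pos h2L]
          have h5 := mul_le_mul_of_nonneg_left h1 h2L.le
          refine h5.trans (le_of_eq ?_)
          field_simp
        rw [abs_le] at h4
        rw [Finset.mem_Icc]
        constructor
        · rw [Nat.ceil_le]
          linarith only [h4, h4.1]
        · refine Nat.le_floor ?_
          linarith only [h4, h4.2]
      · have h1 := Nat.div_add_mod (pos (x ω) none) (2 ^ L)
        rw [h.cell ω none] at h1
        exact h1)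
  exact by
   refine key.trans ?_
   have h1 : Ex p (fun _ : Ω => Real.log (6 * C₀ + 2)) = Real.log (6 * C₀ + 2) :=
     Ex_const hp.sum_one _
   rw [← h1]
   refine Ex_mono hp0 fun ω hω => ?_
   refine Real.log_le_log ?_ ?_
   · have h2 : 0 < ((Finset.Icc ⌈v (bas pos (x ω), zx (x ω)) - 3 * C₀⌉₊
       ⌊v (bas pos (x ω), zx (x ω)) + 3 * C₀⌋₊).image
       (fun j => 2 ^ L * cz (zx (x ω)) none + j)).card := by
       refine Finset.card_pos.mpr (Finset.Nonempty.image ⟨posS pos L (x ω) none, ?_⟩ _)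
       have h1 := hgr ω hω
       have h2 : v (bas pos (x ω), zx (x ω)) = 2 ^ L * MvPolynomial.eval
           (fun i => rp (2 ^ L) (posS pos L) (x ω) (some i)) (G (zx (x ω))) := by
         rw [hv]
         rfl
       have h3 : (posS pos L (x ω) none : ℝ) = 2 ^ L * rp (2 ^ L) (posS pos L) (x ω) none := by
         simp only [rp]
         push_cast
         field_simp
       have h4 : |(posS pos L (x ω) none : ℝ) - v (bas pos (x ω), zx (x ω))| ≤ 3 * C₀ := by
         rw [h2, h3, ← mul_sub, abs_mul, abs_of_pos h2L]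
         have h5 := mul_le_mul_of_nonneg_left h1 h2L.le
         refine h5.trans (le_of_eq ?_)
         field_simp
       rw [abs_le] at h4
       rw [Finset.mem_Icc]
       constructor
       · rw [Nat.ceil_le]
         linarith only [h4, h4.1]
       · refine Nat.le_floor ?_
         linarith only [h4, h4.2]
     exact_mod_cast h2
   · have h2 : ∀ w : ℝ, ((Finset.Icc ⌈w - 3 * C₀⌉₊ ⌊w + 3 * C₀⌋₊).card : ℝ) ≤ 6 * C₀ + 2 := by
       intro w
       rw [Nat.card_Icc]
       by_cases hw : 0 ≤ w + 3 * C₀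
       · have h3 : (⌊w + 3 * C₀⌋₊ : ℝ) ≤ w + 3 * C₀ := Nat.floor_le hw
         have h4 : w - 3 * C₀ ≤ (⌈w - 3 * C₀⌉₊ : ℝ) := Nat.le_ceil _
         rcases le_total ⌈w - 3 * C₀⌉₊ (⌊w + 3 * C₀⌋₊ + 1) with h5 | h5
         · rw [Nat.cast_sub h5]
           push_cast
           linarith only [h3, h4]
         · rw [Nat.sub_eq_zero_of_le h5, Nat.cast_zero]
           linarith only [hC₀]
       · push Not at hw
         rw [Nat.floor_of_nonpos hw.le]
         have h5 : (0 + 1 - ⌈w - 3 * C₀⌉₊ : ℕ) ≤ 1 := by omega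
         have h6 : ((0 + 1 - ⌈w - 3 * C₀⌉₊ : ℕ) : ℝ) ≤ 1 := by exact_mod_cast h5
         linarith only [hC₀, h6]
     refine le_trans ?_ (h2 (v (bas pos (x ω), zx (x ω))))
     exact_mod_cast Finset.card_image_le

/-- Positions over a coarser position. -/
lemma CH_pos_le_cell {W S : Type} [Fintype W] {r : W → ℝ} (hr : IsLaw r) {m : ℕ}
    (b : W → Option (Fin n) → ℕ) (c : W → S) (cc : S → Option (Fin n) → ℕ)
    (hb : ∀ w, 0 < r w → ∀ o, b w o / 2 ^ m = cc (c w) o) :
    CH r b c ≤ (n + 1) * (m * Real.log 2) := by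
  classical
  have hr0 := hr.nonneg
  have h1 := CH_le_card hr0 hr.sum_one b c
    (fun s => Fintype.piFinset (fun o : Option (Fin n) => (Finset.range (2 ^ m)).image
      (fun j => 2 ^ m * cc s o + j))) (by
      intro w hw
      rw [Fintype.mem_piFinset]
      intro o
      rw [Finset.mem_image]
      refine ⟨b w o % 2 ^ m, ?_, ?_⟩
      · rw [Finset.mem_range]
        exact Nat.mod_lt _ (Nat.two_pow_pos m)
      · rw [← hb w hw o]
        exact Nat.div_add_mod _ _)
  refine h1.trans ?_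
  have h2 : Ex r (fun _ : W => ((n : ℝ) + 1) * (m * Real.log 2)) =
    (n + 1) * (m * Real.log 2) := Ex_const hr.sum_one _
  rw [← h2]
  refine Ex_mono hr0 fun w hw => ?_
  rw [Fintype.card_piFinset]
  have h3 : (((∏ o : Option (Fin n), ((Finset.range (2 ^ m)).image
      (fun j => 2 ^ m * cc (c w) o + j)).card : ℕ) : ℕ) : ℝ) ≤ (2 : ℝ) ^ (m * (n + 1)) := by
    have h4 : (∏ o : Option (Fin n), ((Finset.range (2 ^ m)).image
        (fun j => 2 ^ m * cc (c w) o + j)).card) ≤ ∏ _o : Option (Fin n), 2 ^ m := by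
      refine Finset.prod_le_prod' fun i _ => ?_
      exact Finset.card_image_le.trans (by rw [Finset.card_range])
    rw [Finset.prod_const, Finset.card_univ, Fintype.card_option, Fintype.card_fin,
      ← pow_mul] at h4
    exact_mod_cast h4
  have h5 : 0 < ∏ o : Option (Fin n), ((Finset.range (2 ^ m)).image
      (fun j => 2 ^ m * cc (c w) o + j)).card := by
    refine Finset.prod_pos fun i _ => ?_
    refine Finset.card_pos.mpr (Finset.Nonempty.image ?_ _)
    exact ⟨0, by rw [Finset.mem_range]; exact Nat.two_pow_pos m⟩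
  refine (Real.log_le_log (by exact_mod_cast h5) h3).trans (le_of_eq ?_)
  rw [Real.log_pow]
  push_cast
  ring

end

lemma Pe_eq {V : Type} [Fintype V] (q : V → ℝ) (E : V → Prop) (F : V → Prop)
    (h : ∀ v, E v ↔ F v) [DecidablePred F] : KJ.Pe q E = ∑ v, if F v then q v else 0 := by
  classical
  unfold KJ.Pe
  refine Finset.sum_congr rfl fun v _ => ?_
  by_cases c : E v
  · rw [if_pos c, if_pos ((h v).mp c)]
  · rw [if_neg c, if_neg (fun h' => c ((h v).mpr h'))]

lemma ar_one {N e : ℝ} (hN : 0 ≤ N) (he : 0 ≤ e) : e + 1 ≤ (N + 1) * (e + 1) := by nlinarith only [hN, he]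

lemma ar_two {τ κ y : ℝ} (h : τ ≤ y) (hκ : 1 ≤ κ) (hτ : 0 ≤ τ) : τ ≤ κ * y := by nlinarith only [h, hκ, hτ]

lemma ar_X {τ lB D : ℝ} (hτ : 0 ≤ τ) (hl : 0 ≤ lB) (hD : 0 ≤ D) :
    2 * (τ + lB + 1) ≤ (2 * lB + 2 * D + 8) * (τ + 1) := by
  have h1 := mul_nonneg hl hτ
  have h2 := mul_nonneg hD hτ
  nlinarith only [hτ, hD, h1, h2]

lemma ar_g {cd cb a m eo τ D : ℝ} (hcd : 0 ≤ cd) (hcb : 0 ≤ cb) (ha : 0 ≤ a) (hm : 0 ≤ m)
    (heo : 0 ≤ eo) (hτ : 0 ≤ τ) (h : D + 2 ≤ cb) :
    D + 2 + 2 * τ ≤ (cd + 5 + cb) * (a + m + eo + τ + 1) := by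
  have h1 : 0 ≤ cd * (a + m + eo + τ + 1) := by positivity
  have h2 : 0 ≤ cb * (a + m + eo + τ) := by positivity
  have h3 : (cd + 5 + cb) * (a + m + eo + τ + 1) = cd * (a + m + eo + τ + 1) +
    5 * (a + m + eo + τ + 1) + cb * (a + m + eo + τ) + cb := by ring
  rw [h3]
  linarith only [ha, hm, heo, hτ, h, h1, h2]

lemma ar_gam {Cc n a m eo τ cc cb X mi r C₂ Rt R' : ℝ} (hCc : 0 ≤ Cc) (hn : 0 ≤ n) (ha : 0 ≤ a)
    (hm : 0 ≤ m) (heo : 0 ≤ eo) (hτ : 0 ≤ τ) (hcc : 0 ≤ cc) (hcb : 0 ≤ cb)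
    (hmi : mi ≤ 4 * n * a + 4 * (n + 1) * m + 4 * eo + 4 * τ + cc + 5 * r)
    (hRt : C₂ * Rt ≤ C₂ * R') (hR : Cc * (5 * r) + C₂ * R' ≤ τ) (hX : 2 * X ≤ cb * (τ + 1)) :
    Cc * (a + mi) + C₂ * Rt + 4 * τ + 2 * X ≤
      (Cc * (4 * n + 9 + cc) + 5 + cb) * (a + m + eo + τ + 1) := by
  have i1 := mul_le_mul_of_nonneg_left hmi hCc
  have i3 : 0 ≤ Cc * n * m := by positivity
  have i4 : 0 ≤ Cc * cc * a := by positivity
  have i5 : 0 ≤ Cc * cc * m := by positivity
  have i6 : 0 ≤ Cc * cc * eo := by positivity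
  have i7 : 0 ≤ Cc * cc * τ := by positivity
  have i8 : 0 ≤ Cc * a := by positivity
  have i9 : 0 ≤ Cc * m := by positivity
  have i10 : 0 ≤ Cc * eo := by positivity
  have i11 : 0 ≤ Cc * τ := by positivity
  have i12 : 0 ≤ Cc * n * eo := by positivity
  have i13 : 0 ≤ Cc * n * τ := by positivity
  have i14 : 0 ≤ Cc * n := by positivity
  have i15 : 0 ≤ cb * (a + m + eo) := by positivity
  have e1 : (Cc * (4 * n + 9 + cc) + 5 + cb) * (a + m + eo + τ + 1) =
      4 * (Cc * n * a) + 9 * (Cc * a) + Cc * cc * a + 5 * a +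
      4 * (Cc * n * m) + 9 * (Cc * m) + Cc * cc * m + 5 * m +
      4 * (Cc * n * eo) + 9 * (Cc * eo) + Cc * cc * eo + 5 * eo +
      4 * (Cc * n * τ) + 9 * (Cc * τ) + Cc * cc * τ + 5 * τ +
      4 * (Cc * n) + 9 * Cc + Cc * cc + 5 + cb * (a + m + eo) + cb * (τ + 1) := by ring
  have e2 : Cc * (4 * n * a + 4 * (n + 1) * m + 4 * eo + 4 * τ + cc + 5 * r) =
      4 * (Cc * n * a) + 4 * (Cc * n * m) + 4 * (Cc * m) +
      4 * (Cc * eo) + 4 * (Cc * τ) + Cc * cc + Cc * (5 * r) := by ring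
  rw [e1, mul_add]
  rw [e2] at i1
  linarith only [hCc, ha, hm, heo, hRt, hR, hX, i1, i4, i5, i6, i7, i8, i9, i10, i11, i12, i13, i14, i15]

/-- **Row J2** with explicit constants. -/
theorem j2_one (n D : ℕ) (C₀ : ℝ) (hC₀ : 1 ≤ C₀) : ∃ (C₁ : ℝ) (Kc g₀ : ℕ) (c₃ : ℝ), 1 ≤ C₁ ∧
    1 ≤ Kc ∧ 0 ≤ c₃ ∧ ∀ k₀ : ℕ, ∃ C₂ : ℝ, 1 ≤ C₂ ∧
    ∀ (a L r₂ m q' : ℕ) (Ω Λ Ξ Z β : Type) [Fintype Ω] (p : Ω → ℝ) (lam : Ω → Λ)
      (x : Ω → Ξ) (T : Ξ → ℕ) (pos : Ξ → Option (Fin n) → ℕ) (A B : Λ → Option (Fin n) → ℝ)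
      (zx : Ξ → Z) (zl : Λ → ℕ → Z) (cz : Z → Option (Fin n) → ℕ)
      (G : Z → MvPolynomial (Fin n) ℝ) (wz : Z → β) (wl : Λ → β) (κ γ N γ₀ : ℕ)
      (δ ε e₁ e₃ eo lm lm' τ : ℝ) (e : Ξ → ℝ) (Q : Z → MvPolynomial (Option (Fin n)) ℝ)
      (i₀ : Fin n),
      StepH n a L C₀ k₀ κ γ N δ ε e₁ e₃ p lam x T pos A B zx zl cz G e →
      r₂ + m ≤ L →
      (∀ ω, 0 < p ω → ¬ Bad (G (zx (x ω))) (fun _ => 0) 1 D lm) →
      2 * 2 ^ D * lm ≤ lm' → 2 * 2 ^ D * (2 * 2 ^ D * (1 / 2 ^ r₂)) ≤ lm' →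
      6 * ((n + 3) * C₀ + 1) / 2 ^ r₂ ≤ lm' → lm' ≤ 1 →
      (∀ ω, pos (x ω) (some i₀) = T (x ω)) →
      (∀ ω, 0 < p ω → wz (zx (x ω)) = wl (lam ω)) →
      KJ.OV p x L pos (fun ξ => wz (zx ξ)) zx G r₂ (r₂ + m) eo →
      (∀ ζ, Q ζ ≠ 0 ∧ (Q ζ).totalDegree ≤ D) →
      KJ.Pe (dbl p lam) (fun v =>
        ¬ KJ.Th D r₂ (KJ.Mj a L pos zx cz G Q 0 (zx (x v.1)) (x v.2))) ≤ 1 / 16 →
      0 < τ → τ ≤ L * Real.log 2 →
      C₂ * RR n L κ (γ + g₀) N ε e₁ c₃ ≤ τ →
      C₁ * (a + m + eo + τ + 1) ≤ γ₀ →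
      (D + 1) * (lm' * 2 ^ (γ₀ + r₂)) ≤ 2 ^ q' →
      ∃ (Y : Type) (y : Z → Y) (sl : Λ → Option Y) (Sc : (Fin n → ℕ) × Y → Finset ℕ),
        (∀ g, (Sc g).card ≤ Kc) ∧
        1 / 4 ≤ KJ.Pe p (fun ω => some (y (zx (x ω))) = sl (lam ω) ∧
          pos (x ω) none / 2 ^ (L - r₂ + q') ∈ Sc (bas pos (x ω), y (zx (x ω)))) := by
  classical
  obtain ⟨K, Cn, hK, hCn, hmask₀⟩ := j2_mask n D
  obtain ⟨Cu, hCu, hmask⟩ := hmask₀ C₀ hC₀
  obtain ⟨B₀, hB₀, hhit₀⟩ := hit_mass n D C₀ hC₀
  have h3C : (1 : ℝ) ≤ 3 * C₀ := by linarith only [hC₀]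
  obtain ⟨Cu', hCu', hful⟩ := fulh_thm n (3 * C₀) h3C
  have hn0 : (0 : ℝ) ≤ n := Nat.cast_nonneg n
  have hD0 : (0 : ℝ) ≤ D := Nat.cast_nonneg D
  have hC0 : (0 : ℝ) < C₀ := by linarith
  obtain ⟨C₀', hC₀'⟩ : ∃ C₀' : ℝ, C₀' = (n + 3) * C₀ + 1 := ⟨_, rfl⟩
  have hC₀'1 : 1 ≤ C₀' := by
    rw [hC₀']
    have : 0 ≤ (n + 3) * C₀ := by positivity
    linarith only [this]
  obtain ⟨Cc, Kc, hCc, hKc, hcore₀⟩ := stp_core_card' n D C₀' (1 / 8) hC₀'1 (by norm_num)
  obtain ⟨g₀, hg₀⟩ : ∃ g₀ : ℕ, (C₀' / C₀) ^ n ≤ 2 ^ g₀ := by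
    obtain ⟨g₀, hg₀⟩ := pow_unbounded_of_one_lt ((C₀' / C₀) ^ n) (by norm_num : (1 : ℝ) < 2)
    exact ⟨g₀, hg₀.le⟩
  obtain ⟨c₃, hc₃⟩ : ∃ c₃ : ℝ, c₃ = Real.log (6 * C₀' + 2) := ⟨_, rfl⟩
  have hc₃0 : 0 ≤ c₃ := by
    rw [hc₃]
    exact Real.log_nonneg (by linarith only [hC₀'1])
  obtain ⟨cl, hcl⟩ : ∃ cl : ℝ, cl = Real.log ((D + 1) * (6 * C₀ * B₀ * K) + 4) := ⟨_, rfl⟩
  have hcl0 : 0 ≤ cl := by
    rw [hcl]
    refine Real.log_nonneg ?_
    have : 0 ≤ ((D : ℝ) + 1) * (6 * C₀ * B₀ * K) := by positivity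
    linarith only [this]
  refine ⟨Cc * (4 * n + 9 + (4 * cl + 4 * Cn + c₃ + 6)) + 5, Kc, g₀, c₃, ?_, hKc, hc₃0, ?_⟩
  · have : 0 ≤ Cc * (4 * n + 9 + (4 * cl + 4 * Cn + c₃ + 6)) := by positivity
    linarith only [this]
  exact by
   intro k₀
   obtain ⟨C₂', hC₂', hcore⟩ := hcore₀ k₀
   obtain ⟨κ₁, Ch, hκ₁, hCh, hhit⟩ := hhit₀ k₀
   have hκ₁r : (1 : ℝ) ≤ κ₁ := by exact_mod_cast hκ₁
   refine ⟨64 * C₂' + 128 * (κ₁ * (n + 2 * Cu' + Ch)) + 5 * Cc * (n + 2 * Cu) + 1, ?_, ?_⟩
   · have : 0 ≤ 64 * C₂' + 128 * (κ₁ * (n + 2 * Cu' + Ch)) + 5 * Cc * (n + 2 * Cu) := by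
       positivity
     linarith only [this]
   intro a L r₂ m q' Ω Λ Ξ Z β _ p lam x T pos A B zx zl cz G wz wl κ γ N γ₀ δ ε e₁ e₃ eo lm lm'
     τ e Q i₀ hF hr₂m hbad hlm1 hlm2 hlm3 hlm4 htime hwz hOV hQ hPe hτ hτL hC₂R hC₁ hq'
   have hr₂ : r₂ ≤ L := by omega
   have hp := hF.step.leaf.isLaw
   have hp0 := hp.nonneg
   have hl20 : 0 < Real.log 2 := Real.log_pos (by norm_num)
   have hl21 : Real.log 2 ≤ 1 := by
     have := Real.log_two_lt_d9
     linarith only [hl20, this]
   -- a larger `γ`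
   have hFγ : StepH n a L C₀ k₀ κ (γ + g₀) N δ ε e₁ e₃ p lam x T pos A B zx zl cz G e :=
     { hF with
       hγ := by
         refine hF.hγ.trans ?_
         refine mul_le_mul_of_nonneg_left ?_ (pow_nonneg hF.hδ.le _)
         exact pow_le_pow_right₀ (by norm_num) (Nat.le_add_right _ _) }
   have hγ' : (n.factorial : ℝ) * (6 * ((n + 3) * C₀ + 1)) ^ n ≤ δ ^ n * 2 ^ (γ + g₀) := by
     rw [← hC₀']
     have h1 : (6 * C₀') ^ n = (6 * C₀) ^ n * (C₀' / C₀) ^ n := by
       rw [← mul_pow]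
       congr 1
       field_simp
     rw [h1, ← mul_assoc, pow_add, ← mul_assoc]
     exact mul_le_mul hF.hγ hg₀ (by positivity)
       (mul_nonneg (pow_nonneg hF.hδ.le _) (by positivity))
   -- the small error
   exact by
    obtain ⟨R', hR'⟩ : ∃ R' : ℝ, R' = RR n L κ (γ + g₀) N ε e₁ c₃ := ⟨_, rfl⟩
    rw [← hR'] at hC₂R
    have hε0 := hF.ε_nonneg
    have he₁0 := hF.he₁0
    obtain ⟨hR1, hR2, hR3⟩ : 1 ≤ R' ∧ e₁ ≤ R' ∧
        (L : ℝ) / κ + ((γ + g₀ : ℕ) : ℝ) + κ + ε * L ≤ R' := by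
      have hN0 : (0 : ℝ) ≤ N := Nat.cast_nonneg N
      have hpw := pw_nonneg n N
      have hL0 : (0 : ℝ) ≤ L := Nat.cast_nonneg L
      have i1 : 0 ≤ (1 - 1 / (n : ℝ)) ^ N * (L + c₃) := mul_nonneg hpw (by linarith only [hc₃0])
      have i2 : e₁ + 1 ≤ (N + 1) * (e₁ + 1) := ar_one hN0 he₁0
      have i3 : 0 ≤ (L : ℝ) / κ := by positivity
      have i4 : (0 : ℝ) ≤ ((γ + g₀ : ℕ) : ℝ) := Nat.cast_nonneg _
      have i5 : (0 : ℝ) ≤ κ := Nat.cast_nonneg _
      have i6 : 0 ≤ ε * L := mul_nonneg hε0 hL0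
      have i7 : R' = (N + 1) * (e₁ + 1) + c₃ + (1 - 1 / (n : ℝ)) ^ N * (L + c₃) + L / κ +
        ((γ + g₀ : ℕ) : ℝ) + κ + ε * L := hR'
      refine ⟨?_, ?_, ?_⟩ <;> linarith
    have hR0 : 0 ≤ R' := by linarith only [hR1]
    have hd : ∀ Cv : ℝ, 0 ≤ Cv → n * e₁ + Cv * (L / κ + ((γ + g₀ : ℕ) : ℝ) + κ + 1 + ε * L) ≤
        (n + 2 * Cv) * R' := by
      intro Cv hCv
      have i1 := mul_le_mul_of_nonneg_left hR2 hn0
      have i2 : Cv * (L / κ + ((γ + g₀ : ℕ) : ℝ) + κ + 1 + ε * L) ≤ Cv * (2 * R') :=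
        mul_le_mul_of_nonneg_left (by linarith only [hR1, hR3]) hCv
      linarith only [i1, i2]
    have hfu : n * (L * Real.log 2) - CH p (fun ω => bas (posS pos L) (x ω))
        (fun ω => zx (x ω)) ≤ (n + 2 * Cu') * R' := by
      refine le_trans (hful Ω (Λ × ℕ) Ξ Z p (lamS lam x T L) x (TS T L) (posS pos L)
        (AS A B zl cz a) (BS B) zx (fun l => zl l.1 l.2) L κ (γ + g₀) δ ε e₁ e (hF.step.small hC₀)
        (fun ω _ => hF.step.lab ω) hF.hδ hF.he hF.hex (NCF_small hF.hnc)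
        (by
          refine le_trans ?_ hFγ.hγ
          have h1 : (0 : ℝ) ≤ n.factorial := Nat.cast_nonneg _
          refine mul_le_mul_of_nonneg_left ?_ h1
          exact pow_le_pow_left₀ (by linarith only [hC₀]) (by linarith only [hC₀]) _) hF.hκ hF.he₁) (hd Cu' hCu')
    -- the truncation
    exact by
     obtain ⟨W, cd, hcd1, hcd2⟩ := hOV
     obtain ⟨qd, hqd⟩ : ∃ qd, qd = L - r₂ := ⟨_, rfl⟩
     have hqdL : qd + r₂ = L := by omega
     set zt : Z → (Option (Fin n) → ℕ) × W := fun ζ => (cz ζ, cd ζ) with hzt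
     set tr : Ξ → (Option (Fin n) → ℕ) × ((Option (Fin n) → ℕ) × W) :=
       fun ξ => (fun o => pos ξ o / 2 ^ qd, zt (zx ξ)) with htr
     set Tt : (Option (Fin n) → ℕ) × ((Option (Fin n) → ℕ) × W) → ℕ :=
       fun ξ => ξ.1 (some i₀) with hTtd
     set post : (Option (Fin n) → ℕ) × ((Option (Fin n) → ℕ) × W) → Option (Fin n) → ℕ :=
       fun ξ => ξ.1 with hpostd
     set zv : (Option (Fin n) → ℕ) × ((Option (Fin n) → ℕ) × W) → (Option (Fin n) → ℕ) × W :=
       fun ξ => ξ.2 with hzvd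
     have hTt : ∀ ω, Tt (tr (x ω)) = T (x ω) / 2 ^ qd := by
       intro ω
       simp only [hTtd, htr]
       rw [htime]
     have hpost : ∀ ω o, post (tr (x ω)) o = pos (x ω) o / 2 ^ qd := fun _ _ => rfl
     have hzv : ∀ ω, zv (tr (x ω)) = zt (zx (x ω)) := fun _ => rfl
     have hczt : ∀ ω, (zt (zx (x ω))).1 = cz (zx (x ω)) := fun _ => rfl
     -- the truncated graphs
     have hGex : ∃ Gt : (Option (Fin n) → ℕ) × W → MvPolynomial (Fin n) ℝ,
         ∀ ω, 0 < p ω → ∃ ω', 0 < p ω' ∧ zt (zx (x ω')) = zt (zx (x ω)) ∧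
           Gt (zt (zx (x ω))) = G (zx (x ω')) := by
       refine ⟨fun t => if h : ∃ ω, 0 < p ω ∧ zt (zx (x ω)) = t then G (zx (x h.choose)) else 0,
         fun ω hω => ?_⟩
       have h : ∃ ω', 0 < p ω' ∧ zt (zx (x ω')) = zt (zx (x ω)) := ⟨ω, hω, rfl⟩
       refine ⟨h.choose, h.choose_spec.1, h.choose_spec.2, ?_⟩
       simp only
       rw [dif_pos h]
     obtain ⟨Gt, hGt0⟩ := hGex
     exact by
      have hcl' : ∀ ω ω', 0 < p ω → 0 < p ω' → zt (zx (x ω)) = zt (zx (x ω')) →
          ∀ y ∈ cube (fun _ : Fin n => (0 : ℝ)) 1, |MvPolynomial.eval y (G (zx (x ω))) -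
            MvPolynomial.eval y (G (zx (x ω')))| ≤ 1 / 2 ^ r₂ := by
        intro ω ω' hω hω' hh
        simp only [hzt, Prod.mk.injEq] at hh
        refine hcd1 ω ω' hω hω' (fun o => ?_) hh.2
        rw [hF.step.cell ω o, hF.step.cell ω' o, hh.1]
      have hGt : ∀ ω, 0 < p ω → ∀ y ∈ cube (fun _ : Fin n => (0 : ℝ)) 1,
          |MvPolynomial.eval y (G (zx (x ω))) - MvPolynomial.eval y (Gt (zt (zx (x ω))))| ≤
            1 / 2 ^ r₂ := by
        intro ω hω y hy
        obtain ⟨ω', h1, h2, h3⟩ := hGt0 ω hω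
        rw [h3]
        exact hcl' ω ω' hω h1 h2.symm y hy
      have hregt : ∀ ω, 0 < p ω → RegG (Gt (zt (zx (x ω)))) (fun _ => 0) 1 k₀ (3 * C₀) := by
        intro ω hω
        obtain ⟨ω', h1, -, h3⟩ := hGt0 ω hω
        rw [h3]
        exact hF.reg ω' h1
      obtain ⟨et, hT0⟩ := hFγ.trc hC₀ hqdL tr Tt post zt zv (fun t => t.1) Gt 1
        (CH p (fun ω => tr (x ω)) (fun ω => (bas post (tr (x ω)), zt (zx (x ω))))) hTt hpost hzv
        hczt zero_le_one hregt hGt hγ' le_rfl
      rw [← hC₀'] at hT0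
      have he₃t : CH p (fun ω => tr (x ω)) (fun ω => (bas post (tr (x ω)), zt (zx (x ω)))) ≤
          c₃ := by
        have h1 := hT0.step.thin hC₀'1 hT0.gr
        rw [← hc₃] at h1
        refine le_trans (CH_mono_left hp0 ?_) h1
        intro ω ω' _ _ hh
        simp only [Prod.mk.injEq] at hh
        obtain ⟨g1, g2, g3⟩ := hh
        refine Prod.ext ?_ g3
        funext o
        cases o with
        | none => exact g1
        | some i => exact congrFun g2 i
      exact by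
       have hT : StepH n a r₂ C₀' k₀ κ (γ + g₀) N δ ε e₁ c₃ p lam (fun ω => tr (x ω)) Tt post A B zv
           (fun l t => zt (zl l t)) (fun t => t.1) Gt et := { hT0 with he₃ := he₃t }
       -- the cubes of the truncated graphs are not bad
       have hbadt : ∀ ω, 0 < p ω → ¬ Bad (Gt (zv (tr (x ω)))) (fun _ => 0) 1 D lm' := by
         intro ω hω
         have h2D : (0 : ℝ) < 2 * 2 ^ D := by positivity
         have hlm'0 : 0 < lm' := by
           refine lt_of_lt_of_le ?_ hlm2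
           positivity
         refine bad_stab (ρ := 1 / 2 ^ r₂) (r := lm' / (2 * 2 ^ D)) (hbad ω hω) (hGt ω hω)
           (by positivity) ?_ ?_ ?_
         · rw [le_div_iff₀ h2D]
           linarith only [hlm1]
         · rw [le_div_iff₀ h2D]
           linarith only [hlm2]
         · rw [mul_div_cancel₀ _ h2D.ne']
       -- own-visibility
       obtain ⟨E5, hE5⟩ : ∃ E5 : ℝ, E5 = (n + 1) * (m * Real.log 2) + eo := ⟨_, rfl⟩
       have he₅ : CH p (fun ω => zt (zx (x ω))) (fun ω => (post (tr (x ω)), wz (zx (x ω)))) ≤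
           E5 := by
         have c1 := CH_le_add hp0 (fun ω => zt (zx (x ω)))
           (fun ω (o : Option (Fin n)) => pos (x ω) o / 2 ^ (L - (r₂ + m)))
           (fun ω => (post (tr (x ω)), wz (zx (x ω))))
         have c2 : CH p (fun ω (o : Option (Fin n)) => pos (x ω) o / 2 ^ (L - (r₂ + m)))
             (fun ω => (post (tr (x ω)), wz (zx (x ω)))) ≤ (n + 1) * (m * Real.log 2) := by
           refine CH_pos_le_cell (m := m) hp _ _ (fun t => t.1) fun ω _ o => ?_
           change pos (x ω) o / 2 ^ (L - (r₂ + m)) / 2 ^ m = pos (x ω) o / 2 ^ qd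
           rw [Nat.div_div_eq_div_mul, ← pow_add]
           congr 2
           omega
         have c3 : CH p (fun ω => zt (zx (x ω)))
             (fun ω => ((fun (o : Option (Fin n)) => pos (x ω) o / 2 ^ (L - (r₂ + m))),
               (post (tr (x ω)), wz (zx (x ω))))) ≤ CH p (fun ω => cd (zx (x ω)))
               (fun ω => (KJ.Yr L pos (r₂ + m) (x ω), (KJ.Nr L pos (r₂ + m) (x ω),
                 wz (zx (x ω))))) := by
           refine (CH_mono_left (X' := fun ω => cd (zx (x ω))) hp0 ?_).trans (CH_mono_cond hp0 ?_)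
           · intro ω ω' _ _ hh
             simp only [Prod.mk.injEq] at hh
             obtain ⟨g1, g2, g3, g4⟩ := hh
             simp only [hzt]
             refine Prod.ext ?_ g1
             funext o
             simp only
             rw [← hF.step.cell ω o, ← hF.step.cell ω' o]
             have h1 : post (tr (x ω)) o = post (tr (x ω')) o := congrFun g3 o
             rw [hpost, hpost] at h1
             have h2 : ∀ t : ℕ, t / 2 ^ L = t / 2 ^ qd / 2 ^ r₂ := by
               intro t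
               rw [Nat.div_div_eq_div_mul, ← pow_add, hqdL]
             rw [h2, h2, h1]
           · intro ω ω' _ _ hh
             simp only [Prod.mk.injEq] at hh ⊢
             obtain ⟨g1, g2, g3⟩ := hh
             refine ⟨?_, ?_, g3⟩
             · funext i
               exact congrFun g1 (some i)
             · exact congrFun g1 none
         rw [hE5]
         linarith only [hcd2, c1, c2, c3]
       exact by
        have heo : 0 ≤ eo := le_trans (CH_nonneg hp0 _ _) hcd2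
        -- the hits
        obtain ⟨s, hs⟩ : ∃ s : ℝ, s = Real.exp (-τ) / (B₀ * K * 2 ^ qd) := ⟨_, rfl⟩
        have hBK : 0 < B₀ * K * 2 ^ qd := by positivity
        have hs0 : 0 < s := by
          rw [hs]
          exact div_pos (Real.exp_pos _) hBK
        have hsB : s * (B₀ * K * 2 ^ (L - r₂)) ≤ Real.exp (-τ) := by
          rw [← hqd, hs, div_mul_cancel₀ _ hBK.ne']
        set Qf : Z → MvPolynomial.restrictTotalDegree (Option (Fin n)) ℝ D := fun ζ =>
          ⟨Q ζ, (MvPolynomial.mem_restrictTotalDegree _ _ _).mpr (hQ ζ).2⟩ with hQf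
        have hQfne : ∀ ζ, Qf ζ ≠ 0 := fun ζ h0 => (hQ ζ).1 (congrArg Subtype.val h0)
        have hhm := hhit a L r₂ Ω Λ Ξ Z p lam x T pos A B zx zl cz G K s τ ((n + 2 * Cu') * R') Qf
          hF.step hF.reg hF.gr hfu hr₂ hK hs0 hτ (ar_two hτL hκ₁r hτ.le) hsB
        have hTh : (∑ v, if KJ.Th D r₂ (KJ.Mj a L pos zx cz G
              (fun ζ => (Qf ζ : MvPolynomial (Option (Fin n)) ℝ)) 0 (zx (x v.1)) (x v.2)) then 0
                else dbl p lam v) ≤ 1 / 16 := by
          refine le_trans (le_of_eq ?_) hPe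
          unfold KJ.Pe
          refine Finset.sum_congr rfl fun v _ => ?_
          by_cases c : KJ.Th D r₂ (KJ.Mj a L pos zx cz G Q 0 (zx (x v.1)) (x v.2))
          · rw [if_neg (not_not.mpr c)]
            exact if_pos c
          · rw [if_pos c]
            exact if_neg c
        have hsm : 2 * (κ₁ * ((n + 2 * Cu') * R' + Ch) / τ) ≤ 1 / 64 := by
          have h1 : κ₁ * ((n + 2 * Cu') * R' + Ch) ≤ κ₁ * (n + 2 * Cu' + Ch) * R' := by
            have h2 : Ch ≤ Ch * R' := le_mul_of_one_le_right hCh hR1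
            have h3 : (κ₁ : ℝ) * ((n + 2 * Cu') * R' + Ch) ≤ κ₁ * ((n + 2 * Cu') * R' + Ch * R') :=
              mul_le_mul_of_nonneg_left (by linarith only [h2]) (by linarith only [hκ₁r])
            refine h3.trans (le_of_eq ?_)
            ring
          have h2 : 128 * (κ₁ * (n + 2 * Cu' + Ch)) * R' ≤ τ := by
            refine le_trans ?_ hC₂R
            refine mul_le_mul_of_nonneg_right ?_ hR0
            have : 0 ≤ 5 * Cc * (n + 2 * Cu) := by positivity
            linarith only [hC₂', this]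
          rw [← mul_div_assoc, div_le_iff₀ hτ]
          linarith only [h1, h2]
        exact by
         have hpG := hhm.trans (add_le_add hTh hsm)
         -- the mask
         obtain ⟨gd, hgd1, hgd2⟩ := hmask a L r₂ qd Ω Λ Ξ
           ((Option (Fin n) → ℕ) × ((Option (Fin n) → ℕ) × W)) Z ((Option (Fin n) → ℕ) × W) β p lam x T
           pos A B zx zl cz G k₀ κ (γ + g₀) N δ ε e₁ e₃ c₃ E5 (1 / 16 + 1 / 64) s e tr Tt post zt zv
           (fun t => t.1) wz wl Qf hFγ hqdL hTt hpost hzv hczt he₃t hwz he₅ hs0 hQfne hpG (by norm_num)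
         obtain ⟨mi, hmi⟩ : ∃ mi : ℝ, mi = 4 * (n * (a * Real.log 2) + E5 +
             Real.log ((D + 1) * (6 * C₀ / s) / 2 ^ qd + 4) + Cn) + c₃ + 6 * Real.log 2 +
             5 * (n * e₁ + Cu * (L / κ + ((γ + g₀ : ℕ) : ℝ) + κ + 1 + ε * L)) := ⟨_, rfl⟩
         have hlog : Real.log ((D + 1) * (6 * C₀ / s) / 2 ^ qd + 4) ≤ τ + cl := by
           have h1 : (D + 1) * (6 * C₀ / s) / 2 ^ qd = (D + 1) * (6 * C₀ * B₀ * K) * Real.exp τ := by
             rw [hs, Real.exp_neg]
             field_simp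
           have h2 : 1 ≤ Real.exp τ := Real.one_le_exp hτ.le
           have h3 : (D + 1) * (6 * C₀ / s) / 2 ^ qd + 4 ≤
               ((D + 1) * (6 * C₀ * B₀ * K) + 4) * Real.exp τ := by
             rw [h1, add_mul]
             linarith only [h2]
           have h4 : 0 < ((D : ℝ) + 1) * (6 * C₀ * B₀ * K) + 4 := by positivity
           have h5 : 0 < (D + 1) * (6 * C₀ / s) / 2 ^ qd + 4 := by
             rw [h1]
             positivity
           refine (Real.log_le_log h5 h3).trans (le_of_eq ?_)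
           rw [Real.log_mul h4.ne' (Real.exp_pos _).ne', Real.log_exp, hcl]
           ring
         have hlog0 : 0 ≤ Real.log ((D + 1) * (6 * C₀ / s) / 2 ^ qd + 4) := by
           refine Real.log_nonneg ?_
           have : 0 ≤ ((D : ℝ) + 1) * (6 * C₀ / s) / 2 ^ qd := by positivity
           linarith only [this]
         have ha0 : (0 : ℝ) ≤ a := Nat.cast_nonneg a
         exact by
          have hm0 : (0 : ℝ) ≤ m := Nat.cast_nonneg m
          have hL0 : (0 : ℝ) ≤ L := Nat.cast_nonneg L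
          have hdd : 0 ≤ n * e₁ + Cu * (L / κ + ((γ + g₀ : ℕ) : ℝ) + κ + 1 + ε * L) := by
            have i4 : (0 : ℝ) ≤ ((γ + g₀ : ℕ) : ℝ) := Nat.cast_nonneg _
            have i5 : 0 ≤ ε * L := mul_nonneg hε0 hL0
            positivity
          have hE50 : 0 ≤ E5 := by
            rw [hE5]
            positivity
          have hmi0 : 0 ≤ mi := by
            rw [hmi]
            positivity
          have hmi1 : mi ≤ 4 * n * a + 4 * (n + 1) * m + 4 * eo + 4 * τ +
              (4 * cl + 4 * Cn + c₃ + 6) + 5 * ((n + 2 * Cu) * R') := by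
            have i1 : n * (a * Real.log 2) ≤ n * a :=
              mul_le_mul_of_nonneg_left (mul_le_of_le_one_right ha0 hl21) hn0
            have i2 : (n + 1) * (m * Real.log 2) ≤ (n + 1) * m :=
              mul_le_mul_of_nonneg_left (mul_le_of_le_one_right hm0 hl21) (add_nonneg hn0 zero_le_one)
            have i3 := hd Cu hCu
            rw [hmi, hE5]
            linarith only [hl21, hlog, i1, i2, i3]
          -- the core
          have hRt : RR n r₂ κ (γ + g₀) N ε e₁ c₃ ≤ R' := by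
            rw [hR']
            exact RR_mono hr₂ le_rfl hε0
          have hCcR : Cc * (5 * ((n + 2 * Cu) * R')) + C₂' * R' ≤ τ := by
            refine le_trans ?_ hC₂R
            have h1 : Cc * (5 * ((n + 2 * Cu) * R')) + C₂' * R' = (C₂' + 5 * Cc * (n + 2 * Cu)) * R' := by
              ring
            rw [h1]
            refine mul_le_mul_of_nonneg_right ?_ hR0
            have : 0 ≤ 128 * (κ₁ * (n + 2 * Cu' + Ch)) := by positivity
            linarith only [hC₂', this]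
          exact by
           have hγ₀ : Cc * (a + mi) + C₂' * RR n r₂ κ (γ + g₀) N ε e₁ c₃ + 4 * τ ≤ γ₀ := by
             refine le_trans ?_ hC₁
             have h1 := ar_gam (le_trans zero_le_one hCc) hn0 ha0 hm0 heo hτ.le
               (by positivity : 0 ≤ 4 * cl + 4 * Cn + c₃ + 6) (le_refl (0 : ℝ)) hmi1
               (mul_le_mul_of_nonneg_left hRt (le_trans zero_le_one hC₂')) hCcR
               (by rw [zero_mul, mul_zero] : (2 : ℝ) * 0 ≤ 0 * (τ + 1))
             rw [mul_zero, add_zero, add_zero] at h1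
             exact h1
           obtain ⟨Y, yt, sl, herr, hfin⟩ := hcore a r₂ Ω Λ
             ((Option (Fin n) → ℕ) × ((Option (Fin n) → ℕ) × W)) ((Option (Fin n) → ℕ) × W) p lam
             (fun ω => tr (x ω)) Tt post A B zv (fun l t => zt (zl l t)) (fun t => t.1) Gt κ (γ + g₀) N γ₀
             δ ε e₁ c₃ lm' mi (1 / 16 + 1 / 64) τ et gd hT hbadt (by rw [hC₀']; exact hlm3) hlm4 hτ hmi0
             (fun gd' hgd' => by
               rw [hmi]
               exact hgd2 gd' hgd') hgd1 hγ₀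
           obtain ⟨bad, S, hS1, hS2, hS3⟩ := hfin (2 ^ q') (by
             push_cast
             exact hq')
           refine ⟨Y, fun ζ => yt (zt ζ), sl, fun g => S (fun i => g.1 i / 2 ^ qd, g.2),
             fun g => hS1 _, ?_⟩
           -- the probability
           have hb1 : (∑ ω, if bad ω then p ω else 0) ≤ 1 / 64 := by
             refine (le_trans (le_of_eq (Finset.sum_congr rfl fun ω _ => ite_dec _ _ _ _ _)) hS2).trans ?_
             rw [div_le_iff₀ hτ]
             have h1 : 64 * (C₂' * R') ≤ τ := by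
               refine le_trans ?_ hC₂R
               rw [← mul_assoc]
               refine mul_le_mul_of_nonneg_right ?_ hR0
               have h2 : 0 ≤ 5 * Cc * (n + 2 * Cu) := by positivity
               have h3 : 0 ≤ 128 * (κ₁ * (n + 2 * Cu' + Ch)) := by positivity
               linarith only [h2, h3]
             have h2 := mul_le_mul_of_nonneg_left hRt (by linarith only [hC₂'] : 0 ≤ C₂')
             linarith only [h1, h2]
           exact by
            have he1 : (∑ ω, if some (yt (zt (zx (x ω)))) ≠ sl (lam ω) then p ω else 0) ≤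
                1 / 8 + 4 * (1 / 16 + 1 / 64) :=
              le_trans (le_of_eq (Finset.sum_congr rfl fun ω _ => ite_dec _ _ _ _ _)) herr
            have htot : 1 ≤ KJ.Pe p (fun ω => some (yt (zt (zx (x ω)))) = sl (lam ω) ∧
                  pos (x ω) none / 2 ^ (L - r₂ + q') ∈
                    S (fun i => bas pos (x ω) i / 2 ^ qd, yt (zt (zx (x ω))))) +
                (∑ ω, if some (yt (zt (zx (x ω)))) ≠ sl (lam ω) then p ω else 0) +
                (∑ ω, if bad ω then p ω else 0) := by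
              have e0 : KJ.Pe p (fun ω => some (yt (zt (zx (x ω)))) = sl (lam ω) ∧
                  pos (x ω) none / 2 ^ (L - r₂ + q') ∈
                    S (fun i => bas pos (x ω) i / 2 ^ qd, yt (zt (zx (x ω))))) =
                  ∑ ω, if some (yt (zt (zx (x ω)))) = sl (lam ω) ∧
                  pos (x ω) none / 2 ^ (L - r₂ + q') ∈
                    S (fun i => bas pos (x ω) i / 2 ^ qd, yt (zt (zx (x ω)))) then p ω else 0 :=
                Pe_eq _ _ _ (fun _ => Iff.rfl)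
              rw [← hp.sum_one, e0]
              rw [← Finset.sum_add_distrib, ← Finset.sum_add_distrib]
              refine Finset.sum_le_sum fun ω _ => ?_
              have hpω := hp0 ω
              rcases hpω.eq_or_lt with h0 | h0
              · rw [← h0]
                split_ifs <;> norm_num
              · by_cases c1 : some (yt (zt (zx (x ω)))) = sl (lam ω)
                · by_cases c2 : bad ω
                  · rw [if_pos c2]
                    have i1 : (0 : ℝ) ≤ if some (yt (zt (zx (x ω)))) = sl (lam ω) ∧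
                      pos (x ω) none / 2 ^ (L - r₂ + q') ∈
                        S (fun i => bas pos (x ω) i / 2 ^ qd, yt (zt (zx (x ω)))) then p ω else 0 := by
                      split_ifs
                      exacts [hpω, le_rfl]
                    have i2 : (0 : ℝ) ≤ if some (yt (zt (zx (x ω)))) ≠ sl (lam ω) then p ω else 0 := by
                      split_ifs
                      exacts [hpω, le_rfl]
                    linarith only [i1, i2]
                  · have h1 := hS3 ω h0 c2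
                    have h2 : pos (x ω) none / 2 ^ (L - r₂ + q') ∈
                        S (fun i => bas pos (x ω) i / 2 ^ qd, yt (zt (zx (x ω)))) := by
                      have h3 : post (tr (x ω)) none / 2 ^ q' = pos (x ω) none / 2 ^ (L - r₂ + q') := by
                        rw [hpost, Nat.div_div_eq_div_mul, ← pow_add, hqd]
                      rw [← h3]
                      exact h1
                    rw [if_pos ⟨c1, h2⟩]
                    have i2 : (0 : ℝ) ≤ if some (yt (zt (zx (x ω)))) ≠ sl (lam ω) then p ω else 0 := by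
                      split_ifs
                      exacts [hpω, le_rfl]
                    have i3 : (0 : ℝ) ≤ if bad ω then p ω else 0 := by
                      split_ifs
                      exact le_rfl
                    linarith only [i2, i3]
                · have i2 : (if some (yt (zt (zx (x ω)))) ≠ sl (lam ω) then p ω else 0) = p ω :=
                    if_pos c1
                  rw [i2]
                  have i1 : (0 : ℝ) ≤ if some (yt (zt (zx (x ω)))) = sl (lam ω) ∧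
                      pos (x ω) none / 2 ^ (L - r₂ + q') ∈
                        S (fun i => bas pos (x ω) i / 2 ^ qd, yt (zt (zx (x ω)))) then p ω else 0 := by
                    split_ifs
                    exacts [hpω, le_rfl]
                  have i3 : (0 : ℝ) ≤ if bad ω then p ω else 0 := by
                    split_ifs
                    exacts [hpω, le_rfl]
                  linarith only [i1, i3]
            change 1 / 4 ≤ KJ.Pe p (fun ω => some (yt (zt (zx (x ω)))) = sl (lam ω) ∧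
                  pos (x ω) none / 2 ^ (L - r₂ + q') ∈
                    S (fun i => bas pos (x ω) i / 2 ^ qd, yt (zt (zx (x ω)))))
            linarith only [herr, hb1, htot]

end Pool.KS3
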