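import Pool.Agent.H82.KSP.GOC
import Pool.Agent.H82.KSP.MIXH
import Pool.Agent.H8.KS3.FIL

/-!
# Remez inequality on the leaf of the other time

`K_STEP_helper79.md` (1.5). A family of leaves with labels, each leaf is the graph of a polynomial
`G` of bounded (not uniform) degree over the unit cube. `X` is a random point of the leaves and
`P` a polynomial depending on a variable `c`. The supremum of the jets of `P` over the leaf of `X`
is bounded by the jet at `X`, at the cost of `2 D` times the mutual information of `c` and `X`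
given the leaf. The degree of `G` enters only through the deficits.
-/

set_option autoImplicit false

namespace Pool.KS3

open Finset Real
open Pool.Agent.H49.Ent Pool.Agent.H32.Dense Pool.STK Pool.KAF Pool.KAL

/-- Remez inequality in several variables, in the mean. -/
theorem fil : FILStmt := fil_thm (rik_thm rmg_thm gvi_thm)

/-- Row LRP. -/
def LRPStmt : Prop :=
  ∀ (n D k₀ : ℕ) (C₀ : ℝ), 1 ≤ C₀ → ∃ C : ℝ, 0 ≤ C ∧
    ∀ (Ω Λ Ξ Z V Γ : Type) [Fintype Ω] [Fintype V] (p : Ω → ℝ) (lam : Ω → Λ) (x : Ω → Ξ)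
      (T : Ξ → ℕ) (pos : Ξ → Option (Fin n) → ℕ) (A B : Λ → Option (Fin n) → ℝ) (zx : Ξ → Z)
      (zl : Λ → Z) (G : Z → MvPolynomial (Fin n) ℝ) (L κ γ N : ℕ) (δ ε e₁ e₃ : ℝ) (e : Ξ → ℝ)
      (r : V → ℝ) (X : V → Ξ) (c : V → Γ) (P : Γ → Z → MvPolynomial (Option (Fin n)) ℝ)
      (S : Γ → Z → ℝ),
      Leaf n (2 ^ L) C₀ p lam x T pos A B → (∀ ω, 0 < p ω → zx (x ω) = zl (lam ω)) →
      (∀ ω, 0 < p ω → RegG (G (zx (x ω))) (fun _ => 0) 1 k₀ C₀) →
      (∀ ω, 0 < p ω → |rp (2 ^ L) pos (x ω) none - MvPolynomial.eval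
        (fun i => rp (2 ^ L) pos (x ω) (some i)) (G (zx (x ω)))| ≤ C₀ / 2 ^ L) →
      0 < δ → (∀ a, 0 ≤ e a) → Ex p (fun ω => e (x ω)) ≤ ε → NCF p lam x B δ e →
      n.factorial * C₀ ^ n ≤ δ ^ n * 2 ^ γ → 1 ≤ κ →
      L * Real.log 2 - CH p (fun ω => T (x ω)) lam ≤ e₁ → 0 ≤ e₁ →
      CH p x (fun ω => (bas pos (x ω), zx (x ω))) ≤ e₃ →
      IsLaw r → (∀ ξ, law r X ξ = law p x ξ) →
      (∀ v, 0 < r v → P (c v) (zx (X v)) ≠ 0 ∧ (P (c v) (zx (X v))).totalDegree ≤ D) →
      (∀ v, 0 < r v → 0 < S (c v) (zx (X v)) ∧ ∃ ω, 0 < p ω ∧ zx (x ω) = zx (X v) ∧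
        S (c v) (zx (X v)) ≤ Psi (P (c v) (zx (X v))) (C₀ / 2 ^ L) (rp (2 ^ L) pos (x ω))) →
      Ex r (fun v => Real.log (S (c v) (zx (X v)))) ≤
        Ex r (fun v => Real.log (Psi (P (c v) (zx (X v))) (C₀ / 2 ^ L)
          (rp (2 ^ L) pos (X v)))) +
          2 * D * (CH r c (fun v => zx (X v)) - CH r c X) +
          C * ((N + 1) * (e₁ + 1) + e₃ + (1 - 1 / n) ^ N * (L + e₃) + L / κ + γ + κ + ε * L)

theorem lrp_thm : LRPStmt := by
  classical
  intro n D k₀ C₀ hC₀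
  obtain ⟨κ', Cf, hCf, hfil⟩ := fil n D k₀ C₀ hC₀
  obtain ⟨Cg, hCg, hgo⟩ := goc n D C₀ hC₀
  obtain ⟨Cm, hCm, hmix⟩ := mixh_thm n C₀ hC₀
  obtain ⟨Cu, hCu, hful⟩ := fulh_thm n C₀ hC₀
  have hl2 : 0 < Real.log 2 := Real.log_pos (by norm_num)
  have hn0 : (0 : ℝ) ≤ n := Nat.cast_nonneg n
  refine ⟨2 * D * (Cg + 1) + Cg + κ' * (2 * n + 3 + n * Real.log 2 + Cm + Cu + Cf),
    by positivity, ?_⟩
  intro Ω Λ Ξ Z V Γ _ _ p lam x T pos A B zx zl G L κ γ N δ ε e₁ e₃ e r X c P S hleaf hz hreg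
    hgr hδ he hex hnc hγ hκ he₁ he₁0 he₃ hr hX hP hS
  have hp := hleaf.isLaw
  have hp0 := hp.nonneg
  have hr0 := hr.nonneg
  have he₃0 : 0 ≤ e₃ := (CH_nonneg hp0 _ _).trans he₃
  have hL0 : (0 : ℝ) ≤ L := Nat.cast_nonneg L
  have hκ0 : (1 : ℝ) ≤ κ := by exact_mod_cast hκ
  have hε : 0 ≤ ε := le_trans (Ex_nonneg hp0 fun ω _ => he (x ω)) hex
  have hM : ((2 ^ L : ℕ) : ℝ) = 2 ^ L := by push_cast; rfl
  have hM1 : 1 ≤ 2 ^ L := Nat.one_le_two_pow
  have hlogM : Real.log ((2 ^ L : ℕ) : ℝ) = L * Real.log 2 := by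
    rw [hM, Real.log_pow]
  -- the chain
  obtain ⟨W, iW, q, o, o', l, y, hch⟩ := chn_thm Ω Λ Ξ p lam x N hp
  have hq := hch.isLaw
  have hq0 := hq.nonneg
  -- gluing the chain with the random point
  have hZ : ∀ ξ, law q (y 0) ξ = law r X ξ := fun ξ => by
    rw [hch.cell 0 (Nat.zero_le _) ξ, hX ξ]
  set Q : W × V → ℝ := glue q r (y 0) X with hQdef
  have hQ0 : ∀ u, 0 ≤ Q u := glue_nonneg hq0 hr0
  have m1 : Marg Q q (fun u => u.1) := marg_fst hq0 hZ
  have m2 : Marg Q r (fun u => u.2) := marg_snd hr0 hZ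
  have hQ : IsLaw Q := ⟨hQ0, by rw [m1.sum]; exact hq.sum_one⟩
  have hyX : ∀ u, 0 < Q u → y 0 u.1 = X u.2 := fun u hu =>
    ((glue_pos_iff hq0 hr0 u).mp hu).2.2
  have hup1 : ∀ u, 0 < Q u → 0 < q u.1 := fun u hu => m1.pos hQ0 hu
  have hup2 : ∀ u, 0 < Q u → 0 < r u.2 := fun u hu => m2.pos hQ0 hu
  have hci : ∀ (S' Γ' : Type) (a : W → S') (b : V → Γ'),
      CI Q (fun u => a u.1) (fun u => b u.2) (fun u => y 0 u.1) :=
    fun S' Γ' a b => CI_glue hq0 hr0 hZ a b
  -- the label along the chain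
  have hlab1 : ∀ i < N, ∀ w, 0 < q w → zx (y i w) = zl (l i w) := by
    intro i hi w hw
    have h1 := (hch.marg i hi).pos hq0 hw
    rw [← hch.start w hw i hi, ← hch.line w hw i hi]
    exact hz _ h1
  have hlab2 : ∀ i < N, ∀ w, 0 < q w → zx (y (i + 1) w) = zl (l i w) := by
    intro i hi w hw
    have h1 := (hch.marg' i hi).pos hq0 hw
    rw [← hch.stop w hw i hi, ← hch.line' w hw i hi]
    exact hz _ h1
  have hlab : ∀ i ≤ N, ∀ w, 0 < q w → zx (y i w) = zx (y 0 w) := by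
    intro i
    induction i with
    | zero => intro _ _ _; rfl
    | succ i ih =>
      intro hi w hw
      rw [hlab2 i (by omega) w hw, ← hlab1 i (by omega) w hw]
      exact ih (by omega) w hw
  have hsup : ∀ i ≤ N, ∀ w, 0 < q w → ∃ ω, 0 < p ω ∧ x ω = y i w :=
    fun i hi w hw => supp_of_law (hch.cell i hi) hq0 hw
  -- the variable of the polynomial
  set cz : W × V → Γ × Z := fun u => (c u.2, zx (X u.2)) with hcz
  -- forward
  have E1 := hgo Ω Λ Ξ W (Γ × Z) Z (W × V) p lam x T pos A B zx zl (2 ^ L) N q o o' l y Q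
    (fun u => u.1) cz (fun g => P g.1 g.2) e₁ hM1 hleaf hch hz hQ m1
    (fun S' a => hci S' (Γ × Z) a (fun v => (c v, zx (X v))))
    (fun u hu => hP u.2 (hup2 u hu)) (by rw [hlogM]; exact he₁)
  -- the mutual information
  have hMI1 : CH Q cz (fun u => zx (y 0 u.1)) = CH r c (fun v => zx (X v)) := by
    rw [← m2.CH c (fun v => zx (X v))]
    have e1 : CH Q cz (fun u => zx (y 0 u.1)) = CH Q cz (fun u => zx (X u.2)) := by
      refine CH_congr hQ0 (fun _ _ _ _ h => (Prod.ext_iff.mp h).1)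
        (fun _ _ _ _ h => (Prod.ext_iff.mp h).1) ?_ ?_
      · intro u u' a b h
        simp only at h ⊢
        rw [← hyX u a, ← hyX u' b]
        exact h
      · intro u u' a b h
        simp only at h ⊢
        rw [hyX u a, hyX u' b]
        exact h
    rw [e1]
    refine CH_congr hQ0 ?_ ?_ (fun _ _ _ _ h => h) (fun _ _ _ _ h => h)
    · intro u u' _ _ h
      simp only [hcz, Prod.mk.injEq] at h ⊢
      exact h.1.1
    · intro u u' _ _ h
      simp only [Prod.mk.injEq] at h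
      simp only [hcz, Prod.mk.injEq]
      exact h
  have hMI2 : CH Q cz (fun u => y 0 u.1) = CH r c X := by
    rw [← m2.CH c X]
    have e1 : CH Q cz (fun u => y 0 u.1) = CH Q cz (fun u => X u.2) := by
      refine CH_congr hQ0 (fun _ _ _ _ h => (Prod.ext_iff.mp h).1)
        (fun _ _ _ _ h => (Prod.ext_iff.mp h).1) ?_ ?_
      · intro u u' a b h
        simp only at h ⊢
        rw [← hyX u a, ← hyX u' b]
        exact h
      · intro u u' a b h
        simp only at h ⊢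
        rw [hyX u a, hyX u' b]
        exact h
    rw [e1]
    refine CH_congr hQ0 ?_ ?_ (fun _ _ _ _ h => h) (fun _ _ _ _ h => h)
    · intro u u' _ _ h
      simp only [hcz, Prod.mk.injEq] at h ⊢
      exact h.1.1
    · intro u u' _ _ h
      simp only [Prod.mk.injEq] at h
      simp only [hcz, Prod.mk.injEq]
      exact ⟨h.1, by rw [h.2]⟩
  -- start
  have E0 : Ex Q (fun u => Real.log (Psi (P (cz u).1 (cz u).2) (C₀ / ((2 ^ L : ℕ) : ℝ))
      (rp (2 ^ L) pos (y 0 u.1)))) =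
      Ex r (fun v => Real.log (Psi (P (c v) (zx (X v))) (C₀ / 2 ^ L)
        (rp (2 ^ L) pos (X v)))) := by
    rw [← m2.ex (fun v => Real.log (Psi (P (c v) (zx (X v))) (C₀ / 2 ^ L)
        (rp (2 ^ L) pos (X v))))]
    unfold Ex
    refine Finset.sum_congr rfl fun u _ => ?_
    by_cases hu : 0 < Q u
    · simp only [hcz]
      rw [hyX u hu, hM]
    · have : Q u = 0 := le_antisymm (not_lt.mp hu) (hQ0 u)
      rw [this, zero_mul, zero_mul]
  -- filling
  have hrp01 : ∀ ω i, 0 ≤ rp (2 ^ L) pos (x ω) i ∧ rp (2 ^ L) pos (x ω) i ≤ 1 := by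
    intro ω i
    have h1 := hleaf.pos_lt ω i
    simp only [rp]
    have h2 : (0 : ℝ) < ((2 ^ L : ℕ) : ℝ) := by rw [hM]; positivity
    refine ⟨by positivity, ?_⟩
    rw [div_le_one h2]
    exact_mod_cast h1.le
  have F1 := hfil (W × V) (Γ × Z) Q (2 ^ L) 1 cz (fun u i => pos (y N u.1) (some i))
    (fun u => rp (2 ^ L) pos (y N u.1)) (fun _ _ => 0) (fun g => G g.2) (fun g => P g.1 g.2)
    (fun g => S g.1 g.2) hQ le_rfl hM1
    (by
      intro u hu i
      obtain ⟨ω, hω, hx⟩ := hsup N le_rfl u.1 (hup1 u hu)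
      rw [← hx]
      exact hleaf.pos_lt ω (some i))
    (fun u hu => hP u.2 (hup2 u hu))
    (by
      intro u hu
      obtain ⟨ω, hω, hx⟩ := hsup N le_rfl u.1 (hup1 u hu)
      have h1 := hreg ω hω
      rw [hx, hlab N le_rfl _ (hup1 u hu), hyX u hu] at h1
      simp only [hcz, Nat.cast_one, div_one]
      exact h1)
    (by
      intro u hu i
      simp only [rp, Nat.cast_one, one_mul, zero_add])
    (by
      intro u hu
      obtain ⟨ω, hω, hx⟩ := hsup N le_rfl u.1 (hup1 u hu)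
      have h1 := hgr ω hω
      rw [hx, hlab N le_rfl _ (hup1 u hu), hyX u hu] at h1
      simp only [hcz, Nat.cast_one, one_mul]
      rw [hM]
      exact h1)
    (by
      intro u hu
      obtain ⟨hS0, ω', hω', hzω', hS'⟩ := hS u.2 (hup2 u hu)
      obtain ⟨ω, hω, hx⟩ := hsup N le_rfl u.1 (hup1 u hu)
      refine ⟨hS0, rp (2 ^ L) pos (x ω'), ?_, ?_, ?_, ?_⟩
      · intro i
        have h1 := hrp01 ω' (some i)
        simp only [Nat.cast_one, div_one, zero_add]
        exact h1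
      · have h1 := hrp01 ω' none
        have h2 := hrp01 ω none
        rw [hx] at h2
        rw [abs_le]
        constructor <;> linarith only [hC₀, h1, h2]
      · have h1 := hgr ω' hω'
        rw [hzω'] at h1
        simp only [hcz, Nat.cast_one, one_mul]
        rw [hM]
        exact h1
      · simp only [hcz, Nat.cast_one, one_mul]
        rw [hM]
        exact hS')
  -- the deficit
  set E : ℝ := L / κ + γ + κ + 1 + ε * L with hE
  have hE0 : 0 ≤ E := by positivity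
  have hlawN := hch.cell N le_rfl
  have hHN : H q (y N) = H p x := H_eq_of_lawS3 hlawN
  set Hz : ℝ := H p (fun ω => zx (x ω)) with hHz
  have hHx : H p x = CH p x (fun ω => zx (x ω)) + Hz := by
    unfold CH
    have : H p x = H p (fun ω => (x ω, zx (x ω))) := H_congr hp0
      (fun ω ω' _ _ h => (Prod.ext_iff.mp h).1)
      (fun ω ω' _ _ h => by
        have h1 : x ω = x ω' := h
        simp only [h1])
    rw [this]
    ring
  have hbasle : CH p (fun ω => bas pos (x ω)) (fun ω => zx (x ω)) ≤ n * (L * Real.log 2) := by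
    have h1 := CH_le_card hp0 hp.sum_one (fun ω => bas pos (x ω)) (fun ω => zx (x ω))
      (fun _ => Fintype.piFinset (fun _ : Fin n => Finset.range (2 ^ L))) (by
      intro ω _
      rw [Fintype.mem_piFinset]
      intro i
      rw [Finset.mem_range]
      exact hleaf.pos_lt ω (some i))
    refine h1.trans (le_of_eq ?_)
    have h2 : (((Fintype.piFinset (fun _ : Fin n => Finset.range (2 ^ L))).card : ℕ) : ℝ) =
        ((2 ^ L : ℕ) : ℝ) ^ n := by
      rw [Fintype.card_piFinset]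
      simp only [Finset.card_range, Finset.prod_const, Finset.card_univ, Fintype.card_fin]
      push_cast
      ring
    simp only [h2]
    rw [Ex_const hp.sum_one, Real.log_pow, hlogM]
  have hCHx : CH p x (fun ω => zx (x ω)) ≤ n * (L * Real.log 2) + e₃ := by
    have h1 := CH_le_add hp0 x (fun ω => bas pos (x ω)) (fun ω => zx (x ω))
    linarith only [he₃, hbasle, h1]
  have hmix' := hmix Ω Λ Ξ W p lam x T pos A B L κ γ N q o o' l y δ ε e₁ e₃ Hz e hleaf hch hδ
    he hex hnc hγ hκ he₁ he₁0 he₃0 (by rw [hHx]; linarith only [hCHx])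
  have hful' := hful Ω Λ Ξ Z p lam x T pos A B zx zl L κ γ δ ε e₁ e hleaf hz hδ he hex hnc hγ hκ
    he₁
  have hlow : n * (L * Real.log 2) - (n * e₁ + Cu * E) ≤ CH p x (fun ω => zx (x ω)) := by
    have h1 : CH p (fun ω => bas pos (x ω)) (fun ω => zx (x ω)) ≤
        CH p x (fun ω => zx (x ω)) := CH_mono_left hp0 (by
      intro ω ω' _ _ h
      have h1 : x ω = x ω' := (Prod.ext_iff.mp h).1
      simp only [h1])
    linarith only [hful', h1]
  have hdef : n * Real.log ((2 ^ L : ℕ) : ℝ) -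
      CH Q (fun u i => pos (y N u.1) (some i)) cz ≤
      2 * n * e₁ + 2 * e₃ + (1 - 1 / n) ^ N * (n * (L * Real.log 2) + e₃) + (Cm + Cu) * E := by
    -- `y N` given `y 0`
    have a1 : CH Q (fun u => y N u.1) (fun u => (cz u, y 0 u.1)) =
        CH Q (fun u => y N u.1) (fun u => y 0 u.1) := by
      exact hci Ξ (Γ × Z) (y N) (fun v => (c v, zx (X v)))
    have a2 : CH Q (fun u => y N u.1) (fun u => y 0 u.1) = CH q (y N) (y 0) :=
      m1.CH (y N) (y 0)
    have a3 : CH Q (fun u => y N u.1) (fun u => (cz u, y 0 u.1)) ≤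
        CH Q (fun u => bas pos (y N u.1)) (fun u => (cz u, y 0 u.1)) +
          CH Q (fun u => y N u.1) (fun u => (bas pos (y N u.1), (cz u, y 0 u.1))) :=
      CH_le_add hQ0 (fun u => y N u.1) (fun u => bas pos (y N u.1)) (fun u => (cz u, y 0 u.1))
    have a4 : CH Q (fun u => y N u.1) (fun u => (bas pos (y N u.1), (cz u, y 0 u.1))) ≤
        CH Q (fun u => y N u.1) (fun u => (bas pos (y N u.1), zx (y N u.1))) := by
      refine CH_mono_cond hQ0 ?_
      intro u u' a b h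
      simp only [Prod.mk.injEq] at h ⊢
      refine ⟨h.1, ?_⟩
      rw [hlab N le_rfl _ (hup1 u a), hlab N le_rfl _ (hup1 u' b), h.2.2]
    have a5 : CH Q (fun u => y N u.1) (fun u => (bas pos (y N u.1), zx (y N u.1))) =
        CH p x (fun ω => (bas pos (x ω), zx (x ω))) := by
      rw [m1.CH (y N) (fun w => (bas pos (y N w), zx (y N w)))]
      unfold CH
      rw [H_eq_of_lawS3 (fun b => law_comp_eq hlawN (fun ξ => (ξ, (bas pos ξ, zx ξ))) b),
        H_eq_of_lawS3 (fun b => law_comp_eq hlawN (fun ξ => (bas pos ξ, zx ξ)) b)]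
    have a6 : CH Q (fun u => bas pos (y N u.1)) (fun u => (cz u, y 0 u.1)) ≤
        CH Q (fun u => bas pos (y N u.1)) cz :=
      CH_mono_cond hQ0 (fun u u' _ _ h => (Prod.ext_iff.mp h).1)
    have a7 : CH Q (fun u i => pos (y N u.1) (some i)) cz =
        CH Q (fun u => bas pos (y N u.1)) cz := rfl
    have a8 := hHx
    rw [a7, hlogM]
    have a9 : n * (L * Real.log 2) - CH Q (fun u => bas pos (y N u.1)) cz ≤
        2 * (n * e₁) + 2 * e₃ + (1 - 1 / n) ^ N * (n * (L * Real.log 2) + e₃) +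
          (Cm * E + Cu * E) := by
      linarith only [he₃, hHx, hmix', hlow, a1, a2, a3, a4, a5, a6]
    have a10 : 2 * n * e₁ = 2 * (n * e₁) := by ring
    have a11 : (Cm + Cu) * E = Cm * E + Cu * E := by ring
    rw [a10, a11]
    exact a9
  -- the sum
  rw [hMI1, hMI2, E0] at E1
  have F2 : Ex Q (fun u => Real.log (S (cz u).1 (cz u).2)) =
      Ex r (fun v => Real.log (S (c v) (zx (X v)))) :=
    m2.ex (fun v => Real.log (S (c v) (zx (X v))))
  have F3 : Ex Q (fun u => Real.log (Psi (P (cz u).1 (cz u).2)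
      (C₀ / (((1 : ℕ) : ℝ) * ((2 ^ L : ℕ) : ℝ))) (rp (2 ^ L) pos (y N u.1)))) =
      Ex Q (fun u => Real.log (Psi (P (cz u).1 (cz u).2) (C₀ / ((2 ^ L : ℕ) : ℝ))
      (rp (2 ^ L) pos (y N u.1)))) := by
    rw [Nat.cast_one, one_mul]
  rw [F2, F3] at F1
  have hκ' : (0 : ℝ) ≤ κ' := Nat.cast_nonneg κ'
  have hD : (0 : ℝ) ≤ D := Nat.cast_nonneg D
  have hN : (0 : ℝ) ≤ N := Nat.cast_nonneg N
  have G1 := mul_le_mul_of_nonneg_left hdef hκ'
  have hpw : (0 : ℝ) ≤ (1 - 1 / n) ^ N := by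
    rcases Nat.eq_zero_or_pos n with h | h
    · subst h
      simp
    · have h1 : (1 : ℝ) ≤ n := by exact_mod_cast h
      have h2 : (1 : ℝ) / n ≤ 1 := by
        rw [div_le_one (by linarith only [h1])]
        exact h1
      exact pow_nonneg (by linarith only [h2]) _
  set α : ℝ := (1 - 1 / (n : ℝ)) ^ N with hα
  set R : ℝ := (N + 1) * (e₁ + 1) + e₃ + α * (L + e₃) + L / κ + γ + κ + ε * L with hR
  have hpos1 : 0 ≤ α * (L + e₃) := by positivity
  have hpos2 : 0 ≤ (L : ℝ) / κ := by positivity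
  have hpos3 : (0 : ℝ) ≤ γ := Nat.cast_nonneg γ
  have hpos4 : 0 ≤ ε * L := by positivity
  have hN1 : (1 : ℝ) * (e₁ + 1) ≤ (N + 1) * (e₁ + 1) :=
    mul_le_mul_of_nonneg_right (by linarith only) (by linarith only [he₁0])
  have hR1 : 1 ≤ R := by
    rw [hR]
    linarith only [he₁0, he₃0, hκ0, hpos1, hpos2, hpos4, hN1]
  have hER : E ≤ R := by
    rw [hE, hR]
    linarith only [he₁0, he₃0, hpos1, hN1]
  have heR : e₁ + e₃ ≤ R := by
    rw [hR]
    linarith only [hκ0, hpos1, hpos2, hpos4, hN1]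
  have hNR : (N : ℝ) * (e₁ + 1) ≤ R := by
    rw [hR]
    linarith only [he₁0, he₃0, hκ0, hpos1, hpos2, hpos4]
  have hαR : α * (n * (L * Real.log 2) + e₃) ≤ (n * Real.log 2 + 1) * R := by
    have h1 : α * (n * (L * Real.log 2) + e₃) = n * Real.log 2 * (α * L) + α * e₃ := by ring
    have h2 : α * L ≤ R := by
      have : α * L ≤ α * (L + e₃) := mul_le_mul_of_nonneg_left (by linarith only [he₃0]) hpw
      rw [hR]
      linarith only [he₁0, he₃0, hκ0, hpos2, hpos4, hN1, this]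
    have h3 : α * e₃ ≤ R := by
      have : α * e₃ ≤ α * (L + e₃) := mul_le_mul_of_nonneg_left (by linarith only) hpw
      rw [hR]
      linarith only [he₁0, he₃0, hκ0, hpos2, hpos4, hN1, this]
    have h4 : 0 ≤ n * Real.log 2 := by positivity
    have h5 := mul_le_mul_of_nonneg_left h2 h4
    rw [h1]
    linarith only [h3, h5]
  have T1 : 2 * n * e₁ + 2 * e₃ + α * (n * (L * Real.log 2) + e₃) + (Cm + Cu) * E + Cf ≤
      (2 * n + 3 + n * Real.log 2 + Cm + Cu + Cf) * R := by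
    have b1 : 2 * (n : ℝ) * e₁ ≤ 2 * n * R :=
      mul_le_mul_of_nonneg_left (by linarith) (by positivity)
    have b2 : (Cm + Cu) * E ≤ (Cm + Cu) * R := mul_le_mul_of_nonneg_left hER (by positivity)
    have b3 : Cf * 1 ≤ Cf * R := mul_le_mul_of_nonneg_left hR1 hCf
    have b4 : (2 * n + 3 + n * Real.log 2 + Cm + Cu + Cf) * R =
        2 * n * R + 2 * R + (n * Real.log 2 + 1) * R + (Cm + Cu) * R + Cf * R := by ring
    rw [b4]
    linarith
  have T2 : N * (e₁ + Cg) ≤ (Cg + 1) * R := by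
    have b1 : (N : ℝ) * (e₁ + Cg) ≤ (Cg + 1) * (N * (e₁ + 1)) := by
      have h1 : (0 : ℝ) ≤ N * (Cg * e₁ + 1) := by positivity
      have h2 : (Cg + 1) * (N * (e₁ + 1)) = N * (e₁ + Cg) + N * (Cg * e₁ + 1) := by ring
      linarith only [h1]
    have b2 : (Cg + 1) * (N * (e₁ + 1)) ≤ (Cg + 1) * R :=
      mul_le_mul_of_nonneg_left hNR (by positivity)
    linarith only [b1, b2]
  have T3 : N * Cg ≤ Cg * R := by
    have b1 : (N : ℝ) * Cg ≤ Cg * (N * (e₁ + 1)) := by
      have h1 : (0 : ℝ) ≤ N * (Cg * e₁) := by positivity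
      have h2 : Cg * (N * (e₁ + 1)) = N * Cg + N * (Cg * e₁) := by ring
      linarith only [h1]
    have b2 := mul_le_mul_of_nonneg_left hNR hCg
    linarith only [b1, b2]
  have T1' := mul_le_mul_of_nonneg_left T1 hκ'
  have T2' := mul_le_mul_of_nonneg_left T2 (by positivity : (0 : ℝ) ≤ 2 * D)
  have key : Ex r (fun v => Real.log (S (c v) (zx (X v)))) ≤
      Ex r (fun v => Real.log (Psi (P (c v) (zx (X v))) (C₀ / 2 ^ L) (rp (2 ^ L) pos (X v)))) +
      2 * D * (CH r c (fun v => zx (X v)) - CH r c X) +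
      (2 * D * (N * (e₁ + Cg)) + N * Cg + κ' * (2 * n * e₁ + 2 * e₃ +
        α * (n * (L * Real.log 2) + e₃) + (Cm + Cu) * E + Cf)) := by
    linarith only [E1, F1, G1]
  refine key.trans ?_
  have fin : (2 * D * (N * (e₁ + Cg)) + N * Cg + κ' * (2 * n * e₁ + 2 * e₃ +
        α * (n * (L * Real.log 2) + e₃) + (Cm + Cu) * E + Cf)) ≤
      (2 * D * (Cg + 1) + Cg + κ' * (2 * n + 3 + n * Real.log 2 + Cm + Cu + Cf)) * R := by
    linarith only [T3, T1', T2']
  linarith only [T3, T1', T2']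

end Pool.KS3
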