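import Pool.Agent.H82.KSP.DEL
import Pool.Agent.H45.KAL.MKC

/-!
# Multilinear Kakeya at the price of the label

`K_STEP_helper79.md` (1.4): given the labels `z` and `z'` of the two leaves of a line the point
`x'` of the leaf `z'` is still almost full, because `z` is almost determined by `x'` (the price
`pr`), so that the fan at `x'` given `z` is not concentrated.
-/

set_option autoImplicit false

namespace Pool.KS3

open Finset Real
open Pool.Agent.H49.Ent Pool.Agent.H32.Dense Pool.STK Pool.KAF Pool.KAL Pool.KST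

/-- Row MKP. -/
def MKPStmt : Prop :=
  ∀ (n : ℕ) (C₀ : ℝ), 1 ≤ C₀ → ∃ C : ℝ, 0 ≤ C ∧
    ∀ (a L : ℕ) (Ω Λ Ξ Z : Type) [Fintype Ω] (p : Ω → ℝ) (lam : Ω → Λ)
      (x : Ω → Ξ) (T : Ξ → ℕ) (pos : Ξ → Option (Fin n) → ℕ) (A B : Λ → Option (Fin n) → ℝ)
      (zx : Ξ → Z) (zl : Λ → ℕ → Z) (cz : Z → Option (Fin n) → ℕ)
      (κ γ : ℕ) (δ ψ η e₁ e₃ pr : ℝ) (e : Ξ → ℝ),
      StepF n a L C₀ p lam x T pos A B zx zl cz → 0 < δ → (∀ a, 0 ≤ e a) →
      NCF p lam x B δ e → 0 < ψ →
      (∑ ω, (open Classical in if Real.exp (-ψ) < e (x ω) then p ω else 0)) ≤ η →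
      n.factorial * (3 * C₀) ^ n ≤ δ ^ n * 2 ^ γ → 1 ≤ κ →
      L * Real.log 2 - CH p (fun ω => TS T L (x ω)) (lamS lam x T L) ≤ e₁ →
      CH p x (fun ω => (bas pos (x ω), zx (x ω))) ≤ e₃ →
      CH (dbl p lam) (fun v => zx (x v.1)) (fun v => x v.2) ≤ pr →
      CH (dbl p lam) (fun v => zx (x v.1)) (fun v => zx (x v.2)) -
          CH (dbl p lam) (fun v => zx (x v.1)) (fun v => x v.2) ≤
        n * e₁ + e₃ + C * (L / κ + γ + κ + 1 + (Real.exp (-(ψ / 2)) + 2 * pr / ψ + η) * L)

section

variable {n a L : ℕ} {C₀ : ℝ} {Ω Λ Ξ Z : Type} [Fintype Ω] {p : Ω → ℝ} {lam : Ω → Λ}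
    {x : Ω → Ξ} {T : Ξ → ℕ} {pos : Ξ → Option (Fin n) → ℕ} {A B : Λ → Option (Fin n) → ℝ}
    {zx : Ξ → Z} {zl : Λ → ℕ → Z} {cz : Z → Option (Fin n) → ℕ}

/-- The time of the second incidence is independent of the first incidence. -/
lemma dbl_time2 (hp : IsLaw p) {Γ : Type} (c : Ω × Ω → Γ)
    (hc : Det (dbl p lam) (fun v => ((lam v.2, T (x v.2) / 2 ^ L), v.1)) c) :
    CH p (fun ω => TS T L (x ω)) (lamS lam x T L) ≤
      CH (dbl p lam) (fun v => TS T L (x v.2)) (fun v => (lamS lam x T L v.2, c v)) := by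
  have hp0 := hp.nonneg
  have hq0 : ∀ v, 0 ≤ dbl p lam v := dbl_nonneg hp0
  have m2 : Marg (dbl p lam) p (fun v => v.2) := dbl_snd hp0
  have h0 : CI (dbl p lam) (fun v => v.1) (fun v => (T (x v.2) / 2 ^ L, TS T L (x v.2)))
      (fun v => lam v.1) :=
    CI_glue hp0 hp0 (fun _ => rfl) (fun ω => ω) (fun ω => (T (x ω) / 2 ^ L, TS T L (x ω)))
  have h1 : CI (dbl p lam) (fun v => v.1) (fun v => (T (x v.2) / 2 ^ L, TS T L (x v.2)))
      (fun v => lam v.2) := h0.congr hq0
    (by
      intro v v' a b h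
      have e1 : lam v.1 = lam v'.1 := h
      change lam v.2 = lam v'.2
      rw [← dbl_eq hp0 a, ← dbl_eq hp0 b, e1])
    (by
      intro v v' a b h
      have e1 : lam v.2 = lam v'.2 := h
      change lam v.1 = lam v'.1
      rw [dbl_eq hp0 a, dbl_eq hp0 b, e1])
  have h2 : CI (dbl p lam) (fun v => v.1) (fun v => TS T L (x v.2))
      (fun v => (T (x v.2) / 2 ^ L, lam v.2)) := h1.weak hq0
  have h3 := h2.symm hq0
  unfold CI at h3
  have h4 : CH (dbl p lam) (fun v => TS T L (x v.2)) (fun v => (T (x v.2) / 2 ^ L, lam v.2)) =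
      CH p (fun ω => TS T L (x ω)) (fun ω => (T (x ω) / 2 ^ L, lam ω)) :=
    m2.CH (fun ω => TS T L (x ω)) (fun ω => (T (x ω) / 2 ^ L, lam ω))
  have h5 : CH p (fun ω => TS T L (x ω)) (lamS lam x T L) ≤
      CH p (fun ω => TS T L (x ω)) (fun ω => (T (x ω) / 2 ^ L, lam ω)) := by
    refine CH_mono_cond hp0 ?_
    intro ω ω' _ _ h
    simp only [lamS, Prod.mk.injEq] at h ⊢
    tauto
  refine h5.trans ?_
  rw [← h4, ← h3]
  refine CH_mono_cond hq0 ?_
  intro v v' a b h
  have e1 : v.1 = v'.1 := (Prod.ext_iff.mp h).1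
  have e2 := (Prod.ext_iff.mp h).2
  have e3 : T (x v.2) / 2 ^ L = T (x v'.2) / 2 ^ L := (Prod.ext_iff.mp e2).1
  have e4 : lam v.2 = lam v'.2 := (Prod.ext_iff.mp e2).2
  have e5 : c v = c v' := hc v v' a b (by
    change ((lam v.2, T (x v.2) / 2 ^ L), v.1) = ((lam v'.2, T (x v'.2) / 2 ^ L), v'.1)
    rw [e1, e3, e4])
  exact Prod.ext (by simp only [lamS]; rw [e3, e4]) e5

end

theorem mkp_thm : MKPStmt := by
  classical
  intro n C₀ hC₀
  have h3C : (1 : ℝ) ≤ 3 * C₀ := by linarith
  obtain ⟨C, hC, hmkc⟩ := mkc_thm n (3 * C₀) h3C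
  have hn0 : (0 : ℝ) ≤ n := Nat.cast_nonneg n
  refine ⟨C, hC, ?_⟩
  intro a L Ω Λ Ξ Z _ p lam x T pos A B zx zl cz κ γ δ ψ η e₁ e₃ pr e hF hδ he hnc hψ hη hγ hκ
    he₁ he₃ hpr
  have hS := hF.small hC₀
  have hp := hF.leaf.isLaw
  have hp0 := hp.nonneg
  set q := dbl p lam with hqdef
  have hq0 : ∀ v, 0 ≤ q v := dbl_nonneg hp0
  have m1 : Marg q p (fun v => v.1) := dbl_fst hp0
  have m2 : Marg q p (fun v => v.2) := dbl_snd hp0
  have hq : IsLaw q := ⟨hq0, by rw [m1.sum]; exact hp.sum_one⟩
  set X' : Ω × Ω → Ξ := fun v => x v.2 with hX'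
  set V : Ω × Ω → Ξ × Z := fun v => (x v.2, zx (x v.1)) with hV
  -- the fans given the point and the first label
  set e' : Ξ × Z → ℝ := fun b => min 1 (e b.1 * law q X' b.1 / law q V b) with he'
  have hlV : ∀ v, 0 < q v → 0 < law q V (V v) := fun v hv => law_pos hq0 V hv
  have he'0 : ∀ b, 0 ≤ e' b := by
    intro b
    refine le_min zero_le_one ?_
    exact div_nonneg (mul_nonneg (he _) (law_nonneg hq0 _ _)) (law_nonneg hq0 _ _)
  have hfan : ∀ v, 0 < q v → ∀ u : Fin n → ℝ, (∃ i, 1 ≤ |u i|) →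
      ∑ v', (if V v' = V v ∧ |∑ i, u i * BS B (lamS lam x T L v'.2) (some i)| ≤ δ then
        q v' else 0) ≤ e' (V v) * law q V (V v) := by
    intro v hv u hu
    have hpos := hlV v hv
    have h1 : ∑ v', (if V v' = V v ∧
        |∑ i, u i * BS B (lamS lam x T L v'.2) (some i)| ≤ δ then q v' else 0) ≤
        law q V (V v) := by
      unfold law
      refine Finset.sum_le_sum fun v' _ => ?_
      by_cases h : V v' = V v
      · rw [if_pos h]
        split_ifs
        · exact le_rfl
        · exact hq0 v'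
      · rw [if_neg (fun h' => h h'.1), if_neg h]
    have h2 : ∑ v', (if V v' = V v ∧
        |∑ i, u i * BS B (lamS lam x T L v'.2) (some i)| ≤ δ then q v' else 0) ≤
        e (x v.2) * law q X' (x v.2) := by
      have a1 := hnc v.2 (m2.pos hq0 hv) u hu
      have a2 : law q X' (x v.2) = law p x (x v.2) := m2.law x (x v.2)
      rw [a2]
      refine le_trans ?_ a1
      have a3 := m2.ex (fun ω => if x ω = x v.2 ∧ |∑ i, u i * B (lam ω) (some i)| ≤ δ then
        (1 : ℝ) else 0)
      unfold Ex at a3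
      simp only [mul_ite, mul_one, mul_zero] at a3
      rw [← a3]
      refine Finset.sum_le_sum fun v' _ => ?_
      by_cases h : V v' = V v ∧ |∑ i, u i * BS B (lamS lam x T L v'.2) (some i)| ≤ δ
      · rw [if_pos h]
        have h3 : x v'.2 = x v.2 := (Prod.ext_iff.mp h.1).1
        have h4 : |∑ i, u i * B (lam v'.2) (some i)| ≤ δ := h.2
        rw [if_pos ⟨h3, h4⟩]
      · rw [if_neg h]
        split_ifs
        · exact hq0 v'
        · exact le_rfl
    have h3 : e' (V v) * law q V (V v) =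
        min (law q V (V v)) (e (x v.2) * law q X' (x v.2)) := by
      simp only [he']
      rw [min_mul_of_nonneg _ _ hpos.le, one_mul, div_mul_cancel₀ _ hpos.ne']
    rw [h3]
    exact le_min h1 h2
  -- the mean
  have hmean : Ex q (fun v => e' (V v)) ≤ Real.exp (-(ψ / 2)) + 2 * pr / ψ + η := by
    set k : Ω × Ω → ℝ := fun v => law q (fun v => (zx (x v.1), x v.2)) (zx (x v.1), x v.2) /
      law q X' (x v.2) with hk
    have hkV : ∀ v, law q (fun v => (zx (x v.1), x v.2)) (zx (x v.1), x v.2) =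
        law q V (V v) := by
      intro v
      unfold law
      refine Finset.sum_congr rfl fun v' _ => ?_
      by_cases h : V v' = V v
      · rw [if_pos h, if_pos]
        have := Prod.ext_iff.mp h
        exact Prod.ext this.2 this.1
      · rw [if_neg h, if_neg]
        intro h'
        have := Prod.ext_iff.mp h'
        exact h (Prod.ext this.2 this.1)
    have hkpos : ∀ v, 0 < q v → 0 < k v := by
      intro v hv
      simp only [hk]
      rw [hkV]
      exact div_pos (hlV v hv) (law_pos hq0 X' hv)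
    have hk1 : ∀ v, 0 < q v → k v ≤ 1 := by
      intro v hv
      simp only [hk]
      rw [hkV, div_le_one (law_pos hq0 X' hv)]
      unfold law
      refine Finset.sum_le_sum fun v' _ => ?_
      by_cases h : V v' = V v
      · rw [if_pos h, if_pos (Prod.ext_iff.mp h).1]
      · rw [if_neg h]
        split_ifs
        · exact hq0 v'
        · exact le_rfl
    have hCH : CH q (fun v => zx (x v.1)) (fun v => x v.2) =
        Ex q (fun v => -Real.log (k v)) := CH_eq_neg_sum hq0 _ _
    have hbd : ∀ v, 0 < q v → e' (V v) ≤ Real.exp (-(ψ / 2)) + 2 / ψ * (-Real.log (k v)) +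
        (if Real.exp (-ψ) < e (x v.2) then 1 else 0) := by
      intro v hv
      have h1 : e' (V v) ≤ 1 := min_le_left _ _
      have h2 : 0 ≤ -Real.log (k v) := by
        have := Real.log_nonpos (hkpos v hv).le (hk1 v hv)
        linarith
      have h3 : 0 ≤ 2 / ψ * (-Real.log (k v)) := by positivity
      have h4 : 0 ≤ Real.exp (-(ψ / 2)) := (Real.exp_pos _).le
      by_cases hb : Real.exp (-ψ) < e (x v.2)
      · rw [if_pos hb]
        linarith
      · rw [if_neg hb, add_zero]
        push Not at hb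
        by_cases hc : k v < Real.exp (-(ψ / 2))
        · have h5 := Real.log_lt_log (hkpos v hv) hc
          rw [Real.log_exp] at h5
          have h6 : 1 ≤ 2 / ψ * (-Real.log (k v)) := by
            rw [div_mul_eq_mul_div, le_div_iff₀ hψ]
            linarith
          linarith
        · push Not at hc
          have h5 : e' (V v) ≤ Real.exp (-(ψ / 2)) := by
            refine (min_le_right _ _).trans ?_
            have h6 : 0 < law q X' (x v.2) := law_pos hq0 X' hv
            have h7 : law q V (V v) = k v * law q X' (x v.2) := by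
              simp only [hk]
              rw [hkV, div_mul_cancel₀ _ h6.ne']
            simp only [hV] at h7 ⊢
            rw [h7, mul_div_mul_right _ _ h6.ne', div_le_iff₀ (hkpos v hv)]
            refine hb.trans ?_
            have h8 : Real.exp (-ψ) = Real.exp (-(ψ / 2)) * Real.exp (-(ψ / 2)) := by
              rw [← Real.exp_add]
              congr 1
              ring
            rw [h8]
            exact mul_le_mul_of_nonneg_left hc h4
          linarith
    refine (Ex_mono hq0 hbd).trans ?_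
    rw [Ex_add, Ex_add, Ex_const hq.sum_one, Ex_smul, ← hCH]
    have h5 : Ex q (fun v => if Real.exp (-ψ) < e (x v.2) then (1 : ℝ) else 0) ≤ η := by
      rw [m2.ex (fun ω => if Real.exp (-ψ) < e (x ω) then (1 : ℝ) else 0)]
      unfold Ex
      simp only [mul_ite, mul_one, mul_zero]
      exact hη
    have h6 : 2 / ψ * CH q (fun v => zx (x v.1)) (fun v => x v.2) ≤ 2 * pr / ψ := by
      rw [div_mul_eq_mul_div]
      exact div_le_div_of_nonneg_right (by linarith) hψ.le
    linarith
  -- multilinear Kakeya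
  have key := hmkc (Ω × Ω) (Z × Z) (Λ × ℕ) (Ξ × Z) q L κ γ δ
    (Real.exp (-(ψ / 2)) + 2 * pr / ψ + η) V e' (fun v => bas (posS pos L) (x v.2))
    (fun v => TS T L (x v.2)) (fun v => (zx (x v.1), zx (x v.2))) (fun v => lamS lam x T L v.2)
    (fun l i => AS A B zl cz a l (some i)) (fun l i => BS B l (some i)) hq
    (fun v => hS.T_lt v.2)
    (fun v v' _ _ h => by
      have h1 : x v.2 = x v'.2 := (Prod.ext_iff.mp h).1
      simp only
      rw [h1])
    (fun v v' _ _ h => by
      have h1 : x v.2 = x v'.2 := (Prod.ext_iff.mp h).1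
      simp only
      rw [h1])
    (fun v v' _ _ h => by
      have h1 : x v.2 = x v'.2 := (Prod.ext_iff.mp h).1
      have h2 : zx (x v.1) = zx (x v'.1) := (Prod.ext_iff.mp h).2
      simp only
      rw [h1, h2])
    (by
      intro v _ i
      have h1 := hS.near v.2 (some i)
      have e2 : ((2 ^ L : ℕ) : ℝ) = 2 ^ L := by push_cast; rfl
      rw [e2] at h1
      exact h1)
    (fun v i => hS.B_le v.2 (some i)) hδ he'0 hmean
    (fun v hv u hu => by
      refine le_trans (le_of_eq ?_) (hfan v hv u hu)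
      refine Finset.sum_congr rfl fun v' _ => ?_
      congr 1) hγ hκ
  -- the time
  have htime := dbl_time2 (lam := lam) (x := x) (T := T) (L := L) hp
    (fun v => (zx (x v.1), zx (x v.2))) (by
      intro v v' _ _ h
      simp only [Prod.mk.injEq] at h
      have e2 : zx (x v.2) = zx (x v'.2) := by
        rw [hF.lab v.2, hF.lab v'.2, h.1.1, h.1.2]
      simp only
      rw [h.2, e2])
  -- the mutual information
  have hz' : Det q X' (fun v => zx (x v.2)) := by
    intro v v' _ _ h
    have h1 : x v.2 = x v'.2 := h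
    simp only
    rw [h1]
  have I1 : CH q (fun v => zx (x v.1)) (fun v => x v.2) =
      CH q (fun v => zx (x v.1)) (fun v => (x v.2, zx (x v.2))) := by
    refine CH_congr hq0 (fun _ _ _ _ h => (Prod.ext_iff.mp h).1)
      (fun _ _ _ _ h => (Prod.ext_iff.mp h).1) ?_ ?_
    · intro v v' a b h
      have h1 : x v.2 = x v'.2 := h
      simp only
      rw [h1]
    · intro v v' _ _ h
      exact (Prod.ext_iff.mp h).1
  have I2 := CH_chain hq0 (fun v => zx (x v.1)) (fun v => x v.2) (fun v => zx (x v.2))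
  have I3 := CH_chain hq0 (fun v => x v.2) (fun v => zx (x v.1)) (fun v => zx (x v.2))
  have I4 : CH q (fun v => (zx (x v.1), x v.2)) (fun v => zx (x v.2)) =
      CH q (fun v => (x v.2, zx (x v.1))) (fun v => zx (x v.2)) := by
    refine CH_congr hq0 ?_ ?_ (fun _ _ _ _ h => h) (fun _ _ _ _ h => h) <;>
    · intro v v' _ _ h
      simp only [Prod.mk.injEq] at h ⊢
      tauto
  have I5 : CH q (fun v => x v.2) (fun v => zx (x v.2)) ≤ n * (L * Real.log 2) + e₃ := by
    have a1 : CH q (fun v => x v.2) (fun v => zx (x v.2)) = CH p x (fun ω => zx (x ω)) :=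
      m2.CH x (fun ω => zx (x ω))
    have a2 := CH_le_add hp0 x (fun ω => bas (posS pos L) (x ω)) (fun ω => zx (x ω))
    have a3 : CH p (fun ω => bas (posS pos L) (x ω)) (fun ω => zx (x ω)) ≤
        n * (L * Real.log 2) := by
      have h1 := CH_le_card hp0 hp.sum_one (fun ω => bas (posS pos L) (x ω)) (fun ω => zx (x ω))
        (fun _ => Fintype.piFinset (fun _ : Fin n => Finset.range (2 ^ L))) (by
        intro ω _
        rw [Fintype.mem_piFinset]
        intro i
        rw [Finset.mem_range]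
        exact hS.pos_lt ω (some i))
      refine h1.trans (le_of_eq ?_)
      have h2 : (((Fintype.piFinset (fun _ : Fin n => Finset.range (2 ^ L))).card : ℕ) : ℝ) =
          (2 : ℝ) ^ (L * n) := by
        rw [Fintype.card_piFinset]
        simp only [Finset.card_range, Finset.prod_const, Finset.card_univ, Fintype.card_fin]
        push_cast
        rw [← pow_mul]
      simp only [h2]
      rw [Ex_const hp.sum_one, Real.log_pow]
      push_cast
      ring
    have a4 := hF.bas_small
    rw [a1]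
    linarith
  have I6 : CH q (fun v => bas (posS pos L) (x v.2)) (fun v => (zx (x v.1), zx (x v.2))) ≤
      CH q (fun v => x v.2) (fun v => (zx (x v.1), zx (x v.2))) := by
    refine CH_mono_left hq0 ?_
    intro v v' _ _ h
    have h1 : x v.2 = x v'.2 := (Prod.ext_iff.mp h).1
    simp only
    rw [h1]
  have htime' := mul_le_mul_of_nonneg_left (he₁.trans' (sub_le_sub_left htime _)) hn0
  have h8 : (n : ℝ) * (L * Real.log 2 - CH q (fun v => TS T L (x v.2))
      (fun v => (lamS lam x T L v.2, (zx (x v.1), zx (x v.2))))) =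
      n * (L * Real.log 2) - n * CH q (fun v => TS T L (x v.2))
      (fun v => (lamS lam x T L v.2, (zx (x v.1), zx (x v.2)))) := by ring
  rw [h8] at htime'
  linarith

end Pool.KS3
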