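import Pool.Agent.H82.KSP.TRC

/-!
# Near the zero set: a list of few values
-/

set_option autoImplicit false

namespace Pool.KS3

open Finset Real Module
open Pool.Agent.H49.Ent Pool.Agent.H32.Dense Pool.STK Pool.KAF Pool.KAL Pool.KST

/-- If the jet of thickness `h / s` in the passive direction is large against the jet at the scale
of the grid, then the passive coordinate is in a short list of intervals. -/
theorem near_list (n D : ℕ) : ∃ K C : ℝ, 1 ≤ K ∧ 0 ≤ C ∧ ∀ (W Γ : Type) [Fintype W] (r : W → ℝ)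
    (c : W → Γ) (Q : Γ → MvPolynomial (Option (Fin n)) ℝ) (y : Γ → Fin n → ℝ) (X : W → ℕ)
    (M qd : ℕ) (h s : ℝ), IsLaw r → 0 < M → (∀ w, X w < M) →
    (∀ γ, Q γ ≠ 0 ∧ (Q γ).totalDegree ≤ D) → 0 < h → 0 < s →
    (∀ w, 0 < r w → K * PsiC 1 (Q (c w)) h (fun o => o.elim ((X w : ℝ) / M) (y (c w))) ≤
      PsiC s (Q (c w)) h (fun o => o.elim ((X w : ℝ) / M) (y (c w)))) →
    CH r (fun w => X w / 2 ^ qd) c ≤ C + Real.log ((D + 1) * (h / s) * M / 2 ^ qd + 4) := by
  classical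
  obtain ⟨K₀, hK₀, hthn⟩ := thn n (D + 1) (by omega)
  have hK₁ : (1 : ℝ) ≤ K₀ := by exact_mod_cast hK₀
  refine ⟨K₀ * 2 ^ (D + 1), Real.log (3 * (K₀ + 1)) + Real.log 2, ?_, ?_, ?_⟩
  · have : (1 : ℝ) ≤ 2 ^ (D + 1) := one_le_pow₀ (by norm_num)
    nlinarith
  · have h1 : 0 ≤ Real.log (3 * ((K₀ : ℝ) + 1)) := Real.log_nonneg (by linarith)
    have h2 : 0 ≤ Real.log 2 := Real.log_nonneg (by norm_num)
    linarith
  intro W Γ _ r c Q y X M qd h s hr hM hX hQ hh hs hnear
  have hr0 := hr.nonneg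
  have hM0 : (0 : ℝ) < M := by exact_mod_cast hM
  have hD0 : (0 : ℝ) ≤ D := Nat.cast_nonneg D
  have hhs : 0 < h / s := div_pos hh hs
  set Rr : ℕ := ⌈((D : ℝ) + 1) * (1 / 2 * (h / s)) * M⌉₊ + 1 with hRr
  have hR1 : ((D : ℝ) + 1) * (1 / 2 * (h / s)) * M ≤ Rr := by
    have := Nat.le_ceil (((D : ℝ) + 1) * (1 / 2 * (h / s)) * M)
    rw [hRr]
    push_cast
    linarith
  have hR2 : (Rr : ℝ) ≤ ((D : ℝ) + 1) * (1 / 2 * (h / s)) * M + 2 := by
    have h0 : 0 ≤ ((D : ℝ) + 1) * (1 / 2 * (h / s)) * M := by positivity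
    have := Nat.ceil_lt_add_one h0
    rw [hRr]
    push_cast
    linarith
  have hRr0 : 0 < Rr := by omega
  have hthk : thk h h = fun _ : Option (Fin n) => h := by
    funext o
    cases o <;> rfl
  -- the first step
  have a1 := hthn W Γ r c Q (fun _ _ => h) y (fun _ => h / s) (fun _ => 1 / 2) (fun _ => h) X M
    Rr (fun _ => False) hr hRr0 hM hX (fun γ => (hQ γ).2.trans (Nat.le_succ D)) (fun _ => hhs)
    (fun _ => by norm_num) (fun _ => by norm_num) (fun _ => by
      push_cast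
      exact hR1)
    (by
      intro w hw _
      have h1 := hnear w hw
      rw [PsiC_eq one_ne_zero, PsiC_eq hs.ne', div_one] at h1
      have e1 : ∀ r' : ℝ, Psv (Q (c w)) (fun o => o.elim r' (fun _ => h))
          (fun o => o.elim ((X w : ℝ) / M) (y (c w))) =
          PsiA (Q (c w)) (thk h r') (fun o => o.elim ((X w : ℝ) / M) (y (c w))) := fun _ => rfl
      refine ⟨?_, ?_⟩
      · exact (e1 (h / s)).symm ▸ PsiA_pos _ (hQ _).1 _ _ (thk_pos hh hhs)
      · change K₀ * Psv (Q (c w)) (fun o => o.elim h (fun _ => h))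
          (fun o => o.elim ((X w : ℝ) / M) (y (c w))) ≤ (1 / 2) ^ (D + 1) *
          Psv (Q (c w)) (fun o => o.elim (h / s) (fun _ => h))
          (fun o => o.elim ((X w : ℝ) / M) (y (c w)))
        rw [e1 h, e1 (h / s), one_div, inv_pow, inv_mul_eq_div, le_div_iff₀ (by positivity)]
        linarith)
  have a3 : CH r (fun w => X w / Rr) c ≤ Real.log (3 * (K₀ + 1)) + Real.log 2 := by
    refine a1.trans (le_of_eq ?_)
    simp only [if_false, Finset.sum_const_zero, zero_mul, add_zero]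
  -- the second step
  have a4 := CH_le_add hr0 (fun w => X w / 2 ^ qd) (fun w => X w / Rr) c
  have a5 : CH r (fun w => X w / 2 ^ qd) (fun w => (X w / Rr, c w)) ≤
      Real.log ((D + 1) * (h / s) * M / 2 ^ qd + 4) := by
    have b1 := CH_le_card hr0 hr.sum_one (fun w => X w / 2 ^ qd) (fun w => (X w / Rr, c w))
      (fun b => Finset.Icc (Rr * b.1 / 2 ^ qd) ((Rr * b.1 + Rr) / 2 ^ qd)) (by
        intro w _
        rw [Finset.mem_Icc]
        have h1 := Nat.div_add_mod (X w) Rr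
        have h2 := Nat.mod_lt (X w) hRr0
        constructor
        · refine Nat.div_le_div_right ?_
          simp only
          omega
        · refine Nat.div_le_div_right ?_
          simp only
          omega)
    refine b1.trans ?_
    have b2 : ∀ m : ℕ, (((Finset.Icc (Rr * m / 2 ^ qd) ((Rr * m + Rr) / 2 ^ qd)).card : ℕ) : ℝ) ≤
        (D + 1) * (h / s) * M / 2 ^ qd + 4 := by
      intro m
      rw [Nat.card_Icc]
      have h1 : (Rr * m + Rr) / 2 ^ qd ≤ Rr * m / 2 ^ qd + Rr / 2 ^ qd + 1 := by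
        have h2 : (Rr * m + Rr) / 2 ^ qd = Rr * m / 2 ^ qd + Rr / 2 ^ qd +
            (if 2 ^ qd ≤ Rr * m % 2 ^ qd + Rr % 2 ^ qd then 1 else 0) :=
          Nat.add_div (Nat.two_pow_pos qd)
        rw [h2]
        split_ifs <;> omega
      have h3 : (Rr * m + Rr) / 2 ^ qd + 1 - Rr * m / 2 ^ qd ≤ Rr / 2 ^ qd + 2 := by
        revert h1
        generalize (Rr * m + Rr) / 2 ^ qd = x1
        generalize Rr * m / 2 ^ qd = x2
        generalize Rr / 2 ^ qd = x3
        intro h1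
        omega
      have h4 : (((Rr * m + Rr) / 2 ^ qd + 1 - Rr * m / 2 ^ qd : ℕ) : ℝ) ≤
          ((Rr / 2 ^ qd + 2 : ℕ) : ℝ) := by exact_mod_cast h3
      have h5 : ((Rr / 2 ^ qd : ℕ) : ℝ) ≤ (Rr : ℝ) / 2 ^ qd := by
        have := Nat.cast_div_le (α := ℝ) (m := Rr) (n := 2 ^ qd)
        push_cast at this
        exact this
      have h6 : (Rr : ℝ) / 2 ^ qd ≤ (((D : ℝ) + 1) * (1 / 2 * (h / s)) * M + 2) / 2 ^ qd :=
        div_le_div_of_nonneg_right hR2 (by positivity)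
      have h7 : (((D : ℝ) + 1) * (1 / 2 * (h / s)) * M + 2) / 2 ^ qd =
          1 / 2 * ((D + 1) * (h / s) * M / 2 ^ qd) + 2 / 2 ^ qd := by ring
      have h8 : (2 : ℝ) / 2 ^ qd ≤ 2 := by
        rw [div_le_iff₀ (by positivity)]
        have : (1 : ℝ) ≤ 2 ^ qd := one_le_pow₀ (by norm_num)
        linarith
      have h9 : 0 ≤ ((D : ℝ) + 1) * (h / s) * M / 2 ^ qd := by positivity
      push_cast at h4
      linarith
    have b3 : Ex r (fun w => Real.log ((D + 1) * (h / s) * M / 2 ^ qd + 4)) =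
        Real.log ((D + 1) * (h / s) * M / 2 ^ qd + 4) := Ex_const hr.sum_one _
    rw [← b3]
    refine Ex_mono hr0 fun w _ => ?_
    refine Real.log_le_log ?_ (b2 _)
    have : 0 < (Finset.Icc (Rr * (X w / Rr) / 2 ^ qd) ((Rr * (X w / Rr) + Rr) / 2 ^ qd)).card := by
      refine Finset.card_pos.mpr ⟨Rr * (X w / Rr) / 2 ^ qd, ?_⟩
      rw [Finset.mem_Icc]
      exact ⟨le_rfl, Nat.div_le_div_right (by omega)⟩
    exact_mod_cast this
  linarith

end Pool.KS3
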