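import Pool.Agent.H82.KSP.STF

/-!
# Remez inequality along the line (1.1)

Two incidences of one line in the long window. The polynomial depends on a variable `c` which is a
function of the line, the leaf window of the first incidence and the second incidence.
-/

set_option autoImplicit false

namespace Pool.KS3

open Finset Real
open Pool.Agent.H49.Ent Pool.Agent.H32.Dense Pool.STK Pool.KAF Pool.KAL Pool.KST

/-- Moving the contracted line. -/
lemma cpt_near {n : ℕ} {s : ℝ} (hs0 : 0 < s) (hs1 : s ≤ 1) {z a b : Option (Fin n) → ℝ}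
    {t r : ℝ} (h : ∀ i, |z i - (a i + t * b i)| ≤ r) (i : Option (Fin n)) :
    |cpt s z i - (cpt s a i + t * cpt s b i)| ≤ r := by
  cases i with
  | none =>
    simp only [cpt, Option.elim]
    have e1 : s * z none - (s * a none + t * (s * b none)) =
        s * (z none - (a none + t * b none)) := by ring
    rw [e1, abs_mul, abs_of_pos hs0]
    calc s * |_| ≤ 1 * |_| := mul_le_mul_of_nonneg_right hs1 (abs_nonneg _)
      _ ≤ r := by rw [one_mul]; exact h none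
  | some i => exact h (some i)

section

variable {n a L : ℕ} {C₀ : ℝ} {Ω Λ Ξ Z : Type} [Fintype Ω] {p : Ω → ℝ} {lam : Ω → Λ}
    {x : Ω → Ξ} {T : Ξ → ℕ} {pos : Ξ → Option (Fin n) → ℕ} {A B : Λ → Option (Fin n) → ℝ}
    {zx : Ξ → Z} {zl : Λ → ℕ → Z} {cz : Z → Option (Fin n) → ℕ}

/-- The time of the first incidence is independent of the second incidence. -/
lemma dbl_time (hp : IsLaw p) {Γ : Type} (c : Ω × Ω → Γ)
    (hc : Det (dbl p lam) (fun v => ((lam v.1, T (x v.1) / 2 ^ L), v.2)) c) :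
    CH p (fun ω => TS T L (x ω)) (lamS lam x T L) ≤
      CH (dbl p lam) (fun v => T (x v.1)) (fun v => (lam v.1, (c v, ()))) := by
  have hp0 := hp.nonneg
  have hq0 : ∀ v, 0 ≤ dbl p lam v := dbl_nonneg hp0
  have m1 : Marg (dbl p lam) p (fun v => v.1) := dbl_fst hp0
  have h1 : CI (dbl p lam) (fun v => (T (x v.1) / 2 ^ L, T (x v.1))) (fun v => v.2)
      (fun v => lam v.1) :=
    CI_glue hp0 hp0 (fun _ => rfl) (fun ω => (T (x ω) / 2 ^ L, T (x ω))) (fun ω => ω)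
  have h2 : CI (dbl p lam) (fun v => v.2) (fun v => T (x v.1))
      (fun v => (T (x v.1) / 2 ^ L, lam v.1)) := (h1.symm hq0).weak hq0
  have h3 := h2.symm hq0
  unfold CI at h3
  have h4 : CH (dbl p lam) (fun v => T (x v.1)) (fun v => (T (x v.1) / 2 ^ L, lam v.1)) =
      CH p (fun ω => T (x ω)) (fun ω => (T (x ω) / 2 ^ L, lam ω)) :=
    m1.CH (fun ω => T (x ω)) (fun ω => (T (x ω) / 2 ^ L, lam ω))
  have h5 : CH p (fun ω => TS T L (x ω)) (lamS lam x T L) ≤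
      CH p (fun ω => T (x ω)) (fun ω => (T (x ω) / 2 ^ L, lam ω)) := by
    refine (CH_mono_left hp0 (X' := fun ω => T (x ω)) ?_).trans (CH_mono_cond hp0 ?_)
    · intro ω ω' _ _ h
      have : T (x ω) = T (x ω') := (Prod.ext_iff.mp h).1
      simp only [TS, this]
    · intro ω ω' _ _ h
      simp only [lamS, Prod.mk.injEq] at h ⊢
      tauto
  refine h5.trans ?_
  rw [← h4, ← h3]
  refine CH_mono_cond hq0 ?_
  intro v v' a b h
  have e1 : v.2 = v'.2 := (Prod.ext_iff.mp h).1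
  have e2 := (Prod.ext_iff.mp h).2
  have e3 : T (x v.1) / 2 ^ L = T (x v'.1) / 2 ^ L := (Prod.ext_iff.mp e2).1
  have e4 : lam v.1 = lam v'.1 := (Prod.ext_iff.mp e2).2
  have e5 : c v = c v' := hc v v' a b (by
    change ((lam v.1, T (x v.1) / 2 ^ L), v.2) = ((lam v'.1, T (x v'.1) / 2 ^ L), v'.2)
    rw [e1, e3, e4])
  exact Prod.ext e4 (Prod.ext e5 rfl)

/-- The incidence is near the line, long window. -/
lemma StepF.near_line (h : StepF n a L C₀ p lam x T pos A B zx zl cz) (ω : Ω) :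
    ((T (x ω) : ℝ) / ((2 ^ (a + L) : ℕ) : ℝ) ∈ Set.Icc (0 : ℝ) 1) ∧
    ∀ i, |rp (2 ^ (a + L)) pos (x ω) i - (A (lam ω) i +
      (T (x ω) : ℝ) / ((2 ^ (a + L) : ℕ) : ℝ) * B (lam ω) i)| ≤
      C₀ / ((2 ^ (a + L) : ℕ) : ℝ) := Pool.KS3.near_line h.leaf ω

end

/-- Row ONE. -/
lemma one (n D : ℕ) (C₀ : ℝ) (hC₀ : 1 ≤ C₀) :
    ∃ C : ℝ, 0 ≤ C ∧ ∀ (a L : ℕ) (Ω Λ Ξ Z Γ : Type) [Fintype Ω] (p : Ω → ℝ) (lam : Ω → Λ)
      (x : Ω → Ξ) (T : Ξ → ℕ) (pos : Ξ → Option (Fin n) → ℕ) (A B : Λ → Option (Fin n) → ℝ)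
      (zx : Ξ → Z) (zl : Λ → ℕ → Z) (cz : Z → Option (Fin n) → ℕ) (s : ℝ) (c : Ω × Ω → Γ)
      (P : Γ → MvPolynomial (Option (Fin n)) ℝ) (e₁ : ℝ),
      StepF n a L C₀ p lam x T pos A B zx zl cz → 0 < s → s ≤ 1 →
      Det (dbl p lam) (fun v => ((lam v.1, T (x v.1) / 2 ^ L), v.2)) c →
      (∀ v, 0 < dbl p lam v → P (c v) ≠ 0 ∧ (P (c v)).totalDegree ≤ D) →
      L * Real.log 2 - CH p (fun ω => TS T L (x ω)) (lamS lam x T L) ≤ e₁ →
      Ex (dbl p lam) (fun v => Real.log (PsiC s (P (c v)) (6 * C₀ / 2 ^ (a + L))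
        (rp (2 ^ (a + L)) pos (x v.2)))) ≤
        Ex (dbl p lam) (fun v => Real.log (PsiC s (P (c v)) (6 * C₀ / 2 ^ (a + L))
          (rp (2 ^ (a + L)) pos (x v.1)))) + 2 * D * (a * Real.log 2 + e₁) + C := by
  classical
  have h6 : (1 : ℝ) ≤ 6 * C₀ := by linarith
  obtain ⟨c₁, hc₁, hlin⟩ := lin_thm n D (6 * C₀) h6
  obtain ⟨C, hC, hstp⟩ := stp D
  refine ⟨2 * D * C + 2 * c₁, by positivity, ?_⟩
  intro a L Ω Λ Ξ Z Γ _ p lam x T pos A B zx zl cz s c P e₁ hF hs0 hs1 hc hP he₁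
  have hp := hF.leaf.isLaw
  have hp0 := hp.nonneg
  have hq0 : ∀ v, 0 ≤ dbl p lam v := dbl_nonneg hp0
  have m1 : Marg (dbl p lam) p (fun v => v.1) := dbl_fst hp0
  have hq : IsLaw (dbl p lam) := ⟨hq0, by rw [m1.sum]; exact hp.sum_one⟩
  set M : ℕ := 2 ^ (a + L) with hMdef
  have hM1 : 1 ≤ M := Nat.one_le_two_pow
  have hMr : (M : ℝ) = 2 ^ (a + L) := by rw [hMdef]; push_cast; rfl
  have hM0 : (0 : ℝ) < M := by exact_mod_cast hM1
  have hlM : Real.log M = a * Real.log 2 + L * Real.log 2 := by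
    rw [hMr, Real.log_pow]
    push_cast
    ring
  -- the polynomial along the line
  have hex : ∀ (P : MvPolynomial (Option (Fin n)) ℝ) (a b : Option (Fin n) → ℝ),
      ∃ (m : ℝ) (g : Polynomial ℝ), P ≠ 0 → P.totalDegree ≤ D → (∀ i, |b i| ≤ 6 * C₀) →
      g.natDegree ≤ D ∧ (∃ s ∈ Set.Icc (0 : ℝ) 1, Real.exp m ≤ |g.eval s|) ∧
      ∀ t ∈ Set.Icc (0 : ℝ) 1, ∀ z : Option (Fin n) → ℝ,
        (∀ i, |z i - (a i + t * b i)| ≤ 6 * C₀ / M) →
        |g.eval t| ≤ Real.exp (Real.log (Psi P (6 * C₀ / M) z) + c₁) ∧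
        m - D * Real.log M ≤ Real.log (Psi P (6 * C₀ / M) z) + c₁ ∧
        Real.log (Psi P (6 * C₀ / M) z) ≤ m + c₁ := by
    intro P a b
    by_cases h : P ≠ 0 ∧ P.totalDegree ≤ D ∧ ∀ i, |b i| ≤ 6 * C₀
    · obtain ⟨m, g, hg⟩ := hlin M P a b hM1 h.1 h.2.1 h.2.2
      exact ⟨m, g, fun _ _ _ => hg⟩
    · exact ⟨0, 0, fun h1 h2 h3 => absurd ⟨h1, h2, h3⟩ h⟩
  choose mm gg hmg using hex
  have hPc : ∀ v, 0 < dbl p lam v → ctr s (P (c v)) ≠ 0 ∧ (ctr s (P (c v))).totalDegree ≤ D :=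
    fun v hv => ⟨ctr_ne_zero hs0.ne' (hP v hv).1, (totalDegree_ctr_le _).trans (hP v hv).2⟩
  have hB : ∀ ω k, |cpt s (B (lam ω)) k| ≤ 6 * C₀ := by
    intro ω k
    have h1 := hF.leaf.B_le ω
    cases k with
    | none =>
      simp only [cpt, Option.elim]
      rw [abs_mul, abs_of_pos hs0]
      have h2 := h1 none
      have h3 := abs_nonneg (B (lam ω) none)
      nlinarith
    | some i =>
      simp only [cpt, Option.elim]
      have := h1 (some i)
      linarith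
  have hnear : ∀ ω, ((T (x ω) : ℝ) / M ∈ Set.Icc (0 : ℝ) 1) ∧
      ∀ i, |cpt s (rp M pos (x ω)) i - (cpt s (A (lam ω)) i +
        (T (x ω) : ℝ) / M * cpt s (B (lam ω)) i)| ≤ 6 * C₀ / M := by
    intro ω
    have h1 := hF.near_line ω
    refine ⟨h1.1, fun i => (cpt_near hs0 hs1 h1.2 i).trans ?_⟩
    exact div_le_div_of_nonneg_right (by linarith) hM0.le
  have key := hstp (Ω × Ω) Ξ Λ Γ Unit Unit (dbl p lam) M (fun v => x v.1) (fun v => x v.2)
    (fun v => lam v.1) c (fun _ => ()) (fun v => T (x v.1))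
    (fun b ξ => Real.log (PsiC s (P b) (6 * C₀ / M) (rp M pos ξ)))
    (fun b ll => mm (ctr s (P b)) (cpt s (A ll)) (cpt s (B ll)))
    (fun b ll _ => gg (ctr s (P b)) (cpt s (A ll)) (cpt s (B ll))) c₁ hq
    (fun v => hF.leaf.T_lt v.1)
    (by
      intro v hv
      have h1 := hPc v hv
      have h3 := hmg (ctr s (P (c v))) (cpt s (A (lam v.1))) (cpt s (B (lam v.1))) h1.1 h1.2
        (hB v.1)
      refine ⟨(), h3.1, h3.2.1, ?_⟩
      intro v' hv' hb hl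
      have h4 := hnear v'.1
      rw [hl] at h4
      rw [hb]
      exact (h3.2.2 _ h4.1 _ h4.2).1)
    (by
      intro v hv
      have h1 := hPc v hv
      have h3 := hmg (ctr s (P (c v))) (cpt s (A (lam v.1))) (cpt s (B (lam v.1))) h1.1 h1.2
        (hB v.1)
      have h4 := hnear v.1
      exact (h3.2.2 _ h4.1 _ h4.2).2.1)
    (by
      intro v hv
      have h1 := hPc v hv
      have h3 := hmg (ctr s (P (c v))) (cpt s (A (lam v.1))) (cpt s (B (lam v.1))) h1.1 h1.2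
        (hB v.1)
      have h4 := hnear v.2
      have h5 : lam v.1 = lam v.2 := dbl_eq hp0 hv
      rw [← h5] at h4
      exact (h3.2.2 _ h4.1 _ h4.2).2.2)
  have hdef : Real.log M - CH (dbl p lam) (fun v => T (x v.1))
      (fun v => (lam v.1, (c v, ()))) ≤ a * Real.log 2 + e₁ := by
    have h1 := dbl_time (lam := lam) (x := x) (T := T) (L := L) hp c hc
    rw [hlM]
    linarith
  have h2D : (0 : ℝ) ≤ 2 * D := by positivity
  have h7 := mul_le_mul_of_nonneg_left hdef h2D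
  rw [hMr] at key h7
  linarith

end Pool.KS3
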