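import Pool.Agent.H82.KSP.CRM

/-!
# The polynomial of the label of the macro step
-/

set_option autoImplicit false

namespace Pool.KS3

open Finset Real Module
open Pool.Agent.H49.Ent Pool.Agent.H32.Dense Pool.STK Pool.KAF Pool.KAL Pool.KST

/-- Row THL in the form of a count, with the polynomial of the label. -/
theorem thl_pol (n D : ℕ) (C₀ : ℝ) (hC₀ : 1 ≤ C₀) : ∃ Kc : ℕ, 1 ≤ Kc ∧ ∀ k₀ : ℕ,
    ∃ C : ℝ, 1 ≤ C ∧
    ∀ (a L : ℕ) (Ω Λ Ξ Z Y : Type) [Fintype Ω] (p : Ω → ℝ) (lam : Ω → Λ)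
      (x : Ω → Ξ) (T : Ξ → ℕ) (pos : Ξ → Option (Fin n) → ℕ) (A B : Λ → Option (Fin n) → ℝ)
      (zx : Ξ → Z) (zl : Λ → ℕ → Z) (cz : Z → Option (Fin n) → ℕ)
      (G : Z → MvPolynomial (Fin n) ℝ) (κ γ N γ₀ : ℕ) (δ ε e₁ e₃ lm k₃ τ X : ℝ) (e : Ξ → ℝ)
      (y : Z → Y),
      StepH n a L C₀ k₀ κ γ N δ ε e₁ e₃ p lam x T pos A B zx zl cz G e →
      (∀ ω, 0 < p ω → ¬ Bad (G (zx (x ω))) (fun _ => 0) 1 D lm) →
      6 * C₀ / 2 ^ L ≤ lm → lm ≤ 1 → 0 < τ → 0 ≤ X →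
      (∀ ζ ζ', y ζ = y ζ' →
        Dl (NZ D p x zx (2 ^ (a + L)) pos (6 * C₀ / 2 ^ (a + L)) (6 * C₀ / 2 ^ L / lm) ζ)
          (NZ D p x zx (2 ^ (a + L)) pos (6 * C₀ / 2 ^ (a + L)) (6 * C₀ / 2 ^ L / lm) ζ') k₃ ∧
        Dl (NZ D p x zx (2 ^ (a + L)) pos (6 * C₀ / 2 ^ (a + L))
            (6 * C₀ / 2 ^ L / lm / 2 ^ γ₀) ζ)
          (NZ D p x zx (2 ^ (a + L)) pos (6 * C₀ / 2 ^ (a + L))
            (6 * C₀ / 2 ^ L / lm / 2 ^ γ₀) ζ') k₃) →
      X + 2 * τ + 2 * k₃ + C ≤ γ₀ * Real.log 2 →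
      ∀ Rr : ℕ, (D + 1) * (lm * 2 ^ (γ₀ + L)) ≤ Rr →
      ∃ (bad : Ω → Prop) (S : (Fin n → ℕ) × Y → Finset ℕ)
        (R : Y → MvPolynomial.restrictTotalDegree (Option (Fin n)) ℝ D),
        (∀ g, (S g).card ≤ Kc) ∧
        (∑ ω, (open Classical in if bad ω then p ω else 0)) ≤
          C * RR n L κ γ N ε e₁ e₃ / τ ∧ (∀ g, R g ≠ 0) ∧
        (∀ ω, 0 < p ω → ¬ bad ω → Real.exp X *
          NZ D p x zx (2 ^ (a + L)) pos (6 * C₀ / 2 ^ (a + L)) (6 * C₀ / 2 ^ L / lm) (zx (x ω))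
            (R (y (zx (x ω)))) ≤
          NZ D p x zx (2 ^ (a + L)) pos (6 * C₀ / 2 ^ (a + L))
            (6 * C₀ / 2 ^ L / lm / 2 ^ γ₀) (zx (x ω)) (R (y (zx (x ω))))) ∧
        ∀ ω, 0 < p ω → ¬ bad ω → pos (x ω) none / Rr ∈ S (bas pos (x ω), y (zx (x ω))) := by
  classical
  obtain ⟨K, hK, hthn⟩ := thn_card n (D + 1) (by omega)
  refine ⟨3 * K, by omega, fun k₀ => ?_⟩
  obtain ⟨Cq, hCq, hqdt⟩ := qdt n D k₀ C₀ hC₀
  obtain ⟨Cl, hCl, hlrz⟩ := lrz n D k₀ C₀ hC₀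
  have hK1 : (1 : ℝ) ≤ K := by exact_mod_cast hK
  have hlK : 0 ≤ Real.log K := Real.log_nonneg hK1
  have hl2 : 0 < Real.log 2 := Real.log_pos (by norm_num)
  have hD0 : (0 : ℝ) ≤ D := Nat.cast_nonneg D
  have hD1 : (0 : ℝ) < D + 1 := by linarith only
  have hCq0 : (0 : ℝ) < Cq := by linarith only [hCq]
  set c₂ : ℝ := Real.log (D + 1) + Real.log Cq with hc₂
  have hlD : 0 ≤ Real.log ((D : ℝ) + 1) := Real.log_nonneg (by linarith only)
  have hlCq : 0 ≤ Real.log Cq := Real.log_nonneg hCq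
  have hc₂0 : 0 ≤ c₂ := by positivity
  have hl3 : 0 ≤ Real.log (3 * (K + 1)) := Real.log_nonneg (by linarith only [hK1])
  refine ⟨1 + Cq + Cl + c₂ + Real.log K + (D + 1) * Real.log 2 + 3 * K, ?_, ?_⟩
  · have : 0 ≤ (D + 1) * Real.log 2 := by positivity
    linarith
  intro a L Ω Λ Ξ Z Y _ p lam x T pos A B zx zl cz G κ γ N γ₀ δ ε e₁ e₃ lm k₃ τ X e y hF hbad
    hlm hlm1 hτ hX0 hy hγ₀ Rr hRr
  have hp := hF.step.leaf.isLaw
  have hp0 := hp.nonneg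
  obtain ⟨Q, g, hQ, hg, hjet, hder, hfill⟩ := hqdt a L Ω Λ Ξ Z p lam x T pos A B zx zl cz G κ γ
    δ ε e₁ lm e hF.step hF.reg hF.gr hbad hlm hlm1 hF.hδ hF.he hF.hex hF.hnc
    (by
      refine le_trans ?_ hF.hγ
      have h1 : (0 : ℝ) ≤ n.factorial := Nat.cast_nonneg _
      refine mul_le_mul_of_nonneg_left ?_ h1
      exact pow_le_pow_left₀ (by linarith only [hC₀]) (by linarith only [hC₀]) _) hF.hκ hF.he₁ hF.he₁0
  have hC0 : (0 : ℝ) < C₀ := by linarith only [hC₀]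
  have h2L : (0 : ℝ) < 2 ^ L := by positivity
  have h2a : (0 : ℝ) < 2 ^ a := by positivity
  have h2g : (0 : ℝ) < 2 ^ γ₀ := by positivity
  have h2g1 : (1 : ℝ) ≤ 2 ^ γ₀ := one_le_pow₀ (by norm_num)
  have h2aL : (0 : ℝ) < 2 ^ (a + L) := by positivity
  set h₀ : ℝ := 6 * C₀ / 2 ^ L with hh₀
  have hh₀0 : 0 < h₀ := by positivity
  have hlm0 : 0 < lm := hh₀0.trans_le hlm
  set s₁ : ℝ := h₀ / lm with hs₁
  have hs₁0 : 0 < s₁ := div_pos hh₀0 hlm0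
  have hs₁1 : s₁ ≤ 1 := by
    rw [hs₁, div_le_one hlm0]
    exact hlm
  set s₂ : ℝ := s₁ / 2 ^ γ₀ with hs₂
  have hs₂0 : 0 < s₂ := div_pos hs₁0 h2g
  have hs₂1 : s₂ ≤ 1 := by
    rw [hs₂, div_le_one h2g]
    linarith only [h2g1, hs₁1]
  set h : ℝ := 6 * C₀ / 2 ^ (a + L) with hh
  have hh0 : 0 < h := by positivity
  set r₁ : ℝ := lm / 2 ^ a with hr₁
  have hr₁0 : 0 < r₁ := by positivity
  set r₂ : ℝ := lm * 2 ^ γ₀ / 2 ^ a with hr₂
  have hr₂0 : 0 < r₂ := by positivity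
  have hhs₁ : h / s₁ = r₁ := by
    rw [hh, hs₁, hr₁, hh₀, pow_add]
    field_simp
  have hhs₂ : h / s₂ = r₂ := by
    rw [hh, hs₂, hs₁, hr₂, hh₀, pow_add]
    field_simp
  have hhr₁ : h ≤ r₁ := by
    rw [← hhs₁, le_div_iff₀ hs₁0]
    nlinarith only [hs₁1, hh0]
  have hhr₂ : h ≤ r₂ := by
    rw [← hhs₂, le_div_iff₀ hs₂0]
    nlinarith only [hs₂1, hh0]
  set M : ℕ := 2 ^ (a + L) with hM
  set R : ℝ := RR n L κ γ N ε e₁ e₃ with hR
  obtain ⟨hR0, hR1, -⟩ := hF.le_RR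
  rw [← hR] at hR0 hR1
  have hthk : thk h h = fun _ : Option (Fin n) => h := by
    funext o
    cases o <;> rfl
  -- polynomials as vectors
  set QV : Z → MvPolynomial.restrictTotalDegree (Option (Fin n)) ℝ D := fun ζ =>
    ⟨Q ζ, (MvPolynomial.mem_restrictTotalDegree _ _ _).mpr (hQ ζ).2⟩ with hQV
  have hQVne : ∀ ζ, QV ζ ≠ 0 := fun ζ h0 => (hQ ζ).1 (congrArg Subtype.val h0)
  -- the derivative on the leaf
  set Ψ₃ : Ω → ℝ := fun ω => 1 / 2 ^ a * Psi (MvPolynomial.pderiv none (Q (zx (x ω)))) h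
    (rp M pos (x ω)) with hΨ₃
  have hΨ₃0 : ∀ ω, 0 < p ω → 0 < Ψ₃ ω := fun ω hω =>
    mul_pos (div_pos one_pos h2a) (Psi_pos _ (hder ω hω) h hh0 _)
  have hΨ₃r : ∀ ω, ∀ r, h ≤ r → r * 2 ^ a * Ψ₃ ω ≤ (D + 1) * PsiA (Q (zx (x ω))) (thk h r)
      (rp M pos (x ω)) := by
    intro ω r hr
    have h1 := jet_pderiv_le (Q (zx (x ω))) (hQ _).2 h h r hh0 hh0 hr (rp M pos (x ω))
    rw [hthk, PsiA_const] at h1
    have h2 : r * 2 ^ a * Ψ₃ ω = r * Psi (MvPolynomial.pderiv none (Q (zx (x ω)))) h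
        (rp M pos (x ω)) := by
      simp only [hΨ₃]
      rw [mul_assoc, ← mul_assoc (2 ^ a), mul_one_div_cancel h2a.ne', one_mul]
    rw [h2]
    refine h1.trans ?_
    have h3 := PsiA_nonneg (Q (zx (x ω))) (thk h r) (rp M pos (x ω))
    exact mul_le_mul_of_nonneg_right (by linarith only) h3
  -- the fullness
  set Gf : Ω → ℝ := fun ω => Real.log (g (zx (x ω))) - Real.log (Ψ₃ ω) with hGf
  have hGlb : ∀ ω, 0 < p ω → -c₂ ≤ Gf ω := by
    intro ω hω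
    have h1 := hΨ₃r ω r₁ hhr₁
    have h2 := hjet ω hω
    rw [PsiC_eq hs₁0.ne', hhs₁] at h2
    have h3 : r₁ * 2 ^ a = lm := by
      rw [hr₁]
      field_simp
    rw [h3] at h1
    have h4 : lm * Ψ₃ ω ≤ lm * ((D + 1) * Cq * g (zx (x ω))) := by
      refine h1.trans ((mul_le_mul_of_nonneg_left h2 hD1.le).trans (le_of_eq ?_))
      ring
    have h5 := le_of_mul_le_mul_left h4 hlm0
    have h6 := Real.log_le_log (hΨ₃0 ω hω) h5
    rw [Real.log_mul (mul_pos hD1 hCq0).ne' (hg _).ne', Real.log_mul hD1.ne' hCq0.ne'] at h6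
    simp only [hGf, hc₂]
    linarith only [h6]
  have hGm : Ex p Gf ≤ Cq * R := by
    have h1 : Ex p Gf = Ex p (fun ω => Real.log (g (zx (x ω)))) -
      Ex p (fun ω => Real.log (Ψ₃ ω)) := Ex_sub _ _ _
    have h2 : Ex p (fun ω => Real.log (g (zx (x ω)))) ≤ Ex p (fun ω => Real.log (Ψ₃ ω)) +
        Cq * (e₁ + L / κ + γ + κ + 1 + ε * L) := hfill
    have h3 := mul_le_mul_of_nonneg_left hR0 hCq0.le
    linarith only [hfill, h1, h3]
  have hP1 := markov_lb hp Gf c₂ τ (Cq * R) hτ hc₂0 hGlb hGm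
  -- the representative of a label
  obtain ⟨ω₁, hω₁⟩ : ∃ ω, 0 < p ω := by
    by_contra hcon
    push Not at hcon
    have h1 : ∑ ω, p ω ≤ 0 := Finset.sum_nonpos fun ω _ => hcon ω
    rw [hp.sum_one] at h1
    linarith only [h1]
  have hrep : ∀ y₀ : Y, ∃ ζ : Z, (∃ ω, 0 < p ω ∧ Gf ω ≤ τ ∧ y (zx (x ω)) = y₀) →
      ∃ ω, 0 < p ω ∧ Gf ω ≤ τ ∧ y (zx (x ω)) = y₀ ∧ ζ = zx (x ω) := by
    intro y₀
    by_cases hc : ∃ ω, 0 < p ω ∧ Gf ω ≤ τ ∧ y (zx (x ω)) = y₀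
    · obtain ⟨ω, h1, h2, h3⟩ := hc
      exact ⟨zx (x ω), fun _ => ⟨ω, h1, h2, h3, rfl⟩⟩
    · exact ⟨zx (x ω₁), fun h => absurd h hc⟩
  choose rep hrep' using hrep
  set F : Z → MvPolynomial.restrictTotalDegree (Option (Fin n)) ℝ D := fun ζ => QV (rep (y ζ))
    with hFd
  have hFne : ∀ ζ, F ζ ≠ 0 := fun ζ => hQVne _
  have hFv : ∀ ζ, (F ζ : MvPolynomial (Option (Fin n)) ℝ) = Q (rep (y ζ)) := fun _ => rfl
  -- the jets against the norms at large thickness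
  set N₁ : Z → Seminorm ℝ (MvPolynomial.restrictTotalDegree (Option (Fin n)) ℝ D) :=
    fun ζ => NZ D p x zx M pos h s₁ ζ with hN₁
  set N₂ : Z → Seminorm ℝ (MvPolynomial.restrictTotalDegree (Option (Fin n)) ℝ D) :=
    fun ζ => NZ D p x zx M pos h s₂ ζ with hN₂
  set J₁ : Ω → ℝ := fun ω => PsiC s₁ (F (zx (x ω)) : MvPolynomial (Option (Fin n)) ℝ) h
    (rp M pos (x ω)) with hJ₁
  set J₂ : Ω → ℝ := fun ω => PsiC s₂ (F (zx (x ω)) : MvPolynomial (Option (Fin n)) ℝ) h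
    (rp M pos (x ω)) with hJ₂
  have hJ₁0 : ∀ ω, 0 < J₁ ω := fun ω => PsiC_pos hs₁0.ne' (hQ _).1 hh0 _
  have hJ₂0 : ∀ ω, 0 < J₂ ω := fun ω => PsiC_pos hs₂0.ne' (hQ _).1 hh0 _
  have hN₁0 : ∀ ζ, 0 < N₁ ζ (F ζ) := fun ζ => NZ_pos hh0 hs₁0 _ (hFne _)
  have hN₂0 : ∀ ζ, 0 < N₂ ζ (F ζ) := fun ζ => NZ_pos hh0 hs₂0 _ (hFne _)
  set X₂ : Ω → ℝ := fun ω => Real.log (N₂ (zx (x ω)) (F (zx (x ω)))) - Real.log (J₂ ω) with hX₂
  have hX₂0 : ∀ ω, 0 < p ω → -0 ≤ X₂ ω := by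
    intro ω hω
    have h1 := Real.log_le_log (hJ₂0 ω) (le_NZ (D := D) (zx := zx) (M := M) (pos := pos) (h := h)
      hs₂0.ne' hω (F (zx (x ω))))
    simp only [hX₂]
    rw [neg_zero]
    linarith only [h1]
  have hX₂m : Ex p X₂ ≤ Cl * R := by
    have h1 : Ex p X₂ = Ex p (fun ω => Real.log (N₂ (zx (x ω)) (F (zx (x ω))))) -
      Ex p (fun ω => Real.log (J₂ ω)) := Ex_sub _ _ _
    have h2 : Ex p (fun ω => Real.log (N₂ (zx (x ω)) (F (zx (x ω))))) ≤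
        Ex p (fun ω => Real.log (J₂ ω)) + Cl * ((N + 1) * (e₁ + 1) + e₃ +
          (1 - 1 / n) ^ N * (L + e₃) + L / κ + γ + κ + ε * L) :=
      hlrz a L Ω Λ Ξ Z p lam x T pos A B zx zl cz G κ γ N δ ε e₁ e₃ s₂ e F hF.step hF.reg hF.gr
        hF.hδ hF.he hF.hex hF.hnc hF.hγ hF.hκ hF.he₁ hF.he₁0 hF.he₃ hs₂0 hs₂1 hFne
    have h3 : (N + 1) * (e₁ + 1) + e₃ +
          (1 - 1 / (n : ℝ)) ^ N * (L + e₃) + L / κ + γ + κ + ε * L = R := rfl
    rw [h3] at h2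
    linarith only [h1, h2]
  have hP2 := markov_lb hp X₂ 0 τ (Cl * R) hτ le_rfl hX₂0 hX₂m
  -- the good points
  set bad : Ω → Prop := fun ω => ¬ (∃ ω', 0 < p ω' ∧ Gf ω' ≤ τ ∧ y (zx (x ω')) = y (zx (x ω))) ∨
    τ < X₂ ω with hbd
  have hPbad : (∑ ω, if bad ω then p ω else 0) ≤ (Cq + Cl + c₂) * R / τ := by
    have h1 : (∑ ω, if bad ω then p ω else 0) ≤ (∑ ω, if τ < Gf ω then p ω else 0) +
        ∑ ω, if τ < X₂ ω then p ω else 0 := by
      rw [← Finset.sum_add_distrib]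
      refine Finset.sum_le_sum fun ω _ => ?_
      have h2 := hp0 ω
      by_cases hω : 0 < p ω
      · by_cases hb : bad ω
        · rw [if_pos hb]
          rcases hb with hb | hb
          · have h3 : τ < Gf ω := by
              by_contra hcon
              push Not at hcon
              exact hb ⟨ω, hω, hcon, rfl⟩
            rw [if_pos h3]
            split_ifs <;> linarith
          · rw [if_pos hb]
            split_ifs <;> linarith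
        · rw [if_neg hb]
          split_ifs <;> linarith
      · have h3 : p ω = 0 := le_antisymm (not_lt.mp hω) h2
        rw [h3]
        simp
    have h2 : (Cq * R + c₂) / τ + (Cl * R + 0) / τ ≤ (Cq + Cl + c₂) * R / τ := by
      rw [← add_div]
      refine div_le_div_of_nonneg_right ?_ hτ.le
      nlinarith only [hlD, hR1, hlCq]
    linarith only [hP1, hP2, h1, h2]
  have hgood : ∀ ω, 0 < p ω → ¬ bad ω →
      Real.log K + (D + 1) * Real.log 2 + Real.log (J₁ ω) ≤ Real.log (J₂ ω) ∧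
      X + Real.log (N₁ (zx (x ω)) (F (zx (x ω)))) ≤
        Real.log (N₂ (zx (x ω)) (F (zx (x ω)))) := by
    intro ω hω hb
    simp only [hbd, not_or, not_not, not_lt] at hb
    obtain ⟨hb1, hb2⟩ := hb
    obtain ⟨ω', hω', hG', hy', hr'⟩ := hrep' _ hb1
    set z := zx (x ω) with hz
    set z' := zx (x ω') with hz'
    have hFz : F z = QV z' := by
      simp only [hFd]
      rw [hr']
    have hD := hy z' z hy'
    -- large thickness at the representative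
    have a1 : Real.log (lm * 2 ^ γ₀) + Real.log (Ψ₃ ω') ≤
        Real.log (D + 1) + Real.log (N₂ z' (QV z')) := by
      have h1 := hΨ₃r ω' r₂ hhr₂
      have h2 : r₂ * 2 ^ a = lm * 2 ^ γ₀ := by
        rw [hr₂]
        field_simp
      rw [h2] at h1
      have h3 : PsiA (Q (zx (x ω'))) (thk h r₂) (rp M pos (x ω')) ≤ N₂ z' (QV z') := by
        have h4 := le_NZ (D := D) (x := x) (zx := zx) (M := M) (pos := pos) (h := h) hs₂0.ne' hω'
          (QV z')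
        rw [PsiC_eq hs₂0.ne', hhs₂] at h4
        exact h4
      have h5 : lm * 2 ^ γ₀ * Ψ₃ ω' ≤ (D + 1) * N₂ z' (QV z') :=
        h1.trans (mul_le_mul_of_nonneg_left h3 hD1.le)
      have h6 : 0 < lm * 2 ^ γ₀ := mul_pos hlm0 h2g
      have h7 := Real.log_le_log (mul_pos h6 (hΨ₃0 ω' hω')) h5
      have h8 : 0 < N₂ z' (QV z') := NZ_pos hh0 hs₂0 _ (hQVne _)
      rwa [Real.log_mul h6.ne' (hΨ₃0 ω' hω').ne', Real.log_mul hD1.ne' h8.ne'] at h7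
    -- small thickness at the representative
    have a2 : Real.log (N₁ z' (QV z')) ≤ Real.log Cq + Real.log lm + Real.log (g z') := by
      obtain ⟨ω'', h1, h2, h3⟩ := NZ_attained (D := D) (x := x) (zx := zx) (M := M) (pos := pos)
        (h := h) hs₁0.ne' hω' (QV z')
      have h4 := hjet ω'' h1
      rw [h2] at h4
      have h5 : N₁ z' (QV z') ≤ Cq * lm * g z' := by
        refine le_trans (le_of_eq h3) h4
      have h6 : 0 < N₁ z' (QV z') := NZ_pos hh0 hs₁0 _ (hQVne _)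
      have h7 := Real.log_le_log h6 h5
      rwa [Real.log_mul (mul_pos hCq0 hlm0).ne' (hg _).ne', Real.log_mul hCq0.ne' hlm0.ne'] at h7
    -- from the representative to the leaf
    have a3 : Real.log (N₂ z' (QV z')) ≤ k₃ + Real.log (N₂ z (F z)) := by
      have h1 : N₂ z' (QV z') ≤ Real.exp k₃ * N₂ z (QV z') := (hD.2 (QV z')).1
      rw [← hFz] at h1 ⊢
      have h2 : 0 < N₂ z' (F z) := NZ_pos hh0 hs₂0 _ (hFne _)
      have h3 := Real.log_le_log h2 h1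
      rwa [Real.log_mul (Real.exp_pos _).ne' (hN₂0 z).ne', Real.log_exp] at h3
    have a4 : Real.log (N₁ z (F z)) ≤ k₃ + Real.log (N₁ z' (QV z')) := by
      have h1 : N₁ z (QV z') ≤ Real.exp k₃ * N₁ z' (QV z') := (hD.1 (QV z')).2
      rw [← hFz] at h1 ⊢
      have h2 : 0 < N₁ z' (F z) := NZ_pos hh0 hs₁0 _ (hFne _)
      have h3 := Real.log_le_log (hN₁0 z) h1
      rwa [Real.log_mul (Real.exp_pos _).ne' h2.ne', Real.log_exp] at h3
    -- at the point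
    have a5 : Real.log (J₁ ω) ≤ Real.log (N₁ z (F z)) :=
      Real.log_le_log (hJ₁0 ω) (le_NZ (D := D) (zx := zx) (M := M) (pos := pos) (h := h)
        hs₁0.ne' hω (F (zx (x ω))))
    have a6 : Real.log (N₂ z (F z)) - Real.log (J₂ ω) ≤ τ := hb2
    have a7 : Real.log (g z') - Real.log (Ψ₃ ω') ≤ τ := hG'
    have a8 : Real.log (lm * 2 ^ γ₀) = Real.log lm + γ₀ * Real.log 2 := by
      rw [Real.log_mul hlm0.ne' h2g.ne', Real.log_pow]
    rw [a8] at a1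
    have a9 : c₂ = Real.log (D + 1) + Real.log Cq := hc₂
    have a10 : 0 ≤ (D + 1) * Real.log 2 := by positivity
    constructor
    · linarith only [hCq, hCl, hK1, hX0, hγ₀, hb2, hG', a1, a2, a3, a4, a5]
    · linarith only [hCq, hCl, hK1, hlK, hτ, hγ₀, hG', a1, a2, a3, a4, a10]
  -- the count
  have hRr0 : 0 < Rr := by
    have h1 : (0 : ℝ) < (D + 1) * (lm * 2 ^ (γ₀ + L)) := by positivity
    exact_mod_cast h1.trans_le hRr
  have e1 : ∀ (ω : Ω) (r' : ℝ), Psv (Q (rep (y (zx (x ω))))) (fun o => o.elim r' (fun _ => h))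
      (fun o => o.elim ((pos (x ω) none : ℝ) / (M : ℝ))
        (fun i => (bas pos (x ω) i : ℝ) / (M : ℝ))) =
      PsiA (Q (rep (y (zx (x ω))))) (thk h r') (rp M pos (x ω)) := by
    intro ω r'
    have e2 : (fun o : Option (Fin n) => o.elim ((pos (x ω) none : ℝ) / (M : ℝ))
        (fun i => (bas pos (x ω) i : ℝ) / (M : ℝ))) = rp M pos (x ω) := by
      funext o
      cases o <;> rfl
    rw [e2]
    rfl
  have key := hthn Ω ((Fin n → ℕ) × Y) p (fun ω => (bas pos (x ω), y (zx (x ω))))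
    (fun γ => Q (rep γ.2)) (fun _ _ => h) (fun γ i => (γ.1 i : ℝ) / (M : ℝ)) (fun _ => r₂)
    (fun _ => 1 / 2) (fun _ => r₁) (fun ω => pos (x ω) none) M Rr bad hRr0
    (Nat.two_pow_pos _) (fun γ => (hQ _).2.trans (Nat.le_succ D)) (fun _ => hr₂0) (fun _ => by norm_num)
    (fun _ => by norm_num) (fun _ => by
      refine le_trans ?_ hRr
      have e3 : (M : ℝ) = 2 ^ a * 2 ^ L := by
        rw [hM]
        push_cast
        rw [pow_add]
      have e4 : ((D + 1 : ℕ) : ℝ) * (1 / 2 * r₂) * (M : ℝ) =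
          1 / 2 * ((D + 1) * (lm * 2 ^ (γ₀ + L))) := by
        rw [e3, hr₂, pow_add]
        push_cast
        field_simp
      rw [e4]
      have h1 : 0 ≤ (D + 1) * (lm * 2 ^ (γ₀ + L)) := by positivity
      linarith only [h1])
    (by
      intro ω hω hb
      have h1 := (hgood ω hω hb).1
      have hpos : 0 < PsiA (Q (rep (y (zx (x ω))))) (thk h r₂) (rp M pos (x ω)) :=
        PsiA_pos _ (hQ _).1 _ _ (thk_pos hh0 hr₂0)
      refine ⟨?_, ?_⟩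
      · exact (e1 ω r₂).symm ▸ hpos
      · change K * Psv (Q (rep (y (zx (x ω))))) (fun o => o.elim r₁ (fun _ => h))
          (fun o => o.elim ((pos (x ω) none : ℝ) / (M : ℝ))
            (fun i => (bas pos (x ω) i : ℝ) / (M : ℝ))) ≤ (1 / 2) ^ (D + 1) *
          Psv (Q (rep (y (zx (x ω))))) (fun o => o.elim r₂ (fun _ => h))
          (fun o => o.elim ((pos (x ω) none : ℝ) / (M : ℝ))
            (fun i => (bas pos (x ω) i : ℝ) / (M : ℝ)))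
        rw [e1 ω r₁, e1 ω r₂]
        have h2 : J₁ ω = PsiA (Q (rep (y (zx (x ω))))) (thk h r₁) (rp M pos (x ω)) := by
          simp only [hJ₁]
          rw [PsiC_eq hs₁0.ne', hhs₁]
        have h3 : J₂ ω = PsiA (Q (rep (y (zx (x ω))))) (thk h r₂) (rp M pos (x ω)) := by
          simp only [hJ₂]
          rw [PsiC_eq hs₂0.ne', hhs₂]
        rw [← h2, ← h3]
        have h4 : Real.log (K * 2 ^ (D + 1) * J₁ ω) ≤ Real.log (J₂ ω) := by
          rw [Real.log_mul (by positivity) (hJ₁0 ω).ne', Real.log_mul (by positivity)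
            (by positivity), Real.log_pow]
          push_cast
          exact h1
        have h5 := (Real.log_le_log_iff (mul_pos (by positivity) (hJ₁0 ω)) (hJ₂0 ω)).mp h4
        rw [one_div, inv_pow, inv_mul_eq_div, le_div_iff₀ (by positivity)]
        linarith only [h5])
  obtain ⟨S, hS1, hS2⟩ := key
  refine ⟨bad, S, fun g => QV (rep g), hS1, ?_, fun g => hQVne _, fun ω hω hb => ?_, hS2⟩
  rotate_left
  · have h1 := (hgood ω hω hb).2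
    have h2 : Real.log (Real.exp X * N₁ (zx (x ω)) (F (zx (x ω)))) ≤
        Real.log (N₂ (zx (x ω)) (F (zx (x ω)))) := by
      rw [Real.log_mul (Real.exp_pos _).ne' (hN₁0 _).ne', Real.log_exp]
      exact h1
    exact (Real.log_le_log_iff (mul_pos (Real.exp_pos _) (hN₁0 _)) (hN₂0 _)).mp h2
  · refine (le_trans (le_of_eq (Finset.sum_congr rfl fun ω _ => ite_dec _ _ _ _ _)) hPbad).trans ?_
    refine div_le_div_of_nonneg_right ?_ hτ.le
    refine mul_le_mul_of_nonneg_right ?_ (by linarith only [hR1])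
    have : 0 ≤ (D + 1) * Real.log 2 := by positivity
    linarith only [hK1, hlK, this]

/-- The core of the macro step with a general mask, with a count and the polynomial of the
label. -/
theorem stp_core_pol (n D : ℕ) (C₀ p₀ : ℝ) (hC₀ : 1 ≤ C₀) (hp₀ : 0 < p₀) :
    ∃ (C₁ : ℝ) (Kc : ℕ), 1 ≤ C₁ ∧ 1 ≤ Kc ∧
    ∀ k₀ : ℕ, ∃ C₂ : ℝ, 1 ≤ C₂ ∧
    ∀ (a L : ℕ) (Ω Λ Ξ Z : Type) [Fintype Ω] (p : Ω → ℝ) (lam : Ω → Λ)
      (x : Ω → Ξ) (T : Ξ → ℕ) (pos : Ξ → Option (Fin n) → ℕ) (A B : Λ → Option (Fin n) → ℝ)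
      (zx : Ξ → Z) (zl : Λ → ℕ → Z) (cz : Z → Option (Fin n) → ℕ)
      (G : Z → MvPolynomial (Fin n) ℝ) (κ γ N γ₀ : ℕ) (δ ε e₁ e₃ lm mi pG τ X : ℝ) (e : Ξ → ℝ)
      (gd : Λ × ℕ → Ω → Bool),
      StepH n a L C₀ k₀ κ γ N δ ε e₁ e₃ p lam x T pos A B zx zl cz G e →
      (∀ ω, 0 < p ω → ¬ Bad (G (zx (x ω))) (fun _ => 0) 1 D lm) →
      6 * C₀ / 2 ^ L ≤ lm → lm ≤ 1 → 0 < τ → 0 ≤ X → 0 ≤ mi →
      (∀ gd' : Λ × ℕ → Ω → Bool, (∀ l ω, gd' l ω = true → gd l ω = true) →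
        CH (dbl p lam) (mk2 lam x T L zx gd') (fun v => zx (x v.2)) -
          CH (dbl p lam) (mk2 lam x T L zx gd') (fun v => x v.2) ≤ mi) →
      (∑ v, if gd (lamS lam x T L v.1) v.2 = true then 0 else dbl p lam v) ≤ pG →
      C₁ * (a + mi) + C₂ * RR n L κ γ N ε e₁ e₃ + 4 * τ + 2 * X ≤ γ₀ →
      ∃ (Y : Type) (y : Z → Y) (sl : Λ → Option Y),
        (∑ ω, (open Classical in if some (y (zx (x ω))) ≠ sl (lam ω) then p ω else 0)) ≤
          p₀ + 4 * pG ∧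
        ∀ Rr : ℕ, (D + 1) * (lm * 2 ^ (γ₀ + L)) ≤ Rr →
          ∃ (bad : Ω → Prop) (S : (Fin n → ℕ) × Y → Finset ℕ)
            (R : Y → MvPolynomial.restrictTotalDegree (Option (Fin n)) ℝ D),
            (∀ g, (S g).card ≤ Kc) ∧
            (∑ ω, (open Classical in if bad ω then p ω else 0)) ≤
              C₂ * RR n L κ γ N ε e₁ e₃ / τ ∧ (∀ g, R g ≠ 0) ∧
            (∀ ω, 0 < p ω → ¬ bad ω → Real.exp X *
              NZ D p x zx (2 ^ (a + L)) pos (6 * C₀ / 2 ^ (a + L)) (6 * C₀ / 2 ^ L / lm)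
                (zx (x ω)) (R (y (zx (x ω)))) ≤
              NZ D p x zx (2 ^ (a + L)) pos (6 * C₀ / 2 ^ (a + L))
                (6 * C₀ / 2 ^ L / lm / 2 ^ γ₀) (zx (x ω)) (R (y (zx (x ω))))) ∧
            ∀ ω, 0 < p ω → ¬ bad ω →
              pos (x ω) none / Rr ∈ S (bas pos (x ω), y (zx (x ω))) := by
  classical
  obtain ⟨C₁, hC₁, hrnd⟩ := rnd' n D C₀ (p₀ / 2) hC₀ (by linarith only [hp₀])
  obtain ⟨Kc, hKc, hthl₀⟩ := thl_pol n D C₀ hC₀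
  refine ⟨8 * C₁, Kc, by linarith only [hC₁], hKc, ?_⟩
  intro k₀
  obtain ⟨C₂, hC₂, hrnd⟩ := hrnd k₀
  obtain ⟨Ct, hCt, hthl⟩ := hthl₀ k₀
  refine ⟨8 * C₂ + 2 * Ct, by linarith, ?_⟩
  intro a L Ω Λ Ξ Z _ p lam x T pos A B zx zl cz G κ γ N γ₀ δ ε e₁ e₃ lm mi pG τ X e gd hF hbad
    hlm hlm1 hτ hX0 hmi0 hmi hpG hγ₀
  have hp := hF.step.leaf.isLaw
  have hp0 := hp.nonneg
  have hC0 : (0 : ℝ) < C₀ := by linarith only [hC₀]
  have h2L : (0 : ℝ) < 2 ^ L := by positivity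
  have h2g : (0 : ℝ) < 2 ^ γ₀ := by positivity
  have h2g1 : (1 : ℝ) ≤ 2 ^ γ₀ := one_le_pow₀ (by norm_num)
  set h₀ : ℝ := 6 * C₀ / 2 ^ L with hh₀
  have hh₀0 : 0 < h₀ := by positivity
  have hlm0 : 0 < lm := hh₀0.trans_le hlm
  have hs₁0 : 0 < h₀ / lm := div_pos hh₀0 hlm0
  have hs₁1 : h₀ / lm ≤ 1 := by
    rw [div_le_one hlm0]
    exact hlm
  have hs₂0 : 0 < h₀ / lm / 2 ^ γ₀ := div_pos hs₁0 h2g
  have hs₂1 : h₀ / lm / 2 ^ γ₀ ≤ 1 := by
    rw [div_le_one h2g]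
    linarith only [h2g1, hs₁1]
  have hh0 : (0 : ℝ) < 6 * C₀ / 2 ^ (a + L) := by positivity
  set R₀ : ℝ := RR n L κ γ N ε e₁ e₃ with hR
  obtain ⟨-, hR1, -⟩ := hF.le_RR
  rw [← hR] at hR1
  -- the two roundings
  obtain ⟨y₁, hy₁, hq₁⟩ := hrnd a L Ω Λ Ξ Z p lam x T pos A B zx zl cz G κ γ N δ ε e₁ e₃
    (h₀ / lm) mi pG e gd hF hs₁0 hs₁1 hmi0 hmi hpG
  obtain ⟨y₂, hy₂, hq₂⟩ := hrnd a L Ω Λ Ξ Z p lam x T pos A B zx zl cz G κ γ N δ ε e₁ e₃
    (h₀ / lm / 2 ^ γ₀) mi pG e gd hF hs₂0 hs₂1 hmi0 hmi hpG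
  set y : Z → Seminorm ℝ (MvPolynomial.restrictTotalDegree (Option (Fin n)) ℝ D) ×
      Seminorm ℝ (MvPolynomial.restrictTotalDegree (Option (Fin n)) ℝ D) := fun ζ =>
    (y₁ (NZ D p x zx (2 ^ (a + L)) pos (6 * C₀ / 2 ^ (a + L)) (h₀ / lm) ζ),
      y₂ (NZ D p x zx (2 ^ (a + L)) pos (6 * C₀ / 2 ^ (a + L)) (h₀ / lm / 2 ^ γ₀) ζ)) with hy
  obtain ⟨sl, hsl⟩ := majw hp0 lam (fun ω => y (zx (x ω)))
  refine ⟨_, y, sl, ?_, ?_⟩
  · have hq₁' := le_trans (le_of_eq (Finset.sum_congr rfl fun v _ => ite_dec _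
      (instDecidableNot) _ _ _)) hq₁
    have hq₂' := le_trans (le_of_eq (Finset.sum_congr rfl fun v _ => ite_dec _
      (instDecidableNot) _ _ _)) hq₂
    refine (hsl.trans (le_of_eq (Finset.sum_congr rfl fun v _ => ite_dec _ _
      (instDecidableNot) _ _))).trans ?_
    have h1 : (∑ v, if y (zx (x v.1)) ≠ y (zx (x v.2)) then dbl p lam v else 0) ≤
        (∑ v, (if y₁ (NZ D p x zx (2 ^ (a + L)) pos (6 * C₀ / 2 ^ (a + L)) (h₀ / lm)
            (zx (x v.1))) ≠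
          y₁ (NZ D p x zx (2 ^ (a + L)) pos (6 * C₀ / 2 ^ (a + L)) (h₀ / lm) (zx (x v.2))) then
          dbl p lam v else 0)) +
        (∑ v, (if y₂ (NZ D p x zx (2 ^ (a + L)) pos (6 * C₀ / 2 ^ (a + L))
            (h₀ / lm / 2 ^ γ₀) (zx (x v.1))) ≠
          y₂ (NZ D p x zx (2 ^ (a + L)) pos (6 * C₀ / 2 ^ (a + L)) (h₀ / lm / 2 ^ γ₀)
            (zx (x v.2))) then dbl p lam v else 0)) := by
      rw [← Finset.sum_add_distrib]
      refine Finset.sum_le_sum fun v _ => ?_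
      have h2 : 0 ≤ dbl p lam v := dbl_nonneg hp0 v
      by_cases c : y (zx (x v.1)) = y (zx (x v.2))
      · rw [if_neg (not_not.mpr c)]
        have i1 : (0 : ℝ) ≤ (if y₁ (NZ D p x zx (2 ^ (a + L)) pos (6 * C₀ / 2 ^ (a + L))
            (h₀ / lm) (zx (x v.1))) ≠
          y₁ (NZ D p x zx (2 ^ (a + L)) pos (6 * C₀ / 2 ^ (a + L)) (h₀ / lm) (zx (x v.2))) then
          dbl p lam v else 0) := by
          split_ifs
          exacts [h2, le_rfl]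
        have i2 : (0 : ℝ) ≤ (if y₂ (NZ D p x zx (2 ^ (a + L)) pos (6 * C₀ / 2 ^ (a + L))
            (h₀ / lm / 2 ^ γ₀) (zx (x v.1))) ≠
          y₂ (NZ D p x zx (2 ^ (a + L)) pos (6 * C₀ / 2 ^ (a + L)) (h₀ / lm / 2 ^ γ₀)
            (zx (x v.2))) then dbl p lam v else 0) := by
          split_ifs
          exacts [h2, le_rfl]
        linarith only [i1, i2]
      · rw [if_pos c]
        by_cases c1 : y₁ (NZ D p x zx (2 ^ (a + L)) pos (6 * C₀ / 2 ^ (a + L)) (h₀ / lm)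
            (zx (x v.1))) =
          y₁ (NZ D p x zx (2 ^ (a + L)) pos (6 * C₀ / 2 ^ (a + L)) (h₀ / lm) (zx (x v.2)))
        · have c2 : y₂ (NZ D p x zx (2 ^ (a + L)) pos (6 * C₀ / 2 ^ (a + L))
              (h₀ / lm / 2 ^ γ₀) (zx (x v.1))) ≠
            y₂ (NZ D p x zx (2 ^ (a + L)) pos (6 * C₀ / 2 ^ (a + L)) (h₀ / lm / 2 ^ γ₀)
              (zx (x v.2))) := by
            intro c2
            exact c (Prod.ext c1 c2)
          rw [if_neg (not_not.mpr c1), if_pos c2, zero_add]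
        · rw [if_pos c1]
          split_ifs <;> linarith
    linarith only [hq₁, hq₂, h1]
  · intro Rr hRr
    set k₃ : ℝ := 2 * (C₁ * (a + mi) + C₂ * R₀) with hk₃
    have hl2 : (1 / 2 : ℝ) ≤ Real.log 2 := by
      have := Real.log_two_gt_d9
      linarith only [this]
    have hγ : X + 2 * τ + 2 * k₃ + Ct ≤ γ₀ * Real.log 2 := by
      have h1 : (γ₀ : ℝ) * (1 / 2) ≤ γ₀ * Real.log 2 :=
        mul_le_mul_of_nonneg_left hl2 (Nat.cast_nonneg _)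
      have h2 : Ct * 1 ≤ Ct * R₀ := mul_le_mul_of_nonneg_left hR1 (by linarith only [hCt])
      have h3 : (8 * C₂ + 2 * Ct) * R₀ = 8 * (C₂ * R₀) + 2 * (Ct * R₀) := by ring
      have h4 : 8 * C₁ * (a + mi) = 8 * (C₁ * (a + mi)) := by ring
      rw [h3, h4] at hγ₀
      rw [hk₃]
      linarith only [hγ₀, h1, h2]
    have key := hthl a L Ω Λ Ξ Z _ p lam x T pos A B zx zl cz G κ γ N γ₀ δ ε e₁ e₃ lm k₃ τ X e y
      hF hbad hlm hlm1 hτ hX0 (by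
        intro ζ ζ' hζ
        have h1 := (Prod.ext_iff.mp hζ).1
        have h2 := (Prod.ext_iff.mp hζ).2
        exact ⟨Dl.of_round hy₁ (NZ_isN hh0 hs₁0 ζ) (NZ_isN hh0 hs₁0 ζ') h1,
          Dl.of_round hy₂ (NZ_isN hh0 hs₂0 ζ) (NZ_isN hh0 hs₂0 ζ') h2⟩) hγ Rr hRr
    obtain ⟨bad, S, R, hS1, hS2, hS4, hS5, hS3⟩ := key
    refine ⟨bad, S, R, hS1, hS2.trans ?_, hS4, hS5, hS3⟩
    rw [← hR]
    refine div_le_div_of_nonneg_right ?_ hτ.le
    exact mul_le_mul_of_nonneg_right (by linarith only [hC₂, hCt]) (by linarith only [hR1])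

end Pool.KS3
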