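import Pool.Agent.H82.KSP.TWO
import Pool.Agent.H78.KST.RSC

/-!
# The polynomials of the leaves

From the degree drop on the leaf cubes (leaf units) to polynomials in the units of the long window
whose anisotropic jets are small on the leaf, together with the filling inequality for the
derivative in the passive direction.
-/

set_option autoImplicit false

namespace Pool.KS3

open Finset Real
open Pool.Agent.H49.Ent Pool.Agent.H32.Dense Pool.STK Pool.KAF Pool.KAL Pool.KST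

/-- The derivative of a polynomial along a segment. -/
lemma hasDerivAt_seg {σ : Type*} [Fintype σ] (G : MvPolynomial σ ℝ) (y v : σ → ℝ) (t : ℝ) :
    HasDerivAt (fun t : ℝ => MvPolynomial.eval (fun i => y i + t * v i) G)
      (∑ i, v i * MvPolynomial.eval (fun i => y i + t * v i) (MvPolynomial.pderiv i G)) t := by
  classical
  induction G using MvPolynomial.induction_on with
  | C a =>
    simp only [MvPolynomial.eval_C, MvPolynomial.pderiv_C, map_zero, mul_zero,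
      Finset.sum_const_zero]
    exact hasDerivAt_const t a
  | add p q hp hq =>
    simp only [map_add, mul_add, Finset.sum_add_distrib]
    exact hp.add hq
  | mul_X p j hp =>
    have h1 : HasDerivAt (fun t : ℝ => y j + t * v j) (v j) t := by
      have := ((hasDerivAt_id t).mul_const (v j)).const_add (y j)
      simpa using this
    have h2 := hp.mul h1
    have e1 : (fun t : ℝ => MvPolynomial.eval (fun i => y i + t * v i)
        (p * MvPolynomial.X j)) = (fun t : ℝ => MvPolynomial.eval (fun i => y i + t * v i) p) *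
          (fun t : ℝ => y j + t * v j) := by
      funext t
      simp
    rw [e1]
    refine h2.congr_deriv ?_
    symm
    have e2 : ∀ i, v i * MvPolynomial.eval (fun i => y i + t * v i)
        (MvPolynomial.pderiv i (p * MvPolynomial.X j)) =
        v i * MvPolynomial.eval (fun i => y i + t * v i) (MvPolynomial.pderiv i p) *
          (y j + t * v j) + (if i = j then
          v i * MvPolynomial.eval (fun i => y i + t * v i) p else 0) := by
      intro i
      rw [Derivation.leibniz]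
      by_cases hij : i = j
      · subst hij
        simp only [MvPolynomial.pderiv_X_self, smul_eq_mul, map_add, map_mul, MvPolynomial.eval_X,
          if_true, mul_one]
        ring
      · simp only [MvPolynomial.pderiv_X_of_ne (Ne.symm hij), smul_eq_mul, map_add, map_mul,
          MvPolynomial.eval_X, if_neg hij, mul_zero, map_zero]
        ring
    rw [Finset.sum_congr rfl (fun i _ => e2 i), Finset.sum_add_distrib, ← Finset.sum_mul]
    simp only [Finset.sum_ite_eq', Finset.mem_univ, if_true]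
    ring

/-- A regular graph is Lipschitz on its cube. -/
lemma RegG.dist_le {n : ℕ} {G : MvPolynomial (Fin n) ℝ} {k₀ : ℕ} {C₀ : ℝ}
    (h : RegG G (fun _ => 0) 1 k₀ C₀) {y y' : Fin n → ℝ} (hy : y ∈ cube (fun _ => 0) 1)
    (hy' : y' ∈ cube (fun _ => 0) 1) :
    |MvPolynomial.eval y G - MvPolynomial.eval y' G| ≤ n * C₀ := by
  set v : Fin n → ℝ := fun i => y i - y' i with hv
  have hmem : ∀ t ∈ Set.Icc (0 : ℝ) 1, (fun i => y' i + t * v i) ∈ cube (fun _ => 0) 1 := by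
    intro t ht i
    have h1 := hy i
    have h2 := hy' i
    simp only [hv] at h1 h2 ⊢
    constructor
    · nlinarith only [h1, ht, h2, ht.1, ht.2]
    · nlinarith only [h1, ht, h2, ht.1, ht.2]
  have hvi : ∀ i, |v i| ≤ 1 := by
    intro i
    have h1 := hy i
    have h2 := hy' i
    simp only [hv] at h1 h2 ⊢
    rw [abs_le]
    constructor <;> linarith only [h1, h2, h1.1, h1.2, h2.1, h2.2]
  have hbd : ∀ t ∈ Set.Icc (0 : ℝ) 1, ‖∑ i, v i * MvPolynomial.eval (fun i => y' i + t * v i)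
      (MvPolynomial.pderiv i G)‖ ≤ n * C₀ := by
    intro t ht
    rw [Real.norm_eq_abs]
    refine (Finset.abs_sum_le_sum_abs _ _).trans ?_
    have h1 : ∀ i ∈ (univ : Finset (Fin n)), |v i * MvPolynomial.eval
        (fun i => y' i + t * v i) (MvPolynomial.pderiv i G)| ≤ C₀ := by
      intro i _
      rw [abs_mul]
      have h2 := h.slope _ (hmem t ht) i
      have h3 := abs_nonneg (MvPolynomial.eval (fun i => y' i + t * v i)
        (MvPolynomial.pderiv i G))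
      have h4 := hvi i
      nlinarith only [h2, h3, h4, abs_nonneg (v i)]
    refine (Finset.sum_le_sum h1).trans ?_
    rw [Finset.sum_const, Finset.card_univ, Fintype.card_fin, nsmul_eq_mul]
  have h3 := (convex_Icc (0 : ℝ) 1).norm_image_sub_le_of_norm_hasDerivWithin_le
    (f := fun t : ℝ => MvPolynomial.eval (fun i => y' i + t * v i) G)
    (fun t _ => (hasDerivAt_seg G y' v t).hasDerivWithinAt) hbd
    (x := 0) (y := 1) (by simp) (by simp)
  have e1 : (fun i => y' i + (1 : ℝ) * v i) = y := by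
    funext i
    simp only [hv]
    ring
  have e0 : (fun i => y' i + (0 : ℝ) * v i) = y' := by
    funext i
    ring
  rw [e1, e0, Real.norm_eq_abs, sub_zero, norm_one, mul_one] at h3
  exact h3

/-- Isotropic jets. -/
lemma PsiC_one {n : ℕ} (P : MvPolynomial (Option (Fin n)) ℝ) (h : ℝ)
    (z : Option (Fin n) → ℝ) : PsiC 1 P h z = Psi P h z := by
  rw [PsiC_eq one_ne_zero, div_one]
  have e : thk h h = fun _ : Option (Fin n) => h := by
    funext o
    cases o <;> rfl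
  rw [e]
  rfl

/-- Row QDT. -/
theorem qdt (n D k₀ : ℕ) (C₀ : ℝ) (hC₀ : 1 ≤ C₀) : ∃ C : ℝ, 1 ≤ C ∧
    ∀ (a L : ℕ) (Ω Λ Ξ Z : Type) [Fintype Ω] (p : Ω → ℝ) (lam : Ω → Λ)
      (x : Ω → Ξ) (T : Ξ → ℕ) (pos : Ξ → Option (Fin n) → ℕ) (A B : Λ → Option (Fin n) → ℝ)
      (zx : Ξ → Z) (zl : Λ → ℕ → Z) (cz : Z → Option (Fin n) → ℕ)
      (G : Z → MvPolynomial (Fin n) ℝ) (κ γ : ℕ) (δ ε e₁ lm : ℝ) (e : Ξ → ℝ),
      StepF n a L C₀ p lam x T pos A B zx zl cz →
      (∀ ω, 0 < p ω → RegG (G (zx (x ω))) (fun _ => 0) 1 k₀ (3 * C₀)) →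
      (∀ ω, 0 < p ω → |rp (2 ^ L) (posS pos L) (x ω) none - MvPolynomial.eval
        (fun i => rp (2 ^ L) (posS pos L) (x ω) (some i)) (G (zx (x ω)))| ≤ 3 * C₀ / 2 ^ L) →
      (∀ ω, 0 < p ω → ¬ Bad (G (zx (x ω))) (fun _ => 0) 1 D lm) →
      6 * C₀ / 2 ^ L ≤ lm → lm ≤ 1 →
      0 < δ → (∀ a, 0 ≤ e a) → Ex p (fun ω => e (x ω)) ≤ ε → NCF p lam x B δ e →
      n.factorial * (3 * C₀) ^ n ≤ δ ^ n * 2 ^ γ → 1 ≤ κ →
      L * Real.log 2 - CH p (fun ω => TS T L (x ω)) (lamS lam x T L) ≤ e₁ → 0 ≤ e₁ →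
      ∃ (Q : Z → MvPolynomial (Option (Fin n)) ℝ) (g : Z → ℝ),
        (∀ ζ, Q ζ ≠ 0 ∧ (Q ζ).totalDegree ≤ D) ∧ (∀ ζ, 0 < g ζ) ∧
        (∀ ω, 0 < p ω → PsiC (6 * C₀ / 2 ^ L / lm) (Q (zx (x ω))) (6 * C₀ / 2 ^ (a + L))
          (rp (2 ^ (a + L)) pos (x ω)) ≤ C * lm * g (zx (x ω))) ∧
        (∀ ω, 0 < p ω → MvPolynomial.pderiv none (Q (zx (x ω))) ≠ 0) ∧
        Ex p (fun ω => Real.log (g (zx (x ω)))) ≤
          Ex p (fun ω => Real.log (1 / 2 ^ a * Psi (MvPolynomial.pderiv none (Q (zx (x ω))))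
            (6 * C₀ / 2 ^ (a + L)) (rp (2 ^ (a + L)) pos (x ω)))) +
          C * (e₁ + L / κ + γ + κ + 1 + ε * L) := by
  classical
  have h3C : (1 : ℝ) ≤ 3 * C₀ := by linarith only [hC₀]
  have hn0 : (0 : ℝ) ≤ n := Nat.cast_nonneg n
  set C₅ : ℝ := (3 * n + 6) * C₀ with hC₅
  have h5C : 6 * C₀ ≤ C₅ := by
    rw [hC₅]
    nlinarith only [hC₀]
  have h5C1 : 1 ≤ C₅ := by linarith only [hC₀, h5C]
  obtain ⟨Cq, hCq, hgdq⟩ := gdq_thm n D k₀ (3 * C₀) h3C
  obtain ⟨κ', Cf, hCf, hfil⟩ := fil n D k₀ C₅ h5C1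
  obtain ⟨Cu, hCu, hful⟩ := fulh_thm n (3 * C₀) h3C
  have hκ' : (0 : ℝ) ≤ κ' := Nat.cast_nonneg κ'
  set M₅ : ℝ := C₅ / (6 * C₀) with hM₅
  have hM₅1 : 1 ≤ M₅ := by
    rw [hM₅, one_le_div (by positivity)]
    exact h5C
  have hlM5 : 0 ≤ Real.log M₅ := Real.log_nonneg hM₅1
  have hnn : (0 : ℝ) ≤ Cq + D * Real.log M₅ + κ' * (n + Cu + Cf) := by positivity
  refine ⟨1 + (Cq + D * Real.log M₅ + κ' * (n + Cu + Cf)), by linarith only [hnn], ?_⟩
  intro a L Ω Λ Ξ Z _ p lam x T pos A B zx zl cz G κ γ δ ε e₁ lm e hF hreg hgr hbad hlm hlm1 hδ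
    he hex hnc hγ hκ he₁ he₁0
  have hp := hF.leaf.isLaw
  have hp0 := hp.nonneg
  have hS := hF.small hC₀
  have hC0 : (0 : ℝ) < C₀ := by linarith only [hC₀]
  have h2L : (0 : ℝ) < 2 ^ L := by positivity
  have h2L1 : (1 : ℝ) ≤ 2 ^ L := one_le_pow₀ (by norm_num)
  have h2a : (0 : ℝ) < 2 ^ a := by positivity
  have hM : ((2 ^ L : ℕ) : ℝ) = 2 ^ L := by push_cast; rfl
  set h₀ : ℝ := 6 * C₀ / 2 ^ L with hh₀
  have hh₀0 : 0 < h₀ := by positivity
  have hlm0 : 0 < lm := hh₀0.trans_le hlm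
  have hs0 : 0 < h₀ / lm := div_pos hh₀0 hlm0
  -- the polynomials in leaf units
  have hex1 : ∀ ζ, ∃ (Q : MvPolynomial (Option (Fin n)) ℝ) (g : ℝ), Q ≠ 0 ∧ Q.totalDegree ≤ D ∧
      0 < g ∧ (RegG (G ζ) (fun _ => 0) 1 k₀ (3 * C₀) → ¬ Bad (G ζ) (fun _ => 0) 1 D lm →
        g = cs (fun _ => 0) 1 (gr (G ζ) (MvPolynomial.pderiv none Q)) ∧
        ∀ z : Option (Fin n) → ℝ, (fun i => z (some i)) ∈ cube (fun _ => 0) 1 →
          |z none - MvPolynomial.eval (fun i => z (some i)) (G ζ)| ≤ 3 * C₀ * h₀ →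
          PsiA Q (thk h₀ lm) z ≤ Cq * lm * g) := by
    intro ζ
    by_cases hc : RegG (G ζ) (fun _ => 0) 1 k₀ (3 * C₀) ∧ ¬ Bad (G ζ) (fun _ => 0) 1 D lm
    · obtain ⟨Q, hQ, hQD, hg, hQs⟩ := hgdq (G ζ) (fun _ => 0) h₀ lm hh₀0 hlm hlm1 hc.1 hc.2
      exact ⟨Q, _, hQ, hQD, hg, fun _ _ => ⟨rfl, hQs⟩⟩
    · refine ⟨1, 1, one_ne_zero, ?_, zero_lt_one, fun h1 h2 => absurd ⟨h1, h2⟩ hc⟩
      rw [MvPolynomial.totalDegree_one]
      exact Nat.zero_le _
  choose Q' g hQ'0 hQ'D hg0 hQ' using hex1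
  have hgood : ∀ ω, 0 < p ω → g (zx (x ω)) = cs (fun _ => 0) 1 (gr (G (zx (x ω)))
      (MvPolynomial.pderiv none (Q' (zx (x ω))))) ∧
      ∀ z : Option (Fin n) → ℝ, (fun i => z (some i)) ∈ cube (fun _ => 0) 1 →
          |z none - MvPolynomial.eval (fun i => z (some i)) (G (zx (x ω)))| ≤ 3 * C₀ * h₀ →
          PsiA (Q' (zx (x ω))) (thk h₀ lm) z ≤ Cq * lm * g (zx (x ω)) :=
    fun ω hω => hQ' _ (hreg ω hω) (hbad ω hω)
  -- the polynomials in the units of the long window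
  have hex2 : ∀ ζ, ∃ Q : MvPolynomial (Option (Fin n)) ℝ,
      shf Q (1 / 2 ^ a) (crz cz a ζ) = Q' ζ ∧ Q.totalDegree ≤ (Q' ζ).totalDegree ∧
        (Q' ζ ≠ 0 → Q ≠ 0) := by
    intro ζ
    obtain ⟨Q, h1, h2, h3⟩ := exists_rsQ (Q' ζ) (fun i => crz cz a ζ (some i))
      (crz cz a ζ none) (s := 1 / 2 ^ a) (by positivity)
    refine ⟨Q, ?_, h2, h3⟩
    rw [← h1]
    unfold rsQ
    rw [pt_eta]
  choose Q hQs hQdeg hQne using hex2
  have hrp01 : ∀ ω, 0 < p ω → (fun i => rp (2 ^ L) (posS pos L) (x ω) (some i)) ∈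
      cube (fun _ => 0) 1 := by
    intro ω _ i
    have h1 := hS.pos_lt ω (some i)
    simp only [rp]
    rw [hM]
    refine ⟨by positivity, ?_⟩
    rw [zero_add, div_le_one h2L]
    have : ((posS pos L (x ω) (some i) : ℕ) : ℝ) ≤ ((2 ^ L : ℕ) : ℝ) := by exact_mod_cast h1.le
    rwa [hM] at this
  have hclose : 3 * C₀ / 2 ^ L ≤ 3 * C₀ * h₀ := by
    rw [hh₀, ← mul_div_assoc]
    exact div_le_div_of_nonneg_right (by nlinarith only [hC₀]) h2L.le
  have hj : ∀ ω, 0 < p ω → PsiC (h₀ / lm) (Q (zx (x ω))) (6 * C₀ / 2 ^ (a + L))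
      (rp (2 ^ (a + L)) pos (x ω)) ≤ Cq * lm * g (zx (x ω)) := by
    intro ω hω
    rw [← hF.PsiC_eq hs0.ne', hQs, Pool.KS3.PsiC_eq hs0.ne']
    have e1 : 6 * C₀ / 2 ^ L / (h₀ / lm) = lm := by
      rw [← hh₀]
      field_simp
    rw [e1]
    exact (hgood ω hω).2 _ (hrp01 ω hω) ((hgr ω hω).trans hclose)
  have hder : ∀ ζ, MvPolynomial.pderiv none (Q' ζ) =
      MvPolynomial.C (1 / 2 ^ a) * shf (MvPolynomial.pderiv none (Q ζ)) (1 / 2 ^ a)
        (crz cz a ζ) := by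
    intro ζ
    rw [← hQs ζ, pderiv_shf]
  have hd' : ∀ ω, 0 < p ω → MvPolynomial.pderiv none (Q' (zx (x ω))) ≠ 0 := by
    intro ω hω h0
    have h1 := (hgood ω hω).1
    rw [h0] at h1
    have h2 : cs (fun _ => 0) 1 (gr (G (zx (x ω))) (0 : MvPolynomial (Option (Fin n)) ℝ)) ≤ 0 :=
      SML.cs_le _ le_rfl fun y _ => by
        unfold gr
        simp
    have h3 := hg0 (zx (x ω))
    linarith only [h1, h2, h3]
  have hd : ∀ ω, 0 < p ω → MvPolynomial.pderiv none (Q (zx (x ω))) ≠ 0 := by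
    intro ω hω h0
    apply hd' ω hω
    rw [hder, h0]
    unfold shf
    simp
  refine ⟨Q, g, fun ζ => ⟨hQne ζ (hQ'0 ζ), (hQdeg ζ).trans (hQ'D ζ)⟩, hg0, ?_, hd, ?_⟩
  · intro ω hω
    refine (hj ω hω).trans ?_
    have h1 : 0 ≤ lm * g (zx (x ω)) := (mul_pos hlm0 (hg0 _)).le
    have h2 : Cq ≤ 1 + (Cq + D * Real.log M₅ + κ' * (n + Cu + Cf)) := by
      have : 0 ≤ D * Real.log M₅ + κ' * (n + Cu + Cf) := by positivity
      linarith only [this]
    calc Cq * lm * g (zx (x ω)) = Cq * (lm * g (zx (x ω))) := by ring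
      _ ≤ (1 + (Cq + D * Real.log M₅ + κ' * (n + Cu + Cf))) * (lm * g (zx (x ω))) :=
        mul_le_mul_of_nonneg_right h2 h1
      _ = _ := by ring
  -- filling
  have F1 := hfil Ω Z p (2 ^ L) 1 (fun ω => zx (x ω)) (fun ω i => posS pos L (x ω) (some i))
    (fun ω => rp (2 ^ L) (posS pos L) (x ω)) (fun _ _ => 0) G
    (fun ζ => MvPolynomial.pderiv none (Q' ζ)) g hp le_rfl Nat.one_le_two_pow
    (fun ω _ i => hS.pos_lt ω (some i))
    (fun ω hω => ⟨hd' ω hω, (totalDegree_pderiv_le' _ _).trans (hQ'D _)⟩)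
    (by
      intro ω hω
      have h1 := hreg ω hω
      simp only [Nat.cast_one, div_one]
      exact ⟨h1.deg, fun y hy i => (h1.slope y hy i).trans (by linarith only [hC₀, h5C])⟩)
    (by
      intro ω hω i
      simp only [rp, Nat.cast_one, one_mul, zero_add])
    (by
      intro ω hω
      refine (hgr ω hω).trans ?_
      rw [Nat.cast_one, one_mul, hM]
      exact div_le_div_of_nonneg_right (by linarith only [hC₀, h5C]) h2L.le)
    (by
      intro ω hω
      refine ⟨hg0 _, ?_⟩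
      obtain ⟨h1, -⟩ := hgood ω hω
      obtain ⟨y, hy, hy2⟩ := Pool.KS3.cs_attained (fun _ => 0) 1 zero_le_one
        (gr (G (zx (x ω))) (MvPolynomial.pderiv none (Q' (zx (x ω)))))
      refine ⟨gpt (G (zx (x ω))) y, ?_, ?_, ?_, ?_⟩
      · rw [Nat.cast_one, div_one]
        exact hy
      · have h2 := (hreg ω hω).dist_le hy (hrp01 ω hω)
        have h3 := hgr ω hω
        have h4 : 3 * C₀ / 2 ^ L ≤ 3 * C₀ := by
          rw [div_le_iff₀ h2L]
          nlinarith only [h2L1, hC₀]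
        have h5 := abs_sub_le (MvPolynomial.eval y (G (zx (x ω))))
          (MvPolynomial.eval (fun i => rp (2 ^ L) (posS pos L) (x ω) (some i)) (G (zx (x ω))))
          (rp (2 ^ L) (posS pos L) (x ω) none)
        rw [abs_sub_comm] at h3
        change |MvPolynomial.eval y (G (zx (x ω))) - rp (2 ^ L) (posS pos L) (x ω) none| ≤ C₅
        refine h5.trans ?_
        rw [hC₅]
        have h6 : n * (3 * C₀) + 3 * C₀ ≤ (3 * n + 6) * C₀ := by
          have : 0 ≤ C₀ := hC0.le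
          linarith only [hC₀]
        linarith only [hC₀, h2, h3, h4]
      · have e1 : gpt (G (zx (x ω))) y none -
            MvPolynomial.eval (fun i => gpt (G (zx (x ω))) y (some i)) (G (zx (x ω))) = 0 :=
          sub_self _
        rw [e1, abs_zero]
        positivity
      · refine le_trans (le_of_eq ?_) (abs_eval_le_Psi _ _ _)
        rw [h1, ← hy2]
        congr 1
        exact Pool.KS3.eval_gr _ _ _)
  -- the deficit
  have hful' := hful Ω (Λ × ℕ) Ξ Z p (lamS lam x T L) x (TS T L) (posS pos L)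
    (AS A B zl cz a) (BS B) zx (fun l => zl l.1 l.2) L κ γ δ ε e₁ e hS
    (fun ω _ => hF.lab ω) hδ he hex (NCF_small hnc) hγ hκ he₁
  set E : ℝ := L / κ + γ + κ + 1 + ε * L with hE
  have hε : 0 ≤ ε := le_trans (Ex_nonneg hp0 fun ω _ => he (x ω)) hex
  have hE1 : 1 ≤ E := by
    rw [hE]
    have h1 : (0 : ℝ) ≤ L / κ := by positivity
    have h2 : (0 : ℝ) ≤ γ := Nat.cast_nonneg γ
    have h3 : (0 : ℝ) ≤ κ := Nat.cast_nonneg κ
    have h4 : 0 ≤ ε * L := by positivity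
    linarith only [h1, h4]
  have hdef : n * Real.log ((2 ^ L : ℕ) : ℝ) -
      CH p (fun ω i => posS pos L (x ω) (some i)) (fun ω => zx (x ω)) ≤ n * e₁ + Cu * E := by
    rw [hM, Real.log_pow]
    exact hful'
  -- the radius
  have hrad : ∀ ω, 0 < p ω → Real.log (Psi (MvPolynomial.pderiv none (Q' (zx (x ω))))
      (C₅ / (((1 : ℕ) : ℝ) * ((2 ^ L : ℕ) : ℝ))) (rp (2 ^ L) (posS pos L) (x ω))) ≤
      Real.log (1 / 2 ^ a * Psi (MvPolynomial.pderiv none (Q (zx (x ω))))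
            (6 * C₀ / 2 ^ (a + L)) (rp (2 ^ (a + L)) pos (x ω))) + D * Real.log M₅ := by
    intro ω hω
    set P := MvPolynomial.pderiv none (Q' (zx (x ω))) with hP
    have e1 : C₅ / (((1 : ℕ) : ℝ) * ((2 ^ L : ℕ) : ℝ)) = h₀ * M₅ := by
      rw [hM, Nat.cast_one, one_mul, hM₅, hh₀]
      field_simp
    have h1 := Psi_radius_le P h₀ M₅ hM₅1 (rp (2 ^ L) (posS pos L) (x ω))
    have h2 : Psi P h₀ (rp (2 ^ L) (posS pos L) (x ω)) =
        1 / 2 ^ a * Psi (MvPolynomial.pderiv none (Q (zx (x ω))))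
            (6 * C₀ / 2 ^ (a + L)) (rp (2 ^ (a + L)) pos (x ω)) := by
      rw [hP, hder, Psi_C_mul, abs_of_pos (by positivity)]
      have e9 : Psi (shf (MvPolynomial.pderiv none (Q (zx (x ω)))) (1 / 2 ^ a)
          (crz cz a (zx (x ω)))) h₀ (rp (2 ^ L) (posS pos L) (x ω)) =
          Psi (MvPolynomial.pderiv none (Q (zx (x ω)))) (6 * C₀ / 2 ^ (a + L))
            (rp (2 ^ (a + L)) pos (x ω)) := by
        rw [← PsiC_one, hh₀, hF.PsiC_eq one_ne_zero, PsiC_one]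
      rw [e9]
    have h3 : P.totalDegree ≤ D := (totalDegree_pderiv_le' _ _).trans (hQ'D _)
    have h4 : 0 < Psi P h₀ (rp (2 ^ L) (posS pos L) (x ω)) := Psi_pos P (hd' ω hω) h₀ hh₀0 _
    have h5 : 0 < Psi P (h₀ * M₅) (rp (2 ^ L) (posS pos L) (x ω)) :=
      Psi_pos P (hd' ω hω) _ (by positivity) _
    rw [e1, ← h2]
    have h6 : Psi P (h₀ * M₅) (rp (2 ^ L) (posS pos L) (x ω)) ≤
        M₅ ^ D * Psi P h₀ (rp (2 ^ L) (posS pos L) (x ω)) :=
      h1.trans (mul_le_mul_of_nonneg_right (pow_le_pow_right₀ hM₅1 h3) h4.le)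
    have h7 := Real.log_le_log h5 h6
    rw [Real.log_mul (by positivity) h4.ne', Real.log_pow] at h7
    linarith only [h7]
  have F2 := Ex_mono hp0 hrad
  rw [Ex_add, Ex_const hp.sum_one] at F2
  have F3 := mul_le_mul_of_nonneg_left (add_le_add_left hdef Cf) hκ'
  have F4 : κ' * (n * e₁ + Cu * E + Cf) ≤ κ' * (n + Cu + Cf) * (e₁ + E) := by
    have h1 : n * e₁ + Cu * E + Cf ≤ (n + Cu + Cf) * (e₁ + E) := by
      have h2 : (n + Cu + Cf) * (e₁ + E) = n * e₁ + Cu * E + Cf * E + (n * E + Cu * e₁ + Cf * e₁) :=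
        by ring
      have h3 : 0 ≤ n * E + Cu * e₁ + Cf * e₁ := by
        have : 0 ≤ E := by linarith only [hE1]
        positivity
      have h4 : Cf * 1 ≤ Cf * E := mul_le_mul_of_nonneg_left hE1 hCf
      linarith only [h3, h4]
    calc κ' * (n * e₁ + Cu * E + Cf) ≤ κ' * ((n + Cu + Cf) * (e₁ + E)) :=
        mul_le_mul_of_nonneg_left h1 hκ'
      _ = _ := by ring
  have F5 : D * Real.log M₅ ≤ D * Real.log M₅ * (e₁ + E) := by
    have h1 : 0 ≤ D * Real.log M₅ := by positivity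
    have h2 : D * Real.log M₅ * 1 ≤ D * Real.log M₅ * (e₁ + E) :=
      mul_le_mul_of_nonneg_left (by linarith only [he₁0, hE1]) h1
    linarith only [h2]
  have e2 : e₁ + L / κ + γ + κ + 1 + ε * L = e₁ + E := by
    rw [hE]
    ring
  rw [e2]
  have F6 : (1 + (Cq + D * Real.log M₅ + κ' * (n + Cu + Cf))) * (e₁ + E) =
      (1 + Cq) * (e₁ + E) + D * Real.log M₅ * (e₁ + E) + κ' * (n + Cu + Cf) * (e₁ + E) := by ring
  have F7 : 0 ≤ (1 + Cq) * (e₁ + E) := by
    have : 0 ≤ e₁ + E := by linarith only [he₁0, hE1]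
    positivity
  rw [F6]
  linarith only [F1, F2, F3, F4, F5, F7]

end Pool.KS3
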