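import Pool.Agent.H82.KSP.DEG

/-!
# The rounded norms are constant along the lines (1.6)
-/

set_option autoImplicit false

namespace Pool.KS3

open Finset Real Module
open Pool.Agent.H49.Ent Pool.Agent.H32.Dense Pool.STK Pool.KAF Pool.KAL Pool.KST

lemma ite_dec {α : Type*} (c : Prop) (i1 i2 : Decidable c) (a b : α) :
    @ite α c i1 a b = @ite α c i2 a b := by
  have e : i1 = i2 := Subsingleton.elim _ _
  subst e
  rfl

/-- The hypotheses of the macro step for one passive coordinate. -/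
structure StepH (n a L : ℕ) (C₀ : ℝ) (k₀ : ℕ) (κ γ N : ℕ) (δ ε e₁ e₃ : ℝ) {Ω Λ Ξ Z : Type}
    [Fintype Ω] (p : Ω → ℝ) (lam : Ω → Λ) (x : Ω → Ξ) (T : Ξ → ℕ)
    (pos : Ξ → Option (Fin n) → ℕ) (A B : Λ → Option (Fin n) → ℝ) (zx : Ξ → Z)
    (zl : Λ → ℕ → Z) (cz : Z → Option (Fin n) → ℕ) (G : Z → MvPolynomial (Fin n) ℝ)
    (e : Ξ → ℝ) : Prop where
  step : StepF n a L C₀ p lam x T pos A B zx zl cz
  reg : ∀ ω, 0 < p ω → RegG (G (zx (x ω))) (fun _ => 0) 1 k₀ (3 * C₀)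
  gr : ∀ ω, 0 < p ω → |rp (2 ^ L) (posS pos L) (x ω) none - MvPolynomial.eval
    (fun i => rp (2 ^ L) (posS pos L) (x ω) (some i)) (G (zx (x ω)))| ≤ 3 * C₀ / 2 ^ L
  hδ : 0 < δ
  he : ∀ a, 0 ≤ e a
  hex : Ex p (fun ω => e (x ω)) ≤ ε
  hnc : NCF p lam x B δ e
  hγ : n.factorial * (6 * C₀) ^ n ≤ δ ^ n * 2 ^ γ
  hκ : 1 ≤ κ
  he₁ : L * Real.log 2 - CH p (fun ω => TS T L (x ω)) (lamS lam x T L) ≤ e₁
  he₁0 : 0 ≤ e₁
  he₃ : CH p x (fun ω => (bas pos (x ω), zx (x ω))) ≤ e₃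

/-- The error of the macro step. -/
noncomputable def RR (n L κ γ N : ℕ) (ε e₁ e₃ : ℝ) : ℝ :=
  (N + 1) * (e₁ + 1) + e₃ + (1 - 1 / (n : ℝ)) ^ N * (L + e₃) + L / κ + γ + κ + ε * L

section

variable {n a L : ℕ} {C₀ : ℝ} {k₀ : ℕ} {κ γ N : ℕ} {δ ε e₁ e₃ : ℝ} {Ω Λ Ξ Z : Type}
    [Fintype Ω] {p : Ω → ℝ} {lam : Ω → Λ} {x : Ω → Ξ} {T : Ξ → ℕ}
    {pos : Ξ → Option (Fin n) → ℕ} {A B : Λ → Option (Fin n) → ℝ} {zx : Ξ → Z}
    {zl : Λ → ℕ → Z} {cz : Z → Option (Fin n) → ℕ} {G : Z → MvPolynomial (Fin n) ℝ}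
    {e : Ξ → ℝ}

lemma StepH.e₃_nonneg (h : StepH n a L C₀ k₀ κ γ N δ ε e₁ e₃ p lam x T pos A B zx zl cz G e) :
    0 ≤ e₃ := (CH_nonneg h.step.leaf.isLaw.nonneg _ _).trans h.he₃

lemma StepH.ε_nonneg (h : StepH n a L C₀ k₀ κ γ N δ ε e₁ e₃ p lam x T pos A B zx zl cz G e) :
    0 ≤ ε := le_trans (Ex_nonneg h.step.leaf.isLaw.nonneg fun ω _ => h.he (x ω)) h.hex

lemma pw_nonneg (n N : ℕ) : (0 : ℝ) ≤ (1 - 1 / n) ^ N := by
  rcases Nat.eq_zero_or_pos n with h | h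
  · subst h
    simp
  · have h1 : (1 : ℝ) ≤ n := by exact_mod_cast h
    have h2 : (1 : ℝ) / n ≤ 1 := by
      rw [div_le_one (by linarith only [h1])]
      exact h1
    exact pow_nonneg (by linarith only [h2]) _

/-- The error dominates the small terms. -/
lemma StepH.le_RR (h : StepH n a L C₀ k₀ κ γ N δ ε e₁ e₃ p lam x T pos A B zx zl cz G e) :
    e₁ + L / κ + γ + κ + 1 + ε * L ≤ RR n L κ γ N ε e₁ e₃ ∧ 1 ≤ RR n L κ γ N ε e₁ e₃ ∧
      e₁ + e₃ + 1 ≤ RR n L κ γ N ε e₁ e₃ := by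
  have he₃0 := h.e₃_nonneg
  have hε := h.ε_nonneg
  have he₁0 := h.he₁0
  have hL0 : (0 : ℝ) ≤ L := Nat.cast_nonneg L
  have hN : (0 : ℝ) ≤ N := Nat.cast_nonneg N
  have hpw := pw_nonneg n N
  have h3 : 0 ≤ (1 - 1 / (n : ℝ)) ^ N * (L + e₃) := by positivity
  have h4 : 0 ≤ (L : ℝ) / κ := by positivity
  have h5 : (0 : ℝ) ≤ γ := Nat.cast_nonneg γ
  have h6 : (0 : ℝ) ≤ κ := Nat.cast_nonneg κ
  have h7 : 0 ≤ ε * L := by positivity
  have h8 : 0 ≤ (N : ℝ) * (e₁ + 1) := by positivity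
  unfold RR
  refine ⟨?_, ?_, ?_⟩ <;> nlinarith

end

/-- Row RND: the rounded norm of the leaf. -/
theorem rnd (n D : ℕ) (C₀ p₀ : ℝ) (hC₀ : 1 ≤ C₀) (hp₀ : 0 < p₀) : ∃ C₁ : ℝ, 1 ≤ C₁ ∧
    ∀ k₀ : ℕ, ∃ C₂ : ℝ, 1 ≤ C₂ ∧
    ∀ (a L : ℕ) (Ω Λ Ξ Z : Type) [Fintype Ω] (p : Ω → ℝ) (lam : Ω → Λ)
      (x : Ω → Ξ) (T : Ξ → ℕ) (pos : Ξ → Option (Fin n) → ℕ) (A B : Λ → Option (Fin n) → ℝ)
      (zx : Ξ → Z) (zl : Λ → ℕ → Z) (cz : Z → Option (Fin n) → ℕ)
      (G : Z → MvPolynomial (Fin n) ℝ) (κ γ N : ℕ) (δ ε e₁ e₃ s mi pG : ℝ) (e : Ξ → ℝ)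
      (gG : Z → Ξ → Bool),
      StepH n a L C₀ k₀ κ γ N δ ε e₁ e₃ p lam x T pos A B zx zl cz G e →
      0 < s → s ≤ 1 → 0 ≤ mi →
      (∀ χ : Z → Ξ → Bool, (∀ ζ ξ, χ ζ ξ = true → gG ζ ξ = true) →
        CH (dbl p lam) (fun v => if χ (zx (x v.1)) (x v.2) then some (zx (x v.1)) else none)
            (fun v => zx (x v.2)) -
          CH (dbl p lam) (fun v => if χ (zx (x v.1)) (x v.2) then some (zx (x v.1)) else none)
            (fun v => x v.2) ≤ mi) →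
      (∑ v, if gG (zx (x v.1)) (x v.2) = true then 0 else dbl p lam v) ≤ pG →
      ∃ y : Seminorm ℝ (MvPolynomial.restrictTotalDegree (Option (Fin n)) ℝ D) →
          Seminorm ℝ (MvPolynomial.restrictTotalDegree (Option (Fin n)) ℝ D),
        (∀ M, IsN M → Dl M (y M) (C₁ * (a + mi) + C₂ * RR n L κ γ N ε e₁ e₃)) ∧
        (∑ v, (open Classical in
          if y (NZ D p x zx (2 ^ (a + L)) pos (6 * C₀ / 2 ^ (a + L)) s (zx (x v.1))) ≠
            y (NZ D p x zx (2 ^ (a + L)) pos (6 * C₀ / 2 ^ (a + L)) s (zx (x v.2))) then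
          dbl p lam v else 0)) ≤ p₀ + 2 * pG := by
  classical
  set V := MvPolynomial.restrictTotalDegree (Option (Fin n)) ℝ D with hV
  have hK0 : 0 < finrank ℝ V := finrank_poly_pos _ D
  set K : ℕ := finrank ℝ V with hK
  have hK1 : (1 : ℝ) ≤ K := by exact_mod_cast hK0
  have hlK : 0 ≤ Real.log K := Real.log_nonneg hK1
  obtain ⟨Cn, hCn, hnr⟩ := norm_rounding_law K
  have hl2 : 0 < Real.log 2 := Real.log_pos (by norm_num)
  have hl2' : Real.log 2 ≤ 1 := by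
    have := Real.log_two_lt_d9
    linarith only [hl2, this]
  set Lr : ℝ := 6 * K / p₀ + 1 with hLr
  have hLr1 : 1 ≤ Lr := by
    rw [hLr]
    have : 0 ≤ 6 * (K : ℝ) / p₀ := by positivity
    linarith only [this]
  have hCL : 1 ≤ Cn * Lr := by nlinarith only [hCn, hLr1]
  set q₁ : ℝ := Cn * Lr * (4 * K / p₀) with hq₁
  have hq₁0 : 0 ≤ q₁ := by positivity
  refine ⟨q₁ * (2 * D) + 1, by
    have : 0 ≤ q₁ * (2 * D) := by positivity
    linarith only [this], ?_⟩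
  intro k₀
  obtain ⟨Cd, hCd, hdeg⟩ := deg n D k₀ C₀ hC₀
  refine ⟨q₁ * (Cd + 1) + Cn * Lr * (Real.log K + 1), ?_, ?_⟩
  · have h1 : 0 ≤ q₁ * (Cd + 1) := by positivity
    have h2 : 1 ≤ Cn * Lr * (Real.log K + 1) := by nlinarith only [hlK, hCL]
    linarith only [h1, h2]
  intro a L Ω Λ Ξ Z _ p lam x T pos A B zx zl cz G κ γ N δ ε e₁ e₃ s mi pG e gG hF hs0 hs1 hmi0
    hmi hpG
  have hp := hF.step.leaf.isLaw
  have hp0 := hp.nonneg
  set q := dbl p lam with hqdef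
  have hq0 : ∀ v, 0 ≤ q v := dbl_nonneg hp0
  have m1 : Marg q p (fun v => v.1) := dbl_fst hp0
  have hq : IsLaw q := ⟨hq0, by rw [m1.sum]; exact hp.sum_one⟩
  set h : ℝ := 6 * C₀ / 2 ^ (a + L) with hh
  have hh0 : 0 < h := by positivity
  set M : ℕ := 2 ^ (a + L) with hM
  set R : ℝ := RR n L κ γ N ε e₁ e₃ with hR
  obtain ⟨-, hR1, -⟩ := hF.le_RR
  rw [← hR] at hR1
  set del : ℝ := 2 * D * (a * Real.log 2) + 2 * D * mi + Cd * R with hdel
  have hdel0 : 0 ≤ del := by positivity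
  set Nz : Z → Seminorm ℝ V := fun ζ => NZ D p x zx M pos h s ζ with hNz
  have hNzN : ∀ ζ, IsN (Nz ζ) := fun ζ => NZ_isN hh0 hs0 ζ
  -- the polynomial depends on the first label
  have H1 : ∀ (P : Z → V) (χ : Z → Z → Bool), (∀ a, P a ≠ 0) →
      Ex q (fun v => if gG (zx (x v.1)) (x v.2) = true ∧ χ (zx (x v.1)) (zx (x v.2)) = true then
        Real.log (Nz (zx (x v.2)) (P (zx (x v.1)))) -
        Real.log (Nz (zx (x v.1)) (P (zx (x v.1)))) else 0) ≤ del := by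
    intro P χ hP
    have h1 := hdeg a L Ω Λ Ξ Z p lam x T pos A B zx zl cz G κ γ N δ ε e₁ e₃ s e P
      (fun ζ ξ => gG ζ ξ && χ ζ (zx ξ)) hF.step hF.reg hF.gr hF.hδ hF.he hF.hex hF.hnc hF.hγ
      hF.hκ hF.he₁ hF.he₁0 hF.he₃ hs0 hs1 hP
    have h2 := hmi (fun ζ ξ => gG ζ ξ && χ ζ (zx ξ)) (fun ζ ξ h => by
      rw [Bool.and_eq_true] at h
      exact h.1)
    have h3 : (0 : ℝ) ≤ 2 * D := by positivity
    have h4 := mul_le_mul_of_nonneg_left h2 h3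
    simp only [Bool.and_eq_true] at h1 h4
    refine h1.trans ?_
    rw [hdel, hR]
    unfold RR
    linarith only [h4]
  have H2 : ∀ (P : Z → V) (χ : Z → Z → Bool), (∀ a, P a ≠ 0) →
      Ex q (fun v => if gG (zx (x v.2)) (x v.1) = true ∧ χ (zx (x v.2)) (zx (x v.1)) = true then
        Real.log (Nz (zx (x v.1)) (P (zx (x v.2)))) -
        Real.log (Nz (zx (x v.2)) (P (zx (x v.2)))) else 0) ≤ del := by
    intro P χ hP
    refine le_trans (le_of_eq ?_) (H1 P χ hP)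
    exact (dbl_symm p lam).ex (fun v => if gG (zx (x v.1)) (x v.2) = true ∧
        χ (zx (x v.1)) (zx (x v.2)) = true then
        Real.log (Nz (zx (x v.2)) (P (zx (x v.1)))) -
        Real.log (Nz (zx (x v.1)) (P (zx (x v.1)))) else 0)
  obtain ⟨d, hd0, hdD, hdE⟩ := lrn_on hK0 hq (fun v => zx (x v.1)) (fun v => zx (x v.2))
    (fun v => gG (zx (x v.1)) (x v.2) = true) (fun v => gG (zx (x v.2)) (x v.1) = true)
    Nz Nz hNzN hNzN del
    (fun P χ hP => le_trans (le_of_eq (congrArg (Ex q) (funext fun v => ite_dec _ _ _ _ _)))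
      (H1 P χ hP))
    (fun P χ hP => le_trans (le_of_eq (congrArg (Ex q) (funext fun v => ite_dec _ _ _ _ _)))
      (H2 P χ hP))
  set hm : ℝ := 4 * K * (del + 1) / p₀ + 1 with hhm
  have hm1 : 1 ≤ hm := by
    rw [hhm]
    have : 0 ≤ 4 * (K : ℝ) * (del + 1) / p₀ := by positivity
    linarith only [this]
  have hmk := lrn_on_markov hq (fun v => zx (x v.1)) (fun v => zx (x v.2))
    (fun v => gG (zx (x v.1)) (x v.2) = true ∧ gG (zx (x v.2)) (x v.1) = true) Nz Nz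
    (Real.log K) _ hm (by linarith only [hm1]) d hd0 hdD
    (le_trans (le_of_eq (congrArg (Ex q) (funext fun v => ite_dec _ _ _ _ _))) hdE)
  -- the good events
  have hG2 : ∑ v, (if gG (zx (x v.1)) (x v.2) = true ∧ gG (zx (x v.2)) (x v.1) = true then 0
      else q v) ≤ 2 * pG := by
    have e1 : ∑ v, (if gG (zx (x v.2)) (x v.1) = true then 0 else q v) =
        ∑ v, (if gG (zx (x v.1)) (x v.2) = true then 0 else q v) := by
      have h1 := (dbl_symm p lam).ex (fun v => if gG (zx (x v.1)) (x v.2) = true then (0 : ℝ)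
        else 1)
      unfold Ex at h1
      simp only [mul_ite, mul_zero, mul_one] at h1
      exact h1
    have h2 : ∑ v, (if gG (zx (x v.1)) (x v.2) = true ∧ gG (zx (x v.2)) (x v.1) = true then 0
        else q v) ≤ ∑ v, ((if gG (zx (x v.1)) (x v.2) = true then 0 else q v) +
          (if gG (zx (x v.2)) (x v.1) = true then 0 else q v)) := by
      refine Finset.sum_le_sum fun v _ => ?_
      have h3 := hq0 v
      by_cases c1 : gG (zx (x v.1)) (x v.2) = true <;>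
      by_cases c2 : gG (zx (x v.2)) (x v.1) = true <;>
      simp [c1, c2, h3]
    rw [Finset.sum_add_distrib, e1] at h2
    linarith only [hpG, h2]
  have hmk2 := hmk.trans (add_le_add le_rfl (le_trans (le_of_eq
    (Finset.sum_congr rfl fun v _ => ite_dec _ _ _ _ _)) hG2))
  have hdm : 2 * K * del / hm ≤ p₀ / 2 := by
    rw [div_le_iff₀ (by linarith only [hm1])]
    have h1 : p₀ / 2 * hm = 2 * K * (del + 1) + p₀ / 2 := by
      rw [hhm]
      field_simp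
      ring
    rw [h1]
    have h2 : (0 : ℝ) ≤ 2 * K := by positivity
    nlinarith only [hp₀, hK1]
  -- the rounding
  obtain ⟨y, hy1, hy2⟩ := hnr V rfl Lr (Real.log K + hm) hLr1 (by linarith only [hlK, hm1]) (Ω × Ω) q
    (fun v => Nz (zx (x v.1))) (fun v => Nz (zx (x v.2))) hq0 (fun v => hNzN _) (fun v => hNzN _)
  refine ⟨y, ?_, ?_⟩
  · intro M' hM'
    refine (hy1 M' hM').mono ?_
    have e1 : Cn * (Lr * (Real.log K + hm)) = Cn * Lr * (Real.log K + 1) + q₁ * (del + 1) := by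
      rw [hhm, hq₁]
      ring
    rw [e1]
    have h1 : q₁ * (del + 1) ≤ (q₁ * (2 * D) + 1) * (a + mi) + q₁ * (Cd + 1) * R := by
      have a0 : (0 : ℝ) ≤ a := Nat.cast_nonneg a
      have h2 : del + 1 ≤ 2 * D * (a + mi) + (Cd + 1) * R := by
        rw [hdel]
        have h3 : 2 * D * (a * Real.log 2) ≤ 2 * D * a := by
          have : (a : ℝ) * Real.log 2 ≤ a * 1 := mul_le_mul_of_nonneg_left hl2' a0
          have h4 : (0 : ℝ) ≤ 2 * D := by positivity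
          nlinarith only [this]
        linarith only [hR1, h3]
      have h3 := mul_le_mul_of_nonneg_left h2 hq₁0
      have h4 : 0 ≤ (a : ℝ) + mi := by linarith only [hmi0]
      linarith only [hmi0, h3]
    have h5 : 0 ≤ Cn * Lr * (Real.log K + 1) := by positivity
    have h6 : Cn * Lr * (Real.log K + 1) * 1 ≤ Cn * Lr * (Real.log K + 1) * R :=
      mul_le_mul_of_nonneg_left hR1 h5
    linarith only [h1, h6]
  · refine hy2.trans ?_
    have h1 : 3 * (K : ℝ) / Lr * ∑ v, q v ≤ p₀ / 2 := by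
      rw [hq.sum_one, mul_one, div_le_iff₀ (by linarith only [hLr1])]
      have : p₀ / 2 * Lr = 3 * K + p₀ / 2 := by
        rw [hLr]
        field_simp
        ring
      rw [this]
      linarith only [hp₀]
    linarith only [hmk2, hdm, h1]

end Pool.KS3
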