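import Pool.Agent.H82.KSP.RPS

/-!
# The polynomial of the label: the choice of one derivative for every label
-/

set_option autoImplicit false

namespace Pool.KS3

open Finset Real
open Pool.Agent.H49.Ent Pool.Agent.H32.Dense Pool.STK Pool.KAF Pool.KAL Pool.KST

open Classical in
/-- **The end of row J2R.** -/
theorem pol_fin (n D : ℕ) (C₁ : ℝ) (hC₁ : 1 ≤ C₁) : ∃ B₁ : ℝ, 1 ≤ B₁ ∧ ∀ k₀ : ℕ,
    ∃ (κ₂ : ℕ) (Ct : ℝ), 1 ≤ κ₂ ∧ 0 ≤ Ct ∧
    ∀ (a L r₂ qd γ₀ q' : ℕ) (C₀ : ℝ) (Ω Λ Ξ Ξt Z Zt Y : Type) [Fintype Ω] (p : Ω → ℝ)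
      (lam : Ω → Λ) (x : Ω → Ξ) (T : Ξ → ℕ) (pos : Ξ → Option (Fin n) → ℕ)
      (A B : Λ → Option (Fin n) → ℝ) (zx : Ξ → Z) (zl : Λ → ℕ → Z) (cz : Z → Option (Fin n) → ℕ)
      (G : Z → MvPolynomial (Fin n) ℝ) (tr : Ξ → Ξt) (Tt : Ξt → ℕ)
      (post : Ξt → Option (Fin n) → ℕ) (zt : Z → Zt) (zv : Ξt → Zt) (zlt : Λ → ℕ → Zt)
      (czt : Zt → Option (Fin n) → ℕ) (Gt : Zt → MvPolynomial (Fin n) ℝ) (lm τ X d : ℝ)
      (yt : Zt → Y) (sl : Λ → Option Y) (bad : Ω → Prop) (S : (Fin n → ℕ) × Y → Finset ℕ)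
      (R : Y → MvPolynomial.restrictTotalDegree (Option (Fin n)) ℝ D),
      StepF n a L C₀ p lam x T pos A B zx zl cz →
      StepF n a r₂ C₁ p lam (fun ω => tr (x ω)) Tt post A B zv zlt czt →
      0 ≤ C₀ → 3 * C₀ + 1 ≤ C₁ → qd + r₂ = L →
      (∀ ω o, post (tr (x ω)) o = pos (x ω) o / 2 ^ qd) →
      (∀ ω, zv (tr (x ω)) = zt (zx (x ω))) →
      (∀ ω, czt (zt (zx (x ω))) = cz (zx (x ω))) →
      (∀ ω, 0 < p ω → RegG (G (zx (x ω))) (fun _ => 0) 1 k₀ (3 * C₀)) →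
      (∀ ω, 0 < p ω → |rp (2 ^ L) (posS pos L) (x ω) none - MvPolynomial.eval
        (fun i => rp (2 ^ L) (posS pos L) (x ω) (some i)) (G (zx (x ω)))| ≤ 3 * C₀ / 2 ^ L) →
      (∀ ω, 0 < p ω → |rp (2 ^ r₂) (posS post r₂) (tr (x ω)) none - MvPolynomial.eval
        (fun i => rp (2 ^ r₂) (posS post r₂) (tr (x ω)) (some i)) (Gt (zv (tr (x ω))))| ≤
          3 * C₁ / 2 ^ r₂) →
      (∀ ω, 0 < p ω → ∀ y ∈ cube (fun _ : Fin n => (0 : ℝ)) 1,
        |MvPolynomial.eval y (G (zx (x ω))) - MvPolynomial.eval y (Gt (zt (zx (x ω))))| ≤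
          1 / 2 ^ r₂) →
      6 * C₁ / 2 ^ r₂ ≤ lm → 0 < τ → D + 2 + 2 * τ ≤ γ₀ → τ + Real.log B₁ + 1 ≤ X →
      n * (L * Real.log 2) - CH p (fun ω => bas (posS pos L) (x ω)) (fun ω => zx (x ω)) ≤ d →
      τ ≤ L * Real.log 2 → (D + 1) * (κ₂ * (d + Ct) / τ) ≤ 1 / 64 →
      (∀ g, R g ≠ 0) →
      (∀ ω, 0 < p ω → ¬ bad ω → Real.exp X *
        NZ D p (fun ω => tr (x ω)) zv (2 ^ (a + r₂)) post (6 * C₁ / 2 ^ (a + r₂))
          (6 * C₁ / 2 ^ r₂ / lm) (zv (tr (x ω))) (R (yt (zv (tr (x ω))))) ≤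
        NZ D p (fun ω => tr (x ω)) zv (2 ^ (a + r₂)) post (6 * C₁ / 2 ^ (a + r₂))
          (6 * C₁ / 2 ^ r₂ / lm / 2 ^ γ₀) (zv (tr (x ω))) (R (yt (zv (tr (x ω)))))) →
      (∑ ω, if bad ω then p ω else 0) ≤ 1 / 64 →
      (∑ ω, if some (yt (zt (zx (x ω)))) ≠ sl (lam ω) then p ω else 0) ≤ 7 / 16 →
      (∀ ω, 0 < p ω → ¬ bad ω →
        post (tr (x ω)) none / 2 ^ q' ∈ S (bas post (tr (x ω)), yt (zv (tr (x ω))))) →
      2 * 2 ^ D * Real.exp τ * (lm * 2 ^ (γ₀ + r₂)) ≤ 2 ^ q' →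
      ∃ Rp : Y → MvPolynomial (Option (Fin n)) ℝ, (∀ g, (Rp g).totalDegree ≤ D) ∧
        1 / 2 ≤ D * KJ.Pe p (fun ω => some (yt (zt (zx (x ω)))) = sl (lam ω) ∧
          pos (x ω) none / 2 ^ (L - r₂ + q') ∈
            S (fun i => bas pos (x ω) i / 2 ^ qd, yt (zt (zx (x ω)))) ∧
          MvPolynomial.eval (rp (2 ^ (a + L)) pos (x ω))
            (MvPolynomial.pderiv none (Rp (yt (zt (zx (x ω)))))) ≠ 0 ∧
          2 ^ (a + L) * |MvPolynomial.eval (rp (2 ^ (a + L)) pos (x ω))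
            (Rp (yt (zt (zx (x ω)))))| ≤ 2 ^ (L - r₂ + q') *
              |MvPolynomial.eval (rp (2 ^ (a + L)) pos (x ω))
                (MvPolynomial.pderiv none (Rp (yt (zt (zx (x ω))))))|) := by
  obtain ⟨B₁, hB₁, hsamp⟩ := pol_sample n D C₁ hC₁
  refine ⟨B₁, hB₁, fun k₀ => ?_⟩
  obtain ⟨κ₂, Ct, hκ₂, hCt, htypm⟩ := typ_mass n ((k₀ + 1) * D)
  refine ⟨κ₂, Ct, hκ₂, hCt, ?_⟩
  intro a L r₂ qd γ₀ q' C₀ Ω Λ Ξ Ξt Z Zt Y _ p lam x T pos A B zx zl cz G tr Tt post zt zv zlt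
    czt Gt lm τ X d yt sl bad S R hF hT hC₀ hCC hL hpost hzv hczt hreg hgr hgrt hGt hlm hτ hγ hX
    hd hτL hsm hR hNZ hb1 he1 hS3 hq'
  have hp := hF.leaf.isLaw
  have hp0 := hp.nonneg
  -- the typical samples
  obtain ⟨Hj, hHj⟩ : ∃ Hj : ℕ → Z → MvPolynomial (Fin n) ℝ, Hj = fun j ζ => gr (G ζ)
    (dN j (shf (R (yt (zt ζ)) : MvPolynomial (Option (Fin n)) ℝ) (1 / 2 ^ a) (crz cz a ζ))) :=
    ⟨_, rfl⟩
  have hκ₂r : (1 : ℝ) ≤ κ₂ := by exact_mod_cast hκ₂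
  have hLl : 0 ≤ (L : ℝ) * Real.log 2 := by linarith
  have hut : ∀ j, (∑ ω, if |MvPolynomial.eval (fun i => rp (2 ^ L) (posS pos L) (x ω) (some i))
        (Hj j (zx (x ω)))| < Real.exp (-τ) * cs (fun _ => 0) 1 (Hj j (zx (x ω))) then p ω
          else 0) ≤ κ₂ * (d + Ct) / τ := by
    intro j
    refine htypm L Ω Ξ Z p x pos zx (Hj j) τ d hp (fun ω hω => ?_) hd hτ (by nlinarith)
    rw [hHj]
    exact SML.totalDegree_gr_le (G (zx (x ω))) k₀ D (hreg ω hω).deg _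
      ((totalDegree_dN_le _ _).trans ((totalDegree_shf_le _ _ _).trans
        ((MvPolynomial.mem_restrictTotalDegree _ _ _).mp (R (yt (zt (zx (x ω))))).2)))
  obtain ⟨ut, hutd⟩ : ∃ ut : Ω → Prop, ut = fun ω => ∃ j, j ≤ D ∧
    |MvPolynomial.eval (fun i => rp (2 ^ L) (posS pos L) (x ω) (some i)) (Hj j (zx (x ω)))| <
      Real.exp (-τ) * cs (fun _ => 0) 1 (Hj j (zx (x ω))) := ⟨_, rfl⟩
  have hu1 : (∑ ω, if ut ω then p ω else 0) ≤ 1 / 64 := by
    refine le_trans ?_ hsm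
    have h1 : (∑ ω, if ut ω then p ω else 0) ≤ ∑ j ∈ range (D + 1), ∑ ω,
        if |MvPolynomial.eval (fun i => rp (2 ^ L) (posS pos L) (x ω) (some i))
        (Hj j (zx (x ω)))| < Real.exp (-τ) * cs (fun _ => 0) 1 (Hj j (zx (x ω))) then p ω
          else 0 := by
      rw [Finset.sum_comm]
      refine Finset.sum_le_sum fun ω _ => ?_
      have hnn : ∀ j ∈ range (D + 1), (0 : ℝ) ≤
          if |MvPolynomial.eval (fun i => rp (2 ^ L) (posS pos L) (x ω) (some i))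
            (Hj j (zx (x ω)))| < Real.exp (-τ) * cs (fun _ => 0) 1 (Hj j (zx (x ω))) then p ω
          else 0 := by
        intro j _
        split_ifs
        exacts [hp0 ω, le_rfl]
      by_cases c : ut ω
      · rw [if_pos c]
        rw [hutd] at c
        obtain ⟨j, hj, hjs⟩ := c
        have h3 := Finset.single_le_sum hnn (Finset.mem_range.mpr (Nat.lt_succ_of_le hj))
        rw [if_pos hjs] at h3
        exact h3
      · rw [if_neg c]
        exact Finset.sum_nonneg hnn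
    refine h1.trans ?_
    have h2 := Finset.sum_le_card_nsmul (range (D + 1)) (fun j => ∑ ω,
        if |MvPolynomial.eval (fun i => rp (2 ^ L) (posS pos L) (x ω) (some i))
        (Hj j (zx (x ω)))| < Real.exp (-τ) * cs (fun _ => 0) 1 (Hj j (zx (x ω))) then p ω
          else 0) (κ₂ * (d + Ct) / τ) (fun j _ => hut j)
    rw [Finset.card_range, nsmul_eq_mul] at h2
    push_cast at h2
    exact h2
  -- one sample
  obtain ⟨Gd, hGd⟩ : ∃ Gd : ℕ → Ω → Prop, Gd = fun i ω =>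
      MvPolynomial.eval (rp (2 ^ (a + L)) pos (x ω))
        (dN (i + 1) (R (yt (zt (zx (x ω)))) : MvPolynomial (Option (Fin n)) ℝ)) ≠ 0 ∧
      2 ^ (a + L) * |MvPolynomial.eval (rp (2 ^ (a + L)) pos (x ω))
        (dN i (R (yt (zt (zx (x ω)))) : MvPolynomial (Option (Fin n)) ℝ))| ≤
      2 ^ (L - r₂ + q') * |MvPolynomial.eval (rp (2 ^ (a + L)) pos (x ω))
        (dN (i + 1) (R (yt (zt (zx (x ω)))) : MvPolynomial (Option (Fin n)) ℝ))| := ⟨_, rfl⟩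
  have hone : ∀ ω, 0 < p ω → (some (yt (zt (zx (x ω)))) = sl (lam ω) ∧ ¬ bad ω ∧ ¬ ut ω) →
      ∃ i, i < D ∧ Gd i ω := by
    intro ω hω hE
    obtain ⟨-, hb, hu⟩ := hE
    have h1 := hNZ ω hω hb
    rw [hzv ω] at h1
    obtain ⟨i, hi, h2, h3⟩ := hsamp a L r₂ qd k₀ γ₀ C₀ Ω Λ Ξ Ξt Z Zt p lam x T pos A B zx zl cz G
      tr Tt post zt zv zlt czt Gt lm τ X (R (yt (zt (zx (x ω))))) ω hF hT hC₀ hCC hL hpost hzv
      hczt (hreg ω hω) (hgr ω hω) hgrt (hGt ω hω) hlm hτ hγ hX hω (hR _)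
      (by rw [hzv ω]; exact h1)
      (by
        intro j hj
        by_contra hcon
        push Not at hcon
        refine hu ?_
        rw [hutd]
        refine ⟨j, hj, ?_⟩
        rw [hHj]
        exact hcon)
    refine ⟨i, hi, ?_⟩
    rw [hGd]
    refine ⟨h2, ?_⟩
    have h4 := mul_le_mul_of_nonneg_left h3 (by positivity : (0 : ℝ) ≤ 2 ^ L)
    have e1 : (2 : ℝ) ^ (a + L) * |MvPolynomial.eval (rp (2 ^ (a + L)) pos (x ω))
        (dN i (R (yt (zt (zx (x ω)))) : MvPolynomial (Option (Fin n)) ℝ))| =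
        2 ^ L * (2 ^ a * |MvPolynomial.eval (rp (2 ^ (a + L)) pos (x ω))
        (dN i (R (yt (zt (zx (x ω)))) : MvPolynomial (Option (Fin n)) ℝ))|) := by
      rw [pow_add]
      ring
    rw [e1]
    refine h4.trans ?_
    rw [← mul_assoc]
    refine mul_le_mul_of_nonneg_right ?_ (abs_nonneg _)
    have e2 : (2 : ℝ) ^ L = 2 ^ (L - r₂) * 2 ^ r₂ := by
      rw [← pow_add]
      congr 1
      omega
    rw [e2, pow_add 2 (L - r₂) q', mul_assoc]
    refine mul_le_mul_of_nonneg_left ?_ (by positivity)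
    refine le_trans (le_of_eq ?_) hq'
    rw [pow_add]
    ring
  obtain ⟨c, hc⟩ := pigeon p hp0 D (fun ω => some (yt (zt (zx (x ω)))) = sl (lam ω) ∧
    ¬ bad ω ∧ ¬ ut ω) (fun ω => yt (zt (zx (x ω)))) Gd hone
  refine ⟨fun g => dN (c g) (R g : MvPolynomial (Option (Fin n)) ℝ), fun g =>
    (totalDegree_dN_le _ _).trans ((MvPolynomial.mem_restrictTotalDegree _ _ _).mp (R g).2), ?_⟩
  have hE : 1 / 2 ≤ KJ.Pe p (fun ω => some (yt (zt (zx (x ω)))) = sl (lam ω) ∧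
      ¬ bad ω ∧ ¬ ut ω) := by
    have htot : 1 ≤ KJ.Pe p (fun ω => some (yt (zt (zx (x ω)))) = sl (lam ω) ∧
      ¬ bad ω ∧ ¬ ut ω) +
      (∑ ω, if some (yt (zt (zx (x ω)))) ≠ sl (lam ω) then p ω else 0) +
      (∑ ω, if bad ω then p ω else 0) + (∑ ω, if ut ω then p ω else 0) := by
      unfold KJ.Pe
      rw [← hp.sum_one, ← Finset.sum_add_distrib, ← Finset.sum_add_distrib,
        ← Finset.sum_add_distrib]
      refine Finset.sum_le_sum fun ω _ => ?_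
      have hpω := hp0 ω
      by_cases c1 : some (yt (zt (zx (x ω)))) = sl (lam ω)
      · by_cases c2 : bad ω
        · rw [if_neg (fun h => h.2.1 c2), if_neg (not_not.mpr c1), if_pos c2]
          split_ifs <;> linarith
        · by_cases c3 : ut ω
          · rw [if_neg (fun h => h.2.2 c3), if_neg (not_not.mpr c1), if_neg c2, if_pos c3]
            linarith
          · rw [if_pos ⟨c1, c2, c3⟩, if_neg (not_not.mpr c1), if_neg c2, if_neg c3]
            linarith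
      · rw [if_neg (fun h => c1 h.1), if_pos c1]
        split_ifs <;> linarith
    linarith
  refine hE.trans (hc.trans ?_)
  refine mul_le_mul_of_nonneg_left ?_ (Nat.cast_nonneg D)
  unfold KJ.Pe
  refine Finset.sum_le_sum fun ω _ => ?_
  rcases (hp0 ω).eq_or_lt with h0 | h0
  · rw [← h0]
    simp
  · by_cases h1 : (some (yt (zt (zx (x ω)))) = sl (lam ω) ∧ ¬ bad ω ∧ ¬ ut ω) ∧
        Gd (c (yt (zt (zx (x ω))))) ω
    · rw [if_pos h1]
      obtain ⟨⟨c1, c2, c3⟩, h2⟩ := h1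
      rw [hGd] at h2
      obtain ⟨h3, h4⟩ := h2
      have h5 := hS3 ω h0 c2
      rw [if_pos]
      refine ⟨c1, ?_, ?_, ?_⟩
      · have h6 : post (tr (x ω)) none / 2 ^ q' = pos (x ω) none / 2 ^ (L - r₂ + q') := by
          rw [hpost, Nat.div_div_eq_div_mul, ← pow_add]
          congr 2
          omega
        rw [h6, hzv ω] at h5
        have h7 : bas post (tr (x ω)) = fun i => bas pos (x ω) i / 2 ^ qd := by
          funext i
          exact hpost ω (some i)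
        rw [h7] at h5
        exact h5
      · rw [← dN_succ']
        exact h3
      · rw [← dN_succ']
        exact h4
    · rw [if_neg h1]
      split_ifs
      exacts [h0.le, le_rfl]

end Pool.KS3
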