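import Pool.Agent.H82.KSP.J2H
import Pool.Agent.H82.KSP.POL

/-!
# The polynomial of the label at the samples: one leaf
-/

set_option autoImplicit false

namespace Pool.KS3

open Finset Real
open Pool.Agent.H49.Ent Pool.Agent.H32.Dense Pool.STK Pool.KAF Pool.KAL Pool.KST

section

variable {n : ℕ} {s : ℝ}

lemma pderiv_ctr (P : MvPolynomial (Option (Fin n)) ℝ) :
    MvPolynomial.pderiv none (ctr s P) =
      MvPolynomial.C (1 / s) * ctr s (MvPolynomial.pderiv none P) := by
  classical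
  unfold ctr
  induction P using MvPolynomial.induction_on with
  | C a => simp
  | add p q hp hq => rw [map_add, map_add, hp, hq, map_add, map_add, mul_add]
  | mul_X p j hp =>
    rw [map_mul, Derivation.leibniz, hp, MvPolynomial.aeval_X, Derivation.leibniz]
    cases j with
    | none =>
      simp only [Option.elim, MvPolynomial.pderiv_C_mul, MvPolynomial.pderiv_X_self, smul_eq_mul,
        map_add, map_mul, MvPolynomial.aeval_X, map_one]
      ring
    | some i =>
      have h1 : MvPolynomial.pderiv (none : Option (Fin n))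
          (MvPolynomial.X (some i) : MvPolynomial (Option (Fin n)) ℝ) = 0 :=
        MvPolynomial.pderiv_X_of_ne (by simp)
      simp only [Option.elim, h1, smul_eq_mul, map_add, map_mul, MvPolynomial.aeval_X, map_zero]
      ring

lemma dN_ctr (P : MvPolynomial (Option (Fin n)) ℝ) (j : ℕ) :
    dN j (ctr s P) = MvPolynomial.C ((1 / s) ^ j) * ctr s (dN j P) := by
  induction j with
  | zero => rw [dN_zero, dN_zero, pow_zero, MvPolynomial.C_1, one_mul]
  | succ j ih =>
    rw [dN_succ', ih, dN_succ', MvPolynomial.pderiv_C_mul, pderiv_ctr, ← mul_assoc, ← map_mul,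
      pow_succ]

lemma eval_ctr (P : MvPolynomial (Option (Fin n)) ℝ) (w : Option (Fin n) → ℝ) :
    MvPolynomial.eval w (ctr s P) =
      MvPolynomial.eval (fun o : Option (Fin n) => o.elim (1 / s * w none)
        (fun i => w (some i))) P := by
  unfold ctr
  rw [← MvPolynomial.coe_aeval_eq_eval, ← MvPolynomial.coe_aeval_eq_eval]
  simp only [RingHom.coe_coe]
  rw [← AlgHom.comp_apply, MvPolynomial.comp_aeval]
  congr 1
  congr 1
  funext o
  cases o with
  | none => simp only [Option.elim, map_mul, MvPolynomial.aeval_X, MvPolynomial.algHom_C,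
      MvPolynomial.algebraMap_eq, Algebra.algebraMap_self_apply]
  | some i => simp only [Option.elim, MvPolynomial.aeval_X]

/-- The jets of thickness `η / s` in the passive direction, on the graph over a cube. -/
theorem jet_leC (n D : ℕ) (C₀ : ℝ) (hC₀ : 1 ≤ C₀) : ∃ B : ℝ, 1 ≤ B ∧
    ∀ (G : MvPolynomial (Fin n) ℝ) (k₀ : ℕ) (c : Fin n → ℝ) (σ η R H s : ℝ)
      (P : MvPolynomial (Option (Fin n)) ℝ) (z : Option (Fin n) → ℝ), RegG G c σ k₀ C₀ →
      0 < η → η ≤ C₀ * σ → 0 ≤ R → η * R ≤ C₀ → 0 ≤ H → P.totalDegree ≤ D → 0 < s → s ≤ 1 →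
      (∀ y ∈ cube c σ, ∀ j, |MvPolynomial.eval y (gr G (dN j P))| ≤ (s * R) ^ j * H) →
      (fun i => z (some i)) ∈ cube c σ →
      |z none - MvPolynomial.eval (fun i => z (some i)) G| ≤ C₀ * η →
      PsiC s P η z ≤ B * H := by
  obtain ⟨B, hB1, hB⟩ := jet_le n D C₀ hC₀
  refine ⟨B, hB1, ?_⟩
  intro G k₀ c σ η R H s P z hG hη hησ hR hηR hH hP hs0 hs1 hj hz hzN
  unfold PsiC
  have heG : ∀ y : Fin n → ℝ, MvPolynomial.eval y (MvPolynomial.C s * G) =
      s * MvPolynomial.eval y G := by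
    intro y
    rw [map_mul, MvPolynomial.eval_C]
  refine hB (MvPolynomial.C s * G) k₀ c σ η R H (ctr s P) (cpt s z) ?_ hη hησ hR hηR hH
    ((totalDegree_ctr_le P).trans hP) ?_ hz ?_
  · refine ⟨?_, ?_⟩
    · refine (MvPolynomial.totalDegree_mul _ _).trans ?_
      rw [MvPolynomial.totalDegree_C, zero_add]
      exact hG.deg
    · intro y hy i
      rw [MvPolynomial.pderiv_C_mul, map_mul, MvPolynomial.eval_C, abs_mul, abs_of_pos hs0]
      have h1 := hG.slope y hy i
      have h2 := abs_nonneg (MvPolynomial.eval y (MvPolynomial.pderiv i G))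
      nlinarith
  · intro y hy j
    have h1 := hj y hy j
    rw [eval_gr, dN_ctr, map_mul, MvPolynomial.eval_C, eval_ctr]
    have e1 : (fun o : Option (Fin n) => o.elim (1 / s * gpt (MvPolynomial.C s * G) y none)
        (fun i => gpt (MvPolynomial.C s * G) y (some i))) = gpt G y := by
      funext o
      cases o with
      | none =>
        simp only [gpt, Option.elim]
        rw [heG]
        field_simp
      | some i => rfl
    rw [e1, abs_mul, abs_of_nonneg (by positivity), ← eval_gr]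
    have h2 := mul_le_mul_of_nonneg_left h1 (by positivity : 0 ≤ (1 / s) ^ j)
    refine h2.trans (le_of_eq ?_)
    rw [← mul_assoc, ← mul_pow]
    congr 2
    field_simp
  · change |s * z none - MvPolynomial.eval (fun i => z (some i)) (MvPolynomial.C s * G)| ≤ C₀ * η
    rw [heG, ← mul_sub, abs_mul, abs_of_pos hs0]
    have h1 := abs_nonneg (z none - MvPolynomial.eval (fun i => z (some i)) G)
    nlinarith

/-- Values of the derivatives on the graph against the jets near by. -/
lemma val_le_PsiC' {D : ℕ} {h : ℝ} {G : MvPolynomial (Fin n) ℝ}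
    {P : MvPolynomial (Option (Fin n)) ℝ} {z : Option (Fin n) → ℝ} {y : Fin n → ℝ}
    (hP : P.totalDegree ≤ D) (hh : 0 < h) (hs0 : 0 < s) (hs1 : s ≤ 1)
    (hy : ∀ i, |y i - z (some i)| ≤ h) (hz : |z none - MvPolynomial.eval y G| ≤ h) (j : ℕ) :
    (h / s) ^ j * |MvPolynomial.eval y (gr G (dN j P))| ≤ (D : ℝ) ^ j * PsiC s P h z := by
  have hhs : h ≤ h / s := by
    rw [le_div_iff₀ hs0]
    nlinarith
  have hhs0 : 0 < h / s := div_pos hh hs0
  rw [PsiC_eq hs0.ne']
  have h1 : ∀ j : ℕ, (h / s) ^ j * PsiA (dN j P) (thk h (h / s)) z ≤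
      (D : ℝ) ^ j * PsiA P (thk h (h / s)) z := by
    intro j
    induction j with
    | zero => rw [dN_zero, pow_zero, pow_zero]
    | succ j ih =>
      have h2 := PsiA_pderiv_le (dN j P) (thk h (h / s)) z none hhs0.le
      rw [thk_none, ← dN_succ'] at h2
      have h3 : ((dN j P).totalDegree : ℝ) ≤ D := by
        exact_mod_cast (totalDegree_dN_le j P).trans hP
      have h4 := mul_le_mul_of_nonneg_right h3 (PsiA_nonneg (dN j P) (thk h (h / s)) z)
      calc (h / s) ^ (j + 1) * PsiA (dN (j + 1) P) (thk h (h / s)) z =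
          (h / s) ^ j * (h / s * PsiA (dN (j + 1) P) (thk h (h / s)) z) := by ring
        _ ≤ (h / s) ^ j * (D * PsiA (dN j P) (thk h (h / s)) z) :=
            mul_le_mul_of_nonneg_left (h2.trans h4) (by positivity)
        _ = D * ((h / s) ^ j * PsiA (dN j P) (thk h (h / s)) z) := by ring
        _ ≤ D * ((D : ℝ) ^ j * PsiA P (thk h (h / s)) z) :=
            mul_le_mul_of_nonneg_left ih (Nat.cast_nonneg D)
        _ = (D : ℝ) ^ (j + 1) * PsiA P (thk h (h / s)) z := by ring
  refine le_trans ?_ (h1 j)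
  refine mul_le_mul_of_nonneg_left ?_ (by positivity)
  rw [eval_gr]
  refine abs_eval_le_PsiA_of_near _ _ z _ (fun o => thk_pos hh hhs0 o) (fun o => ?_)
  cases o with
  | none =>
    rw [thk_none]
    change |MvPolynomial.eval y G - z none| ≤ h / s
    rw [abs_sub_comm]
    linarith
  | some i =>
    rw [thk_some]
    exact hy i

end

/-- **The polynomial of the label on one leaf.** If the jets of thickness `η / s₂` are much larger
than the jets of thickness `η / s₁`, then one of the derivatives in the passive direction is small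
against the next one, at every point at which no derivative is small. -/
theorem pol_leaf (n D : ℕ) (C₀ : ℝ) (hC₀ : 1 ≤ C₀) : ∃ B : ℝ, 1 ≤ B ∧
    ∀ (G : MvPolynomial (Fin n) ℝ) (k₀ : ℕ) (P : MvPolynomial (Option (Fin n)) ℝ)
      (η s₁ s₂ θ X ρ : ℝ) (z₁ z₂ : Option (Fin n) → ℝ) (y : Fin n → ℝ),
      RegG G (fun _ => 0) 1 k₀ C₀ → P ≠ 0 → P.totalDegree ≤ D → 0 < η → η ≤ C₀ →
      0 < s₁ → s₁ ≤ 1 → 0 < s₂ → s₂ ≤ 1 → 0 < θ → θ ≤ 1 →
      Real.exp X * PsiC s₁ P η z₁ ≤ PsiC s₂ P η z₂ → B < Real.exp X * θ →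
      (fun i => z₂ (some i)) ∈ cube (fun _ => 0) 1 →
      |z₂ none - MvPolynomial.eval (fun i => z₂ (some i)) G| ≤ C₀ * η →
      y ∈ cube (fun _ => 0) 1 → (∀ i, |y i - z₁ (some i)| ≤ η) →
      |z₁ none - MvPolynomial.eval y G| ≤ η →
      (∀ j, j ≤ D → θ * cs (fun _ => 0) 1 (gr G (dN j P)) ≤
        |MvPolynomial.eval y (gr G (dN j P))|) → 4 * 2 ^ D * ρ ≤ η / s₂ * θ →
      ∃ i, i < D ∧ ∀ No : ℝ, |No - MvPolynomial.eval y G| ≤ ρ →
        0 < |MvPolynomial.eval (fun o : Option (Fin n) => o.elim No y) (dN (i + 1) P)| ∧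
        |MvPolynomial.eval (fun o : Option (Fin n) => o.elim No y) (dN i P)| ≤
          2 * 2 ^ D * (η / s₂) / θ *
            |MvPolynomial.eval (fun o : Option (Fin n) => o.elim No y) (dN (i + 1) P)| := by
  classical
  obtain ⟨B, hB1, hB⟩ := jet_leC n D C₀ hC₀
  refine ⟨B, hB1, ?_⟩
  intro G k₀ P η s₁ s₂ θ X ρ z₁ z₂ y hG hP0 hP hη hη1 hs₁ hs₁1 hs₂ hs₂1 hθ hθ1 hN hBX hz₂ hz₂N
    hy hyz₁ hz₁N htyp hρ
  obtain ⟨r, hr⟩ : ∃ r : ℝ, r = η / s₂ := ⟨_, rfl⟩
  have hr0 : 0 < r := by rw [hr]; exact div_pos hη hs₂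
  rw [← hr] at hρ ⊢
  obtain ⟨M, hM⟩ : ∃ M : ℕ → ℝ, M = fun j => cs (fun _ : Fin n => (0 : ℝ)) 1 (gr G (dN j P)) :=
    ⟨_, rfl⟩
  have hM0 : ∀ j, 0 ≤ M j := fun j => by
    rw [hM]
    exact SML.cs_nonneg _ _ _
  have hMD : ∀ j, D < j → M j = 0 := by
    intro j hj
    rw [hM]
    simp only
    have h1 : dN j P = 0 := dN_eq_zero D j P hP hj
    rw [h1]
    refine le_antisymm (SML.cs_le _ le_rfl fun y _ => ?_) (SML.cs_nonneg _ _ _)
    unfold gr
    rw [map_zero, map_zero, abs_zero]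
  have hMe : ∀ j, ∀ y ∈ cube (fun _ : Fin n => (0 : ℝ)) 1,
      |MvPolynomial.eval (gpt G y) (dN j P)| ≤ M j := by
    intro j y hy
    rw [hM, ← eval_gr]
    exact SML.le_cs zero_le_one _ hy
  obtain ⟨j₀, hj₀, hmax⟩ := Finset.exists_max_image (range (D + 1)) (fun j => r ^ j * M j)
    ⟨0, by simp⟩
  rw [Finset.mem_range] at hj₀
  have hall : ∀ j, r ^ j * M j ≤ r ^ j₀ * M j₀ := by
    intro j
    by_cases hj : j ≤ D
    · exact hmax j (by rw [Finset.mem_range]; omega)
    · rw [hMD j (by omega), mul_zero]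
      exact mul_nonneg (pow_nonneg hr0.le _) (hM0 _)
  have hpos : 0 < r ^ j₀ * M j₀ := by
    by_contra hcon
    push Not at hcon
    refine hP0 (eq_zero_of_gr (G := G) hP fun j y hy => ?_)
    have h1 : M j ≤ 0 := by
      have h2 := (hall j).trans hcon
      by_contra h3
      push Not at h3
      have := mul_pos (pow_pos hr0 j) h3
      linarith
    have h2 := (hMe j y hy).trans h1
    rw [eval_gr]
    exact abs_nonpos_iff.mp h2
  -- the upper bound for the large thickness
  have up : PsiC s₂ P η z₂ ≤ B * (r ^ j₀ * M j₀) := by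
    refine hB G k₀ (fun _ => 0) 1 η (1 / η) (r ^ j₀ * M j₀) s₂ P z₂ hG hη (by linarith)
      (by positivity) (by rw [mul_one_div_cancel hη.ne']; exact hC₀) hpos.le hP hs₂ hs₂1
      (fun y hy j => ?_) hz₂ hz₂N
    have h1 := hMe j y hy
    rw [eval_gr]
    refine h1.trans ?_
    have h2 : s₂ * (1 / η) = r⁻¹ := by
      rw [hr, inv_div]
      ring
    rw [h2, inv_pow, inv_mul_eq_div, le_div_iff₀ (pow_pos hr0 j), mul_comm]
    exact hall j
  -- the lower bound for the small thickness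
  have lo := val_le_PsiC' (s := s₁) (G := G) (z := z₁) (y := y) hP hη hs₁ hs₁1 hyz₁ hz₁N 0
  rw [pow_zero, pow_zero, one_mul, one_mul] at lo
  have hj₀1 : 1 ≤ j₀ := by
    by_contra hcon
    have h0 : j₀ = 0 := by omega
    rw [h0, pow_zero, one_mul] at hpos up
    have h1 := htyp 0 (Nat.zero_le D)
    have h2 : θ * M 0 ≤ |MvPolynomial.eval y (gr G (dN 0 P))| := by
      rw [hM]
      exact h1
    have h3 := mul_le_mul_of_nonneg_left (h2.trans lo) (Real.exp_pos X).le
    have h4 := (h3.trans hN).trans up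
    have h5 : Real.exp X * (θ * M 0) = Real.exp X * θ * M 0 := by ring
    rw [h5] at h4
    have h6 := mul_lt_mul_of_pos_right hBX hpos
    linarith
  obtain ⟨i, rfl⟩ : ∃ i, j₀ = i + 1 := ⟨j₀ - 1, by omega⟩
  have hM1 : 0 < M (i + 1) := (pos_iff_pos_of_mul_pos hpos).mp (pow_pos hr0 _)
  have hb : ∀ j, M (i + j) ≤ (1 / r) ^ j * (r * M (i + 1)) := by
    intro j
    have h1 := hall (i + j)
    have h2 : r ^ (i + 1) * M (i + 1) = r ^ i * (r * M (i + 1)) := by ring
    have h3 : r ^ (i + j) * M (i + j) = r ^ i * (r ^ j * M (i + j)) := by ring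
    rw [h2, h3] at h1
    have h4 := le_of_mul_le_mul_left h1 (pow_pos hr0 i)
    rw [one_div, inv_pow, inv_mul_eq_div, le_div_iff₀ (pow_pos hr0 j)]
    linarith
  refine ⟨i, by omega, fun No hNo => ?_⟩
  have h2D : (1 : ℝ) ≤ 2 ^ D := one_le_pow₀ (by norm_num)
  have hρ0 : 0 ≤ ρ := (abs_nonneg _).trans hNo
  have hρr : ρ ≤ r := by
    have h1 : r * θ ≤ r := by nlinarith
    have h2 : ρ ≤ 4 * 2 ^ D * ρ := by nlinarith
    linarith
  have hr1 : 0 ≤ 1 / r := by positivity
  have hθr : |No - MvPolynomial.eval y G| * (1 / r) ≤ 1 := by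
    rw [mul_one_div, div_le_one hr0]
    linarith
  have hpG : (fun o : Option (Fin n) => o.elim (MvPolynomial.eval y G) y) = gpt G y := rfl
  have hpt : (fun o : Option (Fin n) => o.elim (MvPolynomial.eval y G +
      (No - MvPolynomial.eval y G)) y) = fun o : Option (Fin n) => o.elim No y := by
    funext o
    cases o with
    | none =>
      simp only [Option.elim]
      ring
    | some i => rfl
  have hdeg : ∀ j, (dN j P).totalDegree ≤ D := fun j => (totalDegree_dN_le j P).trans hP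
  have a1 := pas_le (c := 1) zero_le_one D (dN i P) y (MvPolynomial.eval y G) (1 / r)
    (r * M (i + 1)) (No - MvPolynomial.eval y G) (hdeg i) hr1 (by positivity) hθr (fun j => by
      rw [hpG, dN_dN, add_comm j i]
      exact (hMe (i + j) y hy).trans (hb j))
  rw [hpt] at a1
  have a2 := pas_sub_le (c := ρ / r) (by positivity) D (dN (i + 1) P) y
    (MvPolynomial.eval y G) (1 / r) (M (i + 1)) (No - MvPolynomial.eval y G) (hdeg _) hr1 hM1.le
    (by
      rw [mul_one_div]
      exact div_le_div_of_nonneg_right hNo hr0.le) (fun j _ => by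
      rw [hpG, dN_dN]
      have e : j + (i + 1) = i + (j + 1) := by omega
      rw [e]
      refine ((hMe (i + (j + 1)) y hy).trans (hb (j + 1))).trans (le_of_eq ?_)
      rw [pow_succ]
      field_simp)
  rw [hpt, hpG] at a2
  have a3 : ρ / r * ((1 + ρ / r) ^ D * M (i + 1)) ≤ θ * M (i + 1) / 4 := by
    have h4 : ρ / r ≤ 1 := by
      rw [div_le_one hr0]
      exact hρr
    have h5 : (1 + ρ / r) ^ D ≤ 2 ^ D := pow_le_pow_left₀ (by positivity) (by linarith) _
    have h6 : ρ / r * 2 ^ D ≤ θ / 4 := by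
      rw [div_mul_eq_mul_div, div_le_iff₀ hr0]
      linarith
    calc ρ / r * ((1 + ρ / r) ^ D * M (i + 1)) ≤ ρ / r * (2 ^ D * M (i + 1)) :=
          mul_le_mul_of_nonneg_left (mul_le_mul_of_nonneg_right h5 hM1.le) (by positivity)
      _ = ρ / r * 2 ^ D * M (i + 1) := by ring
      _ ≤ θ / 4 * M (i + 1) := mul_le_mul_of_nonneg_right h6 hM1.le
      _ = θ * M (i + 1) / 4 := by ring
  have a4 : θ * M (i + 1) ≤ |MvPolynomial.eval (gpt G y) (dN (i + 1) P)| := by
    have h1 := htyp (i + 1) (by omega)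
    rw [eval_gr] at h1
    rw [hM]
    exact h1
  have a5 := abs_sub_abs_le_abs_sub (MvPolynomial.eval (gpt G y) (dN (i + 1) P))
    (MvPolynomial.eval (fun o : Option (Fin n) => o.elim No y) (dN (i + 1) P))
  rw [abs_sub_comm] at a5
  have hθM : 0 < θ * M (i + 1) := mul_pos hθ hM1
  have a6 : θ * M (i + 1) / 2 ≤
      |MvPolynomial.eval (fun o : Option (Fin n) => o.elim No y) (dN (i + 1) P)| := by linarith
  refine ⟨by linarith, ?_⟩
  have a7 : ((1 : ℝ) + 1) ^ D = 2 ^ D := by norm_num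
  rw [a7] at a1
  have a8 : 2 ^ D * (r * M (i + 1)) = 2 * 2 ^ D * r / θ * (θ * M (i + 1) / 2) := by
    field_simp
  rw [a8] at a1
  exact a1.trans (mul_le_mul_of_nonneg_left a6 (by positivity))

end Pool.KS3
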