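import Pool.Agent.H82.KSP.RPT

/-!
# The polynomial of the label at one sample
-/

set_option autoImplicit false

namespace Pool.KS3

open Finset Real
open Pool.Agent.H49.Ent Pool.Agent.H32.Dense Pool.STK Pool.KAF Pool.KAL Pool.KST

/-- **One sample.** -/
theorem pol_sample (n D : ℕ) (C₁ : ℝ) (hC₁ : 1 ≤ C₁) : ∃ B₁ : ℝ, 1 ≤ B₁ ∧
    ∀ (a L r₂ qd k₀ γ₀ : ℕ) (C₀ : ℝ) (Ω Λ Ξ Ξt Z Zt : Type) [Fintype Ω] (p : Ω → ℝ) (lam : Ω → Λ)
      (x : Ω → Ξ) (T : Ξ → ℕ) (pos : Ξ → Option (Fin n) → ℕ) (A B : Λ → Option (Fin n) → ℝ)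
      (zx : Ξ → Z) (zl : Λ → ℕ → Z) (cz : Z → Option (Fin n) → ℕ)
      (G : Z → MvPolynomial (Fin n) ℝ) (tr : Ξ → Ξt) (Tt : Ξt → ℕ)
      (post : Ξt → Option (Fin n) → ℕ) (zt : Z → Zt) (zv : Ξt → Zt) (zlt : Λ → ℕ → Zt)
      (czt : Zt → Option (Fin n) → ℕ) (Gt : Zt → MvPolynomial (Fin n) ℝ) (lm τ X : ℝ)
      (R : MvPolynomial.restrictTotalDegree (Option (Fin n)) ℝ D) (ω : Ω),
      StepF n a L C₀ p lam x T pos A B zx zl cz →
      StepF n a r₂ C₁ p lam (fun ω => tr (x ω)) Tt post A B zv zlt czt →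
      0 ≤ C₀ → 3 * C₀ + 1 ≤ C₁ → qd + r₂ = L →
      (∀ ω o, post (tr (x ω)) o = pos (x ω) o / 2 ^ qd) →
      (∀ ω, zv (tr (x ω)) = zt (zx (x ω))) →
      (∀ ω, czt (zt (zx (x ω))) = cz (zx (x ω))) →
      RegG (G (zx (x ω))) (fun _ => 0) 1 k₀ (3 * C₀) →
      |rp (2 ^ L) (posS pos L) (x ω) none - MvPolynomial.eval
        (fun i => rp (2 ^ L) (posS pos L) (x ω) (some i)) (G (zx (x ω)))| ≤ 3 * C₀ / 2 ^ L →
      (∀ ω, 0 < p ω → |rp (2 ^ r₂) (posS post r₂) (tr (x ω)) none - MvPolynomial.eval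
        (fun i => rp (2 ^ r₂) (posS post r₂) (tr (x ω)) (some i)) (Gt (zv (tr (x ω))))| ≤
          3 * C₁ / 2 ^ r₂) →
      (∀ y ∈ cube (fun _ : Fin n => (0 : ℝ)) 1, |MvPolynomial.eval y (G (zx (x ω))) -
        MvPolynomial.eval y (Gt (zt (zx (x ω))))| ≤ 1 / 2 ^ r₂) →
      6 * C₁ / 2 ^ r₂ ≤ lm → 0 < τ → D + 2 + 2 * τ ≤ γ₀ → τ + Real.log B₁ + 1 ≤ X →
      0 < p ω → R ≠ 0 →
      Real.exp X * NZ D p (fun ω => tr (x ω)) zv (2 ^ (a + r₂)) post (6 * C₁ / 2 ^ (a + r₂))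
        (6 * C₁ / 2 ^ r₂ / lm) (zv (tr (x ω))) R ≤
      NZ D p (fun ω => tr (x ω)) zv (2 ^ (a + r₂)) post (6 * C₁ / 2 ^ (a + r₂))
        (6 * C₁ / 2 ^ r₂ / lm / 2 ^ γ₀) (zv (tr (x ω))) R →
      (∀ j, j ≤ D → Real.exp (-τ) * cs (fun _ : Fin n => (0 : ℝ)) 1 (gr (G (zx (x ω)))
        (dN j (shf (R : MvPolynomial (Option (Fin n)) ℝ) (1 / 2 ^ a) (crz cz a (zx (x ω)))))) ≤
        |MvPolynomial.eval (fun i => rp (2 ^ L) (posS pos L) (x ω) (some i)) (gr (G (zx (x ω)))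
          (dN j (shf (R : MvPolynomial (Option (Fin n)) ℝ) (1 / 2 ^ a)
            (crz cz a (zx (x ω))))))|) →
      ∃ i, i < D ∧ MvPolynomial.eval (rp (2 ^ (a + L)) pos (x ω))
          (dN (i + 1) (R : MvPolynomial (Option (Fin n)) ℝ)) ≠ 0 ∧
        2 ^ a * |MvPolynomial.eval (rp (2 ^ (a + L)) pos (x ω))
          (dN i (R : MvPolynomial (Option (Fin n)) ℝ))| ≤
        2 * 2 ^ D * (lm * 2 ^ γ₀) * Real.exp τ * |MvPolynomial.eval (rp (2 ^ (a + L)) pos (x ω))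
          (dN (i + 1) (R : MvPolynomial (Option (Fin n)) ℝ))| := by
  obtain ⟨B₁, hB₁, hleaf⟩ := pol_leaf n D (6 * C₁) (by linarith)
  refine ⟨B₁, hB₁, ?_⟩
  intro a L r₂ qd k₀ γ₀ C₀ Ω Λ Ξ Ξt Z Zt _ p lam x T pos A B zx zl cz G tr Tt post zt zv zlt czt
    Gt lm τ X R ω hF hT hC₀ hCC hL hpost hzv hczt hreg hgr hgrt hGt hlm hτ hγ hX hω hR hNZ htyp
  have hr2 : (0 : ℝ) < 2 ^ r₂ := by positivity
  have hL2 : (0 : ℝ) < 2 ^ L := by positivity
  have ha2 : (0 : ℝ) < 2 ^ a := by positivity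
  have hrL : (2 : ℝ) ^ r₂ ≤ 2 ^ L := pow_le_pow_right₀ (by norm_num) (by omega)
  have hr1 : (1 : ℝ) ≤ 2 ^ r₂ := one_le_pow₀ (by norm_num)
  obtain ⟨η, hη⟩ : ∃ η : ℝ, η = 6 * C₁ / 2 ^ r₂ := ⟨_, rfl⟩
  have hη0 : 0 < η := by rw [hη]; positivity
  have hη1 : η ≤ 6 * C₁ := by
    rw [hη]
    exact div_le_self (by linarith only [hC₁]) hr1
  have hlm0 : 0 < lm := lt_of_lt_of_le (by rw [← hη]; exact hη0) hlm
  rw [← hη] at hNZ hlm
  obtain ⟨s₁, hs₁⟩ : ∃ s₁ : ℝ, s₁ = η / lm := ⟨_, rfl⟩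
  have hs₁0 : 0 < s₁ := by rw [hs₁]; exact div_pos hη0 hlm0
  have hs₁1 : s₁ ≤ 1 := by
    rw [hs₁, div_le_one hlm0]
    exact hlm
  rw [← hs₁] at hNZ
  have h2γ : (0 : ℝ) < 2 ^ γ₀ := by positivity
  obtain ⟨s₂, hs₂⟩ : ∃ s₂ : ℝ, s₂ = s₁ / 2 ^ γ₀ := ⟨_, rfl⟩
  have hs₂0 : 0 < s₂ := by rw [hs₂]; exact div_pos hs₁0 h2γ
  have hs₂1 : s₂ ≤ 1 := by
    rw [hs₂, div_le_one h2γ]
    have : (1 : ℝ) ≤ 2 ^ γ₀ := one_le_pow₀ (by norm_num)
    linarith only [hs₁1, this]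
  rw [← hs₂] at hNZ
  have hηs : η / s₂ = lm * 2 ^ γ₀ := by
    rw [hs₂, hs₁]
    field_simp
  -- the point at which the large norm is attained
  obtain ⟨ω', hω', hzω', hat⟩ := NZ_attained (D := D) (x := fun ω => tr (x ω)) (zx := zv)
    (M := 2 ^ (a + r₂)) (pos := post) (h := 6 * C₁ / 2 ^ (a + r₂)) hs₂0.ne' hω R
  have hlo := le_NZ (D := D) (x := fun ω => tr (x ω)) (zx := zv)
    (M := 2 ^ (a + r₂)) (pos := post) (h := 6 * C₁ / 2 ^ (a + r₂)) hs₁0.ne' hω R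
  rw [hat] at hNZ
  have hN1 := (mul_le_mul_of_nonneg_left hlo (Real.exp_pos X).le).trans hNZ
  -- the units of the leaf
  obtain ⟨P, hP⟩ : ∃ P : MvPolynomial (Option (Fin n)) ℝ,
      P = shf (R : MvPolynomial (Option (Fin n)) ℝ) (1 / 2 ^ a) (crz cz a (zx (x ω))) := ⟨_, rfl⟩
  have hcr : crz czt a (zv (tr (x ω))) = crz cz a (zx (x ω)) := by
    funext o
    simp only [crz]
    rw [hzv ω, hczt ω]
  have e1 := hT.PsiC_eq hs₁0.ne' (R : MvPolynomial (Option (Fin n)) ℝ) (6 * C₁) ω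
  have e2 := hT.PsiC_eq hs₂0.ne' (R : MvPolynomial (Option (Fin n)) ℝ) (6 * C₁) ω'
  rw [hzω'] at e2
  rw [hcr, ← hP, ← hη] at e1 e2
  rw [← e1, ← e2] at hN1
  -- the points
  have hPne : P ≠ 0 := by
    intro h0
    have h1 : PsiC s₂ P η (rp (2 ^ r₂) (posS post r₂) (tr (x ω'))) = 0 := by
      rw [h0, PsiC_eq hs₂0.ne']
      unfold PsiA shA
      rw [map_zero]
      exact coefSum_zero
    rw [e2, ← hat] at h1
    have h2 := NZ_pos (D := D) (p := p) (x := fun ω => tr (x ω)) (zx := zv)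
      (M := 2 ^ (a + r₂)) (pos := post) (h := 6 * C₁ / 2 ^ (a + r₂)) (s := s₂) (by positivity)
      hs₂0 (zv (tr (x ω))) hR
    linarith only [h1, h2]
  have hPD : P.totalDegree ≤ D := by
    rw [hP]
    exact (totalDegree_shf_le _ _ _).trans ((MvPolynomial.mem_restrictTotalDegree _ _ _).mp R.2)
  have hpt := trunc_pt hL pos post (x ω) (tr (x ω)) (hpost ω)
  have h1η : 1 / 2 ^ r₂ ≤ η := by
    rw [hη]
    exact div_le_div_of_nonneg_right (by linarith only [hC₁]) hr2.le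
  have hyc := rp_mem_cube L pos (x ω)
  have hzc := rp_mem_cube r₂ post (tr (x ω'))
  obtain ⟨y, hy⟩ : ∃ y : Fin n → ℝ, y = fun i => rp (2 ^ L) (posS pos L) (x ω) (some i) :=
    ⟨_, rfl⟩
  rw [← hy] at hyc htyp hgr
  have h3L : 3 * C₀ / 2 ^ L ≤ 3 * C₀ / 2 ^ r₂ := div_le_div_of_nonneg_left (by linarith only [hC₀]) hr2 hrL
  obtain ⟨i, hi, hfin⟩ := hleaf (G (zx (x ω))) k₀ P η s₁ s₂ (Real.exp (-τ)) X (3 * C₀ / 2 ^ L)
    (rp (2 ^ r₂) (posS post r₂) (tr (x ω))) (rp (2 ^ r₂) (posS post r₂) (tr (x ω'))) y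
    (hreg.mono (by linarith only [hC₁, hCC])) hPne hPD hη0 hη1 hs₁0 hs₁1 hs₂0 hs₂1 (Real.exp_pos _)
    (Real.exp_le_one_iff.mpr (by linarith only [hτ])) hN1
    (by
      rw [← Real.exp_add]
      have h1 : Real.exp (Real.log B₁ + 1) ≤ Real.exp (X + -τ) :=
        Real.exp_le_exp.mpr (by linarith only [hX])
      refine lt_of_lt_of_le ?_ h1
      rw [Real.exp_add, Real.exp_log (by linarith only [hB₁])]
      have h2 : (1 : ℝ) < Real.exp 1 := Real.one_lt_exp_iff.mpr one_pos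
      nlinarith only [h2, hB₁])
    hzc
    (by
      have h1 := hgrt ω' hω'
      have h2 := hGt _ hzc
      rw [hzω', hzv ω] at h1
      have h3 : 3 * C₁ / 2 ^ r₂ + 1 / 2 ^ r₂ ≤ η := by
        rw [hη, ← add_div]
        exact div_le_div_of_nonneg_right (by linarith only [hC₁]) hr2.le
      have h4 : η ≤ 6 * C₁ * η := by nlinarith only [hη0, hC₁]
      refine le_trans ?_ h4
      refine le_trans ?_ h3
      rw [abs_sub_comm] at h2
      refine (abs_sub_le _ (MvPolynomial.eval (fun i => rp (2 ^ r₂) (posS post r₂)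
        (tr (x ω')) (some i)) (Gt (zt (zx (x ω))))) _).trans (add_le_add h1 h2))
    hyc
    (by
      intro i
      obtain ⟨θ, a1, a2, a3⟩ := hpt (some i)
      rw [hy]
      simp only
      rw [a3, add_sub_cancel_left, abs_of_nonneg a1]
      linarith only [h1η, a2])
    (by
      obtain ⟨θ, a1, a2, a3⟩ := hpt none
      rw [a3] at hgr
      have h1 := hgr.trans h3L
      have h2 : 3 * C₀ / 2 ^ r₂ + 1 / 2 ^ r₂ ≤ η := by
        rw [hη, ← add_div]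
        exact div_le_div_of_nonneg_right (by linarith only [hC₁, hCC]) hr2.le
      rw [abs_le] at h1 ⊢
      constructor
      · linarith only [a2, h1, h2, h1.1]
      · linarith only [a1, a2, h1, h2, h1.2])
    (by
      intro j hj
      rw [hP]
      exact htyp j hj)
    (by
      rw [hηs]
      have h1 : 3 * C₀ / 2 ^ L ≤ lm := by
        refine h3L.trans (le_trans ?_ hlm)
        rw [hη]
        exact div_le_div_of_nonneg_right (by linarith only [hC₁, hCC]) hr2.le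
      have h2 : (4 : ℝ) * 2 ^ D ≤ 2 ^ γ₀ * Real.exp (-τ) := by
        have hl : (1 : ℝ) / 2 ≤ Real.log 2 := by
          have := Real.log_two_gt_d9
          linarith only [this]
        have h3 : (4 : ℝ) * 2 ^ D = Real.exp ((D + 2) * Real.log 2) := by
          have h5 : ((D : ℝ) + 2) * Real.log 2 = ((D + 2 : ℕ) : ℝ) * Real.log 2 := by
            push_cast
            ring
          rw [h5, ← Real.log_pow, Real.exp_log (by positivity)]
          ring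
        have h4 : (2 : ℝ) ^ γ₀ = Real.exp (γ₀ * Real.log 2) := by
          rw [← Real.log_pow, Real.exp_log (by positivity)]
        rw [h3, h4, ← Real.exp_add]
        refine Real.exp_le_exp.mpr ?_
        have h5 : (0 : ℝ) ≤ (γ₀ - (D + 2) - 2 * τ) := by linarith only [hγ]
        have h6 := mul_nonneg h5 (by linarith only [hl] : 0 ≤ Real.log 2)
        have h7 : 2 * τ * (1 / 2) ≤ 2 * τ * Real.log 2 :=
          mul_le_mul_of_nonneg_left hl (by linarith only [hτ])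
        nlinarith only [h6, h7]
      calc 4 * 2 ^ D * (3 * C₀ / 2 ^ L) ≤ 4 * 2 ^ D * lm :=
            mul_le_mul_of_nonneg_left h1 (by positivity)
        _ ≤ 2 ^ γ₀ * Real.exp (-τ) * lm := mul_le_mul_of_nonneg_right h2 hlm0.le
        _ = lm * 2 ^ γ₀ * Real.exp (-τ) := by ring)
  have hfin' := hfin (rp (2 ^ L) (posS pos L) (x ω) none) (by rw [hy]; rw [hy] at hgr; exact hgr)
  have hpe : (fun o : Option (Fin n) => o.elim (rp (2 ^ L) (posS pos L) (x ω) none) y) =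
      rp (2 ^ L) (posS pos L) (x ω) := by
    funext o
    cases o with
    | none => rfl
    | some i => rw [hy]; rfl
  rw [hpe] at hfin'
  have hev : ∀ j, MvPolynomial.eval (rp (2 ^ L) (posS pos L) (x ω)) (dN j P) =
      (1 / 2 ^ a) ^ j * MvPolynomial.eval (rp (2 ^ (a + L)) pos (x ω))
        (dN j (R : MvPolynomial (Option (Fin n)) ℝ)) := by
    intro j
    rw [hP, Pool.KS3.dN_shf, map_mul, MvPolynomial.eval_C, eval_shf]
    congr 2
    congr 1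
    funext o
    exact (hF.rp_eq ω o).symm
  rw [hev, hev, hηs] at hfin'
  obtain ⟨hf1, hf2⟩ := hfin'
  refine ⟨i, hi, ?_, ?_⟩
  · intro h0
    rw [h0, mul_zero, abs_zero] at hf1
    exact lt_irrefl _ hf1
  · rw [abs_mul, abs_mul, abs_of_pos (by positivity : (0 : ℝ) < (1 / 2 ^ a) ^ i),
      abs_of_pos (by positivity : (0 : ℝ) < (1 / 2 ^ a) ^ (i + 1)), Real.exp_neg, div_inv_eq_mul]
      at hf2
    have h1 : (0 : ℝ) < (1 / 2 ^ a) ^ i := by positivity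
    have h2 : 2 * 2 ^ D * (lm * 2 ^ γ₀) * Real.exp τ * ((1 / 2 ^ a) ^ (i + 1) *
        |MvPolynomial.eval (rp (2 ^ (a + L)) pos (x ω))
          (dN (i + 1) (R : MvPolynomial (Option (Fin n)) ℝ))|) = (1 / 2 ^ a) ^ i *
        (1 / 2 ^ a * (2 * 2 ^ D * (lm * 2 ^ γ₀) * Real.exp τ *
        |MvPolynomial.eval (rp (2 ^ (a + L)) pos (x ω))
          (dN (i + 1) (R : MvPolynomial (Option (Fin n)) ℝ))|)) := by
      rw [pow_succ]
      ring
    rw [h2] at hf2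
    have h3 := le_of_mul_le_mul_left hf2 h1
    rw [one_div, inv_mul_eq_div, le_div_iff₀ ha2] at h3
    linarith only [h3]

end Pool.KS3
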