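import Pool.Agent.H82.KSP.RPL
import Pool.Agent.H82.KSP.J2S
import Pool.Agent.H77.KJ.Depth

/-!
# The polynomial of the label at the samples: typical samples and the choice of the derivative
-/

set_option autoImplicit false

namespace Pool.KS3

open Finset Real
open Pool.Agent.H49.Ent Pool.Agent.H32.Dense Pool.STK Pool.KAF Pool.KAL Pool.KST

/-- The tower rule. -/
lemma sum_cond_mul {Ω Z : Type} [Fintype Ω] {p : Ω → ℝ} (hp0 : ∀ ω, 0 ≤ p ω) (f : Ω → Z)
    (g : Z → Ω → ℝ) :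
    ∑ ω, p ω * (∑ ω', cond p f (f ω) ω' * g (f ω) ω') = ∑ ω, p ω * g (f ω) ω := by
  classical
  have h1 : ∀ ω, p ω * (∑ ω', cond p f (f ω) ω' * g (f ω) ω') =
      ∑ ω', (if f ω = f ω' then p ω * (p ω' / Pool.Agent.H49.Ent.law p f (f ω') * g (f ω') ω')
        else 0) := by
    intro ω
    rw [Finset.mul_sum]
    refine Finset.sum_congr rfl fun ω' _ => ?_
    unfold Pool.Agent.H49.Ent.cond
    by_cases c : f ω = f ω'
    · rw [if_pos c.symm, if_pos c, c]
    · rw [if_neg (fun h => c h.symm), if_neg c, zero_mul, mul_zero]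
  rw [Finset.sum_congr rfl fun ω _ => h1 ω, Finset.sum_comm]
  refine Finset.sum_congr rfl fun ω' _ => ?_
  have h2 : ∀ ω, (if f ω = f ω' then p ω * (p ω' / Pool.Agent.H49.Ent.law p f (f ω') *
      g (f ω') ω') else 0) = (if f ω = f ω' then p ω else 0) *
        (p ω' / Pool.Agent.H49.Ent.law p f (f ω') * g (f ω') ω') := by
    intro ω
    split_ifs
    · rfl
    · rw [zero_mul]
  rw [Finset.sum_congr rfl fun ω _ => h2 ω, ← Finset.sum_mul]
  have h3 : (∑ ω, if f ω = f ω' then p ω else 0) = Pool.Agent.H49.Ent.law p f (f ω') := by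
    unfold Pool.Agent.H49.Ent.law
    exact Finset.sum_congr rfl fun ω _ => ite_dec _ _ _ _ _
  rw [h3]
  rcases (hp0 ω').eq_or_lt with h0 | h0
  · rw [← h0]
    simp
  · have h4 := law_pos hp0 f h0
    field_simp

open Classical in
/-- **Typical samples**: a polynomial of the leaf is rarely small. -/
theorem typ_mass (n D : ℕ) : ∃ (κ₁ : ℕ) (C : ℝ), 1 ≤ κ₁ ∧ 0 ≤ C ∧
    ∀ (L : ℕ) (Ω Ξ Z : Type) [Fintype Ω] (p : Ω → ℝ) (x : Ω → Ξ)
      (pos : Ξ → Option (Fin n) → ℕ) (zx : Ξ → Z) (H : Z → MvPolynomial (Fin n) ℝ) (τ d : ℝ),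
      IsLaw p → (∀ ω, 0 < p ω → (H (zx (x ω))).totalDegree ≤ D) →
      n * (L * Real.log 2) - CH p (fun ω => bas (posS pos L) (x ω)) (fun ω => zx (x ω)) ≤ d →
      0 < τ → τ ≤ κ₁ * (L * Real.log 2) →
      (∑ ω, if |MvPolynomial.eval (fun i => rp (2 ^ L) (posS pos L) (x ω) (some i))
        (H (zx (x ω)))| < Real.exp (-τ) * cs (fun _ => 0) 1 (H (zx (x ω))) then p ω else 0) ≤
      κ₁ * (d + C) / τ := by
  obtain ⟨κ₁, C, hκ₁, hC, hbad⟩ := rik_bad n D
  refine ⟨κ₁, C, hκ₁, hC, ?_⟩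
  intro L Ω Ξ Z _ p x pos zx Hp τ d hp hdeg hd hτ hτL
  have hp0 := hp.nonneg
  set N : ℕ := 2 ^ L with hN
  have hN0 : 0 < N := Nat.two_pow_pos L
  have hlN : Real.log N = L * Real.log 2 := by
    rw [hN]
    push_cast
    rw [Real.log_pow]
  set Y : Ω → Fin n → Fin N := fun ω i => ⟨posS pos L (x ω) (some i),
    Nat.mod_lt _ hN0⟩ with hY
  have hYe : ∀ ω, (fun i => ((Y ω i : ℕ) : ℝ) / N) =
      fun i => rp (2 ^ L) (posS pos L) (x ω) (some i) := fun _ => rfl
  -- the deficit of a leaf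
  set f : Z → ℝ := fun ζ => κ₁ * ((n * Real.log N - H (cond p (fun ω => zx (x ω)) ζ) Y) + C)
    with hf
  have hfEx : Ex p (fun ω => f (zx (x ω))) ≤ κ₁ * (d + C) := by
    have e1 : Ex p (fun ω => f (zx (x ω))) = κ₁ * ((n * Real.log N -
        Ex p (fun ω => H (cond p (fun ω => zx (x ω)) (zx (x ω))) Y)) + C) := by
      simp only [hf]
      rw [Ex_smul, Ex_add, Ex_sub, Ex_const hp.sum_one, Ex_const hp.sum_one]
    have e2 : Ex p (fun ω => H (cond p (fun ω => zx (x ω)) (zx (x ω))) Y) =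
        CH p Y (fun ω => zx (x ω)) := by
      rw [CH_eq_sum hp0]
      unfold Ex
      exact sum_mul_eq_sum_image p (fun ω => zx (x ω))
        (fun ζ => H (cond p (fun ω => zx (x ω)) ζ) Y)
    have e3 : CH p Y (fun ω => zx (x ω)) =
        CH p (fun ω => bas (posS pos L) (x ω)) (fun ω => zx (x ω)) := by
      refine CH_congr hp0 ?_ ?_ (fun _ _ _ _ h => h) (fun _ _ _ _ h => h)
      · intro ω ω' _ _ hh
        have h1 := (Prod.ext_iff.mp hh).1
        funext i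
        have h2 : Y ω i = Y ω' i := congrFun h1 i
        exact congrArg Fin.val h2
      · intro ω ω' _ _ hh
        have h1 := (Prod.ext_iff.mp hh).1
        funext i
        exact Fin.ext (congrFun h1 i)
    rw [e1, e2, e3, hlN]
    refine mul_le_mul_of_nonneg_left ?_ (Nat.cast_nonneg _)
    linarith
  -- one leaf
  have hleaf : ∀ ω₀, 0 < p ω₀ → τ * (∑ ω, cond p (fun ω => zx (x ω)) (zx (x ω₀)) ω *
      (if |MvPolynomial.eval (fun i => ((Y ω i : ℕ) : ℝ) / N) (Hp (zx (x ω₀)))| <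
        Real.exp (-τ) * cs (fun _ => 0) 1 (Hp (zx (x ω₀))) then 1 else 0)) ≤
      f (zx (x ω₀)) := by
    intro ω₀ hω₀
    have hl : 0 < law p (fun ω => zx (x ω)) (zx (x ω₀)) := law_pos hp0 (fun ω => zx (x ω)) hω₀
    have hcl : IsLaw (cond p (fun ω => zx (x ω)) (zx (x ω₀))) :=
      ⟨cond_nonneg hp0 _ _, sum_cond p _ hl.ne'⟩
    have h1 := hbad Ω (cond p (fun ω => zx (x ω)) (zx (x ω₀))) N Y (Hp (zx (x ω₀)))
      (cs (fun _ : Fin n => (0 : ℝ)) 1 (Hp (zx (x ω₀)))) τ hcl hN0 (hdeg ω₀ hω₀)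
      (SML.cs_nonneg _ _ _) (fun s hs => SML.le_cs zero_le_one _ hs)
      (cs_attained _ _ zero_le_one _) hτ (by rw [hlN]; exact hτL)
    refine le_trans (le_of_eq ?_) h1
    congr 1
    refine Finset.sum_congr rfl fun ω _ => ?_
    by_cases hb : |MvPolynomial.eval (fun i => ((Y ω i : ℕ) : ℝ) / N) (Hp (zx (x ω₀)))| <
        Real.exp (-τ) * cs (fun _ => 0) 1 (Hp (zx (x ω₀)))
    · rw [if_pos hb, if_pos hb, mul_one]
    · rw [if_neg hb, if_neg hb, mul_zero]
  have h1 : (∑ ω, if |MvPolynomial.eval (fun i => rp (2 ^ L) (posS pos L) (x ω) (some i))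
        (Hp (zx (x ω)))| < Real.exp (-τ) * cs (fun _ => 0) 1 (Hp (zx (x ω))) then p ω else 0) =
      ∑ ω, p ω * (if |MvPolynomial.eval (fun i => ((Y ω i : ℕ) : ℝ) / N)
        (Hp (zx (x ω)))| < Real.exp (-τ) * cs (fun _ => 0) 1 (Hp (zx (x ω))) then 1 else 0) := by
    refine Finset.sum_congr rfl fun ω _ => ?_
    rw [hYe ω]
    by_cases hb : |MvPolynomial.eval (fun i => rp (2 ^ L) (posS pos L) (x ω) (some i))
        (Hp (zx (x ω)))| < Real.exp (-τ) * cs (fun _ => 0) 1 (Hp (zx (x ω)))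
    · rw [if_pos hb, if_pos hb, mul_one]
    · rw [if_neg hb, if_neg hb, mul_zero]
  rw [h1, le_div_iff₀ hτ]
  refine le_trans ?_ hfEx
  have h2 := sum_cond_mul hp0 (fun ω => zx (x ω)) (fun ζ ω =>
    (if |MvPolynomial.eval (fun i => ((Y ω i : ℕ) : ℝ) / N) (Hp ζ)| <
        Real.exp (-τ) * cs (fun _ => 0) 1 (Hp ζ) then (1 : ℝ) else 0))
  rw [← h2, Finset.sum_mul]
  unfold Ex
  refine Finset.sum_le_sum fun ω _ => ?_
  rcases (hp0 ω).eq_or_lt with h0 | h0
  · rw [← h0]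
    simp
  · rw [mul_assoc]
    refine mul_le_mul_of_nonneg_left ?_ h0.le
    rw [mul_comm]
    exact hleaf ω h0

open Classical in
/-- **The choice of the index**: every sample of the event has a good index; one index for every
label is good on a large part of the event. -/
theorem pigeon {Ω Y : Type} [Fintype Ω] (p : Ω → ℝ) (hp0 : ∀ ω, 0 ≤ p ω) (m : ℕ) (E : Ω → Prop)
    (f : Ω → Y) (G : ℕ → Ω → Prop) (hG : ∀ ω, 0 < p ω → E ω → ∃ i, i < m ∧ G i ω) :
    ∃ c : Y → ℕ, KJ.Pe p E ≤ m * KJ.Pe p (fun ω => E ω ∧ G (c (f ω)) ω) := by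
  obtain ⟨g, hg⟩ : ∃ g : Y → ℕ → ℝ, g = fun y i =>
    ∑ ω, if f ω = y ∧ E ω ∧ G i ω then p ω else 0 := ⟨_, rfl⟩
  have hmax : ∀ y, ∃ i, ∀ j, j < m → g y j ≤ g y i := by
    intro y
    rcases Nat.eq_zero_or_pos m with h0 | h0
    · exact ⟨0, fun j hj => by omega⟩
    · obtain ⟨i, -, hi⟩ := Finset.exists_max_image (range m) (g y) ⟨0, by simpa using h0⟩
      exact ⟨i, fun j hj => hi j (by simpa using hj)⟩
  choose c hc using hmax
  refine ⟨c, ?_⟩
  have h1 : KJ.Pe p E ≤ ∑ y ∈ univ.image f, ∑ i ∈ range m, g y i := by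
    have h2 : ∑ y ∈ univ.image f, ∑ i ∈ range m, g y i =
        ∑ ω, ∑ i ∈ range m, if E ω ∧ G i ω then p ω else 0 := by
      simp only [hg]
      have h3 : ∀ y ∈ univ.image f, (∑ i ∈ range m, ∑ ω,
          if f ω = y ∧ E ω ∧ G i ω then p ω else 0) =
          ∑ ω, ∑ i ∈ range m, if f ω = y ∧ E ω ∧ G i ω then p ω else 0 :=
        fun y _ => Finset.sum_comm
      rw [Finset.sum_congr rfl h3, Finset.sum_comm]
      refine Finset.sum_congr rfl fun ω _ => ?_
      rw [Finset.sum_comm]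
      refine Finset.sum_congr rfl fun i _ => ?_
      rw [Finset.sum_eq_single (f ω)]
      · by_cases c : E ω ∧ G i ω
        · rw [if_pos ⟨rfl, c⟩, if_pos c]
        · rw [if_neg (fun h => c h.2), if_neg c]
      · intro y _ hy
        rw [if_neg (fun h => hy h.1.symm)]
      · intro h
        exact absurd (Finset.mem_image_of_mem f (Finset.mem_univ ω)) h
    rw [h2]
    unfold KJ.Pe
    refine Finset.sum_le_sum fun ω _ => ?_
    have hnn : ∀ i ∈ range m, (0 : ℝ) ≤ if E ω ∧ G i ω then p ω else 0 := by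
      intro i _
      split_ifs
      exacts [hp0 ω, le_rfl]
    rcases (hp0 ω).eq_or_lt with h0 | h0
    · rw [← h0]
      simp
    · by_cases c : E ω
      · rw [if_pos c]
        obtain ⟨i, hi, hGi⟩ := hG ω h0 c
        have h3 := Finset.single_le_sum hnn (Finset.mem_range.mpr hi)
        rw [if_pos ⟨c, hGi⟩] at h3
        exact h3
      · rw [if_neg c]
        exact Finset.sum_nonneg hnn
  refine h1.trans ?_
  have h4 : ∀ y ∈ univ.image f, ∑ i ∈ range m, g y i ≤ m * g y (c y) := by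
    intro y _
    have := Finset.sum_le_card_nsmul (range m) (g y) (g y (c y)) (fun i hi =>
      hc y i (by simpa using hi))
    rwa [Finset.card_range, nsmul_eq_mul] at this
  refine (Finset.sum_le_sum h4).trans (le_of_eq ?_)
  rw [← Finset.mul_sum]
  congr 1
  simp only [hg]
  rw [Finset.sum_comm]
  unfold KJ.Pe
  refine Finset.sum_congr rfl fun ω _ => ?_
  rw [Finset.sum_eq_single (f ω)]
  · by_cases h : E ω ∧ G (c (f ω)) ω
    · rw [if_pos ⟨rfl, h⟩, if_pos h]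
    · rw [if_neg (fun h' => h h'.2), if_neg h]
  · intro y _ hy
    rw [if_neg (fun h => hy h.1.symm)]
  · intro h
    exact absurd (Finset.mem_image_of_mem f (Finset.mem_univ ω)) h

/-- The point of a truncated leaf is near the point of the leaf. -/
lemma trunc_pt {n L L' qd : ℕ} (hL : qd + L' = L) {Ξ Ξt : Type} (pos : Ξ → Option (Fin n) → ℕ)
    (post : Ξt → Option (Fin n) → ℕ) (ξ : Ξ) (ξt : Ξt) (h : ∀ o, post ξt o = pos ξ o / 2 ^ qd)
    (o : Option (Fin n)) : ∃ θ : ℝ, 0 ≤ θ ∧ θ ≤ 1 / 2 ^ L' ∧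
      rp (2 ^ L) (posS pos L) ξ o = rp (2 ^ L') (posS post L') ξt o + θ := by
  obtain ⟨θ, a1, a2, a3⟩ := trunc_real (posS pos L ξ o) 0 L' qd
  refine ⟨θ, a1, ?_, ?_⟩
  · rwa [zero_add] at a2
  · simp only [zero_add] at a3
    rw [hL] at a3
    simp only [rp]
    rw [a3]
    have e1 : posS pos L ξ o / 2 ^ qd = posS post L' ξt o := by
      simp only [posS]
      rw [h, ← hL, pow_add, Nat.mod_mul_right_div_self]
    rw [e1]

/-- Grid points lie in the unit cube. -/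
lemma rp_mem_cube {n : ℕ} {Ξ : Type} (L : ℕ) (pos : Ξ → Option (Fin n) → ℕ) (ξ : Ξ) :
    (fun i => rp (2 ^ L) (posS pos L) ξ (some i)) ∈ cube (fun _ : Fin n => (0 : ℝ)) 1 := by
  intro i
  have h1 : posS pos L ξ (some i) < 2 ^ L := Nat.mod_lt _ (Nat.two_pow_pos L)
  have h2 : ((posS pos L ξ (some i) : ℕ) : ℝ) < ((2 ^ L : ℕ) : ℝ) := by exact_mod_cast h1
  have h3 : (0 : ℝ) < ((2 ^ L : ℕ) : ℝ) := by exact_mod_cast Nat.two_pow_pos L
  simp only [rp]
  refine ⟨by positivity, ?_⟩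
  rw [zero_add, div_le_one h3]
  exact h2.le

end Pool.KS3
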