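import Pool.Agent.H82.KSP.STC

/-!
# The macro step for the whole law

`b` is a function of the label (`bz`) and of the line (`bl`), for instance the cell of the long
window together with the side information. The price is conditioned on `b` as well, so that the
point has to be determined by its position and `b` only; nothing else changes.
-/

set_option autoImplicit false

namespace Pool.KS3

open Finset Real Module
open Pool.Agent.H49.Ent Pool.Agent.H32.Dense Pool.STK Pool.KAF Pool.KAL Pool.KST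

/-- The price (1.3) for the whole law. -/
theorem prc_b (n D : ℕ) (C₀ : ℝ) (hC₀ : 1 ≤ C₀) (k₀ : ℕ) : ∃ C : ℝ, 1 ≤ C ∧
    ∀ (a L : ℕ) (Ω Λ Ξ Z β : Type) [Fintype Ω] (p : Ω → ℝ) (lam : Ω → Λ)
      (x : Ω → Ξ) (T : Ξ → ℕ) (pos : Ξ → Option (Fin n) → ℕ) (A B : Λ → Option (Fin n) → ℝ)
      (zx : Ξ → Z) (zl : Λ → ℕ → Z) (cz : Z → Option (Fin n) → ℕ)
      (G : Z → MvPolynomial (Fin n) ℝ) (κ γ N : ℕ) (δ ε e₁ e₃ e₅ eT lm : ℝ)
      (e : Ξ → ℝ) (bz : Z → β) (bl : Λ → β),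
      StepH n a L C₀ k₀ κ γ N δ ε e₁ e₃ p lam x T pos A B zx zl cz G e →
      (∀ ω, 0 < p ω → ¬ Bad (G (zx (x ω))) (fun _ => 0) 1 D lm) →
      6 * C₀ / 2 ^ L ≤ lm → lm ≤ 1 →
      (∀ ω, 0 < p ω → bz (zx (x ω)) = bl (lam ω)) →
      (a + L) * Real.log 2 - CH p (fun ω => T (x ω)) lam ≤ eT →
      CH p x (fun ω => (pos (x ω), bz (zx (x ω)))) ≤ e₅ →
      CH (dbl p lam) (fun v => zx (x v.1)) (fun v => x v.2) ≤
        (n + 4 * D) * (a * Real.log 2) + Real.log ((a + L : ℕ) + 2) + Real.log (lm * 2 ^ L) +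
          2 * D * eT + e₅ + C * RR n L κ γ N ε e₁ e₃ := by
  classical
  obtain ⟨Cc, hCc, hcnt⟩ := cnt n D C₀ hC₀ k₀
  have h3C : (1 : ℝ) ≤ 3 * C₀ := by linarith
  obtain ⟨Cu, hCu, hful⟩ := fulh_thm n (3 * C₀) h3C
  have hn0 : (0 : ℝ) ≤ n := Nat.cast_nonneg n
  refine ⟨Cc + Cu + n, by linarith, ?_⟩
  intro a L Ω Λ Ξ Z β _ p lam x T pos A B zx zl cz G κ γ N δ ε e₁ e₃ e₅ eT lm e bz bl hF hbad
    hlm hlm1 hb heT he₅
  have hp := hF.step.leaf.isLaw
  have hp0 := hp.nonneg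
  have hC0 : (0 : ℝ) < C₀ := by linarith
  set q := dbl p lam with hqdef
  have hq0 : ∀ v, 0 ≤ q v := dbl_nonneg hp0
  have m1 : Marg q p (fun v => v.1) := dbl_fst hp0
  have m2 : Marg q p (fun v => v.2) := dbl_snd hp0
  have hq : IsLaw q := ⟨hq0, by rw [m1.sum]; exact hp.sum_one⟩
  set R : ℝ := RR n L κ γ N ε e₁ e₃ with hR
  obtain ⟨hR0, hR1, hR2⟩ := hF.le_RR
  rw [← hR] at hR0 hR1 hR2
  have hγ3 : n.factorial * (3 * C₀) ^ n ≤ δ ^ n * 2 ^ γ := by
    refine le_trans ?_ hF.hγ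
    have h1 : (0 : ℝ) ≤ n.factorial := Nat.cast_nonneg _
    refine mul_le_mul_of_nonneg_left ?_ h1
    exact pow_le_pow_left₀ (by linarith) (by linarith) _
  -- the count
  have hcn := hcnt a L Ω Λ Ξ Z p lam x T pos A B zx zl cz G κ γ δ ε e₁ eT lm e hF.step hF.reg
    hF.gr hbad hlm hlm1 hF.hδ hF.he hF.hex hF.hnc hγ3 hF.hκ hF.he₁ hF.he₁0 heT
  -- the fullness
  have hfu := hful Ω (Λ × ℕ) Ξ Z p (lamS lam x T L) x (TS T L) (posS pos L)
    (AS A B zl cz a) (BS B) zx (fun l => zl l.1 l.2) L κ γ δ ε e₁ e (hF.step.small hC₀)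
    (fun ω _ => hF.step.lab ω) hF.hδ hF.he hF.hex (NCF_small hF.hnc) hγ3 hF.hκ hF.he₁
  -- the entropies
  have I1 : CH q (fun v => zx (x v.1)) (fun v => x v.2) =
      CH q (fun v => x v.2) (fun v => zx (x v.1)) - CH p x (fun ω => zx (x ω)) := by
    have a1 : H q (fun v => (zx (x v.1), x v.2)) = H q (fun v => (x v.2, zx (x v.1))) := by
      refine H_congr hq0 ?_ ?_
      · intro v v' _ _ h
        simp only [Prod.mk.injEq] at h ⊢
        tauto
      · intro v v' _ _ h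
        simp only [Prod.mk.injEq] at h ⊢
        tauto
    have a2 : H q (fun v => x v.2) = H p x := m2.H x
    have a3 : H q (fun v => zx (x v.1)) = H p (fun ω => zx (x ω)) := m1.H (fun ω => zx (x ω))
    have a4 : H p (fun ω => (x ω, zx (x ω))) = H p x := by
      refine H_congr hp0 ?_ ?_
      · intro ω ω' _ _ h
        have h1 : x ω = x ω' := h
        simp only [h1]
      · intro ω ω' _ _ h
        exact (Prod.ext_iff.mp h).1
    unfold CH
    rw [a1, a2, a3, a4]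
    ring
  have I2 : CH q (fun v => x v.2) (fun v => zx (x v.1)) ≤
      n * ((a + L) * Real.log 2) +
        CH q (fun v => pos (x v.2) none) (fun v => (bas pos (x v.2), zx (x v.1))) + e₅ := by
    have b1 := CH_le_add hq0 (fun v => x v.2) (fun v => bas pos (x v.2)) (fun v => zx (x v.1))
    have b2 := CH_le_add hq0 (fun v => x v.2) (fun v => pos (x v.2) none)
      (fun v => (bas pos (x v.2), zx (x v.1)))
    have b3 : CH q (fun v => x v.2)
        (fun v => (pos (x v.2) none, (bas pos (x v.2), zx (x v.1)))) ≤ e₅ := by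
      have c1 : CH q (fun v => x v.2) (fun v => (pos (x v.2), bz (zx (x v.2)))) =
          CH p x (fun ω => (pos (x ω), bz (zx (x ω)))) :=
        m2.CH x (fun ω => (pos (x ω), bz (zx (x ω))))
      rw [← c1] at he₅
      refine le_trans (CH_mono_cond hq0 ?_) he₅
      intro v v' hv hv' h
      simp only [Prod.mk.injEq] at h ⊢
      refine ⟨?_, ?_⟩
      · funext o
        cases o with
        | none => exact h.1
        | some i => exact congrFun h.2.1 i
      · have d1 : ∀ w : Ω × Ω, 0 < q w → bz (zx (x w.2)) = bz (zx (x w.1)) := fun w hw => by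
          rw [hb w.2 (m2.pos hq0 hw), hb w.1 (m1.pos hq0 hw), dbl_eq hp0 hw]
        rw [d1 v hv, d1 v' hv', h.2.2]
    have b4 : CH q (fun v => bas pos (x v.2)) (fun v => zx (x v.1)) ≤
        n * ((a + L) * Real.log 2) := by
      have h1 := CH_le_card hq0 hq.sum_one (fun v => bas pos (x v.2)) (fun v => zx (x v.1))
        (fun _ => Fintype.piFinset (fun _ : Fin n => Finset.range (2 ^ (a + L)))) (by
        intro v _
        rw [Fintype.mem_piFinset]
        intro i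
        rw [Finset.mem_range]
        exact hF.step.leaf.pos_lt v.2 (some i))
      refine h1.trans (le_of_eq ?_)
      have h2 : (((Fintype.piFinset (fun _ : Fin n => Finset.range (2 ^ (a + L)))).card : ℕ) :
          ℝ) = (2 : ℝ) ^ ((a + L) * n) := by
        rw [Fintype.card_piFinset]
        simp only [Finset.card_range, Finset.prod_const, Finset.card_univ, Fintype.card_fin]
        push_cast
        rw [← pow_mul]
      simp only [h2]
      rw [Ex_const hq.sum_one, Real.log_pow]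
      push_cast
      ring
    linarith
  have I3 : n * (L * Real.log 2) - (n * e₁ + Cu * (L / κ + γ + κ + 1 + ε * L)) ≤
      CH p x (fun ω => zx (x ω)) := by
    have h1 : CH p (fun ω => bas (posS pos L) (x ω)) (fun ω => zx (x ω)) ≤
        CH p x (fun ω => zx (x ω)) := CH_mono_left hp0 (by
      intro ω ω' _ _ h
      have h1 : x ω = x ω' := (Prod.ext_iff.mp h).1
      simp only [h1])
    linarith
  rw [I1]
  have he₁0 := hF.he₁0
  have he₃0 := hF.e₃_nonneg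
  have j1 : Cc * (e₁ + L / κ + γ + κ + 1 + ε * L) ≤ Cc * R :=
    mul_le_mul_of_nonneg_left hR0 (by linarith)
  have j2 : Cu * (L / κ + γ + κ + 1 + ε * L) ≤ Cu * R :=
    mul_le_mul_of_nonneg_left (by linarith) hCu
  have j3 : (n : ℝ) * e₁ ≤ n * R := mul_le_mul_of_nonneg_left (by linarith) hn0
  have j4 : (Cc + Cu + n) * R = Cc * R + Cu * R + n * R := by ring
  have j5 : (n : ℝ) * ((a + L) * Real.log 2) = n * (a * Real.log 2) + n * (L * Real.log 2) := by
    ring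
  have j6 : (n + 4 * D) * (a * Real.log 2) = n * (a * Real.log 2) + 4 * D * (a * Real.log 2) := by
    ring
  rw [j4, j6]
  rw [j5] at I2
  linarith

/-- **The macro step for the whole law.** -/
theorem step_b (n D : ℕ) (C₀ p₀ : ℝ) (hC₀ : 1 ≤ C₀) (hp₀ : 0 < p₀) : ∃ C₁ : ℝ, 1 ≤ C₁ ∧
    ∀ k₀ : ℕ, ∃ C₂ : ℝ, 1 ≤ C₂ ∧
    ∀ (a L : ℕ) (Ω Λ Ξ Z β : Type) [Fintype Ω] (p : Ω → ℝ) (lam : Ω → Λ)
      (x : Ω → Ξ) (T : Ξ → ℕ) (pos : Ξ → Option (Fin n) → ℕ) (A B : Λ → Option (Fin n) → ℝ)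
      (zx : Ξ → Z) (zl : Λ → ℕ → Z) (cz : Z → Option (Fin n) → ℕ)
      (G : Z → MvPolynomial (Fin n) ℝ) (κ γ N γ₀ κ' γ' : ℕ) (δ ε e₁ e₃ e₅ eT lm δ' ψ η τ : ℝ)
      (e e' : Ξ → ℝ) (bz : Z → β) (bl : Λ → β),
      StepH n a L C₀ k₀ κ γ N δ ε e₁ e₃ p lam x T pos A B zx zl cz G e →
      (∀ ω, 0 < p ω → ¬ Bad (G (zx (x ω))) (fun _ => 0) 1 D lm) →
      6 * C₀ / 2 ^ L ≤ lm → lm ≤ 1 →
      (∀ ω, 0 < p ω → bz (zx (x ω)) = bl (lam ω)) →
      (a + L) * Real.log 2 - CH p (fun ω => T (x ω)) lam ≤ eT →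
      CH p x (fun ω => (pos (x ω), bz (zx (x ω)))) ≤ e₅ →
      0 < δ' → (∀ a, 0 ≤ e' a) → NCF p lam x B δ' e' → 0 < ψ →
      (∑ ω, (open Classical in if Real.exp (-ψ) < e' (x ω) then p ω else 0)) ≤ η →
      n.factorial * (3 * C₀) ^ n ≤ δ' ^ n * 2 ^ γ' → 1 ≤ κ' → 0 < τ →
      C₁ * (a + L / κ' + γ' + κ' + 1 + (Real.exp (-(ψ / 2)) + η) * L) +
        C₂ * RR n L κ γ N ε e₁ e₃ + 4 * τ ≤ γ₀ →
      ∃ (Y : Type) (y : Z → Y) (sl : Λ → Option Y),
        (∑ ω, (open Classical in if some (y (zx (x ω))) ≠ sl (lam ω) then p ω else 0)) ≤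
          p₀ + 8 * ((n + 4 * D) * (a * Real.log 2) + Real.log ((a + L : ℕ) + 2) +
            Real.log (lm * 2 ^ L) + 2 * D * eT + e₅ + C₂ * RR n L κ γ N ε e₁ e₃) / ψ ∧
        ∀ Rr : ℕ, (D + 1) * (lm * 2 ^ (γ₀ + L)) ≤ Rr →
          CH p (fun ω => pos (x ω) none / Rr) (fun ω => (bas pos (x ω), y (zx (x ω)))) ≤
            C₂ + C₂ * RR n L κ γ N ε e₁ e₃ / τ * ((a + L) * Real.log 2) := by
  classical
  obtain ⟨C₁, hC₁, hcore⟩ := stp_core n D C₀ p₀ hC₀ hp₀
  obtain ⟨Cm, hCm, hmkg⟩ := mkg_thm n C₀ hC₀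
  have hn0 : (0 : ℝ) ≤ n := Nat.cast_nonneg n
  refine ⟨C₁ * (1 + Cm), by nlinarith, ?_⟩
  intro k₀
  obtain ⟨C₂, hC₂, hcore⟩ := hcore k₀
  obtain ⟨Cp, hCp, hprc⟩ := prc_b n D C₀ hC₀ k₀
  refine ⟨C₂ + Cp + C₁ * (n + 1), ?_, ?_⟩
  · have : 0 ≤ C₁ * (n + 1) := by positivity
    linarith
  intro a L Ω Λ Ξ Z β _ p lam x T pos A B zx zl cz G κ γ N γ₀ κ' γ' δ ε e₁ e₃ e₅ eT lm δ' ψ η τ
    e e' bz bl hF hbad hlm hlm1 hb heT he₅ hδ' he' hnc' hψ hη hγ' hκ' hτ hγ₀
  have hp := hF.step.leaf.isLaw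
  have hp0 := hp.nonneg
  set R : ℝ := RR n L κ γ N ε e₁ e₃ with hR
  obtain ⟨hR0, hR1, hR2⟩ := hF.le_RR
  rw [← hR] at hR0 hR1 hR2
  have he₁0 := hF.he₁0
  have he₃0 := hF.e₃_nonneg
  have hη0 : 0 ≤ η := le_trans (Finset.sum_nonneg fun ω _ => by
    split_ifs
    exacts [hp0 ω, le_rfl]) hη
  -- the price
  have hpr := hprc a L Ω Λ Ξ Z β p lam x T pos A B zx zl cz G κ γ N δ ε e₁ e₃ e₅ eT lm e bz bl hF
    hbad hlm hlm1 hb heT he₅
  obtain ⟨gd, hgd, hpG⟩ := price_event hp lam x zx hψ hpr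
  set E : ℝ := L / κ' + γ' + κ' + 1 + (Real.exp (-(ψ / 2)) + η) * L with hE
  have hE0 : 0 ≤ E := by
    have := Real.exp_pos (-(ψ / 2))
    positivity
  -- the masked information
  set mi : ℝ := n * e₁ + e₃ + Cm * E with hmi
  have hmi0 : 0 ≤ mi := by positivity
  have hmi' : ∀ gd' : Ξ × Z → Bool, (∀ b, gd' b = true → gd b = true) →
      CH (dbl p lam) (msk x zx gd') (fun v => zx (x v.2)) -
        CH (dbl p lam) (msk x zx gd') (fun v => x v.2) ≤ mi := fun gd' hgd' =>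
    hmkg a L Ω Λ Ξ Z p lam x T pos A B zx zl cz κ' γ' δ' ψ η e₁ e₃ e' gd' hF.step hδ' he' hnc'
      hη (fun v hv h => hgd v hv (hgd' _ h)) hγ' hκ' hF.he₁ hF.he₃
  have hγ₀' : C₁ * (a + mi) + C₂ * R + 4 * τ ≤ γ₀ := by
    refine le_trans ?_ hγ₀
    have a0 : (0 : ℝ) ≤ a := Nat.cast_nonneg a
    have h1 : C₁ * (a + mi) ≤ C₁ * (1 + Cm) * (a + L / κ' + γ' + κ' + 1 +
        (Real.exp (-(ψ / 2)) + η) * L) + C₁ * (n + 1) * R := by
      have h2 : (a : ℝ) + L / κ' + γ' + κ' + 1 + (Real.exp (-(ψ / 2)) + η) * L = a + E := by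
        rw [hE]
        ring
      rw [h2]
      have h3 : (a : ℝ) + mi ≤ (1 + Cm) * (a + E) + (n + 1) * R := by
        rw [hmi]
        have h4 : (n : ℝ) * e₁ ≤ n * R := mul_le_mul_of_nonneg_left (by linarith) hn0
        have h5 : e₃ ≤ R := by linarith
        have h6 : (1 + Cm) * (a + E) = a + E + Cm * a + Cm * E := by ring
        have h7 : 0 ≤ Cm * a := by positivity
        linarith
      have h4 := mul_le_mul_of_nonneg_left h3 (by linarith : (0 : ℝ) ≤ C₁)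
      linarith
    have h8 : 0 ≤ Cp * R := by
      have : 0 ≤ R := by linarith
      positivity
    have h9 : (C₂ + Cp + C₁ * (n + 1)) * R = C₂ * R + Cp * R + C₁ * (n + 1) * R := by ring
    rw [h9]
    linarith
  obtain ⟨Y, y, sl, hy1, hy2⟩ := hcore a L Ω Λ Ξ Z p lam x T pos A B zx zl cz G κ γ N γ₀ δ ε e₁
    e₃ lm mi _ τ e gd hF hbad hlm hlm1 hτ hmi0 hmi' hpG hγ₀'
  refine ⟨Y, y, sl, hy1.trans ?_, ?_⟩
  · have hR00 : 0 ≤ R := by linarith
    have h1 : Cp * R ≤ (C₂ + Cp + C₁ * (n + 1)) * R := by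
      refine mul_le_mul_of_nonneg_right ?_ hR00
      have : 0 ≤ C₁ * (n + 1) := by positivity
      linarith
    rw [← hR]
    have h2 : 4 * (2 * ((n + 4 * D) * (a * Real.log 2) + Real.log ((a + L : ℕ) + 2) +
        Real.log (lm * 2 ^ L) + 2 * D * eT + e₅ + Cp * R) / ψ) =
        8 * ((n + 4 * D) * (a * Real.log 2) + Real.log ((a + L : ℕ) + 2) +
        Real.log (lm * 2 ^ L) + 2 * D * eT + e₅ + Cp * R) / ψ := by ring
    rw [h2]
    have h3 : 8 * ((n + 4 * D) * (a * Real.log 2) + Real.log ((a + L : ℕ) + 2) +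
        Real.log (lm * 2 ^ L) + 2 * D * eT + e₅ + Cp * R) / ψ ≤
        8 * ((n + 4 * D) * (a * Real.log 2) + Real.log ((a + L : ℕ) + 2) +
        Real.log (lm * 2 ^ L) + 2 * D * eT + e₅ + (C₂ + Cp + C₁ * (n + 1)) * R) / ψ :=
      div_le_div_of_nonneg_right (by linarith) hψ.le
    linarith
  · intro Rr hRr
    refine (hy2 Rr hRr).trans ?_
    rw [← hR]
    have haL : 0 ≤ ((a : ℝ) + L) * Real.log 2 := by
      have : (0 : ℝ) ≤ Real.log 2 := Real.log_nonneg (by norm_num)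
      positivity
    have h0 : 0 ≤ C₁ * ((n : ℝ) + 1) := by positivity
    have h1 : C₂ * R / τ * ((a + L) * Real.log 2) ≤
        (C₂ + Cp + C₁ * (n + 1)) * R / τ * ((a + L) * Real.log 2) := by
      refine mul_le_mul_of_nonneg_right ?_ haL
      refine div_le_div_of_nonneg_right ?_ hτ.le
      exact mul_le_mul_of_nonneg_right (by linarith) (by linarith)
    linarith

/-- The price in codimension `c` for the whole law. -/
theorem prc_cb (n D c : ℕ) (C₀ : ℝ) (hC₀ : 1 ≤ C₀) (k₀ : ℕ) : ∃ C : ℝ, 1 ≤ C ∧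
    ∀ (ι : Type) [Fintype ι] [Nonempty ι], Fintype.card ι = c →
    ∀ (a L : ℕ) (Ω Λ Ξ Z β : Type) [Fintype Ω] (p : Ω → ℝ) (lam : Ω → Λ)
      (x : Ω → Ξ) (T : Ξ → ℕ) (base : Ξ → Fin n → ℕ) (pas : Ξ → ι → ℕ)
      (A B : ι → Λ → Option (Fin n) → ℝ) (zx : Ξ → Z) (zl : Λ → ℕ → Z)
      (cz : ι → Z → Option (Fin n) → ℕ) (G : ι → Z → MvPolynomial (Fin n) ℝ) (κ γ N : ℕ)
      (δ ε e₁ e₃ e₅ eT lm : ℝ) (e : Ξ → ℝ) (bz : Z → β) (bl : Λ → β),
      (∀ i, StepH n a L C₀ k₀ κ γ N δ ε e₁ e₃ p lam x T (ppos base pas i) (A i) (B i) zx zl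
        (cz i) (G i) e) →
      (∀ i ω, 0 < p ω → ¬ Bad (G i (zx (x ω))) (fun _ => 0) 1 D lm) →
      6 * C₀ / 2 ^ L ≤ lm → lm ≤ 1 →
      (∀ ω, 0 < p ω → bz (zx (x ω)) = bl (lam ω)) →
      (a + L) * Real.log 2 - CH p (fun ω => T (x ω)) lam ≤ eT →
      CH p x (fun ω => (base (x ω), pas (x ω), bz (zx (x ω)))) ≤ e₅ →
      CH (dbl p lam) (fun v => zx (x v.1)) (fun v => x v.2) ≤
        n * (a * Real.log 2) + c * (4 * D * (a * Real.log 2) + Real.log ((a + L : ℕ) + 2) +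
          Real.log (lm * 2 ^ L) + 2 * D * eT) + e₅ + C * RR n L κ γ N ε e₁ e₃ := by
  classical
  obtain ⟨Cc, hCc, hcnt⟩ := cnt n D C₀ hC₀ k₀
  have h3C : (1 : ℝ) ≤ 3 * C₀ := by linarith
  obtain ⟨Cu, hCu, hful⟩ := fulh_thm n (3 * C₀) h3C
  have hn0 : (0 : ℝ) ≤ n := Nat.cast_nonneg n
  have hc0 : (0 : ℝ) ≤ c := Nat.cast_nonneg c
  refine ⟨c * Cc + Cu + n + 1, by
    have : 0 ≤ (c : ℝ) * Cc := by positivity
    linarith, ?_⟩
  intro ι _ _ hι a L Ω Λ Ξ Z β _ p lam x T base pas A B zx zl cz G κ γ N δ ε e₁ e₃ e₅ eT lm e bz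
    bl hF hbad hlm hlm1 hb heT he₅
  obtain ⟨i₀⟩ := ‹Nonempty ι›
  have hF₀ := hF i₀
  have hp := hF₀.step.leaf.isLaw
  have hp0 := hp.nonneg
  have hC0 : (0 : ℝ) < C₀ := by linarith
  set q := dbl p lam with hqdef
  have hq0 : ∀ v, 0 ≤ q v := dbl_nonneg hp0
  have m1 : Marg q p (fun v => v.1) := dbl_fst hp0
  have m2 : Marg q p (fun v => v.2) := dbl_snd hp0
  have hq : IsLaw q := ⟨hq0, by rw [m1.sum]; exact hp.sum_one⟩
  set R : ℝ := RR n L κ γ N ε e₁ e₃ with hR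
  obtain ⟨hR0, hR1, hR2⟩ := hF₀.le_RR
  rw [← hR] at hR0 hR1 hR2
  have hγ3 : n.factorial * (3 * C₀) ^ n ≤ δ ^ n * 2 ^ γ := by
    refine le_trans ?_ hF₀.hγ
    have h1 : (0 : ℝ) ≤ n.factorial := Nat.cast_nonneg _
    refine mul_le_mul_of_nonneg_left ?_ h1
    exact pow_le_pow_left₀ (by linarith) (by linarith) _
  -- the count
  have hcn : ∀ i, CH q (fun v => pas (x v.2) i) (fun v => (base (x v.2), zx (x v.1))) ≤
      Real.log ((a + L : ℕ) + 2) + Real.log (lm * 2 ^ L) +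
          (4 * D * (a * Real.log 2) + 2 * D * eT) +
          Cc * (e₁ + L / κ + γ + κ + 1 + ε * L) := fun i =>
    hcnt a L Ω Λ Ξ Z p lam x T (ppos base pas i) (A i) (B i) zx zl (cz i) (G i) κ γ δ ε e₁ eT lm
      e (hF i).step (hF i).reg (hF i).gr (hbad i) hlm hlm1 (hF i).hδ (hF i).he (hF i).hex
      (hF i).hnc hγ3 (hF i).hκ (hF i).he₁ (hF i).he₁0 heT
  -- the fullness
  have hfu := hful Ω (Λ × ℕ) Ξ Z p (lamS lam x T L) x (TS T L) (posS (ppos base pas i₀) L)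
    (AS (A i₀) (B i₀) zl (cz i₀) a) (BS (B i₀)) zx (fun l => zl l.1 l.2) L κ γ δ ε e₁ e
    (hF₀.step.small hC₀) (fun ω _ => hF₀.step.lab ω) hF₀.hδ hF₀.he hF₀.hex
    (NCF_small hF₀.hnc) hγ3 hF₀.hκ hF₀.he₁
  -- the entropies
  have I1 : CH q (fun v => zx (x v.1)) (fun v => x v.2) =
      CH q (fun v => x v.2) (fun v => zx (x v.1)) - CH p x (fun ω => zx (x ω)) := by
    have a1 : H q (fun v => (zx (x v.1), x v.2)) = H q (fun v => (x v.2, zx (x v.1))) := by
      refine H_congr hq0 ?_ ?_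
      · intro v v' _ _ h
        simp only [Prod.mk.injEq] at h ⊢
        tauto
      · intro v v' _ _ h
        simp only [Prod.mk.injEq] at h ⊢
        tauto
    have a2 : H q (fun v => x v.2) = H p x := m2.H x
    have a3 : H q (fun v => zx (x v.1)) = H p (fun ω => zx (x ω)) := m1.H (fun ω => zx (x ω))
    have a4 : H p (fun ω => (x ω, zx (x ω))) = H p x := by
      refine H_congr hp0 ?_ ?_
      · intro ω ω' _ _ h
        have h1 : x ω = x ω' := h
        simp only [h1]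
      · intro ω ω' _ _ h
        exact (Prod.ext_iff.mp h).1
    unfold CH
    rw [a1, a2, a3, a4]
    ring
  have I2 : CH q (fun v => x v.2) (fun v => zx (x v.1)) ≤
      n * ((a + L) * Real.log 2) + c * (Real.log ((a + L : ℕ) + 2) + Real.log (lm * 2 ^ L) +
          (4 * D * (a * Real.log 2) + 2 * D * eT) +
          Cc * (e₁ + L / κ + γ + κ + 1 + ε * L)) + e₅ := by
    have b1 := CH_le_add hq0 (fun v => x v.2) (fun v => base (x v.2)) (fun v => zx (x v.1))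
    have b2 := CH_le_add hq0 (fun v => x v.2) (fun v => pas (x v.2))
      (fun v => (base (x v.2), zx (x v.1)))
    have b3 : CH q (fun v => x v.2)
        (fun v => (pas (x v.2), (base (x v.2), zx (x v.1)))) ≤ e₅ := by
      have c1 : CH q (fun v => x v.2) (fun v => (base (x v.2), pas (x v.2), bz (zx (x v.2)))) =
          CH p x (fun ω => (base (x ω), pas (x ω), bz (zx (x ω)))) :=
        m2.CH x (fun ω => (base (x ω), pas (x ω), bz (zx (x ω))))
      rw [← c1] at he₅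
      refine le_trans (CH_mono_cond hq0 ?_) he₅
      intro v v' hv hv' h
      simp only [Prod.mk.injEq] at h ⊢
      have d1 : ∀ w : Ω × Ω, 0 < q w → bz (zx (x w.2)) = bz (zx (x w.1)) := fun w hw => by
        rw [hb w.2 (m2.pos hq0 hw), hb w.1 (m1.pos hq0 hw), dbl_eq hp0 hw]
      exact ⟨h.2.1, h.1, by rw [d1 v hv, d1 v' hv', h.2.2]⟩
    have b4 : CH q (fun v => base (x v.2)) (fun v => zx (x v.1)) ≤
        n * ((a + L) * Real.log 2) := by
      have h1 := CH_le_card hq0 hq.sum_one (fun v => base (x v.2)) (fun v => zx (x v.1))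
        (fun _ => Fintype.piFinset (fun _ : Fin n => Finset.range (2 ^ (a + L)))) (by
        intro v _
        rw [Fintype.mem_piFinset]
        intro i
        rw [Finset.mem_range]
        exact hF₀.step.leaf.pos_lt v.2 (some i))
      refine h1.trans (le_of_eq ?_)
      have h2 : (((Fintype.piFinset (fun _ : Fin n => Finset.range (2 ^ (a + L)))).card : ℕ) :
          ℝ) = (2 : ℝ) ^ ((a + L) * n) := by
        rw [Fintype.card_piFinset]
        simp only [Finset.card_range, Finset.prod_const, Finset.card_univ, Fintype.card_fin]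
        push_cast
        rw [← pow_mul]
      simp only [h2]
      rw [Ex_const hq.sum_one, Real.log_pow]
      push_cast
      ring
    have b5 := CH_pi_le hq0 (fun v => pas (x v.2)) (fun v => (base (x v.2), zx (x v.1)))
    have b6 := Finset.sum_le_sum (s := (univ : Finset ι)) fun i _ => hcn i
    rw [Finset.sum_const, Finset.card_univ, hι, nsmul_eq_mul] at b6
    linarith
  have I3 : n * (L * Real.log 2) - (n * e₁ + Cu * (L / κ + γ + κ + 1 + ε * L)) ≤
      CH p x (fun ω => zx (x ω)) := by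
    have h1 : CH p (fun ω => bas (posS (ppos base pas i₀) L) (x ω)) (fun ω => zx (x ω)) ≤
        CH p x (fun ω => zx (x ω)) := CH_mono_left hp0 (by
      intro ω ω' _ _ h
      have h1 : x ω = x ω' := (Prod.ext_iff.mp h).1
      simp only [h1])
    linarith
  rw [I1]
  have he₁0 := hF₀.he₁0
  have he₃0 := hF₀.e₃_nonneg
  have j1 : c * (Cc * (e₁ + L / κ + γ + κ + 1 + ε * L)) ≤ c * Cc * R := by
    have h1 : Cc * (e₁ + L / κ + γ + κ + 1 + ε * L) ≤ Cc * R :=
      mul_le_mul_of_nonneg_left hR0 (by linarith)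
    have h2 := mul_le_mul_of_nonneg_left h1 hc0
    linarith
  have j2 : Cu * (L / κ + γ + κ + 1 + ε * L) ≤ Cu * R :=
    mul_le_mul_of_nonneg_left (by linarith) hCu
  have j3 : (n : ℝ) * e₁ ≤ n * R := mul_le_mul_of_nonneg_left (by linarith) hn0
  have j4 : (c * Cc + Cu + n + 1) * R = c * Cc * R + Cu * R + n * R + R := by ring
  have j5 : (n : ℝ) * ((a + L) * Real.log 2) = n * (a * Real.log 2) + n * (L * Real.log 2) := by
    ring
  have j7 : c * (Real.log ((a + L : ℕ) + 2) + Real.log (lm * 2 ^ L) +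
          (4 * D * (a * Real.log 2) + 2 * D * eT) +
          Cc * (e₁ + L / κ + γ + κ + 1 + ε * L)) =
      c * (4 * D * (a * Real.log 2) + Real.log ((a + L : ℕ) + 2) +
          Real.log (lm * 2 ^ L) + 2 * D * eT) +
        c * (Cc * (e₁ + L / κ + γ + κ + 1 + ε * L)) := by ring
  rw [j4]
  rw [j5, j7] at I2
  linarith

/-- **The macro step in codimension `c` for the whole law.** -/
theorem step_cb (n D c : ℕ) (C₀ p₀ : ℝ) (hC₀ : 1 ≤ C₀) (hp₀ : 0 < p₀) : ∃ C₁ : ℝ, 1 ≤ C₁ ∧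
    ∀ k₀ : ℕ, ∃ C₂ : ℝ, 1 ≤ C₂ ∧
    ∀ (ι : Type) [Fintype ι] [Nonempty ι], Fintype.card ι = c →
    ∀ (a L : ℕ) (Ω Λ Ξ Z β : Type) [Fintype Ω] (p : Ω → ℝ) (lam : Ω → Λ)
      (x : Ω → Ξ) (T : Ξ → ℕ) (base : Ξ → Fin n → ℕ) (pas : Ξ → ι → ℕ)
      (A B : ι → Λ → Option (Fin n) → ℝ) (zx : Ξ → Z) (zl : Λ → ℕ → Z)
      (cz : ι → Z → Option (Fin n) → ℕ) (G : ι → Z → MvPolynomial (Fin n) ℝ)
      (κ γ N γ₀ κ' γ' : ℕ) (δ ε e₁ e₃ e₅ eT lm δ' ψ η τ : ℝ) (e e' : Ξ → ℝ)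
      (bz : Z → β) (bl : Λ → β),
      (∀ i, StepH n a L C₀ k₀ κ γ N δ ε e₁ e₃ p lam x T (ppos base pas i) (A i) (B i) zx zl
        (cz i) (G i) e) →
      (∀ i ω, 0 < p ω → ¬ Bad (G i (zx (x ω))) (fun _ => 0) 1 D lm) →
      6 * C₀ / 2 ^ L ≤ lm → lm ≤ 1 →
      (∀ ω, 0 < p ω → bz (zx (x ω)) = bl (lam ω)) →
      (a + L) * Real.log 2 - CH p (fun ω => T (x ω)) lam ≤ eT →
      CH p x (fun ω => (base (x ω), pas (x ω), bz (zx (x ω)))) ≤ e₅ →
      0 < δ' → (∀ a, 0 ≤ e' a) → (∀ i, NCF p lam x (B i) δ' e') → 0 < ψ →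
      (∑ ω, (open Classical in if Real.exp (-ψ) < e' (x ω) then p ω else 0)) ≤ η →
      n.factorial * (3 * C₀) ^ n ≤ δ' ^ n * 2 ^ γ' → 1 ≤ κ' → 0 < τ →
      C₁ * (a + L / κ' + γ' + κ' + 1 + (Real.exp (-(ψ / 2)) + η) * L) +
        C₂ * RR n L κ γ N ε e₁ e₃ + 4 * τ ≤ γ₀ →
      ∃ (y : Z → ι → Set Z) (sl : Λ → Option (ι → Set Z)),
        (∑ ω, (open Classical in if some (y (zx (x ω))) ≠ sl (lam ω) then p ω else 0)) ≤
          p₀ + 8 * c * (n * (a * Real.log 2) + c * (4 * D * (a * Real.log 2) +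
            Real.log ((a + L : ℕ) + 2) + Real.log (lm * 2 ^ L) + 2 * D * eT) + e₅ +
            C₂ * RR n L κ γ N ε e₁ e₃) / ψ ∧
        ∀ Rr : ℕ, (D + 1) * (lm * 2 ^ (γ₀ + L)) ≤ Rr →
          ∀ i, CH p (fun ω => pas (x ω) i / Rr) (fun ω => (base (x ω), y (zx (x ω)))) ≤
            C₂ + C₂ * RR n L κ γ N ε e₁ e₃ / τ * ((a + L) * Real.log 2) := by
  classical
  have hc0 : (0 : ℝ) ≤ c := Nat.cast_nonneg c
  obtain ⟨C₁, hC₁, hcore⟩ := stp_core n D C₀ (p₀ / (c + 1)) hC₀ (by positivity)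
  obtain ⟨Cm, hCm, hmkg⟩ := mkg_thm n C₀ hC₀
  have hn0 : (0 : ℝ) ≤ n := Nat.cast_nonneg n
  refine ⟨C₁ * (1 + Cm), by nlinarith, ?_⟩
  intro k₀
  obtain ⟨C₂, hC₂, hcore⟩ := hcore k₀
  obtain ⟨Cp, hCp, hprc⟩ := prc_cb n D c C₀ hC₀ k₀
  refine ⟨C₂ + Cp + C₁ * (n + 1), ?_, ?_⟩
  · have : 0 ≤ C₁ * ((n : ℝ) + 1) := by positivity
    linarith
  intro ι _ _ hι a L Ω Λ Ξ Z β _ p lam x T base pas A B zx zl cz G κ γ N γ₀ κ' γ' δ ε e₁ e₃ e₅ eT
    lm δ' ψ η τ e e' bz bl hF hbad hlm hlm1 hb heT he₅ hδ' he' hnc' hψ hη hγ' hκ' hτ hγ₀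
  have i₀ : ι := Classical.choice ‹Nonempty ι›
  have hF₀ := hF i₀
  have hp := hF₀.step.leaf.isLaw
  have hp0 := hp.nonneg
  set R : ℝ := RR n L κ γ N ε e₁ e₃ with hR
  obtain ⟨hR0, hR1, hR2⟩ := hF₀.le_RR
  rw [← hR] at hR0 hR1 hR2
  have he₁0 := hF₀.he₁0
  have he₃0 := hF₀.e₃_nonneg
  have hη0 : 0 ≤ η := le_trans (Finset.sum_nonneg fun ω _ => by
    split_ifs
    exacts [hp0 ω, le_rfl]) hη
  -- the price
  have hpr := hprc ι hι a L Ω Λ Ξ Z β p lam x T base pas A B zx zl cz G κ γ N δ ε e₁ e₃ e₅ eT lm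
    e bz bl hF hbad hlm hlm1 hb heT he₅
  obtain ⟨gd, hgd, hpG⟩ := price_event hp lam x zx hψ hpr
  set E : ℝ := L / κ' + γ' + κ' + 1 + (Real.exp (-(ψ / 2)) + η) * L with hE
  have hE0 : 0 ≤ E := by
    have := Real.exp_pos (-(ψ / 2))
    positivity
  -- the masked information
  set mi : ℝ := n * e₁ + e₃ + Cm * E with hmi
  have hmi0 : 0 ≤ mi := by positivity
  have hmi' : ∀ i, ∀ gd' : Ξ × Z → Bool, (∀ b, gd' b = true → gd b = true) →
      CH (dbl p lam) (msk x zx gd') (fun v => zx (x v.2)) -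
        CH (dbl p lam) (msk x zx gd') (fun v => x v.2) ≤ mi := fun i gd' hgd' =>
    hmkg a L Ω Λ Ξ Z p lam x T (ppos base pas i) (A i) (B i) zx zl (cz i) κ' γ' δ' ψ η e₁ e₃ e'
      gd' (hF i).step hδ' he' (hnc' i) hη (fun v hv h => hgd v hv (hgd' _ h)) hγ' hκ' (hF i).he₁
      (hF i).he₃
  have hγ₀' : C₁ * (a + mi) + C₂ * R + 4 * τ ≤ γ₀ := by
    refine le_trans ?_ hγ₀
    have a0 : (0 : ℝ) ≤ a := Nat.cast_nonneg a
    have h1 : C₁ * (a + mi) ≤ C₁ * (1 + Cm) * (a + L / κ' + γ' + κ' + 1 +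
        (Real.exp (-(ψ / 2)) + η) * L) + C₁ * (n + 1) * R := by
      have h2 : (a : ℝ) + L / κ' + γ' + κ' + 1 + (Real.exp (-(ψ / 2)) + η) * L = a + E := by
        rw [hE]
        ring
      rw [h2]
      have h3 : (a : ℝ) + mi ≤ (1 + Cm) * (a + E) + (n + 1) * R := by
        rw [hmi]
        have h4 : (n : ℝ) * e₁ ≤ n * R := mul_le_mul_of_nonneg_left (by linarith) hn0
        have h5 : e₃ ≤ R := by linarith
        have h6 : (1 + Cm) * (a + E) = a + E + Cm * a + Cm * E := by ring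
        have h7 : 0 ≤ Cm * a := by positivity
        linarith
      have h4 := mul_le_mul_of_nonneg_left h3 (by linarith : (0 : ℝ) ≤ C₁)
      linarith
    have h8 : 0 ≤ Cp * R := by
      have : 0 ≤ R := by linarith
      positivity
    have h9 : (C₂ + Cp + C₁ * (n + 1)) * R = C₂ * R + Cp * R + C₁ * (n + 1) * R := by ring
    rw [h9]
    linarith
  -- the step for one coordinate
  have hone : ∀ i : ι, ∃ (y : Z → Set Z) (sl : Λ → Option (Set Z)),
      (∑ ω, if some (y (zx (x ω))) ≠ sl (lam ω) then p ω else 0) ≤ p₀ / (c + 1) +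
        4 * (2 * (n * (a * Real.log 2) + c * (4 * D * (a * Real.log 2) +
            Real.log ((a + L : ℕ) + 2) + Real.log (lm * 2 ^ L) + 2 * D * eT) + e₅ +
            Cp * R) / ψ) ∧
      ∀ Rr : ℕ, (D + 1) * (lm * 2 ^ (γ₀ + L)) ≤ Rr →
        CH p (fun ω => pas (x ω) i / Rr) (fun ω => (base (x ω), y (zx (x ω)))) ≤
            C₂ + C₂ * R / τ * ((a + L) * Real.log 2) := by
    intro i
    obtain ⟨Y, y, sl, hy1, hy2⟩ := hcore a L Ω Λ Ξ Z p lam x T (ppos base pas i) (A i) (B i) zx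
      zl (cz i) (G i) κ γ N γ₀ δ ε e₁ e₃ lm mi _ τ e gd (hF i) (hbad i) hlm hlm1 hτ hmi0
      (hmi' i) hpG hγ₀'
    refine ⟨fun ζ => {ζ' | y ζ' = y ζ}, fun l => (sl l).map fun t => {ζ' | y ζ' = t}, ?_, ?_⟩
    · refine le_trans (Finset.sum_le_sum fun ω _ => ?_) hy1
      have h0 := hp0 ω
      by_cases h1 : some (y (zx (x ω))) = sl (lam ω)
      · have h2 : some ({ζ' | y ζ' = y (zx (x ω))} : Set Z) =
            (sl (lam ω)).map fun t => {ζ' | y ζ' = t} := by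
          rw [← h1]
          rfl
        rw [if_neg (not_not.mpr h2)]
        split_ifs
        exacts [h0, le_rfl]
      · rw [if_pos h1]
        split_ifs
        exacts [le_rfl, h0]
    · intro Rr hRr
      refine le_trans (CH_mono_cond hp0 ?_) (hy2 Rr hRr)
      intro ω ω' _ _ hh
      have h1 : base (x ω) = base (x ω') := (Prod.ext_iff.mp hh).1
      have h2 : ({ζ' | y ζ' = y (zx (x ω))} : Set Z) = {ζ' | y ζ' = y (zx (x ω'))} :=
        (Prod.ext_iff.mp hh).2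
      refine Prod.ext h1 ?_
      have h3 : zx (x ω) ∈ ({ζ' | y ζ' = y (zx (x ω))} : Set Z) := rfl
      rw [h2] at h3
      exact h3
  choose yi sli hy1 hy2 using hone
  refine ⟨fun ζ i => yi i ζ, fun l => if ∀ i, (sli i l).isSome then
    some (fun i => (sli i l).getD ∅) else none, ?_, ?_⟩
  · have h1 : (∑ ω, if some (fun i => yi i (zx (x ω))) ≠ (if ∀ i, (sli i (lam ω)).isSome then
        some (fun i => (sli i (lam ω)).getD ∅) else none) then p ω else 0) ≤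
        ∑ i, ∑ ω, (if some (yi i (zx (x ω))) ≠ sli i (lam ω) then p ω else 0) := by
      rw [Finset.sum_comm]
      refine Finset.sum_le_sum fun ω _ => ?_
      have h0 := hp0 ω
      have hnn : ∀ i ∈ (univ : Finset ι),
          0 ≤ (if some (yi i (zx (x ω))) ≠ sli i (lam ω) then p ω else 0) := by
        intro i _
        split_ifs
        exacts [h0, le_rfl]
      by_cases h2 : ∀ i, some (yi i (zx (x ω))) = sli i (lam ω)
      · have h3 : ∀ i, (sli i (lam ω)).isSome := fun i => by rw [← h2 i]; rfl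
        have h4 : some (fun i => yi i (zx (x ω))) = (if ∀ i, (sli i (lam ω)).isSome then
            some (fun i => (sli i (lam ω)).getD ∅) else none) := by
          rw [if_pos h3]
          congr 1
          funext i
          rw [← h2 i]
          rfl
        rw [if_neg (not_not.mpr h4)]
        exact Finset.sum_nonneg hnn
      · push Not at h2
        obtain ⟨i, hi⟩ := h2
        refine le_trans ?_ (Finset.single_le_sum hnn (Finset.mem_univ i))
        rw [if_pos hi]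
        have hle : ∀ (P : Prop) [Decidable P], (if P then p ω else 0) ≤ p ω := fun P _ => by
          split_ifs
          exacts [le_rfl, h0]
        exact hle _
    have h5 := h1.trans (Finset.sum_le_sum fun i _ => hy1 i)
    rw [Finset.sum_const, Finset.card_univ, hι, nsmul_eq_mul] at h5
    refine le_trans (le_trans (le_of_eq (Finset.sum_congr rfl fun ω _ => ite_dec _ _ _ _ _))
      h5) ?_
    have hR00 : 0 ≤ R := by linarith
    have h6 : c * (p₀ / (c + 1)) ≤ p₀ := by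
      rw [mul_div_assoc', div_le_iff₀ (by positivity)]
      linarith
    have h7 : Cp * R ≤ (C₂ + Cp + C₁ * (n + 1)) * R := by
      refine mul_le_mul_of_nonneg_right ?_ hR00
      have : 0 ≤ C₁ * ((n : ℝ) + 1) := by positivity
      linarith
    set S : ℝ := n * (a * Real.log 2) + c * (4 * D * (a * Real.log 2) +
            Real.log ((a + L : ℕ) + 2) + Real.log (lm * 2 ^ L) + 2 * D * eT) + e₅ with hS
    have h8 : c * (p₀ / (c + 1) + 4 * (2 * (S + Cp * R) / ψ)) =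
        c * (p₀ / (c + 1)) + 8 * c * (S + Cp * R) / ψ := by ring
    rw [h8]
    have h9 : 8 * c * (S + Cp * R) / ψ ≤ 8 * c * (S + (C₂ + Cp + C₁ * (n + 1)) * R) / ψ := by
      refine div_le_div_of_nonneg_right ?_ hψ.le
      exact mul_le_mul_of_nonneg_left (by linarith) (by positivity)
    linarith
  · intro Rr hRr i
    refine (CH_mono_cond hp0 ?_).trans ((hy2 i Rr hRr).trans ?_)
    · intro ω ω' _ _ hh
      have h1 : base (x ω) = base (x ω') := (Prod.ext_iff.mp hh).1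
      have h2 : (fun i => yi i (zx (x ω))) = fun i => yi i (zx (x ω')) :=
        (Prod.ext_iff.mp hh).2
      exact Prod.ext h1 (congrFun h2 i)
    · have haL : 0 ≤ ((a : ℝ) + L) * Real.log 2 := by
        have : (0 : ℝ) ≤ Real.log 2 := Real.log_nonneg (by norm_num)
        positivity
      have h0 : 0 ≤ C₁ * ((n : ℝ) + 1) := by positivity
      have h1 : C₂ * R / τ * ((a + L) * Real.log 2) ≤
          (C₂ + Cp + C₁ * (n + 1)) * R / τ * ((a + L) * Real.log 2) := by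
        refine mul_le_mul_of_nonneg_right ?_ haL
        refine div_le_div_of_nonneg_right ?_ hτ.le
        exact mul_le_mul_of_nonneg_right (by linarith) (by linarith)
      linarith

end Pool.KS3
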