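import Pool.Agent.H82.KSP.DEL

/-!
# Remez inequality along the line, in both directions

`one_gen` is row ONE with an arbitrary variable `c` and the deficit of the time of the first
incidence; `two` goes from the first incidence to the second one, for a variable `c` of the first
incidence.
-/

set_option autoImplicit false

namespace Pool.KS3

open Finset Real
open Pool.Agent.H49.Ent Pool.Agent.H32.Dense Pool.STK Pool.KAF Pool.KAL Pool.KST

/-- Row ONE for an arbitrary variable. -/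
lemma one_gen (n D : ℕ) (C₀ : ℝ) (hC₀ : 1 ≤ C₀) :
    ∃ C : ℝ, 0 ≤ C ∧ ∀ (a L : ℕ) (Ω Λ Ξ Z Γ : Type) [Fintype Ω] (p : Ω → ℝ) (lam : Ω → Λ)
      (x : Ω → Ξ) (T : Ξ → ℕ) (pos : Ξ → Option (Fin n) → ℕ) (A B : Λ → Option (Fin n) → ℝ)
      (zx : Ξ → Z) (zl : Λ → ℕ → Z) (cz : Z → Option (Fin n) → ℕ) (s : ℝ) (c : Ω × Ω → Γ)
      (P : Γ → MvPolynomial (Option (Fin n)) ℝ) (e₁ : ℝ),
      StepF n a L C₀ p lam x T pos A B zx zl cz → 0 < s → s ≤ 1 →
      (∀ v, 0 < dbl p lam v → P (c v) ≠ 0 ∧ (P (c v)).totalDegree ≤ D) →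
      (a + L) * Real.log 2 - CH (dbl p lam) (fun v => T (x v.1))
        (fun v => (lam v.1, (c v, ()))) ≤ e₁ →
      Ex (dbl p lam) (fun v => Real.log (PsiC s (P (c v)) (6 * C₀ / 2 ^ (a + L))
        (rp (2 ^ (a + L)) pos (x v.2)))) ≤
        Ex (dbl p lam) (fun v => Real.log (PsiC s (P (c v)) (6 * C₀ / 2 ^ (a + L))
          (rp (2 ^ (a + L)) pos (x v.1)))) + 2 * D * e₁ + C := by
  classical
  have h6 : (1 : ℝ) ≤ 6 * C₀ := by linarith
  obtain ⟨c₁, hc₁, hlin⟩ := lin_thm n D (6 * C₀) h6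
  obtain ⟨C, hC, hstp⟩ := stp D
  refine ⟨2 * D * C + 2 * c₁, by positivity, ?_⟩
  intro a L Ω Λ Ξ Z Γ _ p lam x T pos A B zx zl cz s c P e₁ hF hs0 hs1 hP he₁
  have hp := hF.leaf.isLaw
  have hp0 := hp.nonneg
  have hq0 : ∀ v, 0 ≤ dbl p lam v := dbl_nonneg hp0
  have m1 : Marg (dbl p lam) p (fun v => v.1) := dbl_fst hp0
  have hq : IsLaw (dbl p lam) := ⟨hq0, by rw [m1.sum]; exact hp.sum_one⟩
  set M : ℕ := 2 ^ (a + L) with hMdef
  have hM1 : 1 ≤ M := Nat.one_le_two_pow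
  have hMr : (M : ℝ) = 2 ^ (a + L) := by rw [hMdef]; push_cast; rfl
  have hM0 : (0 : ℝ) < M := by exact_mod_cast hM1
  have hlM : Real.log M = (a + L) * Real.log 2 := by
    rw [hMr, Real.log_pow]
    push_cast
    ring
  -- the polynomial along the line
  have hex : ∀ (P : MvPolynomial (Option (Fin n)) ℝ) (a b : Option (Fin n) → ℝ),
      ∃ (m : ℝ) (g : Polynomial ℝ), P ≠ 0 → P.totalDegree ≤ D → (∀ i, |b i| ≤ 6 * C₀) →
      g.natDegree ≤ D ∧ (∃ s ∈ Set.Icc (0 : ℝ) 1, Real.exp m ≤ |g.eval s|) ∧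
      ∀ t ∈ Set.Icc (0 : ℝ) 1, ∀ z : Option (Fin n) → ℝ,
        (∀ i, |z i - (a i + t * b i)| ≤ 6 * C₀ / M) →
        |g.eval t| ≤ Real.exp (Real.log (Psi P (6 * C₀ / M) z) + c₁) ∧
        m - D * Real.log M ≤ Real.log (Psi P (6 * C₀ / M) z) + c₁ ∧
        Real.log (Psi P (6 * C₀ / M) z) ≤ m + c₁ := by
    intro P a b
    by_cases h : P ≠ 0 ∧ P.totalDegree ≤ D ∧ ∀ i, |b i| ≤ 6 * C₀
    · obtain ⟨m, g, hg⟩ := hlin M P a b hM1 h.1 h.2.1 h.2.2
      exact ⟨m, g, fun _ _ _ => hg⟩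
    · exact ⟨0, 0, fun h1 h2 h3 => absurd ⟨h1, h2, h3⟩ h⟩
  choose mm gg hmg using hex
  have hPc : ∀ v, 0 < dbl p lam v → ctr s (P (c v)) ≠ 0 ∧ (ctr s (P (c v))).totalDegree ≤ D :=
    fun v hv => ⟨ctr_ne_zero hs0.ne' (hP v hv).1, (totalDegree_ctr_le _).trans (hP v hv).2⟩
  have hB : ∀ ω k, |cpt s (B (lam ω)) k| ≤ 6 * C₀ := by
    intro ω k
    have h1 := hF.leaf.B_le ω
    cases k with
    | none =>
      simp only [cpt, Option.elim]
      rw [abs_mul, abs_of_pos hs0]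
      have h2 := h1 none
      have h3 := abs_nonneg (B (lam ω) none)
      nlinarith
    | some i =>
      simp only [cpt, Option.elim]
      have := h1 (some i)
      linarith
  have hnear : ∀ ω, ((T (x ω) : ℝ) / M ∈ Set.Icc (0 : ℝ) 1) ∧
      ∀ i, |cpt s (rp M pos (x ω)) i - (cpt s (A (lam ω)) i +
        (T (x ω) : ℝ) / M * cpt s (B (lam ω)) i)| ≤ 6 * C₀ / M := by
    intro ω
    have h1 := hF.near_line ω
    refine ⟨h1.1, fun i => (cpt_near hs0 hs1 h1.2 i).trans ?_⟩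
    exact div_le_div_of_nonneg_right (by linarith) hM0.le
  have key := hstp (Ω × Ω) Ξ Λ Γ Unit Unit (dbl p lam) M (fun v => x v.1) (fun v => x v.2)
    (fun v => lam v.1) c (fun _ => ()) (fun v => T (x v.1))
    (fun b ξ => Real.log (PsiC s (P b) (6 * C₀ / M) (rp M pos ξ)))
    (fun b ll => mm (ctr s (P b)) (cpt s (A ll)) (cpt s (B ll)))
    (fun b ll _ => gg (ctr s (P b)) (cpt s (A ll)) (cpt s (B ll))) c₁ hq
    (fun v => hF.leaf.T_lt v.1)
    (by
      intro v hv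
      have h1 := hPc v hv
      have h3 := hmg (ctr s (P (c v))) (cpt s (A (lam v.1))) (cpt s (B (lam v.1))) h1.1 h1.2
        (hB v.1)
      refine ⟨(), h3.1, h3.2.1, ?_⟩
      intro v' hv' hb hl
      have h4 := hnear v'.1
      rw [hl] at h4
      rw [hb]
      exact (h3.2.2 _ h4.1 _ h4.2).1)
    (by
      intro v hv
      have h1 := hPc v hv
      have h3 := hmg (ctr s (P (c v))) (cpt s (A (lam v.1))) (cpt s (B (lam v.1))) h1.1 h1.2
        (hB v.1)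
      have h4 := hnear v.1
      exact (h3.2.2 _ h4.1 _ h4.2).2.1)
    (by
      intro v hv
      have h1 := hPc v hv
      have h3 := hmg (ctr s (P (c v))) (cpt s (A (lam v.1))) (cpt s (B (lam v.1))) h1.1 h1.2
        (hB v.1)
      have h4 := hnear v.2
      have h5 : lam v.1 = lam v.2 := dbl_eq hp0 hv
      rw [← h5] at h4
      exact (h3.2.2 _ h4.1 _ h4.2).2.2)
  have hdef : Real.log M - CH (dbl p lam) (fun v => T (x v.1))
      (fun v => (lam v.1, (c v, ()))) ≤ e₁ := by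
    rw [hlM]
    exact he₁
  have h2D : (0 : ℝ) ≤ 2 * D := by positivity
  have h7 := mul_le_mul_of_nonneg_left hdef h2D
  rw [hMr] at key h7
  linarith

section

variable {n a L : ℕ} {C₀ : ℝ} {Ω Λ Ξ Z : Type} [Fintype Ω] {p : Ω → ℝ} {lam : Ω → Λ}
    {x : Ω → Ξ} {T : Ξ → ℕ} {pos : Ξ → Option (Fin n) → ℕ} {A B : Λ → Option (Fin n) → ℝ}
    {zx : Ξ → Z} {zl : Λ → ℕ → Z} {cz : Z → Option (Fin n) → ℕ}

/-- The time of the first incidence is independent of a variable of the second one. -/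
lemma dbl_time3 (hp0 : ∀ ω, 0 ≤ p ω) {Γ : Type} (c : Ω → Γ) :
    CH p (fun ω => T (x ω)) lam =
      CH (dbl p lam) (fun v => T (x v.1)) (fun v => (lam v.1, (c v.2, ()))) := by
  have hq0 : ∀ v, 0 ≤ dbl p lam v := dbl_nonneg hp0
  have m1 : Marg (dbl p lam) p (fun v => v.1) := dbl_fst hp0
  have h1 : CI (dbl p lam) (fun v => T (x v.1)) (fun v => c v.2) (fun v => lam v.1) :=
    CI_glue hp0 hp0 (fun _ => rfl) (fun ω => T (x ω)) c
  unfold CI at h1
  have h4 : CH (dbl p lam) (fun v => T (x v.1)) (fun v => lam v.1) =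
      CH p (fun ω => T (x ω)) lam := m1.CH (fun ω => T (x ω)) lam
  rw [← h4, ← h1]
  refine CH_congr hq0 ?_ ?_ ?_ ?_
  · intro v v' _ _ h
    simp only [Prod.mk.injEq] at h ⊢
    tauto
  · intro v v' _ _ h
    simp only [Prod.mk.injEq] at h ⊢
    tauto
  · intro v v' _ _ h
    simp only [Prod.mk.injEq] at h ⊢
    tauto
  · intro v v' _ _ h
    simp only [Prod.mk.injEq] at h ⊢
    tauto

end

/-- From the first incidence to the second one, for a polynomial depending on the first one. -/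
lemma two (n D : ℕ) (C₀ : ℝ) (hC₀ : 1 ≤ C₀) :
    ∃ C : ℝ, 0 ≤ C ∧ ∀ (a L : ℕ) (Ω Λ Ξ Z Γ : Type) [Fintype Ω] (p : Ω → ℝ) (lam : Ω → Λ)
      (x : Ω → Ξ) (T : Ξ → ℕ) (pos : Ξ → Option (Fin n) → ℕ) (A B : Λ → Option (Fin n) → ℝ)
      (zx : Ξ → Z) (zl : Λ → ℕ → Z) (cz : Z → Option (Fin n) → ℕ) (s : ℝ) (c : Ω → Γ)
      (P : Γ → MvPolynomial (Option (Fin n)) ℝ) (eT : ℝ),
      StepF n a L C₀ p lam x T pos A B zx zl cz → 0 < s → s ≤ 1 →
      (∀ ω, 0 < p ω → P (c ω) ≠ 0 ∧ (P (c ω)).totalDegree ≤ D) →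
      (a + L) * Real.log 2 - CH p (fun ω => T (x ω)) lam ≤ eT →
      Ex p (fun ω => Real.log (PsiC s (P (c ω)) (6 * C₀ / 2 ^ (a + L))
        (rp (2 ^ (a + L)) pos (x ω)))) ≤
        Ex (dbl p lam) (fun v => Real.log (PsiC s (P (c v.1)) (6 * C₀ / 2 ^ (a + L))
          (rp (2 ^ (a + L)) pos (x v.2)))) + 2 * D * eT + C := by
  classical
  obtain ⟨C, hC, hone⟩ := one_gen n D C₀ hC₀
  refine ⟨C, hC, ?_⟩
  intro a L Ω Λ Ξ Z Γ _ p lam x T pos A B zx zl cz s c P eT hF hs0 hs1 hP he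
  have hp := hF.leaf.isLaw
  have hp0 := hp.nonneg
  have hq0 : ∀ v, 0 ≤ dbl p lam v := dbl_nonneg hp0
  have m2 : Marg (dbl p lam) p (fun v => v.2) := dbl_snd hp0
  have h1 := hone a L Ω Λ Ξ Z Γ p lam x T pos A B zx zl cz s (fun v => c v.2) P eT hF hs0 hs1
    (fun v hv => hP v.2 (m2.pos hq0 hv)) (by
      rw [← dbl_time3 hp0 c]
      exact he)
  have h2 : Ex (dbl p lam) (fun v => Real.log (PsiC s (P (c v.2)) (6 * C₀ / 2 ^ (a + L))
        (rp (2 ^ (a + L)) pos (x v.2)))) = Ex p (fun ω => Real.log (PsiC s (P (c ω))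
        (6 * C₀ / 2 ^ (a + L)) (rp (2 ^ (a + L)) pos (x ω)))) :=
    m2.ex (fun ω => Real.log (PsiC s (P (c ω))
        (6 * C₀ / 2 ^ (a + L)) (rp (2 ^ (a + L)) pos (x ω))))
  have h3 : Ex (dbl p lam) (fun v => Real.log (PsiC s (P (c v.2)) (6 * C₀ / 2 ^ (a + L))
        (rp (2 ^ (a + L)) pos (x v.1)))) = Ex (dbl p lam) (fun v => Real.log (PsiC s (P (c v.1))
        (6 * C₀ / 2 ^ (a + L)) (rp (2 ^ (a + L)) pos (x v.2)))) :=
    (dbl_symm p lam).ex (fun v => Real.log (PsiC s (P (c v.1))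
        (6 * C₀ / 2 ^ (a + L)) (rp (2 ^ (a + L)) pos (x v.2))))
  rw [h2, h3] at h1
  exact h1

/-- The polynomial of the label of the first incidence at the second incidence, positive part. -/
lemma onep (n D : ℕ) (C₀ : ℝ) (hC₀ : 1 ≤ C₀) :
    ∃ C : ℝ, 0 ≤ C ∧ ∀ (a L : ℕ) (Ω Λ Ξ Z : Type) [Fintype Ω] (p : Ω → ℝ) (lam : Ω → Λ)
      (x : Ω → Ξ) (T : Ξ → ℕ) (pos : Ξ → Option (Fin n) → ℕ) (A B : Λ → Option (Fin n) → ℝ)
      (zx : Ξ → Z) (zl : Λ → ℕ → Z) (cz : Z → Option (Fin n) → ℕ) (s : ℝ)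
      (F : Z → MvPolynomial (Option (Fin n)) ℝ) (S : Z → ℝ) (e₁ : ℝ),
      StepF n a L C₀ p lam x T pos A B zx zl cz → 0 < s → s ≤ 1 →
      (∀ ω, 0 < p ω → F (zx (x ω)) ≠ 0 ∧ (F (zx (x ω))).totalDegree ≤ D) →
      (∀ ω, 0 < p ω → PsiC s (F (zx (x ω))) (6 * C₀ / 2 ^ (a + L))
        (rp (2 ^ (a + L)) pos (x ω)) ≤ S (zx (x ω))) →
      L * Real.log 2 - CH p (fun ω => TS T L (x ω)) (lamS lam x T L) ≤ e₁ →
      Ex (dbl p lam) (fun v => max 0 (Real.log (PsiC s (F (zx (x v.1))) (6 * C₀ / 2 ^ (a + L))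
        (rp (2 ^ (a + L)) pos (x v.2))) - Real.log (S (zx (x v.1))))) ≤
        2 * D * (a * Real.log 2 + e₁) + C := by
  classical
  obtain ⟨C, hC, hone⟩ := one n D C₀ hC₀
  refine ⟨C, hC, ?_⟩
  intro a L Ω Λ Ξ Z _ p lam x T pos A B zx zl cz s F S e₁ hF hs0 hs1 hP hS he
  have hp := hF.leaf.isLaw
  have hp0 := hp.nonneg
  have hq0 : ∀ v, 0 ≤ dbl p lam v := dbl_nonneg hp0
  have m1 : Marg (dbl p lam) p (fun v => v.1) := dbl_fst hp0
  have hq : IsLaw (dbl p lam) := ⟨hq0, by rw [m1.sum]; exact hp.sum_one⟩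
  set h : ℝ := 6 * C₀ / 2 ^ (a + L) with hh
  have hh0 : 0 < h := by positivity
  set M : ℕ := 2 ^ (a + L) with hM
  set c : Ω × Ω → Z × Bool := fun v => (zx (x v.1), decide (Real.log (S (zx (x v.1))) ≤
    Real.log (PsiC s (F (zx (x v.1))) h (rp M pos (x v.2))))) with hc
  set P : Z × Bool → MvPolynomial (Option (Fin n)) ℝ := fun g => if g.2 then F g.1 else 1
    with hPd
  have hPP : ∀ v, 0 < dbl p lam v → P (c v) ≠ 0 ∧ (P (c v)).totalDegree ≤ D := by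
    intro v hv
    simp only [hPd]
    split_ifs
    · exact hP v.1 (m1.pos hq0 hv)
    · refine ⟨one_ne_zero, ?_⟩
      rw [MvPolynomial.totalDegree_one]
      exact Nat.zero_le _
  have hdet : Det (dbl p lam) (fun v => ((lam v.1, T (x v.1) / 2 ^ L), v.2)) c := by
    intro v v' _ _ hv
    simp only [Prod.mk.injEq] at hv
    have e1 : zx (x v.1) = zx (x v'.1) := by
      rw [hF.lab v.1, hF.lab v'.1, hv.1.1, hv.1.2]
    simp only [hc]
    rw [e1, hv.2]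
  have E1 := hone a L Ω Λ Ξ Z (Z × Bool) p lam x T pos A B zx zl cz s c P e₁ hF hs0 hs1 hdet
    hPP he
  have hone1 : ∀ z, PsiC s (1 : MvPolynomial (Option (Fin n)) ℝ) h z = 1 := by
    intro z
    unfold PsiC ctr
    rw [map_one]
    exact PsiA_one (fun _ => h) _
  have key : Ex (dbl p lam) (fun v => max 0 (Real.log (PsiC s (F (zx (x v.1))) h
        (rp M pos (x v.2))) - Real.log (S (zx (x v.1))))) ≤
      Ex (dbl p lam) (fun v => Real.log (PsiC s (P (c v)) h (rp M pos (x v.2))) -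
        Real.log (PsiC s (P (c v)) h (rp M pos (x v.1)))) := by
    refine Ex_mono hq0 fun v hv => ?_
    by_cases hb : Real.log (S (zx (x v.1))) ≤
      Real.log (PsiC s (F (zx (x v.1))) h (rp M pos (x v.2)))
    · have e1 : P (c v) = F (zx (x v.1)) := by
        simp only [hPd, hc]
        rw [decide_eq_true hb]
        simp
      rw [e1, max_eq_right (by linarith)]
      have h1 := hP v.1 (m1.pos hq0 hv)
      have h2 := Real.log_le_log (PsiC_pos hs0.ne' h1.1 hh0 _) (hS v.1 (m1.pos hq0 hv))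
      linarith
    · have e1 : P (c v) = 1 := by
        simp only [hPd, hc]
        rw [decide_eq_false hb]
        simp
      push Not at hb
      rw [e1, hone1, hone1, sub_self, max_eq_left (by linarith)]
  rw [Ex_sub] at key
  linarith

end Pool.KS3
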